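import Pool.Agent.LRW.TD
import Pool.Agent.LRT.VL1

/-!
TA (difficulty 3).  The Legendre transform of a Tonelli Hamiltonian.  Model: LRW/KL1.lean (the same facts for `HamK`; reuse its
proofs where possible).

PROOF.  `ta_bdd`: with `sup ‖v‖`: `⟪p, v⟫ - H (x, p) ≤ ‖p‖ ‖v‖ - (‖v‖ ‖p‖ - B) = B`.  `HamT.fenchel`: `le_ciSup`.
`HamT.leg_at`: by `low`, `⟪p + q, v⟫ - H (x, p+q) ≤ ⟪p, v⟫ - H (x, p)` for `v = Hp (x, p)` (any point is `p + q`), so the supremum is attained at `p`.
`HamT.max`: for every `v` there is `p` with `Hp (x, p) = v` and `Leg H (x, v) = ⟪p, v⟫ - H (x, p)`: `p ↦ ⟪p, v⟫ - H (x, p)` is continuous and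
`≤ B - ‖p‖ → -∞` (`sup (‖v‖ + 1)`), so it has a maximum `p` (compact ball); at a maximum `Hp (x, p) = v`: with `e = v - Hp (x, p)`,
`H (x, p + s e) ≤ H (x, p) + ⟪Hp (x, p + s e), s e⟫` (apply `low` at `p + s e` with `q = - s e`), and `⟪p + s e, v⟫ - H (x, p + s e) ≤ ⟪p, v⟫ - H (x, p)`, so
`⟪s e, v⟫ ≤ s ⟪Hp (x, p + s e), e⟫` for `s > 0`; divide by `s`, let `s → 0` (`contp`): `⟪e, v⟫ ≤ ⟪Hp (x, p), e⟫`, `‖e‖² ≤ 0`.
`HamT.tonL`: `per`, `conv`, `sup` as in KL1.  Continuity at `(x₀, v₀)`: for `‖v‖ ≤ ‖v₀‖ + 1`, by `sup (‖v₀‖ + 2)` (constant `B`), the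
maximiser satisfies `‖p‖ ≤ R := B + C₀ + 1`, `C₀ = sup |H (·, 0)|` (from `⟪p,v⟫ - H (x,p) ≥ - H (x, 0)` and `⟪p,v⟫ - H (x,p) ≤ B - ‖p‖`), so
`Leg H (x, v) = sSup over the compact ball ‖p‖ ≤ R` of the jointly continuous function `⟪p, v⟫ - H (x, p)`:
lower semicontinuity: `Leg H (x, v) ≥ ⟪p₀, v⟫ - H (x, p₀)` with the maximiser `p₀` of `(x₀, v₀)`; upper: uniform continuity of `H` on compact
sets (`IsCompact.uniformContinuousOn_of_continuous`, or `IsCompact.continuous_sSup`).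
`HamT.sub_of`: Fenchel.  `HamT.of_sub`: `SubL` at `v = Hp (x, p)` and `HamT.leg_at`.
-/

set_option autoImplicit false

open MeasureTheory Module Set Filter Topology

namespace Pool.Agent.LRW

open Pool.H45.Mather Pool.Agent.LRT

variable {n : ℕ} {E : Type*} [NormedAddCommGroup E] [InnerProductSpace ℝ E] [FiniteDimensional ℝ E]
  [MeasurableSpace E] [BorelSpace E] {b : Basis (Fin n) ℝ E}

variable {H : E × E → ℝ} {Hp : E × E → E}

omit [FiniteDimensional ℝ E] [MeasurableSpace E] [BorelSpace E] in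
theorem ta_bdd (hH : HamT b H Hp) (x v : E) : BddAbove (range fun p : E => inner ℝ p v - H (x, p)) := by
  obtain ⟨B, hB⟩ := hH.sup ‖v‖
  refine ⟨B, ?_⟩
  rintro _ ⟨r, rfl⟩
  have h1 := hB x r
  have h2 : inner ℝ r v ≤ ‖r‖ * ‖v‖ := real_inner_le_norm _ _
  have h3 : ‖r‖ * ‖v‖ = ‖v‖ * ‖r‖ := mul_comm _ _
  simp only
  linarith

omit [FiniteDimensional ℝ E] [MeasurableSpace E] [BorelSpace E] in
theorem HamT.fenchel (hH : HamT b H Hp) (x v p : E) : inner ℝ p v ≤ Leg H (x, v) + H (x, p) := by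
  have h1 : inner ℝ p v - H (x, p) ≤ Leg H (x, v) := le_ciSup (ta_bdd hH x v) p
  linarith

omit [FiniteDimensional ℝ E] [MeasurableSpace E] [BorelSpace E] in
theorem ta_ptw (hH : HamT b H Hp) (x v p r : E) :
    inner ℝ r v - H (x, r) ≤ inner ℝ p v - H (x, p) + inner ℝ (r - p) (v - Hp (x, p)) := by
  have h1 := hH.low x p (r - p)
  rw [add_sub_cancel] at h1
  have e : inner ℝ (r - p) (v - Hp (x, p)) =
      inner ℝ r v - inner ℝ p v - inner ℝ (Hp (x, p)) (r - p) := by
    rw [inner_sub_right, inner_sub_left, real_inner_comm (Hp (x, p)) (r - p)]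
  rw [e]
  linarith

omit [FiniteDimensional ℝ E] [MeasurableSpace E] [BorelSpace E] in
theorem HamT.leg_at (hH : HamT b H Hp) (x p : E) :
    Leg H (x, Hp (x, p)) = inner ℝ p (Hp (x, p)) - H (x, p) := by
  refine le_antisymm ?_ ?_
  · refine ciSup_le fun r => ?_
    have h1 := ta_ptw hH x (Hp (x, p)) p r
    rw [sub_self, inner_zero_right, add_zero] at h1
    exact h1
  · exact le_ciSup (ta_bdd hH x (Hp (x, p))) p

omit [MeasurableSpace E] [BorelSpace E] in
theorem ta_bound (hH : HamT b H Hp) (R : ℝ) : ∃ C : ℝ, 0 ≤ C ∧ ∀ x p, ‖p‖ ≤ R → ‖H (x, p)‖ ≤ C := by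
  have : ProperSpace E := FiniteDimensional.proper ℝ E
  obtain ⟨C, hC⟩ := ((isCompact_closedBall (0 : E) (∑ i, ‖b i‖)).prod
    (isCompact_closedBall (0 : E) R)).exists_bound_of_continuousOn hH.cont.continuousOn
  refine ⟨max C 0, le_max_right _ _, fun x v hv => ?_⟩
  have h1 : H (x, v) = H (ZSpan.fract b x, v) := ((hH.per v).fract x).symm
  rw [h1]
  refine (hC (ZSpan.fract b x, v) ⟨?_, ?_⟩).trans (le_max_left _ _)
  · rw [mem_closedBall_zero_iff]
    exact ZSpan.norm_fract_le b x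
  · rw [mem_closedBall_zero_iff]
    exact hv

omit [MeasurableSpace E] [BorelSpace E] in
theorem HamT.max (hH : HamT b H Hp) (x v : E) :
    ∃ p : E, Hp (x, p) = v ∧ Leg H (x, v) = inner ℝ p v - H (x, p) := by
  have : ProperSpace E := FiniteDimensional.proper ℝ E
  obtain ⟨B, hB⟩ := hH.sup (‖v‖ + 1)
  have hgc : Continuous fun p : E => inner ℝ p v - H (x, p) := by
    have h1 : Continuous fun p : E => inner ℝ p v := continuous_id.inner continuous_const
    have h2 : Continuous fun p : E => H (x, p) := hH.cont.comp (by fun_prop)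
    exact h1.sub h2
  set R : ℝ := |B + H (x, 0)| with hR
  obtain ⟨p, hpB, hp⟩ := (isCompact_closedBall (0 : E) R).exists_isMaxOn
    ⟨0, by rw [mem_closedBall_zero_iff, norm_zero]; positivity⟩ hgc.continuousOn
  have hmax : ∀ r : E, inner ℝ r v - H (x, r) ≤ inner ℝ p v - H (x, p) := by
    intro r
    by_cases hr : ‖r‖ ≤ R
    · exact hp (mem_closedBall_zero_iff.mpr hr)
    · push Not at hr
      have h0 : inner ℝ (0 : E) v - H (x, 0) ≤ inner ℝ p v - H (x, p) :=
        hp (mem_closedBall_zero_iff.mpr (by rw [norm_zero]; positivity))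
      have h1 := hB x r
      have h2 : inner ℝ r v ≤ ‖r‖ * ‖v‖ := real_inner_le_norm _ _
      have h3 : B + H (x, 0) ≤ R := le_abs_self _
      have h4 : (‖v‖ + 1) * ‖r‖ = ‖r‖ * ‖v‖ + ‖r‖ := by ring
      rw [inner_zero_left] at h0
      linarith
  have hHp : Hp (x, p) = v := by
    set e : E := v - Hp (x, p) with he
    have key : ∀ s : ℝ, 0 < s → inner ℝ e (v - Hp (x, p + s • e)) ≤ 0 := by
      intro s hs
      have h1 := hmax (p + s • e)
      have h2 := hH.low x (p + s • e) (-(s • e))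
      rw [add_neg_cancel_right, inner_neg_right] at h2
      rw [inner_add_left] at h1
      have h3 : s * inner ℝ e (v - Hp (x, p + s • e)) ≤ 0 := by
        have e1 : s * inner ℝ e (v - Hp (x, p + s • e)) =
            inner ℝ (s • e) v - inner ℝ (Hp (x, p + s • e)) (s • e) := by
          rw [real_inner_comm (s • e) (Hp (x, p + s • e)), ← inner_sub_right, inner_smul_left]
          rfl
        rw [e1]
        linarith
      by_contra hcon
      push Not at hcon
      have := mul_pos hs hcon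
      linarith
    have hcont : Continuous fun s : ℝ => inner ℝ e (v - Hp (x, p + s • e)) := by
      have h1 : Continuous fun s : ℝ => Hp (x, p + s • e) := hH.contp.comp (by fun_prop)
      exact continuous_const.inner (continuous_const.sub h1)
    have hlim : Tendsto (fun s : ℝ => inner ℝ e (v - Hp (x, p + s • e))) (𝓝[>] (0 : ℝ))
        (𝓝 (inner ℝ e (v - Hp (x, p + (0 : ℝ) • e)))) :=
      (hcont.tendsto 0).mono_left nhdsWithin_le_nhds
    have h5 : inner ℝ e (v - Hp (x, p + (0 : ℝ) • e)) ≤ 0 := by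
      refine le_of_tendsto hlim ?_
      filter_upwards [self_mem_nhdsWithin] with s hs
      exact key s hs
    rw [zero_smul, add_zero, ← he, real_inner_self_eq_norm_sq] at h5
    have h6 : ‖e‖ = 0 := by nlinarith [norm_nonneg e]
    have h7 : e = 0 := norm_eq_zero.mp h6
    rw [he, sub_eq_zero] at h7
    exact h7.symm
  refine ⟨p, hHp, le_antisymm ?_ ?_⟩
  · exact ciSup_le hmax
  · exact le_ciSup (ta_bdd hH x v) p

omit [MeasurableSpace E] [BorelSpace E] in
theorem ta_near (hH : HamT b H Hp) (ρ : ℝ) :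
    ∃ R : ℝ, 0 ≤ R ∧ ∀ x v p, ‖v‖ ≤ ρ → Leg H (x, v) ≤ inner ℝ p v - H (x, p) + (R + ‖p‖) * ‖v - Hp (x, p)‖ := by
  obtain ⟨B, hB⟩ := hH.sup (ρ + 1)
  obtain ⟨C, hC0, hC⟩ := ta_bound hH 0
  refine ⟨|B + C|, abs_nonneg _, fun x v p hv => ?_⟩
  obtain ⟨r, -, hr⟩ := hH.max x v
  have h1 := hB x r
  have h2 : inner ℝ r v ≤ ‖r‖ * ‖v‖ := real_inner_le_norm _ _
  have h3 : ‖r‖ * ‖v‖ ≤ ‖r‖ * ρ := mul_le_mul_of_nonneg_left hv (norm_nonneg r)
  have h4 := hH.fenchel x v 0
  rw [inner_zero_left] at h4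
  have h5 := hC x 0 (by rw [norm_zero])
  rw [Real.norm_eq_abs] at h5
  have h6 := le_abs_self (H (x, 0))
  have h7 := le_abs_self (B + C)
  have h8 : (ρ + 1) * ‖r‖ = ‖r‖ * ρ + ‖r‖ := by ring
  have hrR : ‖r‖ ≤ |B + C| := by linarith
  have h9 := ta_ptw hH x v p r
  have h10 : inner ℝ (r - p) (v - Hp (x, p)) ≤ ‖r - p‖ * ‖v - Hp (x, p)‖ := real_inner_le_norm _ _
  have h11 : ‖r - p‖ ≤ |B + C| + ‖p‖ := (norm_sub_le r p).trans (by linarith)
  have h12 : ‖r - p‖ * ‖v - Hp (x, p)‖ ≤ (|B + C| + ‖p‖) * ‖v - Hp (x, p)‖ :=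
    mul_le_mul_of_nonneg_right h11 (norm_nonneg _)
  rw [hr]
  linarith

omit [MeasurableSpace E] [BorelSpace E] in
theorem HamT.tonL (hH : HamT b H Hp) : TonL b (Leg H) := by
  refine ⟨?_, ?_, ?_, ?_⟩
  · rw [continuous_iff_continuousAt]
    rintro ⟨x, v⟩
    obtain ⟨p, hp2, hp1⟩ := hH.max x v
    obtain ⟨R, hR0, hR⟩ := ta_near hH (‖v‖ + 1)
    have h1 : Continuous fun z : E × E => inner ℝ p z.2 - H (z.1, p) := by
      have h2 : Continuous fun z : E × E => inner ℝ p z.2 := continuous_const.inner continuous_snd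
      have h3 : Continuous fun z : E × E => H (z.1, p) := hH.cont.comp (by fun_prop)
      exact h2.sub h3
    have h4 : Continuous fun z : E × E => inner ℝ p z.2 - H (z.1, p) + (R + ‖p‖) * ‖z.2 - Hp (z.1, p)‖ := by
      have h5 : Continuous fun z : E × E => Hp (z.1, p) := hH.contp.comp (by fun_prop)
      exact h1.add (continuous_const.mul (continuous_snd.sub h5).norm)
    have h6 : Tendsto (fun z : E × E => inner ℝ p z.2 - H (z.1, p)) (𝓝 (x, v)) (𝓝 (Leg H (x, v))) := by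
      have h7 := h1.tendsto (x, v)
      simp only at h7
      rw [← hp1] at h7
      exact h7
    have h8 : Tendsto (fun z : E × E => inner ℝ p z.2 - H (z.1, p) + (R + ‖p‖) * ‖z.2 - Hp (z.1, p)‖) (𝓝 (x, v))
        (𝓝 (Leg H (x, v))) := by
      have h7 := h4.tendsto (x, v)
      simp only at h7
      rw [← hp1, hp2, sub_self, norm_zero] at h7
      simpa using h7
    have hev : ∀ᶠ z : E × E in 𝓝 (x, v), ‖z.2‖ ≤ ‖v‖ + 1 := by
      have hc : Continuous fun z : E × E => ‖z.2‖ := continuous_snd.norm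
      have h9 : ∀ᶠ z : E × E in 𝓝 (x, v), ‖z.2‖ < ‖v‖ + 1 :=
        hc.continuousAt.eventually (gt_mem_nhds (by simp))
      exact h9.mono fun z hz => hz.le
    refine tendsto_of_tendsto_of_tendsto_of_le_of_le' h6 h8 ?_ ?_
    · refine Eventually.of_forall fun z => ?_
      have := hH.fenchel z.1 z.2 p
      show inner ℝ p z.2 - H (z.1, p) ≤ Leg H z
      have e : Leg H (z.1, z.2) = Leg H z := rfl
      linarith
    · filter_upwards [hev] with z hz
      exact hR z.1 z.2 p hz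
  · intro v i x
    show (⨆ p : E, (inner ℝ p v - H (x + b i, p))) = ⨆ p : E, (inner ℝ p v - H (x, p))
    congr 1
    funext p
    have h1 : H (x + b i, p) = H (x, p) := hH.per p i x
    rw [h1]
  · intro x
    refine ⟨convex_univ, ?_⟩
    intro v _ v' _ s s' hs hs' hss
    simp only [smul_eq_mul]
    refine ciSup_le fun p => ?_
    have h1 := hH.fenchel x v p
    have h2 := hH.fenchel x v' p
    simp only
    rw [inner_add_right, inner_smul_right, inner_smul_right]
    have h3 : H (x, p) = s * H (x, p) + s' * H (x, p) := by rw [← add_mul, hss, one_mul]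
    have h4 := mul_le_mul_of_nonneg_left h1 hs
    have h5 := mul_le_mul_of_nonneg_left h2 hs'
    linarith
  · intro A
    obtain ⟨C, hC0, hC⟩ := ta_bound hH |A|
    refine ⟨C, fun x v => ?_⟩
    have h1 := hH.fenchel x v ((A / ‖v‖) • v)
    have h2 : inner ℝ ((A / ‖v‖) • v) v = A * ‖v‖ := by
      rw [inner_smul_left, real_inner_self_eq_norm_sq]
      rcases eq_or_ne v 0 with rfl | hv
      · simp
      · have : ‖v‖ ≠ 0 := norm_ne_zero_iff.mpr hv
        show A / ‖v‖ * ‖v‖ ^ 2 = A * ‖v‖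
        field_simp
    have h3 : ‖(A / ‖v‖) • v‖ ≤ |A| := by
      rw [norm_smul, Real.norm_eq_abs, abs_div, abs_of_nonneg (norm_nonneg v)]
      rcases eq_or_ne v 0 with rfl | hv
      · simp
      · have : ‖v‖ ≠ 0 := norm_ne_zero_iff.mpr hv
        exact (div_mul_cancel₀ _ this).le
    have h4 := hC x ((A / ‖v‖) • v) h3
    rw [Real.norm_eq_abs] at h4
    have h5 := le_abs_self (H (x, (A / ‖v‖) • v))
    rw [h2] at h1
    linarith

omit [FiniteDimensional ℝ E] [MeasurableSpace E] [BorelSpace E] in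
theorem HamT.sub_of (hH : HamT b H Hp) {c : E} {κ : ℝ} {φ : E → ℝ} {P : E → E}
    (hP : ∀ x v, inner ℝ (P x) v = inner ℝ c v + fderiv ℝ φ x v) (h : ∀ x, H (x, P x) ≤ κ) :
    SubL (Leg H) c κ φ := by
  intro x v
  have h1 := hH.fenchel x v (P x)
  have h2 := hP x v
  have h3 := h x
  linarith

omit [FiniteDimensional ℝ E] [MeasurableSpace E] [BorelSpace E] in
theorem HamT.of_sub (hH : HamT b H Hp) {c : E} {κ : ℝ} {φ : E → ℝ} {P : E → E}
    (hP : ∀ x v, inner ℝ (P x) v = inner ℝ c v + fderiv ℝ φ x v) (h : SubL (Leg H) c κ φ) (x : E) :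
    H (x, P x) ≤ κ := by
  have h1 := h x (Hp (x, P x))
  have h2 := hP x (Hp (x, P x))
  have h3 := hH.leg_at x (P x)
  linarith

end Pool.Agent.LRW
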