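import Pool.Agent.LRW.TD

/-!
TF1 (difficulty 2).  `HamK` and `HamT` from bounds of the second derivative.
-/

set_option autoImplicit false

open MeasureTheory Module Set Filter Topology

namespace Pool.Agent.LRW

open Pool.H45.Mather Pool.Agent.LRT

set_option linter.unusedSectionVars false
set_option linter.unusedVariables false

variable {n : ℕ} {E : Type*} [NormedAddCommGroup E] [InnerProductSpace ℝ E] [FiniteDimensional ℝ E]
  [CompleteSpace E] {b : Basis (Fin n) ℝ E}

theorem tf1_one {f f' f'' : ℝ → ℝ} (h1 : ∀ t, HasDerivAt f (f' t) t) (h2 : ∀ t, HasDerivAt f' (f'' t) t)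
    {m : ℝ} (h : ∀ t ∈ Icc (0 : ℝ) 1, m ≤ f'' t) : f 0 + f' 0 + m / 2 ≤ f 1 := by
  have hg1 : ∀ t, HasDerivAt (fun t => f' t - m * t) (f'' t - m) t := by
    intro t
    have := (h2 t).sub ((hasDerivAt_id' t).const_mul m)
    rw [mul_one] at this
    exact this
  have hm1 : MonotoneOn (fun t => f' t - m * t) (Icc (0 : ℝ) 1) := by
    refine monotoneOn_of_deriv_nonneg (convex_Icc 0 1) (fun t _ => (hg1 t).continuousAt.continuousWithinAt)
      (fun t _ => (hg1 t).differentiableAt.differentiableWithinAt) ?_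
    intro t ht
    rw [interior_Icc] at ht
    rw [(hg1 t).deriv]
    have := h t ⟨ht.1.le, ht.2.le⟩
    linarith
  have hg2 : ∀ t, HasDerivAt (fun t => f t - f' 0 * t - m * t ^ 2 / 2) (f' t - f' 0 - m * t) t := by
    intro t
    have e1 : HasDerivAt (fun t : ℝ => m * t ^ 2 / 2) (m * t) t := by
      have := ((hasDerivAt_pow 2 t).const_mul m).div_const 2
      have e2 : m * (((2 : ℕ) : ℝ) * t ^ (2 - 1)) / 2 = m * t := by
        norm_num
        ring
      rw [e2] at this
      exact this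
    have := ((h1 t).sub ((hasDerivAt_id' t).const_mul (f' 0))).sub e1
    rw [mul_one] at this
    exact this
  have hm2 : MonotoneOn (fun t => f t - f' 0 * t - m * t ^ 2 / 2) (Icc (0 : ℝ) 1) := by
    refine monotoneOn_of_deriv_nonneg (convex_Icc 0 1) (fun t _ => (hg2 t).continuousAt.continuousWithinAt)
      (fun t _ => (hg2 t).differentiableAt.differentiableWithinAt) ?_
    intro t ht
    rw [interior_Icc] at ht
    rw [(hg2 t).deriv]
    have := hm1 ⟨le_rfl, zero_le_one⟩ ⟨ht.1.le, ht.2.le⟩ ht.1.le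
    simp only [mul_zero, sub_zero] at this
    linarith
  have := hm2 ⟨le_rfl, zero_le_one⟩ ⟨zero_le_one, le_rfl⟩ zero_le_one
  simp only [mul_zero, sub_zero, mul_one, one_pow] at this
  have e0 : m * 0 ^ 2 / 2 = 0 := by ring
  rw [e0] at this
  linarith

theorem line_taylor {F : E → ℝ} (hF : ContDiff ℝ 2 F) {m M : ℝ} (p q : E)
    (h : ∀ t ∈ Icc (0 : ℝ) 1, m ≤ fderiv ℝ (fderiv ℝ F) (p + t • q) q q ∧
      fderiv ℝ (fderiv ℝ F) (p + t • q) q q ≤ M) :
    F p + fderiv ℝ F p q + m / 2 ≤ F (p + q) ∧ F (p + q) ≤ F p + fderiv ℝ F p q + M / 2 := by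
  have hl : ∀ t : ℝ, HasDerivAt (fun t : ℝ => p + t • q) q t := by
    intro t
    have := ((hasDerivAt_id' t).smul_const q).const_add p
    rw [one_smul] at this
    exact this
  have hd : Differentiable ℝ F := hF.differentiable (by norm_num)
  have hF1 : ContDiff ℝ 1 (fderiv ℝ F) := hF.fderiv_right (by norm_num)
  have hd2 : Differentiable ℝ (fderiv ℝ F) := hF1.differentiable (by norm_num)
  have h1 : ∀ t : ℝ, HasDerivAt (fun t : ℝ => F (p + t • q)) (fderiv ℝ F (p + t • q) q) t := by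
    intro t
    exact (hd (p + t • q)).hasFDerivAt.comp_hasDerivAt t (hl t)
  have h2 : ∀ t : ℝ, HasDerivAt (fun t : ℝ => fderiv ℝ F (p + t • q) q)
      (fderiv ℝ (fderiv ℝ F) (p + t • q) q q) t := by
    intro t
    have e := (hd2 (p + t • q)).hasFDerivAt.comp_hasDerivAt t (hl t)
    exact (ContinuousLinearMap.apply ℝ ℝ q).hasFDerivAt.comp_hasDerivAt t e
  have a := tf1_one h1 h2 (fun t ht => (h t ht).1)
  have c := tf1_one (f := fun t : ℝ => -F (p + t • q)) (f' := fun t : ℝ => -(fderiv ℝ F (p + t • q) q))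
    (f'' := fun t : ℝ => -(fderiv ℝ (fderiv ℝ F) (p + t • q) q q)) (fun t => (h1 t).neg) (fun t => (h2 t).neg)
    (m := -M) (fun t ht => neg_le_neg (h t ht).2)
  simp only [zero_smul, add_zero, one_smul] at a c
  exact ⟨a, by linarith⟩

theorem tf1_grad {H : E × E → ℝ} (hH : ContDiff ℝ 2 H) (x p : E) :
    gradient (fun q => H (x, q)) p
      = (InnerProductSpace.toDual ℝ E).symm ((fderiv ℝ H (x, p)).comp (ContinuousLinearMap.inr ℝ E E)) := by
  have hd : Differentiable ℝ H := hH.differentiable (by norm_num)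
  have : HasFDerivAt (fun q => H (x, q)) ((fderiv ℝ H (x, p)).comp (ContinuousLinearMap.inr ℝ E E)) p := by
    have e : HasFDerivAt (fun q : E => (x, q)) (ContinuousLinearMap.inr ℝ E E) p := by
      exact hasFDerivAt_prodMk_right x p
    exact (hd (x, p)).hasFDerivAt.comp p e
  unfold gradient
  rw [this.fderiv]

theorem tf1_cont {H : E × E → ℝ} (hH : ContDiff ℝ 2 H) :
    Continuous (fun z : E × E => gradient (fun q => H (z.1, q)) z.2) := by
  have e : (fun z : E × E => gradient (fun q => H (z.1, q)) z.2)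
      = fun z => (InnerProductSpace.toDual ℝ E).symm ((fderiv ℝ H z).comp (ContinuousLinearMap.inr ℝ E E)) := by
    funext z
    exact tf1_grad hH z.1 z.2
  rw [e]
  have h1 : Continuous (fderiv ℝ H) := hH.continuous_fderiv (by norm_num)
  exact (InnerProductSpace.toDual ℝ E).symm.continuous.comp (h1.clm_comp continuous_const)

theorem tf1_inner {F : E → ℝ} (p q : E) : inner ℝ (gradient F p) q = fderiv ℝ F p q := by
  unfold gradient
  rw [← InnerProductSpace.toDual_apply_apply (𝕜 := ℝ), LinearIsometryEquiv.apply_symm_apply]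

theorem hamK_of_hess {H : E × E → ℝ} (hH : ContDiff ℝ 2 H) (hper : ∀ p, Per b (fun x => H (x, p)))
    {La : ℝ} (hLa : 0 < La)
    (h : ∀ x p v, ‖v‖ ^ 2 / (2 * La) ≤ fderiv ℝ (fderiv ℝ (fun q => H (x, q))) p v v ∧
      fderiv ℝ (fderiv ℝ (fun q => H (x, q))) p v v ≤ 2 * La * ‖v‖ ^ 2) :
    HamK La b H (fun z => gradient (fun q => H (z.1, q)) z.2) := by
  have hs : ∀ x, ContDiff ℝ 2 (fun q => H (x, q)) := fun x => hH.comp (contDiff_const.prodMk contDiff_id)
  refine ⟨hH.continuous, tf1_cont hH, hper, ?_, ?_⟩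
  · intro x p q
    have a := (line_taylor (hs x) (m := ‖q‖ ^ 2 / (2 * La)) (M := 2 * La * ‖q‖ ^ 2) p q (fun t _ => h x _ q)).1
    have e : ‖q‖ ^ 2 / (2 * La) / 2 = ‖q‖ ^ 2 / (4 * La) := by
      rw [div_div]
      congr 1
      ring
    rw [e] at a
    simp only [tf1_inner]
    exact a
  · intro x p q
    have a := (line_taylor (hs x) (m := ‖q‖ ^ 2 / (2 * La)) (M := 2 * La * ‖q‖ ^ 2) p q (fun t _ => h x _ q)).2
    simp only [tf1_inner]
    calc H (x, p + q) ≤ _ := a
      _ = _ := by ring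

theorem hamT_of_hess {H : E × E → ℝ} (hH : ContDiff ℝ 2 H) (hper : ∀ p, Per b (fun x => H (x, p)))
    (h : ∀ x p v, 0 ≤ fderiv ℝ (fderiv ℝ (fun q => H (x, q))) p v v)
    (hsup : ∀ A : ℝ, ∃ B : ℝ, ∀ x p, A * ‖p‖ - B ≤ H (x, p)) :
    HamT b H (fun z => gradient (fun q => H (z.1, q)) z.2) := by
  have hs : ∀ x, ContDiff ℝ 2 (fun q => H (x, q)) := fun x => hH.comp (contDiff_const.prodMk contDiff_id)
  refine ⟨hH.continuous, tf1_cont hH, hper, ?_, hsup⟩
  intro x p q
  have hc : Continuous (fun t : ℝ => fderiv ℝ (fderiv ℝ (fun q => H (x, q))) (p + t • q) q q) := by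
    have h2 : Continuous (fderiv ℝ (fderiv ℝ (fun q => H (x, q)))) := by
      have h3 : ContDiff ℝ 1 (fderiv ℝ (fun q => H (x, q))) := (hs x).fderiv_right (by norm_num)
      exact h3.continuous_fderiv (by norm_num)
    have h4 : Continuous (fun t : ℝ => p + t • q) := by fun_prop
    exact ((h2.comp h4).clm_apply continuous_const).clm_apply continuous_const
  obtain ⟨M, hM⟩ := (isCompact_Icc (a := (0 : ℝ)) (b := 1)).bddAbove_image hc.continuousOn
  have a := (line_taylor (hs x) (m := 0) (M := M) p q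
    (fun t ht => ⟨h x _ q, hM (mem_image_of_mem _ ht)⟩)).1
  simp only [tf1_inner]
  simpa using a

theorem tf1_bound {H : E × E → ℝ} {Hp : E × E → E} {La : ℝ} (hH : HamK La b H Hp) (R : ℝ) :
    ∃ C : ℝ, 0 ≤ C ∧ ∀ x p, ‖p‖ ≤ R → ‖H (x, p)‖ ≤ C := by
  have : ProperSpace E := FiniteDimensional.proper ℝ E
  obtain ⟨C, hC⟩ := ((isCompact_closedBall (0 : E) (∑ i, ‖b i‖)).prod
    (isCompact_closedBall (0 : E) R)).exists_bound_of_continuousOn hH.cont.continuousOn
  refine ⟨max C 0, le_max_right _ _, fun x v hv => ?_⟩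
  have h1 : H (x, v) = H (ZSpan.fract b x, v) := ((hH.per v).fract x).symm
  rw [h1]
  refine (hC (ZSpan.fract b x, v) ⟨?_, ?_⟩).trans (le_max_left _ _)
  · rw [mem_closedBall_zero_iff]
    exact ZSpan.norm_fract_le b x
  · rw [mem_closedBall_zero_iff]
    exact hv

theorem tf1_young {La : ℝ} (hLa : 0 < La) (s t : ℝ) : s * t ≤ s ^ 2 / (4 * La) + La * t ^ 2 := by
  have h1 : s ^ 2 / (4 * La) + La * t ^ 2 - s * t = (s - 2 * La * t) ^ 2 / (4 * La) := by
    field_simp
    ring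
  have h2 : 0 ≤ (s - 2 * La * t) ^ 2 / (4 * La) := by positivity
  linarith

theorem HamK.hamT {La : ℝ} (hLa : 1 ≤ La) {H : E × E → ℝ} {Hp : E × E → E} (h : HamK La b H Hp) :
    HamT b H Hp := by
  have hLa0 : 0 < La := by linarith
  refine ⟨h.cont, h.contp, h.per, ?_, ?_⟩
  · intro x p q
    have := h.low x p q
    have : 0 ≤ ‖q‖ ^ 2 / (4 * La) := by positivity
    linarith [h.low x p q]
  · intro A
    obtain ⟨C, hC0, hC⟩ := tf1_bound h 1
    have hg : ∀ x, ‖Hp (x, 0)‖ ≤ 2 * C := by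
      intro x
      by_cases h0 : Hp (x, 0) = 0
      · rw [h0, norm_zero]
        positivity
      · have hn : 0 < ‖Hp (x, 0)‖ := norm_pos_iff.mpr h0
        have h1 := h.low x 0 ((‖Hp (x, 0)‖)⁻¹ • Hp (x, 0))
        rw [zero_add, inner_smul_right, real_inner_self_eq_norm_sq] at h1
        have e1 : ‖Hp (x, 0)‖⁻¹ * ‖Hp (x, 0)‖ ^ 2 = ‖Hp (x, 0)‖ := by
          field_simp
        rw [e1] at h1
        have e2 : ‖(‖Hp (x, 0)‖)⁻¹ • Hp (x, 0)‖ = 1 := by
          rw [norm_smul, norm_inv, norm_norm, inv_mul_cancel₀ hn.ne']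
        have h2 := hC x ((‖Hp (x, 0)‖)⁻¹ • Hp (x, 0)) e2.le
        have h3 := hC x 0 (by rw [norm_zero]; exact zero_le_one)
        rw [Real.norm_eq_abs] at h2 h3
        have h4 : 0 ≤ ‖(‖Hp (x, 0)‖)⁻¹ • Hp (x, 0)‖ ^ 2 / (4 * La) := by positivity
        have := (abs_le.mp h2).2
        have := (abs_le.mp h3).1
        linarith
    refine ⟨C + La * (A + 2 * C) ^ 2, fun x p => ?_⟩
    have h1 := h.low x 0 p
    rw [zero_add] at h1
    have h2 : -(‖Hp (x, 0)‖ * ‖p‖) ≤ inner ℝ (Hp (x, 0)) p := by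
      have := abs_le.mp (abs_real_inner_le_norm (Hp (x, 0)) p)
      exact this.1
    have h3 := hC x 0 (by rw [norm_zero]; exact zero_le_one)
    rw [Real.norm_eq_abs] at h3
    have h4 := (abs_le.mp h3).1
    have h5 := tf1_young hLa0 ‖p‖ (A + 2 * C)
    have h6 : ‖Hp (x, 0)‖ * ‖p‖ ≤ 2 * C * ‖p‖ := mul_le_mul_of_nonneg_right (hg x) (norm_nonneg p)
    nlinarith

end Pool.Agent.LRW
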