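import Pool.Agent.LRW.PD
import Pool.Agent.LRT.VH

/-!
The basis of the lattice `T ℤⁿ`.
-/

set_option autoImplicit false

open Set MeasureTheory Topology

namespace Pool.Agent.LRW

open Pool.Agent.LRT

noncomputable section

/-- the basis `T e_i` -/
def bsT (n : ℕ) [Par n] : Module.Basis (Fin n) ℝ (RE n) :=
  (bs n).map (Par.T : RE n ≃L[ℝ] RE n).toLinearEquiv

end

end Pool.Agent.LRW
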