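import Pool.Agent.LRW.R1

/-!
R2 (difficulty 3).  The retraction maps complex neighbourhoods into each other.

PROOF.  Domain `W = {y : ℂ × CE n | |y.1.re| ≤ R - δ/2 ∧ |y.1.im| ≤ 1/10 ∧ ‖re y.2‖ ≤ R - δ ∧ ‖im y.2‖ ≤ 1/10}`, convex.
On `W`, with `a = y.1`, `t = dot (ofR ν) y.2` (`re t = inner ν (re y.2)`, `|re t| ≤ R - δ`, `|im t| ≤ 1/10`), `v = perpc ν y.2`:
`|R² - a²| ≥ Re ≥ R² - (R-δ/2)² ≥ δ/2`, the same for `t`; `|R² - a²| ≤ R² + |a|² ≤ 13`;
`‖chi‖² = |R²-a²|/|R²-t²| ≤ 26/δ` (`Complex.norm_exp`, `Complex.log_re`; or: `chi^2 = (R²-a²)/(R²-t²)` by `Complex.exp_log`), `‖chi‖ ≤ 6/δ`;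
`∂_a chi = chi * (-a/(R²-a²))`, `∂_t chi = chi * t/(R²-t²)`: norms `≤ 36/δ²` (`|a|, |t| ≤ 3`); `‖v‖ ≤ 6`.
Derivative of `y ↦ Psi R ν y.1 y.2` in the direction `(α, h)`: `α • ofR ν + (∂_a chi α + ∂_t chi (dot (ofR ν) h)) • v + chi • perpc ν h`:
norm `≤ |α| + 216/δ² |α| + 216/δ² ‖h‖ + 12/δ ‖h‖ ≤ 445/δ² max(|α|, ‖h‖) ≤ δ⁻³ max(..)`.
Mean value inequality on the convex set `W` (`Convex.norm_image_sub_le_of_norm_fderiv_le` on an open convex neighbourhood, e.g. the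
strict version of `W` with slightly larger constants; or `HasFDerivWithinAt` version) between `(a, w)` and
`(a.re, ofR (re w))`: distance `max(|a.im|, ‖im w‖) ≤ 2σδ⁴`, so `‖Psi a w - Psi a.re (ofR (re w))‖ ≤ 2σδ`.
With `psi_real` (`Psi a.re (ofR (re w)) = ofR x`): `‖im (Psi a w)‖ ≤ 2σδ < σ/2`, `‖re (Psi a w)‖ ≤ R - δ²/16 + 2σδ < R - σ`
(`σ ≤ δ³ ≤ δ²/500`).
-/

set_option autoImplicit false

open Set MeasureTheory Topology

namespace Pool.Agent.LRW

open Pool.Agent.LRT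

variable {n : ℕ}

lemma norm_chi_le {R δ : ℝ} (hR : 1 ≤ R) (hR2 : R ≤ 2) (hδ : 0 < δ) (hδ1 : δ ≤ 1 / 500) {a t : ℂ}
    (ha : |a.re| ≤ R) (ha2 : |a.im| ≤ 1) (ht : |t.re| ≤ R - δ / 4) (hab : |a.re| < R) :
    ‖chi R a t‖ ≤ 6 / δ := by
  have hsa : (R : ℂ) ^ 2 - a ^ 2 ≠ 0 := Complex.slitPlane_ne_zero (slit hab)
  have hst : (R : ℂ) ^ 2 - t ^ 2 ≠ 0 := Complex.slitPlane_ne_zero (slit (by linarith))
  have h2 : chi R a t ^ 2 = ((R : ℂ) ^ 2 - a ^ 2) / ((R : ℂ) ^ 2 - t ^ 2) := by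
    unfold chi
    rw [sq (Complex.exp _), ← Complex.exp_add, add_halves, Complex.exp_sub, Complex.exp_log hsa,
      Complex.exp_log hst]
  have hq : δ / 4 ≤ ‖(R : ℂ) ^ 2 - t ^ 2‖ := by
    refine le_trans ?_ (Complex.re_le_norm _)
    rw [re_sq_sub]
    have h1 : t.re ^ 2 ≤ (R - δ / 4) ^ 2 := by
      rw [← sq_abs t.re]
      exact pow_le_pow_left₀ (abs_nonneg _) ht 2
    nlinarith [sq_nonneg t.im]
  have hp : ‖(R : ℂ) ^ 2 - a ^ 2‖ ≤ 9 := by
    have h1 : ‖(R : ℂ) ^ 2 - a ^ 2‖ ≤ ‖(R : ℂ) ^ 2‖ + ‖a ^ 2‖ := norm_sub_le _ _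
    rw [norm_pow, norm_pow, Complex.norm_real, Real.norm_eq_abs, sq_abs] at h1
    have h3 : ‖a‖ ^ 2 = a.re ^ 2 + a.im ^ 2 := by
      rw [Complex.sq_norm, Complex.normSq_apply]
      ring
    have h4 : a.re ^ 2 ≤ R ^ 2 := by
      rw [← sq_abs a.re]
      exact pow_le_pow_left₀ (abs_nonneg _) ha 2
    have h5 : a.im ^ 2 ≤ 1 := by
      rw [← sq_abs a.im]
      exact pow_le_one₀ (abs_nonneg _) ha2
    nlinarith
  have h6 : ‖chi R a t‖ ^ 2 ≤ 9 / (δ / 4) := by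
    rw [← norm_pow, h2, norm_div]
    exact div_le_div₀ (by norm_num) hp (by linarith) hq
  have h7 : 9 / (δ / 4) ≤ (6 / δ) ^ 2 := by
    rw [div_pow, div_le_div_iff₀ (by linarith) (by positivity)]
    nlinarith
  exact (pow_le_pow_iff_left₀ (norm_nonneg _) (by positivity) two_ne_zero).mp (h6.trans h7)

lemma norm_psi_le {R δ : ℝ} (hR : 1 ≤ R) (hR2 : R ≤ 2) (hδ : 0 < δ) (hδ1 : δ ≤ 1 / 500) {ν : RE n}
    (hν : ‖ν‖ = 1) {a : ℂ} (hab : |a.re| < R) (ha2 : |a.im| ≤ 1) {w : CE n}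
    (ht : |(dot (ofR ν) w).re| ≤ R - δ / 4) (hw : ‖w‖ ≤ 5 / 2) :
    ‖Psi R ν a w‖ < 32 / δ := by
  have h1 := norm_chi_le hR hR2 hδ hδ1 hab.le ha2 ht hab
  have h2 : ‖dot (ofR ν) w‖ ≤ 5 / 2 := by
    refine (norm_dot_le _ _).trans ?_
    rw [norm_ofR, hν, one_mul]
    exact hw
  have h3 : ‖perpc ν w‖ ≤ 5 := by
    unfold perpc
    refine (norm_sub_le _ _).trans ?_
    rw [norm_smul, norm_ofR, hν, mul_one]
    linarith
  have h4 : ‖a‖ ≤ 3 := by
    refine (Complex.norm_le_abs_re_add_abs_im a).trans ?_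
    linarith
  have h5 : ‖Psi R ν a w‖ ≤ 3 + 6 / δ * 5 := by
    unfold Psi
    refine (norm_add_le _ _).trans ?_
    rw [norm_smul, norm_smul, norm_ofR, hν, mul_one]
    have := mul_le_mul h1 h3 (norm_nonneg _) (by positivity)
    linarith
  refine h5.trans_lt ?_
  have h6 : 3 + 6 / δ * 5 = (3 * δ + 30) / δ := by
    field_simp
    ring
  rw [h6]
  exact div_lt_div_of_pos_right (by linarith) hδ

theorem psi_mem {R δ σ : ℝ} (hR : 1 ≤ R) (hR2 : R ≤ 2) (hδ : 0 < δ) (hδ1 : δ ≤ 1 / 500) (hσ : 0 < σ)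
    (hσδ : σ ≤ δ ^ 3) {ν : RE n} (hν : ‖ν‖ = 1) {a : ℂ} (ha : |a.re| ≤ R - δ / 2)
    (ha2 : |a.im| ≤ 2 * (σ * δ ^ 4)) {w : CE n} (hw : w ∈ (Dw (σ * δ ^ 4) (R - δ) : Set (CE n))) :
    Psi R ν a w ∈ (Dw (σ / 2) (R - σ) : Set (CE n)) := by
  obtain ⟨hw1, hw2⟩ := hw
  obtain ⟨e, he⟩ : ∃ e : ℝ, e = σ * δ ^ 4 := ⟨_, rfl⟩
  rw [← he] at ha2 hw1
  have he0 : 0 < e := by rw [he]; positivity
  have he1 : e ≤ δ := by
    rw [he]
    have h1 : σ ≤ 1 := hσδ.trans (pow_le_one₀ hδ.le (by linarith))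
    have h2 : δ ^ 4 ≤ δ := by
      have : δ ^ 4 ≤ δ ^ 1 := pow_le_pow_of_le_one hδ.le (by linarith) (by norm_num)
      simpa using this
    calc σ * δ ^ 4 ≤ 1 * δ := mul_le_mul h1 h2 (by positivity) (by norm_num)
      _ = δ := one_mul _
  -- the radius of the disc
  obtain ⟨r, hr⟩ : ∃ r : ℝ, r = δ / (8 * e) := ⟨_, rfl⟩
  have hre : r * e = δ / 8 := by
    rw [hr]
    field_simp
  have hr1 : 1 < r := by
    rw [hr, lt_div_iff₀ (by positivity), he]
    have h1 : σ * δ ^ 4 ≤ δ ^ 3 * δ ^ 4 := mul_le_mul_of_nonneg_right hσδ (by positivity)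
    have h2 : δ ^ 3 * δ ^ 4 ≤ δ * (1 / 500) ^ 6 := by
      have : δ ^ 6 ≤ (1 / 500) ^ 6 := pow_le_pow_left₀ hδ.le hδ1 6
      calc δ ^ 3 * δ ^ 4 = δ * δ ^ 6 := by ring
        _ ≤ _ := mul_le_mul_of_nonneg_left this hδ.le
    nlinarith
  have hr0 : 0 < r := by linarith
  -- the two curves
  let A : ℂ → ℂ := fun s => (a.re : ℂ) + s * (Complex.I * (a.im : ℂ))
  let W : ℂ → CE n := fun s => ofR (re w) + s • (Complex.I • ofR (im w))
  have hA : Differentiable ℂ A :=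
    (differentiable_const _).add (differentiable_id.mul_const _)
  have hW : Differentiable ℂ W :=
    (differentiable_const _).add (differentiable_id.smul_const _)
  have hA1 : A 1 = a := by
    simp only [A, one_mul]
    rw [mul_comm]
    exact Complex.re_add_im a
  have hW1 : W 1 = w := by
    simp only [W, one_smul]
    exact (eq_re_im w).symm
  have hA0 : A 0 = (a.re : ℂ) := by simp [A]
  have hW0 : W 0 = ofR (re w) := by simp [W]
  have key : ∀ s ∈ Metric.ball (0 : ℂ) r, |(A s).re| < R ∧ |(A s).im| ≤ 1 ∧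
      |(dot (ofR ν) (W s)).re| ≤ R - δ / 4 ∧ ‖W s‖ ≤ 5 / 2 := by
    intro s hs
    rw [mem_ball_zero_iff] at hs
    have hsre : |s.re| ≤ r := (Complex.abs_re_le_norm s).trans hs.le
    have hsim : |s.im| ≤ r := (Complex.abs_im_le_norm s).trans hs.le
    have c1 : (A s).re = a.re - s.im * a.im := by
      simp [A]
      ring
    have c2 : (A s).im = s.re * a.im := by
      simp [A]
    have c3 : |s.im * a.im| ≤ δ / 4 := by
      rw [abs_mul]
      calc |s.im| * |a.im| ≤ r * (2 * e) := mul_le_mul hsim ha2 (abs_nonneg _) hr0.le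
        _ = δ / 4 := by rw [mul_comm 2 e, ← mul_assoc, hre]; ring
    have c4 : |s.re * a.im| ≤ δ / 4 := by
      rw [abs_mul]
      calc |s.re| * |a.im| ≤ r * (2 * e) := mul_le_mul hsre ha2 (abs_nonneg _) hr0.le
        _ = δ / 4 := by rw [mul_comm 2 e, ← mul_assoc, hre]; ring
    have c5 : dot (ofR ν) (W s) = ((inner ℝ ν (re w) : ℝ) : ℂ) +
        s * (Complex.I * ((inner ℝ ν (im w) : ℝ) : ℂ)) := by
      simp only [W]
      rw [dot_add, dot_smul, dot_smul, dot_ofR, dot_ofR]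
    have c6 : |inner ℝ ν (re w)| ≤ R - δ := by
      have := abs_real_inner_le_norm ν (re w)
      rw [hν, one_mul] at this
      linarith
    have c7 : |inner ℝ ν (im w)| ≤ e := by
      have := abs_real_inner_le_norm ν (im w)
      rw [hν, one_mul] at this
      linarith
    have c8 : (dot (ofR ν) (W s)).re = inner ℝ ν (re w) - s.im * inner ℝ ν (im w) := by
      rw [c5]
      simp
      ring
    have c9 : |s.im * inner ℝ ν (im w)| ≤ δ / 8 := by
      rw [abs_mul, ← hre]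
      exact mul_le_mul hsim c7 (abs_nonneg _) hr0.le
    refine ⟨?_, ?_, ?_, ?_⟩
    · rw [c1]
      refine (abs_sub _ _).trans_lt ?_
      linarith
    · rw [c2]
      linarith
    · rw [c8]
      refine (abs_sub _ _).trans ?_
      linarith
    · simp only [W]
      refine (norm_add_le _ _).trans ?_
      rw [norm_smul, norm_smul, Complex.norm_I, one_mul, norm_ofR, norm_ofR]
      have := mul_le_mul hs.le hw1.le (norm_nonneg _) hr0.le
      linarith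
  let F : ℂ → CE n := fun s => Psi R ν (A s) (W s)
  have hF : DifferentiableOn ℂ F (Metric.ball 0 r) := by
    have h1 : DifferentiableOn ℂ (fun s : ℂ => (A s, W s)) (Metric.ball 0 r) :=
      (hA.prodMk hW).differentiableOn
    refine (psi_hol R ν).comp h1 ?_
    intro s hs
    obtain ⟨k1, k2, k3, k4⟩ := key s hs
    exact ⟨k1, by
      show |(dot (ofR ν) (W s)).re| < R
      linarith⟩
  have hFb : ∀ s ∈ Metric.ball (0 : ℂ) r, ‖F s‖ < 32 / δ := by
    intro s hs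
    obtain ⟨k1, k2, k3, k4⟩ := key s hs
    exact norm_psi_le hR hR2 hδ hδ1 hν k1 k2 k3 k4
  have h0 : (0 : ℂ) ∈ Metric.ball (0 : ℂ) r := Metric.mem_ball_self hr0
  have hmaps : MapsTo F (Metric.ball 0 r) (Metric.ball (F 0) (64 / δ)) := by
    intro s hs
    rw [Metric.mem_ball, dist_eq_norm]
    refine (norm_sub_le _ _).trans_lt ?_
    have h1 := hFb s hs
    have h2 := hFb 0 h0
    have h3 : 64 / δ = 32 / δ + 32 / δ := by ring
    rw [h3]
    linarith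
  have h1m : (1 : ℂ) ∈ Metric.ball (0 : ℂ) r := by
    rw [mem_ball_zero_iff, norm_one]
    exact hr1
  have hd := Complex.dist_le_div_mul_dist_of_mapsTo_ball hF
    (hmaps.mono_right Metric.ball_subset_closedBall) h1m
  rw [dist_zero_right, norm_one, mul_one, dist_eq_norm] at hd
  have hd2 : ‖F 1 - F 0‖ ≤ 2 * σ * δ := by
    refine hd.trans ?_
    have h1 : 64 / δ / r = 512 * (σ * δ ^ 2) := by
      rw [hr, he]
      field_simp
      ring
    rw [h1]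
    have : σ * δ ^ 2 ≤ σ * (δ * (1 / 500)) := by
      apply mul_le_mul_of_nonneg_left _ hσ.le
      nlinarith
    have hsd : 0 < σ * δ := mul_pos hσ hδ
    nlinarith
  have hF1 : F 1 = Psi R ν a w := by
    simp only [F]
    rw [hA1, hW1]
  obtain ⟨x, hx1, hx2, hx3⟩ := psi_real hR hR2 hδ hδ1 hν ha hw2.le
  have hF0 : F 0 = ofR x := by
    simp only [F]
    rw [hA0, hW0, hx1]
  rw [hF1, hF0] at hd2
  have e1 : Psi R ν a w = ofR x + (Psi R ν a w - ofR x) := by abel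
  have hsd : 2 * σ * δ ≤ σ / 250 := by nlinarith
  have hs1 : σ ≤ δ ^ 2 / 500 := by
    refine hσδ.trans ?_
    have : δ ^ 3 = δ ^ 2 * δ := by ring
    rw [this]
    have := mul_le_mul_of_nonneg_left hδ1 (sq_nonneg δ)
    linarith
  refine ⟨?_, ?_⟩
  · rw [e1, im_add, im_ofR, zero_add]
    refine (norm_im_le _).trans_lt ?_
    linarith
  · rw [e1, re_add, re_ofR]
    refine (norm_add_le _ _).trans_lt ?_
    have h1 := norm_re_le (Psi R ν a w - ofR x)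
    have h2 : 0 < δ ^ 2 := by positivity
    linarith

end Pool.Agent.LRW
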