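import Pool.Agent.LRW.RD
import Pool.Agent.LRT.C2
import Pool.Agent.LRT.C6

/-!
R3 (difficulty 3).  Division along a complex line, with a parameter.

PROOF.  `f y = fderiv ℂ F y (1, 0)` is holomorphic on `Ω` (`hol_fderiv`, evaluation is linear).
`q w = ∫ s in 0..1, f (t₀ + s • (l w - t₀), w)`.
`param2`: `w ↦ ∫ s in 0..1, f (c s + A s w)` is holomorphic if `A : ℝ → V →L[ℂ] V'`, `c : ℝ → V'` are continuous, `f` is holomorphic
on the open set `Ω` and `c s + A s w ∈ Ω` for `w ∈ U`, `s ∈ [0,1]`: copy the proof of `c6_param` (LRT/C6.lean; it is the case `c = 0`,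
`V' = V = CE n`).
Here `c s = ((1-s) • t₀, 0)`, `A s w = (s • l w, w)`.
Identity: for fixed `w ∈ U` put `φ s = F (t₀ + s • (l w - t₀), w)`, `φ' s = (l w - t₀) * f (..)` on `[0,1]`
(`HasFDerivAt.comp_hasDerivAt`), `intervalIntegral.integral_eq_sub_of_hasDerivAt` (continuity of the derivative on `[0,1]`:
`f` is continuous on `Ω`).
Bound: `cauchy_fderiv`-type estimate in the first variable only: `‖f y‖ ≤ B / d` if `F (y.1 + ζ, y.2)` is holomorphic and bounded by `B` for
`‖ζ‖ < d` (apply `cauchy_fderiv` of LRT/C2 with `V = ℂ` to `ζ ↦ F (y.1 + ζ, y.2)` at `0`), then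
`intervalIntegral.norm_integral_le_of_norm_le_const`.
-/

set_option autoImplicit false

open Set MeasureTheory Topology

namespace Pool.Agent.LRW

open Pool.Agent.LRT

/-- differentiation of integrals which depend on a parameter -/
private theorem r3_param {V V' : Type*} [NormedAddCommGroup V] [NormedSpace ℂ V] [FiniteDimensional ℂ V]
    [NormedAddCommGroup V'] [NormedSpace ℂ V'] [FiniteDimensional ℂ V']
    {U : Set V} (hU : IsOpen U) {Ω : Set V'} (hΩ : IsOpen Ω) {h : V' → ℂ} (hh : DifferentiableOn ℂ h Ω)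
    {A : ℝ → V →L[ℂ] V'} (hA : Continuous A) {c : ℝ → V'} (hc : Continuous c)
    (hAU : ∀ w ∈ U, ∀ s ∈ Icc (0 : ℝ) 1, c s + A s w ∈ Ω) :
    DifferentiableOn ℂ (fun w => ∫ s in (0 : ℝ)..1, h (c s + A s w)) U := by
  intro w₀ hw₀
  apply DifferentiableAt.differentiableWithinAt
  have hh' : ContinuousOn (fderiv ℂ h) Ω := (hol_fderiv hΩ hh).continuousOn
  have : ProperSpace V := FiniteDimensional.proper ℂ V
  obtain ⟨δ, hδ, hball⟩ := Metric.nhds_basis_closedBall.mem_iff.1 (hU.mem_nhds hw₀)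
  -- the derivative of the integrand
  set F' : V → ℝ → V →L[ℂ] ℂ := fun w s => (fderiv ℂ h (c s + A s w)).comp (A s) with hF'
  have hev : Continuous (fun q : ℝ × V => c q.1 + A q.1 q.2) :=
    (hc.comp continuous_fst).add ((hA.comp continuous_fst).clm_apply continuous_snd)
  have hmaps : MapsTo (fun q : ℝ × V => c q.1 + A q.1 q.2) (Icc (0 : ℝ) 1 ×ˢ Metric.closedBall w₀ δ) Ω :=
    fun q hq => hAU _ (hball hq.2) _ hq.1
  have hc2 : ContinuousOn (fun q : ℝ × V => F' q.2 q.1) (Icc (0 : ℝ) 1 ×ˢ Metric.closedBall w₀ δ) := by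
    simp only [hF']
    exact (hh'.comp hev.continuousOn hmaps).clm_comp (hA.comp continuous_fst).continuousOn
  have hK : IsCompact (Icc (0 : ℝ) 1 ×ˢ Metric.closedBall w₀ δ) := isCompact_Icc.prod (isCompact_closedBall _ _)
  obtain ⟨C, hC⟩ := hK.exists_bound_of_continuousOn hc2
  have hI : ∀ s ∈ uIoc (0 : ℝ) 1, s ∈ Icc (0 : ℝ) 1 := by
    intro s hs
    rw [uIoc_of_le zero_le_one] at hs
    exact ⟨hs.1.le, hs.2⟩
  have hcF : ∀ w ∈ U, ContinuousOn (fun s : ℝ => h (c s + A s w)) (Icc 0 1) := by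
    intro w hw
    exact hh.continuousOn.comp (hc.add (hA.clm_apply continuous_const)).continuousOn (fun s hs => hAU w hw s hs)
  have hmeas : ∀ w ∈ U, AEStronglyMeasurable (fun s : ℝ => h (c s + A s w)) (volume.restrict (uIoc (0 : ℝ) 1)) := by
    intro w hw
    exact ((hcF w hw).mono hI).aestronglyMeasurable measurableSet_uIoc
  have key := intervalIntegral.hasFDerivAt_integral_of_dominated_of_fderiv_le (𝕜 := ℂ) (μ := volume) (a := (0 : ℝ)) (b := 1)
    (F := fun w s => h (c s + A s w)) (F' := F') (x₀ := w₀) (s := Metric.ball w₀ δ) (bound := fun _ => C)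
    (Metric.ball_mem_nhds w₀ hδ)
    (by
      filter_upwards [hU.mem_nhds hw₀] with w hw
      exact hmeas w hw)
    (by
      apply ContinuousOn.intervalIntegrable
      rw [uIcc_of_le zero_le_one]
      exact hcF w₀ hw₀)
    (by
      have h1 : ContinuousOn (fun s : ℝ => F' w₀ s) (Icc 0 1) := by
        have h2 := hc2.comp (f := fun s : ℝ => ((s, w₀) : ℝ × V)) (s := Icc (0 : ℝ) 1)
          (Continuous.prodMk continuous_id continuous_const).continuousOn
          (fun s hs => ⟨hs, Metric.mem_closedBall_self hδ.le⟩)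
        exact h2
      exact (h1.mono hI).aestronglyMeasurable measurableSet_uIoc)
    (by
      filter_upwards with s hs w hw
      exact hC (s, w) ⟨hI s hs, Metric.ball_subset_closedBall hw⟩)
    intervalIntegrable_const
    (by
      filter_upwards with s hs w hw
      have hwU := hball (Metric.ball_subset_closedBall hw)
      have h1 : HasFDerivAt h (fderiv ℂ h (c s + A s w)) (c s + A s w) :=
        (hh.differentiableAt (hΩ.mem_nhds (hAU w hwU s (hI s hs)))).hasFDerivAt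
      exact h1.comp w ((A s).hasFDerivAt.const_add (c s)))
  exact key.differentiableAt

theorem division2 {V : Type*} [NormedAddCommGroup V] [NormedSpace ℂ V] [FiniteDimensional ℂ V]
    {Ω : Set (ℂ × V)} (hΩ : IsOpen Ω) {F : ℂ × V → ℂ} (hF : DifferentiableOn ℂ F Ω) {U : Set V}
    (hU : IsOpen U) (l : V →L[ℂ] ℂ) (t₀ : ℂ) {d B : ℝ} (hd : 0 < d)
    (hseg : ∀ w ∈ U, ∀ s ∈ Icc (0 : ℝ) 1, ∀ ζ : ℂ, ‖ζ‖ < d →
      (t₀ + (s : ℂ) * (l w - t₀) + ζ, w) ∈ Ω ∧ ‖F (t₀ + (s : ℂ) * (l w - t₀) + ζ, w)‖ ≤ B) :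
    ∃ q : V → ℂ, DifferentiableOn ℂ q U ∧ (∀ w ∈ U, (l w - t₀) * q w = F (l w, w) - F (t₀, w)) ∧
      ∀ w ∈ U, ‖q w‖ ≤ B / d := by
  obtain ⟨f, hf⟩ : ∃ f : ℂ × V → ℂ, f = fun y => fderiv ℂ F y (1, 0) := ⟨_, rfl⟩
  have hfd : DifferentiableOn ℂ f Ω := by
    rw [hf]
    exact (hol_fderiv hΩ hF).clm_apply (differentiableOn_const _)
  have hmem : ∀ w ∈ U, ∀ s ∈ Icc (0 : ℝ) 1, (t₀ + (s : ℂ) * (l w - t₀), w) ∈ Ω := by
    intro w hw s hs
    have := (hseg w hw s hs 0 (by simpa using hd)).1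
    simpa using this
  -- the line of maps
  obtain ⟨A, hA⟩ : ∃ A : ℝ → V →L[ℂ] ℂ × V, A = fun s : ℝ => (((s : ℝ) : ℂ) • l).prod (ContinuousLinearMap.id ℂ V) := ⟨_, rfl⟩
  have hAc : Continuous A := by
    have h1 : A = fun s : ℝ => (s : ℂ) • (l.prod (0 : V →L[ℂ] V)) + (0 : V →L[ℂ] ℂ).prod (ContinuousLinearMap.id ℂ V) := by
      rw [hA]
      funext s
      ext w <;> simp
    rw [h1]
    exact (Complex.continuous_ofReal.smul continuous_const).add continuous_const
  have hApp : ∀ (s : ℝ) (w : V), (((1 - (s : ℂ)) * t₀, (0 : V)) : ℂ × V) + A s w = (t₀ + (s : ℂ) * (l w - t₀), w) := by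
    intro s w
    rw [hA]
    ext
    · simp
      ring
    · simp
  refine ⟨fun w => ∫ s in (0 : ℝ)..1, f (t₀ + (s : ℂ) * (l w - t₀), w), ?_, ?_, ?_⟩
  · have h2 := r3_param hU hΩ hfd hAc (c := fun s : ℝ => (((1 - (s : ℂ)) * t₀, (0 : V)) : ℂ × V)) (by fun_prop)
      (fun w hw s hs => by rw [hApp]; exact hmem w hw s hs)
    refine h2.congr fun w _ => ?_
    simp only [hApp]
  · intro w hw
    have hder : ∀ s ∈ uIcc (0 : ℝ) 1, HasDerivAt (fun s : ℝ => F (t₀ + (s : ℂ) * (l w - t₀), w))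
        ((l w - t₀) * f (t₀ + (s : ℂ) * (l w - t₀), w)) s := by
      intro s hs
      rw [uIcc_of_le zero_le_one] at hs
      have h2 : HasFDerivAt F (fderiv ℂ F (t₀ + (s : ℂ) * (l w - t₀), w)) (t₀ + (s : ℂ) * (l w - t₀), w) :=
        (hF.differentiableAt (hΩ.mem_nhds (hmem w hw s hs))).hasFDerivAt
      have h3 : HasDerivAt (fun s : ℝ => ((t₀ + (s : ℂ) * (l w - t₀), w) : ℂ × V)) ((l w - t₀, 0) : ℂ × V) s := by
        have h4 : HasDerivAt (fun s : ℝ => (s : ℂ)) 1 s := Complex.ofRealCLM.hasDerivAt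
        have h5 : HasDerivAt (fun s : ℝ => t₀ + (s : ℂ) * (l w - t₀)) (l w - t₀) s := by
          have := (h4.mul_const (l w - t₀)).const_add t₀
          simpa using this
        exact h5.prodMk (hasDerivAt_const s w)
      have h2r : HasFDerivAt F ((fderiv ℂ F (t₀ + (s : ℂ) * (l w - t₀), w)).restrictScalars ℝ)
          (t₀ + (s : ℂ) * (l w - t₀), w) := h2.restrictScalars ℝ
      have h5 : HasDerivAt (fun s : ℝ => F (t₀ + (s : ℂ) * (l w - t₀), w))
          (fderiv ℂ F (t₀ + (s : ℂ) * (l w - t₀), w) (l w - t₀, 0)) s := by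
        have h8 := HasFDerivAt.comp_hasDerivAt (𝕜 := ℝ) s h2r h3
        exact h8
      have h6 : fderiv ℂ F (t₀ + (s : ℂ) * (l w - t₀), w) (l w - t₀, 0) =
          (l w - t₀) * f (t₀ + (s : ℂ) * (l w - t₀), w) := by
        have h7 : ((l w - t₀, 0) : ℂ × V) = (l w - t₀) • ((1, 0) : ℂ × V) := by
          ext <;> simp
        rw [h7, map_smul, hf, smul_eq_mul]
      rw [h6] at h5
      exact h5
    have hcont : ContinuousOn (fun s : ℝ => f (t₀ + (s : ℂ) * (l w - t₀), w)) (Icc 0 1) :=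
      hfd.continuousOn.comp (f := fun s : ℝ => ((t₀ + (s : ℂ) * (l w - t₀), w) : ℂ × V)) (by fun_prop)
        (fun s hs => hmem w hw s hs)
    have hint : IntervalIntegrable (fun s : ℝ => (l w - t₀) * f (t₀ + (s : ℂ) * (l w - t₀), w)) volume 0 1 := by
      apply ContinuousOn.intervalIntegrable
      rw [uIcc_of_le zero_le_one]
      exact continuousOn_const.mul hcont
    have h2 := intervalIntegral.integral_eq_sub_of_hasDerivAt hder hint
    rw [intervalIntegral.integral_const_mul] at h2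
    rw [h2]
    simp
  · intro w hw
    have h2 : ∀ s ∈ uIoc (0 : ℝ) 1, ‖f (t₀ + (s : ℂ) * (l w - t₀), w)‖ ≤ B / d := by
      intro s hs
      rw [uIoc_of_le zero_le_one] at hs
      have hs' : s ∈ Icc (0 : ℝ) 1 := ⟨hs.1.le, hs.2⟩
      obtain ⟨G, hG⟩ : ∃ G : ℂ → ℂ, G = fun ζ => F (t₀ + (s : ℂ) * (l w - t₀) + ζ, w) := ⟨_, rfl⟩
      have hGd : DifferentiableOn ℂ G (Metric.ball 0 d) := by
        rw [hG]
        refine hF.comp (f := fun ζ : ℂ => ((t₀ + (s : ℂ) * (l w - t₀) + ζ, w) : ℂ × V)) ?_ ?_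
        · exact ((differentiable_const _).add differentiable_id).differentiableOn.prodMk (differentiableOn_const _)
        · intro ζ hζ
          exact (hseg w hw s hs' ζ (by simpa using hζ)).1
      have hGb : ∀ y ∈ Metric.ball (0 : ℂ) d, ‖G y‖ ≤ B := by
        intro ζ hζ
        rw [hG]
        exact (hseg w hw s hs' ζ (by simpa using hζ)).2
      have h5 := cauchy_fderiv hd hGd hGb
      have h6 : fderiv ℂ G 0 1 = f (t₀ + (s : ℂ) * (l w - t₀), w) := by
        have h7 : HasFDerivAt F (fderiv ℂ F (t₀ + (s : ℂ) * (l w - t₀), w)) (t₀ + (s : ℂ) * (l w - t₀), w) :=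
          (hF.differentiableAt (hΩ.mem_nhds (hmem w hw s hs'))).hasFDerivAt
        have h8 : HasDerivAt (fun ζ : ℂ => ((t₀ + (s : ℂ) * (l w - t₀) + ζ, w) : ℂ × V)) ((1, 0) : ℂ × V) 0 := by
          have h9 : HasDerivAt (fun ζ : ℂ => t₀ + (s : ℂ) * (l w - t₀) + ζ) 1 0 :=
            (hasDerivAt_id (0 : ℂ)).const_add _
          exact h9.prodMk (hasDerivAt_const (0 : ℂ) w)
        have h10 := h7.comp_hasDerivAt_of_eq (0 : ℂ) h8 (by simp)
        have h11 : HasDerivAt G (fderiv ℂ F (t₀ + (s : ℂ) * (l w - t₀), w) (1, 0)) 0 := by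
          rw [hG]
          exact h10
        rw [fderiv_apply_one_eq_deriv, h11.deriv, hf]
      rw [← h6]
      refine ((fderiv ℂ G 0).le_opNorm 1).trans ?_
      simpa using h5
    have h3 := intervalIntegral.norm_integral_le_of_norm_le_const h2
    simpa using h3

end Pool.Agent.LRW
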