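import Pool.Agent.LRW.PD
import Pool.Agent.LRW.R2
import Pool.Agent.LRW.R3
import Pool.Agent.LRT.C3

/-!
R4 (difficulty 4).  Division of a coefficient by `dot (dlat m) (w + w0)` up to a small residual.

PROOF.  `d = dlat m ≠ 0`, `1 ≤ ‖d‖` (`norm_lat_le_dlat`, `LRT.c11_one_le_norm` or `1 ≤ ‖LRT.lat m‖` for `m ≠ 0`), `ν = ‖d‖⁻¹ • d`,
`t₀ = - inner ν w0` (real), `t w = dot (ofR ν) w`, so `dot (ofR d) (w + ofR w0) = ‖d‖ * (t w - t₀)`.  `τ = σ δ⁴`.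
Case 1: `R - δ < |t₀|`.  On `Dw τ (R - 2δ)`: `|Re (t w)| ≤ ‖re w‖ < R - 2δ`, so `|t w - t₀| ≥ δ`; `q = g / (‖d‖ (t - t₀))`, `r = 0`;
`‖q‖ ≤ B/δ ≤ B/τ`.
Case 2: `|t₀| ≤ R - δ`.  `F (a, w) = g (Psi R ν a w)` on the open set `Ω = {(a, w) | |a.re| < R - δ/2 ∧ |a.im| < 2τ ∧ w ∈ Dw τ (R - δ)}`:
holomorphic (`psi_hol`; `|Re (t w)| < R`; `psi_mem`: values in `Dw (σ/2) (R-σ) ⊆ Dw σ R`), `‖F‖ ≤ B`.
`U = Dw τ (R - 2δ)`, `l = dotL (ofR ν)`, `d := τ` in `division2`: for `w ∈ U`, `s ∈ [0,1]`, `‖ζ‖ < τ`: real part of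
`t₀ + s (t - t₀) + ζ` is `≤ max(|t₀|, |Re t|) + τ ≤ R - δ + τ < R - δ/2`, imaginary part `< τ + τ`.  Gives `q'` with
`(t - t₀) q' = F (t w, w) - F (t₀, w) = g w - g (Psi R ν t₀ w)` (`psi_self`), `‖q'‖ ≤ B/τ`; `q = ‖d‖⁻¹ q'`, `r w = g (Psi R ν t₀ w)`.
`r` is holomorphic on `U` and `‖r‖ ≤ B`.  For real `w`, `‖w‖ ≤ R - δ`: `Psi R ν t₀ (ofR w) = ofR x`, `inner ν x = t₀`,
`‖x‖ ≤ R - δ²/16 < R - σ/2` (`psi_real`), `inner d (x + w0) = ‖d‖ (t₀ + inner ν w0) = 0`, so `‖r (ofR w)‖ ≤ A` by `hres`.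
Complex points `w ∈ Dw (τ/16) (R - 3δ)`: if `B < A` the bound is `‖r w‖ ≤ B ≤ √(A B)`.  If `im w = 0` trivial (`A ≤ √(AB)`).
Otherwise `y = ‖im w‖ < τ/16`, `e = y⁻¹ • im w`, `h ζ = r (ofR (re w) + ζ • ofR e)` for `|Re ζ| ≤ τ`, `0 ≤ Im ζ ≤ τ/2`:
point with real part `re w + Re ζ • e` (norm `< R - 3δ + τ ≤ R - 2δ`), imaginary part `Im ζ • e` (norm `≤ τ/2 < τ`); `rect_bound` (LRT/C3) with
`l = τ`, `E = B`: `‖r w‖ = ‖h (y I)‖ ≤ √(A B)`.  (This is the proof of `res_complex` in LRT/C6.lean: copy it.)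
-/

set_option autoImplicit false

open Set MeasureTheory Topology

namespace Pool.Agent.LRW

open Pool.Agent.LRT

variable {n : ℕ} [Par n]

omit [Par n] in
lemma r4_lat {m : Fin n → ℤ} (hm : m ≠ 0) : 1 ≤ ‖LRT.lat m‖ := by
  obtain ⟨i, hi⟩ := Function.ne_iff.1 hm
  have h1 : ‖LRT.lat m i‖ ≤ ‖LRT.lat m‖ := PiLp.norm_apply_le (LRT.lat m) i
  rw [LRT.lat_apply, Real.norm_eq_abs] at h1
  have h2 : (1 : ℤ) ≤ |m i| := Int.one_le_abs hi
  have h3 : (1 : ℝ) ≤ |(m i : ℝ)| := by exact_mod_cast h2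
  exact h3.trans h1

omit [Par n] in
lemma r4_re (a : RE n) (w : CE n) : (dot (ofR a) w).re = inner ℝ a (re w) := by
  rw [c6_dot]
  simp

omit [Par n] in
lemma r4_im (a : RE n) (w : CE n) : (dot (ofR a) w).im = inner ℝ a (im w) := by
  rw [c6_dot]
  simp

omit [Par n] in
lemma r4_abs {a : RE n} (ha : ‖a‖ = 1) (x : RE n) : |inner ℝ a x| ≤ ‖x‖ := by
  have := abs_real_inner_le_norm a x
  rwa [ha, one_mul] at this

omit [Par n] in
/-- the two constants step -/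
lemma r4_cx {R τ δ A B : ℝ} (hτ : 0 < τ) (hτδ : τ ≤ δ) (hA : 0 < A) (hAB : A ≤ B) {r : CE n → ℂ}
    (hr : DifferentiableOn ℂ r (Dw τ (R - 2 * δ))) (hb : ∀ w ∈ (Dw τ (R - 2 * δ) : Set (CE n)), ‖r w‖ ≤ B)
    (hx : ∀ x : RE n, ‖x‖ ≤ R - 2 * δ → ‖r (ofR x)‖ ≤ A) {w : CE n}
    (hw : w ∈ (Dw (τ / 16) (R - 3 * δ) : Set (CE n))) : ‖r w‖ ≤ √(A * B) := by
  have hsqrt : A ≤ √(A * B) := by
    apply Real.le_sqrt_of_sq_le
    nlinarith
  by_cases hy : im w = 0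
  · have h1 : w = ofR (re w) := by
      conv_lhs => rw [eq_re_im w]
      rw [hy]
      simp
    rw [h1]
    exact (hx (re w) (by linarith [hw.2])).trans hsqrt
  · have hy0 : 0 < ‖im w‖ := norm_pos_iff.2 hy
    obtain ⟨e, he⟩ : ∃ e : RE n, e = (‖im w‖⁻¹ : ℝ) • im w := ⟨_, rfl⟩
    have hen : ‖e‖ = 1 := by
      rw [he, norm_smul, norm_inv, norm_norm, inv_mul_cancel₀ hy0.ne']
    have hee : ‖im w‖ • e = im w := by
      rw [he, smul_smul, mul_inv_cancel₀ hy0.ne', one_smul]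
    have himz : ∀ z : ℂ, im (ofR (re w) + z • ofR e) = z.im • e := by
      intro z
      ext i
      simp
    have hrez : ∀ z : ℂ, re (ofR (re w) + z • ofR e) = re w + z.re • e := by
      intro z
      ext i
      simp
    have hmem : ∀ z : ℂ, |z.re| ≤ τ → 0 ≤ z.im → z.im ≤ τ / 2 →
        ofR (re w) + z • ofR e ∈ (Dw τ (R - 2 * δ) : Set (CE n)) := by
      intro z h1 h2 h3
      constructor
      · rw [himz, norm_smul, hen, mul_one, Real.norm_eq_abs, abs_of_nonneg h2]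
        linarith
      · rw [hrez]
        have h4 := norm_add_le (re w) (z.re • e)
        rw [norm_smul, hen, mul_one, Real.norm_eq_abs] at h4
        linarith [hw.2]
    have hline : Differentiable ℂ (fun z : ℂ => ofR (re w) + z • ofR e) := by
      fun_prop
    have hb := rect_bound (g := fun z : ℂ => r (ofR (re w) + z • ofR e)) (l := τ) (A := A) (E := B) (y := ‖im w‖)
      hτ hA hAB
      (hr.continuousOn.comp hline.continuous.continuousOn (fun z hz => hmem z hz.1 hz.2.1 hz.2.2))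
      (hr.comp hline.differentiableOn (fun z hz => hmem z hz.1.le hz.2.1.le hz.2.2.le))
      (fun z h1 h2 h3 => hb _ (hmem z h1 h2 h3))
      (fun x hx' => by
        have h1 : ofR (re w) + (x : ℂ) • ofR e = ofR (re w + x • e) := by
          rw [ofR_add, c6_ofR_smul]
        rw [h1]
        apply hx
        have h4 := norm_add_le (re w) (x • e)
        rw [norm_smul, hen, mul_one, Real.norm_eq_abs] at h4
        linarith [hw.2])
      hy0.le (by linarith [hw.1])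
    have h1 : ofR (re w) + ((‖im w‖ : ℂ) * Complex.I) • ofR e = w := by
      conv_rhs => rw [eq_re_im w]
      congr 1
      conv_rhs => rw [← hee, c6_ofR_smul]
      rw [smul_smul, mul_comm]
    rw [h1] at hb
    exact hb

omit [Par n] in
/-- the case of a plane which meets the ball -/
lemma r4_main {R δ σ A B : ℝ} (hR : 1 ≤ R) (hR2 : R ≤ 2) (hδ : 0 < δ) (hδ1 : δ ≤ 1 / 500)
    (hσ : 0 < σ) (hσδ : σ ≤ δ ^ 3) (hA : 0 < A) {ν : RE n} (hν : ‖ν‖ = 1) {t₀ : ℝ} (ht₀ : |t₀| ≤ R - δ)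
    {g : CE n → ℂ} (hg : DifferentiableOn ℂ g (Dw σ R)) (hB : ∀ w ∈ Dw σ R, ‖g w‖ ≤ B)
    (hres : ∀ w : RE n, inner ℝ ν w = t₀ → ‖w‖ < R - σ / 2 → ‖g (ofR w)‖ ≤ A) :
    ∃ q r : CE n → ℂ, DifferentiableOn ℂ q (Dw (σ * δ ^ 4) (R - 2 * δ)) ∧
      DifferentiableOn ℂ r (Dw (σ * δ ^ 4) (R - 2 * δ)) ∧
      (∀ w ∈ (Dw (σ * δ ^ 4) (R - 2 * δ) : Set (CE n)),
        (dot (ofR ν) w - (t₀ : ℂ)) * q w = g w - r w) ∧
      (∀ w ∈ (Dw (σ * δ ^ 4) (R - 2 * δ) : Set (CE n)), ‖q w‖ ≤ B / (σ * δ ^ 4)) ∧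
      ∀ w ∈ (Dw (σ * δ ^ 4 / 16) (R - 3 * δ) : Set (CE n)), ‖r w‖ ≤ √(A * B) := by
  have hδ4 : 0 < δ ^ 4 := by positivity
  have hδ4' : δ ^ 4 ≤ 1 / 4 := by
    have h1 : δ ^ 4 ≤ (1 / 500) ^ 4 := pow_le_pow_left₀ hδ.le hδ1 4
    norm_num at h1 ⊢
    linarith
  have hσδ' : σ ≤ δ := by
    have h1 : δ ^ 3 ≤ δ := by
      have h2 : δ ^ 2 ≤ 1 := by nlinarith
      calc δ ^ 3 = δ * δ ^ 2 := by ring
        _ ≤ δ * 1 := mul_le_mul_of_nonneg_left h2 hδ.le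
        _ = δ := mul_one δ
    linarith
  obtain ⟨τ, hτ⟩ : ∃ τ, τ = σ * δ ^ 4 := ⟨_, rfl⟩
  have hτ0 : 0 < τ := by rw [hτ]; positivity
  have hτσ : τ ≤ σ / 4 := by
    rw [hτ]
    nlinarith
  have hσ2 : σ / 2 < δ ^ 2 / 16 := by
    have h1 : δ ^ 3 = δ * δ ^ 2 := by ring
    have h2 : 0 < δ ^ 2 := by positivity
    have h3 : δ * δ ^ 2 ≤ 1 / 500 * δ ^ 2 := mul_le_mul_of_nonneg_right hδ1 h2.le
    linarith
  rw [← hτ]
  have hzero : (0 : CE n) ∈ (Dw σ R : Set (CE n)) := by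
    have := ofR_mem_Dw (n := n) (R := R) hσ (w := 0) (by rw [norm_zero]; linarith)
    rwa [ofR_zero] at this
  have hB0 : 0 ≤ B := (norm_nonneg _).trans (hB 0 hzero)
  -- the domain of the two variable function
  obtain ⟨Ω, hΩ⟩ : ∃ Ω : Set (ℂ × CE n), Ω = {y | |y.1.re| < R - δ / 2 ∧ |y.1.im| < 2 * τ ∧
      y.2 ∈ (Dw τ (R - δ) : Set (CE n))} := ⟨_, rfl⟩
  have hΩo : IsOpen Ω := by
    rw [hΩ]
    have h1 : IsOpen {y : ℂ × CE n | |y.1.re| < R - δ / 2} :=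
      isOpen_lt (Complex.continuous_re.comp continuous_fst).abs continuous_const
    have h2 : IsOpen {y : ℂ × CE n | |y.1.im| < 2 * τ} :=
      isOpen_lt (Complex.continuous_im.comp continuous_fst).abs continuous_const
    have h3 : IsOpen {y : ℂ × CE n | y.2 ∈ (Dw τ (R - δ) : Set (CE n))} :=
      (isOpen_Dw τ (R - δ)).preimage continuous_snd
    exact h1.inter (h2.inter h3)
  have hpsi : ∀ y ∈ Ω, Psi R ν y.1 y.2 ∈ (Dw σ R : Set (CE n)) := by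
    intro y hy
    rw [hΩ] at hy
    obtain ⟨h1, h2, h3⟩ := hy
    have h4 := psi_mem hR hR2 hδ hδ1 hσ hσδ hν (a := y.1) h1.le (by rw [← hτ]; exact h2.le) (w := y.2)
      (by rw [← hτ]; exact h3)
    exact Dw_mono (by linarith) (by linarith) h4
  have hF : DifferentiableOn ℂ (fun y : ℂ × CE n => g (Psi R ν y.1 y.2)) Ω := by
    refine hg.comp (t := Dw σ R) ((psi_hol R ν).mono ?_) hpsi
    intro y hy
    rw [hΩ] at hy
    obtain ⟨h1, h2, h3⟩ := hy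
    refine ⟨by linarith, ?_⟩
    rw [r4_re]
    have := r4_abs hν (re y.2)
    linarith [h3.2]
  have hFB : ∀ y ∈ Ω, ‖g (Psi R ν y.1 y.2)‖ ≤ B := fun y hy => hB _ (hpsi y hy)
  have ht : ∀ w ∈ (Dw τ (R - 2 * δ) : Set (CE n)), ((t₀ : ℂ), w) ∈ Ω := by
    intro w hw
    rw [hΩ]
    refine ⟨?_, ?_, Dw_mono le_rfl (by linarith) hw⟩
    · simp only [Complex.ofReal_re]
      linarith
    · simp only [Complex.ofReal_im, abs_zero]
      linarith
  obtain ⟨q, hq1, hq2, hq3⟩ := division2 hΩo hF (isOpen_Dw τ (R - 2 * δ)) (dotL (ofR ν)) (t₀ : ℂ) hτ0 (B := B)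
    (by
      intro w hw s hs ζ hζ
      have hmem : ((t₀ : ℂ) + (s : ℂ) * (dotL (ofR ν) w - (t₀ : ℂ)) + ζ, w) ∈ Ω := by
        rw [hΩ]
        have e1 : ((t₀ : ℂ) + (s : ℂ) * (dotL (ofR ν) w - (t₀ : ℂ)) + ζ).re =
            (1 - s) * t₀ + s * inner ℝ ν (re w) + ζ.re := by
          simp only [dotL_apply, Complex.add_re, Complex.ofReal_re, Complex.mul_re, Complex.sub_re, Complex.ofReal_im,
            Complex.sub_im, r4_re]
          ring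
        have e2 : ((t₀ : ℂ) + (s : ℂ) * (dotL (ofR ν) w - (t₀ : ℂ)) + ζ).im = s * inner ℝ ν (im w) + ζ.im := by
          simp only [dotL_apply, Complex.add_im, Complex.ofReal_re, Complex.mul_im, Complex.sub_re, Complex.ofReal_im,
            Complex.sub_im, r4_im]
          ring
        have a1 := r4_abs hν (re w)
        have a2 := r4_abs hν (im w)
        have a3 : |ζ.re| ≤ ‖ζ‖ := Complex.abs_re_le_norm ζ
        have a4 : |ζ.im| ≤ ‖ζ‖ := Complex.abs_im_le_norm ζ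
        have b1 := hw.1
        have b2 := hw.2
        obtain ⟨s0, s1⟩ := hs
        refine ⟨?_, ?_, Dw_mono le_rfl (by linarith) hw⟩
        · simp only [e1]
          have c1 : |(1 - s) * t₀| ≤ (1 - s) * (R - δ) := by
            rw [abs_mul, abs_of_nonneg (by linarith : 0 ≤ 1 - s)]
            exact mul_le_mul_of_nonneg_left ht₀ (by linarith)
          have c2 : |s * inner ℝ ν (re w)| ≤ s * (R - δ) := by
            rw [abs_mul, abs_of_nonneg s0]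
            exact mul_le_mul_of_nonneg_left (by linarith) s0
          have c3 := abs_add_three ((1 - s) * t₀) (s * inner ℝ ν (re w)) ζ.re
          have c4 : (1 - s) * (R - δ) + s * (R - δ) = R - δ := by ring
          linarith
        · simp only [e2]
          have c1 : |s * inner ℝ ν (im w)| ≤ |inner ℝ ν (im w)| := by
            rw [abs_mul, abs_of_nonneg s0]
            exact mul_le_of_le_one_left (abs_nonneg _) s1
          have c3 := abs_add_le (s * inner ℝ ν (im w)) ζ.im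
          linarith
      exact ⟨hmem, hFB _ hmem⟩)
  have hrd : DifferentiableOn ℂ (fun w : CE n => g (Psi R ν (t₀ : ℂ) w)) (Dw τ (R - 2 * δ)) := by
    have h1 : DifferentiableOn ℂ (fun w : CE n => (((t₀ : ℂ), w) : ℂ × CE n)) (Dw τ (R - 2 * δ)) := by fun_prop
    have h2 := DifferentiableOn.comp (t := Ω) hF h1 ht
    exact h2
  refine ⟨q, fun w => g (Psi R ν (t₀ : ℂ) w), hq1, hrd, ?_, hq3, ?_⟩
  · intro w hw
    have h1 := hq2 w hw
    simp only [dotL_apply] at h1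
    rw [psi_self] at h1
    exact h1
  · intro w hw
    have hrb : ∀ w ∈ (Dw τ (R - 2 * δ) : Set (CE n)), ‖g (Psi R ν (t₀ : ℂ) w)‖ ≤ B :=
      fun w hw => hFB _ (ht w hw)
    have hwU : w ∈ (Dw τ (R - 2 * δ) : Set (CE n)) := Dw_mono (by linarith) (by linarith) hw
    rcases le_or_gt B A with hBA | hAB
    · have h1 := hrb w hwU
      refine h1.trans ?_
      apply Real.le_sqrt_of_sq_le
      nlinarith
    · refine r4_cx (r := fun w => g (Psi R ν (t₀ : ℂ) w)) hτ0 (by linarith) hA hAB.le hrd hrb ?_ hw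
      intro x hx
      obtain ⟨x', hx1, hx2, hx3⟩ := psi_real hR hR2 hδ hδ1 hν (a := t₀) (by linarith) (w := x) (by linarith)
      simp only [hx1]
      exact hres x' hx2 (by linarith)

theorem div_res {R δ σ A B : ℝ} (hR : 1 ≤ R) (hR2 : R ≤ 2) (hδ : 0 < δ) (hδ1 : δ ≤ 1 / 500)
    (hσ : 0 < σ) (hσδ : σ ≤ δ ^ 3) (hA : 0 < A) (w0 : RE n) {m : Fin n → ℤ} (hm : m ≠ 0) {g : CE n → ℂ}
    (hg : DifferentiableOn ℂ g (Dw σ R)) (hB : ∀ w ∈ Dw σ R, ‖g w‖ ≤ B)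
    (hres : ∀ w : RE n, inner ℝ (dlat m) (w + w0) = 0 → ‖w‖ < R - σ / 2 → ‖g (ofR w)‖ ≤ A) :
    ∃ q r : CE n → ℂ, DifferentiableOn ℂ q (Dw (σ * δ ^ 4) (R - 2 * δ)) ∧
      DifferentiableOn ℂ r (Dw (σ * δ ^ 4) (R - 2 * δ)) ∧
      (∀ w ∈ (Dw (σ * δ ^ 4) (R - 2 * δ) : Set (CE n)),
        dot (ofR (dlat m)) (w + ofR w0) * q w = g w - r w) ∧
      (∀ w ∈ (Dw (σ * δ ^ 4) (R - 2 * δ) : Set (CE n)), ‖q w‖ ≤ B / (σ * δ ^ 4)) ∧
      ∀ w ∈ (Dw (σ * δ ^ 4 / 16) (R - 3 * δ) : Set (CE n)), ‖r w‖ ≤ √(A * B) := by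
  have hd1 : 1 ≤ ‖dlat m‖ := (r4_lat hm).trans (norm_lat_le_dlat m)
  have hd0 : 0 < ‖dlat m‖ := by linarith
  obtain ⟨ν, hν⟩ : ∃ ν : RE n, ν = (‖dlat m‖⁻¹ : ℝ) • dlat m := ⟨_, rfl⟩
  have hν1 : ‖ν‖ = 1 := by
    rw [hν, norm_smul, norm_inv, norm_norm, inv_mul_cancel₀ hd0.ne']
  have hdν : dlat m = ‖dlat m‖ • ν := by
    rw [hν, smul_smul, mul_inv_cancel₀ hd0.ne', one_smul]
  have hdc : ((‖dlat m‖ : ℝ) : ℂ) ≠ 0 := Complex.ofReal_ne_zero.2 hd0.ne'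
  obtain ⟨t₀, ht₀⟩ : ∃ t₀ : ℝ, t₀ = - inner ℝ ν w0 := ⟨_, rfl⟩
  have hdot : ∀ w : CE n, dot (ofR (dlat m)) (w + ofR w0) =
      ((‖dlat m‖ : ℝ) : ℂ) * (dot (ofR ν) w - (t₀ : ℂ)) := by
    intro w
    have h1 : ofR (dlat m) = ((‖dlat m‖ : ℝ) : ℂ) • ofR ν := by
      conv_lhs => rw [hdν]
      exact c6_ofR_smul _ _
    rw [h1, smul_dot, dot_add, dot_ofR, ht₀]
    push_cast
    ring
  have hδ4 : 0 < δ ^ 4 := by positivity
  have hδ4' : δ ^ 4 ≤ 1 / 4 := by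
    have h1 : δ ^ 4 ≤ (1 / 500) ^ 4 := pow_le_pow_left₀ hδ.le hδ1 4
    norm_num at h1 ⊢
    linarith
  have hσδ' : σ ≤ δ := by
    have h1 : δ ^ 3 ≤ δ := by
      have h2 : δ ^ 2 ≤ 1 := by nlinarith
      calc δ ^ 3 = δ * δ ^ 2 := by ring
        _ ≤ δ * 1 := mul_le_mul_of_nonneg_left h2 hδ.le
        _ = δ := mul_one δ
    linarith
  have hτσ : σ * δ ^ 4 ≤ σ / 4 := by nlinarith
  have hτ0 : 0 < σ * δ ^ 4 := by positivity
  have hzero : (0 : CE n) ∈ (Dw σ R : Set (CE n)) := by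
    have := ofR_mem_Dw (n := n) (R := R) hσ (w := 0) (by rw [norm_zero]; linarith)
    rwa [ofR_zero] at this
  have hB0 : 0 ≤ B := (norm_nonneg _).trans (hB 0 hzero)
  rcases le_or_gt |t₀| (R - δ) with hcase | hcase
  · obtain ⟨q, r, hq, hr, hqr, hqB, hrA⟩ := r4_main hR hR2 hδ hδ1 hσ hσδ hA hν1 hcase hg hB
      (by
        intro w hw1 hw2
        apply hres w _ hw2
        have h1 : inner ℝ (dlat m) (w + w0) = ‖dlat m‖ * (inner ℝ ν w + inner ℝ ν w0) := by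
          conv_lhs => rw [hdν]
          rw [inner_smul_left, inner_add_right]
          simp
        rw [h1, hw1, ht₀]
        ring)
    refine ⟨fun w => ((‖dlat m‖ : ℝ) : ℂ)⁻¹ * q w, r, hq.const_mul _, hr, ?_, ?_, hrA⟩
    · intro w hw
      rw [hdot, ← hqr w hw]
      field_simp
    · intro w hw
      rw [norm_mul, norm_inv, Complex.norm_real, norm_norm]
      have h1 : ‖dlat m‖⁻¹ ≤ 1 := inv_le_one_of_one_le₀ hd1
      exact (mul_le_of_le_one_left (norm_nonneg _) h1).trans (hqB w hw)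
  · have hU : ∀ w ∈ (Dw (σ * δ ^ 4) (R - 2 * δ) : Set (CE n)), δ ≤ ‖dot (ofR ν) w - (t₀ : ℂ)‖ := by
      intro w hw
      have h1 : |(dot (ofR ν) w - (t₀ : ℂ)).re| ≤ ‖dot (ofR ν) w - (t₀ : ℂ)‖ := Complex.abs_re_le_norm _
      rw [Complex.sub_re, Complex.ofReal_re, r4_re] at h1
      have h2 := r4_abs hν1 (re w)
      have h3 : |t₀| - |inner ℝ ν (re w)| ≤ |inner ℝ ν (re w) - t₀| := by
        rw [abs_sub_comm]
        exact abs_sub_abs_le_abs_sub _ _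
      linarith [hw.2]
    have hne : ∀ w ∈ (Dw (σ * δ ^ 4) (R - 2 * δ) : Set (CE n)), dot (ofR ν) w - (t₀ : ℂ) ≠ 0 := by
      intro w hw h0
      have := hU w hw
      rw [h0, norm_zero] at this
      linarith
    have hsub : (Dw (σ * δ ^ 4) (R - 2 * δ) : Set (CE n)) ⊆ Dw σ R := Dw_mono (by linarith) (by linarith)
    refine ⟨fun w => g w * (((‖dlat m‖ : ℝ) : ℂ) * (dot (ofR ν) w - (t₀ : ℂ)))⁻¹, fun _ => 0, ?_,
      differentiableOn_const _, ?_, ?_, ?_⟩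
    · refine (hg.mono hsub).mul (DifferentiableOn.inv ?_ ?_)
      · have h1 : Differentiable ℂ (fun w : CE n => dot (ofR ν) w) := (dotL (ofR ν)).differentiable
        exact ((h1.sub_const _).const_mul _).differentiableOn
      · intro w hw
        exact mul_ne_zero hdc (hne w hw)
    · intro w hw
      have := hne w hw
      rw [hdot]
      field_simp
      ring
    · intro w hw
      have h1 := hU w hw
      simp only
      rw [← div_eq_mul_inv, norm_div, norm_mul, Complex.norm_real, norm_norm]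
      have h2 : σ * δ ^ 4 ≤ ‖dlat m‖ * ‖dot (ofR ν) w - (t₀ : ℂ)‖ := by
        have h3 : 1 * δ ≤ ‖dlat m‖ * ‖dot (ofR ν) w - (t₀ : ℂ)‖ := mul_le_mul hd1 h1 hδ.le hd0.le
        linarith
      exact div_le_div₀ hB0 (hB w (hsub hw)) hτ0 h2
    · intro w _
      rw [norm_zero]
      exact Real.sqrt_nonneg _

end Pool.Agent.LRW
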