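import Pool.Agent.LRW.FW
import Pool.Agent.LRW.R4
import Pool.Agent.LRT.C11

/-!
C11 (difficulty 4).  Approximate solution of the linear equation.

PROOF.  `δ₀ = 1 / (500 * Th n)`; `τ = σ δ⁴`, so `Th n * τ ≤ σ/4`.  For `m ∈ (bx n K).erase 0`: `g = coef G m` is holomorphic on `Dw σ R`
(`coef_hol`), `‖g‖ ≤ B_m = ε exp(-(2π σ ‖LRT.lat m‖))` (`coef_bound`); `div_res` gives `q m`, `r m` (`choose`, `0` for `m = 0`).
`dv0 z = -∑ m ∈ (bx n K).erase 0, ((2πi)⁻¹ * q m z.2) * ch m z.1`, `dv z = (dv0 z + conj (dv0 (cjp z))) / 2`.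
Bound on `D τ (R-2δ)`: `‖ch m z.1‖ ≤ exp (2π ‖LRT.lat m‖ Th τ)` (`ch_norm_le`), so `‖dv0 z‖ ≤ ε/τ ∑ exp(-(σ ‖LRT.lat m‖)) ≤ ε/τ * C/σ^n`
(`LRT.lat_sum`).  Periodic: `ch_shift`.
Derivative: `dot (gx dv0 z) v = -∑ q m z.2 * dot (ofR (dlat m)) v * ch m z.1` (as `c11_gx_sum` in LRT/C11.lean, with `ch_hasFDerivAt`).  With
`v = z.2 + ofR w0` and the identity of `div_res`: `= -∑ (coef G m z.2 - r m z.2) * ch m z.1`.  So
`dot (gx dv0 z) (z.2 + ofR w0) + ∑ coef G m z.2 * ch m z.1 = ∑ r m z.2 * ch m z.1` and for `z ∈ D (τ/16) (R-3δ)`: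
`‖r m z.2‖ ≤ √(A B_m) = √(A ε) exp(-(π σ ‖LRT.lat m‖))`, `‖ch m z.1‖ ≤ exp(2π ‖LRT.lat m‖ Th τ/16)`: each term `≤ √(A ε)`; the number of
terms is `≤ (2K+1)^n` (`LRT.c11_card_bx`).
Conjugate part: `dv1 z = conj (dv0 (cjp z))` is holomorphic (`LRT.c8_fd`-type argument or `HasFDerivAt` with the real linear maps
conjugation), `dot (gx dv1 z) v = conj (dot (gx dv0 (cjp z)) (cj v))`, and
`∑ coef G m z.2 * ch m z.1 = conj (∑ coef G m (cj z.2) * ch m (cj z.1))` (`coef_real`, `ch_cj`, the bijection `m ↦ -m` of `(bx n K).erase 0`,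
`LRT.c11_bx_neg`): the same bound for `dv1` at `z` as for `dv0` at `cjp z`.  (Alternative: replace `q m w` by
`(q m w - conj (q (-m) (cj w)))/2` and `r m w` by `(r m w + conj (r (-m) (cj w)))/2`: then `dv0` itself is real.)
Reality of `dv`: `dv (cjp z) = conj (dv z)` by symmetry.
-/

set_option autoImplicit false

open Set MeasureTheory Topology

namespace Pool.Agent.LRW

open Pool.Agent.LRT

variable {n : ℕ}

/-- `conj ∘ f ∘ conj` is holomorphic -/
theorem w11_conj_diff {f : CE n → ℂ} {w : CE n} (h : DifferentiableAt ℂ f (cj w)) :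
    DifferentiableAt ℂ (fun v => (starRingEnd ℂ) (f (cj v))) w := by
  have e1 := h.hasFDerivAt
  have e2 : HasFDerivAt f ((fderiv ℂ f (cj w)).restrictScalars ℝ) (c11_cjL w) :=
    e1.restrictScalars ℝ
  have e3 : HasFDerivAt (fun w => f (c11_cjL w))
      (((fderiv ℂ f (cj w)).restrictScalars ℝ).comp c11_cjL) w :=
    e2.comp w c11_cjL.hasFDerivAt
  have e4 : HasFDerivAt (fun w => Complex.conjCLE (f (c11_cjL w)))
      ((Complex.conjCLE : ℂ →L[ℝ] ℂ).comp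
        (((fderiv ℂ f (cj w)).restrictScalars ℝ).comp c11_cjL)) w :=
    (Complex.conjCLE : ℂ →L[ℝ] ℂ).hasFDerivAt.comp w e3
  let L' : CE n →L[ℂ] ℂ := LinearMap.toContinuousLinearMap
    { toFun := fun v => (starRingEnd ℂ) (fderiv ℂ f (cj w) (cj v))
      map_add' := fun x y => by rw [c11_cj_add, map_add, map_add]
      map_smul' := fun c x => by
        have h1 : cj (c • x) = (starRingEnd ℂ) c • cj x := by ext i; simp
        rw [h1, map_smul, smul_eq_mul, map_mul, Complex.conj_conj]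
        rfl }
  have e5 : L'.restrictScalars ℝ = (Complex.conjCLE : ℂ →L[ℝ] ℂ).comp
        (((fderiv ℂ f (cj w)).restrictScalars ℝ).comp c11_cjL) := by
    ext v
    rfl
  exact (hasFDerivAt_of_restrictScalars ℝ e4 e5).differentiableAt

theorem w11_conj_diffOn {f : CE n → ℂ} {ρ R : ℝ} (h : DifferentiableOn ℂ f (Dw ρ R)) :
    DifferentiableOn ℂ (fun v => (starRingEnd ℂ) (f (cj v))) (Dw ρ R) := by
  intro w hw
  have h1 : cj w ∈ (Dw ρ R : Set (CE n)) := cj_mem_Dw hw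
  exact (w11_conj_diff (h.differentiableAt ((isOpen_Dw ρ R).mem_nhds h1))).differentiableWithinAt

theorem w11_dlat_neg [Par n] (m : Fin n → ℤ) : dlat (-m) = - dlat m := by
  unfold dlat
  rw [c11_lat_neg, map_neg]

theorem w11_dot_cj [Par n] (m : Fin n → ℤ) (w0 : RE n) (w : CE n) :
    dot (ofR (dlat (-m))) (cj w + ofR w0) =
      -(starRingEnd ℂ) (dot (ofR (dlat m)) (w + ofR w0)) := by
  rw [w11_dlat_neg, c11_ofR_neg]
  have h1 : cj w + ofR w0 = cj (w + ofR w0) := by rw [c11_cj_add, cj_ofR]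
  have h2 : dot (-ofR (dlat m)) (cj (w + ofR w0)) = - dot (ofR (dlat m)) (cj (w + ofR w0)) := by
    have := smul_dot (-1) (ofR (dlat m)) (cj (w + ofR w0))
    simpa using this
  rw [h1, h2]
  have h3 := dot_cj (ofR (dlat m)) (w + ofR w0)
  rw [cj_ofR] at h3
  rw [h3]

/-- the directional derivative in the first variable of a finite trigonometric sum -/
theorem w11_gx_sum [Par n] {U : Set (CE n × CE n)} (hU : IsOpen U) (s : Finset (Fin n → ℤ))
    (a : (Fin n → ℤ) → CE n → ℂ) {z : CE n × CE n} (hz : z ∈ U)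
    (hd : DifferentiableOn ℂ (fun z : CE n × CE n => -∑ m ∈ s, a m z.2 * ch m z.1) U) (v : CE n) :
    dot (gx (fun z : CE n × CE n => -∑ m ∈ s, a m z.2 * ch m z.1) z) v =
      -∑ m ∈ s, a m z.2 * ((2 * Real.pi * Complex.I) * dot (ofR (dlat m)) v * ch m z.1) := by
  rw [dot_gx]
  have hF := (hd.differentiableAt (hU.mem_nhds hz)).hasFDerivAt
  have hl : HasDerivAt (fun t : ℂ => (z.1 + t • v, z.2)) ((v, 0) : CE n × CE n) 0 := by
    have h1 : HasDerivAt (fun t : ℂ => z.1 + t • v) v 0 := by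
      have h2 : HasDerivAt (fun t : ℂ => t • v) v 0 := by
        simpa using (hasDerivAt_id (0:ℂ)).smul_const v
      exact h2.const_add z.1
    exact h1.prodMk (hasDerivAt_const _ _)
  have hz0 : ((z.1 + (0:ℂ) • v, z.2) : CE n × CE n) = z := by simp
  have hc : HasDerivAt (fun t : ℂ => -∑ m ∈ s, a m z.2 * ch m (z.1 + t • v))
      (fderiv ℂ (fun z : CE n × CE n => -∑ m ∈ s, a m z.2 * ch m z.1) z (v, 0)) 0 := by
    have hF' : HasFDerivAt (fun z : CE n × CE n => -∑ m ∈ s, a m z.2 * ch m z.1)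
        (fderiv ℂ (fun z : CE n × CE n => -∑ m ∈ s, a m z.2 * ch m z.1) z)
        ((z.1 + (0:ℂ) • v, z.2) : CE n × CE n) := by
      rw [hz0]
      exact hF
    exact hF'.comp_hasDerivAt (0:ℂ) hl
  have hc2 : HasDerivAt (fun t : ℂ => -∑ m ∈ s, a m z.2 * ch m (z.1 + t • v))
      (-∑ m ∈ s, a m z.2 * ((2 * Real.pi * Complex.I) * dot (ofR (dlat m)) v * ch m z.1)) 0 := by
    refine HasDerivAt.neg (HasDerivAt.fun_sum fun m _ => ?_)
    refine HasDerivAt.const_mul _ ?_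
    have h1 : HasDerivAt (fun t : ℂ => z.1 + t • v) v 0 := by
      have h2 : HasDerivAt (fun t : ℂ => t • v) v 0 := by
        simpa using (hasDerivAt_id (0:ℂ)).smul_const v
      exact h2.const_add z.1
    have h2 := ch_hasFDerivAt m (z.1 + (0:ℂ) • v)
    have h3 := h2.comp_hasDerivAt (0:ℂ) h1
    have e : (ch m (z.1 + (0:ℂ) • v) • ((2 * Real.pi * Complex.I) • dotL (ofR (dlat m)))) v =
        (2 * Real.pi * Complex.I) * dot (ofR (dlat m)) v * ch m z.1 := by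
      have e0 : z.1 + (0:ℂ) • v = z.1 := by simp
      rw [e0]
      change ch m z.1 * ((2 * Real.pi * Complex.I) * dot (ofR (dlat m)) v) = _
      ring
    rw [← e]
    exact h3
  exact hc.unique hc2

theorem resolve (n : ℕ) [Par n] : ∃ C δ₀ : ℝ, 0 < C ∧ 0 < δ₀ ∧ ∀ (w0 : RE n) (R δ σ ε A : ℝ),
    1 ≤ R → R ≤ 2 → 0 < δ → δ ≤ δ₀ → 0 < σ → σ ≤ δ ^ 3 → 0 ≤ ε → 0 < A →
    ∀ G : CE n × CE n → ℂ, DifferentiableOn ℂ G (D σ R) → PerX σ R G → RealX σ R G →
    (∀ z ∈ D σ R, ‖G z‖ ≤ ε) → ∀ K : ℕ, RsC w0 K A (R - σ / 2) G → ∃ dv : CE n × CE n → ℂ,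
      DifferentiableOn ℂ dv (D (σ * δ ^ 4) (R - 2 * δ)) ∧ PerX (σ * δ ^ 4) (R - 2 * δ) dv ∧
      RealX (σ * δ ^ 4) (R - 2 * δ) dv ∧
      (∀ z ∈ (D (σ * δ ^ 4) (R - 2 * δ) : Set (CE n × CE n)),
        ‖dv z‖ ≤ C * ε / (σ ^ (n + 1) * δ ^ 4)) ∧
      ∀ z ∈ (D (σ * δ ^ 4 / 16) (R - 3 * δ) : Set (CE n × CE n)),
        ‖dot (gx dv z) (z.2 + ofR w0) + ∑ m ∈ (bx n K).erase 0, coef G m z.2 * ch m z.1‖ ≤
          (2 * (K : ℝ) + 1) ^ n * √(A * ε) := by
  obtain ⟨C, hC, hCs⟩ := lat_sum n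
  have hTh := one_le_Th (n := n)
  refine ⟨C, 1 / (500 * Th n), hC, by positivity, ?_⟩
  intro w0 R δ σ ε A hR1 hR2 hδ hδ0 hσ hσδ hε hA G hG hper hreal hB K hres
  have hpi := Real.pi_pos
  have hδTh : Th n * δ ≤ 1 / 500 := by
    have h1 := mul_le_mul_of_nonneg_left hδ0 (by linarith : (0:ℝ) ≤ Th n)
    have h2 : Th n * (1 / (500 * Th n)) = 1 / 500 := by
      have : Th n ≠ 0 := by linarith
      field_simp
    linarith
  have hδ1 : δ ≤ 1 / 500 := by nlinarith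
  have hδ3 : δ ^ 3 ≤ 1 / 500 := by
    have h1 : δ ^ 3 ≤ δ ^ 1 := pow_le_pow_of_le_one hδ.le (by linarith) (by norm_num)
    rw [pow_one] at h1
    linarith
  have hσ1 : σ ≤ 1 := by linarith
  have hτ0 : 0 < σ * δ ^ 4 := by positivity
  have hτ : Th n * (σ * δ ^ 4) ≤ σ / 4 := by
    have h1 : Th n * (σ * δ ^ 4) = σ * ((Th n * δ) * δ ^ 3) := by ring
    have h2 : (Th n * δ) * δ ^ 3 ≤ (1 / 500) * (1 / 500) :=
      mul_le_mul hδTh hδ3 (by positivity) (by norm_num)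
    rw [h1]
    have h3 := mul_le_mul_of_nonneg_left h2 hσ.le
    linarith
  have hτσ : σ * δ ^ 4 ≤ σ := by
    have h1 : σ * δ ^ 4 ≤ Th n * (σ * δ ^ 4) := by nlinarith
    linarith
  have hQR : ∀ m : Fin n → ℤ, ∃ q r : CE n → ℂ, m ∈ (bx n K).erase 0 →
      (DifferentiableOn ℂ q (Dw (σ * δ ^ 4) (R - 2 * δ)) ∧
      DifferentiableOn ℂ r (Dw (σ * δ ^ 4) (R - 2 * δ)) ∧
      (∀ w ∈ (Dw (σ * δ ^ 4) (R - 2 * δ) : Set (CE n)),
        dot (ofR (dlat m)) (w + ofR w0) * q w = coef G m w - r w) ∧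
      (∀ w ∈ (Dw (σ * δ ^ 4) (R - 2 * δ) : Set (CE n)),
        ‖q w‖ ≤ ε * Real.exp (-(2 * Real.pi * σ * ‖LRT.lat m‖)) / (σ * δ ^ 4)) ∧
      ∀ w ∈ (Dw (σ * δ ^ 4 / 16) (R - 3 * δ) : Set (CE n)),
        ‖r w‖ ≤ √(A * (ε * Real.exp (-(2 * Real.pi * σ * ‖LRT.lat m‖))))) := by
    intro m
    by_cases hm : m ∈ (bx n K).erase 0
    · have hm0 : m ≠ 0 := (Finset.mem_erase.mp hm).1
      have hmb : m ∈ bx n K := (Finset.mem_erase.mp hm).2
      obtain ⟨q, r, h1, h2, h3, h4, h5⟩ := div_res hR1 hR2 hδ hδ1 hσ hσδ hA w0 hm0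
        (coef_hol hσ hG m) (fun w hw => coef_bound hσ hG hper hB m hw)
        (fun w hw1 hw2 => hres m hmb hm0 w hw1 hw2)
      exact ⟨q, r, fun _ => ⟨h1, h2, h3, h4, h5⟩⟩
    · exact ⟨0, 0, fun h => absurd h hm⟩
  choose q r hqr using hQR
  have hpI : (2 * (Real.pi : ℂ) * Complex.I) ≠ 0 := Complex.two_pi_I_ne_zero
  -- symmetrised quotients
  obtain ⟨qs, hqs⟩ : ∃ qs : (Fin n → ℤ) → CE n → ℂ, ∀ m w,
      qs m w = (q m w - (starRingEnd ℂ) (q (-m) (cj w))) / 2 := ⟨_, fun _ _ => rfl⟩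
  obtain ⟨rs, hrs⟩ : ∃ rs : (Fin n → ℤ) → CE n → ℂ, ∀ m w,
      rs m w = (r m w + (starRingEnd ℂ) (r (-m) (cj w))) / 2 := ⟨_, fun _ _ => rfl⟩
  have hlatn : ∀ m : Fin n → ℤ, ‖LRT.lat (-m)‖ = ‖LRT.lat m‖ := by
    intro m
    rw [c11_lat_neg, norm_neg]
  have hqs_diff : ∀ m ∈ (bx n K).erase 0,
      DifferentiableOn ℂ (qs m) (Dw (σ * δ ^ 4) (R - 2 * δ)) := by
    intro m hm
    have h1 := (hqr m hm).1
    have h2 := w11_conj_diffOn (hqr (-m) (c11_bx_neg hm)).1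
    have h3 : qs m = fun w => (q m w - (starRingEnd ℂ) (q (-m) (cj w))) * (2 : ℂ)⁻¹ := by
      funext w
      rw [hqs, div_eq_mul_inv]
    rw [h3]
    exact (h1.sub h2).mul_const _
  have hqs_eq : ∀ m ∈ (bx n K).erase 0, ∀ w ∈ (Dw (σ * δ ^ 4) (R - 2 * δ) : Set (CE n)),
      dot (ofR (dlat m)) (w + ofR w0) * qs m w = coef G m w - rs m w := by
    intro m hm w hw
    have h1 := (hqr m hm).2.2.1 w hw
    have h2 := (hqr (-m) (c11_bx_neg hm)).2.2.1 (cj w) (cj_mem_Dw hw)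
    rw [w11_dot_cj] at h2
    have hwσ : w ∈ (Dw σ R : Set (CE n)) := Dw_mono hτσ (by linarith) hw
    rw [coef_real hσ hreal m hwσ] at h2
    have h3 := congrArg (starRingEnd ℂ) h2
    rw [map_mul, map_neg, Complex.conj_conj, map_sub, Complex.conj_conj] at h3
    rw [hqs, hrs]
    linear_combination (1 / 2 : ℂ) * h1 + (1 / 2 : ℂ) * h3
  have hqs_bd : ∀ m ∈ (bx n K).erase 0, ∀ w ∈ (Dw (σ * δ ^ 4) (R - 2 * δ) : Set (CE n)),
      ‖qs m w‖ ≤ ε * Real.exp (-(2 * Real.pi * σ * ‖LRT.lat m‖)) / (σ * δ ^ 4) := by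
    intro m hm w hw
    have h1 := (hqr m hm).2.2.2.1 w hw
    have h2 := (hqr (-m) (c11_bx_neg hm)).2.2.2.1 (cj w) (cj_mem_Dw hw)
    rw [hlatn] at h2
    rw [hqs, norm_div]
    have h3 : ‖q m w - (starRingEnd ℂ) (q (-m) (cj w))‖ ≤ ‖q m w‖ + ‖q (-m) (cj w)‖ := by
      refine (norm_sub_le _ _).trans (le_of_eq ?_)
      rw [RCLike.norm_conj]
    have h4 : ‖(2 : ℂ)‖ = 2 := by simp
    rw [h4, div_le_iff₀ (by norm_num)]
    linarith
  have hrs_bd : ∀ m ∈ (bx n K).erase 0, ∀ w ∈ (Dw (σ * δ ^ 4 / 16) (R - 3 * δ) : Set (CE n)),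
      ‖rs m w‖ ≤ √(A * (ε * Real.exp (-(2 * Real.pi * σ * ‖LRT.lat m‖)))) := by
    intro m hm w hw
    have h1 := (hqr m hm).2.2.2.2 w hw
    have h2 := (hqr (-m) (c11_bx_neg hm)).2.2.2.2 (cj w) (cj_mem_Dw hw)
    rw [hlatn] at h2
    rw [hrs, norm_div]
    have h3 : ‖r m w + (starRingEnd ℂ) (r (-m) (cj w))‖ ≤ ‖r m w‖ + ‖r (-m) (cj w)‖ := by
      refine (norm_add_le _ _).trans (le_of_eq ?_)
      rw [RCLike.norm_conj]
    have h4 : ‖(2 : ℂ)‖ = 2 := by simp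
    rw [h4, div_le_iff₀ (by norm_num)]
    linarith
  have hsym : ∀ m : Fin n → ℤ, ∀ w, qs (-m) (cj w) = -(starRingEnd ℂ) (qs m w) := by
    intro m w
    rw [hqs, hqs, neg_neg, cj_cj, map_div₀, map_sub, Complex.conj_conj, Complex.conj_ofNat]
    ring
  -- the solution
  obtain ⟨a, ha⟩ : ∃ a : (Fin n → ℤ) → CE n → ℂ, ∀ m w,
      a m w = qs m w / (2 * (Real.pi : ℂ) * Complex.I) := ⟨_, fun _ _ => rfl⟩
  have hdiff : DifferentiableOn ℂ (fun z : CE n × CE n => -∑ m ∈ (bx n K).erase 0, a m z.2 * ch m z.1)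
      (D (σ * δ ^ 4) (R - 2 * δ)) := by
    refine DifferentiableOn.neg (DifferentiableOn.fun_sum fun m hm => ?_)
    refine DifferentiableOn.mul ?_ ?_
    · have h1 : DifferentiableOn ℂ (a m) (Dw (σ * δ ^ 4) (R - 2 * δ)) := by
        have h2 : a m = fun w => qs m w * (2 * (Real.pi : ℂ) * Complex.I)⁻¹ := by
          funext w
          rw [ha, div_eq_mul_inv]
        rw [h2]
        exact (hqs_diff m hm).mul_const _
      exact h1.comp differentiableOn_snd (fun z hz => ⟨hz.2.1, hz.2.2⟩)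
    · intro z _
      have h1 := (ch_hasFDerivAt m z.1).differentiableAt
      exact (h1.comp z differentiableAt_fst).differentiableWithinAt
  refine ⟨fun z => -∑ m ∈ (bx n K).erase 0, a m z.2 * ch m z.1, hdiff, ?_, ?_, ?_, ?_⟩
  · intro z _ k
    simp only [ch_shift]
  · intro z hz
    simp only [cjp]
    rw [map_neg, map_sum]
    congr 1
    refine Finset.sum_nbij' (fun m => -m) (fun m => -m) (fun m hm => c11_bx_neg hm)
      (fun m hm => c11_bx_neg hm) (fun m _ => neg_neg m) (fun m _ => neg_neg m) ?_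
    intro m hm
    have e1 : qs m (cj z.2) = -(starRingEnd ℂ) (qs (-m) z.2) := by
      have := hsym (-m) z.2
      rwa [neg_neg] at this
    have e2 : ch m (cj z.1) = (starRingEnd ℂ) (ch (-m) z.1) := by
      have := ch_cj (-m) z.1
      rwa [neg_neg] at this
    rw [ha, ha, e1, e2, map_mul, map_div₀]
    congr 1
    have e3 : (starRingEnd ℂ) (2 * (Real.pi : ℂ) * Complex.I) = -(2 * (Real.pi : ℂ) * Complex.I) := by
      rw [map_mul, map_mul, Complex.conj_I, Complex.conj_ofReal, Complex.conj_ofNat]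
      ring
    rw [e3, neg_div, div_neg]
  · intro z hz
    have hz2 : z.2 ∈ (Dw (σ * δ ^ 4) (R - 2 * δ) : Set (CE n)) := ⟨hz.2.1, hz.2.2⟩
    rw [norm_neg]
    refine (norm_sum_le _ _).trans ?_
    have hterm : ∀ m ∈ (bx n K).erase 0, ‖a m z.2 * ch m z.1‖ ≤
        ε / (σ * δ ^ 4) * Real.exp (-(σ * ‖LRT.lat m‖)) := by
      intro m hm
      have hL : 0 ≤ ‖LRT.lat m‖ := norm_nonneg _
      have h3 := hqs_bd m hm z.2 hz2
      have h4 := ch_norm_le m z.1 hz.1.le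
      have h5 : ‖a m z.2‖ ≤ ‖qs m z.2‖ := by
        rw [ha, norm_div, norm_mul, norm_mul, Complex.norm_I, Complex.norm_real, Real.norm_eq_abs,
          abs_of_pos hpi]
        have h51 : ‖(2 : ℂ)‖ = 2 := by simp
        rw [h51, div_le_iff₀ (by positivity)]
        have h52 := norm_nonneg (qs m z.2)
        have h53 : (1:ℝ) ≤ 2 * Real.pi * 1 := by linarith [Real.pi_gt_three]
        nlinarith
      have h6 : Real.exp (2 * Real.pi * ‖LRT.lat m‖ * (Th n * (σ * δ ^ 4))) ≤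
          Real.exp (2 * Real.pi * ‖LRT.lat m‖ * (σ / 4)) := by
        apply Real.exp_le_exp.mpr
        exact mul_le_mul_of_nonneg_left hτ (by positivity)
      rw [norm_mul]
      have h7 : ‖a m z.2‖ * ‖ch m z.1‖ ≤
          (ε * Real.exp (-(2 * Real.pi * σ * ‖LRT.lat m‖)) / (σ * δ ^ 4)) *
            Real.exp (2 * Real.pi * ‖LRT.lat m‖ * (σ / 4)) :=
        mul_le_mul (h5.trans h3) (h4.trans h6) (norm_nonneg _) (by positivity)
      refine h7.trans ?_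
      have e1 : (ε * Real.exp (-(2 * Real.pi * σ * ‖LRT.lat m‖)) / (σ * δ ^ 4)) *
            Real.exp (2 * Real.pi * ‖LRT.lat m‖ * (σ / 4)) =
          ε / (σ * δ ^ 4) * Real.exp (-(2 * Real.pi * σ * ‖LRT.lat m‖) +
            2 * Real.pi * ‖LRT.lat m‖ * (σ / 4)) := by
        rw [Real.exp_add]
        ring
      rw [e1]
      refine mul_le_mul_of_nonneg_left ?_ (by positivity)
      apply Real.exp_le_exp.mpr
      have h8 : (3:ℝ) ≤ Real.pi := Real.pi_gt_three.le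
      have h9 : 0 ≤ σ * ‖LRT.lat m‖ := by positivity
      nlinarith
    refine (Finset.sum_le_sum hterm).trans ?_
    rw [← Finset.mul_sum]
    have h12 := hCs σ hσ hσ1 ((bx n K).erase 0)
    have h13 : ε / (σ * δ ^ 4) * ∑ m ∈ (bx n K).erase 0, Real.exp (-(σ * ‖LRT.lat m‖)) ≤
        ε / (σ * δ ^ 4) * (C / σ ^ n) :=
      mul_le_mul_of_nonneg_left h12 (by positivity)
    refine h13.trans (le_of_eq ?_)
    rw [div_mul_div_comm, pow_succ]
    ring
  · intro z hz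
    have hzD : z ∈ (D (σ * δ ^ 4) (R - 2 * δ) : Set (CE n × CE n)) :=
      D_mono (by linarith) (by linarith) hz
    have hz2 : z.2 ∈ (Dw (σ * δ ^ 4) (R - 2 * δ) : Set (CE n)) := ⟨hzD.2.1, hzD.2.2⟩
    have hz3 : z.2 ∈ (Dw (σ * δ ^ 4 / 16) (R - 3 * δ) : Set (CE n)) := ⟨hz.2.1, hz.2.2⟩
    rw [w11_gx_sum (isOpen_D (σ * δ ^ 4) (R - 2 * δ)) ((bx n K).erase 0) a hzD hdiff
      (z.2 + ofR w0), ← Finset.sum_neg_distrib, ← Finset.sum_add_distrib]
    have hterm0 : ∀ m ∈ (bx n K).erase 0,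
        -(a m z.2 * ((2 * Real.pi * Complex.I) * dot (ofR (dlat m)) (z.2 + ofR w0) * ch m z.1)) +
          coef G m z.2 * ch m z.1 = rs m z.2 * ch m z.1 := by
      intro m hm
      have h1 := hqs_eq m hm z.2 hz2
      have h2 : a m z.2 * (2 * Real.pi * Complex.I) = qs m z.2 := by
        rw [ha]
        exact div_mul_cancel₀ _ hpI
      have h3 : a m z.2 * ((2 * Real.pi * Complex.I) * dot (ofR (dlat m)) (z.2 + ofR w0) *
          ch m z.1) = (coef G m z.2 - rs m z.2) * ch m z.1 := by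
        rw [← h1, ← h2]
        ring
      rw [h3]
      ring
    rw [Finset.sum_congr rfl hterm0]
    refine (norm_sum_le _ _).trans ?_
    have hterm : ∀ m ∈ (bx n K).erase 0, ‖rs m z.2 * ch m z.1‖ ≤ √(A * ε) := by
      intro m hm
      have hL : 0 ≤ ‖LRT.lat m‖ := norm_nonneg _
      have h3 := hrs_bd m hm z.2 hz3
      have h4 := ch_norm_le m z.1 hz.1.le
      rw [norm_mul]
      have e1 : √(A * (ε * Real.exp (-(2 * Real.pi * σ * ‖LRT.lat m‖)))) =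
          √(A * ε) * Real.exp (-(Real.pi * σ * ‖LRT.lat m‖)) := by
        have e2 : Real.exp (-(2 * Real.pi * σ * ‖LRT.lat m‖)) =
            Real.exp (-(Real.pi * σ * ‖LRT.lat m‖)) ^ 2 := by
          rw [← Real.exp_nat_mul]
          congr 1
          push_cast
          ring
        rw [← mul_assoc, Real.sqrt_mul (by positivity), e2, Real.sqrt_sq (Real.exp_pos _).le]
      rw [e1] at h3
      have h6 : Real.exp (2 * Real.pi * ‖LRT.lat m‖ * (Th n * (σ * δ ^ 4 / 16))) ≤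
          Real.exp (2 * Real.pi * ‖LRT.lat m‖ * (σ / 2)) := by
        apply Real.exp_le_exp.mpr
        refine mul_le_mul_of_nonneg_left ?_ (by positivity)
        have : Th n * (σ * δ ^ 4 / 16) = Th n * (σ * δ ^ 4) / 16 := by ring
        rw [this]
        linarith
      calc ‖rs m z.2‖ * ‖ch m z.1‖
          ≤ (√(A * ε) * Real.exp (-(Real.pi * σ * ‖LRT.lat m‖))) *
              Real.exp (2 * Real.pi * ‖LRT.lat m‖ * (σ / 2)) :=
            mul_le_mul h3 (h4.trans h6) (norm_nonneg _) (by positivity)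
        _ = √(A * ε) * (Real.exp (-(Real.pi * σ * ‖LRT.lat m‖)) *
              Real.exp (2 * Real.pi * ‖LRT.lat m‖ * (σ / 2))) := by ring
        _ = √(A * ε) := by
            rw [← Real.exp_add]
            have : -(Real.pi * σ * ‖LRT.lat m‖) + 2 * Real.pi * ‖LRT.lat m‖ * (σ / 2) = 0 := by ring
            rw [this, Real.exp_zero, mul_one]
    refine (Finset.sum_le_sum hterm).trans ?_
    rw [Finset.sum_const, nsmul_eq_mul, ← c11_card_bx]
    refine mul_le_mul_of_nonneg_right ?_ (Real.sqrt_nonneg _)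
    exact_mod_cast Finset.card_erase_le

end Pool.Agent.LRW
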