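import Pool.Agent.LRW.C7
import Pool.Agent.LRW.C8

/-!
C8b (difficulty 1).  The inverse of the angle map of a state.

PROOF.  `exists_inverse` (C7) with `g = gv b u` (hypotheses: C8).  It gives a function `X`; for
`z ∈ D (ρ/2) R`, `X z` satisfies the defining property of `Xi b u ρ z` (`‖im (X z)‖ < 3ρ/4 < ρ`), and
`Classical.epsilon_spec` gives the property for `Xi b u ρ z`; the last clause of `exists_inverse`
(uniqueness) shows `Xi b u ρ z = X z`.  Everything transfers (`DifferentiableOn.congr`; `fderiv` by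
`Filter.EventuallyEq.fderiv_eq` on the open set `D (ρ/2) R`).
`th_mem`: `‖im (gv b u z)‖ ≤ s/8` by `lip_im`, so `‖im (th b u z)‖ ≤ s + s/8`.
`et_*`: from `NS.err_*` and the properties of `Xi`.
-/

set_option autoImplicit false
set_option linter.unusedSectionVars false

open Set MeasureTheory Topology

namespace Pool.Agent.LRW

open Pool.Agent.LRT

variable {n : ℕ} [Par n] {w0 : RE n} {κ ρ R CH : ℝ} {H : CE n × CE n → ℂ} {b : CE n → ℂ} {u : CE n × CE n → ℂ}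

/-- the function of `exists_inverse` is `Xi` -/
theorem c8b_exists (h : NS κ ρ R CH H b u) :
    DifferentiableOn ℂ (Xi b u ρ) (D (ρ / 2) R) ∧
      (∀ z ∈ (D (ρ / 2) R : Set (CE n × CE n)), (Xi b u ρ z, z.2) ∈ (D (3 / 4 * ρ) R : Set (CE n × CE n)) ∧
        Xi b u ρ z + gv b u (Xi b u ρ z, z.2) = z.1 ∧ ‖fderiv ℂ (Xi b u ρ) z‖ ≤ 2 ∧
        Xi b u ρ (cjp z) = cj (Xi b u ρ z) ∧
        ∀ k : Fin n → ℤ, Xi b u ρ (z.1 + ofR (lat k), z.2) = Xi b u ρ z + ofR (lat k)) ∧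
      (∀ z ∈ (D ρ R : Set (CE n × CE n)), (z.1 + gv b u z, z.2) ∈ (D (ρ / 2) R : Set (CE n × CE n)) →
        Xi b u ρ (z.1 + gv b u z, z.2) = z.1) := by
  obtain ⟨X, hX1, hX2, hX3, hX4⟩ := exists_inverse h.ρ0 h.gv_hol (fun z hz => (h.gv_bound hz).2)
    (fun z hz => h.gv_real hz) h.gv_per
  have hρ := h.ρ0
  have heq : ∀ z ∈ (D (ρ / 2) R : Set (CE n × CE n)), Xi b u ρ z = X z := by
    intro z hz
    obtain ⟨h1, h2, -, -, -⟩ := hX2 z hz
    have h3 : (X z, z.2) ∈ (D ρ R : Set (CE n × CE n)) := D_mono (by linarith) le_rfl h1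
    have h4 : ‖im (Xi b u ρ z)‖ < ρ ∧ Xi b u ρ z + gv b u (Xi b u ρ z, z.2) = z.1 :=
      Classical.epsilon_spec (p := fun x => ‖im x‖ < ρ ∧ x + gv b u (x, z.2) = z.1) ⟨X z, h3.1, h2⟩
    have h5 : (Xi b u ρ z, z.2) ∈ (D ρ R : Set (CE n × CE n)) := ⟨h4.1, h3.2⟩
    have h6 := hX4 _ h5 _ h3 rfl (by simp only; rw [h4.2, h2])
    exact congrArg Prod.fst h6
  refine ⟨hX1.congr heq, fun z hz => ?_, fun z hz hz' => ?_⟩
  · obtain ⟨h1, h2, h3, h4, h5⟩ := hX2 z hz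
    have h6 : fderiv ℂ (Xi b u ρ) z = fderiv ℂ X z := by
      apply Filter.EventuallyEq.fderiv_eq
      filter_upwards [(isOpen_D (ρ / 2) R).mem_nhds hz] with y hy using heq y hy
    rw [h6, heq z hz, heq (cjp z) (cjp_mem_D hz)]
    exact ⟨h1, h2, h3, h4, fun k => by rw [heq _ (shift_mem_D hz (lat k)), h5 k]⟩
  · rw [heq _ hz']
    exact hX3 z hz hz'

theorem NS.Xi_hol (h : NS κ ρ R CH H b u) : DifferentiableOn ℂ (Xi b u ρ) (D (ρ / 2) R) :=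
  (c8b_exists h).1

theorem NS.Xi_spec (h : NS κ ρ R CH H b u) {z : CE n × CE n}
    (hz : z ∈ (D (ρ / 2) R : Set (CE n × CE n))) :
    (Xi b u ρ z, z.2) ∈ (D (3 / 4 * ρ) R : Set (CE n × CE n)) ∧
      Xi b u ρ z + gv b u (Xi b u ρ z, z.2) = z.1 ∧ ‖fderiv ℂ (Xi b u ρ) z‖ ≤ 2 ∧
      Xi b u ρ (cjp z) = cj (Xi b u ρ z) ∧
      ∀ k : Fin n → ℤ, Xi b u ρ (z.1 + ofR (lat k), z.2) = Xi b u ρ z + ofR (lat k) :=
  (c8b_exists h).2.1 z hz

theorem NS.Xi_th (h : NS κ ρ R CH H b u) {z : CE n × CE n} (hz : z ∈ (D ρ R : Set (CE n × CE n)))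
    (hz' : (th b u z, z.2) ∈ (D (ρ / 2) R : Set (CE n × CE n))) :
    Xi b u ρ (th b u z, z.2) = z.1 :=
  (c8b_exists h).2.2 z hz hz'

theorem NS.th_mem (h : NS κ ρ R CH H b u) {s r : ℝ} (hs : s ≤ ρ) (hr : r ≤ R) {z : CE n × CE n}
    (hz : z ∈ (D s r : Set (CE n × CE n))) :
    (th b u z, z.2) ∈ (D (9 / 8 * s) r : Set (CE n × CE n)) := by
  have hz' : z ∈ (D ρ R : Set (CE n × CE n)) := D_mono hs hr hz
  obtain ⟨h1, h2, h3⟩ := hz
  have h4 := lip_im h.gv_hol (fun z hz => (h.gv_bound hz).2) (fun z hz => h.gv_real hz) hz' h1.le h2.le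
  have h5 : 0 < s := (norm_nonneg _).trans_lt h1
  refine ⟨?_, ?_, h3⟩
  · show ‖im (z.1 + gv b u z)‖ < 9 / 8 * s
    rw [im_add]
    have := norm_add_le (im z.1) (im (gv b u z))
    linarith
  · show ‖im z.2‖ < 9 / 8 * s
    linarith

theorem c8b_mem (h : NS κ ρ R CH H b u) {z : CE n × CE n}
    (hz : z ∈ (D (ρ / 2) R : Set (CE n × CE n))) : (Xi b u ρ z, z.2) ∈ (D ρ R : Set (CE n × CE n)) :=
  D_mono (by have := h.ρ0; linarith) le_rfl (h.Xi_spec hz).1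

theorem NS.et_hol (h : NS κ ρ R CH H b u) : DifferentiableOn ℂ (et w0 H b u ρ) (D (ρ / 2) R) := by
  have h1 : DifferentiableOn ℂ (fun z : CE n × CE n => (Xi b u ρ z, z.2)) (D (ρ / 2) R) :=
    h.Xi_hol.prodMk differentiable_snd.differentiableOn
  exact h.err_hol.comp h1 fun z hz => c8b_mem h hz

theorem NS.et_real (h : NS κ ρ R CH H b u) : RealX (ρ / 2) R (et w0 H b u ρ) := by
  intro z hz
  have h1 := h.err_real (w0 := w0) _ (c8b_mem h hz)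
  show err w0 H b u (Xi b u ρ (cjp z), (cjp z).2) = _
  rw [(h.Xi_spec hz).2.2.2.1]
  exact h1

theorem NS.et_per (h : NS κ ρ R CH H b u) : PerX (ρ / 2) R (et w0 H b u ρ) := by
  intro z hz k
  have h1 := h.err_per (w0 := w0) _ (c8b_mem h hz) k
  show err w0 H b u (Xi b u ρ (z.1 + ofR (lat k), z.2), z.2) = _
  rw [(h.Xi_spec hz).2.2.2.2 k]
  exact h1

theorem NS.et_bound (h : NS κ ρ R CH H b u) {ε : ℝ} (he : ∀ z ∈ D ρ R, ‖err w0 H b u z‖ ≤ ε)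
    {z : CE n × CE n} (hz : z ∈ (D (ρ / 2) R : Set (CE n × CE n))) : ‖et w0 H b u ρ z‖ ≤ ε :=
  he _ (c8b_mem h hz)

theorem NS.et_th (h : NS κ ρ R CH H b u) {z : CE n × CE n} (hz : z ∈ (D (ρ / 4) R : Set (CE n × CE n))) :
    et w0 H b u ρ (th b u z, z.2) = err w0 H b u z := by
  have hρ := h.ρ0
  have h1 : (th b u z, z.2) ∈ (D (ρ / 2) R : Set (CE n × CE n)) :=
    D_mono (by linarith) le_rfl (h.th_mem (by linarith) le_rfl hz)
  have h2 := h.Xi_th (D_mono (by linarith) le_rfl hz) h1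
  show err w0 H b u (Xi b u ρ (th b u z, z.2), z.2) = _
  rw [h2]

end Pool.Agent.LRW
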