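import Pool.Agent.LRT.E0
import Pool.Agent.LRW.BD

/-!
LRW/E0: translation of notations between the two parts, for the lattice `T ℤⁿ` (helper13).
-/

set_option autoImplicit false

open Set MeasureTheory Topology

namespace Pool.Agent.LRW

open Pool.Agent.LRT

variable {n : ℕ} [Par n]

lemma bsT_apply (i : Fin n) : bsT n i = (Par.T : RE n ≃L[ℝ] RE n) (bs n i) := by
  unfold bsT
  rw [Module.Basis.map_apply]
  rfl

lemma bsT_repr (x : RE n) : (bsT n).repr x = (bs n).repr ((Par.T : RE n ≃L[ℝ] RE n).symm x) := by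
  unfold bsT
  rw [Module.Basis.map_repr]
  rfl

theorem bsT_lin (m : Fin n → ℤ) (t : RE n) : Pool.H45.Mather.lin (bsT n) m t = inner ℝ (dlat m) t := by
  rw [inner_dlat, ← bs_lin, Pool.H45.Mather.lin_apply, Pool.H45.Mather.lin_apply, bsT_repr]

theorem bsT_lat (m : Fin n → ℤ) : Pool.H45.Mather.lat (bsT n) m = lat m := by
  unfold lat
  rw [← bs_lat]
  unfold Pool.H45.Mather.lat
  rw [map_sum]
  refine Finset.sum_congr rfl fun i _ => ?_
  rw [bsT_apply, map_smul]

theorem bsT_norm_lin (m : Fin n → ℤ) : ‖Pool.H45.Mather.lin (bsT n) m‖ = ‖dlat m‖ := by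
  have h : Pool.H45.Mather.lin (bsT n) m = innerSL ℝ (dlat m) := by
    ext t
    rw [bsT_lin]
    rfl
  rw [h, innerSL_apply_norm]

theorem bsT_rv (k : Fin n → ℤ) : Pool.H45.Mather.rv (bsT n) k = dlat k := by
  refine ext_inner_right ℝ fun v => ?_
  rw [Pool.H45.Mather.inner_rv, bsT_lin]

theorem bsT_per {α : Type*} {F : RE n → α} (h : ∀ (x : RE n) (k : Fin n → ℤ), F (x + lat k) = F x) :
    Pool.H45.Mather.Per (bsT n) F := by
  intro i x
  have h1 : bsT n i = lat (Pi.single i 1) := by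
    rw [← bsT_lat]
    unfold Pool.H45.Mather.lat
    simp [Pi.single_apply]
  rw [h1]
  exact h x _

theorem bsT_per' {α : Type*} {F : RE n → α} (h : Pool.H45.Mather.Per (bsT n) F) (x : RE n)
    (k : Fin n → ℤ) : F (x + lat k) = F x := by
  rw [← bsT_lat]
  exact h.add_lat k x

theorem bsT_ec (m : Fin n → ℤ) (t : RE n) : ec (bsT n) m t = ch m (ofR t) := by
  unfold ec
  rw [ch_eq, dot_ofR, bsT_lin]
  congr 1
  push_cast
  ring

end Pool.Agent.LRW
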