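import Pool.Agent.LRT.NS

/-!
v2 definitions: general lattice `T ℤⁿ` given by the class `Par n`, centre `w0` of the frequencies (an argument).
The definitions of this namespace shadow those of `Pool.Agent.LRT` with the same names.
-/

set_option autoImplicit false

open Set MeasureTheory Topology

namespace Pool.Agent.LRW

open Pool.Agent.LRT

noncomputable section

/-- the parameter: the lattice is `T ℤⁿ` -/
class Par (n : ℕ) where
  /-- the lattice map -/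
  T : RE n ≃L[ℝ] RE n
  hT : ∀ x, ‖T x‖ ≤ ‖x‖

variable {n : ℕ}

/-- complexification of a real linear map -/
def cx (L : RE n →L[ℝ] RE n) : CE n →L[ℂ] CE n :=
  LinearMap.toContinuousLinearMap
    { toFun := fun z => ofR (L (re z)) + Complex.I • ofR (L (im z))
      map_add' := fun z w => by
        simp only [re_add, im_add, map_add, ofR_add, smul_add]
        abel
      map_smul' := fun c z => by
        have h1 : re (c • z) = c.re • re z - c.im • im z := by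
          ext i; simp [Complex.mul_re]
        have h2 : im (c • z) = c.re • im z + c.im • re z := by
          ext i; simp [Complex.mul_im]
        ext i
        simp only [h1, h2, map_add, map_sub, map_smul, PiLp.add_apply, PiLp.smul_apply, ofR_apply,
          PiLp.sub_apply, smul_eq_mul, RingHom.id_apply]
        apply Complex.ext <;> simp <;> ring }

lemma cx_apply (L : RE n →L[ℝ] RE n) (z : CE n) :
    cx L z = ofR (L (re z)) + Complex.I • ofR (L (im z)) := rfl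

lemma re_cx (L : RE n →L[ℝ] RE n) (z : CE n) : re (cx L z) = L (re z) := by
  ext i
  simp [cx_apply]

lemma im_cx (L : RE n →L[ℝ] RE n) (z : CE n) : im (cx L z) = L (im z) := by
  ext i
  simp [cx_apply]

lemma cx_ofR (L : RE n →L[ℝ] RE n) (x : RE n) : cx L (ofR x) = ofR (L x) := by
  ext i
  simp [cx_apply]

lemma ext_re_im {z w : CE n} (h1 : re z = re w) (h2 : im z = im w) : z = w := by
  rw [eq_re_im z, eq_re_im w, h1, h2]

lemma cx_cj (L : RE n →L[ℝ] RE n) (z : CE n) : cx L (cj z) = cj (cx L z) := by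
  refine ext_re_im ?_ ?_
  · rw [re_cx, re_cj, re_cj, re_cx]
  · rw [im_cx, im_cj, im_cj, im_cx, map_neg]

lemma cx_cx (L L' : RE n →L[ℝ] RE n) (h : ∀ x, L (L' x) = x) (z : CE n) : cx L (cx L' z) = z := by
  refine ext_re_im ?_ ?_
  · rw [re_cx, re_cx, h]
  · rw [im_cx, im_cx, h]

section
variable [Par n]

/-- the lattice map on complex vectors -/
def TC : CE n →L[ℂ] CE n := cx ((Par.T : RE n ≃L[ℝ] RE n) : RE n →L[ℝ] RE n)
/-- the inverse of the lattice map on complex vectors -/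
def TI : CE n →L[ℂ] CE n := cx ((Par.T : RE n ≃L[ℝ] RE n).symm : RE n →L[ℝ] RE n)
/-- the norm of the inverse lattice map, plus 1 -/
def Th (n : ℕ) [Par n] : ℝ := ‖((Par.T : RE n ≃L[ℝ] RE n).symm : RE n →L[ℝ] RE n)‖ + 1

/-- the lattice vector -/
def lat (k : Fin n → ℤ) : RE n := Par.T (LRT.lat k)
/-- the vector of the dual lattice -/
def dlat (m : Fin n → ℤ) : RE n :=
  ContinuousLinearMap.adjoint ((Par.T : RE n ≃L[ℝ] RE n).symm : RE n →L[ℝ] RE n) (LRT.lat m)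

/-- characters of the torus -/
def ch (m : Fin n → ℤ) (z : CE n) : ℂ := LRT.ch m (TI z)
/-- Fourier coefficients in the first variable -/
def coef (G : CE n × CE n → ℂ) (m : Fin n → ℤ) (w : CE n) : ℂ :=
  LRT.coef (fun z => G (TC z.1, z.2)) m w

/-- periodicity in the first variable, on the domain -/
def PerX {α : Type*} (ρ R : ℝ) (G : CE n × CE n → α) : Prop :=
  ∀ z ∈ (D ρ R : Set (CE n × CE n)), ∀ k : Fin n → ℤ, G (z.1 + ofR (lat k), z.2) = G z

/-- the error of the Hamilton-Jacobi equation (frequencies `w0 + w`, momenta `w0 + q`) -/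
def err (w0 : RE n) (H : CE n × CE n → ℂ) (b : CE n → ℂ) (u : CE n × CE n → ℂ) (z : CE n × CE n) : ℂ :=
  LRT.err H b u z + dot (ofR w0) (gx u z)

/-- the error in the angle variable -/
def et (w0 : RE n) (H : CE n × CE n → ℂ) (b : CE n → ℂ) (u : CE n × CE n → ℂ) (ρ : ℝ)
    (z : CE n × CE n) : ℂ :=
  err w0 H b u (Xi b u ρ z, z.2)

/-- smallness of the resonant Fourier coefficients at real frequencies -/
def RsC (w0 : RE n) (K : ℕ) (A r : ℝ) (G : CE n × CE n → ℂ) : Prop :=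
  ∀ m ∈ bx n K, m ≠ 0 → ∀ w : RE n, inner ℝ (dlat m) (w + w0) = 0 → ‖w‖ < r →
    ‖coef G m (ofR w)‖ ≤ A

/-- the state of the Newton scheme: an analytic Hamiltonian on `D (2ρ) (R+1)` and an approximate
solution `(b, u)` on `D ρ R`, close to `(ω·ω/2, 0)` -/
structure NS (κ ρ R CH : ℝ) (H : CE n × CE n → ℂ) (b : CE n → ℂ) (u : CE n × CE n → ℂ) :
    Prop where
  ρ0 : 0 < ρ
  ρ1 : ρ ≤ 1 / 4
  R1 : 1 ≤ R
  κ0 : 0 ≤ κ
  κ1 : κ ≤ 1 / 100
  CH0 : 0 ≤ CH
  Hd : DifferentiableOn ℂ H (D (2 * ρ) (R + 1))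
  Hb : ∀ z ∈ (D (2 * ρ) (R + 1) : Set (CE n × CE n)), ‖H z‖ ≤ CH
  Hr : RealX (2 * ρ) (R + 1) H
  Hp : PerX (2 * ρ) (R + 1) H
  bd : DifferentiableOn ℂ b (Dw ρ R)
  br : ∀ w ∈ (Dw ρ R : Set (CE n)), b (cj w) = (starRingEnd ℂ) (b w)
  b1 : ∀ w ∈ (Dw ρ R : Set (CE n)), ‖gb b w - w‖ ≤ κ
  b2 : ∀ w ∈ (Dw ρ R : Set (CE n)), ‖hess b w - 1‖ ≤ κ
  b3 : ∀ w ∈ (Dw ρ R : Set (CE n)), ‖fderiv ℂ (hess b) w‖ ≤ κ
  ud : DifferentiableOn ℂ u (D ρ R)
  ur : RealX ρ R u
  up : PerX ρ R u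
  u1 : ∀ z ∈ (D ρ R : Set (CE n × CE n)), ‖fderiv ℂ u z‖ ≤ κ
  u2 : ∀ z ∈ (D ρ R : Set (CE n × CE n)), ‖fderiv ℂ (fderiv ℂ u) z‖ ≤ κ

lemma norm_T_le (x : RE n) : ‖(Par.T : RE n ≃L[ℝ] RE n) x‖ ≤ ‖x‖ := Par.hT x

lemma one_le_Th : 1 ≤ Th n := by
  unfold Th
  have := norm_nonneg ((Par.T : RE n ≃L[ℝ] RE n).symm : RE n →L[ℝ] RE n)
  linarith

lemma norm_Ti_le (x : RE n) : ‖(Par.T : RE n ≃L[ℝ] RE n).symm x‖ ≤ Th n * ‖x‖ := by
  have h := ((Par.T : RE n ≃L[ℝ] RE n).symm : RE n →L[ℝ] RE n).le_opNorm x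
  unfold Th
  have := norm_nonneg x
  refine h.trans ?_
  nlinarith

lemma TC_TI (z : CE n) : TC (TI z) = z := cx_cx _ _ (fun x => by simp) z
lemma TI_TC (z : CE n) : TI (TC z) = z := cx_cx _ _ (fun x => by simp) z
lemma re_TC (z : CE n) : re (TC z) = (Par.T : RE n ≃L[ℝ] RE n) (re z) := re_cx _ z
lemma im_TC (z : CE n) : im (TC z) = (Par.T : RE n ≃L[ℝ] RE n) (im z) := im_cx _ z
lemma re_TI (z : CE n) : re (TI z) = (Par.T : RE n ≃L[ℝ] RE n).symm (re z) := re_cx _ z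
lemma im_TI (z : CE n) : im (TI z) = (Par.T : RE n ≃L[ℝ] RE n).symm (im z) := im_cx _ z
lemma TC_ofR (x : RE n) : TC (ofR x) = ofR ((Par.T : RE n ≃L[ℝ] RE n) x) := cx_ofR _ x
lemma TI_ofR (x : RE n) : TI (ofR x) = ofR ((Par.T : RE n ≃L[ℝ] RE n).symm x) := cx_ofR _ x
lemma TC_cj (z : CE n) : TC (cj z) = cj (TC z) := cx_cj _ z
lemma TI_cj (z : CE n) : TI (cj z) = cj (TI z) := cx_cj _ z

lemma norm_im_TC_le (z : CE n) : ‖im (TC z)‖ ≤ ‖im z‖ := by
  rw [im_TC]; exact norm_T_le _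

lemma norm_im_TI_le (z : CE n) : ‖im (TI z)‖ ≤ Th n * ‖im z‖ := by
  rw [im_TI]; exact norm_Ti_le _

lemma TI_lat (k : Fin n → ℤ) : TI (ofR (lat k)) = ofR (LRT.lat k) := by
  rw [TI_ofR, lat, ContinuousLinearEquiv.symm_apply_apply]

lemma inner_dlat (m : Fin n → ℤ) (x : RE n) :
    inner ℝ (dlat m) x = inner ℝ (LRT.lat m) ((Par.T : RE n ≃L[ℝ] RE n).symm x) := by
  unfold dlat
  rw [ContinuousLinearMap.adjoint_inner_left]
  rfl

lemma inner_dlat_T (m : Fin n → ℤ) (x : RE n) :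
    inner ℝ (dlat m) ((Par.T : RE n ≃L[ℝ] RE n) x) = inner ℝ (LRT.lat m) x := by
  rw [inner_dlat, ContinuousLinearEquiv.symm_apply_apply]

lemma norm_lat_le_dlat (m : Fin n → ℤ) : ‖LRT.lat m‖ ≤ ‖dlat m‖ := by
  have h1 := inner_dlat_T m (LRT.lat m)
  rw [real_inner_self_eq_norm_sq] at h1
  have h2 := real_inner_le_norm (dlat m) ((Par.T : RE n ≃L[ℝ] RE n) (LRT.lat m))
  have h3 := norm_T_le (LRT.lat m)
  rcases eq_or_lt_of_le (norm_nonneg (LRT.lat m)) with h | h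
  · rw [← h]; exact norm_nonneg _
  · have h4 := mul_le_mul_of_nonneg_left h3 (norm_nonneg (dlat m))
    nlinarith

lemma norm_dlat_le (m : Fin n → ℤ) : ‖dlat m‖ ≤ Th n * ‖LRT.lat m‖ := by
  have h1 := real_inner_self_eq_norm_sq (dlat m)
  rw [inner_dlat] at h1
  have h2 := real_inner_le_norm (LRT.lat m) ((Par.T : RE n ≃L[ℝ] RE n).symm (dlat m))
  have h3 := norm_Ti_le (dlat m)
  rcases eq_or_lt_of_le (norm_nonneg (dlat m)) with h | h
  · rw [← h]
    have := one_le_Th (n := n)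
    positivity
  · have h4 := mul_le_mul_of_nonneg_left h3 (norm_nonneg (LRT.lat m))
    nlinarith

/-- the bilinear form and the dual lattice -/
lemma dot_dlat (m : Fin n → ℤ) (z : CE n) : dot (ofR (dlat m)) z = dot (ofR (LRT.lat m)) (TI z) := by
  have h : ∀ (a : RE n) (z : CE n), dot (ofR a) z = ((inner ℝ a (re z) : ℝ) : ℂ) +
      Complex.I * ((inner ℝ a (im z) : ℝ) : ℂ) := by
    intro a z
    conv_lhs => rw [eq_re_im z]
    rw [dot_add, dot_smul, dot_ofR, dot_ofR]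
  rw [h, h, re_TI, im_TI, inner_dlat, inner_dlat]

lemma ch_eq (m : Fin n → ℤ) (z : CE n) :
    ch m z = Complex.exp (2 * Real.pi * Complex.I * dot (ofR (dlat m)) z) := by
  rw [ch, LRT.ch, dot_dlat]

end

end

end Pool.Agent.LRW
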