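import Pool.Agent.LRT.E1
import Pool.Agent.LRT.E2
import Pool.Agent.LRT.E4
import Pool.Agent.LRW.PD

/-!
LRW/E1: the Fourier coefficients change little between near real frequencies; norms of the vectors of the dual lattice; good
frequencies near a resonant one, for the lattice `T ℤⁿ` (helper13).
-/

set_option autoImplicit false

open Set MeasureTheory Topology

namespace Pool.Agent.LRW

open Pool.Agent.LRT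

variable {n : ℕ} [Par n]

lemma e1_mem {ρ R : ℝ} {z : CE n × CE n} (hz : z ∈ (D ρ R : Set (CE n × CE n))) :
    (TC z.1, z.2) ∈ (D ρ R : Set (CE n × CE n)) :=
  ⟨(norm_im_TC_le z.1).trans_lt hz.1, hz.2⟩

lemma e1_hol {ρ R : ℝ} {G : CE n × CE n → ℂ} (hG : DifferentiableOn ℂ G (D ρ R)) :
    DifferentiableOn ℂ (fun z : CE n × CE n => G (TC z.1, z.2)) (D ρ R) := by
  have h : DifferentiableOn ℂ (fun z : CE n × CE n => ((TC z.1, z.2) : CE n × CE n)) (D ρ R) :=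
    (((TC : CE n →L[ℂ] CE n).differentiable.comp differentiable_fst).prodMk differentiable_snd).differentiableOn
  exact hG.comp h fun z hz => e1_mem hz

lemma e1_per {ρ R : ℝ} {G : CE n × CE n → ℂ} (hG : PerX ρ R G) :
    LRT.PerX ρ R (fun z : CE n × CE n => G (TC z.1, z.2)) := by
  intro z hz k
  have h := hG _ (e1_mem hz) k
  have e : TC (z.1 + ofR (LRT.lat k)) = TC z.1 + ofR (lat k) := by
    rw [map_add, TC_ofR]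
    rfl
  simp only [e]
  exact h

lemma e1_bd {ρ R B : ℝ} {G : CE n × CE n → ℂ} (hG : ∀ z ∈ D ρ R, ‖G z‖ ≤ B) :
    ∀ z ∈ D ρ R, ‖(fun z : CE n × CE n => G (TC z.1, z.2)) z‖ ≤ B :=
  fun _ hz => hG _ (e1_mem hz)

theorem coef_near (n : ℕ) [Par n] : ∃ ρ₀ : ℝ, 0 < ρ₀ ∧ ∀ ρ R : ℝ, 0 < ρ → ρ ≤ ρ₀ → ∀ G : CE n × CE n → ℂ,
    DifferentiableOn ℂ G (D (ρ / 2) R) → PerX (ρ / 2) R G → (∀ z ∈ D (ρ / 2) R, ‖G z‖ ≤ ρ ^ MM n) →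
    ∀ (m : Fin n → ℤ) (w w' : RE n), ‖w‖ < R - ρ / 4 → ‖w' - w‖ ≤ Tau n ρ →
    ‖w'‖ < R - ρ / 8 ∧ ‖coef G m (ofR w) - coef G m (ofR w')‖ ≤ Az n ρ := by
  obtain ⟨ρ₀, h0, h⟩ := LRT.coef_near n
  refine ⟨ρ₀, h0, ?_⟩
  intro ρ R hρ hρ0 G hG hp hB m w w' hw hww
  exact h ρ R hρ hρ0 (fun z => G (TC z.1, z.2)) (e1_hol hG) (e1_per hp) (e1_bd hB) m w w' hw hww

theorem bx_norm (n : ℕ) [Par n] : ∃ ρ₀ : ℝ, 0 < ρ₀ ∧ ∀ ρ : ℝ, 0 < ρ → ρ ≤ ρ₀ →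
    ⌈(ρ ^ 2)⁻¹⌉₊ ≤ Qn n ρ ∧ ∀ k ∈ bx n ⌈(ρ ^ 2)⁻¹⌉₊, ‖LRT.lat k‖ ≤ (ρ ^ 3)⁻¹ ∧ ‖dlat k‖ ≤ (ρ ^ 3)⁻¹ := by
  have hTh := one_le_Th (n := n)
  refine ⟨1 / (2 * n * Th n + 1), by positivity, ?_⟩
  intro ρ hρ hρ0
  have h0 : (2 * (n : ℝ) * Th n + 1) * ρ ≤ 1 := by
    rw [le_div_iff₀ (by positivity)] at hρ0
    linarith
  have hρ1 : ρ ≤ 1 := by
    have : 0 ≤ (n : ℝ) * Th n * ρ := by positivity
    nlinarith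
  refine ⟨?_, ?_⟩
  · unfold Qn
    refine Nat.ceil_mono ?_
    refine inv_anti₀ (by positivity) ?_
    exact pow_le_pow_of_le_one hρ.le hρ1 (by omega)
  · intro k hk
    have key : Th n * ‖LRT.lat k‖ ≤ (ρ ^ 3)⁻¹ := by
      refine (mul_le_mul_of_nonneg_left (norm_lat_le hk) (by positivity)).trans ?_
      have h1 : (⌈(ρ ^ 2)⁻¹⌉₊ : ℝ) < (ρ ^ 2)⁻¹ + 1 := Nat.ceil_lt_add_one (by positivity)
      have h2 : 1 ≤ (ρ ^ 2)⁻¹ := (one_le_inv₀ (by positivity)).2 (pow_le_one₀ hρ.le hρ1)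
      have h3 : (⌈(ρ ^ 2)⁻¹⌉₊ : ℝ) ≤ 2 * (ρ ^ 2)⁻¹ := by linarith
      have h4 : (ρ ^ 3)⁻¹ = (ρ ^ 2)⁻¹ * ρ⁻¹ := by
        rw [pow_succ, mul_inv]
      have h5 : 2 * (n : ℝ) * Th n ≤ ρ⁻¹ := by
        have h6 : 2 * (n : ℝ) * Th n * ρ ≤ 1 := by linarith
        calc 2 * (n : ℝ) * Th n = 2 * (n : ℝ) * Th n * ρ * ρ⁻¹ := by
              rw [mul_assoc (2 * (n : ℝ) * Th n), mul_inv_cancel₀ hρ.ne', mul_one]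
          _ ≤ 1 * ρ⁻¹ := mul_le_mul_of_nonneg_right h6 (by positivity)
          _ = ρ⁻¹ := one_mul _
      calc Th n * ((n : ℝ) * (⌈(ρ ^ 2)⁻¹⌉₊ : ℝ)) ≤ Th n * (n * (2 * (ρ ^ 2)⁻¹)) := by gcongr
        _ = (ρ ^ 2)⁻¹ * (2 * n * Th n) := by ring
        _ ≤ (ρ ^ 2)⁻¹ * ρ⁻¹ := mul_le_mul_of_nonneg_left h5 (by positivity)
        _ = (ρ ^ 3)⁻¹ := h4.symm
    have h7 : ‖LRT.lat k‖ ≤ Th n * ‖LRT.lat k‖ := le_mul_of_one_le_left (norm_nonneg _) hTh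
    exact ⟨h7.trans key, (norm_dlat_le k).trans key⟩

theorem arith_res {n : ℕ} [Par n] (hn : 1 ≤ n) : ∃ ρ₀ : ℝ, 0 < ρ₀ ∧ ∀ ρ : ℝ, 0 < ρ → ρ ≤ ρ₀ → ∀ k : Fin n → ℤ,
    (∃ u : Fin n → ℤ, ∑ i, u i * k i = 1) → ‖LRT.lat k‖ ≤ (ρ ^ 3)⁻¹ → ∀ w₀ : RE n, inner ℝ (dlat k) w₀ = 0 →
    ∃ w : RE n, inner ℝ (dlat k) w = 0 ∧ ‖w - w₀‖ ≤ Tau n ρ ∧
      (∀ m ∈ bx n (Qn n ρ), (¬ ∃ j : ℤ, m = j • k) → Gam n ρ ≤ |inner ℝ (dlat m) w|) ∧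
      ∀ z : RE n, inner ℝ (dlat k) z = 0 →
        ∃ r : ℝ, 0 ≤ r ∧ r ≤ Tim n ρ ∧ ∃ m : Fin n → ℤ, ‖r • w - z - lat m‖ ≤ Rad n ρ := by
  obtain ⟨ρ₀, h0, h⟩ := LRT.arith_res hn
  refine ⟨ρ₀, h0, ?_⟩
  intro ρ hρ hρ0 k hk hkn w₀ hw₀
  obtain ⟨w, hw1, hw2, hw3, hw4⟩ := h ρ hρ hρ0 k hk hkn ((Par.T : RE n ≃L[ℝ] RE n).symm w₀)
    (by rw [← inner_dlat]; exact hw₀)
  refine ⟨(Par.T : RE n ≃L[ℝ] RE n) w, by rw [inner_dlat_T]; exact hw1, ?_, ?_, ?_⟩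
  · have e : (Par.T : RE n ≃L[ℝ] RE n) w - w₀ =
        (Par.T : RE n ≃L[ℝ] RE n) (w - (Par.T : RE n ≃L[ℝ] RE n).symm w₀) := by
      rw [map_sub, ContinuousLinearEquiv.apply_symm_apply]
    rw [e]
    exact (norm_T_le _).trans hw2
  · intro m hm hmk
    rw [inner_dlat_T]
    exact hw3 m hm hmk
  · intro z hz
    obtain ⟨r, hr0, hr1, m, hm⟩ := hw4 ((Par.T : RE n ≃L[ℝ] RE n).symm z) (by rw [← inner_dlat]; exact hz)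
    refine ⟨r, hr0, hr1, m, ?_⟩
    have e : r • (Par.T : RE n ≃L[ℝ] RE n) w - z - lat m =
        (Par.T : RE n ≃L[ℝ] RE n) (r • w - (Par.T : RE n ≃L[ℝ] RE n).symm z - LRT.lat m) := by
      rw [map_sub, map_sub, map_smul, ContinuousLinearEquiv.apply_symm_apply]
      rfl
    rw [e]
    exact (norm_T_le _).trans hm

end Pool.Agent.LRW
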