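import Pool.Agent.LRT.E3

/-!
LRW/E3: Fourier truncation with a constant in front of the sum (helper13).
-/

set_option autoImplicit false

open Set MeasureTheory Topology

namespace Pool.Agent.LRW

open Pool.Agent.LRT

theorem four_res_c (n : ℕ) {c : ℝ} (hc1 : 1 ≤ c) : ∃ ρ₀ : ℝ, 0 < ρ₀ ∧ ∀ ρ R : ℝ, 0 < ρ → ρ ≤ ρ₀ → ∀ G : CE n × CE n → ℂ,
    DifferentiableOn ℂ G (D (ρ / 2) R) → PerX (ρ / 2) R G → (∀ z ∈ D (ρ / 2) R, ‖G z‖ ≤ ρ ^ MM n) →
    ∀ w : RE n, ‖w‖ < R →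
    (∀ t : RE n, ‖G (ofR t, ofR w) - ∑ m ∈ bx n (Qn n ρ), coef G m (ofR w) * ch m (ofR t)‖ ≤ Ez n ρ / 2) ∧
    c * ∑ m ∈ bx n (Qn n ρ), (1 + 2 * Real.pi * ‖LRT.lat m‖) * ‖coef G m (ofR w)‖ ≤ Bz n ρ := by
  have hc0 : 0 < c := by linarith
  obtain ⟨C, hC, hF⟩ := fourier_tail n 1
  obtain ⟨C', hC', hS⟩ := lat_sum1 n
  refine ⟨min 1 (min (1 / (2 ^ (n + 2) * C)) (1 / (c * C'))), by positivity, ?_⟩
  intro ρ R hρ hρ0 G hG hp hB w hw
  have hρ1 : ρ ≤ 1 := hρ0.trans (min_le_left _ _)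
  have hρ2 : 2 ^ (n + 2) * C * ρ ≤ 1 := by
    have h := hρ0.trans ((min_le_right _ _).trans (min_le_left _ _))
    rw [le_div_iff₀ (by positivity)] at h
    linarith
  have hρ3 : c * C' * ρ ≤ 1 := by
    have h := hρ0.trans ((min_le_right _ _).trans (min_le_right _ _))
    rw [le_div_iff₀ (by positivity)] at h
    linarith
  have hv := e3_MM n
  have hρ2' : 0 < ρ / 2 := by positivity
  constructor
  · intro t
    have hQ : (ρ ^ (18 * (n + 4)))⁻¹ ≤ (Qn n ρ : ℝ) := Nat.le_ceil _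
    have hQ1 : 1 ≤ Qn n ρ := by
      have h1 : (1 : ℝ) ≤ (ρ ^ (18 * (n + 4)))⁻¹ :=
        (one_le_inv₀ (by positivity)).2 (pow_le_one₀ hρ.le hρ1)
      exact_mod_cast h1.trans hQ
    have h := hF (ρ / 2) R (ρ ^ MM n) hρ2' (by linarith) G hG hp hB (Qn n ρ) hQ1
      (ofR t, ofR w) (ofR_mem_D (by positivity) t hw)
    refine h.trans ?_
    rw [pow_one]
    have hQ0 : (0 : ℝ) < Qn n ρ := by exact_mod_cast hQ1
    rw [div_le_iff₀ (by positivity)]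
    have h2 : Ez n ρ / 2 * ((ρ / 2) ^ (n + 1) * (ρ ^ (18 * (n + 4)))⁻¹) ≤
        Ez n ρ / 2 * ((ρ / 2) ^ (n + 1) * (Qn n ρ : ℝ)) := by
      have hE : 0 ≤ Ez n ρ / 2 := by
        unfold Ez
        positivity
      exact mul_le_mul_of_nonneg_left (mul_le_mul_of_nonneg_left hQ (by positivity)) hE
    refine le_trans ?_ h2
    have h3 : Ez n ρ / 2 * ((ρ / 2) ^ (n + 1) * (ρ ^ (18 * (n + 4)))⁻¹) =
        ρ ^ MM n * (ρ ^ (5 * (n + 4)) * ρ ^ (n + 1) / (2 ^ (n + 2) * ρ ^ (18 * (n + 4)))) := by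
      unfold Ez
      rw [pow_add, div_pow, pow_succ (2 : ℝ) (n + 1)]
      field_simp
    rw [h3]
    refine mul_le_mul_of_nonneg_left ?_ (by positivity)
    rw [le_div_iff₀ (by positivity)]
    have h4 : ρ ^ (18 * (n + 4)) ≤ ρ ^ (5 * (n + 4)) * ρ ^ (n + 1) * ρ := by
      rw [← pow_add, ← pow_succ]
      exact pow_le_pow_of_le_one hρ.le hρ1 (by omega)
    calc C * (2 ^ (n + 2) * ρ ^ (18 * (n + 4)))
        ≤ C * (2 ^ (n + 2) * (ρ ^ (5 * (n + 4)) * ρ ^ (n + 1) * ρ)) := by gcongr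
      _ = (2 ^ (n + 2) * C * ρ) * (ρ ^ (5 * (n + 4)) * ρ ^ (n + 1)) := by ring
      _ ≤ 1 * (ρ ^ (5 * (n + 4)) * ρ ^ (n + 1)) :=
        mul_le_mul_of_nonneg_right hρ2 (by positivity)
      _ = ρ ^ (5 * (n + 4)) * ρ ^ (n + 1) := one_mul _
  · have h1 : ∀ m ∈ bx n (Qn n ρ), (1 + 2 * Real.pi * ‖LRT.lat m‖) * ‖coef G m (ofR w)‖ ≤
        ρ ^ MM n * ((1 + 2 * Real.pi * ∑ i, |(m i : ℝ)|) * Real.exp (-(ρ * ‖LRT.lat m‖))) := by
      intro m _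
      have hc := coef_bound hρ2' hG hp hB m (ofR_mem_Dw hρ2' hw)
      have hpi : (1 : ℝ) ≤ Real.pi := by
        have := Real.pi_gt_three
        linarith
      have hl : 0 ≤ ρ * ‖LRT.lat m‖ := by positivity
      have he : Real.exp (-(2 * Real.pi * (ρ / 2) * ‖LRT.lat m‖)) ≤ Real.exp (-(ρ * ‖LRT.lat m‖)) := by
        refine Real.exp_le_exp.2 ?_
        have h4 : ρ * ‖LRT.lat m‖ ≤ Real.pi * (ρ * ‖LRT.lat m‖) := le_mul_of_one_le_left hl hpi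
        linarith
      have hc2 : ‖coef G m (ofR w)‖ ≤ ρ ^ MM n * Real.exp (-(ρ * ‖LRT.lat m‖)) :=
        hc.trans (mul_le_mul_of_nonneg_left he (by positivity))
      have hn := e3_norm_le m
      have h5 : 1 + 2 * Real.pi * ‖LRT.lat m‖ ≤ 1 + 2 * Real.pi * ∑ i, |(m i : ℝ)| := by
        have h6 := mul_le_mul_of_nonneg_left hn (show (0 : ℝ) ≤ 2 * Real.pi by positivity)
        linarith
      calc (1 + 2 * Real.pi * ‖LRT.lat m‖) * ‖coef G m (ofR w)‖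
          ≤ (1 + 2 * Real.pi * ∑ i, |(m i : ℝ)|) * (ρ ^ MM n * Real.exp (-(ρ * ‖LRT.lat m‖))) :=
            mul_le_mul h5 hc2 (norm_nonneg _) ((by positivity : (0 : ℝ) ≤
              1 + 2 * Real.pi * ‖LRT.lat m‖).trans h5)
        _ = _ := by ring
    refine (mul_le_mul_of_nonneg_left (Finset.sum_le_sum h1) (by linarith)).trans ?_
    rw [← Finset.mul_sum]
    refine (mul_le_mul_of_nonneg_left (mul_le_mul_of_nonneg_left (hS ρ hρ hρ1 _) (by positivity)) (by linarith)).trans ?_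
    have h7 : ρ ^ MM n = ρ ^ (MM n - (n + 4)) * (ρ ^ (n + 1) * ρ ^ 3) := by
      rw [← pow_add, ← pow_add]
      congr 1
      omega
    have h8 : c * (ρ ^ MM n * (C' / ρ ^ (n + 1))) = ρ ^ (MM n - (n + 4)) * (c * C' * ρ ^ 3) := by
      rw [h7]
      field_simp
    rw [h8]
    unfold Bz
    refine mul_le_of_le_one_right (by positivity) ?_
    have h9 : ρ ^ 3 ≤ ρ ^ 1 := pow_le_pow_of_le_one hρ.le hρ1 (by norm_num)
    rw [pow_one] at h9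
    exact (mul_le_mul_of_nonneg_left h9 (by positivity)).trans hρ3

end Pool.Agent.LRW
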