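import Pool.Agent.LRW.E3
import Pool.Agent.LRW.E1
import Pool.Agent.LRW.C8

/-!
LRW/E3b: Fourier truncation of the error at real points; the velocity error, for the lattice `T ℤⁿ` (helper13).
-/

set_option autoImplicit false

open Set MeasureTheory Topology

namespace Pool.Agent.LRW

open Pool.Agent.LRT

theorem four_res (n : ℕ) [Par n] : ∃ ρ₀ : ℝ, 0 < ρ₀ ∧ ∀ ρ R : ℝ, 0 < ρ → ρ ≤ ρ₀ → ∀ G : CE n × CE n → ℂ,
    DifferentiableOn ℂ G (D (ρ / 2) R) → PerX (ρ / 2) R G → (∀ z ∈ D (ρ / 2) R, ‖G z‖ ≤ ρ ^ MM n) →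
    ∀ w : RE n, ‖w‖ < R →
    (∀ t : RE n, ‖G (ofR t, ofR w) - ∑ m ∈ bx n (Qn n ρ), coef G m (ofR w) * ch m (ofR t)‖ ≤ Ez n ρ / 2) ∧
    ∑ m ∈ bx n (Qn n ρ), (1 + 2 * Real.pi * ‖dlat m‖) * ‖coef G m (ofR w)‖ ≤ Bz n ρ := by
  have hTh := one_le_Th (n := n)
  obtain ⟨ρ₀, h0, h⟩ := four_res_c n hTh
  refine ⟨ρ₀, h0, ?_⟩
  intro ρ R hρ hρ0 G hG hp hB w hw
  obtain ⟨h1, h2⟩ := h ρ R hρ hρ0 (fun z => G (TC z.1, z.2)) (e1_hol hG) (e1_per hp) (e1_bd hB) w hw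
  refine ⟨?_, ?_⟩
  · intro t
    have h3 := h1 ((Par.T : RE n ≃L[ℝ] RE n).symm t)
    have e1 : TC (ofR ((Par.T : RE n ≃L[ℝ] RE n).symm t)) = ofR t := by
      rw [← TI_ofR, TC_TI]
    simp only [e1] at h3
    have e2 : ∀ m : Fin n → ℤ, ch m (ofR t) = LRT.ch m (ofR ((Par.T : RE n ≃L[ℝ] RE n).symm t)) := by
      intro m
      unfold ch
      rw [TI_ofR]
    simp only [e2]
    exact h3
  · refine le_trans ?_ h2
    rw [Finset.mul_sum]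
    refine Finset.sum_le_sum fun m _ => ?_
    have h3 := norm_dlat_le m
    have h4 := Real.pi_pos
    have h5 : 1 + 2 * Real.pi * ‖dlat m‖ ≤ Th n * (1 + 2 * Real.pi * ‖LRT.lat m‖) := by
      have h6 := mul_le_mul_of_nonneg_left h3 (by positivity : 0 ≤ 2 * Real.pi)
      linarith
    calc (1 + 2 * Real.pi * ‖dlat m‖) * ‖coef G m (ofR w)‖ ≤
          (Th n * (1 + 2 * Real.pi * ‖LRT.lat m‖)) * ‖coef G m (ofR w)‖ :=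
          mul_le_mul_of_nonneg_right h5 (norm_nonneg _)
      _ = Th n * ((1 + 2 * Real.pi * ‖LRT.lat m‖) *
          ‖LRT.coef (fun z => G (TC z.1, z.2)) m (ofR w)‖) := by
        rw [mul_assoc]
        rfl

private lemma e8_num {ρ y g : ℝ} (hρ : ρ ≤ 1 / 11) (hρ0 : 0 < ρ) (hy0 : 0 ≤ y)
    (h2 : g ≤ 8 * (y * ρ)) : 102 / 100 * g + 2 * (y * ρ ^ 2) ≤ y := by
  nlinarith [mul_nonneg hy0 hρ0.le, mul_le_mul_of_nonneg_left hρ hy0,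
    mul_le_mul_of_nonneg_left hρ (mul_nonneg hy0 hρ0.le)]

private lemma e8_two (n : ℕ) : 2 ≤ MM n :=
  calc 2 ≤ 200 * 1 := by norm_num
    _ ≤ MM n := Nat.mul_le_mul_left _ (Nat.one_le_pow _ _ (Nat.succ_pos _))

theorem eta_res (n : ℕ) [Par n] : ∃ ρ₀ : ℝ, 0 < ρ₀ ∧ ∀ (w0 : RE n) (κ ρ R CH : ℝ) (H : CE n × CE n → ℂ)
    (b : CE n → ℂ) (u : CE n × CE n → ℂ), NS κ ρ R CH H b u → ρ ≤ ρ₀ →
    (∀ z ∈ D ρ R, ‖err w0 H b u z‖ ≤ ρ ^ MM n) → ∀ x w : RE n, ‖w‖ < R - ρ / 8 →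
    102 / 100 * ‖gw (err w0 H b u) (ofR x, ofR w)‖ + 2 * ρ ^ MM n ≤ Eta n ρ := by
  refine ⟨1 / 11, by norm_num, ?_⟩
  intro w0 κ ρ R CH H b u h hρ hE x w hw
  have hρ0 : 0 < ρ := h.ρ0
  have hd : 0 < ρ / 8 := by positivity
  have hz : ((ofR x, ofR w) : CE n × CE n) ∈ D (ρ - ρ / 8) (R - ρ / 8) :=
    ofR_mem_D (by linarith) x hw
  have hsub := ball_subset_D hz
  have h1 : ‖fderiv ℂ (err w0 H b u) (ofR x, ofR w)‖ ≤ ρ ^ MM n / (ρ / 8) :=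
    cauchy_fderiv hd (h.err_hol.mono hsub) (fun y hy => hE y (hsub hy))
  have h2 : ‖gw (err w0 H b u) (ofR x, ofR w)‖ ≤ ρ ^ MM n / (ρ / 8) := (norm_gw_le _ _).trans h1
  have hM : MM n = MM n - 2 + 2 := by
    exact (Nat.sub_add_cancel (e8_two n)).symm
  obtain ⟨y, hy⟩ : ∃ y : ℝ, y = ρ ^ (MM n - 2) := ⟨_, rfl⟩
  have hy0 : 0 ≤ y := by rw [hy]; positivity
  have h3 : ρ ^ MM n = y * ρ ^ 2 := by
    rw [hy, ← pow_add, ← hM]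
  have h4 : ρ ^ MM n / (ρ / 8) = 8 * (y * ρ) := by
    rw [h3]
    field_simp
  rw [h4] at h2
  have h5 : Eta n ρ = y := hy.symm
  rw [h5, h3]
  exact e8_num hρ hρ0 hy0 h2

end Pool.Agent.LRW
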