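import Pool.Agent.LRT.ED

/-!
LRW/E5: the two numerical conditions of theorem TR with a convexity constant (helper13; adapted from LRT/E5).
-/

set_option autoImplicit false

open Set MeasureTheory Topology

namespace Pool.Agent.LRW

open Pool.Agent.LRT

private lemma e5_pow {ρ : ℝ} (hρ : 0 < ρ) (hρ1 : ρ ≤ 1) {a b : ℕ} (h : b + 1 ≤ a) :
    ρ ^ a ≤ ρ ^ b * ρ := by
  rw [← pow_succ]
  exact pow_le_pow_of_le_one hρ.le hρ1 h

private lemma e5_abs {C ρ A E G e T R2 E0 s c N B : ℝ} (hC : 1 ≤ C) (hρ : 0 < ρ)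
    (hρ1 : 4 * (8 + 48 * C ^ 2) * (4 + 3 * C) * ρ ≤ 1) (hρ2 : (14 + 10 * C) * (96 * C) * ρ < 1)
    (hA : 0 < A) (hT : 0 < T) (hE0 : 0 < E0) (hs : 0 < s) (hc : 0 < c) (hB : 0 < B)
    (h1 : e ≤ A * ρ) (h2 : E ^ 2 ≤ A * ρ) (h3 : E * G ≤ A * ρ) (h4 : G ^ 2 ≤ A * ρ)
    (h5 : G ≤ E0 * ρ) (h6 : T * A = E0 * ρ) (h7 : R2 / T ≤ E0 * ρ)
    (h8 : A = s ^ 2) (h9 : A = B * c) (h10 : E0 = s * ρ ^ 3 * c) (hN1 : 1 ≤ N) (hN : N ≤ (ρ ^ 3)⁻¹) :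
    4 * (8 + 48 * C ^ 2) * er C E G e ≤ A ∧
    2 * (3 * G + (2 * T * (A + 4 * er C E G e) + 5 * C * R2 / T)) < √(A / (24 * C)) / N * (A / (4 * B)) := by
  have hC0 : 0 < C := by linarith
  have hAρ : 0 < A * ρ := by positivity
  have her : er C E G e ≤ (4 + 3 * C) * (A * ρ) := by
    unfold er
    have a1 : 2 * C * E ^ 2 ≤ 2 * C * (A * ρ) := mul_le_mul_of_nonneg_left h2 (by positivity)
    have a2 : C * G ^ 2 ≤ C * (A * ρ) := mul_le_mul_of_nonneg_left h4 hC0.le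
    linarith
  have hk : 0 < 4 * (8 + 48 * C ^ 2) := by positivity
  have hcond : 4 * (8 + 48 * C ^ 2) * er C E G e ≤ A := by
    calc 4 * (8 + 48 * C ^ 2) * er C E G e ≤ 4 * (8 + 48 * C ^ 2) * ((4 + 3 * C) * (A * ρ)) :=
          mul_le_mul_of_nonneg_left her hk.le
      _ = A * (4 * (8 + 48 * C ^ 2) * (4 + 3 * C) * ρ) := by ring
      _ ≤ A * 1 := mul_le_mul_of_nonneg_left hρ1 hA.le
      _ = A := mul_one A
  refine ⟨hcond, ?_⟩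
  have h4er : 4 * er C E G e ≤ A := by
    rcases le_or_gt (er C E G e) 0 with h | h
    · linarith
    · have : 4 * er C E G e ≤ 4 * (8 + 48 * C ^ 2) * er C E G e := by
        have : 1 ≤ 8 + 48 * C ^ 2 := by nlinarith
        nlinarith
      linarith
  have h11 : A + 4 * er C E G e ≤ 2 * A := by linarith
  have h12 : 2 * T * (A + 4 * er C E G e) ≤ 4 * (E0 * ρ) := by
    calc 2 * T * (A + 4 * er C E G e) ≤ 2 * T * (2 * A) :=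
          mul_le_mul_of_nonneg_left h11 (by positivity)
      _ = 4 * (T * A) := by ring
      _ = 4 * (E0 * ρ) := by rw [h6]
  have h13 : 5 * C * R2 / T ≤ 5 * C * (E0 * ρ) := by
    rw [mul_div_assoc]
    exact mul_le_mul_of_nonneg_left h7 (by positivity)
  have hL : 2 * (3 * G + (2 * T * (A + 4 * er C E G e) + 5 * C * R2 / T)) ≤ (14 + 10 * C) * (E0 * ρ) := by
    linarith
  have h14 : s / (24 * C) ≤ √(A / (24 * C)) := by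
    apply Real.le_sqrt_of_sq_le
    rw [h8, div_pow, sq (24 * C), ← div_div]
    have h24 : 1 ≤ 24 * C := by linarith
    exact div_le_self (by positivity) h24
  have h15 : ρ ^ 3 ≤ 1 / N := by
    rw [le_div_iff₀ (by linarith)]
    have h16 : ρ ^ 3 * N ≤ ρ ^ 3 * (ρ ^ 3)⁻¹ := mul_le_mul_of_nonneg_left hN (by positivity)
    rwa [mul_inv_cancel₀ (by positivity)] at h16
  have h17 : A / (4 * B) = c / 4 := by
    rw [h9]
    field_simp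
  have hN0 : 0 < N := by linarith
  have h18 : E0 / (96 * C) ≤ √(A / (24 * C)) / N * (A / (4 * B)) := by
    rw [h17, h10, div_eq_mul_one_div (√(A / (24 * C))) N]
    calc s * ρ ^ 3 * c / (96 * C) = s / (24 * C) * ρ ^ 3 * (c / 4) := by field_simp; ring
      _ ≤ √(A / (24 * C)) * (1 / N) * (c / 4) := by gcongr
  refine lt_of_le_of_lt hL (lt_of_lt_of_le ?_ h18)
  rw [lt_div_iff₀ (by positivity)]
  calc (14 + 10 * C) * (E0 * ρ) * (96 * C) = E0 * ((14 + 10 * C) * (96 * C) * ρ) := by ring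
    _ < E0 * 1 := mul_lt_mul_of_pos_left hρ2 hE0
    _ = E0 := mul_one _

private lemma e5_key {C : ℝ} (hC : 1 ≤ C) {ρ : ℝ} (hρ : 0 < ρ) (hρ3 : ρ ≤ 1)
    (hρ1 : 4 * (8 + 48 * C ^ 2) * (4 + 3 * C) * ρ ≤ 1) (hρ2 : (14 + 10 * C) * (96 * C) * ρ < 1)
    {N : ℝ} (hN1 : 1 ≤ N)
    (hN : N ≤ (ρ ^ 3)⁻¹) (v q : ℕ) (hv : 4 ≤ v) (hq : 4 * v ≤ q) :
    4 * (8 + 48 * C ^ 2) * er C (ρ ^ (200 * q - 2)) (ρ ^ (200 * q - v) / ρ ^ (50 * q)) (ρ ^ (200 * q + 5 * v)) ≤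
      ρ ^ (200 * q + 4 * v) ∧
    2 * (3 * (ρ ^ (200 * q - v) / ρ ^ (50 * q)) + (2 * (ρ ^ (100 * q - 3 * v - 4))⁻¹ *
      (ρ ^ (200 * q + 4 * v) + 4 * er C (ρ ^ (200 * q - 2)) (ρ ^ (200 * q - v) / ρ ^ (50 * q))
      (ρ ^ (200 * q + 5 * v))) + 5 * C * (ρ ^ (6 * v)) ^ 2 / (ρ ^ (100 * q - 3 * v - 4))⁻¹)) <
      √(ρ ^ (200 * q + 4 * v) / (24 * C)) / N * (ρ ^ (200 * q + 4 * v) / (4 * ρ ^ (200 * q - v))) := by
  have hG : ρ ^ (200 * q - v) / ρ ^ (50 * q) = ρ ^ (150 * q - v) := by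
    rw [div_eq_iff (by positivity), ← pow_add]
    congr 1
    omega
  rw [hG]
  refine e5_abs (E0 := ρ ^ (100 * q + 7 * v + 3)) (s := ρ ^ (100 * q + 2 * v)) (c := ρ ^ (5 * v))
    hC hρ hρ1 hρ2 (by positivity) (by positivity) (by positivity) (by positivity) (by positivity)
    (by positivity) (e5_pow hρ hρ3 (by omega)) ?_ ?_ ?_ (e5_pow hρ hρ3 (by omega)) ?_ ?_ ?_ ?_ ?_ hN1 hN
  · rw [← pow_mul]
    exact e5_pow hρ hρ3 (by omega)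
  · rw [← pow_add]
    exact e5_pow hρ hρ3 (by omega)
  · rw [← pow_mul]
    exact e5_pow hρ hρ3 (by omega)
  · rw [inv_mul_eq_iff_eq_mul₀ (by positivity), ← pow_succ, ← pow_add]
    congr 1
    omega
  · rw [div_inv_eq_mul, ← pow_mul, ← pow_add]
    exact e5_pow hρ hρ3 (by omega)
  · rw [← pow_mul]
    congr 1
    omega
  · rw [← pow_add]
    congr 1
    omega
  · rw [← pow_add, ← pow_add]
    congr 1
    omega

theorem num_res_La (n : ℕ) {La : ℝ} (hLa : 1 ≤ La) : ∃ ρ₀ : ℝ, 0 < ρ₀ ∧ ∀ ρ : ℝ, 0 < ρ → ρ ≤ ρ₀ →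
    ∀ N : ℝ, 1 ≤ N → N ≤ (ρ ^ 3)⁻¹ →
    4 * (8 + 48 * (4 * La) ^ 2) * er (4 * La) (Eta n ρ) (Bz n ρ / Gam n ρ) (Ez n ρ) ≤ Az n ρ ∧
    2 * (3 * (Bz n ρ / Gam n ρ) +
      (2 * Tim n ρ * (Az n ρ + 4 * er (4 * La) (Eta n ρ) (Bz n ρ / Gam n ρ) (Ez n ρ)) +
      5 * (4 * La) * Rad n ρ ^ 2 / Tim n ρ)) <
      √(Az n ρ / (24 * (4 * La))) / N * (Az n ρ / (4 * Bz n ρ)) := by
  obtain ⟨C, hC⟩ : ∃ C : ℝ, C = 4 * La := ⟨_, rfl⟩
  have hC1 : 1 ≤ C := by linarith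
  rw [← hC]
  obtain ⟨Z, hZ⟩ : ∃ Z : ℝ, Z = 4 * (8 + 48 * C ^ 2) * (4 + 3 * C) + (14 + 10 * C) * (96 * C) + 1 := ⟨_, rfl⟩
  have z1 : 0 < 4 * (8 + 48 * C ^ 2) * (4 + 3 * C) := by positivity
  have z2 : 0 < (14 + 10 * C) * (96 * C) := by positivity
  have hZ0 : 1 ≤ Z := by linarith
  refine ⟨1 / Z, by positivity, fun ρ hρ hρ1 N hN1 hN => ?_⟩
  have hZρ : Z * ρ ≤ 1 := by
    rw [le_div_iff₀ (by linarith)] at hρ1
    linarith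
  have hv : 4 ≤ n + 4 := Nat.le_add_left _ _
  have hq : 4 * (n + 4) ≤ (n + 4) ^ 2 := by
    rw [pow_two]
    exact Nat.mul_le_mul_right _ hv
  have a1 : 4 * (8 + 48 * C ^ 2) * (4 + 3 * C) * ρ ≤ Z * ρ := mul_le_mul_of_nonneg_right (by linarith) hρ.le
  have a2 : (14 + 10 * C) * (96 * C) * ρ < Z * ρ := mul_lt_mul_of_pos_right (by linarith) hρ
  exact e5_key hC1 hρ (by nlinarith) (a1.trans hZρ) (a2.trans_le hZρ) hN1 hN (n + 4) ((n + 4) ^ 2) hv hq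

end Pool.Agent.LRW
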