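import Pool.Agent.LRW.E0
import Pool.Agent.LRW.L4

/-!
E6 (block RC).  The state at a real frequency `w`, in real terms (v2: lattice `T ℤⁿ`, frequency `w0 + w`).
-/

set_option autoImplicit false

open Set MeasureTheory Topology

namespace Pool.Agent.LRW

open Pool.Agent.LRT

variable {n : ℕ} [Par n] {κ ρ R CH : ℝ} {H : CE n × CE n → ℂ} {b : CE n → ℂ} {u : CE n × CE n → ℂ}

theorem NS.real_data (h : NS κ ρ R CH H b u) (w0 : RE n) {w : RE n} (hw : ‖w‖ < R) :
    ∃ (Θ X : RE n → RE n) (U : RE n → ℝ) (q : RE n → RE n),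
      TrD (bsT n) Θ X ∧ ContDiff ℝ 1 U ∧ Pool.H45.Mather.Per (bsT n) U ∧
      (∀ x v, inner ℝ (q x) v = inner ℝ (re (gb b (ofR w))) v + fderiv ℝ U x v) ∧
      (∀ x, qv b u (ofR x, ofR w) = ofR (q x) ∧ ‖q x‖ ≤ R + 1 / 2) ∧
      (∀ t, Xi b u ρ (ofR t, ofR w) = ofR (X t)) ∧
      (∀ x, ‖fderiv ℝ Θ x (w0 + re (gw H (ofR x, ofR (q x)))) - (w0 + w)‖ ≤
        102 / 100 * ‖gw (err w0 H b u) (ofR x, ofR w)‖) := by
  have hth := h.thR_spec hw
  have hX := h.XR_spec hw
  refine ⟨thR b u w, XR b u ρ w, fun x => (u (ofR x, ofR w)).re,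
    fun x => re (gb b (ofR w)) + re (gx u (ofR x, ofR w)), ?_, ?_, ?_, ?_, ?_, hX.2.2.1, ?_⟩
  · refine ⟨hth.1.of_le (by norm_num), hX.1.of_le (by norm_num), bsT_per fun x k => ?_, bsT_per fun x k => ?_,
      hX.2.2.2.2.1, hX.2.2.2.2.2, fun x v => ?_, fun x v => ?_⟩
    · rw [hth.2.1]; abel
    · rw [hX.2.1]; abel
    · refine (ContinuousLinearMap.le_opNorm _ _).trans ?_
      gcongr
      exact hth.2.2.2.1 x
    · refine (ContinuousLinearMap.le_opNorm _ _).trans ?_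
      gcongr
      exact hX.2.2.2.1 x
  · exact (rr_contDiff Complex.reCLM h.ρ0 h.ud hw).of_le (by norm_num)
  · exact bsT_per fun x k => h.u_per_real hw x k
  · intro x v
    rw [inner_add_left, h.grad_real hw]
  · intro x
    refine ⟨h.qv_realp hw x, ?_⟩
    have h1 := h.q_small hw x
    have h2 := norm_sub_norm_le (re (gb b (ofR w)) + re (gx u (ofR x, ofR w))) w
    have h3 := h.κ1
    linarith
  · intro x
    have hz : (ofR x, ofR w) ∈ (D ρ R : Set (CE n × CE n)) := ofR_mem_D h.ρ0 x hw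
    have h1 : gw H (ofR x, ofR (re (gb b (ofR w)) + re (gx u (ofR x, ofR w)))) = vel H b u (ofR x, ofR w) := by
      unfold vel
      rw [h.qv_realp hw x]
    rw [h1, hth.2.2.2.2 x]
    have h2 := h.ident1 (w0 := w0) hz
    have h4 : vel H b u (ofR x, ofR w) + ofR w0 = ofR (w0 + re (vel H b u (ofR x, ofR w))) := by
      rw [add_comm w0, ofR_add, ← h.vel_realp hw x]
    rw [h4] at h2
    have h3 : (w0 + re (vel H b u (ofR x, ofR w))) +
        re (fderiv ℂ (gv b u) (ofR x, ofR w) (ofR (w0 + re (vel H b u (ofR x, ofR w))), 0)) - (w0 + w) =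
        re (Ring.inverse (hess b (ofR w)) (gw (err w0 H b u) (ofR x, ofR w))) := by
      have h5 := congrArg re h2
      rw [re_add, re_ofR, re_add, re_add, re_ofR, re_ofR] at h5
      rw [h5]
      abel
    rw [h3]
    refine (norm_re_le _).trans ((ContinuousLinearMap.le_opNorm _ _).trans ?_)
    gcongr
    exact (h.isUnit (ofR_mem_Dw h.ρ0 hw)).2

end Pool.Agent.LRW
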