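import Pool.Agent.LRW.PD
import Pool.Agent.LRT.C5b
import Pool.Agent.LRT.C11

/-!
FW (difficulty 3).  Fourier series for the lattice `T ℤⁿ`: everything is deduced from the case `ℤⁿ` (LRT/C5, C5b, C11)
for the function `G' z = G (TC z.1, z.2)`.

Facts of PD.lean: `TC_TI`, `TI_TC`, `TC_ofR`, `TI_ofR`, `TC_cj`, `TI_cj`, `norm_im_TC_le : ‖im (TC z)‖ ≤ ‖im z‖`,
`norm_im_TI_le : ‖im (TI z)‖ ≤ Th n * ‖im z‖`, `TI_lat`, `dot_dlat`, `ch_eq`, `one_le_Th`.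

PROOF.  `G' = fun z => G (TC z.1, z.2)` is holomorphic on `D ρ R` (`(TC z.1, z.2) ∈ D ρ R` by `norm_im_TC_le`;
`TC` is a continuous linear map), `LRT.PerX ρ R G'` (`TC (z.1 + ofR (LRT.lat k)) = TC z.1 + ofR (lat k)`: `map_add`, `TC_ofR`),
`RealX ρ R G'` (`TC_cj`), bounded by `B`.  `coef G m = LRT.coef G' m` by definition.
`coef_hol`, `coef_bound`, `coef_real`: the LRT theorems for `G'`.
`fourier_tail`: for `z ∈ D (ρ / (2 * Th n)) R` put `z' = (TI z.1, z.2) ∈ D (ρ/2) R`; `G' z' = G z` (`TC_TI`), `ch m z.1 = LRT.ch m z'.1`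
(definition of `ch`); apply `LRT.fourier_tail`.
`ch_norm_le`: `LRT.c11_ch_norm_le` with `s := Th n * s`.  `ch_shift`: `TI (x + ofR (lat k)) = TI x + ofR (LRT.lat k)`.
`ch_cj`, `ch_neg`..: from the LRT versions (`LRT.c11_ch_cj`).
`ch_hasFDerivAt`: `ch m = LRT.ch m ∘ TI`; derivative `ch m z • ((2πi) • dotL (ofR (LRT.lat m))).comp TI`, and
`dotL (ofR (LRT.lat m)) ∘ TI = dotL (ofR (dlat m))` by `dot_dlat`.
-/

set_option autoImplicit false

open Set MeasureTheory Topology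

namespace Pool.Agent.LRW

open Pool.Agent.LRT

variable {n : ℕ} [Par n]

/-- the function in the lattice coordinates -/
noncomputable def fw_G (G : CE n × CE n → ℂ) (z : CE n × CE n) : ℂ := G (TC z.1, z.2)

theorem fw_mem {ρ R : ℝ} {z : CE n × CE n} (hz : z ∈ (D ρ R : Set (CE n × CE n))) :
    ((TC z.1, z.2) : CE n × CE n) ∈ (D ρ R : Set (CE n × CE n)) :=
  ⟨(norm_im_TC_le z.1).trans_lt hz.1, hz.2.1, hz.2.2⟩

theorem fw_diff {ρ R : ℝ} {G : CE n × CE n → ℂ} (hG : DifferentiableOn ℂ G (D ρ R)) :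
    DifferentiableOn ℂ (fw_G G) (D ρ R) := by
  have h : DifferentiableOn ℂ (fun z : CE n × CE n => ((TC z.1, z.2) : CE n × CE n)) (D ρ R) :=
    ((TC.differentiable.comp differentiable_fst).prodMk differentiable_snd).differentiableOn
  exact hG.comp h (fun z hz => fw_mem hz)

theorem fw_per {ρ R : ℝ} {G : CE n × CE n → ℂ} (hp : PerX ρ R G) : LRT.PerX ρ R (fw_G G) := by
  intro z hz k
  have h1 := hp _ (fw_mem hz) k
  have h2 : TC (z.1 + ofR (LRT.lat k)) = TC z.1 + ofR (lat k) := by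
    rw [map_add, TC_ofR]
    rfl
  show G (TC (z.1 + ofR (LRT.lat k)), z.2) = G (TC z.1, z.2)
  rw [h2]
  exact h1

theorem fw_real {ρ R : ℝ} {G : CE n × CE n → ℂ} (hr : RealX ρ R G) : RealX ρ R (fw_G G) := by
  intro z hz
  have h1 := hr _ (fw_mem hz)
  show G (TC (cj z.1), cj z.2) = (starRingEnd ℂ) (G (TC z.1, z.2))
  rw [TC_cj]
  exact h1

theorem fw_bound {ρ R B : ℝ} {G : CE n × CE n → ℂ} (hB : ∀ z ∈ D ρ R, ‖G z‖ ≤ B) :
    ∀ z ∈ D ρ R, ‖fw_G G z‖ ≤ B := fun _ hz => hB _ (fw_mem hz)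

theorem fw_coef (G : CE n × CE n → ℂ) (m : Fin n → ℤ) : coef G m = LRT.coef (fw_G G) m := rfl

theorem coef_hol {ρ R : ℝ} (hρ : 0 < ρ) {G : CE n × CE n → ℂ}
    (hG : DifferentiableOn ℂ G (D ρ R)) (m : Fin n → ℤ) :
    DifferentiableOn ℂ (coef G m) (Dw ρ R) := by
  rw [fw_coef]
  exact LRT.coef_hol hρ (fw_diff hG) m

theorem coef_bound {ρ R B : ℝ} (hρ : 0 < ρ) {G : CE n × CE n → ℂ}
    (hG : DifferentiableOn ℂ G (D ρ R)) (hp : PerX ρ R G) (hB : ∀ z ∈ D ρ R, ‖G z‖ ≤ B)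
    (m : Fin n → ℤ) {w : CE n} (hw : w ∈ Dw ρ R) :
    ‖coef G m w‖ ≤ B * Real.exp (-(2 * Real.pi * ρ * ‖LRT.lat m‖)) := by
  rw [fw_coef]
  exact LRT.coef_bound hρ (fw_diff hG) (fw_per hp) (fw_bound hB) m hw

theorem coef_real {ρ R : ℝ} (hρ : 0 < ρ) {G : CE n × CE n → ℂ} (hr : RealX ρ R G)
    (m : Fin n → ℤ) {w : CE n} (hw : w ∈ Dw ρ R) :
    coef G (-m) (cj w) = (starRingEnd ℂ) (coef G m w) := by
  rw [fw_coef, fw_coef]
  exact LRT.coef_real hρ (fw_real hr) m hw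

theorem fourier_tail (n N : ℕ) [Par n] : ∃ C : ℝ, 0 < C ∧ ∀ (ρ R B : ℝ), 0 < ρ → ρ ≤ 1 →
    ∀ G : CE n × CE n → ℂ, DifferentiableOn ℂ G (D ρ R) → PerX ρ R G → (∀ z ∈ D ρ R, ‖G z‖ ≤ B) →
    ∀ K : ℕ, 1 ≤ K → ∀ z ∈ (D (ρ / (2 * Th n)) R : Set (CE n × CE n)),
      ‖G z - ∑ m ∈ bx n K, coef G m z.2 * ch m z.1‖ ≤ B * C / (ρ ^ (n + N) * (K : ℝ) ^ N) := by
  obtain ⟨C, hC, h⟩ := LRT.fourier_tail n N
  refine ⟨C, hC, fun ρ R B hρ hρ1 G hG hp hB K hK z hz => ?_⟩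
  have hT : 1 ≤ Th n := one_le_Th
  have hT0 : 0 < Th n := by linarith
  have hz1 : ‖im z.1‖ < ρ / (2 * Th n) := hz.1
  have hz2 : ‖im z.2‖ < ρ / (2 * Th n) := hz.2.1
  have hle : ρ / (2 * Th n) ≤ ρ / 2 := by
    apply div_le_div_of_nonneg_left hρ.le (by norm_num)
    linarith
  have hz' : ((TI z.1, z.2) : CE n × CE n) ∈ (D (ρ / 2) R : Set (CE n × CE n)) := by
    refine ⟨?_, hz2.trans_le hle, hz.2.2⟩
    have h1 := norm_im_TI_le z.1
    have h2 : Th n * ‖im z.1‖ < Th n * (ρ / (2 * Th n)) := mul_lt_mul_of_pos_left hz1 hT0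
    have h3 : Th n * (ρ / (2 * Th n)) = ρ / 2 := by
      field_simp
    exact (h1.trans_lt h2).trans_le h3.le
  have h4 := h ρ R B hρ hρ1 (fw_G G) (fw_diff hG) (fw_per hp) (fw_bound hB) K hK _ hz'
  have h5 : fw_G G (TI z.1, z.2) = G z := by
    show G (TC (TI z.1), z.2) = G z
    rw [TC_TI]
  rw [h5] at h4
  exact h4

theorem ch_hasFDerivAt (m : Fin n → ℤ) (z : CE n) :
    HasFDerivAt (ch m) (ch m z • ((2 * Real.pi * Complex.I) • dotL (ofR (dlat m)))) z := by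
  have h1 := (LRT.c11_ch_hasFDerivAt m (TI z)).comp z (TI (n := n)).hasFDerivAt
  have h2 : (LRT.ch m (TI z) • ((2 * Real.pi * Complex.I) • dotL (ofR (LRT.lat m)))).comp (TI (n := n)) =
      ch m z • ((2 * Real.pi * Complex.I) • dotL (ofR (dlat m))) := by
    ext v
    simp only [ContinuousLinearMap.comp_apply, ContinuousLinearMap.smul_apply, dotL_apply, smul_eq_mul]
    rw [dot_dlat]
    rfl
  rw [h2] at h1
  exact h1

theorem ch_norm_le (m : Fin n → ℤ) (z : CE n) {s : ℝ} (hs : ‖im z‖ ≤ s) :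
    ‖ch m z‖ ≤ Real.exp (2 * Real.pi * ‖LRT.lat m‖ * (Th n * s)) := by
  refine LRT.c11_ch_norm_le m (TI z) ?_
  have hT : 1 ≤ Th n := one_le_Th
  exact (norm_im_TI_le z).trans (mul_le_mul_of_nonneg_left hs (by linarith))

theorem ch_shift (m k : Fin n → ℤ) (x : CE n) : ch m (x + ofR (lat k)) = ch m x := by
  show LRT.ch m (TI (x + ofR (lat k))) = LRT.ch m (TI x)
  rw [map_add, TI_lat]
  exact LRT.c11_ch_shift m k (TI x)

theorem ch_cj (m : Fin n → ℤ) (z : CE n) : ch (-m) (cj z) = (starRingEnd ℂ) (ch m z) := by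
  show LRT.ch (-m) (TI (cj z)) = (starRingEnd ℂ) (LRT.ch m (TI z))
  rw [TI_cj]
  exact LRT.c11_ch_cj m (TI z)

theorem ch_zero (z : CE n) : ch (0 : Fin n → ℤ) z = 1 := by
  have h : LRT.lat (0 : Fin n → ℤ) = 0 := by
    ext i
    simp
  show Complex.exp (2 * Real.pi * Complex.I * dot (ofR (LRT.lat (0 : Fin n → ℤ))) (TI z)) = 1
  rw [h, ofR_zero]
  simp [dot]

theorem ch_ofR (m : Fin n → ℤ) (t : RE n) :
    ch m (ofR t) = Complex.exp (2 * Real.pi * Complex.I * ((inner ℝ (dlat m) t : ℝ) : ℂ)) := by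
  rw [ch_eq, dot_ofR]

end Pool.Agent.LRW
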