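import Pool.Agent.LRT.VTR
import Pool.Agent.LRW.KL2

/-!
# LRW/KTR: theorem TR for a `HamK`   (helper45)
-/

set_option autoImplicit false

open MeasureTheory Module Set Filter Topology

namespace Pool.Agent.LRW

open Pool.H45.Mather Pool.Agent.LRT

noncomputable section

set_option linter.unusedSectionVars false
set_option linter.style.haveILetI false

variable {n : ℕ} {E : Type*} [NormedAddCommGroup E] [InnerProductSpace ℝ E] [FiniteDimensional ℝ E]
  [MeasurableSpace E] [BorelSpace E] {b : Basis (Fin n) ℝ E}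

variable {H : E × E → ℝ} {Hp : E × E → E} {Θ X : E → E} {La : ℝ}

theorem TR (hLa : 1 ≤ La) (hH : HamK La b H Hp) (hT : TrD b Θ X) {c w : E} {u : E → ℝ} (hu : ContDiff ℝ 1 u)
    (hup : Per b u) {q : E → E} (hq : ∀ x v, inner ℝ (q x) v = inner ℝ c v + fderiv ℝ u x v)
    {k u₀ : Fin n → ℤ} (hu₀ : lin b k (lat b u₀) = 1) (hk1 : 1 ≤ ‖lin b k‖) (hkw : lin b k w = 0)
    {S : Finset (Fin n → ℤ)} {ε : (Fin n → ℤ) → ℂ}
    (hS : ∀ m ∈ S, -m ∈ S ∧ ε (-m) = (starRingEnd ℂ) (ε m))
    {γ B e1 η a A0 T r₀ : ℝ} (hγ : 0 < γ) (hB0 : 0 < B) (he1 : 0 < e1) (hη : 0 ≤ η)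
    (hA0 : 0 < A0) (hT0 : 0 < T)
    (he : ∀ t, |H (X t, q (X t)) - a - (∑ m ∈ S, ε m * ec b m t).re| ≤ e1)
    (hz : ∀ t, ‖fderiv ℝ Θ (X t) (Hp (X t, q (X t))) - w‖ ≤ η)
    (hs : ∀ m ∈ S, ¬ RsM k m → γ ≤ |lin b m w|)
    (hB : ∑ m ∈ S, (1 + 2 * Real.pi * ‖lin b m‖) * ‖ε m‖ ≤ B)
    (hr : r₀ * ‖lin b k‖ < 1)
    (hdens : ∀ z, lin b k z = 0 → ∃ r, 0 ≤ r ∧ r ≤ T ∧ ∃ m, ‖r • w - z - lat b m‖ ≤ r₀)
    (hn1 : 4 * (8 + 48 * (4 * La) ^ 2) * er (4 * La) η (B / γ) e1 ≤ A0)
    (hn2 : 2 * (3 * (B / γ) + (2 * T * (A0 + 4 * er (4 * La) η (B / γ) e1) + 5 * (4 * La) * r₀ ^ 2 / T)) <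
      √(A0 / (24 * (4 * La))) / ‖rv b k‖ * (A0 / (4 * B)))
    (hd : DifferentiableAt ℝ (betaL b (Leg H)) w) :
    ∀ m ∈ S, RsM k m → m ≠ 0 → ‖ε m‖ ≤ A0 := by
  classical
  have hTon : TonL b (Ltr (Leg H) c u X) := tonL_tr (hH.tonL hLa) hT c hu hup
  have hd' : DifferentiableAt ℝ (betaL b (Ltr (Leg H) c u X)) w := diff_tr (hH.tonL hLa) hT c hu hup hd
  obtain ⟨χ, g, hχ1, hχp, hχB, hχG, hg1, hgL, hgB, hgs, hgx⟩ := fourier_data (b := b) (w := w) hγ hs hB hu₀ hk1
  have hgper : Function.Periodic g 1 := hg1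
  have hgint : ∀ (s : ℝ) (N : ℤ), g (s + N) = g s := by
    intro s N
    have h1 := hgper.int_mul N s
    rwa [mul_one] at h1
  have hgc : Continuous g := by
    refine (LipschitzWith.of_dist_le_mul (K := ⟨B, hB0.le⟩) fun s s' => ?_).continuous
    rw [Real.dist_eq, Real.dist_eq]
    exact hgL s s'
  set fl : E → ℝ := fun x => g (lin b k x) with hfl
  have hfc : Continuous fl := hgc.comp (lin b k).continuous
  have hfp : Per b fl := by
    intro i x
    change g (lin b k (x + b i)) = g (lin b k x)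
    rw [map_add, lin_basis, hgint]
  obtain ⟨xM, hxM⟩ := hfp.exists_max hfc
  obtain ⟨xm, hxm'⟩ := (hfp.comp (fun y => -y)).exists_max hfc.neg
  have hxm : ∀ x, fl xm ≤ fl x := fun x => neg_le_neg_iff.1 (hxm' x)
  set A : ℝ := fl xM - fl xm with hAdef
  have hAB : A ≤ 2 * B := by
    have h1 := (abs_le.1 (hgB (lin b k xM))).2
    have h2 := (abs_le.1 (hgB (lin b k xm))).1
    change g (lin b k xM) - g (lin b k xm) ≤ 2 * B
    linarith
  have honto : ∀ s : ℝ, lin b k (s • lat b u₀) = s := by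
    intro s
    rw [map_smul, hu₀, smul_eq_mul, mul_one]
  have hosc : ∀ s s' : ℝ, g s - g s' ≤ A := by
    intro s s'
    have h1 : g s ≤ fl xM := by
      have h2 := hxM (s • lat b u₀)
      change g (lin b k (s • lat b u₀)) ≤ fl xM at h2
      rwa [honto] at h2
    have h2 : fl xm ≤ g s' := by
      have h3 := hxm (s' • lat b u₀)
      change fl xm ≤ g (lin b k (s' • lat b u₀)) at h3
      rwa [honto] at h3
    rw [hAdef]; linarith
  rcases le_or_gt A A0 with hcase | hcase
  · -- small oscillation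
    let jj : (Fin n → ℤ) → ℤ := fun m => ∑ i, m i * u₀ i
    have hjk : jj k = 1 := by
      have h1 := hu₀
      rw [lin_lat] at h1
      exact_mod_cast h1
    have hjs : ∀ j : ℤ, jj (j • k) = j := by
      intro j
      change ∑ i, (j • k) i * u₀ i = j
      have h1 : ∑ i, (j • k) i * u₀ i = j * ∑ i, k i * u₀ i := by
        rw [Finset.mul_sum]
        refine Finset.sum_congr rfl fun i _ => ?_
        rw [Pi.smul_apply, smul_eq_mul, mul_assoc]
      rw [h1]
      change j * jj k = j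
      rw [hjk, mul_one]
    have hres : ∀ m, RsM k m → m = jj m • k := by
      rintro m ⟨j, rfl⟩
      rw [hjs]
    have hneg : ∀ m, jj (-m) = -jj m := by
      intro m
      change ∑ i, (-m) i * u₀ i = -∑ i, m i * u₀ i
      rw [← Finset.sum_neg_distrib]
      exact Finset.sum_congr rfl fun i _ => by rw [Pi.neg_apply, neg_mul]
    have hJ : ∀ j ∈ (S.filter (RsM k)).image jj, -j ∈ (S.filter (RsM k)).image jj ∧
        ε ((-j) • k) = (starRingEnd ℂ) (ε (j • k)) := by
      intro j hj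
      rw [Finset.mem_image] at hj
      obtain ⟨m, hm, rfl⟩ := hj
      rw [Finset.mem_filter] at hm
      have h1 := hres m hm.2
      have h2 : (-jj m) • k = -m := by rw [neg_smul, ← h1]
      refine ⟨Finset.mem_image.2 ⟨-m, Finset.mem_filter.2 ⟨(hS m hm.1).1, ⟨-jj m, h2.symm⟩⟩, hneg m⟩, ?_⟩
      rw [h2, (hS m hm.1).2, ← h1]
    have hsum : ∀ s : ℝ, (∑ j ∈ (S.filter (RsM k)).image jj, ε (j • k) *
        Complex.exp (((2 * Real.pi * (j * s) : ℝ) : ℂ) * Complex.I)).re = g s := by
      intro s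
      rw [hgs s, Finset.sum_image]
      · congr 1
        refine Finset.sum_congr rfl fun m hm => ?_
        rw [Finset.mem_filter] at hm
        rw [← hres m hm.2, lin_lat]
      · intro m hm m' hm' he'
        rw [Finset.mem_coe, Finset.mem_filter] at hm hm'
        rw [hres m hm.2, hres m' hm'.2, he']
    have hfin := coef_le_osc (J := (S.filter (RsM k)).image jj) (a := fun j => ε (j • k)) hJ (A := A) (by
      intro s s'
      rw [hsum, hsum]
      exact hosc s s')
    intro m hm hmr hm0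
    have h1 := hres m hmr
    have h2 := hfin (jj m) (Finset.mem_image.2 ⟨m, Finset.mem_filter.2 ⟨hm, hmr⟩, rfl⟩) (by
      intro h3
      rw [h3, zero_smul] at h1
      exact hm0 h1)
    change ‖ε (jj m • k)‖ ≤ A at h2
    rw [← h1] at h2
    exact h2.trans hcase
  · -- large oscillation
    exfalso
    have hA : 0 < A := hA0.trans hcase
    have D : DatR b (Ltr (Leg H) c u X) k w (fun t => H (X t, q (X t)) - a) χ fl
        (fun t => fderiv ℝ Θ (X t) (Hp (X t, q (X t))) - w) a (4 * La) η (B / γ) e1 (fl xM) A := by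
      refine ⟨hTon, by linarith, hη, he1, ?_, ?_, hz, hkw, hχ1, hχp, hχG, hfc, hfp, ?_, ?_, hxM, ⟨xM, rfl⟩, ?_⟩
      · intro t v
        have h1 := hH.R1 hLa hT c (u := u) t v (q (X t)) (fun y => hq (X t) y)
        have h2 : v - w - (fderiv ℝ Θ (X t) (Hp (X t, q (X t))) - w) = v - fderiv ℝ Θ (X t) (Hp (X t, q (X t))) := by
          abel
        rw [h2]
        linarith
      · intro t v p
        have h1 := hH.R2 hLa hT c (u := u) t v (q (X t)) p (fun y => hq (X t) y)
        have h2 : w + (fderiv ℝ Θ (X t) (Hp (X t, q (X t))) - w) = fderiv ℝ Θ (X t) (Hp (X t, q (X t))) := by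
          abel
        rw [h2]
        linarith
      · intro x y hxy
        change g (lin b k x) = g (lin b k y)
        rw [hxy]
      · intro x
        have h1 := hgx x
        have h2 : H (X x, q (X x)) - a + fderiv ℝ χ x w - fl x =
            H (X x, q (X x)) - a - (∑ m ∈ S, ε m * ec b m x).re := by
          change H (X x, q (X x)) - a + fderiv ℝ χ x w - g (lin b k x) = _
          rw [← h1]; ring
        rw [h2]
        exact he x
      · intro x
        have h1 := hxm x
        rw [hAdef]; linarith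
    have her := D.er_pos
    set er0 := er (4 * La) η (B / γ) e1 with her0
    have hwd : 0 < A / (4 * B) := by positivity
    refine D.key hu₀ (s₁ := lin b k xm) (wd := A / (4 * B)) hwd ?_ ?_ hr hT0 hdens hχB ?_ ?_ hd'
    · rw [div_lt_one (by positivity)]
      linarith
    · intro x h0 h1
      set θ := Int.fract (lin b k x - lin b k xm) with hθ
      have h2 : lin b k x = (lin b k xm + θ) + (⌊lin b k x - lin b k xm⌋ : ℤ) := by
        have h3 := Int.floor_add_fract (lin b k x - lin b k xm)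
        rw [hθ]
        linarith
      have h3 : fl x = g (lin b k xm + θ) := by
        change g (lin b k x) = _
        rw [h2, hgint]
      have h4 := (abs_le.1 (hgL (lin b k xm + θ) (lin b k xm))).2
      rw [add_sub_cancel_left, abs_of_pos h0] at h4
      have h5 : B * θ ≤ A / 4 := by
        have h6 := mul_le_mul_of_nonneg_left h1.le hB0.le
        have h7 : B * (A / (4 * B)) = A / 4 := by
          field_simp
        linarith
      have h6 : fl xm = g (lin b k xm) := rfl
      rw [h3]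
      rw [hAdef] at h5 ⊢
      linarith
    · have h1 : (8 + 48 * (4 * La) ^ 2) * er0 = 4 * (8 + 48 * (4 * La) ^ 2) * er0 / 4 := by ring
      rw [h1]
      linarith
    · set ρ : ℝ := A / A0 with hρ
      have hρ1 : 1 ≤ ρ := by
        rw [hρ, le_div_iff₀ hA0]; linarith
      have hAρ : A = ρ * A0 := by
        rw [hρ]; field_simp
      have hBγ : 0 ≤ B / γ := by positivity
      have hrT : 0 ≤ 5 * (4 * La) * r₀ ^ 2 / T := by positivity
      have hl : 2 * (3 * (B / γ) + (2 * T * (A + 4 * er0) + 5 * (4 * La) * r₀ ^ 2 / T)) ≤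
          ρ * (2 * (3 * (B / γ) + (2 * T * (A0 + 4 * er0) + 5 * (4 * La) * r₀ ^ 2 / T))) := by
        rw [hAρ]
        have h2 : B / γ ≤ ρ * (B / γ) := le_mul_of_one_le_left hBγ hρ1
        have h3 : 5 * (4 * La) * r₀ ^ 2 / T ≤ ρ * (5 * (4 * La) * r₀ ^ 2 / T) := le_mul_of_one_le_left hrT hρ1
        have h4 : T * er0 ≤ ρ * (T * er0) := le_mul_of_one_le_left (by positivity) hρ1
        nlinarith
      have hr' : ρ * (√(A0 / (24 * (4 * La))) / ‖rv b k‖ * (A0 / (4 * B))) ≤ √(A / (24 * (4 * La))) / ‖rv b k‖ * (A / (4 * B)) := by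
        have h2 : ρ * (√(A0 / (24 * (4 * La))) / ‖rv b k‖ * (A0 / (4 * B))) = √(A0 / (24 * (4 * La))) / ‖rv b k‖ * (A / (4 * B)) := by
          rw [hAρ]; ring
        rw [h2]
        refine mul_le_mul_of_nonneg_right ?_ hwd.le
        refine div_le_div_of_nonneg_right ?_ (norm_nonneg _)
        exact Real.sqrt_le_sqrt (div_le_div_of_nonneg_right hcase.le (by linarith))
      have hmid := mul_lt_mul_of_pos_left hn2 (by linarith : 0 < ρ)
      exact (hl.trans_lt hmid).trans_le hr'

end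

end Pool.Agent.LRW
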