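import Pool.Agent.LRW.PD
import Pool.Agent.LRT.F9

/-!
F9 (difficulty 3).  The approximation theorem for the lattice `T ℤⁿ` (from `LRT.approx`).

PROOF.  `LRT.approx n r`: `s, C₁`; the same `s`, `C = C₁ * (Th n)^r` (and `≥ C₁`; `1 ≤ Th n`).  Given `f`: `g (x, p) = f (T x, p)`
(`Par.T`), `ContDiff`, `ℤⁿ`-periodic (`lat k = T (LRT.lat k)`), `iteratedFDeriv ℝ j g = iteratedFDeriv` of `f ∘ L`, `L (x, p) = (T x, p)`,
`‖L‖ ≤ 1`: `ContinuousLinearMap.norm_iteratedFDeriv_comp_right`-type bound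
(`‖iteratedFDeriv ℝ j (f ∘ L) z‖ ≤ ‖iteratedFDeriv ℝ j f (L z)‖ * ‖L‖^j ≤ eps`).  `F₁` from `LRT.approx` for `g`.
`F t z = F₁ (t * Th n) (TI z.1, z.2)`?  NO: for `‖im z.1‖ ≤ 2/t` we have `‖im (TI z.1)‖ ≤ Th n * (2/t) = 2/(t / Th n)`, so put
`F t z = F₁ (max 1 (t / Th n)) (TI z.1, z.2)`.
Bounded: `t ≥ 1`: if `t / Th n ≥ 1` fine.  If `t < Th n` then `max = 1` and `2/t` may be larger than `2 / Th n`: hence the hypothesis
`Th n ≤ t` in the statement.  `eps/(t/Th n)^r = eps (Th n)^r/t^r`.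
Derivative at real points in the direction `(0, ofR v)`: the chain rule (`(TI, id)` maps `(0, ofR v)` to `(0, ofR v)`), and
`fderiv ℝ g (T⁻¹ x, p) (0, v) = fderiv ℝ f (x, p) (0, v)` (`f` differentiable at that point if `1 ≤ s`; if `f` is not
differentiable both are zero or use `max s 1`): take `s := max s 1`.
-/

set_option autoImplicit false

open Set MeasureTheory Topology

namespace Pool.Agent.LRW

open Pool.Agent.LRT

/-- the real lattice map on pairs -/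
noncomputable def f9_L (n : ℕ) [Par n] : (RE n × RE n) →L[ℝ] (RE n × RE n) :=
  ((Par.T : RE n ≃L[ℝ] RE n) : RE n →L[ℝ] RE n).prodMap (ContinuousLinearMap.id ℝ (RE n))

/-- the inverse complex lattice map on pairs -/
noncomputable def f9_I (n : ℕ) [Par n] : (CE n × CE n) →L[ℂ] (CE n × CE n) :=
  (TI : CE n →L[ℂ] CE n).prodMap (ContinuousLinearMap.id ℂ (CE n))

lemma f9_norm_L (n : ℕ) [Par n] : ‖f9_L n‖ ≤ 1 := by
  refine ContinuousLinearMap.opNorm_le_bound _ zero_le_one fun z => ?_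
  rw [one_mul]
  have h1 : f9_L n z = ((Par.T : RE n ≃L[ℝ] RE n) z.1, z.2) := rfl
  rw [h1, Prod.norm_def, Prod.norm_def]
  exact max_le_max (norm_T_le _) le_rfl

lemma f9_iter {n : ℕ} [Par n] {s : ℕ} {f : RE n × RE n → ℝ} (hf : ContDiff ℝ s f) {eps : ℝ}
    (he : 0 ≤ eps) {j : ℕ} (hj : j ≤ s) (z : RE n × RE n)
    (h : ‖iteratedFDeriv ℝ j f (f9_L n z)‖ ≤ eps) :
    ‖iteratedFDeriv ℝ j (fun y => f (f9_L n y)) z‖ ≤ eps := by
  have h1 := ContinuousLinearMap.iteratedFDeriv_comp_right (f9_L n) hf z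
    (i := j) (by exact_mod_cast hj)
  have h2 : (fun y => f (f9_L n y)) = f ∘ (f9_L n) := rfl
  rw [h2, h1]
  refine (ContinuousMultilinearMap.norm_compContinuousLinearMap_le _ _).trans ?_
  rw [Finset.prod_const]
  have h3 : ‖f9_L n‖ ^ (Finset.univ : Finset (Fin j)).card ≤ 1 :=
    pow_le_one₀ (norm_nonneg _) (f9_norm_L n)
  calc _ ≤ eps * 1 := mul_le_mul h h3 (by positivity) he
    _ = eps := mul_one _

theorem approx (n r : ℕ) : ∃ s : ℕ, ∀ [Par n], ∃ C : ℝ, 0 < C ∧ ∀ (eps : ℝ) (f : RE n × RE n → ℝ),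
    ContDiff ℝ s f →
    (∀ x p : RE n, ∀ k : Fin n → ℤ, f (x + lat k, p) = f (x, p)) →
    (∀ j ≤ s, ∀ x p : RE n, ‖p‖ ≤ 5 * Real.sqrt n → ‖iteratedFDeriv ℝ j f (x, p)‖ ≤ eps) →
    ∃ F : ℝ → CE n × CE n → ℂ, (∀ t, Differentiable ℂ (F t)) ∧
      (∀ t z, ∀ k : Fin n → ℤ, F t (z.1 + ofR (lat k), z.2) = F t z) ∧
      (∀ t z, F t (cjp z) = (starRingEnd ℂ) (F t z)) ∧
      (∀ t : ℝ, Th n ≤ t → ∀ z : CE n × CE n, ‖im z.1‖ ≤ 2 / t → ‖im z.2‖ ≤ 2 / t → ‖F t z‖ ≤ C * eps) ∧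
      (∀ t t' : ℝ, Th n ≤ t → t ≤ t' → ∀ z : CE n × CE n, ‖im z.1‖ ≤ 2 / t' → ‖im z.2‖ ≤ 2 / t' →
        ‖F t' z - F t z‖ ≤ C * eps / t ^ r) ∧
      ∀ t : ℝ, Th n ≤ t → ∀ x p : RE n, ‖p‖ ≤ 3 → ‖F t (ofR x, ofR p) - ((f (x, p) : ℝ) : ℂ)‖ ≤ C * eps / t ^ r ∧
        ∀ v : RE n, ‖fderiv ℂ (F t) (ofR x, ofR p) (0, ofR v) - ((fderiv ℝ f (x, p) (0, v) : ℝ) : ℂ)‖ ≤
          C * eps / t ^ r * ‖v‖ := by
  obtain ⟨s₀, C₁, hC₁, H⟩ := LRT.approx n r
  refine ⟨max s₀ 1, ?_⟩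
  intro _
  have hTh : 1 ≤ Th n := one_le_Th
  have hTh0 : 0 < Th n := by linarith
  have hThr : 1 ≤ Th n ^ r := one_le_pow₀ hTh
  refine ⟨C₁ * Th n ^ r, by positivity, fun eps f hf hper hb => ?_⟩
  have he : 0 ≤ eps := by
    have := hb 0 (Nat.zero_le _) 0 0 (by rw [norm_zero]; positivity)
    exact (norm_nonneg _).trans this
  have hf0 : ContDiff ℝ s₀ f := hf.of_le (by exact_mod_cast le_max_left _ _)
  have hf1 : Differentiable ℝ f := hf.differentiable (by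
    have : (1 : ℕ) ≤ max s₀ 1 := le_max_right _ _
    intro h0
    have h1 : max s₀ 1 = 0 := by exact_mod_cast h0
    omega)
  obtain ⟨F₁, a1, a2, a3, a4, a5, a6⟩ := H eps (fun y => f (f9_L n y))
    (hf0.comp (f9_L n).contDiff)
    (fun x p k => by
      have h1 : f9_L n (x + LRT.lat k, p) = ((Par.T : RE n ≃L[ℝ] RE n) x + lat k, p) := by
        change ((Par.T : RE n ≃L[ℝ] RE n) (x + LRT.lat k), p) = _
        rw [map_add]; rfl
      have h2 : f9_L n (x, p) = ((Par.T : RE n ≃L[ℝ] RE n) x, p) := rfl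
      change f (f9_L n (x + LRT.lat k, p)) = f (f9_L n (x, p))
      rw [h1, h2]
      exact hper _ _ _)
    (fun j hj x p hp => f9_iter hf0 he hj _
      (hb j (hj.trans (le_max_left _ _)) _ _ hp))
  have hmax : ∀ t : ℝ, Th n ≤ t → max 1 (t / Th n) = t / Th n := fun t ht =>
    max_eq_right ((one_le_div hTh0).2 ht)
  have hI : ∀ z : CE n × CE n, f9_I n z = (TI z.1, z.2) := fun z => rfl
  have him1 : ∀ (t : ℝ), Th n ≤ t → ∀ z : CE n × CE n, ‖im z.1‖ ≤ 2 / t →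
      ‖im (TI z.1)‖ ≤ 2 / (t / Th n) := by
    intro t ht z hz
    have ht0 : 0 < t := by linarith
    refine (norm_im_TI_le z.1).trans ?_
    calc Th n * ‖im z.1‖ ≤ Th n * (2 / t) := mul_le_mul_of_nonneg_left hz hTh0.le
      _ = 2 / (t / Th n) := by field_simp
  have him2 : ∀ (t : ℝ), Th n ≤ t → ∀ z : CE n × CE n, ‖im z.2‖ ≤ 2 / t →
      ‖im z.2‖ ≤ 2 / (t / Th n) := by
    intro t ht z hz
    have ht0 : 0 < t := by linarith
    refine hz.trans ?_
    have h1 : t / Th n ≤ t := div_le_self ht0.le hTh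
    have h2 : 0 < t / Th n := by positivity
    gcongr
  have hpow : ∀ t : ℝ, Th n ≤ t → C₁ * eps / (t / Th n) ^ r = C₁ * Th n ^ r * eps / t ^ r := by
    intro t ht
    have ht0 : 0 < t := by linarith
    rw [div_pow]
    field_simp
  have hCC : C₁ * eps ≤ C₁ * Th n ^ r * eps := by
    have h1 : 0 ≤ C₁ * eps := by positivity
    nlinarith
  refine ⟨fun t z => F₁ (max 1 (t / Th n)) (f9_I n z), fun t => ?_, fun t z k => ?_, fun t z => ?_,
    fun t ht z h1 h2 => ?_, fun t t' ht htt z h1 h2 => ?_, fun t ht x p hp => ?_⟩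
  · exact (a1 _).comp (f9_I n).differentiable
  · change F₁ _ (f9_I n (z.1 + ofR (lat k), z.2)) = F₁ _ (f9_I n z)
    have h1 : f9_I n (z.1 + ofR (lat k), z.2) = (TI z.1 + ofR (LRT.lat k), z.2) := by
      rw [hI]
      change (TI (z.1 + ofR (lat k)), z.2) = _
      rw [map_add, TI_lat]
    rw [h1, hI]
    exact a2 _ (TI z.1, z.2) k
  · change F₁ _ (f9_I n (cjp z)) = _
    have h1 : f9_I n (cjp z) = cjp (f9_I n z) := by
      rw [hI, hI]
      change (TI (cj z.1), cj z.2) = (cj (TI z.1), cj z.2)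
      rw [TI_cj]
    rw [h1]
    exact a3 _ _
  · change ‖F₁ (max 1 (t / Th n)) (f9_I n z)‖ ≤ _
    rw [hmax t ht]
    exact (a4 (t / Th n) ((one_le_div hTh0).2 ht) (f9_I n z) (him1 t ht z h1)
      (him2 t ht z h2)).trans hCC
  · change ‖F₁ (max 1 (t' / Th n)) (f9_I n z) - F₁ (max 1 (t / Th n)) (f9_I n z)‖ ≤ _
    have ht' : Th n ≤ t' := ht.trans htt
    rw [hmax t ht, hmax t' ht', ← hpow t ht]
    exact a5 (t / Th n) (t' / Th n) ((one_le_div hTh0).2 ht) (by gcongr) (f9_I n z)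
      (him1 t' ht' z h1) (him2 t' ht' z h2)
  · have b := a6 (t / Th n) ((one_le_div hTh0).2 ht) ((Par.T : RE n ≃L[ℝ] RE n).symm x) p hp
    have e1 : f9_I n (ofR x, ofR p) = (ofR ((Par.T : RE n ≃L[ℝ] RE n).symm x), ofR p) := by
      rw [hI, TI_ofR]
    have e2 : f9_L n ((Par.T : RE n ≃L[ℝ] RE n).symm x, p) = (x, p) := by
      change ((Par.T : RE n ≃L[ℝ] RE n) ((Par.T : RE n ≃L[ℝ] RE n).symm x), p) = _
      rw [ContinuousLinearEquiv.apply_symm_apply]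
    refine ⟨?_, fun v => ?_⟩
    · change ‖F₁ (max 1 (t / Th n)) (f9_I n (ofR x, ofR p)) - _‖ ≤ _
      rw [hmax t ht, e1, ← hpow t ht]
      have b1 := b.1
      rw [e2] at b1
      exact b1
    · have b2 := b.2 v
      have g1 : fderiv ℝ (fun y => f (f9_L n y)) ((Par.T : RE n ≃L[ℝ] RE n).symm x, p) (0, v) =
          fderiv ℝ f (x, p) (0, v) := by
        have h1 : HasFDerivAt (fun y => f (f9_L n y))
            ((fderiv ℝ f (f9_L n ((Par.T : RE n ≃L[ℝ] RE n).symm x, p))).comp (f9_L n))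
            ((Par.T : RE n ≃L[ℝ] RE n).symm x, p) :=
          (hf1 _).hasFDerivAt.comp _ (f9_L n).hasFDerivAt
        rw [h1.fderiv, ContinuousLinearMap.comp_apply, e2]
        have h2 : f9_L n ((0 : RE n), v) = (0, v) := by
          change ((Par.T : RE n ≃L[ℝ] RE n) 0, v) = _
          rw [map_zero]
        rw [h2]
      have g2 : fderiv ℂ (fun z => F₁ (max 1 (t / Th n)) (f9_I n z)) (ofR x, ofR p) (0, ofR v) =
          fderiv ℂ (F₁ (t / Th n)) (ofR ((Par.T : RE n ≃L[ℝ] RE n).symm x), ofR p) (0, ofR v) := by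
        have h1 : HasFDerivAt (fun z => F₁ (max 1 (t / Th n)) (f9_I n z))
            ((fderiv ℂ (F₁ (max 1 (t / Th n))) (f9_I n (ofR x, ofR p))).comp (f9_I n))
            (ofR x, ofR p) :=
          ((a1 _) _).hasFDerivAt.comp _ (f9_I n).hasFDerivAt
        rw [h1.fderiv, ContinuousLinearMap.comp_apply, e1, hmax t ht]
        have h2 : f9_I n ((0 : CE n), ofR v) = (0, ofR v) := by
          rw [hI]
          change (TI (0 : CE n), ofR v) = _
          rw [map_zero]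
        rw [h2]
      rw [g2, ← hpow t ht, ← g1]
      exact b2

end Pool.Agent.LRW
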