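import Pool.Agent.LRW.KDefs

/-!
# LRW/KL1: the Legendre transform of a `HamK`   (helper45)
-/

set_option autoImplicit false

open MeasureTheory Module Set Filter Topology

namespace Pool.Agent.LRW

open Pool.H45.Mather Pool.Agent.LRT

noncomputable section

set_option linter.unusedSectionVars false
set_option linter.style.haveILetI false

variable {n : ℕ} {E : Type*} [NormedAddCommGroup E] [InnerProductSpace ℝ E] [FiniteDimensional ℝ E]
  [MeasurableSpace E] [BorelSpace E] {b : Basis (Fin n) ℝ E}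

variable {H : E × E → ℝ} {Hp : E × E → E} {La : ℝ}

theorem kl1_young {La : ℝ} (hLa : 0 < La) (s t : ℝ) : s * t ≤ s ^ 2 / (4 * La) + La * t ^ 2 := by
  have h1 : s ^ 2 / (4 * La) + La * t ^ 2 - s * t = (s - 2 * La * t) ^ 2 / (4 * La) := by
    field_simp
    ring
  have h2 : 0 ≤ (s - 2 * La * t) ^ 2 / (4 * La) := by positivity
  linarith

omit [FiniteDimensional ℝ E] [MeasurableSpace E] [BorelSpace E] in
theorem kl1_ptw (hLa : 1 ≤ La) (hH : HamK La b H Hp) (x v p r : E) :
    inner ℝ r v - H (x, r) ≤ inner ℝ p v - H (x, p) + La * ‖v - Hp (x, p)‖ ^ 2 := by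
  have hL0 : 0 < La := by linarith
  have h1 := hH.low x p (r - p)
  rw [add_sub_cancel] at h1
  have h2 : inner ℝ (r - p) (v - Hp (x, p)) ≤ ‖r - p‖ * ‖v - Hp (x, p)‖ := real_inner_le_norm _ _
  rw [inner_sub_right, inner_sub_left, real_inner_comm (Hp (x, p)) (r - p)] at h2
  have h3 : ‖r - p‖ * ‖v - Hp (x, p)‖ ≤ ‖r - p‖ ^ 2 / (4 * La) + La * ‖v - Hp (x, p)‖ ^ 2 :=
    kl1_young hL0 _ _
  linarith

omit [FiniteDimensional ℝ E] [MeasurableSpace E] [BorelSpace E] in
theorem kl1_bdd (hLa : 1 ≤ La) (hH : HamK La b H Hp) (x v : E) : BddAbove (range fun p : E => inner ℝ p v - H (x, p)) := by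
  refine ⟨inner ℝ (0 : E) v - H (x, 0) + La * ‖v - Hp (x, 0)‖ ^ 2, ?_⟩
  rintro _ ⟨r, rfl⟩
  exact kl1_ptw hLa hH x v 0 r

omit [FiniteDimensional ℝ E] [MeasurableSpace E] [BorelSpace E] in
theorem HamK.fenchel (hH : HamK La b H Hp) (hLa : 1 ≤ La) (x v p : E) : inner ℝ p v ≤ Leg H (x, v) + H (x, p) := by
  have h1 : inner ℝ p v - H (x, p) ≤ Leg H (x, v) := le_ciSup (kl1_bdd hLa hH x v) p
  linarith

omit [FiniteDimensional ℝ E] [MeasurableSpace E] [BorelSpace E] in
theorem HamK.leg_le (hH : HamK La b H Hp) (hLa : 1 ≤ La) (x v p : E) :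
    Leg H (x, v) ≤ inner ℝ p v - H (x, p) + La * ‖v - Hp (x, p)‖ ^ 2 := by
  exact ciSup_le fun r => kl1_ptw hLa hH x v p r

omit [MeasurableSpace E] [BorelSpace E] in
theorem kl1_max (hLa : 1 ≤ La) (hH : HamK La b H Hp) (x v : E) : ∃ p : E, Leg H (x, v) = inner ℝ p v - H (x, p) ∧ Hp (x, p) = v := by
  have : ProperSpace E := FiniteDimensional.proper ℝ E
  have hL0 : 0 < La := by linarith
  set y : E := v - Hp (x, 0) with hy
  have hgc : Continuous fun p : E => inner ℝ p v - H (x, p) := by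
    have h1 : Continuous fun p : E => inner ℝ p v := continuous_id.inner continuous_const
    have h2 : Continuous fun p : E => H (x, p) := hH.cont.comp (by fun_prop)
    exact h1.sub h2
  obtain ⟨p, hpB, hp⟩ := (isCompact_closedBall (0 : E) (4 * La * ‖y‖)).exists_isMaxOn
    ⟨0, by rw [mem_closedBall_zero_iff, norm_zero]; positivity⟩ hgc.continuousOn
  have hmax : ∀ r : E, inner ℝ r v - H (x, r) ≤ inner ℝ p v - H (x, p) := by
    intro r
    by_cases hr : ‖r‖ ≤ 4 * La * ‖y‖
    · exact hp (mem_closedBall_zero_iff.mpr hr)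
    · push Not at hr
      have h0 : inner ℝ (0 : E) v - H (x, 0) ≤ inner ℝ p v - H (x, p) :=
        hp (mem_closedBall_zero_iff.mpr (by rw [norm_zero]; positivity))
      have h1 := hH.low x 0 r
      rw [zero_add] at h1
      have h2 : inner ℝ r y ≤ ‖r‖ * ‖y‖ := real_inner_le_norm _ _
      rw [hy, inner_sub_right, real_inner_comm (Hp (x, 0)) r, ← hy] at h2
      have h3 : ‖r‖ * ‖y‖ ≤ ‖r‖ ^ 2 / (4 * La) := by
        rw [le_div_iff₀ (by positivity)]
        nlinarith [norm_nonneg r]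
      rw [inner_zero_left] at h0
      linarith
  have hHp : Hp (x, p) = v := by
    set w : E := v - Hp (x, p) with hw
    have h1 := hmax (p + (1 / (2 * La) : ℝ) • w)
    have h2 := hH.up x p ((1 / (2 * La) : ℝ) • w)
    rw [inner_add_left] at h1
    have h3 : inner ℝ ((1 / (2 * La) : ℝ) • w) v - inner ℝ (Hp (x, p)) ((1 / (2 * La) : ℝ) • w) =
        1 / (2 * La) * ‖w‖ ^ 2 := by
      rw [real_inner_comm ((1 / (2 * La) : ℝ) • w) (Hp (x, p)), ← inner_sub_right, ← hw, inner_smul_left,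
        real_inner_self_eq_norm_sq]
      rfl
    have h4 : La * ‖(1 / (2 * La) : ℝ) • w‖ ^ 2 = 1 / (4 * La) * ‖w‖ ^ 2 := by
      rw [norm_smul, Real.norm_of_nonneg (by positivity)]
      field_simp
      ring
    rw [h4] at h2
    have h5 : ‖w‖ ^ 2 ≤ 0 := by
      have h6 : 1 / (2 * La) * ‖w‖ ^ 2 ≤ 1 / (4 * La) * ‖w‖ ^ 2 := by linarith
      have h7 : 1 / (2 * La) * ‖w‖ ^ 2 = 2 * (1 / (4 * La) * ‖w‖ ^ 2) := by
        field_simp
        ring
      have h8 : 1 / (4 * La) * ‖w‖ ^ 2 ≤ 0 := by linarith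
      have h9 : 0 < 1 / (4 * La) := by positivity
      by_contra hcon
      push Not at hcon
      have := mul_pos h9 hcon
      linarith
    have h6 : ‖w‖ = 0 := by nlinarith [norm_nonneg w]
    have h7 : w = 0 := norm_eq_zero.mp h6
    rw [hw, sub_eq_zero] at h7
    exact h7.symm
  refine ⟨p, le_antisymm ?_ ?_, hHp⟩
  · exact ciSup_le hmax
  · exact le_ciSup (kl1_bdd hLa hH x v) p

omit [MeasurableSpace E] [BorelSpace E] in
theorem kl1_bound (hH : HamK La b H Hp) (R : ℝ) : ∃ C : ℝ, 0 ≤ C ∧ ∀ x p, ‖p‖ ≤ R → ‖H (x, p)‖ ≤ C := by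
  have : ProperSpace E := FiniteDimensional.proper ℝ E
  obtain ⟨C, hC⟩ := ((isCompact_closedBall (0 : E) (∑ i, ‖b i‖)).prod
    (isCompact_closedBall (0 : E) R)).exists_bound_of_continuousOn hH.cont.continuousOn
  refine ⟨max C 0, le_max_right _ _, fun x v hv => ?_⟩
  have h1 : H (x, v) = H (ZSpan.fract b x, v) := ((hH.per v).fract x).symm
  rw [h1]
  refine (hC (ZSpan.fract b x, v) ⟨?_, ?_⟩).trans (le_max_left _ _)
  · rw [mem_closedBall_zero_iff]
    exact ZSpan.norm_fract_le b x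
  · rw [mem_closedBall_zero_iff]
    exact hv

omit [MeasurableSpace E] [BorelSpace E] in
theorem HamK.tonL (hH : HamK La b H Hp) (hLa : 1 ≤ La) : TonL b (Leg H) := by
  refine ⟨?_, ?_, ?_, ?_⟩
  · rw [continuous_iff_continuousAt]
    rintro ⟨x, v⟩
    obtain ⟨p, hp1, hp2⟩ := kl1_max hLa hH x v
    have h1 : Continuous fun z : E × E => inner ℝ p z.2 - H (z.1, p) := by
      have h2 : Continuous fun z : E × E => inner ℝ p z.2 := continuous_const.inner continuous_snd
      have h3 : Continuous fun z : E × E => H (z.1, p) := hH.cont.comp (by fun_prop)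
      exact h2.sub h3
    have h4 : Continuous fun z : E × E => inner ℝ p z.2 - H (z.1, p) + La * ‖z.2 - Hp (z.1, p)‖ ^ 2 := by
      have h5 : Continuous fun z : E × E => Hp (z.1, p) := hH.contp.comp (by fun_prop)
      exact h1.add (continuous_const.mul ((continuous_snd.sub h5).norm.pow 2))
    have h6 : Tendsto (fun z : E × E => inner ℝ p z.2 - H (z.1, p)) (𝓝 (x, v)) (𝓝 (Leg H (x, v))) := by
      have h7 := h1.tendsto (x, v)
      simp only at h7
      rw [← hp1] at h7
      exact h7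
    have h8 : Tendsto (fun z : E × E => inner ℝ p z.2 - H (z.1, p) + La * ‖z.2 - Hp (z.1, p)‖ ^ 2) (𝓝 (x, v))
        (𝓝 (Leg H (x, v))) := by
      have h7 := h4.tendsto (x, v)
      simp only at h7
      rw [← hp1, hp2, sub_self, norm_zero] at h7
      simpa using h7
    refine tendsto_of_tendsto_of_tendsto_of_le_of_le h6 h8 ?_ ?_
    · intro z
      have := hH.fenchel hLa z.1 z.2 p
      show inner ℝ p z.2 - H (z.1, p) ≤ Leg H z
      have e : Leg H (z.1, z.2) = Leg H z := rfl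
      linarith
    · intro z
      exact hH.leg_le hLa z.1 z.2 p
  · intro v i x
    show (⨆ p : E, (inner ℝ p v - H (x + b i, p))) = ⨆ p : E, (inner ℝ p v - H (x, p))
    congr 1
    funext p
    have h1 : H (x + b i, p) = H (x, p) := hH.per p i x
    rw [h1]
  · intro x
    refine ⟨convex_univ, ?_⟩
    intro v _ v' _ s s' hs hs' hss
    simp only [smul_eq_mul]
    refine ciSup_le fun p => ?_
    have h1 := hH.fenchel hLa x v p
    have h2 := hH.fenchel hLa x v' p
    simp only
    rw [inner_add_right, inner_smul_right, inner_smul_right]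
    have h3 : H (x, p) = s * H (x, p) + s' * H (x, p) := by rw [← add_mul, hss, one_mul]
    have h4 := mul_le_mul_of_nonneg_left h1 hs
    have h5 := mul_le_mul_of_nonneg_left h2 hs'
    linarith
  · intro A
    obtain ⟨C, hC0, hC⟩ := kl1_bound hH |A|
    refine ⟨C, fun x v => ?_⟩
    have h1 := hH.fenchel hLa x v ((A / ‖v‖) • v)
    have h2 : inner ℝ ((A / ‖v‖) • v) v = A * ‖v‖ := by
      rw [inner_smul_left, real_inner_self_eq_norm_sq]
      rcases eq_or_ne v 0 with rfl | hv
      · simp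
      · have : ‖v‖ ≠ 0 := norm_ne_zero_iff.mpr hv
        show A / ‖v‖ * ‖v‖ ^ 2 = A * ‖v‖
        field_simp
    have h3 : ‖(A / ‖v‖) • v‖ ≤ |A| := by
      rw [norm_smul, Real.norm_eq_abs, abs_div, abs_of_nonneg (norm_nonneg v)]
      rcases eq_or_ne v 0 with rfl | hv
      · simp
      · have : ‖v‖ ≠ 0 := norm_ne_zero_iff.mpr hv
        exact (div_mul_cancel₀ _ this).le
    have h4 := hC x ((A / ‖v‖) • v) h3
    rw [Real.norm_eq_abs] at h4
    have h5 := le_abs_self (H (x, (A / ‖v‖) • v))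
    rw [h2] at h1
    linarith

end

end Pool.Agent.LRW
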