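import Pool.Agent.LRW.KG0
import Pool.Agent.LRW.KL1

/-!
# LRW/FA: homogeneous Hamiltonians: scaling of families, `β` at `0`, the gradient map   (helper45)
-/

set_option autoImplicit false
set_option linter.style.haveILetI false

open MeasureTheory Module Set Filter Topology

namespace Pool.Agent.LRW

open Pool.H45.Mather Pool.Agent.LRT

noncomputable section

set_option linter.unusedSectionVars false

variable {n : ℕ} {E : Type*} [NormedAddCommGroup E] [InnerProductSpace ℝ E] [FiniteDimensional ℝ E]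
  [MeasurableSpace E] [BorelSpace E] {b : Basis (Fin n) ℝ E}

variable {H : E × E → ℝ} {Hp : E × E → E} {La : ℝ}

omit [FiniteDimensional ℝ E] [MeasurableSpace E] [BorelSpace E] in
theorem FSol.hom {t : ℝ} (ht : 0 < t) (hH : ∀ x p, H (x, t • p) = t ^ 2 * H (x, p))
    (hHp : ∀ x p, Hp (x, t • p) = t • Hp (x, p)) {w c : E} {P : E → E} (h : FSol b H Hp w c P) :
    FSol b H Hp (t • w) (t • c) (fun x => t • P x) := by
  refine ⟨?_, ?_, ?_⟩
  · obtain ⟨φ, a1, a2, a3⟩ := h.grad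
    refine ⟨fun x => t * φ x, contDiff_const.mul a1, a2.comp (fun s => t * s), fun x v => ?_⟩
    have h1 : fderiv ℝ (fun x => t * φ x) x = t • fderiv ℝ φ x :=
      fderiv_const_mul (a1.differentiable (by norm_num) x) t
    rw [h1, inner_smul_left, inner_smul_left, a3]
    simp only [conj_trivial, smul_apply, smul_eq_mul]
    ring
  · obtain ⟨a, ha⟩ := h.hj
    exact ⟨t ^ 2 * a, fun x => by rw [hH, ha]⟩
  · obtain ⟨L, hL, hc⟩ := h.conj
    refine ⟨L, hL, fun δ hδ => ?_⟩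
    obtain ⟨X, a1, a2, a3, a4, a5⟩ := hc (δ / t) (by positivity)
    refine ⟨X, a1, a2, a3, a4, fun s => ?_⟩
    rw [hHp, map_smul, ← smul_sub, norm_smul, Real.norm_eq_abs, abs_of_pos ht]
    have := a5 s
    rw [le_div_iff₀ ht] at this
    linarith

omit [FiniteDimensional ℝ E] [MeasurableSpace E] [BorelSpace E] in
theorem FFam.hom {t : ℝ} (ht : 0 < t) (hH : ∀ x p, H (x, t • p) = t ^ 2 * H (x, p))
    (hHp : ∀ x p, Hp (x, t • p) = t • Hp (x, p)) {w₀ : E} {m K r : ℝ} {c : E → E} {P : E → E → E}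
    (h : FFam b H Hp w₀ m K r c P) :
    FFam b H Hp (t • w₀) m K (t * r) (fun w => t • c (t⁻¹ • w)) (fun w x => t • P (t⁻¹ • w) x) := by
  have e : ∀ w, ‖w - t • w₀‖ < t * r → ‖t⁻¹ • w - w₀‖ < r := by
    intro w hw
    have h1 : t⁻¹ • w - w₀ = t⁻¹ • (w - t • w₀) := by
      rw [smul_sub, smul_smul, inv_mul_cancel₀ ht.ne', one_smul]
    rw [h1, norm_smul, Real.norm_eq_abs, abs_of_pos (inv_pos.2 ht), inv_mul_lt_iff₀ ht]
    exact hw
  have e2 : ∀ w : E, t • t⁻¹ • w = w := fun w => by rw [smul_smul, mul_inv_cancel₀ ht.ne', one_smul]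
  have e3 : ∀ w w' : E, ‖t⁻¹ • w - t⁻¹ • w'‖ = t⁻¹ * ‖w - w'‖ := fun w w' => by
    rw [← smul_sub, norm_smul, Real.norm_eq_abs, abs_of_pos (inv_pos.2 ht)]
  have e4 : ∀ (a b : E) (w w' : E), m * ‖t⁻¹ • w - t⁻¹ • w'‖ ^ 2 ≤ inner ℝ (a - b) (t⁻¹ • w - t⁻¹ • w') →
      m * ‖w - w'‖ ^ 2 ≤ inner ℝ (t • a - t • b) (w - w') := by
    intro a b w w' h1
    rw [e3, ← smul_sub, inner_smul_right] at h1
    rw [← smul_sub, inner_smul_left]
    simp only [conj_trivial]
    have h2 := mul_le_mul_of_nonneg_left h1 (sq_nonneg t)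
    have h3 : t ^ 2 * (m * (t⁻¹ * ‖w - w'‖) ^ 2) = m * ‖w - w'‖ ^ 2 := by
      field_simp
    have h4 : t ^ 2 * (t⁻¹ * inner ℝ (a - b) (w - w')) = t * inner ℝ (a - b) (w - w') := by
      field_simp
    rw [h3, h4] at h2
    exact h2
  refine ⟨mul_pos ht h.r0, fun w hw => ?_, ?_, fun w w' hw hw' x => ?_, fun w w' hw hw' => ?_,
    fun w w' hw hw' x => ?_, fun w w' hw hw' => ?_⟩
  · have h1 := (h.sol _ (e w hw)).hom ht hH hHp
    rwa [e2] at h1
  · obtain ⟨K₁, hK₁⟩ := h.lipx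
    refine ⟨t * K₁, fun w hw x x' => ?_⟩
    rw [← smul_sub, norm_smul, Real.norm_eq_abs, abs_of_pos ht, mul_assoc]
    exact mul_le_mul_of_nonneg_left (hK₁ _ (e w hw) x x') ht.le
  · rw [← smul_sub, norm_smul, Real.norm_eq_abs, abs_of_pos ht]
    have h1 := h.lipw _ _ (e w hw) (e w' hw') x
    rw [e3] at h1
    calc _ ≤ t * (K * (t⁻¹ * ‖w - w'‖)) := mul_le_mul_of_nonneg_left h1 ht.le
      _ = _ := by field_simp
  · rw [← smul_sub, norm_smul, Real.norm_eq_abs, abs_of_pos ht]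
    have h1 := h.lipc _ _ (e w hw) (e w' hw')
    rw [e3] at h1
    calc _ ≤ t * (K * (t⁻¹ * ‖w - w'‖)) := mul_le_mul_of_nonneg_left h1 ht.le
      _ = _ := by field_simp
  · exact e4 _ _ w w' (h.mon _ _ (e w hw) (e w' hw') x)
  · exact e4 _ _ w w' (h.monc _ _ (e w hw) (e w' hw'))

omit [FiniteDimensional ℝ E] [MeasurableSpace E] [BorelSpace E] in
theorem HamK.mono (hLa : 1 ≤ La) (hH : HamK La b H Hp) (x p q : E) :
    (2 * La)⁻¹ * ‖p - q‖ ^ 2 ≤ inner ℝ (Hp (x, p) - Hp (x, q)) (p - q) := by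
  have h1 := hH.low x p (q - p)
  have h2 := hH.low x q (p - q)
  rw [add_sub_cancel] at h1 h2
  rw [norm_sub_rev] at h1
  have e : inner ℝ (Hp (x, p)) (q - p) = -inner ℝ (Hp (x, p)) (p - q) := by
    rw [← inner_neg_right, neg_sub]
  rw [e] at h1
  rw [inner_sub_left]
  have e2 : (2 * La)⁻¹ * ‖p - q‖ ^ 2 = ‖p - q‖ ^ 2 / (4 * La) + ‖p - q‖ ^ 2 / (4 * La) := by
    have : La ≠ 0 := by linarith
    field_simp
    ring
  rw [e2]
  linarith

omit [FiniteDimensional ℝ E] [MeasurableSpace E] [BorelSpace E] in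
theorem HamK.lip (hLa : 1 ≤ La) (hH : HamK La b H Hp) (x p q : E) :
    ‖Hp (x, p) - Hp (x, q)‖ ≤ 2 * La * ‖p - q‖ := by
  have hL0 : 0 < La := by linarith
  set u := Hp (x, p) - Hp (x, q) with hu
  set d := ‖p - q‖ with hd
  have key : ∀ v : E, ‖v‖ = d → -inner ℝ u v ≤ 2 * La * d ^ 2 := by
    intro v hv
    have h1 := hH.up x p v
    have h2 := hH.low x q (p + v - q)
    have h3 := hH.up x q (p - q)
    rw [add_sub_cancel] at h2 h3
    have e : inner ℝ (Hp (x, q)) (p + v - q) = inner ℝ (Hp (x, q)) (p - q) + inner ℝ (Hp (x, q)) v := by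
      rw [← inner_add_right]
      congr 1
      abel
    rw [e] at h2
    rw [hv] at h1
    have h4 : 0 ≤ ‖p + v - q‖ ^ 2 / (4 * La) := by positivity
    rw [hu, inner_sub_left]
    linarith
  rcases eq_or_ne u 0 with h0 | h0
  · rw [h0, norm_zero]
    positivity
  · have hu0 : 0 < ‖u‖ := norm_pos_iff.2 h0
    have hd0 : 0 ≤ d := norm_nonneg _
    have h1 := key (-(d / ‖u‖) • u) (by
      rw [norm_smul, Real.norm_eq_abs, abs_neg, abs_of_nonneg (by positivity), div_mul_cancel₀ _ hu0.ne'])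
    rw [inner_smul_right, real_inner_self_eq_norm_sq] at h1
    have e : -(-(d / ‖u‖) * ‖u‖ ^ 2) = d * ‖u‖ := by
      field_simp
    rw [e] at h1
    rcases eq_or_lt_of_le hd0 with h2 | h2
    · -- `p = q`
      have h3 : p = q := sub_eq_zero.1 (norm_eq_zero.1 (by rw [← hd, ← h2]))
      exfalso
      apply h0
      rw [hu, h3, sub_self]
    · have h3 : d * ‖u‖ ≤ d * (2 * La * d) := by nlinarith
      exact le_of_mul_le_mul_left h3 h2

/-- `β` is differentiable at `0` if the zero section is critical -/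
theorem diff_zero (hLa : 1 ≤ La) (hH : HamK La b H Hp) (hz : ∀ x, H (x, 0) = 0 ∧ Hp (x, 0) = 0) :
    DifferentiableAt ℝ (betaL b (Leg H)) 0 := by
  haveI := lam_prob (b := b)
  have hT := hH.tonL hLa
  have hL1 : ∀ x v, 0 ≤ Leg H (x, v) := by
    intro x v
    have h1 := hH.fenchel hLa x v 0
    rw [inner_zero_left, (hz x).1, add_zero] at h1
    exact h1
  have hL2 : ∀ x v, Leg H (x, v) ≤ La * ‖v‖ ^ 2 := by
    intro x v
    have h1 := hH.leg_le hLa x v 0
    rw [inner_zero_left, (hz x).1, (hz x).2, sub_zero, sub_zero, zero_add] at h1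
    exact h1
  have hb1 : ∀ v, 0 ≤ betaL b (Leg H) v := fun v =>
    le_betaL fun μ hμ _ => integral_nonneg fun z => hL1 z.1 z.2
  have hb2 : ∀ v, betaL b (Leg H) v ≤ La * ‖v‖ ^ 2 := by
    intro v
    have h1 : ∫ _ : E, (1 : ℝ) ∂(lam b) = 1 := by simp
    have hcl := tm_closed (b := b) continuous_const (Per.const _) (fun _ => zero_le_one) h1 (w := v) (fun _ _ => rfl)
    have h2 := betaL_le hT hcl
    rw [hom_tm continuous_const (fun _ => zero_le_one) h1 v,
      integral_tm continuous_const (fun _ => zero_le_one) v hT.cont] at h2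
    refine h2.trans ?_
    have hc : Continuous fun x : E => Leg H (x, v) := hT.cont.comp (by fun_prop)
    have h3 : ∫ x, (1 : ℝ) • Leg H (x, v) ∂(lam b) ≤ ∫ _ : E, La * ‖v‖ ^ 2 ∂(lam b) := by
      refine integral_mono ?_ (integrable_const _) fun x => ?_
      · simp only [one_smul]
        exact (hT.per v).integrable hc
      · simp only [one_smul]
        exact hL2 x v
    refine h3.trans (le_of_eq ?_)
    simp
  have hb0 : betaL b (Leg H) 0 = 0 := by
    have h1 := hb2 0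
    rw [norm_zero] at h1
    have h2 := hb1 0
    nlinarith
  refine HasFDerivAt.differentiableAt (f' := 0) ?_
  rw [hasFDerivAt_iff_isLittleO_nhds_zero]
  have o1 : (fun v : E => betaL b (Leg H) (0 + v) - betaL b (Leg H) 0 - (0 : E →L[ℝ] ℝ) v)
      =O[𝓝 0] fun v : E => ‖v‖ ^ 2 := by
    refine Asymptotics.IsBigO.of_bound La (Eventually.of_forall fun v => ?_)
    rw [zero_add, hb0, sub_zero, zero_apply, sub_zero, Real.norm_eq_abs, abs_of_nonneg (hb1 v), norm_pow, norm_norm]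
    exact hb2 v
  refine o1.trans_isLittleO ?_
  have o2 : (fun v : E => ‖v‖ ^ 2) =o[𝓝 0] fun v : E => v := by
    have := Asymptotics.isLittleO_norm_pow_id (E' := E) (n := 2) (by norm_num)
    exact this
  exact o2

end

end Pool.Agent.LRW
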