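import Pool.Agent.LRT.VStm

/-! # LRW/FD: Finsler metrics close to a Minkowski norm, definitions   (helper45) -/

set_option autoImplicit false

open MeasureTheory Module Set Filter Topology

namespace Pool.Agent.LRW

open Pool.Agent.LRT

noncomputable section

variable {n : ℕ} {E : Type*} [NormedAddCommGroup E] [InnerProductSpace ℝ E]

/-- the second derivative of `h` at `p` in the direction `v` -/
def D2v (h : E → ℝ) (p v : E) : ℝ := fderiv ℝ (fun q => fderiv ℝ h q v) p v

/-- half the square of a dual Minkowski norm: `C^s` off the origin, positively homogeneous of degree `2`, with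
positive definite second derivative off the origin -/
structure Mink (s : ℕ) (h : E → ℝ) : Prop where
  smooth : ∀ p, p ≠ 0 → ContDiffAt ℝ s h p
  hom : ∀ (t : ℝ) p, 0 ≤ t → h (t • p) = t ^ 2 * h p
  pos : ∀ p v, p ≠ 0 → v ≠ 0 → 0 < D2v h p v

/-- half the square of a dual Finsler metric on the torus `E/ℤb` whose difference with the constant one `h` has
derivatives of order at most `s` bounded by `ε` on `1/2 ≤ |p| ≤ 2` -/
structure Fins (b : Basis (Fin n) ℝ E) (s : ℕ) (ε : ℝ) (h : E → ℝ) (H : E × E → ℝ) : Prop where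
  per : ∀ p, Pool.H45.Mather.Per b (fun x => H (x, p))
  smooth : ∀ x p, p ≠ 0 → ContDiffAt ℝ s H (x, p)
  hom : ∀ (t : ℝ) x p, 0 ≤ t → H (x, t • p) = t ^ 2 * H (x, p)
  close : ∀ j ≤ s, ∀ x p, 1 / 2 ≤ ‖p‖ → ‖p‖ ≤ 2 → ‖iteratedFDeriv ℝ j (fun z => H z - h z.2) (x, p)‖ ≤ ε

end

end Pool.Agent.LRW
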