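import Pool.Agent.LRW.FH0

/-! # LRW/FH: 2-homogeneous Hamiltonians   (helper45) -/

set_option autoImplicit false

open MeasureTheory Module Set Filter Topology

namespace Pool.Agent.LRW

open Pool.H45.Mather Pool.Agent.LRT

noncomputable section

variable {n : ℕ} {E : Type*} [NormedAddCommGroup E] [InnerProductSpace ℝ E] [CompleteSpace E]

lemma grad_fib {H : E × E → ℝ} {x p : E} (hd : DifferentiableAt ℝ H (x, p)) :
    gradient (fun q => H (x, q)) p =
      (InnerProductSpace.toDual ℝ E).symm ((fderiv ℝ H (x, p)).comp (ContinuousLinearMap.inr ℝ E E)) := by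
  rw [gradient]
  congr 1
  have h2 : HasFDerivAt (fun q : E => (x, q)) (ContinuousLinearMap.inr ℝ E E) p := hasFDerivAt_prodMk_right x p
  exact (HasFDerivAt.comp (g := H) (f := fun q : E => (x, q)) p hd.hasFDerivAt h2).fderiv

/-- bounds by homogeneity -/
lemma fh_bound [ProperSpace E] {F : Type*} [NormedAddCommGroup F] {G : E × E → F} {k : ℕ}
    (hc : ∀ x p, p ≠ 0 → ContinuousAt G (x, p))
    (hom : ∀ (t : ℝ) x p, 0 < t → ‖G (x, t • p)‖ = t ^ k * ‖G (x, p)‖) (x₀ : E) :
    ∃ C, 0 ≤ C ∧ ∀ x p, ‖x - x₀‖ ≤ 1 → p ≠ 0 → ‖G (x, p)‖ ≤ C * ‖p‖ ^ k := by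
  have hK : IsCompact (Metric.closedBall x₀ 1 ×ˢ Metric.sphere (0 : E) 1) :=
    (isCompact_closedBall x₀ 1).prod (isCompact_sphere 0 1)
  obtain ⟨C, hC⟩ := hK.exists_bound_of_continuousOn (f := G) (fun z hz => by
    have h1 : ‖z.2‖ = 1 := by simpa using hz.2
    have h2 : z.2 ≠ 0 := by rw [← norm_ne_zero_iff, h1]; norm_num
    exact (hc z.1 z.2 h2).continuousWithinAt)
  refine ⟨max C 0, le_max_right _ _, fun x p hx hp => ?_⟩
  obtain ⟨t, u, ht, hu, rfl⟩ := unitizeE hp
  rw [hom t x u ht, norm_smul, hu, mul_one, Real.norm_eq_abs, abs_of_pos ht, mul_comm]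
  refine mul_le_mul_of_nonneg_right ((hC (x, u) ⟨?_, ?_⟩).trans (le_max_left _ _)) (by positivity)
  · rw [mem_closedBall_iff_norm]
    exact hx
  · simpa using hu

theorem hamK_hom [ProperSpace E] {La : ℝ} (hLa : 1 ≤ La) {b : Basis (Fin n) ℝ E} {H : E × E → ℝ}
    (hC : ∀ x p, p ≠ 0 → ContDiffAt ℝ 2 H (x, p))
    (hom : ∀ t x p, 0 ≤ t → H (x, t • p) = t ^ 2 * H (x, p))
    (per : ∀ p, Per b (fun x => H (x, p)))
    (hB : ∀ x p v, p ≠ 0 → ‖v‖ ^ 2 / (2 * La) ≤ fderiv ℝ (fderiv ℝ (fun q => H (x, q))) p v v ∧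
      fderiv ℝ (fderiv ℝ (fun q => H (x, q))) p v v ≤ 2 * La * ‖v‖ ^ 2) :
    HamK La b H (fun z => gradient (fun q => H (z.1, q)) z.2) ∧ Differentiable ℝ H := by
  have hom' : ∀ x t p, 0 ≤ t → (fun q => H (x, q)) (t • p) = t ^ 2 * (fun q => H (x, q)) p :=
    fun x t p ht => hom t x p ht
  have hH0 : ∀ x, H (x, 0) = 0 := fun x => hom_zero (g := fun q => H (x, q)) (fun t p ht => hom t x p ht)
  -- differentiability
  have hd : Differentiable ℝ H := by
    rintro ⟨x₀, p⟩
    rcases eq_or_ne p 0 with rfl | hp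
    · obtain ⟨C, hC0, hb⟩ := fh_bound (G := H) (k := 2) (fun x p hp => (hC x p hp).continuousAt) (fun t x p ht => by
        rw [hom t x p ht.le, norm_mul, Real.norm_eq_abs, abs_of_nonneg (by positivity)]) x₀
      have h1 : HasFDerivAt H (0 : E × E →L[ℝ] ℝ) (x₀, 0) := by
        rw [hasFDerivAt_iff_isLittleO_nhds_zero, Asymptotics.isLittleO_iff]
        intro ε hε
        have h2 : ∀ᶠ z : E × E in 𝓝 0, ‖z‖ < min 1 (ε / (C + 1)) := by
          have := Metric.ball_mem_nhds (0 : E × E) (lt_min one_pos (by positivity : 0 < ε / (C + 1)))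
          filter_upwards [this] with z hz
          rwa [mem_ball_zero_iff] at hz
        filter_upwards [h2] with z hz
        have h3 : ‖z‖ < 1 := hz.trans_le (min_le_left _ _)
        have h4 : ‖z‖ < ε / (C + 1) := hz.trans_le (min_le_right _ _)
        rw [hH0, sub_zero, _root_.zero_apply, sub_zero]
        have e : (x₀, (0 : E)) + z = (x₀ + z.1, z.2) := by
          ext <;> simp
        rw [e]
        rcases eq_or_ne z.2 0 with h5 | h5
        · rw [h5, hH0, norm_zero]
          positivity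
        · have h6 := hb (x₀ + z.1) z.2 (by rw [add_sub_cancel_left]; exact (norm_fst_le z).trans h3.le) h5
          have h7 : ‖z.2‖ ≤ ‖z‖ := norm_snd_le z
          rw [lt_div_iff₀ (by positivity)] at h4
          have h8 : C * ‖z.2‖ ^ 2 ≤ C * ‖z‖ ^ 2 := by gcongr
          refine h6.trans (h8.trans ?_)
          nlinarith [norm_nonneg z]
      exact h1.differentiableAt
    · exact (hC x₀ p hp).differentiableAt (by norm_num)
  -- continuity of the gradient
  have hgc : ∀ x p, p ≠ 0 → ContinuousAt (fun z : E × E => gradient (fun q => H (z.1, q)) z.2) (x, p) := by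
    intro x p hp
    have h1 : (fun z : E × E => gradient (fun q => H (z.1, q)) z.2) = fun z =>
        (InnerProductSpace.toDual ℝ E).symm ((fderiv ℝ H z).comp (ContinuousLinearMap.inr ℝ E E)) := by
      funext z
      exact grad_fib (hd _)
    rw [h1]
    have h2 : ContinuousAt (fderiv ℝ H) (x, p) := ((hC x p hp).fderiv_right (m := 1) (by norm_num)).continuousAt
    have h3 : ContinuousAt (fun z => (fderiv ℝ H z).comp (ContinuousLinearMap.inr ℝ E E)) (x, p) :=
      h2.clm_comp continuousAt_const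
    exact ContinuousAt.comp (g := (InnerProductSpace.toDual ℝ E).symm)
      (f := fun z => (fderiv ℝ H z).comp (ContinuousLinearMap.inr ℝ E E))
      (InnerProductSpace.toDual ℝ E).symm.continuous.continuousAt h3
  have hg0 : ∀ x, gradient (fun q => H (x, q)) 0 = 0 := fun x => hom_grad0 (hom' x)
  have hgcc : Continuous (fun z : E × E => gradient (fun q => H (z.1, q)) z.2) := by
    rw [continuous_iff_continuousAt]
    rintro ⟨x₀, p⟩
    rcases eq_or_ne p 0 with rfl | hp
    · obtain ⟨C, hC0, hb⟩ := fh_bound (G := fun z : E × E => gradient (fun q => H (z.1, q)) z.2) (k := 1) hgc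
        (fun t x p ht => by
          beta_reduce
          rw [hom_grad (hom' x) ht, norm_smul, Real.norm_eq_abs, abs_of_pos ht, pow_one]) x₀
      rw [Metric.continuousAt_iff]
      intro ε hε
      refine ⟨min 1 (ε / (C + 1)), lt_min one_pos (by positivity), fun z hz => ?_⟩
      beta_reduce
      rw [hg0, dist_zero_right]
      rw [dist_eq_norm] at hz
      have h1 : ‖z.1 - x₀‖ ≤ ‖z - (x₀, 0)‖ := norm_fst_le (z - (x₀, 0))
      have h2 : ‖z.2‖ ≤ ‖z - (x₀, 0)‖ := by
        have := norm_snd_le (z - (x₀, 0))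
        simpa using this
      have h3 : ‖z - (x₀, 0)‖ < 1 := hz.trans_le (min_le_left _ _)
      have h4 : ‖z - (x₀, 0)‖ < ε / (C + 1) := hz.trans_le (min_le_right _ _)
      rcases eq_or_ne z.2 0 with h5 | h5
      · rw [h5, hg0, norm_zero]
        exact hε
      · have h6 := hb z.1 z.2 (h1.trans h3.le) h5
        rw [lt_div_iff₀ (by positivity)] at h4
        rw [pow_one] at h6
        refine h6.trans_lt ?_
        nlinarith [norm_nonneg z.2]
    · exact hgc x₀ p hp
  -- Taylor
  have hT : ∀ x p q, H (x, p) + inner ℝ (gradient (fun q => H (x, q)) p) q + ‖q‖ ^ 2 / (4 * La) ≤ H (x, p + q) ∧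
      H (x, p + q) ≤ H (x, p) + inner ℝ (gradient (fun q => H (x, q)) p) q + La * ‖q‖ ^ 2 := by
    intro x p q
    rcases eq_or_ne q 0 with rfl | hq
    · simp
    set g : E → ℝ := fun q => H (x, q) with hg
    have hgd : Differentiable ℝ g := by
      have h1 : Differentiable ℝ (fun q : E => (x, q)) := by fun_prop
      exact hd.comp h1
    obtain ⟨t₀, ht₀⟩ : ∃ t₀ : ℝ, ∀ t, t ≠ t₀ → p + t • q ≠ 0 := by
      by_cases h1 : ∃ t₀ : ℝ, p + t₀ • q = 0
      · obtain ⟨t₀, ht₀⟩ := h1
        refine ⟨t₀, fun t ht h2 => ht ?_⟩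
        have h3 : (t - t₀) • q = 0 := by
          have : (t - t₀) • q = (p + t • q) - (p + t₀ • q) := by rw [sub_smul]; abel
          rw [this, h2, ht₀, sub_zero]
        rcases smul_eq_zero.1 h3 with h4 | h4
        · linarith
        · exact absurd h4 hq
      · push Not at h1
        exact ⟨0, fun t _ => h1 t⟩
    have hl : ∀ t : ℝ, HasDerivAt (fun t : ℝ => p + t • q) q t := by
      intro t
      have := ((hasDerivAt_id t).smul_const q).const_add p
      simpa using this
    have h1 : ∀ t, HasDerivAt (fun t : ℝ => g (p + t • q)) (inner ℝ (gradient g (p + t • q)) q) t := by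
      intro t
      have h2 := (hgd (p + t • q)).hasFDerivAt.comp_hasDerivAt t (hl t)
      have h3 : inner ℝ (gradient g (p + t • q)) q = fderiv ℝ g (p + t • q) q := by
        rw [gradient, InnerProductSpace.toDual_symm_apply]
      rw [h3]
      exact h2
    have hc : Continuous fun t : ℝ => inner ℝ (gradient g (p + t • q)) q := by
      have h2 : Continuous fun t : ℝ => (x, p + t • q) := by fun_prop
      exact (hgcc.comp h2).inner continuous_const
    have h2 : ∀ t, t ≠ t₀ → HasDerivAt (fun t : ℝ => inner ℝ (gradient g (p + t • q)) q)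
        (fderiv ℝ (fderiv ℝ g) (p + t • q) q q) t := by
      intro t ht
      have h3 : ContDiffAt ℝ 2 g (p + t • q) :=
        ContDiffAt.comp (g := H) (f := fun q : E => (x, q)) (p + t • q) (hC x _ (ht₀ t ht))
          (contDiffAt_const.prodMk contDiffAt_id)
      have h4 : HasFDerivAt (fderiv ℝ g) (fderiv ℝ (fderiv ℝ g) (p + t • q)) (p + t • q) :=
        ((h3.fderiv_right (m := 1) (by norm_num)).differentiableAt (by norm_num)).hasFDerivAt
      have h5 : HasDerivAt (fun t : ℝ => fderiv ℝ g (p + t • q)) (fderiv ℝ (fderiv ℝ g) (p + t • q) q) t :=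
        h4.comp_hasDerivAt t (hl t)
      have h6 : HasDerivAt (fun t : ℝ => fderiv ℝ g (p + t • q) q) (fderiv ℝ (fderiv ℝ g) (p + t • q) q q) t := by
        have := h5.clm_apply (hasDerivAt_const t q)
        simpa using this
      have h7 : (fun t : ℝ => inner ℝ (gradient g (p + t • q)) q) = fun t : ℝ => fderiv ℝ g (p + t • q) q := by
        funext t
        rw [gradient, InnerProductSpace.toDual_symm_apply]
      rw [h7]
      exact h6
    have h3 := taylor_low h1 hc h2 (fun t ht => (hB x _ q (ht₀ t ht)).1)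
    have h4 := taylor_up h1 hc h2 (fun t ht => (hB x _ q (ht₀ t ht)).2)
    simp only [zero_smul, add_zero, one_smul] at h3 h4
    constructor
    · calc H (x, p) + inner ℝ (gradient g p) q + ‖q‖ ^ 2 / (4 * La)
          = g p + inner ℝ (gradient g p) q + ‖q‖ ^ 2 / (2 * La) / 2 := by
            simp only [hg]
            ring
        _ ≤ _ := h3
    · calc H (x, p + q) ≤ g p + inner ℝ (gradient g p) q + 2 * La * ‖q‖ ^ 2 / 2 := h4
        _ = _ := by
            simp only [hg]
            ring
  exact ⟨⟨hd.continuous, hgcc, per, fun x p q => (hT x p q).1, fun x p q => (hT x p q).2⟩, hd⟩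

end

end Pool.Agent.LRW
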