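import Pool.Agent.LRW.KG

/-! # LRW/FI: invariance of the graphs, for Hamiltonians which are `C²` off the zero section   (helper45) -/

set_option autoImplicit false
set_option linter.unusedSectionVars false

open MeasureTheory Module Set Filter Topology

namespace Pool.Agent.LRW

open Pool.H45.Mather Pool.Agent.LRT

noncomputable section

variable {n : ℕ} {E : Type*} [NormedAddCommGroup E] [InnerProductSpace ℝ E] [CompleteSpace E]

/-- conservation of energy -/
lemma energy {H : E × E → ℝ} (hd : Differentiable ℝ H) {x p : ℝ → E} {t₁ t₂ : ℝ} (h : IsTraj H x p t₁ t₂)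
    {s t : ℝ} (hs : s ∈ Ioo t₁ t₂) (ht : t ∈ Ioo t₁ t₂) : H (x s, p s) = H (x t, p t) := by
  have h1 : ∀ t ∈ Ioo t₁ t₂, HasDerivAt (fun t => H (x t, p t)) 0 t := by
    intro t ht
    have a1 : HasFDerivAt H (fderiv ℝ H (x t, p t)) (x t, p t) := (hd _).hasFDerivAt
    have a2 := a1.comp_hasDerivAt t ((h.hx t ht).prodMk (h.hp t ht))
    have a3 : fderiv ℝ H (x t, p t) (gradient (fun q => H (x t, q)) (p t), -gradient (fun y => H (y, p t)) (x t)) = 0 := by
      have e1 : ∀ v, inner ℝ (gradient (fun q => H (x t, q)) (p t)) v = fderiv ℝ H (x t, p t) (0, v) := by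
        intro v
        have e0 : fderiv ℝ (fun q => H (x t, q)) (p t) = (fderiv ℝ H (x t, p t)).comp (ContinuousLinearMap.inr ℝ E E) :=
          (HasFDerivAt.comp (g := H) (f := fun q : E => (x t, q)) (p t) a1 (hasFDerivAt_prodMk_right (x t) (p t))).fderiv
        rw [gradient, InnerProductSpace.toDual_symm_apply, e0]
        simp
      have e2 : ∀ v, inner ℝ (gradient (fun y => H (y, p t)) (x t)) v = fderiv ℝ H (x t, p t) (v, 0) := by
        intro v
        have e0 : fderiv ℝ (fun y => H (y, p t)) (x t) = (fderiv ℝ H (x t, p t)).comp (ContinuousLinearMap.inl ℝ E E) :=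
          (HasFDerivAt.comp (g := H) (f := fun y : E => (y, p t)) (x t) a1 (hasFDerivAt_prodMk_left (x t) (p t))).fderiv
        rw [gradient, InnerProductSpace.toDual_symm_apply, e0]
        simp
      have e3 : ∀ u v : E, fderiv ℝ H (x t, p t) (u, v) = fderiv ℝ H (x t, p t) (u, 0) + fderiv ℝ H (x t, p t) (0, v) := by
        intro u v
        rw [← map_add]
        simp
      rw [e3, ← e2, ← e1, inner_neg_right, real_inner_comm]
      ring
    rw [a3] at a2
    exact a2
  exact isOpen_Ioo.is_const_of_deriv_eq_zero isPreconnected_Ioo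
    (f := fun t => H (x t, p t)) (fun t ht => (h1 t ht).differentiableAt.differentiableWithinAt)
    (fun t ht => (h1 t ht).deriv) hs ht

lemma fi_eta [ProperSpace E] {b : Basis (Fin n) ℝ E} {H : E × E → ℝ} (hH0 : ∀ x, H (x, 0) = 0) (hc : Continuous H)
    (hper : ∀ p, Per b (fun x => H (x, p))) {a : ℝ} (ha : 0 < a) : ∃ η, 0 < η ∧ ∀ x p, a ≤ H (x, p) → η ≤ ‖p‖ := by
  set S : Set (E × E) := (Metric.closedBall (0 : E) (∑ i, ‖b i‖) ×ˢ Metric.closedBall (0 : E) 1) ∩ {z | a ≤ H z} with hS
  have hSc : IsCompact S :=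
    ((isCompact_closedBall _ _).prod (isCompact_closedBall _ _)).inter_right (isClosed_le continuous_const hc)
  obtain ⟨a', ha', h1⟩ := hSc.exists_forall_le' (f := fun z => ‖z.2‖) (continuous_snd.norm.continuousOn) (a := 0)
    (fun z hz => by
      have h2 : a ≤ H z := hz.2
      refine norm_pos_iff.2 fun h3 => ?_
      have h4 : z = (z.1, 0) := by rw [← h3]
      rw [h4, hH0] at h2
      linarith)
  refine ⟨min a' 1, lt_min ha' one_pos, fun x p hp => ?_⟩
  by_cases h2 : ‖p‖ ≤ 1
  · have h3 : (ZSpan.fract b x, p) ∈ S := by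
      refine ⟨⟨?_, by simpa using h2⟩, ?_⟩
      · rw [mem_closedBall_zero_iff]
        exact ZSpan.norm_fract_le b x
      · have h4 : H (ZSpan.fract b x, p) = H (x, p) := (hper p).fract x
        change a ≤ H (ZSpan.fract b x, p)
        rw [h4]
        exact hp
    exact (min_le_left _ _).trans (h1 _ h3)
  · exact (min_le_right _ _).trans (not_le.1 h2).le

theorem inv_off_zero [FiniteDimensional ℝ E] [MeasurableSpace E] [BorelSpace E] {b : Basis (Fin n) ℝ E} {H : E × E → ℝ} {Hp : E × E → E}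
    (hH0 : ∀ x, H (x, 0) = 0) (hpos : ∀ x p, p ≠ 0 → 0 < H (x, p))
    (hC : ∀ x p, p ≠ 0 → ContDiffAt ℝ 2 H (x, p)) (hd : Differentiable ℝ H) (hper : ∀ p, Per b (fun x => H (x, p)))
    {w c : E} {P : E → E} (h : FSol b H Hp w c P) : Inv H P := by
  have : ProperSpace E := FiniteDimensional.proper ℝ E
  obtain ⟨a, ha⟩ := h.hj
  intro x p t₁ t₂ htr t₀ ht₀ h0
  have ha0 : 0 ≤ a := by
    rw [← ha (x t₀)]
    rcases eq_or_ne (P (x t₀)) 0 with h1 | h1
    · rw [h1, hH0]
    · exact (hpos _ _ h1).le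
  have hE : ∀ t ∈ Ioo t₁ t₂, H (x t, p t) = a := by
    intro t ht
    rw [energy hd htr ht ht₀, h0, ha]
  rcases eq_or_lt_of_le ha0 with ha0 | ha0
  · have h1 : ∀ y q, H (y, q) = a → q = 0 := by
      intro y q h2
      by_contra h3
      have := hpos y q h3
      linarith
    intro t ht
    rw [h1 _ _ (hE t ht), h1 _ _ (ha (x t))]
  obtain ⟨η, hη, hηp⟩ := fi_eta hH0 hd.continuous hper ha0
  set χ : ContDiffBump (0 : E) := ⟨η / 4, η / 2, by positivity, by linarith⟩ with hχ
  set H' : E × E → ℝ := fun z => (1 - χ z.2) * H z with hH'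
  have e1 : ∀ z : E × E, η / 2 ≤ ‖z.2‖ → H' z = H z := by
    intro z hz
    have h1 : χ z.2 = 0 := by
      apply χ.zero_of_le_dist
      rw [dist_zero_right]
      exact hz
    rw [hH']
    simp only [h1, sub_zero, one_mul]
  have e2 : ∀ z : E × E, ‖z.2‖ ≤ η / 4 → H' z = 0 := by
    intro z hz
    have h1 : χ z.2 = 1 := by
      apply χ.one_of_mem_closedBall
      rw [mem_closedBall_zero_iff]
      exact hz
    rw [hH']
    simp only [h1, sub_self, zero_mul]
  have hC' : ContDiff ℝ 2 H' := by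
    rw [contDiff_iff_contDiffAt]
    rintro ⟨y, q⟩
    rcases eq_or_ne q 0 with rfl | hq
    · have h1 : H' =ᶠ[𝓝 (y, 0)] fun _ => (0 : ℝ) := by
        have h2 : Tendsto (fun z : E × E => ‖z.2‖) (𝓝 (y, 0)) (𝓝 0) := by
          have : Continuous fun z : E × E => ‖z.2‖ := by fun_prop
          have h3 := this.tendsto (y, 0)
          simpa using h3
        filter_upwards [h2.eventually (gt_mem_nhds (by positivity : 0 < η / 4))] with z hz
        exact e2 z hz.le
      exact contDiffAt_const.congr_of_eventuallyEq h1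
    · exact (contDiffAt_const.sub (χ.contDiffAt.comp (y, q) contDiffAt_snd)).mul (hC y q hq)
  have ha' : ∀ y, H' (y, P y) = a := by
    intro y
    have h1 := hηp y (P y) (ha y).ge
    rw [e1 _ (by linarith : η / 2 ≤ ‖(y, P y).2‖), ha]
  have g1 : ∀ t ∈ Ioo t₁ t₂, gradient (fun q => H' (x t, q)) (p t) = gradient (fun q => H (x t, q)) (p t) := by
    intro t ht
    have h1 := hηp _ _ (hE t ht).ge
    have h2 : (fun q => H' (x t, q)) =ᶠ[𝓝 (p t)] fun q => H (x t, q) := by
      have h3 : Tendsto (fun q : E => ‖q‖) (𝓝 (p t)) (𝓝 ‖p t‖) := continuous_norm.tendsto _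
      filter_upwards [h3.eventually (lt_mem_nhds (by linarith : η / 2 < ‖p t‖))] with q hq
      exact e1 _ (le_of_lt hq)
    rw [gradient, gradient, h2.fderiv_eq]
  have g2 : ∀ t ∈ Ioo t₁ t₂, gradient (fun y => H' (y, p t)) (x t) = gradient (fun y => H (y, p t)) (x t) := by
    intro t ht
    have h1 := hηp _ _ (hE t ht).ge
    have h2 : (fun y => H' (y, p t)) = fun y => H (y, p t) := by
      funext y
      exact e1 _ (by linarith : η / 2 ≤ ‖(y, p t).2‖)
    rw [h2]
  have hS : FSol b H' Hp w c P := ⟨h.grad, ⟨a, ha'⟩, h.conj⟩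
  exact hS.inv hC' x p t₁ t₂ ⟨fun t ht => by rw [g1 t ht]; exact htr.hx t ht,
    fun t ht => by rw [g2 t ht]; exact htr.hp t ht⟩ t₀ ht₀ h0

end

end Pool.Agent.LRW
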