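import Pool.Agent.LRW.KZ

/-!
# LRW/KZ0: monotone maps with an exceptional point   (helper45)
-/

set_option autoImplicit false

open Set Filter Topology Metric

namespace Pool.Agent.LRW

noncomputable section

variable {E : Type*} [NormedAddCommGroup E] [InnerProductSpace ℝ E]

lemma kz_lim {a b c : ℝ} (h : ∀ t ∈ Ioo (0 : ℝ) 1, a ≤ b + t * c) : a ≤ b := by
  have h1 : Tendsto (fun t : ℝ => b + t * c) (𝓝[>] 0) (𝓝 b) := by
    have : Continuous fun t : ℝ => b + t * c := by fun_prop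
    have h2 := this.tendsto 0
    simp only [zero_mul, add_zero] at h2
    exact h2.mono_left nhdsWithin_le_nhds
  refine ge_of_tendsto h1 ?_
  filter_upwards [Ioo_mem_nhdsGT (zero_lt_one (α := ℝ))] with t ht
  exact h t ht

/-- estimates on rays -/
theorem loc_ray {F : E → E} {m K K₀ : ℝ} (h0 : F 0 = 0) (hb : ∀ w, ‖F w‖ ≤ K₀ * ‖w‖)
    (h : ∀ w₀, w₀ ≠ 0 → ∃ r, 0 < r ∧ ∀ y y', ‖y - w₀‖ < r → ‖y' - w₀‖ < r →
      ‖F y - F y'‖ ≤ K * ‖y - y'‖ ∧ m * ‖y - y'‖ ^ 2 ≤ inner ℝ (F y - F y') (y - y')) (w : E) :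
    ‖F w‖ ≤ K * ‖w‖ ∧ m * ‖w‖ ^ 2 ≤ inner ℝ (F w) w := by
  rcases eq_or_ne w 0 with rfl | hw
  · simp [h0]
  have key : ∀ t ∈ Ioo (0 : ℝ) 1, ‖F w - F (t • w)‖ ≤ K * ((1 - t) * ‖w‖) ∧
      m * ((1 - t) * ‖w‖ ^ 2) ≤ inner ℝ (F w - F (t • w)) w := by
    intro t ht
    have h1 := loc_glob (F := F) (m := m) (K := K) (w := t • w) (v := (1 - t) • w) (fun s hs => h _ (by
      have e : t • w + s • (1 - t) • w = (t + s * (1 - t)) • w := by
        rw [smul_smul, ← add_smul]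
      rw [e]
      refine smul_ne_zero ?_ hw
      have : 0 ≤ s * (1 - t) := mul_nonneg hs.1 (by linarith [ht.2])
      linarith [ht.1]))
    have e : t • w + (1 - t) • w = w := by rw [← add_smul]; simp
    rw [e, norm_smul, Real.norm_eq_abs, abs_of_pos (by linarith [ht.2]), inner_smul_right] at h1
    refine ⟨h1.1, ?_⟩
    have h2 : (1 - t) * (m * ((1 - t) * ‖w‖ ^ 2)) ≤ (1 - t) * inner ℝ (F w - F (t • w)) w := by
      calc _ = m * ((1 - t) * ‖w‖) ^ 2 := by ring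
        _ ≤ _ := h1.2
    exact le_of_mul_le_mul_left h2 (by linarith [ht.2])
  have hsm : ∀ t ∈ Ioo (0 : ℝ) 1, ‖F (t • w)‖ ≤ t * (K₀ * ‖w‖) := by
    intro t ht
    have := hb (t • w)
    rw [norm_smul, Real.norm_eq_abs, abs_of_pos ht.1] at this
    linarith
  constructor
  · refine kz_lim (c := K₀ * ‖w‖ - K * ‖w‖) fun t ht => ?_
    have h1 := (key t ht).1
    have h2 := hsm t ht
    have h3 : ‖F w‖ ≤ ‖F w - F (t • w)‖ + ‖F (t • w)‖ := by
      have e : F w = (F w - F (t • w)) + F (t • w) := by abel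
      conv_lhs => rw [e]
      exact norm_add_le _ _
    linarith
  · refine kz_lim (c := K₀ * ‖w‖ * ‖w‖ + m * ‖w‖ ^ 2) fun t ht => ?_
    have h1 := (key t ht).2
    have h2 := hsm t ht
    rw [inner_sub_left] at h1
    have h3 := (abs_le.1 (abs_real_inner_le_norm (F (t • w)) w)).1
    have h4 : ‖F (t • w)‖ * ‖w‖ ≤ t * (K₀ * ‖w‖) * ‖w‖ := mul_le_mul_of_nonneg_right h2 (norm_nonneg _)
    linarith

/-- local estimates off the origin are global -/
theorem loc_glob0 {F : E → E} {m K K₀ : ℝ} (h0 : F 0 = 0) (hb : ∀ w, ‖F w‖ ≤ K₀ * ‖w‖)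
    (h : ∀ w₀, w₀ ≠ 0 → ∃ r, 0 < r ∧ ∀ y y', ‖y - w₀‖ < r → ‖y' - w₀‖ < r →
      ‖F y - F y'‖ ≤ K * ‖y - y'‖ ∧ m * ‖y - y'‖ ^ 2 ≤ inner ℝ (F y - F y') (y - y')) (w w' : E) :
    ‖F w' - F w‖ ≤ K * ‖w' - w‖ ∧ m * ‖w' - w‖ ^ 2 ≤ inner ℝ (F w' - F w) (w' - w) := by
  by_cases hs : ∃ t ∈ Icc (0 : ℝ) 1, w + t • (w' - w) = 0
  · obtain ⟨t, ht, he⟩ := hs
    set v := w' - w with hv
    have e1 : w = -(t • v) := by rw [← eq_neg_iff_add_eq_zero] at he; exact he
    have e2 : w' = (1 - t) • v := by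
      have : w' = w + v := by rw [hv]; abel
      rw [this, e1, sub_smul, one_smul]; abel
    obtain ⟨a1, a2⟩ := loc_ray h0 hb h w
    obtain ⟨b1, b2⟩ := loc_ray h0 hb h w'
    have n1 : ‖w‖ = t * ‖v‖ := by rw [e1, norm_neg, norm_smul, Real.norm_eq_abs, abs_of_nonneg ht.1]
    have n2 : ‖w'‖ = (1 - t) * ‖v‖ := by
      rw [e2, norm_smul, Real.norm_eq_abs, abs_of_nonneg (by linarith [ht.2])]
    have i1 : m * (t * ‖v‖ ^ 2) ≤ -inner ℝ (F w) v := by
      rcases eq_or_lt_of_le ht.1 with h1 | h1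
      · rw [← h1] at e1
        rw [zero_smul, neg_zero] at e1
        rw [e1, h0, ← h1]
        simp
      · have h2 : t * (m * (t * ‖v‖ ^ 2)) ≤ t * -inner ℝ (F w) v := by
          have h3 : inner ℝ (F w) w = -(t * inner ℝ (F w) v) := by
            calc inner ℝ (F w) w = inner ℝ (F w) (-(t • v)) := by rw [← e1]
              _ = _ := by rw [inner_neg_right, inner_smul_right]
          rw [h3, n1] at a2
          calc _ = m * (t * ‖v‖) ^ 2 := by ring
            _ ≤ _ := a2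
            _ = _ := by ring
        exact le_of_mul_le_mul_left h2 h1
    have i2 : m * ((1 - t) * ‖v‖ ^ 2) ≤ inner ℝ (F w') v := by
      rcases eq_or_lt_of_le (show (0 : ℝ) ≤ 1 - t by linarith [ht.2]) with h1 | h1
      · have h4 : w' = 0 := by rw [e2, ← h1, zero_smul]
        rw [h4, h0, ← h1]
        simp
      · have h2 : (1 - t) * (m * ((1 - t) * ‖v‖ ^ 2)) ≤ (1 - t) * inner ℝ (F w') v := by
          have h3 : inner ℝ (F w') w' = (1 - t) * inner ℝ (F w') v := by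
            calc inner ℝ (F w') w' = inner ℝ (F w') ((1 - t) • v) := by rw [← e2]
              _ = _ := by rw [inner_smul_right]
          rw [h3, n2] at b2
          calc _ = m * ((1 - t) * ‖v‖) ^ 2 := by ring
            _ ≤ _ := b2
        exact le_of_mul_le_mul_left h2 h1
    constructor
    · refine (norm_sub_le _ _).trans ?_
      rw [n1] at a1
      rw [n2] at b1
      calc _ ≤ K * ((1 - t) * ‖v‖) + K * (t * ‖v‖) := add_le_add b1 a1
        _ = _ := by ring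
    · rw [inner_sub_left]
      linarith
  · push Not at hs
    have := loc_glob (F := F) (m := m) (K := K) (w := w) (v := w' - w) (fun t ht => h _ (hs t ht))
    rwa [add_sub_cancel] at this

end

end Pool.Agent.LRW
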