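import Pool.Agent.LRW.KA
import Pool.Agent.LRW.KZ0

/-!
# LRW/KG0: the foliation from local families at the frequencies `w ≠ 0`   (helper45)
-/

set_option autoImplicit false
set_option linter.style.haveILetI false

open MeasureTheory Module Set Filter Topology

namespace Pool.Agent.LRW

open Pool.H45.Mather Pool.Agent.LRT

noncomputable section

set_option linter.unusedSectionVars false

variable {n : ℕ} {E : Type*} [NormedAddCommGroup E] [InnerProductSpace ℝ E] [FiniteDimensional ℝ E]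
  [MeasurableSpace E] [BorelSpace E] {b : Basis (Fin n) ℝ E}

variable {H : E × E → ℝ} {Hp : E × E → E} {La : ℝ}

/-- momenta are bounded by the frequency if the zero section is a critical set -/
theorem FSol.small (hLa : 1 ≤ La) (hH : HamK La b H Hp) (hz : ∀ x, H (x, 0) = 0 ∧ Hp (x, 0) = 0) {w c : E} {P : E → E}
    (h : FSol b H Hp w c P) : (∀ x, ‖P x‖ ≤ 4 * La * ‖w‖) ∧ ‖c‖ ≤ 4 * La * ‖w‖ := by
  have hL0 : 0 < La := by linarith
  obtain ⟨φ, a1, a2, a3⟩ := h.grad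
  obtain ⟨a, ha⟩ := h.hj
  obtain ⟨U, hU⟩ := h.bdd
  obtain ⟨L, hL, hc⟩ := h.conj
  have hP : ∀ x, ‖P x‖ ^ 2 ≤ 4 * La * a := by
    intro x
    have h1 := hH.low x 0 (P x)
    rw [(hz x).1, (hz x).2, inner_zero_left, zero_add, zero_add, zero_add, ha, div_le_iff₀ (by positivity)] at h1
    linarith
  have hle : a ≤ inner ℝ c w := by
    refine le_of_forall_pos_le_add fun ε hε => ?_
    have hU0 : 0 ≤ U := (norm_nonneg _).trans (hU 0)
    obtain ⟨X, dX, pX, sX, lX, aX⟩ := hc (ε / (U + 1)) (by positivity)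
    have h1 := ku_ineq (c₁ := 0) (c₂ := c) (w := w) (φ₁ := fun _ => 0) (P₁ := fun _ => 0) (a₁ := 0)
      (P₂ := P) (U := U) (δ := ε / (U + 1)) (φ₂ := φ) (a₂ := a) (X := X) (La := La) hH contDiff_const (Per.const 0)
      (a1.of_le (by norm_num)) a2 (fun x v => by simp) a3
      (fun x => (hz x).1) ha (continuous_const.sub h.contP) ((Per.const (b := b) (0 : E)).comp₂ h.perP (· - ·))
      (by positivity) (fun x => by rw [zero_sub, norm_neg]; exact hU x) dX pX aX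
    have h2 : 0 ≤ (∫ t, ‖(0 : E) - P (X t)‖ ^ 2 ∂(lam b)) / (4 * La) :=
      div_nonneg (integral_nonneg fun t => by positivity) (by positivity)
    rw [zero_sub, inner_neg_left] at h1
    have h3 : ε / (U + 1) * U ≤ ε := by
      rw [div_mul_eq_mul_div, div_le_iff₀ (by linarith)]
      nlinarith
    linarith
  obtain ⟨x₀, hx₀⟩ := h.exists_eq
  have hc2 : ‖c‖ ^ 2 ≤ 4 * La * a := by
    rw [← hx₀]
    exact hP x₀
  have h3 : inner ℝ c w ≤ ‖c‖ * ‖w‖ := real_inner_le_norm _ _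
  have h4 : ‖c‖ ^ 2 ≤ 4 * La * (‖c‖ * ‖w‖) :=
    hc2.trans (mul_le_mul_of_nonneg_left (hle.trans h3) (by positivity))
  have hcn : ‖c‖ ≤ 4 * La * ‖w‖ := by
    rcases eq_or_lt_of_le (norm_nonneg c) with h5 | h5
    · rw [← h5]; positivity
    · nlinarith
  refine ⟨fun x => ?_, hcn⟩
  have h5 : a ≤ 4 * La * ‖w‖ * ‖w‖ := (hle.trans h3).trans (mul_le_mul_of_nonneg_right hcn (norm_nonneg _))
  have h6 := hP x
  have h7 : ‖P x‖ ^ 2 ≤ (4 * La * ‖w‖) ^ 2 := by
    calc _ ≤ 4 * La * (4 * La * ‖w‖ * ‖w‖) := h6.trans (mul_le_mul_of_nonneg_left h5 (by positivity))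
      _ = _ := by ring
  exact le_of_sq_le_sq h7 (by positivity)

theorem c0int_of_loc0 [CompleteSpace E] (hLa : 1 ≤ La) (hH : HamK La b H Hp) {m K : ℝ} (hm : 0 < m) (hmK : m ≤ K)
    (hi : ∀ w c P, FSol b H Hp w c P → Inv H P) (hz : ∀ x, H (x, 0) = 0 ∧ Hp (x, 0) = 0)
    (hF : ∀ w₀, w₀ ≠ 0 → ∃ r c P, FFam b H Hp w₀ m K r c P) : C0Int b H := by
  classical
  have h0 : FSol b H Hp 0 0 (fun _ => 0) := by
    refine ⟨⟨fun _ => 0, contDiff_const, Per.const 0, fun x v => by simp⟩, ⟨0, fun x => (hz x).1⟩, 1, one_pos,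
      fun δ hδ => ⟨id, contDiff_id, ?_, Function.surjective_id, fun t t' => by simp, fun t => ?_⟩⟩
    · intro i x
      simp
    · simp only [id, (hz t).2, map_zero, sub_zero, norm_zero]
      exact hδ.le
  choose! r c' P' hF using hF
  set c : E → E := fun w => if w = 0 then 0 else c' w w with hc
  set P : E → E → E := fun w => if w = 0 then (fun _ => 0) else P' w w with hP
  have hself : ∀ w, w ≠ 0 → ‖w - w‖ < r w := fun w hw => by
    rw [sub_self, norm_zero]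
    exact (hF w hw).r0
  have hsol : ∀ w, FSol b H Hp w (c w) (P w) := by
    intro w
    by_cases hw : w = 0
    · simp only [hc, hP, hw, if_true]
      exact h0
    · simp only [hc, hP, hw, if_false]
      exact (hF w hw).sol w (hself w hw)
  have hloc : ∀ w₀ w, w₀ ≠ 0 → ‖w - w₀‖ < r w₀ → P w = P' w₀ w ∧ c w = c' w₀ w := fun w₀ w hw₀ hw =>
    (hsol w).uniq hLa hH ((hF w₀ hw₀).sol w hw)
  have hP0 : P 0 = fun _ => 0 := by simp [hP]
  have hc0 : c 0 = 0 := by simp [hc]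
  have hPg : ∀ x w w', ‖P w' x - P w x‖ ≤ K * ‖w' - w‖ ∧
      m * ‖w' - w‖ ^ 2 ≤ inner ℝ (P w' x - P w x) (w' - w) := by
    intro x w w'
    refine loc_glob0 (F := fun w => P w x) (m := m) (K := K) (K₀ := 4 * La) (by simp only [hP0])
      (fun w => ((hsol w).small hLa hH hz).1 x) (fun w₀ hw₀ => ?_) w w'
    refine ⟨r w₀, (hF _ hw₀).r0, fun y y' hy hy' => ?_⟩
    beta_reduce
    rw [(hloc _ y hw₀ hy).1, (hloc _ y' hw₀ hy').1]
    exact ⟨(hF _ hw₀).lipw y y' hy hy' x, (hF _ hw₀).mon y y' hy hy' x⟩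
  have hcg : ∀ w w', ‖c w' - c w‖ ≤ K * ‖w' - w‖ ∧
      m * ‖w' - w‖ ^ 2 ≤ inner ℝ (c w' - c w) (w' - w) := by
    intro w w'
    refine loc_glob0 (F := c) (m := m) (K := K) (K₀ := 4 * La) hc0
      (fun w => ((hsol w).small hLa hH hz).2) (fun w₀ hw₀ => ?_) w w'
    refine ⟨r w₀, (hF _ hw₀).r0, fun y y' hy hy' => ?_⟩
    rw [(hloc _ y hw₀ hy).2, (hloc _ y' hw₀ hy').2]
    exact ⟨(hF _ hw₀).lipc y y' hy hy', (hF _ hw₀).monc y y' hy hy'⟩
  refine c0int_of_fam hm hmK hsol (fun w => hi w _ _ (hsol w)) (fun w => ?_) (fun w w' x => (hPg x w' w).1)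
    (fun w w' x => (hPg x w' w).2) (fun w w' => (hcg w' w).1) (fun w w' => (hcg w' w).2)
  by_cases hw : w = 0
  · refine ⟨0, fun x x' => ?_⟩
    rw [hw, hP0]
    simp
  · obtain ⟨K', hK'⟩ := (hF w hw).lipx
    refine ⟨K', fun x x' => ?_⟩
    rw [(hloc w w hw (hself w hw)).1]
    exact hK' w (hself w hw) x x'

end

end Pool.Agent.LRW
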