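import Pool.Agent.LRW.KN
import Pool.Agent.LRW.KG0
import Pool.Agent.LRW.FA
import Pool.Agent.LRW.FH
import Pool.Agent.LRW.FI
import Pool.Agent.LRW.FD

/-! # LRW/FF: rigidity for Finsler metrics close to a Minkowski norm   (helper45) -/

set_option autoImplicit false

open MeasureTheory Module Set Filter Topology

namespace Pool.Agent.LRW

open Pool.H45.Mather Pool.Agent.LRT

noncomputable section

set_option linter.unusedSectionVars false

section fib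

variable {E : Type*} [NormedAddCommGroup E] [InnerProductSpace ℝ E]

lemma fib2 {G : E × E → ℝ} {x p : E} (hG : ContDiffAt ℝ 2 G (x, p)) (v w : E) :
    fderiv ℝ (fderiv ℝ (fun q => G (x, q))) p v w = fderiv ℝ (fderiv ℝ G) (x, p) (0, v) (0, w) := by
  have h1 : ∀ᶠ q in 𝓝 p, ContDiffAt ℝ 2 G (x, q) := by
    have h2 : ∀ᶠ z in 𝓝 (x, p), ContDiffAt ℝ 2 G z := hG.eventually (by norm_num)
    have h3 : Tendsto (fun q : E => (x, q)) (𝓝 p) (𝓝 (x, p)) := by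
      have : Continuous fun q : E => (x, q) := by fun_prop
      exact this.tendsto p
    exact h3.eventually h2
  have hin : ∀ q : E, HasFDerivAt (fun q : E => (x, q)) (ContinuousLinearMap.inr ℝ E E) q := fun q =>
    hasFDerivAt_prodMk_right x q
  have h2 : fderiv ℝ (fun q => G (x, q)) =ᶠ[𝓝 p]
      fun q => (fderiv ℝ G (x, q)).comp (ContinuousLinearMap.inr ℝ E E) := by
    filter_upwards [h1] with q hq
    exact (HasFDerivAt.comp (f := fun q : E => (x, q)) q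
      (hq.differentiableAt (by norm_num)).hasFDerivAt (hin q)).fderiv
  rw [h2.fderiv_eq]
  have h3 : HasFDerivAt (fderiv ℝ G) (fderiv ℝ (fderiv ℝ G) (x, p)) (x, p) :=
    ((hG.fderiv_right (m := 1) (by norm_num)).differentiableAt (by norm_num)).hasFDerivAt
  have h4 : HasFDerivAt (fun q => fderiv ℝ G (x, q))
      ((fderiv ℝ (fderiv ℝ G) (x, p)).comp (ContinuousLinearMap.inr ℝ E E)) p :=
    HasFDerivAt.comp (g := fderiv ℝ G) (f := fun q : E => (x, q)) p h3 (hin p)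
  have h5 := h4.clm_comp (hasFDerivAt_const (ContinuousLinearMap.inr ℝ E E) p)
  rw [h5.fderiv]
  simp

lemma fderiv2_add {f g : E → ℝ} {p : E} (hf : ContDiffAt ℝ 2 f p) (hg : ContDiffAt ℝ 2 g p) :
    fderiv ℝ (fderiv ℝ (fun q => f q + g q)) p = fderiv ℝ (fderiv ℝ f) p + fderiv ℝ (fderiv ℝ g) p := by
  have h1 : fderiv ℝ (fun q => f q + g q) =ᶠ[𝓝 p] fun q => fderiv ℝ f q + fderiv ℝ g q := by
    filter_upwards [hf.eventually (by norm_num), hg.eventually (by norm_num)] with q h1 h2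
    exact fderiv_fun_add (h1.differentiableAt (by norm_num)) (h2.differentiableAt (by norm_num))
  rw [h1.fderiv_eq]
  exact fderiv_fun_add ((hf.fderiv_right (m := 1) (by norm_num)).differentiableAt (by norm_num))
    ((hg.fderiv_right (m := 1) (by norm_num)).differentiableAt (by norm_num))

end fib

variable {n : ℕ}

lemma Mink.pos' {s : ℕ} (hs : 2 ≤ s) {h : RE n → ℝ} (hh : Mink s h) {p v : RE n} (hp : p ≠ 0) (hv : v ≠ 0) :
    0 < fderiv ℝ (fderiv ℝ h) p v v := by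
  have h1 : ContDiffAt ℝ 2 h p := (hh.smooth p hp).of_le (by exact_mod_cast hs)
  have h2 : HasFDerivAt (fderiv ℝ h) (fderiv ℝ (fderiv ℝ h) p) p :=
    ((h1.fderiv_right (m := 1) (by norm_num)).differentiableAt (by norm_num)).hasFDerivAt
  have h3 := h2.clm_apply (hasFDerivAt_const v p)
  have h4 := hh.pos p v hp hv
  rw [D2v, h3.fderiv] at h4
  simpa using h4

lemma Mink.d2cont {s : ℕ} (hs : 3 ≤ s) {h : RE n → ℝ} (hh : Mink s h) {p : RE n} (hp : p ≠ 0) :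
    ContinuousAt (fderiv ℝ (fderiv ℝ h)) p := by
  have h1 : ContDiffAt ℝ 3 h p := (hh.smooth p hp).of_le (by exact_mod_cast hs)
  have h2 : ContDiffAt ℝ 2 (fderiv ℝ h) p := h1.fderiv_right (by norm_num)
  have h3 : ContDiffAt ℝ 1 (fderiv ℝ (fderiv ℝ h)) p := h2.fderiv_right (by norm_num)
  exact h3.continuousAt

lemma Mink.hom' {s : ℕ} {h : RE n → ℝ} (hh : Mink s h) : ∀ (t : ℝ) p, 0 ≤ t → h (t • p) = t ^ 2 * h p := hh.hom

lemma unitize {p : RE n} (hp : p ≠ 0) : ∃ (t : ℝ) (u : RE n), 0 < t ∧ ‖u‖ = 1 ∧ p = t • u := by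
  refine ⟨‖p‖, ‖p‖⁻¹ • p, norm_pos_iff.2 hp, ?_, ?_⟩
  · rw [norm_smul, norm_inv, norm_norm, inv_mul_cancel₀ (norm_ne_zero_iff.2 hp)]
  · rw [smul_smul, mul_inv_cancel₀ (norm_ne_zero_iff.2 hp), one_smul]

lemma Mink.bounds {s : ℕ} (hs : 3 ≤ s) {h : RE n → ℝ} (hh : Mink s h) :
    ∃ La, 1 ≤ La ∧ ∀ p v, p ≠ 0 → ‖v‖ ^ 2 / (2 * La) ≤ fderiv ℝ (fderiv ℝ h) p v v ∧
      fderiv ℝ (fderiv ℝ h) p v v ≤ 2 * La * ‖v‖ ^ 2 := by
  set S : Set (RE n × RE n) := Metric.sphere 0 1 ×ˢ Metric.sphere 0 1 with hS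
  have hSc : IsCompact S := (isCompact_sphere 0 1).prod (isCompact_sphere 0 1)
  have hne : ∀ z ∈ S, z.1 ≠ 0 ∧ z.2 ≠ 0 := by
    intro z hz
    have h1 : ‖z.1‖ = 1 := by simpa using hz.1
    have h2 : ‖z.2‖ = 1 := by simpa using hz.2
    exact ⟨by rw [← norm_ne_zero_iff, h1]; norm_num, by rw [← norm_ne_zero_iff, h2]; norm_num⟩
  set F : RE n × RE n → ℝ := fun z => fderiv ℝ (fderiv ℝ h) z.1 z.2 z.2 with hF
  have hFc : ContinuousOn F S := by
    intro z hz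
    have h1 : ContinuousAt (fun z : RE n × RE n => fderiv ℝ (fderiv ℝ h) z.1) z :=
      ContinuousAt.comp (f := fun z : RE n × RE n => z.1) (hh.d2cont hs (hne z hz).1) continuousAt_fst
    exact ((h1.clm_apply continuousAt_snd).clm_apply continuousAt_snd).continuousWithinAt
  obtain ⟨a, ha, hlow⟩ := hSc.exists_forall_le' hFc (a := 0) (fun z hz => hh.pos' (by omega) (hne z hz).1 (hne z hz).2)
  obtain ⟨C, hC⟩ := hSc.exists_bound_of_continuousOn hFc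
  refine ⟨max 1 (max (1 / (2 * a)) (C / 2)), le_max_left _ _, fun p v hp => ?_⟩
  set L := max 1 (max (1 / (2 * a)) (C / 2)) with hL
  have hL1 : 1 ≤ L := le_max_left _ _
  have hL2 : 1 / (2 * a) ≤ L := (le_max_left _ _).trans (le_max_right _ _)
  have hL3 : C / 2 ≤ L := (le_max_right _ _).trans (le_max_right _ _)
  rcases eq_or_ne v 0 with rfl | hv
  · simp
  obtain ⟨t, u, ht, hu, rfl⟩ := unitize hp
  obtain ⟨τ, y, hτ, hy, rfl⟩ := unitize hv
  rw [hom_fderiv2 hh.hom' ht]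
  have hz : (u, y) ∈ S := ⟨by simpa using hu, by simpa using hy⟩
  have h1 : a ≤ fderiv ℝ (fderiv ℝ h) u y y := hlow _ hz
  have h2 : fderiv ℝ (fderiv ℝ h) u y y ≤ C := (le_abs_self _).trans (hC _ hz)
  have h3 : fderiv ℝ (fderiv ℝ h) u (τ • y) (τ • y) = τ ^ 2 * fderiv ℝ (fderiv ℝ h) u y y := by
    simp only [map_smul, _root_.smul_apply, smul_eq_mul]
    ring
  have h4 : ‖τ • y‖ = τ := by rw [norm_smul, hy, Real.norm_eq_abs, abs_of_pos hτ, mul_one]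
  rw [h3, h4]
  constructor
  · rw [div_le_iff₀ (by positivity)]
    have h5 : 1 ≤ a * (2 * L) := by
      rw [div_le_iff₀ (by positivity)] at hL2
      linarith
    calc τ ^ 2 = τ ^ 2 * 1 := by ring
      _ ≤ τ ^ 2 * (a * (2 * L)) := mul_le_mul_of_nonneg_left h5 (by positivity)
      _ ≤ τ ^ 2 * (fderiv ℝ (fderiv ℝ h) u y y * (2 * L)) :=
        mul_le_mul_of_nonneg_left (mul_le_mul_of_nonneg_right h1 (by positivity)) (by positivity)
      _ = _ := by ring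
  · calc τ ^ 2 * fderiv ℝ (fderiv ℝ h) u y y ≤ τ ^ 2 * (2 * L) :=
        mul_le_mul_of_nonneg_left (by linarith) (by positivity)
      _ = _ := by ring

lemma Fins.gsmooth {s : ℕ} {ε : ℝ} {h : RE n → ℝ} {H : RE n × RE n → ℝ} (hh : Mink s h) (hH : Fins (bs n) s ε h H)
    {x p : RE n} (hp : p ≠ 0) : ContDiffAt ℝ s (fun z : RE n × RE n => H z - h z.2) (x, p) :=
  (hH.smooth x p hp).sub ((hh.smooth p hp).comp (x, p) contDiffAt_snd)

lemma Fins.bounds {s : ℕ} (hs : 3 ≤ s) {ε : ℝ} {h : RE n → ℝ} {H : RE n × RE n → ℝ} (hh : Mink s h)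
    (hH : Fins (bs n) s ε h H) {La : ℝ} (hLa : 1 ≤ La) (hε : ε ≤ 1 / (4 * La))
    (hB : ∀ p v, p ≠ 0 → ‖v‖ ^ 2 / (2 * La) ≤ fderiv ℝ (fderiv ℝ h) p v v ∧
      fderiv ℝ (fderiv ℝ h) p v v ≤ 2 * La * ‖v‖ ^ 2) (x p v : RE n) (hp : p ≠ 0) :
    ‖v‖ ^ 2 / (2 * (2 * La)) ≤ fderiv ℝ (fderiv ℝ (fun q => H (x, q))) p v v ∧
      fderiv ℝ (fderiv ℝ (fun q => H (x, q))) p v v ≤ 2 * (2 * La) * ‖v‖ ^ 2 := by
  obtain ⟨t, u, ht, hu, rfl⟩ := unitize hp
  have hu0 : u ≠ 0 := by rw [← norm_ne_zero_iff, hu]; norm_num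
  rw [hom_fderiv2 (g := fun q => H (x, q)) (fun t p ht => hH.hom t x p ht) ht]
  have hs2 : ((2 : ℕ∞) : WithTop ℕ∞) ≤ (s : WithTop ℕ∞) := by exact_mod_cast (by omega : 2 ≤ s)
  have hG2 : ContDiffAt ℝ 2 (fun z : RE n × RE n => H z - h z.2) (x, u) := (hH.gsmooth hh hu0).of_le hs2
  have hh2 : ContDiffAt ℝ 2 h u := (hh.smooth u hu0).of_le hs2
  have h1 : (fun q => H (x, q)) = fun q => h q + (fun z : RE n × RE n => H z - h z.2) (x, q) := by
    funext q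
    simp
  have hG3 : ContDiffAt ℝ 2 (fun q => (fun z : RE n × RE n => H z - h z.2) (x, q)) u :=
    ContDiffAt.comp (f := fun q : RE n => (x, q)) u hG2 (contDiffAt_const.prodMk contDiffAt_id)
  rw [h1, fderiv2_add hh2 hG3, _root_.add_apply, _root_.add_apply, fib2 hG2]
  have h3 := hH.close 2 (by omega) x u (by rw [hu]; norm_num) (by rw [hu]; norm_num)
  have h4 : ‖fderiv ℝ (fderiv ℝ (fun z : RE n × RE n => H z - h z.2)) (x, u) (0, v) (0, v)‖ ≤ ε * ‖v‖ ^ 2 := by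
    have h5 := ContinuousMultilinearMap.le_opNorm (iteratedFDeriv ℝ 2 (fun z : RE n × RE n => H z - h z.2) (x, u))
      ![(0, v), (0, v)]
    rw [iteratedFDeriv_two_apply, Fin.prod_univ_two] at h5
    simp only [Matrix.cons_val_zero, Matrix.cons_val_one] at h5
    have h6 : ‖((0 : RE n), v)‖ = ‖v‖ := by rw [Prod.norm_def]; simp
    rw [h6] at h5
    refine h5.trans ?_
    rw [sq]
    exact mul_le_mul_of_nonneg_right h3 (by positivity)
  have h5 := abs_le.1 h4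
  have h6 := hB u v hu0
  have h7 : ε * ‖v‖ ^ 2 ≤ ‖v‖ ^ 2 / (4 * La) := by
    calc ε * ‖v‖ ^ 2 ≤ 1 / (4 * La) * ‖v‖ ^ 2 := mul_le_mul_of_nonneg_right hε (by positivity)
      _ = _ := by ring
  have h8 : ‖v‖ ^ 2 / (2 * La) = ‖v‖ ^ 2 / (2 * (2 * La)) + ‖v‖ ^ 2 / (4 * La) := by
    have : La ≠ 0 := by linarith
    field_simp
    ring
  have h9 : ‖v‖ ^ 2 / (4 * La) ≤ 2 * La * ‖v‖ ^ 2 := by
    rw [div_le_iff₀ (by positivity)]
    have h10 : 1 ≤ 2 * La * (4 * La) := by nlinarith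
    calc ‖v‖ ^ 2 = ‖v‖ ^ 2 * 1 := by ring
      _ ≤ ‖v‖ ^ 2 * (2 * La * (4 * La)) := mul_le_mul_of_nonneg_left h10 (by positivity)
      _ = _ := by ring
  constructor
  · linarith [h5.1, h6.1]
  · linarith [h5.2, h6.2]

/-- the statement of `local_fam` -/
def LFst (n s : ℕ) : Prop := ∀ h : RE n → ℝ, ContDiff ℝ s h → ∀ (pst : RE n) {La La' : ℝ},
    1 ≤ La → 1 ≤ La' →
    (∀ v, ‖v‖ ^ 2 / (2 * La) ≤ fderiv ℝ (fderiv ℝ h) pst v v ∧ fderiv ℝ (fderiv ℝ h) pst v v ≤ 2 * La * ‖v‖ ^ 2) →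
    ∀ d0 > 0, ∃ ef ρ r m K, 0 < ef ∧ 0 < ρ ∧ ρ ≤ 1 ∧ 0 < r ∧ 0 < m ∧ ∀ f : RE n × RE n → ℝ, ContDiff ℝ s f →
    (∀ p, Per (bs n) (fun x => f (x, p))) →
    (∀ j ≤ s, ∀ x p, ‖p - pst‖ ≤ d0 → ‖iteratedFDeriv ℝ j f (x, p)‖ ≤ ef) →
    ∀ (H' : RE n × RE n → ℝ) (Hp' : RE n × RE n → RE n), HamK La' (bs n) H' Hp' →
    (∀ x p, ‖p - pst‖ ≤ d0 → H' (x, p) = h p + f (x, p)) →
    (∀ w, ‖w - gradient h pst‖ < ρ → DifferentiableAt ℝ (betaL (bs n) (Leg H')) w) →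
    ∃ c P, FFam (bs n) H' Hp' (gradient h pst) m K r c P ∧
      ∀ w, ‖w - gradient h pst‖ < r → ∀ x, ‖P w x - pst‖ ≤ d0

/-- the gradient with respect to `p` -/
def pgr (H : RE n × RE n → ℝ) : RE n × RE n → RE n := fun z => gradient (fun q => H (z.1, q)) z.2

/-- the local step: near a unit covector -/
lemma fins_loc {s : ℕ} (HL : LFst n s) {h : RE n → ℝ} (hh : Mink s h) {La : ℝ} (hLa : 1 ≤ La)
    (hB : ∀ p v, p ≠ 0 → ‖v‖ ^ 2 / (2 * La) ≤ fderiv ℝ (fderiv ℝ h) p v v ∧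
      fderiv ℝ (fderiv ℝ h) p v v ≤ 2 * La * ‖v‖ ^ 2) {p₀ : RE n} (hp₀ : ‖p₀‖ = 1) :
    ∃ ef m K r, 0 < ef ∧ 0 < m ∧ 0 < r ∧ ∀ H, Fins (bs n) s ef h H → HamK (2 * La) (bs n) H (pgr H) →
      (∀ v, DifferentiableAt ℝ (betaL (bs n) (Leg H)) v) →
      ∃ c P, FFam (bs n) H (pgr H) (gradient h p₀) m K r c P := by
  have hp₀0 : p₀ ≠ 0 := by rw [← norm_ne_zero_iff, hp₀]; norm_num
  set χ : ContDiffBump p₀ := ⟨3 / 8, 1 / 2, by norm_num, by norm_num⟩ with hχ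
  have hχ1 : ∀ p, ‖p - p₀‖ ≤ 3 / 8 → χ p = 1 := by
    intro p hp
    apply χ.one_of_mem_closedBall
    rw [mem_closedBall_iff_norm]
    exact hp
  have hχ0 : ∀ p : RE n, ‖p‖ ≤ 1 / 2 → χ p = 0 := by
    intro p hp
    apply χ.zero_of_le_dist
    have h1 : ‖p₀‖ ≤ ‖p‖ + dist p p₀ := by
      rw [dist_eq_norm]
      calc ‖p₀‖ = ‖p - (p - p₀)‖ := by congr 1; abel
        _ ≤ ‖p‖ + ‖p - p₀‖ := norm_sub_le _ _
    have h2 : χ.rOut = 1 / 2 := rfl
    rw [h2]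
    linarith
  have hsmall : ∀ᶠ p : RE n in 𝓝 0, ‖p‖ ≤ 1 / 2 := by
    filter_upwards [Metric.ball_mem_nhds (0 : RE n) (by norm_num : (0 : ℝ) < 1 / 2)] with p hp
    rw [mem_ball_zero_iff] at hp
    exact hp.le
  set hh' : RE n → ℝ := fun p => χ p * h p with hhh
  have hhC : ContDiff ℝ s hh' := by
    rw [contDiff_iff_contDiffAt]
    intro p
    rcases eq_or_ne p 0 with rfl | hp
    · have h1 : hh' =ᶠ[𝓝 0] fun _ => (0 : ℝ) := by
        filter_upwards [hsmall] with p hp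
        rw [hhh]
        simp only [hχ0 p hp, zero_mul]
      exact contDiffAt_const.congr_of_eventuallyEq h1
    · exact χ.contDiffAt.mul (hh.smooth p hp)
  have hnear : ∀ p : RE n, ‖p - p₀‖ ≤ 1 / 4 → ∀ᶠ q in 𝓝 p, ‖q - p₀‖ ≤ 3 / 8 := by
    intro p hp
    have h1 : Tendsto (fun q : RE n => ‖q - p₀‖) (𝓝 p) (𝓝 ‖p - p₀‖) := by
      have : Continuous fun q : RE n => ‖q - p₀‖ := by fun_prop
      exact this.tendsto p
    filter_upwards [h1.eventually (gt_mem_nhds (by linarith : ‖p - p₀‖ < 3 / 8))] with q hq using hq.le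
  have hhE : hh' =ᶠ[𝓝 p₀] h := by
    filter_upwards [hnear p₀ (by rw [sub_self, norm_zero]; norm_num)] with q hq
    rw [hhh]
    simp only [hχ1 q hq, one_mul]
  have hg : gradient hh' p₀ = gradient h p₀ := by rw [gradient, gradient, hhE.fderiv_eq]
  have hB' : ∀ v, ‖v‖ ^ 2 / (2 * La) ≤ fderiv ℝ (fderiv ℝ hh') p₀ v v ∧
      fderiv ℝ (fderiv ℝ hh') p₀ v v ≤ 2 * La * ‖v‖ ^ 2 := by
    intro v
    rw [(hhE.fderiv).fderiv_eq]
    exact hB p₀ v hp₀0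
  obtain ⟨ef, ρ, r, m, K, hef, hρ, -, hr, hm, HF⟩ := HL hh' hhC p₀ (La := La) (La' := 2 * La) hLa (by linarith) hB'
    (1 / 4) (by norm_num)
  refine ⟨ef, m, K, r, hef, hm, hr, fun H hH hHK hd => ?_⟩
  set G : RE n × RE n → ℝ := fun z => H z - h z.2 with hG
  have hfC : ContDiff ℝ s (fun z : RE n × RE n => χ z.2 * G z) := by
    rw [contDiff_iff_contDiffAt]
    rintro ⟨x, p⟩
    rcases eq_or_ne p 0 with rfl | hp
    · have h1 : (fun z : RE n × RE n => χ z.2 * G z) =ᶠ[𝓝 (x, 0)] fun _ => (0 : ℝ) := by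
        have h2 : Tendsto (fun z : RE n × RE n => z.2) (𝓝 (x, 0)) (𝓝 0) := by
          exact (continuous_snd.tendsto (x, (0 : RE n)))
        filter_upwards [h2.eventually hsmall] with z hz
        simp only [hχ0 z.2 hz, zero_mul]
      exact contDiffAt_const.congr_of_eventuallyEq h1
    · exact (χ.contDiffAt.comp (x, p) contDiffAt_snd).mul (hH.gsmooth hh hp)
  have a1 : ∀ p, Per (bs n) (fun x => χ p * G (x, p)) := by
    intro p i x
    simp only [hG]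
    rw [show H (x + bs n i, p) = H (x, p) from hH.per p i x]
  have a2 : ∀ j ≤ s, ∀ x p, ‖p - p₀‖ ≤ 1 / 4 →
      ‖iteratedFDeriv ℝ j (fun z : RE n × RE n => χ z.2 * G z) (x, p)‖ ≤ ef := by
    intro j hj x p hp
    have h1 : (fun z : RE n × RE n => χ z.2 * G z) =ᶠ[𝓝 (x, p)] G := by
      have h2 : Tendsto (fun z : RE n × RE n => z.2) (𝓝 (x, p)) (𝓝 p) := continuous_snd.tendsto (x, p)
      filter_upwards [h2.eventually (hnear p hp)] with z hz
      simp only [hχ1 z.2 hz, one_mul]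
    rw [(h1.iteratedFDeriv ℝ j).eq_of_nhds]
    have h3 : ‖p₀‖ ≤ ‖p‖ + ‖p - p₀‖ := by
      calc ‖p₀‖ = ‖p - (p - p₀)‖ := by congr 1; abel
        _ ≤ ‖p‖ + ‖p - p₀‖ := norm_sub_le _ _
    have h4 : ‖p‖ ≤ ‖p₀‖ + ‖p - p₀‖ := by
      calc ‖p‖ = ‖p₀ + (p - p₀)‖ := by congr 1; abel
        _ ≤ ‖p₀‖ + ‖p - p₀‖ := norm_add_le _ _
    exact hH.close j hj x p (by linarith) (by linarith)
  have a3 : ∀ x p, ‖p - p₀‖ ≤ 1 / 4 → H (x, p) = hh' p + χ p * G (x, p) := by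
    intro x p hp
    simp only [hhh, hG, hχ1 p (by linarith), one_mul]
    ring
  obtain ⟨c, P, hP, -⟩ := HF (fun z => χ z.2 * G z) hfC a1 a2 H (pgr H) hHK a3 (fun w _ => hd w)
  exact ⟨c, P, by rw [← hg]; exact hP⟩

lemma Fins.mono {s : ℕ} {ε ε' : ℝ} {h : RE n → ℝ} {H : RE n × RE n → ℝ} (hH : Fins (bs n) s ε h H) (he : ε ≤ ε') :
    Fins (bs n) s ε' h H :=
  ⟨hH.per, hH.smooth, hH.hom, fun j hj x p h1 h2 => (hH.close j hj x p h1 h2).trans he⟩

/-- uniform constants on the unit sphere -/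
lemma fins_unif {s : ℕ} (hs : 3 ≤ s) (HL : LFst n s) {h : RE n → ℝ} (hh : Mink s h) {La : ℝ} (hLa : 1 ≤ La)
    (hB : ∀ p v, p ≠ 0 → ‖v‖ ^ 2 / (2 * La) ≤ fderiv ℝ (fderiv ℝ h) p v v ∧
      fderiv ℝ (fderiv ℝ h) p v v ≤ 2 * La * ‖v‖ ^ 2) :
    ∃ ef m K, 0 < ef ∧ 0 < m ∧ ∀ H, Fins (bs n) s ef h H → HamK (2 * La) (bs n) H (pgr H) →
      (∀ v, DifferentiableAt ℝ (betaL (bs n) (Leg H)) v) → ∀ p ∈ Metric.sphere (0 : RE n) 1,
      ∃ r c P, FFam (bs n) H (pgr H) (gradient h p) m K r c P := by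
  refine IsCompact.induction_on (p := fun S => ∃ ef m K, 0 < ef ∧ 0 < m ∧ ∀ H, Fins (bs n) s ef h H →
      HamK (2 * La) (bs n) H (pgr H) →
      (∀ v, DifferentiableAt ℝ (betaL (bs n) (Leg H)) v) → ∀ p ∈ S,
      ∃ r c P, FFam (bs n) H (pgr H) (gradient h p) m K r c P) (isCompact_sphere (0 : RE n) 1) ?_ ?_ ?_ ?_
  · exact ⟨1, 1, 1, one_pos, one_pos, fun _ _ _ _ p hp => absurd hp (Set.notMem_empty p)⟩
  · rintro S T hST ⟨ef, m, K, h1, h2, h3⟩
    exact ⟨ef, m, K, h1, h2, fun H a b c p hp => h3 H a b c p (hST hp)⟩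
  · rintro S T ⟨ef, m, K, h1, h2, h3⟩ ⟨ef', m', K', h1', h2', h3'⟩
    refine ⟨min ef ef', min m m', max K K', lt_min h1 h1', lt_min h2 h2', fun H a b c p hp => ?_⟩
    rcases hp with hp | hp
    · obtain ⟨r, c, P, hF⟩ := h3 H (a.mono (min_le_left _ _)) b c p hp
      exact ⟨r, c, P, hF.mono (min_le_left _ _) (le_max_left _ _) hF.r0 (by rw [sub_self, norm_zero, add_zero])⟩
    · obtain ⟨r, c, P, hF⟩ := h3' H (a.mono (min_le_right _ _)) b c p hp
      exact ⟨r, c, P, hF.mono (min_le_right _ _) (le_max_right _ _) hF.r0 (by rw [sub_self, norm_zero, add_zero])⟩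
  · intro p₀ hp₀
    have hp₀1 : ‖p₀‖ = 1 := by simpa using hp₀
    have hp₀0 : p₀ ≠ 0 := by rw [← norm_ne_zero_iff, hp₀1]; norm_num
    obtain ⟨ef, m, K, r, h1, h2, h3, h4⟩ := fins_loc HL hh hLa hB hp₀1
    have hc : ContinuousAt (gradient h) p₀ := by
      have h5 : ContDiffAt ℝ 1 (fderiv ℝ h) p₀ :=
        ((hh.smooth p₀ hp₀0).of_le (by exact_mod_cast (by omega : 2 ≤ s))).fderiv_right
          (m := 1) (n := 2) (by norm_num)
      exact (InnerProductSpace.toDual ℝ (RE n)).symm.continuous.continuousAt.comp h5.continuousAt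
    have h6 : ∀ᶠ p in 𝓝 p₀, ‖gradient h p - gradient h p₀‖ < r / 2 := by
      have h7 : Tendsto (fun p => ‖gradient h p - gradient h p₀‖) (𝓝 p₀) (𝓝 ‖gradient h p₀ - gradient h p₀‖) :=
        ((hc.tendsto.sub tendsto_const_nhds).norm)
      rw [sub_self, norm_zero] at h7
      exact h7.eventually (gt_mem_nhds (by positivity))
    refine ⟨{p | ‖gradient h p - gradient h p₀‖ < r / 2}, mem_nhdsWithin_of_mem_nhds h6, ef, m, K, h1, h2,
      fun H a b c p hp => ?_⟩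
    obtain ⟨c', P, hF⟩ := h4 H a b c
    have h8 : ‖gradient h p - gradient h p₀‖ < r / 2 := hp
    exact ⟨r / 2, c', P, hF.mono le_rfl le_rfl (by positivity) (by linarith)⟩

/-- rigidity for Finsler metrics close to a Minkowski norm -/
theorem finsler (n : ℕ) (hn : 2 ≤ n) : ∃ s : ℕ, ∀ h : RE n → ℝ, Mink s h → ∃ ε > 0, ∀ H : RE n × RE n → ℝ,
    Fins (bs n) s ε h H → (∀ v, v ≠ 0 → DifferentiableAt ℝ (betaH H) v) → C0Int (bs n) H := by
  obtain ⟨s, hs, HL⟩ := local_fam n hn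
  refine ⟨s, fun h hh => ?_⟩
  obtain ⟨La, hLa, hB⟩ := hh.bounds hs
  obtain ⟨ef, m, K, hef, hm, HU⟩ := fins_unif hs HL hh hLa hB
  refine ⟨min ef (1 / (4 * La)), lt_min hef (by positivity), fun H hH hd => ?_⟩
  have hs2 : ((2 : ℕ∞) : WithTop ℕ∞) ≤ (s : WithTop ℕ∞) := by exact_mod_cast (by omega : 2 ≤ s)
  have hLa2 : 1 ≤ 2 * La := by linarith
  have hHB := hH.bounds hs hh hLa (min_le_right _ _) hB
  have hHC : ∀ x p, p ≠ 0 → ContDiffAt ℝ 2 H (x, p) := fun x p hp => (hH.smooth x p hp).of_le hs2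
  obtain ⟨hHK, hHd⟩ := hamK_hom hLa2 (b := bs n) (H := H) hHC hH.hom hH.per hHB
  have h0 := (hamK_hom hLa (b := bs n) (H := fun z : RE n × RE n => h z.2)
    (fun x p hp => ((hh.smooth p hp).of_le hs2).comp (x, p) contDiffAt_snd) (fun t x p ht => hh.hom t p ht)
    (fun p i x => rfl) (fun x p v hp => hB p v hp)).1
  have hbij : Function.Bijective (gradient h) := by
    refine zar_bij (m := (2 * La)⁻¹) (K := 2 * La) (by positivity) ?_ (fun w w' => h0.lip hLa 0 w w')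
      (fun w w' => h0.mono hLa 0 w w')
    exact (inv_le_one_of_one_le₀ (by linarith)).trans (by linarith)
  have hz : ∀ x, H (x, 0) = 0 ∧ pgr H (x, 0) = 0 := fun x =>
    ⟨hom_zero (g := fun q => H (x, q)) (fun t p ht => hH.hom t x p ht),
      hom_grad0 (g := fun q => H (x, q)) (fun t p ht => hH.hom t x p ht)⟩
  have hd' : ∀ v, DifferentiableAt ℝ (betaL (bs n) (Leg H)) v := by
    intro v
    rcases eq_or_ne v 0 with rfl | hv
    · exact diff_zero hLa2 hHK hz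
    · exact hd v hv
  have hpos : ∀ x p, p ≠ 0 → 0 < H (x, p) := by
    intro x p hp
    have h1 := hHK.low x 0 p
    have h2 := (hz x).2
    rw [zero_add, (hz x).1, show gradient (fun q => H ((x, (0 : RE n)).1, q)) (x, (0 : RE n)).2 = 0 from h2,
      inner_zero_left, zero_add, zero_add] at h1
    have h3 : 0 < ‖p‖ ^ 2 / (4 * (2 * La)) := by
      have := norm_pos_iff.2 hp
      positivity
    exact h3.trans_le h1
  refine c0int_of_loc0 (m := m) (K := max m K) hLa2 hHK hm (le_max_left _ _)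
    (fun w c P hP => inv_off_zero (fun x => (hz x).1) hpos hHC hHd hH.per hP) hz (fun w₀ hw₀ => ?_)
  obtain ⟨q, hq⟩ := hbij.2 w₀
  have hq0 : q ≠ 0 := by
    rintro rfl
    exact hw₀ (by rw [← hq]; exact hom_grad0 hh.hom')
  obtain ⟨t, u, ht, hu, rfl⟩ := unitize hq0
  rw [hom_grad hh.hom' ht] at hq
  obtain ⟨r, c, P, hF⟩ := HU H (hH.mono (min_le_left _ _)) hHK hd' u (by simpa using hu)
  rw [← hq]
  have h5 := hF.hom ht (fun x p => hH.hom t x p ht.le)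
    (fun x p => hom_grad (g := fun q => H (x, q)) (fun t p ht => hH.hom t x p ht) ht p)
  exact ⟨_, _, _, h5.mono le_rfl (le_max_right _ _) h5.r0 (by rw [sub_self, norm_zero, add_zero])⟩

end

end Pool.Agent.LRW
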