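import Pool.Agent.LRW.KDefs

/-! # LRW/FH0: homogeneous functions of degree 2   (helper45) -/

set_option autoImplicit false

open MeasureTheory Module Set Filter Topology

namespace Pool.Agent.LRW

open Pool.H45.Mather Pool.Agent.LRT

noncomputable section

section hom

variable {E : Type*} [NormedAddCommGroup E] [InnerProductSpace ℝ E] [CompleteSpace E] {g : E → ℝ}

/-- first derivative of a 2-homogeneous function -/
lemma hom_fderiv (hg : ∀ t p, 0 ≤ t → g (t • p) = t ^ 2 * g p) {t : ℝ} (ht : 0 < t) (p : E) :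
    fderiv ℝ g (t • p) = t • fderiv ℝ g p := by
  have h1 : fderiv ℝ (fun q => g (t • q)) p = t • fderiv ℝ g (t • p) := fderiv_comp_smul _
  have h2 : (fun q => g (t • q)) = (t ^ 2) • g := by
    funext q
    exact hg t q ht.le
  rw [h2, fderiv_const_smul_field] at h1
  have h3 : t • (t • fderiv ℝ g p) = t • fderiv ℝ g (t • p) := by
    rw [← h1, smul_smul, sq]
    rfl
  exact (smul_right_injective _ ht.ne' h3).symm

lemma hom_fderiv0 (hg : ∀ t p, 0 ≤ t → g (t • p) = t ^ 2 * g p) : fderiv ℝ g 0 = 0 := by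
  have h1 := hom_fderiv hg (t := 2) two_pos 0
  rw [smul_zero, two_smul] at h1
  simpa using h1

lemma hom_grad (hg : ∀ t p, 0 ≤ t → g (t • p) = t ^ 2 * g p) {t : ℝ} (ht : 0 < t) (p : E) :
    gradient g (t • p) = t • gradient g p := by
  rw [gradient, gradient, hom_fderiv hg ht, map_smulₛₗ]
  simp

lemma hom_grad0 (hg : ∀ t p, 0 ≤ t → g (t • p) = t ^ 2 * g p) : gradient g 0 = 0 := by
  rw [gradient, hom_fderiv0 hg, map_zero]

/-- second derivative of a 2-homogeneous function -/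
lemma hom_fderiv2 (hg : ∀ t p, 0 ≤ t → g (t • p) = t ^ 2 * g p) {t : ℝ} (ht : 0 < t) (p : E) :
    fderiv ℝ (fderiv ℝ g) (t • p) = fderiv ℝ (fderiv ℝ g) p := by
  have h1 : fderiv ℝ (fun q => fderiv ℝ g (t • q)) p = t • fderiv ℝ (fderiv ℝ g) (t • p) := fderiv_comp_smul _
  have h2 : (fun q => fderiv ℝ g (t • q)) = t • fderiv ℝ g := by
    funext q
    exact hom_fderiv hg ht q
  have h3 : fderiv ℝ (t • fderiv ℝ g) p = t • fderiv ℝ (fderiv ℝ g) p :=
    congrFun (fderiv_const_smul_field (𝕜 := ℝ) (f := fderiv ℝ g) t) p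
  rw [h2, h3] at h1
  exact (smul_right_injective _ ht.ne' h1).symm

lemma hom_zero (hg : ∀ t p, 0 ≤ t → g (t • p) = t ^ 2 * g p) : g 0 = 0 := by
  have := hg 0 0 le_rfl
  rwa [smul_zero, zero_pow two_ne_zero, zero_mul] at this

lemma unitizeE {p : E} (hp : p ≠ 0) : ∃ (t : ℝ) (u : E), 0 < t ∧ ‖u‖ = 1 ∧ p = t • u := by
  refine ⟨‖p‖, ‖p‖⁻¹ • p, norm_pos_iff.2 hp, ?_, ?_⟩
  · rw [norm_smul, norm_inv, norm_norm, inv_mul_cancel₀ (norm_ne_zero_iff.2 hp)]
  · rw [smul_smul, mul_inv_cancel₀ (norm_ne_zero_iff.2 hp), one_smul]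

end hom

/-- a function with nonnegative derivative off one point is monotone -/
lemma mono_off {u : ℝ → ℝ} {t₀ a b : ℝ} (hc : Continuous u) (hab : a ≤ b)
    (hd : ∀ t, t ≠ t₀ → ∃ d, 0 ≤ d ∧ HasDerivAt u d t) : u a ≤ u b := by
  have key : ∀ a b, a ≤ b → (∀ t ∈ Ioo a b, t ≠ t₀) → u a ≤ u b := by
    intro a b hab hn
    have h1 : MonotoneOn u (Icc a b) := by
      refine monotoneOn_of_deriv_nonneg (convex_Icc a b) hc.continuousOn (fun t ht => ?_) (fun t ht => ?_)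
      · rw [interior_Icc] at ht
        obtain ⟨d, -, h2⟩ := hd t (hn t ht)
        exact h2.differentiableAt.differentiableWithinAt
      · rw [interior_Icc] at ht
        obtain ⟨d, h1, h2⟩ := hd t (hn t ht)
        rw [h2.deriv]
        exact h1
    exact h1 (left_mem_Icc.2 hab) (right_mem_Icc.2 hab) hab
  by_cases ht : t₀ ∈ Ioo a b
  · exact (key a t₀ ht.1.le fun t h => h.2.ne).trans (key t₀ b ht.2.le fun t h => h.1.ne')
  · exact key a b hab fun t h e => ht (e ▸ h)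

/-- Taylor formula with an exceptional point -/
lemma taylor_low {ψ ψ' d : ℝ → ℝ} {t₀ c : ℝ} (h1 : ∀ t, HasDerivAt ψ (ψ' t) t) (hc : Continuous ψ')
    (h2 : ∀ t, t ≠ t₀ → HasDerivAt ψ' (d t) t) (h3 : ∀ t, t ≠ t₀ → c ≤ d t) : ψ 0 + ψ' 0 + c / 2 ≤ ψ 1 := by
  have h4 : ∀ t, 0 ≤ t → ψ' 0 + c * t ≤ ψ' t := by
    intro t ht
    have h5 := mono_off (u := fun t => ψ' t - c * t) (t₀ := t₀) (by fun_prop) ht (fun s hs => by
      refine ⟨d s - c * 1, by linarith [h3 s hs], (h2 s hs).sub ((hasDerivAt_id s).const_mul c)⟩)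
    beta_reduce at h5
    linarith
  have h6 : MonotoneOn (fun t => ψ t - ψ' 0 * t - c * (t ^ 2 / 2)) (Icc 0 1) := by
    have h7 : ∀ t, HasDerivAt (fun t => ψ t - ψ' 0 * t - c * (t ^ 2 / 2)) (ψ' t - ψ' 0 * 1 - c * (2 * t / 2)) t := by
      intro t
      have h8 : HasDerivAt (fun t : ℝ => t ^ 2 / 2) (2 * t / 2) t := by
        have := (hasDerivAt_pow 2 t).div_const 2
        simpa using this
      exact ((h1 t).sub ((hasDerivAt_id t).const_mul (ψ' 0))).sub (h8.const_mul c)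
    refine monotoneOn_of_deriv_nonneg (convex_Icc 0 1)
      (fun t _ => (h7 t).continuousAt.continuousWithinAt) (fun t _ => (h7 t).differentiableAt.differentiableWithinAt)
      (fun t ht => ?_)
    rw [interior_Icc] at ht
    rw [(h7 t).deriv]
    linarith [h4 t ht.1.le]
  have h9 := h6 (left_mem_Icc.2 zero_le_one) (right_mem_Icc.2 zero_le_one) zero_le_one
  beta_reduce at h9
  linarith

lemma taylor_up {ψ ψ' d : ℝ → ℝ} {t₀ c : ℝ} (h1 : ∀ t, HasDerivAt ψ (ψ' t) t) (hc : Continuous ψ')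
    (h2 : ∀ t, t ≠ t₀ → HasDerivAt ψ' (d t) t) (h3 : ∀ t, t ≠ t₀ → d t ≤ c) : ψ 1 ≤ ψ 0 + ψ' 0 + c / 2 := by
  have := taylor_low (ψ := fun t => -ψ t) (ψ' := fun t => -ψ' t) (d := fun t => -d t) (t₀ := t₀) (c := -c)
    (fun t => (h1 t).neg) hc.neg (fun t ht => (h2 t ht).neg) (fun t ht => by linarith [h3 t ht])
  beta_reduce at this
  linarith

end

end Pool.Agent.LRW
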