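import Pool.Agent.LRW.KZ

/-!
# LRW/KB: locally strongly monotone Lipschitz proper maps are homeomorphisms   (helper45)
-/

set_option autoImplicit false
set_option linter.style.haveILetI false

open Set Filter Topology Metric

namespace Pool.Agent.LRW

noncomputable section

variable {E : Type*} [NormedAddCommGroup E] [InnerProductSpace ℝ E]

/-- local Lipschitz and strong monotonicity estimates at `w₀` -/
def LocMon (F : E → E) (w₀ : E) (m K r : ℝ) : Prop :=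
  ∀ y y', ‖y - w₀‖ < r → ‖y' - w₀‖ < r →
      ‖F y - F y'‖ ≤ K * ‖y - y'‖ ∧ m * ‖y - y'‖ ^ 2 ≤ inner ℝ (F y - F y') (y - y')

lemma LocMon.weaken {F : E → E} {w₀ : E} {m K r m' K' r' : ℝ} (h : LocMon F w₀ m K r) (hm : m' ≤ m) (hK : K ≤ K')
    (hr : r' ≤ r) : LocMon F w₀ m' K' r' := by
  intro y y' hy hy'
  obtain ⟨h1, h2⟩ := h y y' (hy.trans_le hr) (hy'.trans_le hr)
  exact ⟨h1.trans (mul_le_mul_of_nonneg_right hK (norm_nonneg _)),
    (mul_le_mul_of_nonneg_right hm (by positivity)).trans h2⟩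

/-- uniform constants on a compact set -/
theorem kb_unif {F : E → E} {S : Set E} (hS : IsCompact S)
    (h : ∀ w₀ ∈ S, ∃ m K r, 0 < m ∧ 0 < r ∧ LocMon F w₀ m K r) :
    ∃ m K, 0 < m ∧ m ≤ K ∧ ∀ w₀ ∈ S, ∃ r, 0 < r ∧ LocMon F w₀ m K r := by
  choose! m K r hm hr hloc using h
  obtain ⟨t, htS, htc⟩ := hS.elim_nhds_subcover (fun w => ball w (r w)) (fun w hw => ball_mem_nhds w (hr w hw))
  obtain ⟨m₀, hm₀, hm₀'⟩ : ∃ m₀, 0 < m₀ ∧ ∀ w ∈ t, m₀ ≤ m w := by
    rcases t.eq_empty_or_nonempty with rfl | hne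
    · exact ⟨1, one_pos, fun w hw => absurd hw (Finset.notMem_empty _)⟩
    · obtain ⟨w₁, hw₁, hmin⟩ := t.exists_min_image m hne
      exact ⟨m w₁, hm w₁ (htS w₁ hw₁), hmin⟩
  obtain ⟨K₀, hK₀⟩ : ∃ K₀, ∀ w ∈ t, K w ≤ K₀ := by
    rcases t.eq_empty_or_nonempty with rfl | hne
    · exact ⟨1, fun w hw => absurd hw (Finset.notMem_empty _)⟩
    · obtain ⟨w₁, hw₁, hmax⟩ := t.exists_max_image K hne
      exact ⟨K w₁, hmax⟩
  refine ⟨m₀, max K₀ m₀, hm₀, le_max_right _ _, fun w hw => ?_⟩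
  obtain ⟨v, hv, hwv⟩ : ∃ v ∈ t, w ∈ ball v (r v) := by
    have := htc hw
    simpa using this
  rw [mem_ball, dist_eq_norm] at hwv
  refine ⟨r v - ‖w - v‖, by linarith, fun y y' hy hy' => ?_⟩
  have e : ∀ z, ‖z - w‖ < r v - ‖w - v‖ → ‖z - v‖ < r v := by
    intro z hz
    have h1 : z - v = (z - w) + (w - v) := by abel
    rw [h1]
    exact (norm_add_le _ _).trans_lt (by linarith)
  exact (hloc v (htS v hv)).weaken (hm₀' v hv) ((hK₀ v hv).trans (le_max_left _ _)) le_rfl y y' (e y hy) (e y' hy')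

theorem kb_cont {F : E → E} (h : ∀ w₀, ∃ m K r, 0 < m ∧ 0 < r ∧ LocMon F w₀ m K r) : Continuous F := by
  rw [continuous_iff_continuousAt]
  intro w₀
  obtain ⟨m, K, r, -, hr, hloc⟩ := h w₀
  have hc : Tendsto (fun w : E => K * ‖w - w₀‖) (𝓝 w₀) (𝓝 0) := by
    have : Continuous fun w : E => K * ‖w - w₀‖ := by fun_prop
    have h2 := this.tendsto w₀
    simpa using h2
  refine tendsto_iff_norm_sub_tendsto_zero.2 (squeeze_zero' (Eventually.of_forall fun s => norm_nonneg _) ?_ hc)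
  filter_upwards [ball_mem_nhds w₀ hr] with w hw
  rw [mem_ball, dist_eq_norm] at hw
  exact (hloc w w₀ hw (by rw [sub_self, norm_zero]; exact hr)).1

theorem kb_inj {F : E → E} (h : ∀ w₀, ∃ m K r, 0 < m ∧ 0 < r ∧ LocMon F w₀ m K r) : Function.Injective F := by
  intro w w' he
  have hS : IsCompact ((fun t : ℝ => w + t • (w' - w)) '' Icc (0 : ℝ) 1) :=
    isCompact_Icc.image (by fun_prop)
  obtain ⟨m, K, hm, -, hu⟩ := kb_unif hS (fun w₀ _ => h w₀)
  have h1 := (loc_glob (F := F) (m := m) (K := K) (w := w) (v := w' - w) (fun t ht => by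
    obtain ⟨r, hr, hloc⟩ := hu _ ⟨t, ht, rfl⟩
    exact ⟨r, hr, hloc⟩)).2
  rw [add_sub_cancel, he, sub_self, inner_zero_left] at h1
  have h2 : ‖w' - w‖ ^ 2 ≤ 0 := by
    by_contra hcon
    push Not at hcon
    have := mul_pos hm hcon
    linarith
  have h3 : ‖w' - w‖ = 0 := by nlinarith [norm_nonneg (w' - w)]
  exact (sub_eq_zero.1 (norm_eq_zero.1 h3)).symm

theorem kb_open [CompleteSpace E] {F : E → E} (h : ∀ w₀, ∃ m K r, 0 < m ∧ 0 < r ∧ LocMon F w₀ m K r) :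
    IsOpenMap F := by
  rw [isOpenMap_iff_nhds_le]
  intro w₀ U hU
  rw [mem_map] at hU
  obtain ⟨m, K, r, hm, hr, hloc⟩ := h w₀
  obtain ⟨d, hd, hdU⟩ := Metric.mem_nhds_iff.1 hU
  set η := min (r / 2) (d / 2) with hη
  have hη0 : 0 < η := by positivity
  have hηr : η < r := lt_of_le_of_lt (min_le_left _ _) (by linarith)
  have hηd : η < d := lt_of_le_of_lt (min_le_right _ _) (by linarith)
  refine Metric.mem_nhds_iff.2 ⟨m * η / 2, by positivity, fun p hp => ?_⟩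
  rw [mem_ball, dist_eq_norm, norm_sub_rev] at hp
  obtain ⟨w, hw1, hw2⟩ := zar_ball (F := F) (m := m) (K := max K m) hm (le_max_right _ _) hη0.le (w₁ := w₀) (p := p)
    (fun y y' hy hy' => ((hloc y y' (hy.trans_lt hηr) (hy'.trans_lt hηr)).1).trans
      (mul_le_mul_of_nonneg_right (le_max_left _ _) (norm_nonneg _)))
    (fun y y' hy hy' => (hloc y y' (hy.trans_lt hηr) (hy'.trans_lt hηr)).2) hp.le
  rw [← hw2]
  refine hdU ?_
  rw [mem_ball, dist_eq_norm]
  linarith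

theorem kb_bij [FiniteDimensional ℝ E] {F : E → E} (h : ∀ w₀, ∃ m K r, 0 < m ∧ 0 < r ∧ LocMon F w₀ m K r)
    (hp : ∀ R : ℝ, ∃ V : ℝ, ∀ w, ‖F w‖ ≤ R → ‖w‖ ≤ V) : Function.Bijective F := by
  haveI : ProperSpace E := FiniteDimensional.proper ℝ E
  haveI : CompleteSpace E := FiniteDimensional.complete ℝ E
  refine ⟨kb_inj h, ?_⟩
  have ho : IsOpen (range F) := (kb_open h).isOpen_range
  have hc : IsClosed (range F) := by
    refine IsSeqClosed.isClosed ?_
    intro u p hu hup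
    choose w hw using hu
    obtain ⟨R, hR⟩ := (Metric.isBounded_range_of_tendsto u hup).exists_norm_le
    obtain ⟨V, hV⟩ := hp R
    have hb : ∀ k, w k ∈ closedBall (0 : E) V := by
      intro k
      rw [mem_closedBall_zero_iff]
      refine hV _ ?_
      rw [hw k]
      exact hR _ ⟨k, rfl⟩
    obtain ⟨w', -, φ, hφ, hlim⟩ := tendsto_subseq_of_bounded (isBounded_closedBall) hb
    have h1 : Tendsto (fun k => F ((w ∘ φ) k)) atTop (𝓝 (F w')) := ((kb_cont h).tendsto w').comp hlim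
    have h2 : Tendsto (fun k => F ((w ∘ φ) k)) atTop (𝓝 p) := by
      have h3 : (fun k => F ((w ∘ φ) k)) = u ∘ φ := by
        funext k
        exact hw (φ k)
      rw [h3]
      exact hup.comp hφ.tendsto_atTop
    exact ⟨w', tendsto_nhds_unique h1 h2⟩
  have hcl : IsClopen (range F) := ⟨hc, ho⟩
  exact range_eq_univ.1 (hcl.eq_univ ⟨F 0, 0, rfl⟩)

/-- the inverse is continuous -/
theorem kb_inv [FiniteDimensional ℝ E] {F : E → E} (h : ∀ w₀, ∃ m K r, 0 < m ∧ 0 < r ∧ LocMon F w₀ m K r)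
    (hp : ∀ R : ℝ, ∃ V : ℝ, ∀ w, ‖F w‖ ≤ R → ‖w‖ ≤ V) : ∃ W : E → E, Continuous W ∧ (∀ w, W (F w) = w) ∧
      ∀ y, F (W y) = y := by
  haveI : CompleteSpace E := FiniteDimensional.complete ℝ E
  set e := Equiv.ofBijective F (kb_bij h hp) with he
  set g := e.toHomeomorphOfContinuousOpen (kb_cont h) (kb_open h) with hg
  exact ⟨g.symm, g.symm.continuous, fun w => g.symm_apply_apply w, fun y => g.apply_symm_apply y⟩

end

end Pool.Agent.LRW
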