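import Pool.Agent.LRW.KG
import Pool.Agent.LRW.KB

/-!
# LRW/KA: the foliation for coercive Hamiltonians   (helper45)
-/

set_option autoImplicit false
set_option linter.style.haveILetI false

open MeasureTheory Module Set Filter Topology

namespace Pool.Agent.LRW

open Pool.H45.Mather Pool.Agent.LRT

noncomputable section

set_option linter.unusedSectionVars false

variable {n : ℕ} {E : Type*} [NormedAddCommGroup E] [InnerProductSpace ℝ E] [FiniteDimensional ℝ E]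
  [MeasurableSpace E] [BorelSpace E] {b : Basis (Fin n) ℝ E}

variable {H H' : E × E → ℝ} {Hp Hp' : E × E → E} {La : ℝ}

/-- coercive Hamiltonians which agree on every set `‖p‖ ≤ R` with a uniformly convex one -/
structure HamL (b : Basis (Fin n) ℝ E) (H : E × E → ℝ) (Hp : E × E → E) : Prop where
  cont : Continuous H
  per : ∀ p, Per b (fun x => H (x, p))
  coer : ∀ A, ∃ R, ∀ x p, H (x, p) ≤ A → ‖p‖ ≤ R
  bdp : ∀ R, ∃ V, ∀ x p, ‖p‖ ≤ R → ‖Hp (x, p)‖ ≤ V
  ext : ∀ R : ℝ, ∃ La, 1 ≤ La ∧ ∃ (H' : E × E → ℝ) (Hp' : E × E → E), HamK La b H' Hp' ∧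
    ∀ x p, ‖p‖ ≤ R → H' (x, p) = H (x, p) ∧ Hp' (x, p) = Hp (x, p)

lemma FSol.eqP {w c : E} {P : E → E} (h : FSol b H Hp w c P) : ∃ φ : E → ℝ, ContDiff ℝ 2 φ ∧ Per b φ ∧
    P = fun x => c + (InnerProductSpace.toDual ℝ E).symm (fderiv ℝ φ x) := by
  haveI : CompleteSpace E := FiniteDimensional.complete ℝ E
  obtain ⟨φ, a1, a2, a3⟩ := h.grad
  refine ⟨φ, a1, a2, funext fun x => ?_⟩
  refine ext_inner_right ℝ fun v => ?_
  rw [a3, inner_add_left, InnerProductSpace.toDual_symm_apply]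

lemma FSol.contP {w c : E} {P : E → E} (h : FSol b H Hp w c P) : Continuous P := by
  haveI : CompleteSpace E := FiniteDimensional.complete ℝ E
  obtain ⟨φ, a1, a2, a3⟩ := h.eqP
  rw [a3]
  exact continuous_const.add ((InnerProductSpace.toDual ℝ E).symm.continuous.comp
    (a1.continuous_fderiv (by norm_num)))

lemma FSol.perP {w c : E} {P : E → E} (h : FSol b H Hp w c P) : Per b P := by
  haveI : CompleteSpace E := FiniteDimensional.complete ℝ E
  obtain ⟨φ, a1, a2, a3⟩ := h.eqP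
  rw [a3]
  exact a2.fderiv.comp (fun L => c + (InnerProductSpace.toDual ℝ E).symm L)

lemma FSol.bdd {w c : E} {P : E → E} (h : FSol b H Hp w c P) : ∃ R, ∀ x, ‖P x‖ ≤ R := by
  obtain ⟨R, -, hR⟩ := h.perP.bdd h.contP
  exact ⟨R, hR⟩

lemma FSol.congr {w c : E} {P : E → E} (h : FSol b H Hp w c P)
    (he : ∀ x, H' (x, P x) = H (x, P x) ∧ Hp' (x, P x) = Hp (x, P x)) : FSol b H' Hp' w c P := by
  refine ⟨h.grad, ?_, ?_⟩
  · obtain ⟨a, ha⟩ := h.hj
    exact ⟨a, fun x => by rw [(he x).1, ha x]⟩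
  · obtain ⟨L, hL, hc⟩ := h.conj
    refine ⟨L, hL, fun δ hδ => ?_⟩
    obtain ⟨X, a1, a2, a3, a4, a5⟩ := hc δ hδ
    exact ⟨X, a1, a2, a3, a4, fun t => by rw [(he (X t)).2]; exact a5 t⟩

theorem FSol.uniqL (hK : HamL b H Hp) {w c c' : E} {P P' : E → E}
    (h : FSol b H Hp w c P) (h' : FSol b H Hp w c' P') : P = P' ∧ c = c' := by
  obtain ⟨R, hR⟩ := h.bdd
  obtain ⟨R', hR'⟩ := h'.bdd
  obtain ⟨La, hLa, H₁, Hp₁, hH, he⟩ := hK.ext (max R R')
  exact FSol.uniq hLa hH (h.congr fun x => he x _ ((hR x).trans (le_max_left _ _)))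
    (h'.congr fun x => he x _ ((hR' x).trans (le_max_right _ _)))

/-- the frequency is an average of the velocity -/
theorem FSol.freq_le {w c : E} {P : E → E} (h : FSol b H Hp w c P) {V : ℝ}
    (hV : ∀ x, ‖Hp (x, P x)‖ ≤ V) : ‖w‖ ≤ V := by
  haveI : ProperSpace E := FiniteDimensional.proper ℝ E
  haveI : CompleteSpace E := FiniteDimensional.complete ℝ E
  haveI := lam_prob (b := b)
  obtain ⟨L, hL, hc⟩ := h.conj
  have hV0 : 0 ≤ V := (norm_nonneg _).trans (hV 0)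
  refine le_of_forall_pos_le_add fun δ hδ => ?_
  obtain ⟨X, dX, pX, -, -, aX⟩ := hc δ hδ
  set Y : E → E := fun x => X x - x with hY
  have dY : ContDiff ℝ 1 Y := dX.sub contDiff_id
  set G : E → ℝ := fun t => inner ℝ w (Y t) with hG
  have dG : ContDiff ℝ 1 G := (contDiff_const (c := w)).inner ℝ dY
  have pG : Per b G := pX.comp (fun y => inner ℝ w y)
  have hint := int_fderiv dG pG w
  have hfG : ∀ t, fderiv ℝ G t w = inner ℝ w (fderiv ℝ X t w) - ‖w‖ ^ 2 := by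
    intro t
    have dXt := dX.differentiable one_ne_zero t
    have e0 : HasFDerivAt Y (fderiv ℝ X t - ContinuousLinearMap.id ℝ E) t := dXt.hasFDerivAt.sub (hasFDerivAt_id t)
    have e1 : HasFDerivAt G ((innerSL ℝ w).comp (fderiv ℝ X t - ContinuousLinearMap.id ℝ E)) t :=
      (innerSL ℝ w).hasFDerivAt.comp t e0
    rw [e1.fderiv]
    simp only [ContinuousLinearMap.comp_apply, _root_.sub_apply, innerSL_apply_apply,
      ContinuousLinearMap.id_apply, inner_sub_right, real_inner_self_eq_norm_sq]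
  have hpt : ∀ t, fderiv ℝ G t w ≤ ‖w‖ * (V + δ) - ‖w‖ ^ 2 := by
    intro t
    rw [hfG]
    have h1 := real_inner_le_norm w (fderiv ℝ X t w)
    have h2 : ‖fderiv ℝ X t w‖ ≤ V + δ := by
      have e : fderiv ℝ X t w = Hp (X t, P (X t)) + (fderiv ℝ X t w - Hp (X t, P (X t))) := by abel
      rw [e]
      exact (norm_add_le _ _).trans (add_le_add (hV _) (aX t))
    have h3 := mul_le_mul_of_nonneg_left h2 (norm_nonneg w)
    linarith
  have cfd : Continuous fun t => fderiv ℝ G t w :=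
    (dG.continuous_fderiv one_ne_zero).clm_apply continuous_const
  have pfd : Per b fun t => fderiv ℝ G t w := pG.fderiv.comp (fun L : E →L[ℝ] ℝ => L w)
  have ifd : Integrable (fun t => fderiv ℝ G t w) (lam b) := pfd.integrable cfd
  have h3 := integral_mono ifd (integrable_const (‖w‖ * (V + δ) - ‖w‖ ^ 2)) hpt
  rw [hint] at h3
  simp at h3
  rcases eq_or_lt_of_le (norm_nonneg w) with h4 | h4
  · rw [← h4]; positivity
  · nlinarith

/-- a bound of the momentum at one point bounds the frequency -/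
theorem HamL.proper (hK : HamL b H Hp) (R : ℝ) : ∃ V : ℝ, ∀ (w c : E) (P : E → E), FSol b H Hp w c P →
    (∃ x₀, ‖P x₀‖ ≤ R) → ‖w‖ ≤ V := by
  haveI : ProperSpace E := FiniteDimensional.proper ℝ E
  obtain ⟨A, hA⟩ : ∃ A : ℝ, ∀ x p, ‖p‖ ≤ R → H (x, p) ≤ A := by
    obtain ⟨C, hC⟩ := ((isCompact_closedBall (0 : E) (∑ i, ‖b i‖)).prod
      (isCompact_closedBall (0 : E) R)).exists_bound_of_continuousOn hK.cont.continuousOn
    refine ⟨C, fun x v hv => ?_⟩
    have h1 : H (x, v) = H (ZSpan.fract b x, v) := ((hK.per v).fract x).symm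
    rw [h1]
    refine (le_abs_self _).trans (hC (ZSpan.fract b x, v) ⟨?_, ?_⟩)
    · rw [mem_closedBall_zero_iff]
      exact ZSpan.norm_fract_le b x
    · rw [mem_closedBall_zero_iff]
      exact hv
  obtain ⟨R', hR'⟩ := hK.coer A
  obtain ⟨V, hV⟩ := hK.bdp R'
  refine ⟨V, fun w c P hs => ?_⟩
  rintro ⟨x₀, hx₀⟩
  obtain ⟨a, ha⟩ := hs.hj
  refine hs.freq_le fun x => hV x _ (hR' x _ ?_)
  rw [ha x, ← ha x₀]
  exact hA _ _ hx₀

/-- at some point the momentum is the class -/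
theorem FSol.exists_eq {w c : E} {P : E → E} (h : FSol b H Hp w c P) : ∃ x₀, P x₀ = c := by
  haveI : CompleteSpace E := FiniteDimensional.complete ℝ E
  obtain ⟨φ, a1, a2, a3⟩ := h.grad
  obtain ⟨x₀, hx₀⟩ := a2.exists_max a1.continuous
  have hm : IsLocalMax φ x₀ := Filter.Eventually.of_forall hx₀
  have hz := hm.fderiv_eq_zero
  refine ⟨x₀, ext_inner_right ℝ fun v => ?_⟩
  rw [a3, hz]
  simp

theorem c0int_asm [CompleteSpace E] (hK : HamL b H Hp) (hi : ∀ w c P, FSol b H Hp w c P → Inv H P)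
    (hF : ∀ w₀, ∃ m K r c P, 0 < m ∧ FFam b H Hp w₀ m K r c P) : C0Int b H := by
  choose m K r c' P' hm hF using hF
  set c : E → E := fun w => c' w w with hc
  set P : E → E → E := fun w => P' w w with hP
  have hself : ∀ w, ‖w - w‖ < r w := fun w => by
    rw [sub_self, norm_zero]
    exact (hF w).r0
  have hsol : ∀ w, FSol b H Hp w (c w) (P w) := fun w => (hF w).sol w (hself w)
  have hloc : ∀ w₀ w, ‖w - w₀‖ < r w₀ → P w = P' w₀ w ∧ c w = c' w₀ w := fun w₀ w hw =>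
    (hsol w).uniqL hK ((hF w₀).sol w hw)
  have hPl : ∀ x w₀, ∃ m K r, 0 < m ∧ 0 < r ∧ LocMon (fun w => P w x) w₀ m K r := by
    intro x w₀
    refine ⟨m w₀, K w₀, r w₀, hm w₀, (hF w₀).r0, fun y y' hy hy' => ?_⟩
    beta_reduce
    rw [(hloc _ y hy).1, (hloc _ y' hy').1]
    exact ⟨(hF _).lipw y y' hy hy' x, (hF _).mon y y' hy hy' x⟩
  have hcl : ∀ w₀, ∃ m K r, 0 < m ∧ 0 < r ∧ LocMon c w₀ m K r := by
    intro w₀
    refine ⟨m w₀, K w₀, r w₀, hm w₀, (hF w₀).r0, fun y y' hy hy' => ?_⟩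
    rw [(hloc _ y hy).2, (hloc _ y' hy').2]
    exact ⟨(hF _).lipc y y' hy hy', (hF _).monc y y' hy hy'⟩
  have hPp : ∀ x (R : ℝ), ∃ V : ℝ, ∀ w, ‖P w x‖ ≤ R → ‖w‖ ≤ V := by
    intro x R
    obtain ⟨V, hV⟩ := hK.proper R
    exact ⟨V, fun w hw => hV w _ _ (hsol w) ⟨x, hw⟩⟩
  have hcp : ∀ R : ℝ, ∃ V : ℝ, ∀ w, ‖c w‖ ≤ R → ‖w‖ ≤ V := by
    intro R
    obtain ⟨V, hV⟩ := hK.proper R
    refine ⟨V, fun w hw => hV w _ _ (hsol w) ?_⟩
    obtain ⟨x₀, hx₀⟩ := (hsol w).exists_eq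
    exact ⟨x₀, by rw [hx₀]; exact hw⟩
  obtain ⟨W, hWc, hW1, hW2⟩ := kb_inv hcl hcp
  have hWb : Function.Bijective W := Function.bijective_iff_has_inverse.2 ⟨c, hW2, hW1⟩
  refine ⟨fun y x => P (W y) x, ?_, ?_, ?_, ?_, ?_⟩
  · intro y
    have := (hsol (W y)).grad
    rwa [hW2 y] at this
  · intro y
    obtain ⟨K', hK'⟩ := (hF (W y)).lipx
    refine ⟨⟨max K' 0, le_max_right _ _⟩, LipschitzWith.of_dist_le_mul fun x x' => ?_⟩
    rw [dist_eq_norm, dist_eq_norm]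
    exact (hK' _ (hself _) x x').trans (mul_le_mul_of_nonneg_right (le_max_left _ _) (norm_nonneg _))
  · rw [continuous_iff_continuousAt]
    rintro ⟨y₀, x₀⟩
    obtain ⟨K', hK'⟩ := (hF (W y₀)).lipx
    have hev : ∀ᶠ z : E × E in 𝓝 (y₀, x₀), ‖W z.1 - W y₀‖ < r (W y₀) := by
      have h1 : Continuous fun z : E × E => ‖W z.1 - W y₀‖ := by fun_prop
      have h2 := h1.tendsto (y₀, x₀)
      simp only [sub_self, norm_zero] at h2
      exact h2.eventually (gt_mem_nhds (hF _).r0)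
    have hbd : ∀ᶠ z : E × E in 𝓝 (y₀, x₀), ‖P (W z.1) z.2 - P (W y₀) x₀‖ ≤
        K (W y₀) * ‖W z.1 - W y₀‖ + K' * ‖z.2 - x₀‖ := by
      filter_upwards [hev] with z hz
      have e : P (W z.1) z.2 - P (W y₀) x₀ = (P (W z.1) z.2 - P (W y₀) z.2) + (P (W y₀) z.2 - P (W y₀) x₀) := by abel
      rw [e]
      refine (norm_add_le _ _).trans (add_le_add ?_ (hK' _ (hself _) _ _))
      rw [(hloc (W y₀) (W z.1) hz).1]
      exact (hF (W y₀)).lipw _ _ hz (hself _) _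
    have hlim : Tendsto (fun z : E × E => K (W y₀) * ‖W z.1 - W y₀‖ + K' * ‖z.2 - x₀‖) (𝓝 (y₀, x₀)) (𝓝 0) := by
      have h1 : Continuous fun z : E × E => K (W y₀) * ‖W z.1 - W y₀‖ + K' * ‖z.2 - x₀‖ := by fun_prop
      have h2 := h1.tendsto (y₀, x₀)
      simpa using h2
    exact tendsto_iff_norm_sub_tendsto_zero.2 (squeeze_zero' (Eventually.of_forall fun z => norm_nonneg _) hbd hlim)
  · intro x
    exact (kb_bij (F := fun w => P w x) (hPl x) (hPp x)).comp hWb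
  · intro y x p t₁ t₂ htr t₀ ht₀ h0
    exact hi (W y) _ _ (hsol (W y)) x p t₁ t₂ htr t₀ ht₀ h0

end

end Pool.Agent.LRW
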