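import Pool.Agent.LRW.KA

/-!
# LRW/KAs: the foliation for coercive `C²` Hamiltonians   (helper45)
-/

set_option autoImplicit false
set_option linter.style.haveILetI false

open MeasureTheory Module Set Filter Topology

namespace Pool.Agent.LRW

open Pool.H45.Mather Pool.Agent.LRT

noncomputable section

set_option linter.unusedSectionVars false

variable {n : ℕ} {E : Type*} [NormedAddCommGroup E] [InnerProductSpace ℝ E] [FiniteDimensional ℝ E]
  [MeasurableSpace E] [BorelSpace E] {b : Basis (Fin n) ℝ E}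

variable {H : E × E → ℝ} {Hp : E × E → E}

theorem hamL_of [CompleteSpace E] (hH2 : ContDiff ℝ 2 H)
    (hcoer : ∀ A : ℝ, ∃ R : ℝ, ∀ x p, R ≤ ‖p‖ → A ≤ H (x, p))
    (hK : ∀ R : ℝ, ∃ (La : ℝ) (H' : E × E → ℝ) (Hp' : E × E → E), 1 ≤ La ∧ HamK La b H' Hp' ∧
      ∀ x p, ‖p‖ ≤ R → H' (x, p) = H (x, p) ∧ Hp' (x, p) = Hp (x, p))
    (hHp : ∀ x p, Hp (x, p) = gradient (fun q => H (x, q)) p) : HamL b H Hp := by
  haveI : ProperSpace E := FiniteDimensional.proper ℝ E
  have hper : ∀ p, Per b (fun x => H (x, p)) := by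
    intro p i x
    obtain ⟨La, H', Hp', -, hH', he⟩ := hK ‖p‖
    have h1 := hH'.per p i x
    simp only [] at h1 ⊢
    rw [← (he (x + b i) p le_rfl).1, ← (he x p le_rfl).1]
    exact h1
  refine ⟨hH2.continuous, hper, ?_, ?_, ?_⟩
  · intro A
    obtain ⟨R, hR⟩ := hcoer (A + 1)
    refine ⟨R, fun x p h => ?_⟩
    by_contra hcon
    push Not at hcon
    have := hR x p hcon.le
    linarith
  · intro R
    have hc : Continuous (vg_G H (ContinuousLinearMap.inr ℝ E E)) :=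
      (vg_G_diff hH2 (ContinuousLinearMap.inr ℝ E E)).continuous
    obtain ⟨C, hC⟩ := ((isCompact_closedBall (0 : E) (∑ i, ‖b i‖)).prod
      (isCompact_closedBall (0 : E) R)).exists_bound_of_continuousOn hc.continuousOn
    refine ⟨C, fun x v hv => ?_⟩
    have hp1 : Per b (fun x => Hp (x, v)) := by
      intro i x
      simp only []
      rw [hHp, hHp]
      congr 1
      funext q
      exact hper q i x
    have h1 : Hp (x, v) = Hp (ZSpan.fract b x, v) := (hp1.fract x).symm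
    rw [h1, hHp, vg_grad_snd hH2]
    refine hC (ZSpan.fract b x, v) ⟨?_, ?_⟩
    · rw [mem_closedBall_zero_iff]
      exact ZSpan.norm_fract_le b x
    · rw [mem_closedBall_zero_iff]
      exact hv
  · intro R
    obtain ⟨La, H', Hp', h1, h2, h3⟩ := hK R
    exact ⟨La, h1, H', Hp', h2, h3⟩

theorem asm [CompleteSpace E] (hH2 : ContDiff ℝ 2 H)
    (hcoer : ∀ A : ℝ, ∃ R : ℝ, ∀ x p, R ≤ ‖p‖ → A ≤ H (x, p))
    (hK : ∀ R : ℝ, ∃ (La : ℝ) (H' : E × E → ℝ) (Hp' : E × E → E), 1 ≤ La ∧ HamK La b H' Hp' ∧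
      ∀ x p, ‖p‖ ≤ R → H' (x, p) = H (x, p) ∧ Hp' (x, p) = Hp (x, p))
    (hHp : ∀ x p, Hp (x, p) = gradient (fun q => H (x, q)) p)
    (hF : ∀ w₀, ∃ (m K r : ℝ) (c : E → E) (P : E → E → E), 0 < m ∧ FFam b H Hp w₀ m K r c P) : C0Int b H :=
  c0int_asm (hamL_of hH2 hcoer hK hHp) (fun _ _ _ h => h.inv hH2) hF

/-- families of solutions depend only on `H` near the graphs -/
theorem FFam.congr {H' : E × E → ℝ} {Hp' : E × E → E} {w₀ : E} {m K r : ℝ} {c : E → E}
    {P : E → E → E} (h : FFam b H Hp w₀ m K r c P)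
    (he : ∀ w, ‖w - w₀‖ < r → ∀ x, H' (x, P w x) = H (x, P w x) ∧ Hp' (x, P w x) = Hp (x, P w x)) :
    FFam b H' Hp' w₀ m K r c P :=
  ⟨h.r0, fun w hw => (h.sol w hw).congr (he w hw), h.lipx, h.lipw, h.lipc, h.mon, h.monc⟩

end

end Pool.Agent.LRW
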