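import Pool.Agent.LRW.KA

/-!
# LRW/KD1: two invariant graphs with a common point have the same frequency   (helper61)

Approximate conjugacies give curves `τ ↦ (X (t₀ + τ w), P (X (t₀ + τ w)))` which solve Hamilton's equations up to `O(δ)` and stay
at bounded distance from `τ ↦ x₀ + τ w`; two such curves with the same initial point stay close on `[0, T]` (Gronwall).
-/

set_option autoImplicit false
set_option linter.unusedSectionVars false
set_option linter.unusedVariables false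
set_option linter.style.haveILetI false

open MeasureTheory Module Set Filter Topology

namespace Pool.Agent.LRW

open Pool.H45.Mather Pool.Agent.LRT

variable {n : ℕ} {E : Type*} [NormedAddCommGroup E] [InnerProductSpace ℝ E] [FiniteDimensional ℝ E]
  {b : Basis (Fin n) ℝ E}

variable {H : E × E → ℝ} {Hp : E × E → E}

theorem kd_dev {X : E → E} (pX : Per b (fun x => X x - x)) {La : ℝ} (hLa : 0 ≤ La)
    (lX : ∀ t t', ‖X t - X t'‖ ≤ La * ‖t - t'‖) (t t' : E) :
    ‖(X t - t) - (X t' - t')‖ ≤ (La + 1) * (2 * ∑ i, ‖b i‖) := by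
  have h1 : ∀ s, X s - s = X (ZSpan.fract b s) - ZSpan.fract b s := fun s => (pX.fract s).symm
  rw [h1 t, h1 t']
  set s := ZSpan.fract b t
  set s' := ZSpan.fract b t'
  have h2 : ‖s‖ ≤ ∑ i, ‖b i‖ := ZSpan.norm_fract_le b t
  have h3 : ‖s'‖ ≤ ∑ i, ‖b i‖ := ZSpan.norm_fract_le b t'
  have h4 : ‖s - s'‖ ≤ 2 * ∑ i, ‖b i‖ := (norm_sub_le _ _).trans (by linarith)
  have e : (X s - s) - (X s' - s') = (X s - X s') - (s - s') := by abel
  rw [e]
  calc ‖(X s - X s') - (s - s')‖ ≤ ‖X s - X s'‖ + ‖s - s'‖ := norm_sub_le _ _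
    _ ≤ La * ‖s - s'‖ + ‖s - s'‖ := by
        have := lX s s'
        linarith
    _ = (La + 1) * ‖s - s'‖ := by ring
    _ ≤ (La + 1) * (2 * ∑ i, ‖b i‖) := by gcongr

/-- the Hamilton-Jacobi equation differentiated -/
theorem kd_hj [CompleteSpace E] (hH : ContDiff ℝ 2 H) {φ : E → ℝ} (hφ : ContDiff ℝ 2 φ) {c : E} {a : ℝ}
    {P : E → E} (hP : ∀ x v, inner ℝ (P x) v = inner ℝ c v + fderiv ℝ φ x v) (ha : ∀ x, H (x, P x) = a) :
    ContDiff ℝ 1 P ∧ ∀ y, vg_G H (ContinuousLinearMap.inl ℝ E E) (y, P y) =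
      - fderiv ℝ P y (vg_G H (ContinuousLinearMap.inr ℝ E E) (y, P y)) := by
  set G1 := vg_G H (ContinuousLinearMap.inl ℝ E E) with hG1
  set G2 := vg_G H (ContinuousLinearMap.inr ℝ E E) with hG2
  have hPe : P = fun x => c + (InnerProductSpace.toDual ℝ E).symm (fderiv ℝ φ x) := by
    funext y
    refine ext_inner_right ℝ fun v => ?_
    rw [hP, inner_add_left, InnerProductSpace.toDual_symm_apply]
  have hfd : ContDiff ℝ 1 (fderiv ℝ φ) := hφ.fderiv_right (by norm_num)
  have dP : ContDiff ℝ 1 P := by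
    rw [hPe]
    exact contDiff_const.add
      ((InnerProductSpace.toDual ℝ E).symm.toContinuousLinearEquiv.contDiff.comp hfd)
  have hPd : ∀ y, HasFDerivAt P (fderiv ℝ P y) y := fun y =>
    (dP.differentiable one_ne_zero y).hasFDerivAt
  have hQ : ∀ y v w, inner ℝ (fderiv ℝ P y v) w = fderiv ℝ (fderiv ℝ φ) y v w := by
    intro y v w
    have e1 : HasFDerivAt (fun y => inner ℝ (P y) w)
        ((innerSL ℝ w).comp (fderiv ℝ P y)) y := by
      have := (innerSL ℝ w).hasFDerivAt.comp y (hPd y)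
      refine this.congr_of_eventuallyEq (Eventually.of_forall fun y' => ?_)
      simp only [Function.comp_apply, innerSL_apply_apply]
      exact real_inner_comm _ _
    have e2 : HasFDerivAt (fun y => inner ℝ (P y) w)
        ((ContinuousLinearMap.apply ℝ ℝ w).comp (fderiv ℝ (fderiv ℝ φ) y)) y := by
      have h1 := (hfd.differentiable one_ne_zero y).hasFDerivAt
      have h2 := ((ContinuousLinearMap.apply ℝ ℝ w).hasFDerivAt.comp y h1).const_add (inner ℝ c w)
      refine h2.congr_of_eventuallyEq (Eventually.of_forall fun y' => ?_)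
      simp only [hP, Function.comp_apply, ContinuousLinearMap.apply_apply]
    have e3 := congrArg (fun L : E →L[ℝ] ℝ => L v) (e1.unique e2)
    simp only [ContinuousLinearMap.comp_apply, innerSL_apply_apply,
      ContinuousLinearMap.apply_apply] at e3
    rw [← e3]
    exact real_inner_comm _ _
  have hsym : ∀ y v w, inner ℝ (fderiv ℝ P y v) w = inner ℝ v (fderiv ℝ P y w) := by
    intro y v w
    rw [hQ, ← real_inner_comm, hQ]
    have := (hφ.contDiffAt (x := y)).isSymmSndFDerivAt (by simp)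
    exact this v w
  refine ⟨dP, fun y => ?_⟩
  refine ext_inner_right ℝ fun v => ?_
  rw [inner_neg_left, hsym, hG1, hG2, vg_G_inner, vg_G_inner]
  have e1 : HasFDerivAt H (fderiv ℝ H (y, P y)) (y, P y) :=
    (hH.differentiable (by norm_num) _).hasFDerivAt
  have e2 : HasFDerivAt (fun y => (y, P y)) ((ContinuousLinearMap.id ℝ E).prod (fderiv ℝ P y)) y :=
    (hasFDerivAt_id y).prodMk (hPd y)
  have e3 := e1.comp y e2
  have e4 : HasFDerivAt (fun y => H (y, P y)) (0 : E →L[ℝ] ℝ) y := by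
    have : (fun y => H (y, P y)) = fun _ => a := funext ha
    rw [this]
    exact hasFDerivAt_const a y
  have e5 := congrArg (fun L : E →L[ℝ] ℝ => L v) (e3.unique e4)
  simp only [ContinuousLinearMap.comp_apply, ContinuousLinearMap.prod_apply,
    ContinuousLinearMap.id_apply, _root_.zero_apply] at e5
  have e6 : ((v, fderiv ℝ P y v) : E × E) = (ContinuousLinearMap.inl ℝ E E) v +
      (ContinuousLinearMap.inr ℝ E E) (fderiv ℝ P y v) := by
    simp
  rw [e6, map_add] at e5
  linarith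

/-- the Hamiltonian vector field -/
noncomputable def kd_v [CompleteSpace E] (H : E × E → ℝ) (z : E × E) : E × E :=
  (vg_G H (ContinuousLinearMap.inr ℝ E E) z, - vg_G H (ContinuousLinearMap.inl ℝ E E) z)

theorem kd_v_diff [CompleteSpace E] (hH : ContDiff ℝ 2 H) : ContDiff ℝ 1 (kd_v H) :=
  (vg_G_diff hH _).prodMk (vg_G_diff hH _).neg

theorem kd_curve [CompleteSpace E] (hH2 : ContDiff ℝ 2 H)
    (hHp : ∀ x p, Hp (x, p) = gradient (fun q => H (x, q)) p) {w c : E} {P : E → E}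
    (h : FSol b H Hp w c P) (x₀ : E) :
    ∃ A : ℝ, 0 ≤ A ∧ ∀ δ : ℝ, 0 < δ → ∃ u u' : ℝ → E × E, u 0 = (x₀, P x₀) ∧ (∀ τ, HasDerivAt u (u' τ) τ) ∧
      (∀ τ, ‖u' τ - kd_v H (u τ)‖ ≤ A * δ) ∧ (∀ τ, ‖(u τ).1 - x₀‖ ≤ A * |τ|) ∧ (∀ τ, ‖(u τ).2‖ ≤ A) ∧
      ∀ τ : ℝ, ‖(u τ).1 - x₀ - τ • w‖ ≤ A := by
  obtain ⟨φ, hφ, pφ, hP⟩ := h.grad
  obtain ⟨a, ha⟩ := h.hj
  obtain ⟨La, hLa, hc⟩ := h.conj
  obtain ⟨dP, hHJ⟩ := kd_hj hH2 hφ hP ha
  have pP : Per b P := by
    intro i x
    refine ext_inner_right ℝ fun v => ?_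
    rw [hP, hP, pφ.fderiv i x]
  have pDP : Per b (fderiv ℝ P) := by
    intro i x
    have h1 : (fun y => P (y + b i)) = P := funext fun y => pP i y
    have h2 := fderiv_comp_add_right (𝕜 := ℝ) (f := P) (x := x) (b i)
    rw [h1] at h2
    exact h2.symm
  obtain ⟨C1, hC1, hC1'⟩ := pP.bdd dP.continuous
  obtain ⟨C2, hC2, hC2'⟩ := pDP.bdd (dP.continuous_fderiv one_ne_zero)
  set D : ℝ := ∑ i, ‖b i‖ with hD
  have hD0 : 0 ≤ D := Finset.sum_nonneg fun i _ => norm_nonneg _
  set A : ℝ := C1 + (C2 + 1) + La * ‖w‖ + (La + 1) * (2 * D) with hA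
  have hw0 := norm_nonneg w
  have t1 : 0 ≤ La * ‖w‖ := by positivity
  have t2 : 0 ≤ (La + 1) * (2 * D) := by positivity
  refine ⟨A, by positivity, fun δ hδ => ?_⟩
  obtain ⟨X, dX, pX, sX, lX, aX⟩ := hc δ hδ
  obtain ⟨t₀, ht₀⟩ := sX x₀
  set y : ℝ → E := fun τ => X (t₀ + τ • w) with hy
  have hyd : ∀ τ, HasDerivAt y (fderiv ℝ X (t₀ + τ • w) w) τ := by
    intro τ
    have e1 : HasDerivAt (fun τ : ℝ => t₀ + τ • w) w τ := by
      have := ((hasDerivAt_id τ).smul_const w).const_add t₀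
      simpa using this
    exact (dX.differentiable one_ne_zero _).hasFDerivAt.comp_hasDerivAt τ e1
  refine ⟨fun τ => (y τ, P (y τ)), fun τ => (fderiv ℝ X (t₀ + τ • w) w,
    fderiv ℝ P (y τ) (fderiv ℝ X (t₀ + τ • w) w)), ?_, ?_, ?_, ?_, ?_, ?_⟩
  · simp only [hy, zero_smul, add_zero, ht₀]
  · intro τ
    exact (hyd τ).prodMk ((dP.differentiable one_ne_zero _).hasFDerivAt.comp_hasDerivAt τ (hyd τ))
  · intro τ
    have e1 := aX (t₀ + τ • w)
    have e2 : Hp (X (t₀ + τ • w), P (X (t₀ + τ • w))) =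
        vg_G H (ContinuousLinearMap.inr ℝ E E) (y τ, P (y τ)) := by
      rw [hHp, vg_grad_snd hH2]
    rw [e2] at e1
    have e3 : (fderiv ℝ X (t₀ + τ • w) w, fderiv ℝ P (y τ) (fderiv ℝ X (t₀ + τ • w) w)) -
        kd_v H (y τ, P (y τ)) = (fderiv ℝ X (t₀ + τ • w) w - vg_G H (ContinuousLinearMap.inr ℝ E E) (y τ, P (y τ)),
        fderiv ℝ P (y τ) (fderiv ℝ X (t₀ + τ • w) w - vg_G H (ContinuousLinearMap.inr ℝ E E) (y τ, P (y τ)))) := by
      unfold kd_v
      rw [Prod.mk_sub_mk, hHJ, map_sub, neg_neg]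
    rw [e3, Prod.norm_mk]
    refine max_le ?_ ?_
    · refine e1.trans ?_
      have : 1 ≤ A := by
        rw [hA]
        linarith
      nlinarith
    · refine ((fderiv ℝ P (y τ)).le_opNorm _).trans ?_
      have h1 := hC2' (y τ)
      calc ‖fderiv ℝ P (y τ)‖ * ‖fderiv ℝ X (t₀ + τ • w) w - vg_G H (ContinuousLinearMap.inr ℝ E E) (y τ, P (y τ))‖
          ≤ C2 * δ := mul_le_mul h1 e1 (norm_nonneg _) hC2
        _ ≤ A * δ := by
          have : C2 ≤ A := by
            rw [hA]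
            linarith
          gcongr
  · intro τ
    have h1 := lX (t₀ + τ • w) t₀
    rw [ht₀, add_sub_cancel_left, norm_smul, Real.norm_eq_abs] at h1
    refine h1.trans ?_
    have h2 : La * ‖w‖ ≤ A := by
      rw [hA]
      linarith
    calc La * (|τ| * ‖w‖) = (La * ‖w‖) * |τ| := by ring
      _ ≤ A * |τ| := mul_le_mul_of_nonneg_right h2 (abs_nonneg τ)
  · intro τ
    refine (hC1' _).trans ?_
    rw [hA]
    linarith
  · intro τ
    have h1 := kd_dev pX hLa.le lX (t₀ + τ • w) t₀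
    rw [ht₀] at h1
    have e : (X (t₀ + τ • w) - (t₀ + τ • w)) - (x₀ - t₀) = X (t₀ + τ • w) - x₀ - τ • w := by abel
    rw [e] at h1
    refine h1.trans ?_
    rw [hA]
    linarith

theorem FSol.freq_eq [CompleteSpace E] (hH2 : ContDiff ℝ 2 H) (hper : ∀ p, Per b (fun x => H (x, p)))
    (hHp : ∀ x p, Hp (x, p) = gradient (fun q => H (x, q)) p) {w w' c c' : E} {P P' : E → E}
    (h : FSol b H Hp w c P) (h' : FSol b H Hp w' c' P') {x₀ : E} (h0 : P x₀ = P' x₀) : w = w' := by
  haveI : ProperSpace E := FiniteDimensional.proper ℝ E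
  obtain ⟨A, hA, hcur⟩ := kd_curve hH2 hHp h x₀
  obtain ⟨A', hA', hcur'⟩ := kd_curve hH2 hHp h' x₀
  have key : ∀ T : ℝ, 0 < T → T * ‖w - w'‖ ≤ A + A' := by
    intro T hT
    set R : ℝ := ‖x₀‖ + (A + A') * T + (A + A') with hR
    set S : Set (E × E) := Metric.closedBall (0 : E) R ×ˢ Metric.closedBall (0 : E) R with hS
    have hK : IsCompact S := (isCompact_closedBall _ _).prod (isCompact_closedBall _ _)
    have hconv : Convex ℝ S := (convex_closedBall _ _).prod (convex_closedBall _ _)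
    have dv := kd_v_diff (H := H) hH2
    obtain ⟨C, hC⟩ := hK.exists_bound_of_continuousOn (dv.continuous_fderiv one_ne_zero).continuousOn
    set K : NNReal := ⟨max C 1, le_max_of_le_right zero_le_one⟩ with hKd
    have hKpos : (0 : ℝ) < K := lt_of_lt_of_le one_pos (le_max_right C 1)
    have hlip : LipschitzOnWith K (kd_v H) S :=
      hconv.lipschitzOnWith_of_nnnorm_fderiv_le (𝕜 := ℝ) (fun z _ => dv.differentiable one_ne_zero z)
        (fun z hz => by
          have := hC z hz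
          rw [← NNReal.coe_le_coe, coe_nnnorm]
          exact this.trans (le_max_left C 1))
    have hin : ∀ {A₁ : ℝ}, 0 ≤ A₁ → A₁ ≤ A + A' → ∀ u : ℝ → E × E, (∀ τ, ‖(u τ).1 - x₀‖ ≤ A₁ * |τ|) →
        (∀ τ, ‖(u τ).2‖ ≤ A₁) → ∀ t ∈ Ico (0 : ℝ) T, u t ∈ S := by
      intro A₁ hA₁ hA₁' u hu1 hu2 t ht
      have h1 : ‖(u t).1‖ ≤ R := by
        have e : (u t).1 = ((u t).1 - x₀) + x₀ := by abel
        rw [e]
        refine (norm_add_le _ _).trans ?_
        have h2 := hu1 t
        rw [abs_of_nonneg ht.1] at h2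
        have h3 : A₁ * t ≤ (A + A') * T := mul_le_mul hA₁' ht.2.le ht.1 (by linarith)
        rw [hR]
        linarith
      have h2 : ‖(u t).2‖ ≤ R := by
        have h3 := hu2 t
        have h4 : 0 ≤ (A + A') * T := by positivity
        have h5 := norm_nonneg x₀
        rw [hR]
        linarith
      exact ⟨mem_closedBall_zero_iff.2 h1, mem_closedBall_zero_iff.2 h2⟩
    have hall : ∀ δ : ℝ, 0 < δ → T * ‖w - w'‖ ≤ A + A' + ((A + A') / K * (Real.exp (K * T) - 1)) * δ := by
      intro δ hδ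
      obtain ⟨u, u', a1, a2, a3, a4, a5, a6⟩ := hcur δ hδ
      obtain ⟨v, v', b1, b2, b3, b4, b5, b6⟩ := hcur' δ hδ
      have hg := dist_le_of_approx_trajectories_ODE_of_mem (v := fun _ => kd_v H) (s := fun _ => S) (K := K)
        (f := u) (g := v) (f' := u') (g' := v') (a := 0) (b := T) (εf := A * δ) (εg := A' * δ) (δ := 0)
        (fun t _ => hlip) (fun t _ => (a2 t).continuousAt.continuousWithinAt)
        (fun t _ => (a2 t).hasDerivWithinAt) (fun t _ => by rw [dist_eq_norm]; exact a3 t)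
        (fun t ht => hin hA (by linarith) u a4 a5 t ht)
        (fun t _ => (b2 t).continuousAt.continuousWithinAt)
        (fun t _ => (b2 t).hasDerivWithinAt) (fun t _ => by rw [dist_eq_norm]; exact b3 t)
        (fun t ht => hin hA' (by linarith) v b4 b5 t ht)
        (by rw [a1, b1, h0, dist_self]) T ⟨hT.le, le_rfl⟩
      rw [sub_zero, gronwallBound_of_K_ne_0 hKpos.ne'] at hg
      simp only [zero_mul, zero_add] at hg
      have h1 : ‖(u T).1 - (v T).1‖ ≤ (A * δ + A' * δ) / K * (Real.exp (K * T) - 1) := by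
        refine le_trans ?_ hg
        rw [dist_eq_norm]
        exact norm_fst_le (u T - v T)
      have h2 : T • (w - w') = ((v T).1 - x₀ - T • w') - ((u T).1 - x₀ - T • w) + ((u T).1 - (v T).1) := by
        rw [smul_sub]
        abel
      have h3 : ‖T • (w - w')‖ = T * ‖w - w'‖ := by
        rw [norm_smul, Real.norm_eq_abs, abs_of_pos hT]
      rw [← h3, h2]
      refine (norm_add_le _ _).trans ?_
      have h4 := norm_sub_le ((v T).1 - x₀ - T • w') ((u T).1 - x₀ - T • w)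
      have h5 := a6 T
      have h6 := b6 T
      have h7 : (A * δ + A' * δ) / K * (Real.exp (K * T) - 1) = ((A + A') / K * (Real.exp (K * T) - 1)) * δ := by
        ring
      rw [h7] at h1
      linarith
    set Z : ℝ := (A + A') / K * (Real.exp (K * T) - 1) with hZ
    have hlim : Filter.Tendsto (fun δ : ℝ => A + A' + Z * δ) (𝓝[>] 0) (𝓝 (A + A' + Z * 0)) := by
      have : Continuous fun δ : ℝ => A + A' + Z * δ := by fun_prop
      exact (this.tendsto 0).mono_left nhdsWithin_le_nhds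
    rw [mul_zero, add_zero] at hlim
    refine ge_of_tendsto hlim ?_
    filter_upwards [self_mem_nhdsWithin] with δ hδ
    exact hall δ hδ
  by_contra hne
  have hpos : 0 < ‖w - w'‖ := norm_pos_iff.2 (sub_ne_zero.2 hne)
  have h1 := key ((A + A' + 1) / ‖w - w'‖) (by positivity)
  rw [div_mul_cancel₀ _ hpos.ne'] at h1
  linarith

end Pool.Agent.LRW
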