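import Pool.Agent.LRT.VDe2

/-!
# LRW/KDefs: Hamiltonians with `1/(2 La) ≤ H_pp ≤ 2 La`   (helper45)
-/

set_option autoImplicit false

open MeasureTheory Module Set Filter Topology

namespace Pool.Agent.LRW

open Pool.H45.Mather Pool.Agent.LRT

noncomputable section

variable {n : ℕ} {E : Type*} [NormedAddCommGroup E] [InnerProductSpace ℝ E]

/-- Hamiltonians which are uniformly convex in `p` with constant `La`; `Hp` is the gradient with respect to `p` -/
structure HamK (La : ℝ) (b : Basis (Fin n) ℝ E) (H : E × E → ℝ) (Hp : E × E → E) : Prop where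
  cont : Continuous H
  contp : Continuous Hp
  per : ∀ p, Per b (fun x => H (x, p))
  low : ∀ x p q, H (x, p) + inner ℝ (Hp (x, p)) q + ‖q‖ ^ 2 / (4 * La) ≤ H (x, p + q)
  up : ∀ x p q, H (x, p + q) ≤ H (x, p) + inner ℝ (Hp (x, p)) q + La * ‖q‖ ^ 2

theorem _root_.Pool.Agent.LRT.HamC.hamK {b : Basis (Fin n) ℝ E} {H : E × E → ℝ} {Hp : E × E → E} (h : HamC b H Hp) :
    HamK 1 b H Hp :=
  ⟨h.cont, h.contp, h.per, fun x p q => by rw [mul_one]; exact h.low x p q,
    fun x p q => by rw [one_mul]; exact h.up x p q⟩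

end

end Pool.Agent.LRW
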