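import Pool.Agent.LRW.PD

/-!
Output of the local theorem: families of invariant tori for the (true) frequencies `‖w - w0‖ < r`, (true) momenta near `p0`.
-/

set_option autoImplicit false

open Set MeasureTheory Topology

namespace Pool.Agent.LRW

open Pool.Agent.LRT

/-- smooth solutions `u w` of `H (x, c w + ∇ (u w)) = a w` for all frequencies `‖w - w0‖ < r`, with
approximate conjugacies of the velocity to the constant field `w` -/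
structure LocalSol {n : ℕ} [Par n] (p0 w0 : RE n) (Ht : RE n × RE n → ℝ) (Hpt : RE n × RE n → RE n)
    (r : ℝ) (c : RE n → RE n) (a : RE n → ℝ) (u : RE n → RE n → ℝ) (P : RE n → RE n → RE n) : Prop where
  smooth : ∀ w, ‖w - w0‖ < r → ContDiff ℝ 2 (u w)
  per : ∀ w, ‖w - w0‖ < r → ∀ (x : RE n) (k : Fin n → ℤ), u w (x + lat k) = u w x
  grad : ∀ w, ‖w - w0‖ < r → ∀ x v, inner ℝ (P w x) v = inner ℝ (c w) v + fderiv ℝ (u w) x v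
  hj : ∀ w, ‖w - w0‖ < r → ∀ x, Ht (x, P w x) = a w
  lipP : ∀ w w', ‖w - w0‖ < r → ‖w' - w0‖ < r → ∀ x x',
    ‖(P w x - w) - (P w' x' - w')‖ ≤ 1 / 20 * (‖x - x'‖ + ‖w - w'‖)
  bdP : ∀ w, ‖w - w0‖ < r → ∀ x, ‖(P w x - p0) - (w - w0)‖ ≤ 1 / 20
  lipc : ∀ w w', ‖w - w0‖ < r → ‖w' - w0‖ < r → ‖(c w - w) - (c w' - w')‖ ≤ 1 / 20 * ‖w - w'‖
  bdc : ∀ w, ‖w - w0‖ < r → ‖(c w - p0) - (w - w0)‖ ≤ 1 / 20
  conj : ∀ w, ‖w - w0‖ < r → ∀ δ : ℝ, 0 < δ → ∃ X : RE n → RE n, ContDiff ℝ 1 X ∧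
    (∀ x (k : Fin n → ℤ), X (x + lat k) = X x + lat k) ∧ Function.Surjective X ∧
    (∀ t, ‖fderiv ℝ X t‖ ≤ 2) ∧ ∀ t, ‖fderiv ℝ X t w - Hpt (X t, P w (X t))‖ ≤ δ

end Pool.Agent.LRW
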