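import Pool.Agent.LRW.KS
import Pool.Agent.LRW.LS
import Pool.Agent.LRW.BD
import Pool.Agent.LRT.VK

/-!
# LRW/KF: families of solutions in the original coordinates   (helper45)
-/

set_option autoImplicit false
set_option linter.style.haveILetI false

open MeasureTheory Module Set Filter Topology

namespace Pool.Agent.LRW

open Pool.H45.Mather Pool.Agent.LRT

noncomputable section

set_option linter.unusedSectionVars false

section
variable {n : ℕ} {E : Type*} [NormedAddCommGroup E] [InnerProductSpace ℝ E] [FiniteDimensional ℝ E]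
  [CompleteSpace E] {b b' : Basis (Fin n) ℝ E}

variable {H : E × E → ℝ} {Hp : E × E → E}

theorem FSol.af {T : E ≃L[ℝ] E} (hb : ∀ i, b' i = T (b i)) {l μ : ℝ} (hl : 0 < l) (hμ : 0 < μ) {p0 : E}
    {w' c' : E} {P' : E → E} (h : FSol b' (Haf T l μ p0 H) (Hpaf T l μ p0 Hp) w' c' P') :
    FSol b H Hp ((μ / l) • T.symm w') (p0 + l • adjT T c') (fun x => p0 + l • adjT T (P' (T x))) := by
  have hμl : 0 < μ / l := by positivity
  refine ⟨?_, ?_, ?_⟩
  · obtain ⟨φ, a1, a2, a3⟩ := h.grad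
    have dφ : ContDiff ℝ 2 (fun x => φ (T x)) := a1.comp T.contDiff
    refine ⟨fun x => l * φ (T x), contDiff_const.mul dφ, (ks_per' hb a2).comp (fun t => l * t), fun x v => ?_⟩
    have h1 : HasFDerivAt (fun x => φ (T x)) ((fderiv ℝ φ (T x)).comp (T : E →L[ℝ] E)) x :=
      (a1.differentiable (by norm_num) (T x)).hasFDerivAt.comp x T.hasFDerivAt
    have h2 : fderiv ℝ (fun x => l * φ (T x)) x = l • (fderiv ℝ φ (T x)).comp (T : E →L[ℝ] E) :=
      (h1.const_mul l).fderiv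
    rw [h2, inner_add_left, inner_add_left, inner_smul_left, inner_smul_left, inner_adjT, inner_adjT, a3]
    simp only [conj_trivial, smul_apply, ContinuousLinearMap.comp_apply, smul_eq_mul,
      ContinuousLinearEquiv.coe_coe]
    ring
  · obtain ⟨a, ha⟩ := h.hj
    refine ⟨a * μ, fun x => ?_⟩
    have h1 := ha (T x)
    simp only [Haf, ContinuousLinearEquiv.symm_apply_apply] at h1
    rw [div_eq_iff hμ.ne'] at h1
    exact h1
  · obtain ⟨La, hLa, hc⟩ := h.conj
    set A : ℝ := ‖(T.symm : E →L[ℝ] E)‖ with hA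
    have hA0 : 0 ≤ A := norm_nonneg _
    set B : ℝ := ‖(T : E →L[ℝ] E)‖ with hB
    have hB0 : 0 ≤ B := norm_nonneg _
    refine ⟨A * (La * B) + 1, by positivity, fun δ hδ => ?_⟩
    obtain ⟨X, b1, b2, b3, b4, b5⟩ := hc (δ / ((μ / l) * A + 1)) (by positivity)
    refine ⟨fun t => T.symm (X (T t)), T.symm.contDiff.comp (b1.comp T.contDiff), ?_, ?_, fun t t' => ?_, fun t => ?_⟩
    · have h1 := (ks_per' hb b2).comp (fun z => T.symm z)
      have e : (fun x => T.symm (X (T x)) - x) = fun x => T.symm (X (T x) - T x) := by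
        funext x
        rw [map_sub, ContinuousLinearEquiv.symm_apply_apply]
      rw [e]
      exact h1
    · intro y
      obtain ⟨t, ht⟩ := b3 (T y)
      refine ⟨T.symm t, ?_⟩
      simp only []
      rw [ContinuousLinearEquiv.apply_symm_apply, ht, ContinuousLinearEquiv.symm_apply_apply]
    · rw [← map_sub]
      refine ((T.symm : E →L[ℝ] E).le_opNorm _).trans ?_
      have h1 := b4 (T t) (T t')
      have h2 : ‖T t - T t'‖ ≤ B * ‖t - t'‖ := by
        rw [← map_sub]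
        exact (T : E →L[ℝ] E).le_opNorm _
      have h3 : ‖X (T t) - X (T t')‖ ≤ La * (B * ‖t - t'‖) := h1.trans (mul_le_mul_of_nonneg_left h2 hLa.le)
      calc A * ‖X (T t) - X (T t')‖ ≤ A * (La * (B * ‖t - t'‖)) := mul_le_mul_of_nonneg_left h3 hA0
        _ ≤ (A * (La * B) + 1) * ‖t - t'‖ := by nlinarith [norm_nonneg (t - t')]
    · have h1 : HasFDerivAt (fun t => T.symm (X (T t))) ((T.symm : E →L[ℝ] E).comp
          ((fderiv ℝ X (T t)).comp (T : E →L[ℝ] E))) t :=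
        T.symm.hasFDerivAt.comp t ((b1.differentiable one_ne_zero (T t)).hasFDerivAt.comp t T.hasFDerivAt)
      rw [h1.fderiv]
      have h2 := b5 (T t)
      have e1 : ((T.symm : E →L[ℝ] E).comp ((fderiv ℝ X (T t)).comp (T : E →L[ℝ] E))) ((μ / l) • T.symm w') =
          (μ / l) • T.symm (fderiv ℝ X (T t) w') := by
        simp only [ContinuousLinearMap.comp_apply, ContinuousLinearEquiv.coe_coe]
        rw [map_smul, map_smul, map_smul, ContinuousLinearEquiv.apply_symm_apply]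
      have e2 : Hp (T.symm (X (T t)), p0 + l • adjT T (P' (T (T.symm (X (T t)))))) =
          (μ / l) • T.symm (Hpaf T l μ p0 Hp (X (T t), P' (X (T t)))) := by
        simp only [Hpaf]
        rw [ContinuousLinearEquiv.apply_symm_apply, map_smul, ContinuousLinearEquiv.symm_apply_apply, smul_smul]
        have : μ / l * (l / μ) = 1 := by field_simp
        rw [this, one_smul]
      rw [e1, e2, ← smul_sub, ← map_sub, norm_smul, Real.norm_eq_abs, abs_of_pos hμl]
      have h3 : ‖T.symm (fderiv ℝ X (T t) w' - Hpaf T l μ p0 Hp (X (T t), P' (X (T t))))‖ ≤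
          A * (δ / ((μ / l) * A + 1)) :=
        ((T.symm : E →L[ℝ] E).le_opNorm _).trans (mul_le_mul_of_nonneg_left h2 hA0)
      calc _ ≤ (μ / l) * (A * (δ / ((μ / l) * A + 1))) := mul_le_mul_of_nonneg_left h3 hμl.le
        _ = ((μ / l) * A) * δ / ((μ / l) * A + 1) := by ring
        _ ≤ δ := by
          rw [div_le_iff₀ (by positivity)]
          nlinarith

end

section
variable {n : ℕ} [Par n] {Ht : RE n × RE n → ℝ} {Hpt : RE n × RE n → RE n}

lemma bsT_apply (i : Fin n) : bsT n i = (Par.T : RE n ≃L[ℝ] RE n) (bs n i) := by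
  unfold bsT
  rw [Basis.map_apply]
  rfl

lemma LocalSol.fsol {q0 w0 : RE n} {c : RE n → RE n} {a : RE n → ℝ} {u : RE n → RE n → ℝ}
    {P : RE n → RE n → RE n} (h : LocalSol q0 w0 Ht Hpt 1 c a u P) {w : RE n} (hw : ‖w - w0‖ < 1) :
    FSol (bsT n) Ht Hpt w (c w) (P w) := by
  have hper : ∀ {α : Type} {F : RE n → α}, (∀ x (k : Fin n → ℤ), F (x + lat k) = F x) → Per (bsT n) F := by
    intro α F hF i x
    rw [bsT_apply, bs_apply]
    exact hF x _
  refine ⟨⟨u w, h.smooth w hw, hper (h.per w hw), h.grad w hw⟩, ⟨a w, h.hj w hw⟩, 2, by norm_num, fun δ hδ => ?_⟩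
  obtain ⟨X, h1, h2, h3, h4, h5⟩ := h.conj w hw δ hδ
  refine ⟨X, h1, hper fun x k => ?_, h3, fun t t' => ?_, h5⟩
  · rw [h2]
    abel
  · exact Convex.norm_image_sub_le_of_norm_fderiv_le (𝕜 := ℝ) (s := univ)
      (fun x _ => h1.differentiable one_ne_zero x) (fun x _ => h4 x) convex_univ (mem_univ _) (mem_univ _)

/-- local families in the original coordinates; `K = 2 (l²/μ) ‖T‖ ‖T^*‖`, `m = (19/20) (l²/μ) / (‖T⁻¹‖ + 1)²` -/
theorem LocalSol.fam {H : RE n × RE n → ℝ} {Hp : RE n × RE n → RE n} {l μ : ℝ} (hl : 0 < l) (hμ : 0 < μ)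
    {p0 q0 w0 : RE n} {c : RE n → RE n} {a : RE n → ℝ} {u : RE n → RE n → ℝ}
    {P : RE n → RE n → RE n} (h : LocalSol q0 w0 (Haf Par.T l μ p0 H) (Hpaf Par.T l μ p0 Hp) 1 c a u P)
    {w₀ : RE n} (hw₀ : ‖(l / μ) • (Par.T : RE n ≃L[ℝ] RE n) w₀ - w0‖ < 1) :
    FFam (bs n) H Hp w₀
      (19 / 20 * (l ^ 2 / μ) / (‖((Par.T : RE n ≃L[ℝ] RE n).symm : RE n →L[ℝ] RE n)‖ + 1) ^ 2)
      (2 * (l ^ 2 / μ) * (‖((Par.T : RE n ≃L[ℝ] RE n) : RE n →L[ℝ] RE n)‖ * ‖adjT (Par.T : RE n ≃L[ℝ] RE n)‖))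
      ((1 - ‖(l / μ) • (Par.T : RE n ≃L[ℝ] RE n) w₀ - w0‖) /
        ((l / μ) * ‖((Par.T : RE n ≃L[ℝ] RE n) : RE n →L[ℝ] RE n)‖ + 1))
      (fun w => p0 + l • adjT Par.T (c ((l / μ) • (Par.T : RE n ≃L[ℝ] RE n) w)))
      (fun w x => p0 + l • adjT Par.T (P ((l / μ) • (Par.T : RE n ≃L[ℝ] RE n) w) ((Par.T : RE n ≃L[ℝ] RE n) x))) := by
  set T : RE n ≃L[ℝ] RE n := Par.T with hT
  set A : ℝ := ‖(T.symm : RE n →L[ℝ] RE n)‖ with hA
  have hA0 : 0 ≤ A := norm_nonneg _
  set B : ℝ := ‖(T : RE n →L[ℝ] RE n)‖ with hB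
  have hB0 : 0 ≤ B := norm_nonneg _
  set C : ℝ := ‖adjT T‖ with hC
  have hC0 : 0 ≤ C := norm_nonneg _
  have hν : 0 < l / μ := by positivity
  have hTn : ∀ v, ‖T v‖ ≤ B * ‖v‖ := fun v => (T : RE n →L[ℝ] RE n).le_opNorm v
  have hSn : ∀ v, ‖adjT T v‖ ≤ C * ‖v‖ := fun v => (adjT T).le_opNorm v
  have hTi : ∀ v, ‖v‖ ≤ (A + 1) * ‖T v‖ := fun v => by
    have h1 := (T.symm : RE n →L[ℝ] RE n).le_opNorm (T v)
    rw [ContinuousLinearEquiv.coe_coe, ContinuousLinearEquiv.symm_apply_apply] at h1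
    have h2 := norm_nonneg (T v)
    linarith
  have hν' : ∀ w w' : RE n, (l / μ) • T w - (l / μ) • T w' = (l / μ) • T (w - w') := fun w w' => by
    rw [map_sub, smul_sub]
  set r : ℝ := (1 - ‖(l / μ) • T w₀ - w0‖) / ((l / μ) * B + 1) with hr
  have hr0 : 0 < r := div_pos (by linarith) (by positivity)
  have hin : ∀ w, ‖w - w₀‖ < r → ‖(l / μ) • T w - w0‖ < 1 := by
    intro w hw
    have e : (l / μ) • T w - w0 = (l / μ) • T (w - w₀) + ((l / μ) • T w₀ - w0) := by
      rw [← hν']; abel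
    rw [e]
    have h1 : ‖(l / μ) • T (w - w₀)‖ ≤ ((l / μ) * B) * ‖w - w₀‖ := by
      rw [norm_smul, Real.norm_eq_abs, abs_of_pos hν, mul_assoc]
      exact mul_le_mul_of_nonneg_left (hTn _) hν.le
    have h2 : ((l / μ) * B + 1) * ‖w - w₀‖ < 1 - ‖(l / μ) • T w₀ - w0‖ := by
      rw [hr, lt_div_iff₀ (by positivity)] at hw
      linarith
    have h3 := norm_nonneg (w - w₀)
    calc _ ≤ ‖(l / μ) • T (w - w₀)‖ + ‖(l / μ) • T w₀ - w0‖ := norm_add_le _ _
      _ < 1 := by linarith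
  -- the basic estimates
  have e1 : ∀ w, ‖w - w₀‖ < r → ∀ w', ‖w' - w₀‖ < r → ∀ x x',
      ‖P ((l / μ) • T w) (T x) - P ((l / μ) • T w') (T x')‖ ≤ 21 / 20 * ((l / μ) * (B * ‖w - w'‖)) +
        1 / 20 * (B * ‖x - x'‖) := by
    intro w hw w' hw' x x'
    have h1 := h.lipP _ _ (hin w hw) (hin w' hw') (T x) (T x')
    rw [hν', ← map_sub] at h1
    have h2 : ‖(l / μ) • T (w - w')‖ ≤ (l / μ) * (B * ‖w - w'‖) := by
      rw [norm_smul, Real.norm_eq_abs, abs_of_pos hν]
      exact mul_le_mul_of_nonneg_left (hTn _) hν.le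
    have h3 := hTn (x - x')
    have e : P ((l / μ) • T w) (T x) - P ((l / μ) • T w') (T x') =
        ((P ((l / μ) • T w) (T x) - (l / μ) • T w) - (P ((l / μ) • T w') (T x') - (l / μ) • T w')) +
          (l / μ) • T (w - w') := by
      rw [← hν']; abel
    rw [e]
    refine (norm_add_le _ _).trans ?_
    linarith
  have e2 : ∀ w, ‖w - w₀‖ < r → ∀ w', ‖w' - w₀‖ < r →
      ‖c ((l / μ) • T w) - c ((l / μ) • T w')‖ ≤ 21 / 20 * ((l / μ) * (B * ‖w - w'‖)) := by
    intro w hw w' hw'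
    have h1 := h.lipc _ _ (hin w hw) (hin w' hw')
    rw [hν'] at h1
    have h2 : ‖(l / μ) • T (w - w')‖ ≤ (l / μ) * (B * ‖w - w'‖) := by
      rw [norm_smul, Real.norm_eq_abs, abs_of_pos hν]
      exact mul_le_mul_of_nonneg_left (hTn _) hν.le
    have e : c ((l / μ) • T w) - c ((l / μ) • T w') =
        ((c ((l / μ) • T w) - (l / μ) • T w) - (c ((l / μ) • T w') - (l / μ) • T w')) +
          (l / μ) • T (w - w') := by
      rw [← hν']; abel
    rw [e]
    refine (norm_add_le _ _).trans ?_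
    linarith
  -- monotonicity: general form
  have mono : ∀ (y : RE n) (a a' : RE n) (w w' : RE n), ‖(a - (l / μ) • T w) - (a' - (l / μ) • T w')‖ ≤
      1 / 20 * ‖(l / μ) • T (w - w')‖ →
      19 / 20 * (l ^ 2 / μ) / (A + 1) ^ 2 * ‖w - w'‖ ^ 2 ≤
        inner ℝ ((p0 + l • adjT T a) - (p0 + l • adjT T a')) (w - w') := by
    intro _ a a' w w' hh
    have e : (p0 + l • adjT T a) - (p0 + l • adjT T a') = l • adjT T (a - a') := by
      rw [map_sub, smul_sub]; abel
    rw [e, inner_smul_left, inner_adjT]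
    simp only [conj_trivial]
    set z := (l / μ) • T (w - w') with hz
    have e3 : T (w - w') = (μ / l) • z := by
      rw [hz, smul_smul]
      have : μ / l * (l / μ) = 1 := by field_simp
      rw [this, one_smul]
    have e4 : a - a' = z + ((a - (l / μ) • T w) - (a' - (l / μ) • T w')) := by
      rw [hz, ← hν']; abel
    have h1 : 19 / 20 * ‖z‖ ^ 2 ≤ inner ℝ (a - a') z := by
      rw [e4, inner_add_left, real_inner_self_eq_norm_sq]
      have h2 := (abs_le.1 (abs_real_inner_le_norm ((a - (l / μ) • T w) - (a' - (l / μ) • T w')) z)).1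
      have h3 := mul_le_mul_of_nonneg_right hh (norm_nonneg z)
      nlinarith
    rw [e3, inner_smul_right, ← mul_assoc]
    have e5 : l * (μ / l) = μ := by field_simp
    rw [e5]
    have h4 : ‖z‖ = (l / μ) * ‖T (w - w')‖ := by
      rw [hz, norm_smul, Real.norm_eq_abs, abs_of_pos hν]
    have h5 : 19 / 20 * (l ^ 2 / μ) / (A + 1) ^ 2 * ‖w - w'‖ ^ 2 ≤ μ * (19 / 20 * ‖z‖ ^ 2) := by
      rw [h4]
      have h6 : ‖w - w'‖ ^ 2 ≤ ((A + 1) * ‖T (w - w')‖) ^ 2 := pow_le_pow_left₀ (norm_nonneg _) (hTi _) 2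
      have h7 : 19 / 20 * (l ^ 2 / μ) / (A + 1) ^ 2 * ‖w - w'‖ ^ 2 ≤
          19 / 20 * (l ^ 2 / μ) / (A + 1) ^ 2 * ((A + 1) * ‖T (w - w')‖) ^ 2 :=
        mul_le_mul_of_nonneg_left h6 (by positivity)
      refine h7.trans (le_of_eq ?_)
      have hA1 : A + 1 ≠ 0 := by positivity
      field_simp
    exact h5.trans (mul_le_mul_of_nonneg_left h1 hμ.le)
  refine ⟨hr0, fun w hw => ?_, ⟨l * (C * (1 / 20 * B)), fun w hw x x' => ?_⟩, fun w w' hw hw' x => ?_,
    fun w w' hw hw' => ?_, fun w w' hw hw' x => ?_, fun w w' hw hw' => ?_⟩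
  · have h1 := (h.fsol (hin w hw)).af (b := bs n) (T := T) (fun i => bsT_apply i) hl hμ
    have e : (μ / l) • T.symm ((l / μ) • T w) = w := by
      rw [map_smul, ContinuousLinearEquiv.symm_apply_apply, smul_smul]
      have : μ / l * (l / μ) = 1 := by field_simp
      rw [this, one_smul]
    rw [e] at h1
    exact h1
  · have h1 := e1 w hw w hw x x'
    rw [sub_self, norm_zero] at h1
    have e : (p0 + l • adjT T (P ((l / μ) • T w) (T x))) - (p0 + l • adjT T (P ((l / μ) • T w) (T x'))) =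
        l • adjT T (P ((l / μ) • T w) (T x) - P ((l / μ) • T w) (T x')) := by
      rw [map_sub, smul_sub]; abel
    rw [e, norm_smul, Real.norm_eq_abs, abs_of_pos hl]
    have h2 := (hSn (P ((l / μ) • T w) (T x) - P ((l / μ) • T w) (T x'))).trans
      (mul_le_mul_of_nonneg_left h1 hC0)
    calc _ ≤ l * (C * (21 / 20 * ((l / μ) * (B * 0)) + 1 / 20 * (B * ‖x - x'‖))) :=
          mul_le_mul_of_nonneg_left h2 hl.le
      _ = _ := by ring
  · have h1 := e1 w hw w' hw' x x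
    rw [sub_self, norm_zero] at h1
    have e : (p0 + l • adjT T (P ((l / μ) • T w) (T x))) - (p0 + l • adjT T (P ((l / μ) • T w') (T x))) =
        l • adjT T (P ((l / μ) • T w) (T x) - P ((l / μ) • T w') (T x)) := by
      rw [map_sub, smul_sub]; abel
    rw [e, norm_smul, Real.norm_eq_abs, abs_of_pos hl]
    have h2 := (hSn (P ((l / μ) • T w) (T x) - P ((l / μ) • T w') (T x))).trans
      (mul_le_mul_of_nonneg_left h1 hC0)
    have h3 : 0 ≤ (l ^ 2 / μ) * (B * C) * ‖w - w'‖ := by positivity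
    calc _ ≤ l * (C * (21 / 20 * ((l / μ) * (B * ‖w - w'‖)) + 1 / 20 * (B * 0))) :=
          mul_le_mul_of_nonneg_left h2 hl.le
      _ = 21 / 20 * ((l ^ 2 / μ) * (B * C) * ‖w - w'‖) := by ring
      _ ≤ 2 * ((l ^ 2 / μ) * (B * C) * ‖w - w'‖) := by linarith
      _ = _ := by ring
  · have h1 := e2 w hw w' hw'
    have e : (p0 + l • adjT T (c ((l / μ) • T w))) - (p0 + l • adjT T (c ((l / μ) • T w'))) =
        l • adjT T (c ((l / μ) • T w) - c ((l / μ) • T w')) := by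
      rw [map_sub, smul_sub]; abel
    rw [e, norm_smul, Real.norm_eq_abs, abs_of_pos hl]
    have h2 := (hSn (c ((l / μ) • T w) - c ((l / μ) • T w'))).trans (mul_le_mul_of_nonneg_left h1 hC0)
    have h3 : 0 ≤ (l ^ 2 / μ) * (B * C) * ‖w - w'‖ := by positivity
    calc _ ≤ l * (C * (21 / 20 * ((l / μ) * (B * ‖w - w'‖)))) := mul_le_mul_of_nonneg_left h2 hl.le
      _ = 21 / 20 * ((l ^ 2 / μ) * (B * C) * ‖w - w'‖) := by ring
      _ ≤ 2 * ((l ^ 2 / μ) * (B * C) * ‖w - w'‖) := by linarith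
      _ = _ := by ring
  · refine mono x _ _ w w' ?_
    have h1 := h.lipP _ _ (hin w hw) (hin w' hw') (T x) (T x)
    rwa [sub_self, norm_zero, zero_add, hν'] at h1
  · refine mono w _ _ w w' ?_
    have h1 := h.lipc _ _ (hin w hw) (hin w' hw')
    rwa [hν'] at h1

end

end

end Pool.Agent.LRW
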