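import Pool.Agent.LRW.KU

/-!
# LRW/KFam: families of invariant graphs parametrised by the frequency   (helper45)
-/

set_option autoImplicit false

open MeasureTheory Module Set Filter Topology

namespace Pool.Agent.LRW

open Pool.H45.Mather Pool.Agent.LRT

noncomputable section

variable {n : ℕ} {E : Type*} [NormedAddCommGroup E] [InnerProductSpace ℝ E]

/-- `P` is an exact graph of class `c` on which `H` is constant and the velocity is approximately conjugate to `w` -/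
structure FSol (b : Basis (Fin n) ℝ E) (H : E × E → ℝ) (Hp : E × E → E) (w c : E) (P : E → E) : Prop where
  grad : ∃ φ : E → ℝ, ContDiff ℝ 2 φ ∧ Per b φ ∧ ∀ x v, inner ℝ (P x) v = inner ℝ c v + fderiv ℝ φ x v
  hj : ∃ a, ∀ x, H (x, P x) = a
  conj : ∃ La, 0 < La ∧ ConjL La b Hp P w

/-- a family of such graphs for the frequencies `‖w - w₀‖ < r`, `K`-Lipschitz and `m`-monotone in `w` -/
structure FFam (b : Basis (Fin n) ℝ E) (H : E × E → ℝ) (Hp : E × E → E) (w₀ : E) (m K r : ℝ)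
    (c : E → E) (P : E → E → E) : Prop where
  r0 : 0 < r
  sol : ∀ w, ‖w - w₀‖ < r → FSol b H Hp w (c w) (P w)
  lipx : ∃ K', ∀ w, ‖w - w₀‖ < r → ∀ x x', ‖P w x - P w x'‖ ≤ K' * ‖x - x'‖
  lipw : ∀ w w', ‖w - w₀‖ < r → ‖w' - w₀‖ < r → ∀ x, ‖P w x - P w' x‖ ≤ K * ‖w - w'‖
  lipc : ∀ w w', ‖w - w₀‖ < r → ‖w' - w₀‖ < r → ‖c w - c w'‖ ≤ K * ‖w - w'‖
  mon : ∀ w w', ‖w - w₀‖ < r → ‖w' - w₀‖ < r → ∀ x, m * ‖w - w'‖ ^ 2 ≤ inner ℝ (P w x - P w' x) (w - w')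
  monc : ∀ w w', ‖w - w₀‖ < r → ‖w' - w₀‖ < r → m * ‖w - w'‖ ^ 2 ≤ inner ℝ (c w - c w') (w - w')

/-- invariance of a graph under the flow -/
def Inv [CompleteSpace E] (H : E × E → ℝ) (P : E → E) : Prop :=
  ∀ (x p : ℝ → E) t₁ t₂, IsTraj H x p t₁ t₂ → ∀ t₀ ∈ Ioo t₁ t₂, p t₀ = P (x t₀) → ∀ t ∈ Ioo t₁ t₂, p t = P (x t)

end

end Pool.Agent.LRW
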