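import Mathlib

/-!
# LRW/KZ: strongly monotone Lipschitz maps   (helper45)
-/

set_option autoImplicit false

open Set Filter Topology Metric

namespace Pool.Agent.LRW

noncomputable section

variable {E : Type*} [NormedAddCommGroup E] [InnerProductSpace ℝ E]

/-- a strongly monotone Lipschitz map on a ball covers a ball -/
theorem zar_ball [CompleteSpace E] {F : E → E} {m K η : ℝ} (hm : 0 < m) (hmK : m ≤ K) (hη : 0 ≤ η) {w₁ p : E}
    (hL : ∀ w w', ‖w - w₁‖ ≤ η → ‖w' - w₁‖ ≤ η → ‖F w - F w'‖ ≤ K * ‖w - w'‖)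
    (hM : ∀ w w', ‖w - w₁‖ ≤ η → ‖w' - w₁‖ ≤ η → m * ‖w - w'‖ ^ 2 ≤ inner ℝ (F w - F w') (w - w'))
    (hp : ‖F w₁ - p‖ ≤ m * η / 2) : ∃ w, ‖w - w₁‖ ≤ η ∧ F w = p := by
  have hK : 0 < K := by linarith
  set t : ℝ := m / K ^ 2 with ht
  have ht0 : 0 < t := by positivity
  set σ : ℝ := m ^ 2 / K ^ 2 with hσ
  have hσ0 : 0 < σ := by positivity
  have hσ1 : σ ≤ 1 := by
    rw [hσ, div_le_one (by positivity)]
    nlinarith
  set q : ℝ := √(1 - σ) with hq
  have hq0 : 0 ≤ q := Real.sqrt_nonneg _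
  have hq1 : q ≤ 1 - σ / 2 := by
    rw [hq]
    refine Real.sqrt_le_iff.2 ⟨by linarith, ?_⟩
    nlinarith [sq_nonneg σ]
  set g : E → E := fun w => w - t • (F w - p) with hg
  have hgl : ∀ w w', ‖w - w₁‖ ≤ η → ‖w' - w₁‖ ≤ η → ‖g w - g w'‖ ≤ q * ‖w - w'‖ := by
    intro w w' hw hw'
    have e1 : g w - g w' = (w - w') - t • (F w - F w') := by
      simp only [hg]
      rw [smul_sub, smul_sub, smul_sub]
      abel
    have e2 : ‖g w - g w'‖ ^ 2 ≤ (1 - σ) * ‖w - w'‖ ^ 2 := by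
      rw [e1, norm_sub_sq_real, inner_smul_right, norm_smul, Real.norm_eq_abs, abs_of_pos ht0,
        real_inner_comm]
      have h1 := hM w w' hw hw'
      have h2 : ‖F w - F w'‖ ^ 2 ≤ (K * ‖w - w'‖) ^ 2 := pow_le_pow_left₀ (norm_nonneg _) (hL w w' hw hw') 2
      have h3 : t * (m * ‖w - w'‖ ^ 2) ≤ t * inner ℝ (F w - F w') (w - w') := mul_le_mul_of_nonneg_left h1 ht0.le
      have h4 : (t * ‖F w - F w'‖) ^ 2 ≤ t ^ 2 * (K * ‖w - w'‖) ^ 2 := by
        rw [mul_pow]
        exact mul_le_mul_of_nonneg_left h2 (by positivity)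
      have h5 : t * m = σ := by
        rw [ht, hσ]; ring
      have h6 : t ^ 2 * (K * ‖w - w'‖) ^ 2 = σ * ‖w - w'‖ ^ 2 := by
        rw [ht, hσ]
        field_simp
      have h7 : t * (m * ‖w - w'‖ ^ 2) = σ * ‖w - w'‖ ^ 2 := by rw [← mul_assoc, h5]
      linarith
    have h8 : ‖g w - g w'‖ ^ 2 ≤ (q * ‖w - w'‖) ^ 2 := by
      rw [mul_pow, hq, Real.sq_sqrt (by linarith)]
      exact e2
    exact le_of_sq_le_sq h8 (by positivity)
  have hball : ∀ w ∈ closedBall w₁ η, ‖w - w₁‖ ≤ η := fun w hw => by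
    rwa [mem_closedBall, dist_eq_norm] at hw
  have hmaps : MapsTo g (closedBall w₁ η) (closedBall w₁ η) := by
    intro w hw
    rw [mem_closedBall, dist_eq_norm]
    have h1 := hgl w w₁ (hball w hw) (by rw [sub_self, norm_zero]; exact hη)
    have h2 : ‖g w₁ - w₁‖ = t * ‖F w₁ - p‖ := by
      have : g w₁ - w₁ = -(t • (F w₁ - p)) := by simp only [hg]; abel
      rw [this, norm_neg, norm_smul, Real.norm_eq_abs, abs_of_pos ht0]
    have h3 : ‖g w - w₁‖ ≤ ‖g w - g w₁‖ + ‖g w₁ - w₁‖ := by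
      have : g w - w₁ = (g w - g w₁) + (g w₁ - w₁) := by abel
      rw [this]
      exact norm_add_le _ _
    have h4 : q * ‖w - w₁‖ ≤ (1 - σ / 2) * η :=
      mul_le_mul hq1 (hball w hw) (norm_nonneg _) (by linarith)
    have h5 : t * ‖F w₁ - p‖ ≤ t * (m * η / 2) := mul_le_mul_of_nonneg_left hp ht0.le
    have h6 : t * (m * η / 2) = σ / 2 * η := by
      rw [ht, hσ]; ring
    linarith
  have hσq : q < 1 := by linarith
  have hcon : ContractingWith (⟨q, hq0⟩ : NNReal) (hmaps.restrict g _ _) := by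
    refine ⟨hσq, ?_⟩
    refine LipschitzWith.of_dist_le_mul fun a c => ?_
    rw [Subtype.dist_eq, MapsTo.val_restrict_apply, MapsTo.val_restrict_apply, dist_eq_norm, Subtype.dist_eq,
      dist_eq_norm]
    exact hgl _ _ (hball _ a.2) (hball _ c.2)
  obtain ⟨w, hw, hfix, -⟩ := hcon.exists_fixedPoint' (isClosed_closedBall.isComplete) hmaps
    (x := w₁) (mem_closedBall_self hη) (edist_ne_top _ _)
  refine ⟨w, hball w hw, ?_⟩
  have h1 : w - t • (F w - p) = w := hfix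
  have h2 : t • (F w - p) = 0 := by
    have : t • (F w - p) = w - (w - t • (F w - p)) := by abel
    rw [this, h1, sub_self]
  rcases smul_eq_zero.1 h2 with h | h
  · exact absurd h ht0.ne'
  · exact sub_eq_zero.1 h

theorem zar_inj {F : E → E} {m : ℝ} (hm : 0 < m) {w w' : E}
    (hM : m * ‖w - w'‖ ^ 2 ≤ inner ℝ (F w - F w') (w - w')) : ‖w - w'‖ ≤ m⁻¹ * ‖F w - F w'‖ := by
  have h1 := hM.trans (real_inner_le_norm _ _)
  rcases eq_or_lt_of_le (norm_nonneg (w - w')) with h | h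
  · rw [← h]
    positivity
  · rw [inv_mul_eq_div, le_div_iff₀ hm]
    nlinarith

theorem zar_bij [CompleteSpace E] {F : E → E} {m K : ℝ} (hm : 0 < m) (hmK : m ≤ K)
    (hL : ∀ w w', ‖F w - F w'‖ ≤ K * ‖w - w'‖)
    (hM : ∀ w w', m * ‖w - w'‖ ^ 2 ≤ inner ℝ (F w - F w') (w - w')) : Function.Bijective F := by
  constructor
  · intro w w' h
    have h1 := zar_inj hm (hM w w')
    rw [h, sub_self, norm_zero, mul_zero] at h1
    exact sub_eq_zero.1 (norm_le_zero_iff.1 h1)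
  · intro p
    obtain ⟨w, -, hw⟩ := zar_ball (F := F) (w₁ := 0) (p := p) (η := 2 * ‖F 0 - p‖ / m) hm hmK (by positivity)
      (fun w w' _ _ => hL w w') (fun w w' _ _ => hM w w') (by
        refine le_of_eq ?_
        field_simp)
    exact ⟨w, hw⟩

/-- local Lipschitz and monotonicity estimates hold globally on segments -/
theorem loc_glob {F : E → E} {m K : ℝ} {w v : E}
    (h : ∀ t ∈ Icc (0 : ℝ) 1, ∃ r, 0 < r ∧ ∀ y y', ‖y - (w + t • v)‖ < r → ‖y' - (w + t • v)‖ < r →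
      ‖F y - F y'‖ ≤ K * ‖y - y'‖ ∧ m * ‖y - y'‖ ^ 2 ≤ inner ℝ (F y - F y') (y - y')) :
    ‖F (w + v) - F w‖ ≤ K * ‖v‖ ∧ m * ‖v‖ ^ 2 ≤ inner ℝ (F (w + v) - F w) v := by
  set S : Set ℝ := {t | ‖F (w + t • v) - F w‖ ≤ K * (t * ‖v‖) ∧ m * (t * ‖v‖ ^ 2) ≤ inner ℝ (F (w + t • v) - F w) v}
    with hS
  have hγ : ∀ t t' : ℝ, (w + t' • v) - (w + t • v) = (t' - t) • v := fun t t' => by
    rw [sub_smul]; abel
  -- continuity along the segment
  have hcont : ContinuousOn (fun t : ℝ => F (w + t • v)) (Icc 0 1) := by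
    intro t ht
    obtain ⟨r, hr, hloc⟩ := h t ht
    have hc : Tendsto (fun s : ℝ => K * (|s - t| * ‖v‖)) (𝓝 t) (𝓝 0) := by
      have : Continuous fun s : ℝ => K * (|s - t| * ‖v‖) := by fun_prop
      have h2 := this.tendsto t
      simpa using h2
    refine ContinuousAt.continuousWithinAt ?_
    refine tendsto_iff_norm_sub_tendsto_zero.2 (squeeze_zero' (Eventually.of_forall fun s => norm_nonneg _) ?_ hc)
    have hn : ∀ᶠ s : ℝ in 𝓝 t, ‖(s - t) • v‖ < r := by
      have : Continuous fun s : ℝ => ‖(s - t) • v‖ := by fun_prop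
      refine this.tendsto t |>.eventually (gt_mem_nhds ?_)
      simpa using hr
    filter_upwards [hn] with s hs
    have h3 := (hloc (w + s • v) (w + t • v) (by rw [hγ]; exact hs) (by rw [sub_self, norm_zero]; exact hr)).1
    rw [hγ, norm_smul, Real.norm_eq_abs] at h3
    exact h3
  have hclosed : IsClosed (S ∩ Icc 0 1) := by
    have h1 : ContinuousOn (fun t : ℝ => K * (t * ‖v‖) - ‖F (w + t • v) - F w‖) (Icc 0 1) :=
      (Continuous.continuousOn (by fun_prop)).sub (hcont.sub continuousOn_const).norm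
    have h2 : ContinuousOn (fun t : ℝ => inner ℝ (F (w + t • v) - F w) v - m * (t * ‖v‖ ^ 2)) (Icc 0 1) :=
      ((hcont.sub continuousOn_const).inner continuousOn_const).sub (Continuous.continuousOn (by fun_prop))
    have e : S ∩ Icc 0 1 = (Icc 0 1 ∩ (fun t : ℝ => K * (t * ‖v‖) - ‖F (w + t • v) - F w‖) ⁻¹' Ici 0) ∩
        (Icc 0 1 ∩ (fun t : ℝ => inner ℝ (F (w + t • v) - F w) v - m * (t * ‖v‖ ^ 2)) ⁻¹' Ici 0) := by
      ext t
      simp only [hS, mem_inter_iff, mem_ofPred_eq, mem_preimage, mem_Ici, sub_nonneg]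
      tauto
    rw [e]
    exact (h1.preimage_isClosed_of_isClosed isClosed_Icc isClosed_Ici).inter
      (h2.preimage_isClosed_of_isClosed isClosed_Icc isClosed_Ici)
  have h0 : (0 : ℝ) ∈ S := by
    simp [hS]
  have hsub : Icc (0 : ℝ) 1 ⊆ S := by
    refine IsClosed.Icc_subset_of_forall_exists_gt hclosed h0 ?_
    rintro t ⟨htS, ht0, ht1⟩ y hy
    obtain ⟨r, hr, hloc⟩ := h t ⟨ht0, ht1.le⟩
    set d : ℝ := min (y - t) (r / (2 * (‖v‖ + 1))) with hd
    have hd0 : 0 < d := lt_min (sub_pos.2 hy) (by positivity)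
    refine ⟨t + d, ?_, ?_, ?_⟩
    · have hdr : ‖(t + d - t) • v‖ < r := by
        rw [add_sub_cancel_left, norm_smul, Real.norm_eq_abs, abs_of_pos hd0]
        have h1 : d * ‖v‖ ≤ r / (2 * (‖v‖ + 1)) * ‖v‖ := mul_le_mul_of_nonneg_right (min_le_right _ _) (norm_nonneg _)
        have h2 : r / (2 * (‖v‖ + 1)) * ‖v‖ < r := by
          rw [div_mul_eq_mul_div, div_lt_iff₀ (by positivity)]
          nlinarith [norm_nonneg v]
        linarith
      obtain ⟨h1, h2⟩ := hloc (w + (t + d) • v) (w + t • v) (by rw [hγ]; exact hdr)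
        (by rw [sub_self, norm_zero]; exact hr)
      rw [hγ, add_sub_cancel_left, norm_smul, Real.norm_eq_abs, abs_of_pos hd0] at h1
      rw [hγ, add_sub_cancel_left, norm_smul, Real.norm_eq_abs, abs_of_pos hd0, inner_smul_right] at h2
      obtain ⟨h3, h4⟩ := htS
      constructor
      · have e : F (w + (t + d) • v) - F w = (F (w + (t + d) • v) - F (w + t • v)) + (F (w + t • v) - F w) := by abel
        rw [e]
        refine (norm_add_le _ _).trans ?_
        calc _ ≤ K * (d * ‖v‖) + K * (t * ‖v‖) := add_le_add h1 h3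
          _ = K * ((t + d) * ‖v‖) := by ring
      · have e : F (w + (t + d) • v) - F w = (F (w + (t + d) • v) - F (w + t • v)) + (F (w + t • v) - F w) := by abel
        rw [e, inner_add_left]
        have h5 : m * (d * ‖v‖ ^ 2) ≤ inner ℝ (F (w + (t + d) • v) - F (w + t • v)) v := by
          have h6 : d * (m * (d * ‖v‖ ^ 2)) ≤ d * inner ℝ (F (w + (t + d) • v) - F (w + t • v)) v := by
            calc d * (m * (d * ‖v‖ ^ 2)) = m * (d * ‖v‖) ^ 2 := by ring
              _ ≤ _ := h2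
          exact le_of_mul_le_mul_left h6 hd0
        calc m * ((t + d) * ‖v‖ ^ 2) = m * (d * ‖v‖ ^ 2) + m * (t * ‖v‖ ^ 2) := by ring
          _ ≤ _ := add_le_add h5 h4
    · linarith
    · have := min_le_left (y - t) (r / (2 * (‖v‖ + 1)))
      linarith
  have h1 := hsub (right_mem_Icc.2 zero_le_one)
  simp only [hS, mem_ofPred_eq, one_smul, one_mul] at h1
  exact h1

end

end Pool.Agent.LRW
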