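import Pool.Agent.LRW.KFam
import Pool.Agent.LRW.KZ
import Pool.Agent.LRT.VG

/-!
# LRW/KG: from families of invariant graphs to the foliation   (helper45)
-/

set_option autoImplicit false

open MeasureTheory Module Set Filter Topology

namespace Pool.Agent.LRW

open Pool.H45.Mather Pool.Agent.LRT

noncomputable section

set_option linter.unusedSectionVars false
set_option linter.style.haveILetI false

variable {n : ℕ} {E : Type*} [NormedAddCommGroup E] [InnerProductSpace ℝ E] [FiniteDimensional ℝ E]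
  [MeasurableSpace E] [BorelSpace E] {b : Basis (Fin n) ℝ E}

variable {H : E × E → ℝ} {Hp : E × E → E} {La : ℝ}

theorem FSol.uniq (hLa : 1 ≤ La) (hH : HamK La b H Hp) {w c c' : E} {P P' : E → E}
    (h : FSol b H Hp w c P) (h' : FSol b H Hp w c' P') : P = P' ∧ c = c' := by
  obtain ⟨φ, a1, a2, a3⟩ := h.grad
  obtain ⟨φ', b1, b2, b3⟩ := h'.grad
  obtain ⟨a, ha⟩ := h.hj
  obtain ⟨a', ha'⟩ := h'.hj
  obtain ⟨L₁, -, hL⟩ := h.conj
  obtain ⟨L₂, hL2, hL'⟩ := h'.conj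
  exact uniq_freq hLa hH hL2 (a1.of_le (by norm_num)) a2 (b1.of_le (by norm_num)) b2 a3 b3 ha ha' hL hL'

theorem FSol.inv [CompleteSpace E] (hH2 : ContDiff ℝ 2 H) {w c : E} {P : E → E}
    (h : FSol b H Hp w c P) : Inv H P := by
  obtain ⟨φ, a1, a2, a3⟩ := h.grad
  obtain ⟨a, ha⟩ := h.hj
  intro x p t₁ t₂ htr t₀ ht₀ h0
  exact invariant hH2 a1 (P := P) a3 ha htr.hx htr.hp ht₀ h0

/-- a global family gives the foliation -/
theorem c0int_of_fam [CompleteSpace E] {c : E → E} {P : E → E → E} {m K : ℝ} (hm : 0 < m) (hmK : m ≤ K)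
    (hs : ∀ w, FSol b H Hp w (c w) (P w)) (hi : ∀ w, Inv H (P w))
    (hx : ∀ w, ∃ K', ∀ x x', ‖P w x - P w x'‖ ≤ K' * ‖x - x'‖)
    (hP1 : ∀ w w' x, ‖P w x - P w' x‖ ≤ K * ‖w - w'‖)
    (hP2 : ∀ w w' x, m * ‖w - w'‖ ^ 2 ≤ inner ℝ (P w x - P w' x) (w - w'))
    (hc1 : ∀ w w', ‖c w - c w'‖ ≤ K * ‖w - w'‖)
    (hc2 : ∀ w w', m * ‖w - w'‖ ^ 2 ≤ inner ℝ (c w - c w') (w - w')) : C0Int b H := by
  have hK : 0 < K := by linarith
  have hcb : Function.Bijective c := zar_bij hm hmK hc1 hc2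
  obtain ⟨W, hW1, hW2⟩ := Function.bijective_iff_has_inverse.1 hcb
  have hWl : ∀ y y', ‖W y - W y'‖ ≤ m⁻¹ * ‖y - y'‖ := by
    intro y y'
    have := zar_inj hm (hc2 (W y) (W y'))
    rwa [hW2, hW2] at this
  have hWb : Function.Bijective W := Function.bijective_iff_has_inverse.2 ⟨c, hW2, hW1⟩
  refine ⟨fun y x => P (W y) x, ?_, ?_, ?_, ?_, ?_⟩
  · intro y
    have := (hs (W y)).grad
    rwa [hW2 y] at this
  · intro y
    obtain ⟨K', hK'⟩ := hx (W y)
    refine ⟨⟨max K' 0, le_max_right _ _⟩, LipschitzWith.of_dist_le_mul fun x x' => ?_⟩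
    rw [dist_eq_norm, dist_eq_norm]
    exact (hK' x x').trans (mul_le_mul_of_nonneg_right (le_max_left _ _) (norm_nonneg _))
  · rw [continuous_iff_continuousAt]
    rintro ⟨y₀, x₀⟩
    obtain ⟨K', hK'⟩ := hx (W y₀)
    have hbd : ∀ z : E × E, ‖P (W z.1) z.2 - P (W y₀) x₀‖ ≤ K * (m⁻¹ * ‖z.1 - y₀‖) + K' * ‖z.2 - x₀‖ := by
      intro z
      have e : P (W z.1) z.2 - P (W y₀) x₀ = (P (W z.1) z.2 - P (W y₀) z.2) + (P (W y₀) z.2 - P (W y₀) x₀) := by abel
      rw [e]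
      refine (norm_add_le _ _).trans (add_le_add ?_ (hK' _ _))
      exact (hP1 _ _ _).trans (mul_le_mul_of_nonneg_left (hWl _ _) hK.le)
    have hlim : Tendsto (fun z : E × E => K * (m⁻¹ * ‖z.1 - y₀‖) + K' * ‖z.2 - x₀‖) (𝓝 (y₀, x₀)) (𝓝 0) := by
      have h1 : Continuous fun z : E × E => K * (m⁻¹ * ‖z.1 - y₀‖) + K' * ‖z.2 - x₀‖ := by fun_prop
      have h2 := h1.tendsto (y₀, x₀)
      simpa using h2
    exact tendsto_iff_norm_sub_tendsto_zero.2 (squeeze_zero (fun z => norm_nonneg _) hbd hlim)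
  · intro x
    exact (zar_bij (F := fun w => P w x) hm hmK (fun w w' => hP1 w w' x) (fun w w' => hP2 w w' x)).comp hWb
  · intro y x p t₁ t₂ htr t₀ ht₀ h0
    exact hi (W y) x p t₁ t₂ htr t₀ ht₀ h0

/-- local families give the foliation -/
theorem c0int_of_loc [CompleteSpace E] (hLa : 1 ≤ La) (hH : HamK La b H Hp) {m K : ℝ} (hm : 0 < m) (hmK : m ≤ K)
    (hi : ∀ w c P, FSol b H Hp w c P → Inv H P)
    (hF : ∀ w₀, ∃ r c P, FFam b H Hp w₀ m K r c P) : C0Int b H := by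
  choose r c' P' hF using hF
  set c : E → E := fun w => c' w w with hc
  set P : E → E → E := fun w => P' w w with hP
  have hself : ∀ w, ‖w - w‖ < r w := fun w => by
    rw [sub_self, norm_zero]
    exact (hF w).r0
  have hsol : ∀ w, FSol b H Hp w (c w) (P w) := fun w => (hF w).sol w (hself w)
  have hloc : ∀ w₀ w, ‖w - w₀‖ < r w₀ → P w = P' w₀ w ∧ c w = c' w₀ w := fun w₀ w hw =>
    (hsol w).uniq hLa hH ((hF w₀).sol w hw)
  have hPg : ∀ x w w', ‖P w' x - P w x‖ ≤ K * ‖w' - w‖ ∧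
      m * ‖w' - w‖ ^ 2 ≤ inner ℝ (P w' x - P w x) (w' - w) := by
    intro x w w'
    have := loc_glob (F := fun w => P w x) (m := m) (K := K) (w := w) (v := w' - w) (fun t _ => by
      refine ⟨r (w + t • (w' - w)), (hF _).r0, fun y y' hy hy' => ?_⟩
      rw [(hloc _ y hy).1, (hloc _ y' hy').1]
      exact ⟨(hF _).lipw y y' hy hy' x, (hF _).mon y y' hy hy' x⟩)
    rwa [add_sub_cancel] at this
  have hcg : ∀ w w', ‖c w' - c w‖ ≤ K * ‖w' - w‖ ∧
      m * ‖w' - w‖ ^ 2 ≤ inner ℝ (c w' - c w) (w' - w) := by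
    intro w w'
    have := loc_glob (F := c) (m := m) (K := K) (w := w) (v := w' - w) (fun t _ => by
      refine ⟨r (w + t • (w' - w)), (hF _).r0, fun y y' hy hy' => ?_⟩
      rw [(hloc _ y hy).2, (hloc _ y' hy').2]
      exact ⟨(hF _).lipc y y' hy hy', (hF _).monc y y' hy hy'⟩)
    rwa [add_sub_cancel] at this
  refine c0int_of_fam hm hmK hsol (fun w => hi w _ _ (hsol w)) (fun w => ?_) (fun w w' x => (hPg x w' w).1)
    (fun w w' x => (hPg x w' w).2) (fun w w' => (hcg w' w).1) (fun w w' => (hcg w' w).2)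
  obtain ⟨K', hK'⟩ := (hF w).lipx
  exact ⟨K', hK' w (hself w)⟩

end

end Pool.Agent.LRW
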