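import Pool.Agent.LRW.L6

/-!
T7.  The limit of the iteration: assembly.

`c W = p0 + lim re (gb (b j) (W - w0))`, `P W x = p0 + lim re (qv ..)`, `a W = ka + inner W (lim re gb) - lim b`.
-/

set_option autoImplicit false

open Set MeasureTheory Topology

namespace Pool.Agent.LRW

open Pool.Agent.LRT

theorem limit (n : ℕ) [Par n] : ∃ ρ₀ : ℝ, 0 < ρ₀ ∧ ∀ (p0 w0 : RE n) (ka CH : ℝ) (ρ R δ : ℕ → ℝ)
    (H : ℕ → CE n × CE n → ℂ) (Ht : RE n × RE n → ℝ) (Hpt : RE n × RE n → RE n)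
    (b : ℕ → CE n → ℂ) (u : ℕ → CE n × CE n → ℂ),
    ρ 0 ≤ ρ₀ → (∀ j, 3 / 2 ≤ R j ∧ R j ≤ 2 ∧ 0 < ρ j ∧ ρ (j + 1) ≤ ρ j / 64) →
    Filter.Tendsto δ Filter.atTop (𝓝 0) →
    Continuous Ht → Continuous Hpt →
    (∀ j (x p : RE n), ‖p‖ ≤ 3 → |Ht (x, p0 + p) - ka - inner ℝ w0 p - (H j (ofR x, ofR p)).re| ≤ δ j ∧
      ‖Hpt (x, p0 + p) - w0 - re (gw (H j) (ofR x, ofR p))‖ ≤ δ j) →
    (b 0 = fun w => dot w w / 2) → (u 0 = fun _ => 0) →
    (∀ j, NS (1 / 100) (ρ j) (R j) CH (H j) (b j) (u j) ∧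
      (∀ z ∈ D (ρ j) (R j), ‖err w0 (H j) (b j) (u j) z‖ ≤ (ρ j) ^ MM n) ∧
      DifferentiableOn ℂ (fun w => b (j + 1) w - b j w) (Dw (ρ j / 2) (R j)) ∧
      (∀ w ∈ Dw (ρ j / 2) (R j), ‖b (j + 1) w - b j w‖ ≤ (ρ j) ^ MM n) ∧
      DifferentiableOn ℂ (fun z => u (j + 1) z - u j z) (D ((ρ j) ^ 2) (5 / 4)) ∧
      (∀ z ∈ D ((ρ j) ^ 2) (5 / 4), ‖u (j + 1) z - u j z‖ ≤ (ρ j) ^ (MM n - 2 * n - 6))) →
    ∃ (c : RE n → RE n) (a : RE n → ℝ) (v : RE n → RE n → ℝ) (P : RE n → RE n → RE n),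
      LocalSol p0 w0 Ht Hpt 1 c a v P := by
  classical
  refine ⟨1, one_pos, ?_⟩
  intro p0 w0 ka CH ρ R δ H Ht Hpt b u _ hR hδ hHt hHpt hH _ _ hIt
  have hI : IterHyp n w0 CH ρ R H b u :=
    { R1 := fun j => (hR j).1
      R2 := fun j => (hR j).2.1
      ρ0 := fun j => (hR j).2.2.1
      ρ1 := fun j => (hR j).2.2.2
      ns := fun j => (hIt j).1
      er := fun j => (hIt j).2.1
      db := fun j => (hIt j).2.2.1
      dbb := fun j => (hIt j).2.2.2.1
      du := fun j => (hIt j).2.2.2.2.1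
      dub := fun j => (hIt j).2.2.2.2.2 }
  have hc : ∀ w : RE n, ∃ c : RE n, ‖w‖ < 1 →
      Filter.Tendsto (fun j => re (gb (b j) (ofR w))) Filter.atTop (𝓝 c) := by
    intro w
    by_cases hw : ‖w‖ < 1
    · obtain ⟨c, hc⟩ := hI.lim_c hw
      exact ⟨c, fun _ => hc⟩
    · exact ⟨0, fun h => absurd h hw⟩
  have hβ : ∀ w : RE n, ∃ a : ℝ, ‖w‖ < 1 →
      Filter.Tendsto (fun j => (b j (ofR w)).re) Filter.atTop (𝓝 a) := by
    intro w
    by_cases hw : ‖w‖ < 1
    · obtain ⟨c, hc⟩ := hI.lim_b hw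
      exact ⟨c, fun _ => hc⟩
    · exact ⟨0, fun h => absurd h hw⟩
  have hu : ∀ w : RE n, ∃ (v : RE n → ℝ) (G : RE n → RE n), ‖w‖ < 1 → (ContDiff ℝ 2 v ∧
      (∀ x, Filter.Tendsto (fun j => (u j (ofR x, ofR w)).re) Filter.atTop (𝓝 (v x))) ∧
      (∀ x, Filter.Tendsto (fun j => re (gx (u j) (ofR x, ofR w))) Filter.atTop (𝓝 (G x))) ∧
      (∀ x y, inner ℝ (G x) y = fderiv ℝ v x y) ∧ ∀ x (k : Fin n → ℤ), v (x + lat k) = v x) := by
    intro w
    by_cases hw : ‖w‖ < 1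
    · obtain ⟨v, G, hv⟩ := hI.lim_u hw
      exact ⟨v, G, fun _ => hv⟩
    · exact ⟨0, 0, fun h => absurd h hw⟩
  choose c hc using hc
  choose β hβ using hβ
  choose v G hu using hu
  have hq : ∀ w : RE n, ‖w‖ < 1 → ∀ x : RE n,
      Filter.Tendsto (fun j => re (gb (b j) (ofR w)) + re (gx (u j) (ofR x, ofR w))) Filter.atTop
        (𝓝 (c w + G w x)) := fun w hw x => (hc w hw).add ((hu w hw).2.2.1 x)
  have hρ : Filter.Tendsto ρ Filter.atTop (𝓝 0) :=
    (rho_summable (fun j => ⟨(hR j).2.2.1, (hR j).2.2.2⟩) 1).2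
  have hwR : ∀ w : RE n, ‖w‖ < 1 → ∀ j, ‖w‖ < R j := fun w hw j => by
    have := (hR j).1
    linarith
  have hMM : MM n ≠ 0 := by
    unfold MM
    positivity
  have hpow : ∀ j, (ρ j) ^ MM n ≤ ρ j := fun j =>
    pow_le_of_le_one (hR j).2.2.1.le (by have := (hIt j).1.ρ1; linarith) hMM
  refine ⟨fun W => p0 + c (W - w0), fun W => ka + inner ℝ W (c (W - w0)) - β (W - w0),
    fun W => v (W - w0), fun W x => p0 + (c (W - w0) + G (W - w0) x), ?_⟩
  refine ⟨fun W hw => (hu _ hw).1, fun W hw => (hu _ hw).2.2.2.2, ?_, ?_, ?_, ?_, ?_, ?_, ?_⟩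
  · intro W hw x y
    rw [inner_add_left, inner_add_left, (hu _ hw).2.2.2.1 x y, inner_add_left, add_assoc]
  · intro W hw x
    set w := W - w0 with hwd
    have hW : W = w + w0 := by rw [hwd, sub_add_cancel]
    have h1 : Filter.Tendsto (fun j => Ht (x, p0 + (re (gb (b j) (ofR w)) +
        re (gx (u j) (ofR x, ofR w))))) Filter.atTop (𝓝 (Ht (x, p0 + (c w + G w x)))) :=
      (hHt.tendsto _).comp (tendsto_const_nhds.prodMk_nhds (tendsto_const_nhds.add (hq w hw x)))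
    have h2 : Filter.Tendsto (fun j => ka + inner ℝ W (re (gb (b j) (ofR w))) - (b j (ofR w)).re)
        Filter.atTop (𝓝 (ka + inner ℝ W (c w) - β w)) :=
      (tendsto_const_nhds.add (tendsto_const_nhds.inner (hc w hw))).sub (hβ w hw)
    have h3 : Filter.Tendsto (fun j => Ht (x, p0 + (re (gb (b j) (ofR w)) +
        re (gx (u j) (ofR x, ofR w)))) - (ka + inner ℝ W (re (gb (b j) (ofR w))) - (b j (ofR w)).re))
        Filter.atTop (𝓝 0) := by
      refine squeeze_zero_norm (a := fun j => δ j + ρ j) (fun j => ?_) ?_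
      · have hns := (hIt j).1
        have hqs := hns.q_small (hwR w hw j) x
        have hn3 : ‖re (gb (b j) (ofR w)) + re (gx (u j) (ofR x, ofR w))‖ ≤ 3 := by
          have := norm_sub_norm_le (re (gb (b j) (ofR w)) + re (gx (u j) (ofR x, ofR w))) w
          linarith
        have hd := (hH j x _ hn3).1
        have he := hns.err_val (w0 := w0) (hwR w hw j) x
        have hm := (hIt j).2.1 _ (ofR_mem_D (hR j).2.2.1 x (hwR w hw j))
        have hr := (Complex.abs_re_le_norm (err w0 (H j) (b j) (u j) (ofR x, ofR w))).trans hm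
        have hp := hpow j
        rw [inner_add_right] at hd
        rw [Real.norm_eq_abs, hW, inner_add_left]
        rw [he] at hr
        rw [abs_le] at hd hr ⊢
        constructor <;> linarith [hd.1, hd.2, hr.1, hr.2]
      · simpa using hδ.add hρ
    have h4 := h1.sub h2
    have h5 := tendsto_nhds_unique h4 h3
    linarith
  · intro W W' hw hw' x x'
    have h1 : Filter.Tendsto (fun j => ‖(re (gb (b j) (ofR (W - w0))) +
      re (gx (u j) (ofR x, ofR (W - w0))) - (W - w0)) -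
      (re (gb (b j) (ofR (W' - w0))) + re (gx (u j) (ofR x', ofR (W' - w0))) - (W' - w0))‖) Filter.atTop
        (𝓝 ‖(c (W - w0) + G (W - w0) x - (W - w0)) - (c (W' - w0) + G (W' - w0) x' - (W' - w0))‖) :=
      (((hq _ hw x).sub tendsto_const_nhds).sub ((hq _ hw' x').sub tendsto_const_nhds)).norm
    have e1 : (p0 + (c (W - w0) + G (W - w0) x) - W) - (p0 + (c (W' - w0) + G (W' - w0) x') - W') =
        (c (W - w0) + G (W - w0) x - (W - w0)) - (c (W' - w0) + G (W' - w0) x' - (W' - w0)) := by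
      abel
    rw [e1]
    refine le_of_tendsto h1 (Filter.Eventually.of_forall fun j => (hI.q_lip j hw hw' x x').trans ?_)
    rw [sub_sub_sub_cancel_right]
    have : 0 ≤ ‖x - x'‖ + ‖W - W'‖ := by positivity
    linarith
  · intro W hw x
    have h1 : Filter.Tendsto (fun j => ‖re (gb (b j) (ofR (W - w0))) +
      re (gx (u j) (ofR x, ofR (W - w0))) - (W - w0)‖)
        Filter.atTop (𝓝 ‖c (W - w0) + G (W - w0) x - (W - w0)‖) :=
      ((hq _ hw x).sub tendsto_const_nhds).norm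
    rw [add_sub_cancel_left]
    refine le_of_tendsto h1 (Filter.Eventually.of_forall fun j =>
      ((hIt j).1.q_small (hwR _ hw j) x).trans ?_)
    norm_num
  · intro W W' hw hw'
    have h1 : Filter.Tendsto (fun j => ‖(re (gb (b j) (ofR (W - w0))) - (W - w0)) -
      (re (gb (b j) (ofR (W' - w0))) - (W' - w0))‖)
        Filter.atTop (𝓝 ‖(c (W - w0) - (W - w0)) - (c (W' - w0) - (W' - w0))‖) :=
      (((hc _ hw).sub tendsto_const_nhds).sub ((hc _ hw').sub tendsto_const_nhds)).norm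
    have e1 : (p0 + c (W - w0) - W) - (p0 + c (W' - w0) - W') =
        (c (W - w0) - (W - w0)) - (c (W' - w0) - (W' - w0)) := by abel
    rw [e1]
    refine le_of_tendsto h1 (Filter.Eventually.of_forall fun j => (hI.c_lip j hw hw').1.trans ?_)
    rw [sub_sub_sub_cancel_right]
    have : 0 ≤ ‖W - W'‖ := norm_nonneg _
    linarith
  · intro W hw
    have h1 : Filter.Tendsto (fun j => ‖re (gb (b j) (ofR (W - w0))) - (W - w0)‖)
        Filter.atTop (𝓝 ‖c (W - w0) - (W - w0)‖) := ((hc _ hw).sub tendsto_const_nhds).norm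
    rw [add_sub_cancel_left]
    refine le_of_tendsto h1 (Filter.Eventually.of_forall fun j => (hI.c_lip j hw hw).2.trans ?_)
    norm_num
  · intro W hw ε hε
    have h := hI.conj_lim hδ hHpt (fun j x p hp => (hH j x p hp).2) hw
      (P := fun x => c (W - w0) + G (W - w0) x) (fun x => hq _ hw x) hε
    rw [sub_add_cancel] at h
    exact h

end Pool.Agent.LRW
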