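import Pool.Agent.LRT.LT
import Pool.Agent.LRW.F9
import Pool.Agent.LRW.C14
import Pool.Agent.LRW.T7
import Pool.Agent.LRW.E7

/-!
LT.  The local theorem: assembly.
-/

set_option autoImplicit false

open MeasureTheory Module Set Filter Topology

namespace Pool.Agent.LRW

open Pool.Agent.LRT

noncomputable section

set_option linter.unusedSectionVars false
set_option linter.style.haveILetI false

variable {n : ℕ}

/-- the gradient in `HamK` is the derivative in `p` -/
lemma ltw_grad {La : ℝ} [Par n] {p0 w0 : RE n} {ka : ℝ} {f Ht : RE n × RE n → ℝ} {Hpt : RE n × RE n → RE n}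
    (hH : HamK La (bsT n) Ht Hpt) (hf : Differentiable ℝ f)
    (hloc : ∀ x p : RE n, ‖p‖ < 4 → Ht (x, p0 + p) = ka + inner ℝ w0 p + ‖p‖ ^ 2 / 2 + f (x, p))
    {x p : RE n} (hp : ‖p‖ ≤ 3) (v : RE n) :
    inner ℝ (Hpt (x, p0 + p)) v = inner ℝ w0 v + inner ℝ p v + fderiv ℝ f (x, p) (0, v) := by
  have h1 : HasDerivAt (fun t : ℝ => Ht (x, p0 + (p + t • v)))
      (inner ℝ w0 v + inner ℝ p v + fderiv ℝ f (x, p) (0, v)) 0 := by
    have e1 : HasDerivAt (fun t : ℝ => f (x, p + t • v)) (fderiv ℝ f (x, p) (0, v)) 0 := by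
      have a1 : HasDerivAt (fun t : ℝ => (x, p + t • v)) ((0 : RE n), v) 0 := by
        refine HasDerivAt.prodMk (hasDerivAt_const _ _) ?_
        simpa using ((hasDerivAt_id (0 : ℝ)).smul_const v).const_add p
      have a2 : HasFDerivAt f (fderiv ℝ f (x, p)) (x, p + (0 : ℝ) • v) := by
        simpa using (hf (x, p)).hasFDerivAt
      exact a2.comp_hasDerivAt 0 a1
    have e2 : HasDerivAt (fun t : ℝ => ‖p + t • v‖ ^ 2 / 2) (inner ℝ p v) 0 := by
      have a0 : (fun t : ℝ => ‖p + t • v‖ ^ 2 / 2) =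
          fun t => ‖p‖ ^ 2 / 2 + t * inner ℝ p v + t ^ 2 * (‖v‖ ^ 2 / 2) := by
        funext t
        rw [norm_add_sq_real, inner_smul_right, norm_smul, mul_pow, Real.norm_eq_abs, sq_abs]
        ring
      rw [a0]
      have a1 : HasDerivAt (fun t : ℝ => ‖p‖ ^ 2 / 2 + t * inner ℝ p v + t ^ 2 * (‖v‖ ^ 2 / 2))
          (1 * inner ℝ p v + ((2 : ℕ) : ℝ) * (0 : ℝ) ^ (2 - 1) * (‖v‖ ^ 2 / 2)) 0 :=
        (((hasDerivAt_id' (0 : ℝ)).mul_const (inner ℝ p v)).const_add (‖p‖ ^ 2 / 2)).add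
          ((hasDerivAt_pow 2 (0 : ℝ)).mul_const (‖v‖ ^ 2 / 2))
      have a2 : (1 * inner ℝ p v + ((2 : ℕ) : ℝ) * (0 : ℝ) ^ (2 - 1) * (‖v‖ ^ 2 / 2)) = inner ℝ p v := by
        norm_num
      rw [a2] at a1
      exact a1
    have e3 : HasDerivAt (fun t : ℝ => ka + inner ℝ w0 (p + t • v)) (inner ℝ w0 v) 0 := by
      have a0 : (fun t : ℝ => ka + inner ℝ w0 (p + t • v)) =
          fun t => ka + inner ℝ w0 p + t * inner ℝ w0 v := by
        funext t
        rw [inner_add_right, inner_smul_right]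
        ring
      rw [a0]
      simpa using ((hasDerivAt_id' (0 : ℝ)).mul_const (inner ℝ w0 v)).const_add (ka + inner ℝ w0 p)
    have e4 := (e3.add e2).add e1
    refine e4.congr_of_eventuallyEq ?_
    have hc : Filter.Tendsto (fun t : ℝ => ‖p + t • v‖) (𝓝 0) (𝓝 ‖p + (0 : ℝ) • v‖) := by
      have : Continuous (fun t : ℝ => ‖p + t • v‖) := by fun_prop
      exact this.tendsto 0
    have hlt : ‖p + (0 : ℝ) • v‖ < 4 := by rw [zero_smul, add_zero]; linarith
    filter_upwards [hc.eventually (eventually_lt_nhds hlt)] with t ht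
    rw [hloc x _ ht]
    rfl
  have h2 : HasDerivAt (fun t : ℝ => Ht (x, p0 + (p + t • v))) (inner ℝ (Hpt (x, p0 + p)) v) 0 := by
    rw [hasDerivAt_iff_isLittleO]
    have hLa : 0 ≤ |La| + |1 / (4 * La)| := by positivity
    have key : ∀ t : ℝ, ‖Ht (x, p0 + (p + t • v)) - Ht (x, p0 + (p + (0 : ℝ) • v)) -
        (t - 0) • inner ℝ (Hpt (x, p0 + p)) v‖ ≤ ((|La| + |1 / (4 * La)|) * ‖v‖ ^ 2) * ‖t ^ 2‖ := by
      intro t
      have b1 := hH.low x (p0 + p) (t • v)
      have b2 := hH.up x (p0 + p) (t • v)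
      rw [inner_smul_right, norm_smul, mul_pow, Real.norm_eq_abs, sq_abs] at b1 b2
      rw [zero_smul, add_zero, sub_zero, smul_eq_mul, Real.norm_eq_abs, Real.norm_eq_abs,
        abs_of_nonneg (sq_nonneg t), ← add_assoc, abs_le]
      have b3 : 0 ≤ t ^ 2 * ‖v‖ ^ 2 := by positivity
      have b4 : La * (t ^ 2 * ‖v‖ ^ 2) ≤ |La| * (t ^ 2 * ‖v‖ ^ 2) :=
        mul_le_mul_of_nonneg_right (le_abs_self _) b3
      have b5 : -(|1 / (4 * La)| * (t ^ 2 * ‖v‖ ^ 2)) ≤ t ^ 2 * ‖v‖ ^ 2 / (4 * La) := by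
        have := mul_le_mul_of_nonneg_right (neg_abs_le (1 / (4 * La))) b3
        have e : t ^ 2 * ‖v‖ ^ 2 / (4 * La) = 1 / (4 * La) * (t ^ 2 * ‖v‖ ^ 2) := by ring
        rw [e]
        linarith
      have b6 : 0 ≤ |La| * (t ^ 2 * ‖v‖ ^ 2) := by positivity
      have b7 : 0 ≤ |1 / (4 * La)| * (t ^ 2 * ‖v‖ ^ 2) := by positivity
      constructor <;> nlinarith
    have o1 : (fun t : ℝ => Ht (x, p0 + (p + t • v)) - Ht (x, p0 + (p + (0 : ℝ) • v)) -
        (t - 0) • inner ℝ (Hpt (x, p0 + p)) v) =O[𝓝 0] fun t : ℝ => t ^ 2 := by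
      refine Asymptotics.IsBigO.of_bound ((|La| + |1 / (4 * La)|) * ‖v‖ ^ 2) (Eventually.of_forall key)
    refine o1.trans_isLittleO ?_
    have := Asymptotics.isLittleO_pow_id (𝕜 := ℝ) (n := 2) (by norm_num)
    simpa using this
  exact h2.unique h1

theorem LT (n : ℕ) (hn : 2 ≤ n) : ∃ s : ℕ, ∀ [Par n] {La : ℝ}, 1 ≤ La → ∃ ε : ℝ, 0 < ε ∧
    ∀ (p0 w0 : RE n) (ka : ℝ) (f Ht : RE n × RE n → ℝ) (Hpt : RE n × RE n → RE n), ContDiff ℝ s f →
    (∀ x p : RE n, ∀ k : Fin n → ℤ, f (x + lat k, p) = f (x, p)) →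
    (∀ j ≤ s, ∀ x p : RE n, ‖p‖ ≤ 5 * Real.sqrt n → ‖iteratedFDeriv ℝ j f (x, p)‖ ≤ ε) →
    HamK La (bsT n) Ht Hpt →
    (∀ x p : RE n, ‖p‖ < 4 → Ht (x, p0 + p) = ka + inner ℝ w0 p + ‖p‖ ^ 2 / 2 + f (x, p)) →
    (∀ h : RE n, ‖h - w0‖ < 2 → DifferentiableAt ℝ (betaL (bsT n) (Leg Ht)) h) →
    ∃ (c : RE n → RE n) (a : RE n → ℝ) (u : RE n → RE n → ℝ) (P : RE n → RE n → RE n),
      LocalSol p0 w0 Ht Hpt 1 c a u P := by
  obtain ⟨M, hMdef⟩ : ∃ M, M = MM n := ⟨_, rfl⟩
  have hM : 1 ≤ M := by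
    rw [hMdef]
    exact c14_MM n
  obtain ⟨s, happ'⟩ := approx n (2 * M)
  refine ⟨max s 1, ?_⟩
  intro _ La hLa
  obtain ⟨C, hC, happ⟩ := happ'
  obtain ⟨r1, hr1, hit⟩ := iteration n 9
  obtain ⟨r2, hr2, hlim⟩ := limit n
  obtain ⟨r3, hr3, hres⟩ := res_of_diff (n := n) (by omega) hLa
  have hM5 : M + 5 * (n + 4) + 1 ≤ 2 * M := by
    have h1 : n + 4 ≤ (n + 4) ^ 2 := Nat.le_self_pow (by norm_num) _
    have h2 : M = 200 * (n + 4) ^ 2 := by rw [hMdef, MM]
    omega
  rw [← hMdef] at hit hlim hres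
  have hTh := one_le_Th (n := n)
  set r : ℝ := min (min r1 r2) (min r3 (min (1 / 64) (1 / Th n))) with hr
  have hr0 : 0 < r := by
    rw [hr]
    exact lt_min (lt_min hr1 hr2) (lt_min hr3 (lt_min (by norm_num) (by positivity)))
  have hrr1 : r ≤ r1 := (min_le_left _ _).trans (min_le_left _ _)
  have hrr2 : r ≤ r2 := (min_le_left _ _).trans (min_le_right _ _)
  have hrr3 : r ≤ r3 := (min_le_right _ _).trans (min_le_left _ _)
  have hrr4 : r ≤ 1 / 64 := ((min_le_right _ _).trans (min_le_right _ _)).trans (min_le_left _ _)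
  have hrr5 : r ≤ 1 / Th n := ((min_le_right _ _).trans (min_le_right _ _)).trans (min_le_right _ _)
  set δ : ℕ → ℝ := lt_rho M r with hδ
  have hδ0 : δ 0 = r := rfl
  have hδpos : ∀ j, 0 < δ j := fun j => lt_rho_pos hr0 j
  have hδpow : ∀ j, (δ (j + 1)) ^ M = (δ j) ^ (M + 1) := fun j => lt_rho_pow (by omega) hr0 j
  have hδmono : ∀ j, δ j ≤ r := by
    intro j
    induction j with
    | zero => exact le_rfl
    | succ j ih =>
      have h1 := hδpow j
      have h2 : (δ (j + 1)) ^ M ≤ (δ j) ^ M := by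
        rw [h1, pow_succ]
        exact mul_le_of_le_one_right (pow_pos (hδpos j) _).le (by linarith)
      exact (le_of_pow_le_pow_left₀ (by omega) (hδpos j).le h2).trans ih
  set ρ : ℕ → ℝ := fun j => (δ j) ^ (8 * M) with hρ
  have hρpos : ∀ j, 0 < ρ j := fun j => pow_pos (hδpos j) _
  have hρδ : ∀ j, ρ j ≤ δ j := by
    intro j
    calc (δ j) ^ (8 * M) ≤ (δ j) ^ 1 :=
          pow_le_pow_of_le_one (hδpos j).le (by have := hδmono j; linarith) (by omega)
      _ = δ j := pow_one _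
  have hρmono : ∀ j, ρ j ≤ r := fun j => (hρδ j).trans (hδmono j)
  have hδdec : ∀ j, δ (j + 1) ≤ δ j := by
    intro j
    have h2 : (δ (j + 1)) ^ M ≤ (δ j) ^ M := by
      rw [hδpow j, pow_succ]
      exact mul_le_of_le_one_right (pow_pos (hδpos j) _).le (by have := hδmono j; linarith)
    exact le_of_pow_le_pow_left₀ (by omega) (hδpos j).le h2
  have hρdec : ∀ j, ρ (j + 1) ≤ ρ j := fun j => pow_le_pow_left₀ (hδpos _).le (hδdec j) _
  set ε : ℝ := (ρ 0) ^ M / (4 * C) with hε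
  have hε0 : 0 < ε := by rw [hε]; have := hρpos 0; positivity
  have hCε : C * ε = (ρ 0) ^ M / 4 := by rw [hε]; field_simp
  have hrM : (ρ 0) ^ M ≤ 1 := pow_le_one₀ (hρpos 0).le (by have := hρmono 0; linarith)
  refine ⟨ε, hε0, fun p0 w0 ka f Ht Hpt hf hper hsmall hH hloc hdiff => ?_⟩
  have hfs : ContDiff ℝ s f := hf.of_le (by exact_mod_cast le_max_left _ _)
  have hfd : Differentiable ℝ f := hf.differentiable (by
    have : 1 ≤ max s 1 := le_max_right _ _
    have h2 : (max s 1 : ℕ) ≠ 0 := by omega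
    exact_mod_cast h2)
  obtain ⟨F, hF1, hF2, hF3, hF4, hF5, hF6⟩ := happ ε f hfs hper
    (fun j hj => hsmall j (hj.trans (le_max_left _ _)))
  set R : ℕ → ℝ := fun j => 2 - ∑ i ∈ Finset.range j, 4 * δ i with hR
  have hR0 : R 0 = 2 := by simp [hR]
  have hRs : ∀ j, R (j + 1) = R j - 4 * δ j := by
    intro j
    simp only [hR, Finset.sum_range_succ]
    ring
  have hR2 : ∀ j, R j ≤ 2 := by
    intro j
    have : 0 ≤ ∑ i ∈ Finset.range j, 4 * δ i := Finset.sum_nonneg fun i _ => by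
      have := hδpos i
      linarith
    simp only [hR]
    linarith
  set H : ℕ → CE n × CE n → ℂ := fun j z => dot z.2 z.2 / 2 + F (1 / ρ j) z with hHdef
  have hdotd : Differentiable ℂ (fun z : CE n × CE n => dot z.2 z.2 / 2) := by
    have h1 : Differentiable ℂ (fun z : CE n × CE n => dotB z.2 z.2) :=
      (dotB.differentiable.comp differentiable_snd).clm_apply differentiable_snd
    have h2 : (fun z : CE n × CE n => dot z.2 z.2 / 2) = fun z => (2 : ℂ)⁻¹ * dotB z.2 z.2 := by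
      funext z
      rw [dotB_apply]
      ring
    rw [h2]
    exact h1.const_mul _
  have hHd : ∀ j, Differentiable ℂ (H j) := fun j => hdotd.add (hF1 _)
  have hT : ∀ j, Th n ≤ 1 / ρ j := by
    intro j
    rw [le_div_iff₀ (hρpos j)]
    have h1 := (hρmono j).trans hrr5
    rw [le_div_iff₀ (by linarith)] at h1
    linarith
  have hsmallF : ∀ j, C * ε / (1 / ρ j) ^ (2 * M) ≤ (ρ j) ^ (2 * M) / 4 := by
    intro j
    rw [hCε, one_div, inv_pow, div_inv_eq_mul]
    have h1 : 0 < (ρ j) ^ (2 * M) := pow_pos (hρpos j) _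
    have h2 : (ρ 0) ^ M * (ρ j) ^ (2 * M) ≤ 1 * (ρ j) ^ (2 * M) := mul_le_mul_of_nonneg_right hrM h1.le
    linarith
  have hle2 : ∀ j, (ρ j) ^ (2 * M) ≤ (ρ j) ^ (M + 1) := by
    intro j
    exact pow_le_pow_of_le_one (hρpos j).le (by have := hρmono j; linarith) (by omega)
  -- accuracy at real points
  have hacc : ∀ j (x p : RE n), ‖p‖ ≤ 3 →
      |Ht (x, p0 + p) - ka - inner ℝ w0 p - (H j (ofR x, ofR p)).re| ≤ (ρ j) ^ (2 * M) ∧
      ‖Hpt (x, p0 + p) - w0 - re (gw (H j) (ofR x, ofR p))‖ ≤ (ρ j) ^ (2 * M) := by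
    intro j x p hp
    obtain ⟨g1, g2⟩ := hF6 (1 / ρ j) (hT j) x p hp
    have hpos : 0 < (ρ j) ^ (2 * M) := pow_pos (hρpos j) _
    constructor
    · have e1 : (H j (ofR x, ofR p)).re = ‖p‖ ^ 2 / 2 + (F (1 / ρ j) (ofR x, ofR p)).re := by
        simp only [hHdef, dot_ofR, real_inner_self_eq_norm_sq]
        rw [Complex.add_re]
        congr 1
        have : ((‖p‖ ^ 2 : ℝ) : ℂ) / 2 = ((‖p‖ ^ 2 / 2 : ℝ) : ℂ) := by push_cast; ring
        rw [this, Complex.ofReal_re]
      rw [e1, hloc x p (by linarith)]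
      have e2 : ka + inner ℝ w0 p + ‖p‖ ^ 2 / 2 + f (x, p) - ka - inner ℝ w0 p -
          (‖p‖ ^ 2 / 2 + (F (1 / ρ j) (ofR x, ofR p)).re) =
          -((F (1 / ρ j) (ofR x, ofR p) - ((f (x, p) : ℝ) : ℂ)).re) := by
        rw [Complex.sub_re, Complex.ofReal_re]
        ring
      rw [e2, abs_neg]
      refine (Complex.abs_re_le_norm _).trans (g1.trans ((hsmallF j).trans ?_))
      linarith
    · have hineq : ∀ v : RE n, inner ℝ (Hpt (x, p0 + p) - w0 - re (gw (H j) (ofR x, ofR p))) v ≤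
          (ρ j) ^ (2 * M) * ‖v‖ := by
        intro v
        rw [inner_sub_left, inner_sub_left, ltw_grad hH hfd hloc hp, ← lt_dot_re, dot_gw]
        have d1 : fderiv ℂ (H j) (ofR x, ofR p) (0, ofR v) =
            ((inner ℝ p v : ℝ) : ℂ) + fderiv ℂ (F (1 / ρ j)) (ofR x, ofR p) (0, ofR v) := by
          have a1 : fderiv ℂ (H j) (ofR x, ofR p) = fderiv ℂ (fun z : CE n × CE n => dot z.2 z.2 / 2) (ofR x, ofR p) +
              fderiv ℂ (F (1 / ρ j)) (ofR x, ofR p) := fderiv_add (hdotd _) (hF1 _ _)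
          rw [a1, add_apply]
          congr 1
          have a2 : HasFDerivAt (fun z : CE n × CE n => dotB z.2 z.2)
              ((dotB (ofR p)).comp (ContinuousLinearMap.snd ℂ (CE n) (CE n)) +
                ((dotB.flip (ofR p))).comp (ContinuousLinearMap.snd ℂ (CE n) (CE n))) (ofR x, ofR p) := by
            have b1 : HasFDerivAt (fun z : CE n × CE n => z.2) (ContinuousLinearMap.snd ℂ (CE n) (CE n))
              (ofR x, ofR p) := hasFDerivAt_snd
            have b2 := (dotB (n := n)).hasFDerivAt_of_bilinear b1 b1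
            refine b2.congr_fderiv ?_
            refine ContinuousLinearMap.ext fun z => ?_
            simp [dot_comm]
          have a3 : HasFDerivAt (fun z : CE n × CE n => dot z.2 z.2 / 2)
              ((2 : ℂ)⁻¹ • ((dotB (ofR p)).comp (ContinuousLinearMap.snd ℂ (CE n) (CE n)) +
                ((dotB.flip (ofR p))).comp (ContinuousLinearMap.snd ℂ (CE n) (CE n)))) (ofR x, ofR p) := by
            have a4 := a2.const_mul (2 : ℂ)⁻¹
            refine a4.congr_of_eventuallyEq (Eventually.of_forall fun z => ?_)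
            simp only [dotB_apply]
            ring
          rw [a3.fderiv]
          simp only [smul_apply, add_apply, ContinuousLinearMap.comp_apply, ContinuousLinearMap.coe_snd', dotB_apply,
            ContinuousLinearMap.flip_apply, smul_eq_mul]
          rw [dot_comm (ofR v) (ofR p), dot_ofR]
          ring
        rw [d1, Complex.add_re, Complex.ofReal_re]
        have g3 := g2 v
        have g4 : -(fderiv ℂ (F (1 / ρ j)) (ofR x, ofR p) (0, ofR v) -
            ((fderiv ℝ f (x, p) (0, v) : ℝ) : ℂ)).re ≤ C * ε / (1 / ρ j) ^ (2 * M) * ‖v‖ := by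
          refine le_trans (neg_le_abs _) ((Complex.abs_re_le_norm _).trans g3)
        rw [Complex.sub_re, Complex.ofReal_re] at g4
        have g5 : C * ε / (1 / ρ j) ^ (2 * M) * ‖v‖ ≤ (ρ j) ^ (2 * M) * ‖v‖ :=
          mul_le_mul_of_nonneg_right ((hsmallF j).trans (by linarith)) (norm_nonneg _)
        linarith
      set w := Hpt (x, p0 + p) - w0 - re (gw (H j) (ofR x, ofR p)) with hw
      have h1 := hineq w
      rw [real_inner_self_eq_norm_sq] at h1
      rcases eq_or_lt_of_le (norm_nonneg w) with h | h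
      · rw [← h]; exact hpos.le
      · nlinarith
  have key := hit w0 ρ δ R H (hδpos 0) (by rw [hδ0]; exact hrr1) (fun j => ⟨hδpos (j + 1), hδpow j⟩)
    (fun j => rfl) hR0 hRs (by norm_num) ?_ ?_ ?_
  · obtain ⟨hk1, b, u, hb0, hu0, hk2⟩ := key
    have hgeo : ∀ j, ρ j ≤ (1 / 64 : ℝ) ^ j := by
      intro j
      induction j with
      | zero => have := hρmono 0; rw [pow_zero]; linarith
      | succ j ih =>
        rw [pow_succ]
        have := (hk1 j).2.2.2
        linarith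
    have hρt : Filter.Tendsto ρ Filter.atTop (𝓝 0) :=
      squeeze_zero (fun j => (hρpos j).le) hgeo
        (tendsto_pow_atTop_nhds_zero_of_lt_one (by norm_num) (by norm_num))
    refine hlim p0 w0 ka 9 ρ R ρ H Ht Hpt b u ((hρmono 0).trans hrr2)
      hk1 hρt hH.cont hH.contp (fun j x p hp => ?_) hb0 hu0 hk2
    obtain ⟨c1, c2⟩ := hacc j x p hp
    have h1 : (ρ j) ^ (2 * M) ≤ ρ j := by
      calc (ρ j) ^ (2 * M) ≤ (ρ j) ^ 1 :=
            pow_le_pow_of_le_one (hρpos j).le (by have := hρmono j; linarith) (by omega)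
        _ = ρ j := pow_one _
    exact ⟨c1.trans h1, c2.trans h1⟩
  · intro j
    refine ⟨(hHd j).differentiableOn, ?_, ?_, ?_, ?_⟩
    · intro z _
      simp only [hHdef, cjp, dot_cj, map_add, map_div₀]
      have h2 : (starRingEnd ℂ) (2 : ℂ) = 2 := Complex.conj_ofNat 2
      rw [h2]
      congr 1
      exact hF3 (1 / ρ j) z
    · intro z _ k
      simp only [hHdef]
      rw [hF2]
    · intro z hz
      obtain ⟨z1, z2, z3⟩ := hz
      have hb : ‖z.2‖ ≤ 7 / 2 := by
        have := lt_norm_le z.2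
        have := hρmono j
        linarith
      have h1 : ‖dot z.2 z.2 / 2‖ ≤ (7 / 2) ^ 2 / 2 := by
        rw [norm_div, Complex.norm_ofNat]
        have := norm_dot_le z.2 z.2
        have h3 : ‖z.2‖ * ‖z.2‖ ≤ (7 / 2) ^ 2 := by nlinarith [norm_nonneg z.2]
        linarith
      have e2 : 2 / (1 / ρ j) = 2 * ρ j := by
        have := (hρpos j).ne'
        field_simp
      have h2 := hF4 (1 / ρ j) (hT j) z (by rw [e2]; exact z1.le) (by rw [e2]; exact z2.le)
      have h3 : C * ε ≤ 1 / 4 := by rw [hCε]; linarith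
      refine (norm_add_le _ _).trans ?_
      have h4 : (7 / 2 : ℝ) ^ 2 / 2 ≤ 8 := by norm_num
      linarith
    · intro z hz
      obtain ⟨z1, z2, z3⟩ := hz
      have e2 : 2 / (1 / ρ (j + 1)) = 2 * ρ (j + 1) := by
        have := (hρpos (j + 1)).ne'
        field_simp
      have hmon : ρ (j + 1) ≤ ρ j := hρdec j
      have h1 := hF5 (1 / ρ j) (1 / ρ (j + 1)) (hT j) (one_div_le_one_div_of_le (hρpos _) hmon) z
        (by rw [e2]; exact z1.le) (by rw [e2]; exact z2.le)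
      have e3 : H (j + 1) z - H j z = F (1 / ρ (j + 1)) z - F (1 / ρ j) z := by
        simp only [hHdef]; ring
      rw [e3]
      refine h1.trans ((hsmallF j).trans ?_)
      have := hle2 j
      linarith
  · intro z hz
    obtain ⟨z1, z2, z3⟩ := hz
    have e2 : 2 / (1 / ρ 0) = 2 * ρ 0 := by
      have := (hρpos 0).ne'
      field_simp
    have h2 := hF4 (1 / ρ 0) (hT 0) z (by rw [e2]; exact z1.le) (by rw [e2]; exact z2.le)
    have e3 : H 0 z - dot z.2 z.2 / 2 = F (1 / ρ 0) z := by simp only [hHdef]; ring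
    rw [e3]
    refine h2.trans ?_
    rw [hCε]
    have : 0 < (ρ 0) ^ M := pow_pos (hρpos 0) _
    linarith
  · intro j κ b u hNS herr
    have hpw : ∀ k ≤ 2 * M, (ρ j) ^ (2 * M) ≤ (ρ j) ^ k := fun k hk =>
      pow_le_pow_of_le_one (hρpos j).le (by have := hρmono j; linarith) hk
    exact hres p0 w0 ka κ (ρ j) (R j) 9 (H j) b u hNS ((hρmono j).trans hrr3) herr Ht Hpt hH
      (fun x p hp => ((hacc j x p (hp.trans (by have := hR2 j; linarith))).1).trans (hpw _ hM5))
      (fun x p hp => ((hacc j x p (hp.trans (by have := hR2 j; linarith))).2).trans (hpw _ (by omega)))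
      (fun h hh => hdiff h (hh.trans_le (hR2 j)))

end

end Pool.Agent.LRW
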