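import Pool.Agent.LRW.PD

/-!
NF: the quadratic normal form at a point `pst` (helper61).

`NF1`: a positive definite quadratic form is a multiple of the square of the norm in suitable linear coordinates.
`NF2`: in the scaled coordinates `x = T⁻¹ x'`, `p = pst + l S π` the Hamiltonian `h + f` is a `C^s`-small perturbation of a
quadratic one.
-/

set_option autoImplicit false

open Set MeasureTheory Topology

namespace Pool.Agent.LRW

open Pool.Agent.LRT

variable {n : ℕ}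

/-- the adjoint of the lattice map -/
noncomputable def SP (n : ℕ) [Par n] : RE n →L[ℝ] RE n :=
  ContinuousLinearMap.adjoint ((Par.T : RE n ≃L[ℝ] RE n) : RE n →L[ℝ] RE n)

lemma SP_inner [Par n] (v x : RE n) : inner ℝ (SP n v) x = inner ℝ v ((Par.T : RE n ≃L[ℝ] RE n) x) := by
  unfold SP
  rw [ContinuousLinearMap.adjoint_inner_left]
  rfl

lemma norm_SP_le [Par n] : ‖SP n‖ ≤ 1 := by
  unfold SP
  rw [LinearIsometryEquiv.norm_map]
  exact ContinuousLinearMap.opNorm_le_bound _ zero_le_one fun x => by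
    rw [one_mul]; exact Par.hT x

theorem NF1 {La : ℝ} (hLa : 0 < La) (B : RE n →L[ℝ] RE n →L[ℝ] ℝ) (hs : ∀ v w, B v w = B w v)
    (h1 : ∀ v, ‖v‖ ^ 2 / (2 * La) ≤ B v v) (h2 : ∀ v, B v v ≤ 2 * La * ‖v‖ ^ 2) :
    ∃ (_ : Par n) (c : ℝ), 0 < c ∧ c ^ 2 = 1 / (2 * La) ∧ (∀ v, B (SP n v) (SP n v) = c ^ 2 * ‖v‖ ^ 2) ∧
      (∀ v, c ^ 2 * ‖v‖ ^ 2 ≤ 2 * La * ‖SP n v‖ ^ 2) ∧ ∀ v, ‖SP n v‖ ^ 2 ≤ 2 * La * c ^ 2 * ‖v‖ ^ 2 := by
  -- the operator of the form
  set A : RE n →ₗ[ℝ] RE n :=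
    { toFun := fun v => (InnerProductSpace.toDual ℝ (RE n)).symm (B v)
      map_add' := fun v w => by rw [map_add, map_add]
      map_smul' := fun r v => by
        rw [map_smul, map_smulₛₗ]
        rfl } with hA
  have hAi : ∀ v w, inner ℝ (A v) w = B v w := fun v w =>
    InnerProductSpace.toDual_symm_apply
  have hsym : A.IsSymmetric := fun v w => by
    rw [hAi, real_inner_comm, hAi, hs]
  have hfr : Module.finrank ℝ (RE n) = n := by simp
  set e := hsym.eigenvectorBasis hfr with he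
  set lam := hsym.eigenvalues hfr with hlam
  have hae : ∀ i, A (e i) = lam i • e i := fun i => hsym.apply_eigenvectorBasis hfr i
  have hBe : ∀ i j, B (e i) (e j) = if i = j then lam i else 0 := fun i j => by
    rw [← hAi, hae, real_inner_smul_left, orthonormal_iff_ite.1 e.orthonormal i j]
    split_ifs <;> simp
  have hlp : ∀ i, 0 < lam i := fun i => by
    have h3 := h1 (e i)
    rw [hBe, if_pos rfl, e.norm_eq_one] at h3
    have h4 : 0 < (1 : ℝ) ^ 2 / (2 * La) := by positivity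
    linarith
  -- the map
  set c : ℝ := Real.sqrt (1 / (2 * La)) with hc
  have hc0 : 0 < c := Real.sqrt_pos.2 (by positivity)
  have hc2 : c ^ 2 = 1 / (2 * La) := Real.sq_sqrt (by positivity)
  set F : RE n →ₗ[ℝ] RE n :=
    { toFun := fun v => ∑ i, (c * v i / Real.sqrt (lam i)) • e i
      map_add' := fun v w => by
        rw [← Finset.sum_add_distrib]
        refine Finset.sum_congr rfl fun i _ => ?_
        rw [← add_smul, PiLp.add_apply]
        congr 1
        ring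
      map_smul' := fun r v => by
        rw [RingHom.id_apply, Finset.smul_sum]
        refine Finset.sum_congr rfl fun i _ => ?_
        rw [smul_smul, PiLp.smul_apply, smul_eq_mul]
        congr 1
        ring } with hF
  have hFv : ∀ v, F v = ∑ i, (c * v i / Real.sqrt (lam i)) • e i := fun v => rfl
  have hBF : ∀ v, B (F v) (F v) = c ^ 2 * ‖v‖ ^ 2 := fun v => by
    have h7 : ∀ w, B (F v) w = ∑ i, B ((c * v i / Real.sqrt (lam i)) • e i) w := fun w => by
      rw [hFv, map_sum]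
      simp
    rw [h7, hFv]
    have h3 : ∀ i, (B ((c * v i / Real.sqrt (lam i)) • e i)) (∑ j, (c * v j / Real.sqrt (lam j)) • e j) =
        c ^ 2 * v i ^ 2 := fun i => by
      rw [map_smul]
      change (c * v i / Real.sqrt (lam i)) * (B (e i) (∑ j, (c * v j / Real.sqrt (lam j)) • e j)) = _
      rw [map_sum]
      have h4 : ∀ j, (B (e i)) ((c * v j / Real.sqrt (lam j)) • e j) =
          if i = j then c * v j / Real.sqrt (lam j) * lam i else 0 := fun j => by
        rw [map_smul, smul_eq_mul, hBe]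
        split_ifs <;> simp
      rw [Finset.sum_congr rfl fun j _ => h4 j, Finset.sum_ite_eq, if_pos (Finset.mem_univ i)]
      have h5 : Real.sqrt (lam i) ≠ 0 := (Real.sqrt_pos.2 (hlp i)).ne'
      have h6 : Real.sqrt (lam i) ^ 2 = lam i := Real.sq_sqrt (hlp i).le
      field_simp
      rw [h6]
    rw [Finset.sum_congr rfl fun i _ => h3 i, ← Finset.mul_sum, EuclideanSpace.norm_sq_eq]
    simp
  have hFn : ∀ v, ‖F v‖ ≤ ‖v‖ := fun v => by
    have h3 := h1 (F v)
    rw [hBF, hc2] at h3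
    have h4 : 0 < 1 / (2 * La) := by positivity
    have h5 : ‖F v‖ ^ 2 ≤ ‖v‖ ^ 2 := by
      have h6 : ‖F v‖ ^ 2 / (2 * La) = 1 / (2 * La) * ‖F v‖ ^ 2 := by ring
      rw [h6] at h3
      exact le_of_mul_le_mul_left h3 h4
    exact (sq_le_sq₀ (norm_nonneg _) (norm_nonneg _)).1 h5
  have hFi : Function.Injective F := by
    rw [injective_iff_map_eq_zero]
    intro v hv
    have h3 := hBF v
    rw [hv, map_zero] at h3
    change 0 = c ^ 2 * ‖v‖ ^ 2 at h3
    have h4 : ‖v‖ ^ 2 = 0 := by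
      have h5 : c ^ 2 ≠ 0 := by positivity
      rcases mul_eq_zero.1 h3.symm with h6 | h6
      · exact absurd h6 h5
      · exact h6
    exact norm_eq_zero.1 (pow_eq_zero_iff (two_ne_zero)|>.1 h4)
  set S : RE n ≃L[ℝ] RE n := (LinearEquiv.ofInjectiveEndo F hFi).toContinuousLinearEquiv with hS
  have hSF : ∀ v, S v = F v := fun v => rfl
  set Tc : RE n →L[ℝ] RE n := ContinuousLinearMap.adjoint (S : RE n →L[ℝ] RE n) with hTc
  have hTi : Function.Injective (Tc : RE n →ₗ[ℝ] RE n) := by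
    rw [injective_iff_map_eq_zero]
    intro v hv
    have h3 : inner ℝ (Tc v) (S.symm v) = inner ℝ v v := by
      rw [hTc, ContinuousLinearMap.adjoint_inner_left]
      simp
    have h4 : Tc v = 0 := hv
    rw [h4, inner_zero_left] at h3
    exact inner_self_eq_zero.1 h3.symm
  set T : RE n ≃L[ℝ] RE n := (LinearEquiv.ofInjectiveEndo (Tc : RE n →ₗ[ℝ] RE n) hTi).toContinuousLinearEquiv
    with hT
  have hTT : (T : RE n →L[ℝ] RE n) = Tc := by
    ext1 v
    rfl
  have hSn : ‖(S : RE n →L[ℝ] RE n)‖ ≤ 1 :=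
    ContinuousLinearMap.opNorm_le_bound _ zero_le_one fun x => by
      rw [one_mul]; exact hFn x
  have hTn : ‖Tc‖ ≤ 1 := by
    rw [hTc, LinearIsometryEquiv.norm_map]
    exact hSn
  let P : Par n := ⟨T, fun x => by
    have h3 := Tc.le_opNorm x
    have h4 : T x = Tc x := rfl
    rw [h4]
    refine h3.trans ?_
    have := norm_nonneg x
    nlinarith⟩
  have hSP : SP n = (S : RE n →L[ℝ] RE n) := by
    unfold SP
    have h3 : ((Par.T : RE n ≃L[ℝ] RE n) : RE n →L[ℝ] RE n) = Tc := hTT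
    rw [h3, hTc, ContinuousLinearMap.adjoint_adjoint]
  have hSP' : ∀ v, SP n v = F v := fun v => by
    rw [hSP]
    rfl
  refine ⟨P, c, hc0, hc2, fun v => by rw [hSP', hBF], fun v => ?_, fun v => ?_⟩
  · rw [hSP', ← hBF]
    exact h2 (F v)
  · rw [hSP', mul_assoc, ← hBF]
    have h3 := h1 (F v)
    rw [div_le_iff₀ (by positivity)] at h3
    linarith

/-- iterated derivatives of the composition with a linear map -/
theorem nf_comp {V W G : Type*} [NormedAddCommGroup V] [NormedSpace ℝ V] [NormedAddCommGroup W] [NormedSpace ℝ W]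
    [NormedAddCommGroup G] [NormedSpace ℝ G] {s : ℕ} {f : W → G} (hf : ContDiff ℝ s f) (L : V →L[ℝ] W) {N : ℝ}
    (hL : ‖L‖ ≤ N) {j : ℕ} (hj : j ≤ s) (z : V) :
    ‖iteratedFDeriv ℝ j (fun z => f (L z)) z‖ ≤ ‖iteratedFDeriv ℝ j f (L z)‖ * N ^ j := by
  have h1 := L.iteratedFDeriv_comp_right hf z (i := j) (by exact_mod_cast hj)
  have h2 : (fun z => f (L z)) = f ∘ L := rfl
  rw [h2, h1]
  refine (ContinuousMultilinearMap.norm_compContinuousLinearMap_le _ _).trans ?_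
  rw [Finset.prod_const, Finset.card_univ, Fintype.card_fin]
  gcongr

/-- Taylor estimate for a function with vanishing 2-jet at zero -/
theorem nf_taylor {V G : Type*} [NormedAddCommGroup V] [NormedSpace ℝ V] [NormedAddCommGroup G] [NormedSpace ℝ G]
    {g : V → G} (hg : ContDiff ℝ 3 g) (h0 : ∀ j < 3, iteratedFDeriv ℝ j g 0 = 0) {r M : ℝ}
    (hM : ∀ q, ‖q‖ ≤ r → ‖iteratedFDeriv ℝ 3 g q‖ ≤ M) {q : V} (hq : ‖q‖ ≤ r) :
    ‖iteratedFDeriv ℝ 2 g q‖ ≤ M * ‖q‖ ∧ ‖iteratedFDeriv ℝ 1 g q‖ ≤ M * ‖q‖ ^ 2 ∧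
      ‖iteratedFDeriv ℝ 0 g q‖ ≤ M * ‖q‖ ^ 3 := by
  have key : ∀ j : ℕ, j < 3 → ∀ {C : ℝ}, (∀ y, ‖y‖ ≤ ‖q‖ → ‖iteratedFDeriv ℝ (j + 1) g y‖ ≤ C) →
      ∀ y, ‖y‖ ≤ ‖q‖ → ‖iteratedFDeriv ℝ j g y‖ ≤ C * ‖y‖ := by
    intro j hj C hC y hy
    have hd : Differentiable ℝ (iteratedFDeriv ℝ j g) :=
      hg.differentiable_iteratedFDeriv (by exact_mod_cast hj)
    have h1 := (convex_closedBall (0 : V) ‖q‖).norm_image_sub_le_of_norm_fderiv_le (𝕜 := ℝ)
      (f := iteratedFDeriv ℝ j g) (C := C) (fun z _ => hd z) (fun z hz => by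
        rw [norm_fderiv_iteratedFDeriv]
        exact hC z (mem_closedBall_zero_iff.1 hz))
      (mem_closedBall_zero_iff.2 (by rw [norm_zero]; exact norm_nonneg q)) (mem_closedBall_zero_iff.2 hy)
    rwa [h0 j hj, sub_zero, sub_zero] at h1
  have hM0 : 0 ≤ M := (norm_nonneg _).trans (hM q hq)
  have k2 : ∀ y, ‖y‖ ≤ ‖q‖ → ‖iteratedFDeriv ℝ 2 g y‖ ≤ M * ‖y‖ :=
    key 2 (by norm_num) (fun y hy => hM y (hy.trans hq))
  have k1 : ∀ y, ‖y‖ ≤ ‖q‖ → ‖iteratedFDeriv ℝ 1 g y‖ ≤ M * ‖q‖ * ‖y‖ :=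
    key 1 (by norm_num) (fun y hy => (k2 y hy).trans (by gcongr))
  have k0 : ∀ y, ‖y‖ ≤ ‖q‖ → ‖iteratedFDeriv ℝ 0 g y‖ ≤ M * ‖q‖ * ‖q‖ * ‖y‖ :=
    key 0 (by norm_num) (fun y hy => (k1 y hy).trans (by gcongr))
  refine ⟨k2 q le_rfl, (k1 q le_rfl).trans (le_of_eq (by ring)), (k0 q le_rfl).trans (le_of_eq (by ring))⟩

/-- the remainder of the 2-jet -/
noncomputable def jet2 (h : RE n → ℝ) (pst q : RE n) : ℝ :=
  h (pst + q) - h pst - fderiv ℝ h pst q - 1 / 2 * fderiv ℝ (fderiv ℝ h) pst q q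

theorem jet2_contDiff {m : ℕ} {h : RE n → ℝ} (hh : ContDiff ℝ m h) (pst : RE n) : ContDiff ℝ m (jet2 h pst) := by
  unfold jet2
  have h1 : ContDiff ℝ m (fun q : RE n => h (pst + q)) := hh.comp (contDiff_const.add contDiff_id)
  have h2 : ContDiff ℝ m (fun q : RE n => fderiv ℝ h pst q) := (fderiv ℝ h pst).contDiff
  have h3 : ContDiff ℝ m (fun q : RE n => fderiv ℝ (fderiv ℝ h) pst q q) :=
    (fderiv ℝ (fderiv ℝ h) pst).isBoundedBilinearMap.contDiff.comp (contDiff_id.prodMk contDiff_id)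
  exact ((h1.sub contDiff_const).sub h2).sub (contDiff_const.mul h3)

theorem jet2_zero {h : RE n → ℝ} (hh : ContDiff ℝ 3 h) (pst : RE n) :
    ∀ j < 3, iteratedFDeriv ℝ j (jet2 h pst) 0 = 0 := by
  have hd : Differentiable ℝ h := hh.differentiable (by norm_num)
  have hd1 : ContDiff ℝ 2 (fderiv ℝ h) := hh.fderiv_right (by norm_num)
  have hdd : Differentiable ℝ (fderiv ℝ h) := hd1.differentiable (by norm_num)
  have hsym : ∀ v w, fderiv ℝ (fderiv ℝ h) pst v w = fderiv ℝ (fderiv ℝ h) pst w v := fun v w =>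
    (hh.contDiffAt.isSymmSndFDerivAt (by simp; norm_num)) v w
  have h1 : ∀ q, HasFDerivAt (jet2 h pst) (fderiv ℝ h (pst + q) - fderiv ℝ h pst - fderiv ℝ (fderiv ℝ h) pst q) q := by
    intro q
    have a1 : HasFDerivAt (fun q : RE n => h (pst + q)) (fderiv ℝ h (pst + q)) q := by
      have h3 := (hd (pst + q)).hasFDerivAt.comp q ((hasFDerivAt_id q).const_add pst)
      exact h3.congr_fderiv (ContinuousLinearMap.comp_id _)
    have a2 : HasFDerivAt (fun q : RE n => fderiv ℝ h pst q) (fderiv ℝ h pst) q := (fderiv ℝ h pst).hasFDerivAt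
    have a5 : HasFDerivAt (fun q : RE n => fderiv ℝ (fderiv ℝ h) pst q q) _ q :=
      (fderiv ℝ (fderiv ℝ h) pst).hasFDerivAt.clm_apply (hasFDerivAt_id q)
    have a6 := ((a1.sub_const (h pst)).sub a2).sub (a5.const_mul (1 / 2 : ℝ))
    refine a6.congr_fderiv ?_
    ext v
    change fderiv ℝ h (pst + q) v - fderiv ℝ h pst v - 1 / 2 * (fderiv ℝ (fderiv ℝ h) pst q v +
      fderiv ℝ (fderiv ℝ h) pst v q) = fderiv ℝ h (pst + q) v - fderiv ℝ h pst v -
      fderiv ℝ (fderiv ℝ h) pst q v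
    rw [hsym v q]
    ring
  have h2 : fderiv ℝ (jet2 h pst) = fun q => fderiv ℝ h (pst + q) - fderiv ℝ h pst - fderiv ℝ (fderiv ℝ h) pst q :=
    funext fun q => (h1 q).fderiv
  intro j hj
  rw [← norm_eq_zero]
  interval_cases j
  · rw [norm_iteratedFDeriv_zero]
    simp [jet2]
  · rw [norm_iteratedFDeriv_one, h2]
    simp
  · rw [show (2 : ℕ) = 1 + 1 from rfl, ← norm_iteratedFDeriv_fderiv, norm_iteratedFDeriv_one, h2]
    have a1 : HasFDerivAt (fun q : RE n => fderiv ℝ h (pst + q)) (fderiv ℝ (fderiv ℝ h) (pst + 0)) 0 := by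
      have h3 := (hdd (pst + 0)).hasFDerivAt.comp (0 : RE n) ((hasFDerivAt_id (0 : RE n)).const_add pst)
      exact h3.congr_fderiv (ContinuousLinearMap.comp_id _)
    have a2 : HasFDerivAt (fun q : RE n => fderiv ℝ h (pst + q) - fderiv ℝ h pst - fderiv ℝ (fderiv ℝ h) pst q) _ 0 :=
      (a1.sub_const (fderiv ℝ h pst)).sub (fderiv ℝ (fderiv ℝ h) pst).hasFDerivAt
    rw [a2.fderiv]
    simp

theorem nf_bound {V G : Type*} [NormedAddCommGroup V] [NormedSpace ℝ V] [FiniteDimensional ℝ V]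
    [NormedAddCommGroup G] [NormedSpace ℝ G] {m : ℕ} {g : V → G} (hg : ContDiff ℝ m g) (r : ℝ) :
    ∃ M : ℝ, 0 ≤ M ∧ ∀ j ≤ m, ∀ q, ‖q‖ ≤ r → ‖iteratedFDeriv ℝ j g q‖ ≤ M := by
  have : ProperSpace V := FiniteDimensional.proper ℝ V
  have h1 : ∀ j : ℕ, ∃ M : ℝ, j ≤ m → ∀ q, ‖q‖ ≤ r → ‖iteratedFDeriv ℝ j g q‖ ≤ M := by
    intro j
    by_cases hj : j ≤ m
    · have hc : Continuous (iteratedFDeriv ℝ j g) := hg.continuous_iteratedFDeriv (by exact_mod_cast hj)
      obtain ⟨M, hM⟩ := (isCompact_closedBall (0 : V) r).exists_bound_of_continuousOn hc.continuousOn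
      exact ⟨M, fun _ q hq => hM q (mem_closedBall_zero_iff.2 hq)⟩
    · exact ⟨0, fun h => absurd h hj⟩
  choose M hM using h1
  refine ⟨∑ j ∈ Finset.range (m + 1), |M j|, Finset.sum_nonneg fun j _ => abs_nonneg _, fun j hj q hq => ?_⟩
  refine (hM j hj q hq).trans ((le_abs_self _).trans ?_)
  exact Finset.single_le_sum (f := fun j => |M j|) (fun j _ => abs_nonneg _) (Finset.mem_range.2 (by omega))

/-- the perturbation in the scaled coordinates -/
noncomputable def nff [Par n] (h : RE n → ℝ) (f : RE n × RE n → ℝ) (pst : RE n) (l c : ℝ) (z : RE n × RE n) : ℝ :=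
  (h (pst + l • SP n z.2) - h pst - l * fderiv ℝ h pst (SP n z.2) -
    l ^ 2 / 2 * fderiv ℝ (fderiv ℝ h) pst (SP n z.2) (SP n z.2) +
    f ((Par.T : RE n ≃L[ℝ] RE n).symm z.1, pst + l • SP n z.2)) / (l * c) ^ 2

theorem NF2 [Par n] {s : ℕ} {h : RE n → ℝ} (hh : ContDiff ℝ (max s 3 : ℕ) h) (pst : RE n) {c : ℝ} (hc : 0 < c)
    {ε δ0 : ℝ} (hε : 0 < ε) (hδ : 0 < δ0) :
    ∃ l0 : ℝ, 0 < l0 ∧ l0 ≤ 1 ∧ ∀ l : ℝ, 0 < l → l ≤ l0 →
      (∀ π : RE n, ‖π‖ ≤ 5 * Real.sqrt n → ‖l • SP n π‖ < δ0) ∧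
      ∃ ef : ℝ, 0 < ef ∧ ∀ f : RE n × RE n → ℝ, ContDiff ℝ s f →
        (∀ x p (k : Fin n → ℤ), f (x + LRT.lat k, p) = f (x, p)) →
        (∀ j ≤ s, ∀ x p, ‖p - pst‖ ≤ δ0 → ‖iteratedFDeriv ℝ j f (x, p)‖ ≤ ef) →
        ContDiff ℝ s (nff h f pst l c) ∧
        (∀ x π (k : Fin n → ℤ), nff h f pst l c (x + lat k, π) = nff h f pst l c (x, π)) ∧
        ∀ j ≤ s, ∀ x π, ‖π‖ ≤ 5 * Real.sqrt n → ‖iteratedFDeriv ℝ j (nff h f pst l c) (x, π)‖ ≤ ε := by
  set P : ℝ := 5 * Real.sqrt n with hP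
  have hP0 : 0 ≤ P := by positivity
  set g : RE n → ℝ := jet2 h pst with hg
  have hgc : ContDiff ℝ (max s 3 : ℕ) g := jet2_contDiff hh pst
  have hg3 : ContDiff ℝ 3 g := hgc.of_le (by exact_mod_cast le_max_right s 3)
  have hgs : ContDiff ℝ s g := hgc.of_le (by exact_mod_cast le_max_left s 3)
  have hh3 : ContDiff ℝ 3 h := hh.of_le (by exact_mod_cast le_max_right s 3)
  obtain ⟨M, hM0, hM⟩ := nf_bound hgc P
  have hz := jet2_zero hh3 pst
  have hT : ∀ j ≤ s, ∀ q, ‖q‖ ≤ P → ‖iteratedFDeriv ℝ j g q‖ ≤ M * ‖q‖ ^ (3 - j) := by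
    intro j hj q hq
    obtain ⟨t2, t1, t0⟩ := nf_taylor hg3 hz (fun q hq => hM 3 (le_max_right s 3) q hq) hq
    rcases Nat.lt_or_ge j 3 with h3 | h3
    · interval_cases j
      · simpa using t0
      · simpa using t1
      · simpa using t2
    · rw [Nat.sub_eq_zero_of_le h3, pow_zero, mul_one]
      exact hM j (hj.trans (le_max_left s 3)) q hq
  set K : ℝ := M * (1 + P) ^ 3 with hK
  have hK0 : 0 ≤ K := by positivity
  refine ⟨min 1 (min (ε * c ^ 2 / (2 * (K + 1))) (δ0 / (2 * (P + 1)))), ?_, min_le_left _ _, ?_⟩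
  · refine lt_min one_pos (lt_min ?_ ?_) <;> positivity
  intro l hl hll
  have hl1 : l ≤ 1 := hll.trans (min_le_left _ _)
  have hl2 : l ≤ ε * c ^ 2 / (2 * (K + 1)) := hll.trans ((min_le_right _ _).trans (min_le_left _ _))
  have hl3 : l ≤ δ0 / (2 * (P + 1)) := hll.trans ((min_le_right _ _).trans (min_le_right _ _))
  have hSl : ∀ π : RE n, ‖l • SP n π‖ ≤ l * ‖π‖ := fun π => by
    rw [norm_smul, Real.norm_eq_abs, abs_of_pos hl]
    have h1 := (SP n).le_opNorm π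
    have h2 := norm_SP_le (n := n)
    have h3 := norm_nonneg π
    have h4 : ‖SP n π‖ ≤ ‖π‖ := by nlinarith
    gcongr
  have hball : ∀ π : RE n, ‖π‖ ≤ P → ‖l • SP n π‖ < δ0 := fun π hπ => by
    refine lt_of_le_of_lt (hSl π) ?_
    rw [le_div_iff₀ (by positivity)] at hl3
    have h4 := mul_le_mul_of_nonneg_left hπ hl.le
    nlinarith
  refine ⟨hball, ε * (l * c) ^ 2 / (2 * Th n ^ s), ?_, ?_⟩
  · have := one_le_Th (n := n)
    positivity
  intro f hf hfp hfb
  -- the two parts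
  set L2 : RE n × RE n →L[ℝ] RE n := (l • SP n).comp (ContinuousLinearMap.snd ℝ (RE n) (RE n)) with hL2
  set L1 : RE n × RE n →L[ℝ] RE n × RE n :=
    (((Par.T : RE n ≃L[ℝ] RE n).symm : RE n →L[ℝ] RE n).comp (ContinuousLinearMap.fst ℝ (RE n) (RE n))).prod L2
    with hL1
  have hL2n : ‖L2‖ ≤ l := by
    refine ContinuousLinearMap.opNorm_le_bound _ hl.le fun z => ?_
    refine (hSl z.2).trans ?_
    gcongr
    exact norm_snd_le z
  have hL1n : ‖L1‖ ≤ Th n := by
    have hTh := one_le_Th (n := n)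
    refine ContinuousLinearMap.opNorm_le_bound _ (by linarith) fun z => ?_
    rw [Prod.norm_def]
    refine max_le ?_ ?_
    · refine (norm_Ti_le z.1).trans ?_
      gcongr
      exact norm_fst_le z
    · refine (L2.le_opNorm z).trans ?_
      gcongr
      linarith
  set f1 : RE n × RE n → ℝ := fun z => f (z + (0, pst)) with hf1
  have hf1c : ContDiff ℝ s f1 := hf.comp (contDiff_id.add contDiff_const)
  have hff : nff h f pst l c = fun z => ((l * c) ^ 2)⁻¹ • (g (L2 z) + f1 (L1 z)) := by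
    funext z
    have e1 : L2 z = l • SP n z.2 := rfl
    have e2 : f1 (L1 z) = f ((Par.T : RE n ≃L[ℝ] RE n).symm z.1, pst + l • SP n z.2) := by
      simp only [hf1]
      congr 1
      refine Prod.ext ?_ ?_
      · change (Par.T : RE n ≃L[ℝ] RE n).symm z.1 + 0 = _
        rw [add_zero]
      · change L2 z + pst = _
        rw [e1, add_comm]
    rw [e2, e1, hg]
    have e3 : fderiv ℝ h pst (l • SP n z.2) = l * fderiv ℝ h pst (SP n z.2) := by
      rw [map_smul, smul_eq_mul]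
    have e4 : fderiv ℝ (fderiv ℝ h) pst (l • SP n z.2) (l • SP n z.2) =
        l * (l * fderiv ℝ (fderiv ℝ h) pst (SP n z.2) (SP n z.2)) := by
      rw [map_smul, map_smul, smul_eq_mul]
      rfl
    simp only [nff, jet2]
    rw [e3, e4, smul_eq_mul, div_eq_inv_mul]
    ring
  have hc1 : ContDiff ℝ s (fun z => g (L2 z)) := hgs.comp L2.contDiff
  have hc2 : ContDiff ℝ s (fun z => f1 (L1 z)) := hf1c.comp L1.contDiff
  refine ⟨?_, ?_, ?_⟩
  · rw [hff]
    exact (hc1.add hc2).const_smul _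
  · intro x π k
    unfold nff
    simp only []
    have e1 : (Par.T : RE n ≃L[ℝ] RE n).symm (x + lat k) = (Par.T : RE n ≃L[ℝ] RE n).symm x + LRT.lat k := by
      rw [map_add, lat, ContinuousLinearEquiv.symm_apply_apply]
    rw [e1, hfp]
  · intro j hj x π hπ
    rw [hff]
    have hcj : ((j : ℕ) : WithTop ℕ∞) ≤ s := by exact_mod_cast hj
    have e1 : iteratedFDeriv ℝ j (fun z => ((l * c) ^ 2)⁻¹ • (g (L2 z) + f1 (L1 z))) (x, π) =
        ((l * c) ^ 2)⁻¹ • (iteratedFDeriv ℝ j (fun z => g (L2 z)) (x, π) +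
          iteratedFDeriv ℝ j (fun z => f1 (L1 z)) (x, π)) := by
      have a1 := iteratedFDeriv_const_smul_apply (𝕜 := ℝ) (i := j) (a := ((l * c) ^ 2)⁻¹)
        (f := fun z => g (L2 z) + f1 (L1 z)) (x := (x, π)) ((hc1.add hc2).of_le hcj).contDiffAt
      have a2 := iteratedFDeriv_add_apply (𝕜 := ℝ) (i := j) (f := fun z => g (L2 z)) (g := fun z => f1 (L1 z))
        (x := (x, π)) (hc1.of_le hcj).contDiffAt (hc2.of_le hcj).contDiffAt
      rw [← a2]
      exact a1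
    rw [e1, norm_smul, Real.norm_eq_abs, abs_of_pos (by positivity)]
    have b1 : ‖iteratedFDeriv ℝ j (fun z => g (L2 z)) (x, π)‖ ≤ K * l ^ 3 := by
      refine (nf_comp hgs L2 hL2n hj (x, π)).trans ?_
      have e2 : L2 (x, π) = l • SP n π := rfl
      have hq : ‖L2 (x, π)‖ ≤ l * P := by
        rw [e2]
        refine (hSl π).trans ?_
        gcongr
      have hq' : ‖L2 (x, π)‖ ≤ P := hq.trans (by nlinarith)
      have b2 := hT j hj _ hq'
      calc ‖iteratedFDeriv ℝ j g (L2 (x, π))‖ * l ^ j ≤ (M * ‖L2 (x, π)‖ ^ (3 - j)) * l ^ j := by gcongr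
        _ ≤ (M * (l * P) ^ (3 - j)) * l ^ j := by gcongr
        _ = M * P ^ (3 - j) * (l ^ (3 - j) * l ^ j) := by rw [mul_pow]; ring
        _ ≤ M * (1 + P) ^ 3 * l ^ 3 := by
            have c1 : P ^ (3 - j) ≤ (1 + P) ^ 3 := by
              calc P ^ (3 - j) ≤ (1 + P) ^ (3 - j) := by gcongr; linarith
                _ ≤ (1 + P) ^ 3 := pow_le_pow_right₀ (by linarith) (by omega)
            have c2 : l ^ (3 - j) * l ^ j ≤ l ^ 3 := by
              rw [← pow_add]
              exact pow_le_pow_of_le_one hl.le hl1 (by omega)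
            gcongr
    have b3 : ‖iteratedFDeriv ℝ j (fun z => f1 (L1 z)) (x, π)‖ ≤ ε * (l * c) ^ 2 / 2 := by
      refine (nf_comp hf1c L1 hL1n hj (x, π)).trans ?_
      have e3 : iteratedFDeriv ℝ j f1 (L1 (x, π)) = iteratedFDeriv ℝ j f (L1 (x, π) + (0, pst)) := by
        rw [hf1]
        exact iteratedFDeriv_comp_add_right j (0, pst) (L1 (x, π))
      have e4 : L1 (x, π) + (0, pst) = ((Par.T : RE n ≃L[ℝ] RE n).symm x, pst + l • SP n π) := by
        refine Prod.ext ?_ ?_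
        · change (Par.T : RE n ≃L[ℝ] RE n).symm x + 0 = _
          rw [add_zero]
        · change l • SP n π + pst = _
          rw [add_comm]
      rw [e3, e4]
      have b4 := hfb j hj ((Par.T : RE n ≃L[ℝ] RE n).symm x) (pst + l • SP n π)
        (by rw [add_sub_cancel_left]; exact (hball π hπ).le)
      have hTh := one_le_Th (n := n)
      have b5 : Th n ^ j ≤ Th n ^ s := pow_le_pow_right₀ hTh hj
      have hTs : 0 < Th n ^ s := by positivity
      calc _ ≤ ε * (l * c) ^ 2 / (2 * Th n ^ s) * Th n ^ s := by gcongr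
        _ = ε * (l * c) ^ 2 / 2 := by field_simp
    have b6 : K * l ^ 3 ≤ ε * (l * c) ^ 2 / 2 := by
      rw [le_div_iff₀ (by positivity)] at hl2
      have c3 : l * (2 * K) ≤ ε * c ^ 2 := by nlinarith
      have c4 : l ^ 2 * (l * (2 * K)) ≤ l ^ 2 * (ε * c ^ 2) := mul_le_mul_of_nonneg_left c3 (by positivity)
      nlinarith
    have hlc : 0 < (l * c) ^ 2 := by positivity
    rw [inv_mul_le_iff₀ hlc]
    refine (norm_add_le _ _).trans ?_
    linarith

end Pool.Agent.LRW
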