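import Pool.Agent.LRW.KF
import Pool.Agent.LRW.NF
import Pool.Agent.LRW.LT
import Pool.Agent.LRT.E0

/-!
# LRW/KN: the local family of solutions near an integrable Hamiltonian   (helper45)
-/

set_option autoImplicit false
set_option linter.style.haveILetI false

open MeasureTheory Module Set Filter Topology

namespace Pool.Agent.LRW

open Pool.H45.Mather Pool.Agent.LRT

noncomputable section

set_option linter.unusedSectionVars false

theorem FFam.mono {n : ℕ} {E : Type*} [NormedAddCommGroup E] [InnerProductSpace ℝ E]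
    {b : Basis (Fin n) ℝ E} {H : E × E → ℝ} {Hp : E × E → E} {w₀ w₁ : E} {m K r m' K' r' : ℝ} {c : E → E}
    {P : E → E → E} (h : FFam b H Hp w₀ m K r c P) (hm : m' ≤ m) (hK : K ≤ K') (hr0 : 0 < r')
    (hr : r' + ‖w₁ - w₀‖ ≤ r) : FFam b H Hp w₁ m' K' r' c P := by
  have e : ∀ w, ‖w - w₁‖ < r' → ‖w - w₀‖ < r := by
    intro w hw
    have h1 : w - w₀ = (w - w₁) + (w₁ - w₀) := by abel
    rw [h1]
    exact (norm_add_le _ _).trans_lt (by linarith)
  refine ⟨hr0, fun w hw => h.sol w (e w hw), ?_, fun w w' hw hw' x => ?_, fun w w' hw hw' => ?_,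
    fun w w' hw hw' x => ?_, fun w w' hw hw' => ?_⟩
  · obtain ⟨K₁, hK₁⟩ := h.lipx
    exact ⟨K₁, fun w hw => hK₁ w (e w hw)⟩
  · exact (h.lipw w w' (e w hw) (e w' hw') x).trans (mul_le_mul_of_nonneg_right hK (norm_nonneg _))
  · exact (h.lipc w w' (e w hw) (e w' hw')).trans (mul_le_mul_of_nonneg_right hK (norm_nonneg _))
  · exact (mul_le_mul_of_nonneg_right hm (by positivity)).trans (h.mon w w' (e w hw) (e w' hw') x)
  · exact (mul_le_mul_of_nonneg_right hm (by positivity)).trans (h.monc w w' (e w hw) (e w' hw'))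

theorem local_fam (n : ℕ) (hn : 2 ≤ n) : ∃ s : ℕ, 3 ≤ s ∧ ∀ h : RE n → ℝ, ContDiff ℝ s h → ∀ (pst : RE n) {La La' : ℝ},
    1 ≤ La → 1 ≤ La' →
    (∀ v, ‖v‖ ^ 2 / (2 * La) ≤ fderiv ℝ (fderiv ℝ h) pst v v ∧ fderiv ℝ (fderiv ℝ h) pst v v ≤ 2 * La * ‖v‖ ^ 2) →
    ∀ d0 > 0, ∃ ef ρ r m K, 0 < ef ∧ 0 < ρ ∧ ρ ≤ 1 ∧ 0 < r ∧ 0 < m ∧ ∀ f : RE n × RE n → ℝ, ContDiff ℝ s f →
    (∀ p, Per (bs n) (fun x => f (x, p))) →
    (∀ j ≤ s, ∀ x p, ‖p - pst‖ ≤ d0 → ‖iteratedFDeriv ℝ j f (x, p)‖ ≤ ef) →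
    ∀ (H' : RE n × RE n → ℝ) (Hp' : RE n × RE n → RE n), HamK La' (bs n) H' Hp' →
    (∀ x p, ‖p - pst‖ ≤ d0 → H' (x, p) = h p + f (x, p)) →
    (∀ w, ‖w - gradient h pst‖ < ρ → DifferentiableAt ℝ (betaL (bs n) (Leg H')) w) →
    ∃ c P, FFam (bs n) H' Hp' (gradient h pst) m K r c P ∧
      ∀ w, ‖w - gradient h pst‖ < r → ∀ x, ‖P w x - pst‖ ≤ d0 := by
  obtain ⟨s₀, hLT⟩ := LT n hn
  refine ⟨max s₀ 3, le_max_right _ _, fun h hh pst La La' hLa hLa' hB d0 hd0 => ?_⟩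
  have hh3 : ContDiff ℝ 3 h := hh.of_le (by exact_mod_cast le_max_right s₀ 3)
  have hsym : ∀ v w, fderiv ℝ (fderiv ℝ h) pst v w = fderiv ℝ (fderiv ℝ h) pst w v := by
    intro v w
    have h1 : ContDiffAt ℝ 3 h pst := hh3.contDiffAt
    exact (h1.isSymmSndFDerivAt (by norm_num)) v w
  obtain ⟨iP, c, hc, hc2, hBS, hS1, hS2⟩ := NF1 (by linarith : 0 < La) (fderiv ℝ (fderiv ℝ h) pst) hsym
    (fun v => (hB v).1) (fun v => (hB v).2)
  have hLL : 1 ≤ La' * (2 * La) := by nlinarith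
  obtain ⟨ε, hε, hloc⟩ := hLT (La := La' * (2 * La)) hLL
  obtain ⟨l0, hl0, hl01, hNF⟩ := NF2 (s := s₀) hh pst hc hε hd0
  set T : RE n ≃L[ℝ] RE n := Par.T with hT
  set A : ℝ := ‖(T.symm : RE n →L[ℝ] RE n)‖ with hA
  have hA0 : 0 ≤ A := norm_nonneg _
  set l : ℝ := min l0 (min (d0 / 4) (1 / (2 * (c ^ 2 * (A + 1)) + 1))) with hl
  have hl' : 0 < l := by
    rw [hl]
    exact lt_min hl0 (lt_min (by positivity) (by positivity))
  have hll0 : l ≤ l0 := min_le_left _ _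
  have hld : l ≤ d0 / 4 := (min_le_right _ _).trans (min_le_left _ _)
  have hlρ : l * (2 * (c ^ 2 * (A + 1)) + 1) ≤ 1 := by
    have h1 : l ≤ 1 / (2 * (c ^ 2 * (A + 1)) + 1) := (min_le_right _ _).trans (min_le_right _ _)
    rwa [le_div_iff₀ (by positivity)] at h1
  obtain ⟨hdom, ef, hef, hff⟩ := hNF l hl' hll0
  set μ : ℝ := (l * c) ^ 2 with hμ
  have hμ0 : 0 < μ := by positivity
  have hlμ : l ^ 2 / μ = 1 / c ^ 2 := by rw [hμ]; field_simp
  have hμl : μ / l = l * c ^ 2 := by rw [hμ]; field_simp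
  have hadj : ∀ v, adjT T v = SP n v := fun v => rfl
  have hSn : ∀ v, ‖SP n v‖ ≤ ‖v‖ := fun v => by
    refine ((SP n).le_opNorm v).trans ?_
    have := norm_SP_le (n := n)
    have := norm_nonneg v
    nlinarith
  set w0 : RE n := (l / μ) • T (gradient h pst) with hw0
  refine ⟨ef, 2 * (l * c ^ 2) * (A + 1), (1 - ‖(l / μ) • T (gradient h pst) - w0‖) / ((l / μ) * ‖(T : RE n →L[ℝ] RE n)‖ + 1),
    19 / 20 * (l ^ 2 / μ) / (A + 1) ^ 2, 2 * (l ^ 2 / μ) * (‖(T : RE n →L[ℝ] RE n)‖ * ‖adjT T‖), hef, by positivity, ?_, ?_,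
    by positivity, ?_⟩
  · nlinarith
  · rw [hw0, sub_self, norm_zero, sub_zero]
    positivity
  intro f hf hper hsm H' Hp' hH' heq hdiff
  have hfs : ContDiff ℝ s₀ f := hf.of_le (by exact_mod_cast le_max_left s₀ 3)
  obtain ⟨k1, k2, k3⟩ := hff f hfs (fun x p k => bs_per' (hper p) x k) (fun j hj x p hp => hsm j (hj.trans (le_max_left _ _)) x p hp)
  have hbT : ∀ i, bsT n i = T (bs n i) := fun i => bsT_apply i
  have hK : HamK (La' * (2 * La)) (bsT n) (Haf T l μ pst H') (Hpaf T l μ pst Hp') := by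
    refine hamK_af hH' hLa' hbT hμ0 pst (by positivity) (fun q => ?_) (fun q => ?_)
    · rw [hlμ, hadj]
      have h1 := hS2 q
      rw [one_div, inv_mul_le_iff₀ (by positivity)]
      calc _ ≤ 2 * La * c ^ 2 * ‖q‖ ^ 2 := h1
        _ = _ := by ring
    · rw [hlμ, hadj]
      have h1 := hS1 q
      have h2 : 2 * La * (1 / c ^ 2 * ‖SP n q‖ ^ 2) = (2 * La * ‖SP n q‖ ^ 2) / c ^ 2 := by
        field_simp
      rw [h2, le_div_iff₀ (by positivity)]
      linarith
  obtain ⟨c', a', u', P', hP'⟩ := hloc 0 w0 (h pst / μ) (nff h f pst l c) (Haf T l μ pst H') (Hpaf T l μ pst Hp') k1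
    (fun x p k => k2 x p k) k3 hK (by
      intro x π hπ
      rw [zero_add]
      have hn1 : ‖pst + l • SP n π - pst‖ ≤ d0 := by
        rw [add_sub_cancel_left, norm_smul, Real.norm_eq_abs, abs_of_pos hl']
        have h1 := hSn π
        have h2 : l * ‖SP n π‖ ≤ d0 / 4 * 4 :=
          mul_le_mul hld (h1.trans hπ.le) (norm_nonneg _) (by positivity)
        linarith
      have h1 := heq (T.symm x) (pst + l • SP n π) hn1
      simp only [Haf, hadj]
      rw [h1]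
      have e1 : inner ℝ w0 π = (l / μ) * fderiv ℝ h pst (SP n π) := by
        rw [hw0, inner_smul_left]
        simp only [conj_trivial]
        congr 1
        rw [real_inner_comm, ← SP_inner, real_inner_comm]
        unfold gradient
        rw [InnerProductSpace.toDual_symm_apply]
      rw [e1]
      unfold nff
      simp only []
      rw [hBS π, ← hμ]
      have e2 : l ^ 2 / 2 * (c ^ 2 * ‖π‖ ^ 2) = μ * (‖π‖ ^ 2 / 2) := by rw [hμ]; ring
      rw [e2]
      field_simp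
      ring)
    (by
      intro y hy
      refine diff_af hLa' hH' hLL hbT hl' hμ0 hK (hdiff _ ?_)
      have e1 : gradient h pst = (μ / l) • T.symm w0 := by
        rw [hw0, map_smul, ContinuousLinearEquiv.symm_apply_apply, smul_smul]
        have : μ / l * (l / μ) = 1 := by field_simp
        rw [this, one_smul]
      have e2 : (μ / l) • T.symm y - gradient h pst = (μ / l) • T.symm (y - w0) := by
        rw [e1, map_sub, smul_sub]
      rw [e2, hμl, norm_smul, Real.norm_eq_abs, abs_of_pos (by positivity)]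
      have h1 : ‖T.symm (y - w0)‖ ≤ A * ‖y - w0‖ := (T.symm : RE n →L[ℝ] RE n).le_opNorm _
      have h2 : ‖T.symm (y - w0)‖ < 2 * (A + 1) := by
        have := norm_nonneg (y - w0)
        nlinarith
      calc l * c ^ 2 * ‖T.symm (y - w0)‖ < l * c ^ 2 * (2 * (A + 1)) :=
            mul_lt_mul_of_pos_left h2 (by positivity)
        _ = _ := by ring)
  have hw1 : ‖(l / μ) • (Par.T : RE n ≃L[ℝ] RE n) (gradient h pst) - w0‖ < 1 := by
    rw [hw0, ← hT, sub_self, norm_zero]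
    exact one_pos
  have hfam := hP'.fam hl' hμ0 hw1
  refine ⟨_, _, hfam, fun w hw x => ?_⟩
  have hin : ‖(l / μ) • T w - w0‖ < 1 := by
    have e : (l / μ) • T w - w0 = (l / μ) • T (w - gradient h pst) := by
      rw [hw0, map_sub, smul_sub]
    rw [e, norm_smul, Real.norm_eq_abs, abs_of_pos (by positivity)]
    have h1 : ‖T (w - gradient h pst)‖ ≤ ‖(T : RE n →L[ℝ] RE n)‖ * ‖w - gradient h pst‖ :=
      (T : RE n →L[ℝ] RE n).le_opNorm _
    have hν : 0 < l / μ := by positivity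
    rw [hw0, sub_self, norm_zero, sub_zero, lt_div_iff₀ (by positivity)] at hw
    have h2 := mul_le_mul_of_nonneg_left h1 hν.le
    have h3 := norm_nonneg (w - gradient h pst)
    rcases eq_or_lt_of_le h3 with h4 | h4
    · rw [← h4, mul_zero, mul_zero] at h2
      linarith
    · calc _ ≤ l / μ * (‖(T : RE n →L[ℝ] RE n)‖ * ‖w - gradient h pst‖) := h2
        _ < ‖w - gradient h pst‖ * (l / μ * ‖(T : RE n →L[ℝ] RE n)‖ + 1) := by linarith
        _ < 1 := hw
  have h1 := hP'.bdP _ hin (T x)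
  have h2 : ‖P' ((l / μ) • T w) (T x)‖ ≤ 2 := by
    have e : P' ((l / μ) • T w) (T x) = ((P' ((l / μ) • T w) (T x) - 0) - ((l / μ) • T w - w0)) +
        ((l / μ) • T w - w0) := by abel
    rw [e]
    refine (norm_add_le _ _).trans ?_
    linarith
  rw [add_sub_cancel_left, norm_smul, Real.norm_eq_abs, abs_of_pos hl']
  have h3 : ‖adjT T (P' ((l / μ) • T w) (T x))‖ ≤ 2 := (hSn _).trans h2
  have h4 : l * ‖adjT T (P' ((l / μ) • T w) (T x))‖ ≤ d0 / 4 * 2 :=
    mul_le_mul hld h3 (norm_nonneg _) (by positivity)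
  linarith

end

end Pool.Agent.LRW
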