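import Pool.Agent.LRW.NF

/-!
NFU: uniform version of the normal form (helper61).

`NF2u`: as `NF2`, with a fixed lattice map `T` for all quadratic forms near a given one, constants independent of the Hamiltonian.
`net_dir`, `isCompact_Forms`: passage from local to uniform constants.
-/

set_option autoImplicit false

open Set MeasureTheory Topology

namespace Pool.Agent.LRW

open Pool.Agent.LRT

variable {n : ℕ}

/-- local constants on a compact set can be chosen uniformly -/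
theorem net_dir {X : Type*} [PseudoMetricSpace X] {K : Set X} (hK : IsCompact K) {ι : Type*} [Nonempty ι]
    (G : X → ι → Prop) (hdir : ∀ i j, ∃ k, ∀ B, (G B i → G B k) ∧ (G B j → G B k))
    (hloc : ∀ B₀ ∈ K, ∃ δ > 0, ∃ i, ∀ B ∈ K, dist B B₀ < δ → G B i) : ∃ i, ∀ B ∈ K, G B i := by
  have h := hK.induction_on (p := fun s => ∃ i, ∀ B ∈ s ∩ K, G B i) ?_ ?_ ?_ ?_
  · obtain ⟨i, hi⟩ := h
    exact ⟨i, fun B hB => hi B ⟨hB, hB⟩⟩
  · exact ⟨Classical.arbitrary ι, fun B hB => absurd hB.1 (notMem_empty B)⟩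
  · rintro s t hst ⟨i, hi⟩
    exact ⟨i, fun B hB => hi B ⟨hst hB.1, hB.2⟩⟩
  · rintro s t ⟨i, hi⟩ ⟨j, hj⟩
    obtain ⟨k, hk⟩ := hdir i j
    refine ⟨k, fun B hB => ?_⟩
    rcases hB.1 with h1 | h1
    · exact (hk B).1 (hi B ⟨h1, hB.2⟩)
    · exact (hk B).2 (hj B ⟨h1, hB.2⟩)
  · intro B₀ hB₀
    obtain ⟨δ, hδ, i, hi⟩ := hloc B₀ hB₀
    refine ⟨Metric.ball B₀ δ, mem_nhdsWithin_of_mem_nhds (Metric.ball_mem_nhds B₀ hδ), i, fun B hB => ?_⟩
    exact hi B hB.2 hB.1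

/-- the symmetric forms with `‖v‖² / (2 La) ≤ B v v ≤ 2 La ‖v‖²` -/
def Forms (n : ℕ) (La : ℝ) : Set (RE n →L[ℝ] RE n →L[ℝ] ℝ) :=
  {B | (∀ v w, B v w = B w v) ∧ ∀ v, ‖v‖ ^ 2 / (2 * La) ≤ B v v ∧ B v v ≤ 2 * La * ‖v‖ ^ 2}

theorem Forms.norm_le {La : ℝ} (hLa : 0 < La) {B : RE n →L[ℝ] RE n →L[ℝ] ℝ} (hB : B ∈ Forms n La) :
    ‖B‖ ≤ 2 * La := by
  obtain ⟨hs, hb⟩ := hB
  have h0 : ∀ v, 0 ≤ B v v := fun v => (by positivity : 0 ≤ ‖v‖ ^ 2 / (2 * La)).trans (hb v).1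
  have key : ∀ v w, B v w ≤ La * (‖v‖ ^ 2 + ‖w‖ ^ 2) := by
    intro v w
    have h1 := (hb (v + w)).2
    have h2 := h0 (v - w)
    have h3 := parallelogram_law_with_norm ℝ v w
    have e1 : B (v + w) (v + w) = B v v + B v w + (B w v + B w w) := by
      calc B (v + w) (v + w) = (B v + B w) (v + w) := by rw [map_add B]
        _ = B v (v + w) + B w (v + w) := rfl
        _ = _ := by rw [map_add, map_add]
    have e2 : B (v - w) (v - w) = B v v - B v w - (B w v - B w w) := by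
      calc B (v - w) (v - w) = (B v - B w) (v - w) := by rw [map_sub B]
        _ = B v (v - w) - B w (v - w) := rfl
        _ = _ := by rw [map_sub, map_sub]
    rw [e1, hs w v] at h1
    rw [e2, hs w v] at h2
    have h4 := h0 v
    have h5 := h0 w
    have h6 : ‖v + w‖ ^ 2 ≤ 2 * (‖v‖ ^ 2 + ‖w‖ ^ 2) := by nlinarith [sq_nonneg ‖v - w‖]
    have h7 : 2 * La * ‖v + w‖ ^ 2 ≤ 2 * La * (2 * (‖v‖ ^ 2 + ‖w‖ ^ 2)) :=
      mul_le_mul_of_nonneg_left h6 (by positivity)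
    nlinarith
  have key2 : ∀ v w, B v w ≤ 2 * La * (‖v‖ * ‖w‖) := by
    intro v w
    rcases eq_or_lt_of_le (mul_nonneg (norm_nonneg v) (norm_nonneg w)) with h | h
    · rcases mul_eq_zero.1 h.symm with h1 | h1
      · rw [norm_eq_zero.1 h1]
        simp
      · rw [norm_eq_zero.1 h1]
        simp
    · have h1 := key (‖w‖ • v) (‖v‖ • w)
      have e1 : B (‖w‖ • v) (‖v‖ • w) = (‖v‖ * ‖w‖) * B v w := by
        rw [map_smul, map_smul]
        change ‖v‖ * (‖w‖ * B v w) = _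
        ring
      rw [e1, norm_smul, norm_smul, norm_norm, norm_norm] at h1
      have h2 : (‖v‖ * ‖w‖) * B v w ≤ (‖v‖ * ‖w‖) * (2 * La * (‖v‖ * ‖w‖)) := by
        refine h1.trans (le_of_eq ?_)
        ring
      exact le_of_mul_le_mul_left h2 h
  refine ContinuousLinearMap.opNorm_le_bound _ (by positivity) fun v => ?_
  refine ContinuousLinearMap.opNorm_le_bound _ (by positivity) fun w => ?_
  rw [Real.norm_eq_abs, abs_le]
  constructor
  · have h1 := key2 (-v) w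
    rw [map_neg, norm_neg] at h1
    change -(B v w) ≤ _ at h1
    nlinarith
  · have h1 := key2 v w
    nlinarith

theorem isCompact_Forms (n : ℕ) {La : ℝ} (hLa : 0 < La) : IsCompact (Forms n La) := by
  have hev : ∀ v w : RE n, Continuous fun B : RE n →L[ℝ] RE n →L[ℝ] ℝ => B v w := fun v w =>
    ((ContinuousLinearMap.apply ℝ ℝ w).comp (ContinuousLinearMap.apply ℝ (RE n →L[ℝ] ℝ) v)).continuous
  have hcl : IsClosed (Forms n La) := by
    have e : Forms n La = (⋂ v, ⋂ w, {B | B v w = B w v}) ∩ ⋂ v, {B | ‖v‖ ^ 2 / (2 * La) ≤ B v v ∧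
        B v v ≤ 2 * La * ‖v‖ ^ 2} := by
      ext B
      simp [Forms]
    rw [e]
    refine (isClosed_iInter fun v => isClosed_iInter fun w => isClosed_eq (hev v w) (hev w v)).inter
      (isClosed_iInter fun v => ?_)
    exact (isClosed_le continuous_const (hev v v)).inter (isClosed_le (hev v v) continuous_const)
  have hp : ProperSpace (RE n →L[ℝ] RE n →L[ℝ] ℝ) := FiniteDimensional.proper ℝ (RE n →L[ℝ] RE n →L[ℝ] ℝ)
  exact IsCompact.of_isClosed_subset (isCompact_closedBall (0 : RE n →L[ℝ] RE n →L[ℝ] ℝ) (2 * La)) hcl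
    fun B hB => mem_closedBall_zero_iff.2 (Forms.norm_le hLa hB)

/-- the difference to the quadratic function with Hessian `B₀` -/
noncomputable def jetB (h : RE n → ℝ) (B₀ : RE n →L[ℝ] RE n →L[ℝ] ℝ) (pst q : RE n) : ℝ :=
  h (pst + q) - h pst - fderiv ℝ h pst q - 1 / 2 * B₀ q q

theorem jetB_contDiff {m : ℕ} {h : RE n → ℝ} (hh : ContDiff ℝ m h) (B₀ : RE n →L[ℝ] RE n →L[ℝ] ℝ) (pst : RE n) :
    ContDiff ℝ m (jetB h B₀ pst) := by
  unfold jetB
  have h1 : ContDiff ℝ m (fun q : RE n => h (pst + q)) := hh.comp (contDiff_const.add contDiff_id)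
  have h2 : ContDiff ℝ m (fun q : RE n => fderiv ℝ h pst q) := (fderiv ℝ h pst).contDiff
  have h3 : ContDiff ℝ m (fun q : RE n => B₀ q q) :=
    B₀.isBoundedBilinearMap.contDiff.comp (contDiff_id.prodMk contDiff_id)
  exact ((h1.sub contDiff_const).sub h2).sub (contDiff_const.mul h3)

theorem nfu_shift {V G : Type*} [NormedAddCommGroup V] [NormedSpace ℝ V] [NormedAddCommGroup G] [NormedSpace ℝ G]
    {F : V → G} (hF : Differentiable ℝ F) (a q : V) :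
    HasFDerivAt (fun q => F (a + q)) (fderiv ℝ F (a + q)) q := by
  have h3 := (hF (a + q)).hasFDerivAt.comp q ((hasFDerivAt_id q).const_add a)
  exact h3.congr_fderiv (ContinuousLinearMap.comp_id _)

theorem jetB_fderiv {h : RE n → ℝ} (hd : Differentiable ℝ h) {B₀ : RE n →L[ℝ] RE n →L[ℝ] ℝ}
    (hs : ∀ v w, B₀ v w = B₀ w v) (pst : RE n) :
    fderiv ℝ (jetB h B₀ pst) = fun q => fderiv ℝ h (pst + q) - fderiv ℝ h pst - B₀ q := by
  funext q
  have a1 := nfu_shift hd pst q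
  have a2 : HasFDerivAt (fun q : RE n => fderiv ℝ h pst q) (fderiv ℝ h pst) q := (fderiv ℝ h pst).hasFDerivAt
  have a5 : HasFDerivAt (fun q : RE n => B₀ q q) _ q := B₀.hasFDerivAt.clm_apply (hasFDerivAt_id q)
  have a6 := ((a1.sub_const (h pst)).sub a2).sub (a5.const_mul (1 / 2 : ℝ))
  have a7 : HasFDerivAt (jetB h B₀ pst) (fderiv ℝ h (pst + q) - fderiv ℝ h pst - B₀ q) q := by
    refine a6.congr_fderiv ?_
    ext v
    change fderiv ℝ h (pst + q) v - fderiv ℝ h pst v - 1 / 2 * (B₀ q v + B₀ v q) =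
      fderiv ℝ h (pst + q) v - fderiv ℝ h pst v - B₀ q v
    rw [hs v q]
    ring
  exact a7.fderiv

theorem jetB_fderiv2 {h : RE n → ℝ} (hh : ContDiff ℝ 2 h) {B₀ : RE n →L[ℝ] RE n →L[ℝ] ℝ}
    (hs : ∀ v w, B₀ v w = B₀ w v) (pst : RE n) :
    fderiv ℝ (fderiv ℝ (jetB h B₀ pst)) = fun q => fderiv ℝ (fderiv ℝ h) (pst + q) - B₀ := by
  rw [jetB_fderiv (hh.differentiable (by norm_num)) hs]
  funext q
  have hd1 : ContDiff ℝ 1 (fderiv ℝ h) := hh.fderiv_right (by norm_num)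
  have a1 := nfu_shift (hd1.differentiable (by norm_num)) pst q
  have a2 : HasFDerivAt (fun q : RE n => fderiv ℝ h (pst + q) - fderiv ℝ h pst - B₀ q) _ q :=
    (a1.sub_const (fderiv ℝ h pst)).sub B₀.hasFDerivAt
  exact a2.fderiv

theorem nfu_const {V G : Type*} [NormedAddCommGroup V] [NormedSpace ℝ V] [NormedAddCommGroup G] [NormedSpace ℝ G]
    (F : V → G) (B : V → G) (c : G) (hB : ∀ q, B q = F q - c) (j : ℕ) (x : V) :
    ‖iteratedFDeriv ℝ (j + 1) B x‖ = ‖iteratedFDeriv ℝ (j + 1) F x‖ := by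
  have e : B = fun q => F q - c := funext hB
  rw [e, ← norm_iteratedFDeriv_fderiv, ← norm_iteratedFDeriv_fderiv]
  have e2 : fderiv ℝ (fun q => F q - c) = fderiv ℝ F := by
    funext q
    exact fderiv_sub_const c
  rw [e2]

theorem nfu_two {V G : Type*} [NormedAddCommGroup V] [NormedSpace ℝ V] [NormedAddCommGroup G] [NormedSpace ℝ G]
    (f : V → G) (j : ℕ) (x : V) :
    ‖iteratedFDeriv ℝ (j + 3) f x‖ = ‖iteratedFDeriv ℝ (j + 1) (fderiv ℝ (fderiv ℝ f)) x‖ := by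
  rw [norm_iteratedFDeriv_fderiv, norm_iteratedFDeriv_fderiv]

theorem jetB_high {h : RE n → ℝ} (hh : ContDiff ℝ 3 h) {B₀ : RE n →L[ℝ] RE n →L[ℝ] ℝ}
    (hs : ∀ v w, B₀ v w = B₀ w v) (pst : RE n) (j : ℕ) (q : RE n) :
    ‖iteratedFDeriv ℝ (j + 3) (jetB h B₀ pst) q‖ = ‖iteratedFDeriv ℝ (j + 3) h (pst + q)‖ := by
  rw [nfu_two, nfu_two, jetB_fderiv2 (hh.of_le (by norm_num)) hs]
  rw [nfu_const (fun q => fderiv ℝ (fderiv ℝ h) (pst + q)) _ B₀ (fun q => rfl) j q]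
  rw [iteratedFDeriv_comp_add_left]

/-- Taylor estimate for a function with small 2-jet at zero -/
theorem nfu_taylor {V G : Type*} [NormedAddCommGroup V] [NormedSpace ℝ V] [NormedAddCommGroup G] [NormedSpace ℝ G]
    {g : V → G} (hg : ContDiff ℝ 3 g) (h0 : ‖iteratedFDeriv ℝ 0 g 0‖ = 0) (h1 : ‖iteratedFDeriv ℝ 1 g 0‖ = 0)
    {κ : ℝ} (h2 : ‖iteratedFDeriv ℝ 2 g 0‖ ≤ κ) {r M : ℝ}
    (hM : ∀ q, ‖q‖ ≤ r → ‖iteratedFDeriv ℝ 3 g q‖ ≤ M) {q : V} (hq : ‖q‖ ≤ r) :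
    ‖iteratedFDeriv ℝ 2 g q‖ ≤ κ + M * ‖q‖ ∧ ‖iteratedFDeriv ℝ 1 g q‖ ≤ (κ + M * ‖q‖) * ‖q‖ ∧
      ‖iteratedFDeriv ℝ 0 g q‖ ≤ (κ + M * ‖q‖) * ‖q‖ ^ 2 := by
  have key : ∀ j : ℕ, j < 3 → ∀ {C : ℝ}, (∀ y, ‖y‖ ≤ ‖q‖ → ‖iteratedFDeriv ℝ (j + 1) g y‖ ≤ C) →
      ∀ y, ‖y‖ ≤ ‖q‖ → ‖iteratedFDeriv ℝ j g y‖ ≤ ‖iteratedFDeriv ℝ j g 0‖ + C * ‖y‖ := by
    intro j hj C hC y hy
    have hd : Differentiable ℝ (iteratedFDeriv ℝ j g) :=
      hg.differentiable_iteratedFDeriv (by exact_mod_cast hj)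
    have a1 := (convex_closedBall (0 : V) ‖q‖).norm_image_sub_le_of_norm_fderiv_le (𝕜 := ℝ)
      (f := iteratedFDeriv ℝ j g) (C := C) (fun z _ => hd z) (fun z hz => by
        rw [norm_fderiv_iteratedFDeriv]
        exact hC z (mem_closedBall_zero_iff.1 hz))
      (mem_closedBall_zero_iff.2 (by rw [norm_zero]; exact norm_nonneg q)) (mem_closedBall_zero_iff.2 hy)
    rw [sub_zero] at a1
    have a2 := norm_sub_norm_le (iteratedFDeriv ℝ j g y) (iteratedFDeriv ℝ j g 0)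
    linarith
  have hM0 : 0 ≤ M := (norm_nonneg _).trans (hM q hq)
  have hκ : 0 ≤ κ := (norm_nonneg _).trans h2
  have k2 : ∀ y, ‖y‖ ≤ ‖q‖ → ‖iteratedFDeriv ℝ 2 g y‖ ≤ κ + M * ‖q‖ := fun y hy => by
    refine (key 2 (by norm_num) (fun y hy => hM y (hy.trans hq)) y hy).trans ?_
    gcongr
  have k1 : ∀ y, ‖y‖ ≤ ‖q‖ → ‖iteratedFDeriv ℝ 1 g y‖ ≤ (κ + M * ‖q‖) * ‖q‖ := fun y hy => by
    have a1 := key 1 (by norm_num) k2 y hy
    rw [h1, zero_add] at a1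
    refine a1.trans ?_
    have : 0 ≤ κ + M * ‖q‖ := by positivity
    gcongr
  have k0 : ∀ y, ‖y‖ ≤ ‖q‖ → ‖iteratedFDeriv ℝ 0 g y‖ ≤ (κ + M * ‖q‖) * ‖q‖ ^ 2 := fun y hy => by
    have a1 := key 0 (by norm_num) k1 y hy
    rw [h0, zero_add] at a1
    refine a1.trans ?_
    have : 0 ≤ κ + M * ‖q‖ := by positivity
    calc (κ + M * ‖q‖) * ‖q‖ * ‖y‖ ≤ (κ + M * ‖q‖) * ‖q‖ * ‖q‖ := by gcongr
      _ = (κ + M * ‖q‖) * ‖q‖ ^ 2 := by ring
  exact ⟨k2 q le_rfl, k1 q le_rfl, k0 q le_rfl⟩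

/-- the perturbation in the scaled coordinates, relative to the flat quadratic form -/
noncomputable def nffu [Par n] (h : RE n → ℝ) (f : RE n × RE n → ℝ) (pst : RE n) (l c : ℝ) (z : RE n × RE n) : ℝ :=
  (h (pst + l • SP n z.2) - h pst - l * fderiv ℝ h pst (SP n z.2) - (l * c) ^ 2 / 2 * ‖z.2‖ ^ 2 +
    f ((Par.T : RE n ≃L[ℝ] RE n).symm z.1, pst + l • SP n z.2)) / (l * c) ^ 2

theorem NF2u (n : ℕ) [Par n] (s : ℕ) {c ε δ0 M : ℝ} (hc : 0 < c) (hε : 0 < ε) (hδ : 0 < δ0) (hM : 0 ≤ M)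
    {B₀ : RE n →L[ℝ] RE n →L[ℝ] ℝ} (hs : ∀ v w, B₀ v w = B₀ w v) (hB₀ : ∀ v, B₀ (SP n v) (SP n v) = c ^ 2 * ‖v‖ ^ 2) :
    ∃ κ : ℝ, 0 < κ ∧ ∃ l0 : ℝ, 0 < l0 ∧ l0 ≤ 1 ∧ ∀ l : ℝ, 0 < l → l ≤ l0 →
      (∀ π : RE n, ‖π‖ ≤ 5 * Real.sqrt n → ‖l • SP n π‖ < δ0) ∧
      ∃ ef : ℝ, 0 < ef ∧ ∀ h : RE n → ℝ, ContDiff ℝ (max s 3 : ℕ) h → ∀ pst : RE n,
        (∀ j, 3 ≤ j → j ≤ max s 3 → ∀ p, ‖p - pst‖ ≤ δ0 → ‖iteratedFDeriv ℝ j h p‖ ≤ M) →
        ‖fderiv ℝ (fderiv ℝ h) pst - B₀‖ ≤ κ →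
        ∀ f : RE n × RE n → ℝ, ContDiff ℝ s f →
        (∀ x p (k : Fin n → ℤ), f (x + LRT.lat k, p) = f (x, p)) →
        (∀ j ≤ s, ∀ x p, ‖p - pst‖ ≤ δ0 → ‖iteratedFDeriv ℝ j f (x, p)‖ ≤ ef) →
        ContDiff ℝ s (nffu h f pst l c) ∧
        (∀ x π (k : Fin n → ℤ), nffu h f pst l c (x + lat k, π) = nffu h f pst l c (x, π)) ∧
        ∀ j ≤ s, ∀ x π, ‖π‖ ≤ 5 * Real.sqrt n → ‖iteratedFDeriv ℝ j (nffu h f pst l c) (x, π)‖ ≤ ε := by
  set P : ℝ := 5 * Real.sqrt n with hP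
  have hP0 : 0 ≤ P := by positivity
  refine ⟨ε * c ^ 2 / (4 * (1 + P) ^ 2), by positivity, min 1 (min (ε * c ^ 2 / (4 * ((M + 1) * (1 + P) ^ 3)))
    (δ0 / (2 * (P + 1)))), ?_, min_le_left _ _, ?_⟩
  · refine lt_min one_pos (lt_min ?_ ?_) <;> positivity
  intro l hl hll
  have hl1 : l ≤ 1 := hll.trans (min_le_left _ _)
  have hl2 : l ≤ ε * c ^ 2 / (4 * ((M + 1) * (1 + P) ^ 3)) := hll.trans ((min_le_right _ _).trans (min_le_left _ _))
  have hl3 : l ≤ δ0 / (2 * (P + 1)) := hll.trans ((min_le_right _ _).trans (min_le_right _ _))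
  have hSl : ∀ π : RE n, ‖l • SP n π‖ ≤ l * ‖π‖ := fun π => by
    rw [norm_smul, Real.norm_eq_abs, abs_of_pos hl]
    have h1 := (SP n).le_opNorm π
    have h2 := norm_SP_le (n := n)
    have h3 := norm_nonneg π
    have h4 : ‖SP n π‖ ≤ ‖π‖ := by nlinarith
    gcongr
  have hball : ∀ π : RE n, ‖π‖ ≤ P → ‖l • SP n π‖ < δ0 := fun π hπ => by
    refine lt_of_le_of_lt (hSl π) ?_
    rw [le_div_iff₀ (by positivity)] at hl3
    have h4 := mul_le_mul_of_nonneg_left hπ hl.le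
    nlinarith
  refine ⟨hball, ε * (l * c) ^ 2 / (2 * Th n ^ s), ?_, ?_⟩
  · have := one_le_Th (n := n)
    positivity
  intro h hh pst hhM hκ f hf hfp hfb
  set g : RE n → ℝ := jetB h B₀ pst with hg
  have hgc : ContDiff ℝ (max s 3 : ℕ) g := jetB_contDiff hh B₀ pst
  have hg3 : ContDiff ℝ 3 g := hgc.of_le (by exact_mod_cast le_max_right s 3)
  have hgs : ContDiff ℝ s g := hgc.of_le (by exact_mod_cast le_max_left s 3)
  have hh3 : ContDiff ℝ 3 h := hh.of_le (by exact_mod_cast le_max_right s 3)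
  set κ : ℝ := ε * c ^ 2 / (4 * (1 + P) ^ 2) with hκd
  have hκ0 : 0 ≤ κ := by positivity
  have z0 : ‖iteratedFDeriv ℝ 0 g 0‖ = 0 := by
    rw [norm_iteratedFDeriv_zero]
    simp [hg, jetB]
  have z1 : ‖iteratedFDeriv ℝ 1 g 0‖ = 0 := by
    rw [norm_iteratedFDeriv_one, hg, jetB_fderiv (hh3.differentiable (by norm_num)) hs]
    simp
  have z2 : ‖iteratedFDeriv ℝ 2 g 0‖ ≤ κ := by
    rw [show (2 : ℕ) = 1 + 1 from rfl, ← norm_iteratedFDeriv_fderiv, norm_iteratedFDeriv_one, hg,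
      jetB_fderiv2 (hh3.of_le (by norm_num)) hs]
    simpa using hκ
  have hgM : ∀ j, 3 ≤ j → j ≤ max s 3 → ∀ q, ‖q‖ ≤ δ0 → ‖iteratedFDeriv ℝ j g q‖ ≤ M := by
    intro j hj hjs q hq
    obtain ⟨i, rfl⟩ := Nat.exists_eq_add_of_le' hj
    rw [hg, jetB_high hh3 hs]
    exact hhM (i + 3) hj hjs (pst + q) (by rwa [add_sub_cancel_left])
  have hT : ∀ j ≤ s, ∀ q, ‖q‖ ≤ δ0 → ‖q‖ ≤ l * P → ‖iteratedFDeriv ℝ j g q‖ * l ^ j ≤
      (κ + M * (1 + P) * l) * (1 + P) ^ 2 * l ^ 2 := by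
    intro j hj q hq hql
    obtain ⟨t2, t1, t0⟩ := nfu_taylor hg3 z0 z1 z2 (fun q hq => hgM 3 le_rfl (le_max_right s 3) q hq) hq
    have hq0 := norm_nonneg q
    have hlP : l * P ≤ (1 + P) * l := by nlinarith
    have hqa : κ + M * ‖q‖ ≤ κ + M * (1 + P) * l := by
      have : M * ‖q‖ ≤ M * ((1 + P) * l) := mul_le_mul_of_nonneg_left (hql.trans hlP) hM
      nlinarith
    have hA0 : 0 ≤ κ + M * ‖q‖ := by positivity
    have hA1 : 0 ≤ κ + M * (1 + P) * l := by positivity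
    have h1P : 1 ≤ 1 + P := by linarith
    rcases Nat.lt_or_ge j 3 with h3 | h3
    · have hcase : ‖iteratedFDeriv ℝ j g q‖ ≤ (κ + M * ‖q‖) * ‖q‖ ^ (2 - j) := by
        interval_cases j
        · simpa using t0
        · simpa using t1
        · simpa using t2
      calc ‖iteratedFDeriv ℝ j g q‖ * l ^ j ≤ ((κ + M * ‖q‖) * ‖q‖ ^ (2 - j)) * l ^ j := by gcongr
        _ ≤ ((κ + M * (1 + P) * l) * ((1 + P) * l) ^ (2 - j)) * l ^ j := by
            gcongr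
            exact hql.trans hlP
        _ = (κ + M * (1 + P) * l) * (1 + P) ^ (2 - j) * (l ^ (2 - j) * l ^ j) := by rw [mul_pow]; ring
        _ = (κ + M * (1 + P) * l) * (1 + P) ^ (2 - j) * l ^ 2 := by
            rw [← pow_add]
            congr 2
            omega
        _ ≤ (κ + M * (1 + P) * l) * (1 + P) ^ 2 * l ^ 2 := by
            gcongr
            omega
    · have h5 := hgM j h3 (hj.trans (le_max_left s 3)) q hq
      calc ‖iteratedFDeriv ℝ j g q‖ * l ^ j ≤ M * l ^ j := by gcongr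
        _ ≤ M * l ^ 3 := by
            have : l ^ j ≤ l ^ 3 := pow_le_pow_of_le_one hl.le hl1 h3
            gcongr
        _ = (M * 1 * l) * 1 ^ 2 * l ^ 2 := by ring
        _ ≤ (κ + M * (1 + P) * l) * (1 + P) ^ 2 * l ^ 2 := by
            have e1 : M * 1 * l ≤ κ + M * (1 + P) * l := by
              have : M * 1 * l ≤ M * (1 + P) * l := by gcongr
              linarith
            gcongr
  -- the two parts
  set L2 : RE n × RE n →L[ℝ] RE n := (l • SP n).comp (ContinuousLinearMap.snd ℝ (RE n) (RE n)) with hL2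
  set L1 : RE n × RE n →L[ℝ] RE n × RE n :=
    (((Par.T : RE n ≃L[ℝ] RE n).symm : RE n →L[ℝ] RE n).comp (ContinuousLinearMap.fst ℝ (RE n) (RE n))).prod L2
    with hL1
  have hL2n : ‖L2‖ ≤ l := by
    refine ContinuousLinearMap.opNorm_le_bound _ hl.le fun z => ?_
    refine (hSl z.2).trans ?_
    gcongr
    exact norm_snd_le z
  have hL1n : ‖L1‖ ≤ Th n := by
    have hTh := one_le_Th (n := n)
    refine ContinuousLinearMap.opNorm_le_bound _ (by linarith) fun z => ?_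
    rw [Prod.norm_def]
    refine max_le ?_ ?_
    · refine (norm_Ti_le z.1).trans ?_
      gcongr
      exact norm_fst_le z
    · refine (L2.le_opNorm z).trans ?_
      gcongr
      linarith
  set f1 : RE n × RE n → ℝ := fun z => f (z + (0, pst)) with hf1
  have hf1c : ContDiff ℝ s f1 := hf.comp (contDiff_id.add contDiff_const)
  have hff : nffu h f pst l c = fun z => ((l * c) ^ 2)⁻¹ • (g (L2 z) + f1 (L1 z)) := by
    funext z
    have e1 : L2 z = l • SP n z.2 := rfl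
    have e2 : f1 (L1 z) = f ((Par.T : RE n ≃L[ℝ] RE n).symm z.1, pst + l • SP n z.2) := by
      simp only [hf1]
      congr 1
      refine Prod.ext ?_ ?_
      · change (Par.T : RE n ≃L[ℝ] RE n).symm z.1 + 0 = _
        rw [add_zero]
      · change L2 z + pst = _
        rw [e1, add_comm]
    rw [e2, e1, hg]
    have e3 : fderiv ℝ h pst (l • SP n z.2) = l * fderiv ℝ h pst (SP n z.2) := by
      rw [map_smul, smul_eq_mul]
    have e4 : B₀ (l • SP n z.2) (l • SP n z.2) = l * (l * (c ^ 2 * ‖z.2‖ ^ 2)) := by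
      rw [← hB₀, map_smul, map_smul, smul_eq_mul]
      rfl
    simp only [nffu, jetB]
    rw [e3, e4, smul_eq_mul, div_eq_inv_mul]
    ring
  have hc1 : ContDiff ℝ s (fun z => g (L2 z)) := hgs.comp L2.contDiff
  have hc2 : ContDiff ℝ s (fun z => f1 (L1 z)) := hf1c.comp L1.contDiff
  refine ⟨?_, ?_, ?_⟩
  · rw [hff]
    exact (hc1.add hc2).const_smul _
  · intro x π k
    unfold nffu
    simp only []
    have e1 : (Par.T : RE n ≃L[ℝ] RE n).symm (x + lat k) = (Par.T : RE n ≃L[ℝ] RE n).symm x + LRT.lat k := by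
      rw [map_add, lat, ContinuousLinearEquiv.symm_apply_apply]
    rw [e1, hfp]
  · intro j hj x π hπ
    rw [hff]
    have hcj : ((j : ℕ) : WithTop ℕ∞) ≤ s := by exact_mod_cast hj
    have e1 : iteratedFDeriv ℝ j (fun z => ((l * c) ^ 2)⁻¹ • (g (L2 z) + f1 (L1 z))) (x, π) =
        ((l * c) ^ 2)⁻¹ • (iteratedFDeriv ℝ j (fun z => g (L2 z)) (x, π) +
          iteratedFDeriv ℝ j (fun z => f1 (L1 z)) (x, π)) := by
      have a1 := iteratedFDeriv_const_smul_apply (𝕜 := ℝ) (i := j) (a := ((l * c) ^ 2)⁻¹)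
        (f := fun z => g (L2 z) + f1 (L1 z)) (x := (x, π)) ((hc1.add hc2).of_le hcj).contDiffAt
      have a2 := iteratedFDeriv_add_apply (𝕜 := ℝ) (i := j) (f := fun z => g (L2 z)) (g := fun z => f1 (L1 z))
        (x := (x, π)) (hc1.of_le hcj).contDiffAt (hc2.of_le hcj).contDiffAt
      rw [← a2]
      exact a1
    rw [e1, norm_smul, Real.norm_eq_abs, abs_of_pos (by positivity)]
    have b1 : ‖iteratedFDeriv ℝ j (fun z => g (L2 z)) (x, π)‖ ≤
        (κ + M * (1 + P) * l) * (1 + P) ^ 2 * l ^ 2 := by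
      refine (nf_comp hgs L2 hL2n hj (x, π)).trans ?_
      have e2 : L2 (x, π) = l • SP n π := rfl
      have hq : ‖L2 (x, π)‖ ≤ l * P := by
        rw [e2]
        refine (hSl π).trans ?_
        gcongr
      refine hT j hj _ ?_ hq
      rw [e2]
      exact (hball π hπ).le
    have b3 : ‖iteratedFDeriv ℝ j (fun z => f1 (L1 z)) (x, π)‖ ≤ ε * (l * c) ^ 2 / 2 := by
      refine (nf_comp hf1c L1 hL1n hj (x, π)).trans ?_
      have e3 : iteratedFDeriv ℝ j f1 (L1 (x, π)) = iteratedFDeriv ℝ j f (L1 (x, π) + (0, pst)) := by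
        rw [hf1]
        exact iteratedFDeriv_comp_add_right j (0, pst) (L1 (x, π))
      have e4 : L1 (x, π) + (0, pst) = ((Par.T : RE n ≃L[ℝ] RE n).symm x, pst + l • SP n π) := by
        refine Prod.ext ?_ ?_
        · change (Par.T : RE n ≃L[ℝ] RE n).symm x + 0 = _
          rw [add_zero]
        · change l • SP n π + pst = _
          rw [add_comm]
      rw [e3, e4]
      have b4 := hfb j hj ((Par.T : RE n ≃L[ℝ] RE n).symm x) (pst + l • SP n π)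
        (by rw [add_sub_cancel_left]; exact (hball π hπ).le)
      have hTh := one_le_Th (n := n)
      have b5 : Th n ^ j ≤ Th n ^ s := pow_le_pow_right₀ hTh hj
      have hTs : 0 < Th n ^ s := by positivity
      calc _ ≤ ε * (l * c) ^ 2 / (2 * Th n ^ s) * Th n ^ s := by gcongr
        _ = ε * (l * c) ^ 2 / 2 := by field_simp
    have b6 : (κ + M * (1 + P) * l) * (1 + P) ^ 2 * l ^ 2 ≤ ε * (l * c) ^ 2 / 2 := by
      have c1 : κ * (1 + P) ^ 2 = ε * c ^ 2 / 4 := by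
        rw [hκd]
        field_simp
      have c2 : M * (1 + P) * l * (1 + P) ^ 2 ≤ ε * c ^ 2 / 4 := by
        rw [le_div_iff₀ (by positivity)] at hl2
        have c3 : M * (1 + P) * l * (1 + P) ^ 2 ≤ l * ((M + 1) * (1 + P) ^ 3) := by
          have : 0 ≤ l * (1 + P) ^ 3 := by positivity
          nlinarith
        nlinarith
      have c4 : (κ + M * (1 + P) * l) * (1 + P) ^ 2 ≤ ε * c ^ 2 / 2 := by nlinarith
      calc _ ≤ (ε * c ^ 2 / 2) * l ^ 2 := mul_le_mul_of_nonneg_right c4 (by positivity)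
        _ = ε * (l * c) ^ 2 / 2 := by ring
    have hlc : 0 < (l * c) ^ 2 := by positivity
    rw [inv_mul_le_iff₀ hlc]
    refine (norm_add_le _ _).trans ?_
    linarith

end Pool.Agent.LRW
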