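import Pool.Agent.LRW.KN
import Pool.Agent.LRW.NFU
import Pool.Agent.LRW.KG

/-!
# LRW/KNU: the local family of solutions, with uniform constants   (helper45)
-/

set_option autoImplicit false
set_option linter.style.haveILetI false

open MeasureTheory Module Set Filter Topology

namespace Pool.Agent.LRW

open Pool.H45.Mather Pool.Agent.LRT

noncomputable section

set_option linter.unusedSectionVars false

variable {n : ℕ}

/-- the hypotheses of the uniform local theorem -/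
structure HypU (s : ℕ) (La' M δ ef : ℝ) (h : RE n → ℝ) (pst : RE n) (f H' : RE n × RE n → ℝ)
    (Hp' : RE n × RE n → RE n) : Prop where
  hC : ContDiff ℝ s h
  hM : ∀ j, 3 ≤ j → j ≤ s → ∀ p, ‖p - pst‖ ≤ δ → ‖iteratedFDeriv ℝ j h p‖ ≤ M
  fC : ContDiff ℝ s f
  per : ∀ p, Per (bs n) (fun x => f (x, p))
  small : ∀ j ≤ s, ∀ x p, ‖p - pst‖ ≤ δ → ‖iteratedFDeriv ℝ j f (x, p)‖ ≤ ef
  ham : HamK La' (bs n) H' Hp'
  eq : ∀ x p, ‖p - pst‖ ≤ δ → H' (x, p) = h p + f (x, p)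
  diff : ∀ w, ‖w - gradient h pst‖ < δ → DifferentiableAt ℝ (betaL (bs n) (Leg H')) w

lemma HypU.mono {s : ℕ} {La' M δ ef ef' : ℝ} {h : RE n → ℝ} {pst : RE n} {f H' : RE n × RE n → ℝ}
    {Hp' : RE n × RE n → RE n} (H : HypU s La' M δ ef h pst f H' Hp') (he : ef ≤ ef') :
    HypU s La' M δ ef' h pst f H' Hp' :=
  ⟨H.hC, H.hM, H.fC, H.per, fun j hj x p hp => (H.small j hj x p hp).trans he, H.ham, H.eq, H.diff⟩

/-- solutions in normalised coordinates, near a given quadratic form -/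
theorem sol_near (n : ℕ) {s₀ : ℕ} {La La' M δ : ℝ} (hLa : 1 ≤ La) (hLa' : 1 ≤ La') (hM : 0 ≤ M) (hδ : 0 < δ)
    (hLT : ∀ [Par n] {La : ℝ}, 1 ≤ La → ∃ ε : ℝ, 0 < ε ∧
      ∀ (p0 w0 : RE n) (ka : ℝ) (f Ht : RE n × RE n → ℝ) (Hpt : RE n × RE n → RE n), ContDiff ℝ s₀ f →
      (∀ x p : RE n, ∀ k : Fin n → ℤ, f (x + lat k, p) = f (x, p)) →
      (∀ j ≤ s₀, ∀ x p : RE n, ‖p‖ ≤ 5 * Real.sqrt n → ‖iteratedFDeriv ℝ j f (x, p)‖ ≤ ε) →
      HamK La (bsT n) Ht Hpt →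
      (∀ x p : RE n, ‖p‖ < 4 → Ht (x, p0 + p) = ka + inner ℝ w0 p + ‖p‖ ^ 2 / 2 + f (x, p)) →
      (∀ h : RE n, ‖h - w0‖ < 2 → DifferentiableAt ℝ (betaL (bsT n) (Leg Ht)) h) →
      ∃ (c : RE n → RE n) (a : RE n → ℝ) (u : RE n → RE n → ℝ) (P : RE n → RE n → RE n),
        LocalSol p0 w0 Ht Hpt 1 c a u P)
    {B₀ : RE n →L[ℝ] RE n →L[ℝ] ℝ} (hB₀ : B₀ ∈ Forms n La) :
    ∃ (_ : Par n) (c κ l1 : ℝ), 0 < c ∧ 0 < κ ∧ 0 < l1 ∧ (∀ v, ‖SP n v‖ ≤ ‖v‖) ∧ l1 ≤ δ / 4 ∧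
      ∀ l, 0 < l → l ≤ l1 → ∃ ef : ℝ, 0 < ef ∧ ∀ (h : RE n → ℝ) (pst : RE n) (f H' : RE n × RE n → ℝ)
        (Hp' : RE n × RE n → RE n), HypU (max s₀ 3) La' M δ ef h pst f H' Hp' →
        ‖fderiv ℝ (fderiv ℝ h) pst - B₀‖ ≤ κ →
        ∃ c' a' u' P', LocalSol 0 ((l / (l * c) ^ 2) • (Par.T : RE n ≃L[ℝ] RE n) (gradient h pst))
          (Haf Par.T l ((l * c) ^ 2) pst H') (Hpaf Par.T l ((l * c) ^ 2) pst Hp') 1 c' a' u' P' := by
  obtain ⟨iP, c, hc, hc2, hBS, hS1, hS2⟩ := NF1 (by linarith : 0 < La) B₀ hB₀.1 (fun v => (hB₀.2 v).1)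
    (fun v => (hB₀.2 v).2)
  have hLL : 1 ≤ La' * (2 * La) := by nlinarith
  obtain ⟨ε, hε, hloc⟩ := hLT (La := La' * (2 * La)) hLL
  obtain ⟨κ, hκ, l0, hl0, hl01, hNF⟩ := NF2u n s₀ hc hε hδ hM hB₀.1 hBS
  set T : RE n ≃L[ℝ] RE n := Par.T with hT
  set A : ℝ := ‖(T.symm : RE n →L[ℝ] RE n)‖ with hA
  have hA0 : 0 ≤ A := norm_nonneg _
  have hadj : ∀ v, adjT T v = SP n v := fun v => rfl
  have hSn : ∀ v, ‖SP n v‖ ≤ ‖v‖ := fun v => by
    refine ((SP n).le_opNorm v).trans ?_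
    have := norm_SP_le (n := n)
    have := norm_nonneg v
    nlinarith
  refine ⟨iP, c, κ, min l0 (min (δ / 4) (δ / (2 * (c ^ 2 * (A + 1)) + 1))), hc, hκ,
    lt_min hl0 (lt_min (by positivity) (by positivity)), hSn, (min_le_right _ _).trans (min_le_left _ _),
    fun l hl' hll => ?_⟩
  have hll0 : l ≤ l0 := hll.trans (min_le_left _ _)
  have hld : l ≤ δ / 4 := hll.trans ((min_le_right _ _).trans (min_le_left _ _))
  have hlρ : l * (2 * (c ^ 2 * (A + 1)) + 1) ≤ δ := by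
    have h1 : l ≤ δ / (2 * (c ^ 2 * (A + 1)) + 1) := hll.trans ((min_le_right _ _).trans (min_le_right _ _))
    rwa [le_div_iff₀ (by positivity)] at h1
  obtain ⟨hdom, ef, hef, hff⟩ := hNF l hl' hll0
  refine ⟨ef, hef, fun h pst f H' Hp' HY hκB => ?_⟩
  set μ : ℝ := (l * c) ^ 2 with hμ
  have hμ0 : 0 < μ := by positivity
  have hlμ : l ^ 2 / μ = 1 / c ^ 2 := by rw [hμ]; field_simp
  have hμl : μ / l = l * c ^ 2 := by rw [hμ]; field_simp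
  set w0 : RE n := (l / μ) • T (gradient h pst) with hw0
  have hfs : ContDiff ℝ s₀ f := HY.fC.of_le (by exact_mod_cast le_max_left s₀ 3)
  obtain ⟨k1, k2, k3⟩ := hff h HY.hC pst HY.hM hκB f hfs (fun x p k => bs_per' (HY.per p) x k)
    (fun j hj x p hp => HY.small j (hj.trans (le_max_left _ _)) x p hp)
  have hbT : ∀ i, bsT n i = T (bs n i) := fun i => bsT_apply i
  have hK : HamK (La' * (2 * La)) (bsT n) (Haf T l μ pst H') (Hpaf T l μ pst Hp') := by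
    refine hamK_af HY.ham hLa' hbT hμ0 pst (by positivity) (fun q => ?_) (fun q => ?_)
    · rw [hlμ, hadj]
      have h1 := hS2 q
      rw [one_div, inv_mul_le_iff₀ (by positivity)]
      calc _ ≤ 2 * La * c ^ 2 * ‖q‖ ^ 2 := h1
        _ = _ := by ring
    · rw [hlμ, hadj]
      have h1 := hS1 q
      have h2 : 2 * La * (1 / c ^ 2 * ‖SP n q‖ ^ 2) = (2 * La * ‖SP n q‖ ^ 2) / c ^ 2 := by
        field_simp
      rw [h2, le_div_iff₀ (by positivity)]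
      linarith
  exact hloc 0 w0 (h pst / μ) (nffu h f pst l c) (Haf T l μ pst H') (Hpaf T l μ pst Hp') k1
    (fun x p k => k2 x p k) k3 hK (by
      intro x π hπ
      rw [zero_add]
      have hn1 : ‖pst + l • SP n π - pst‖ ≤ δ := by
        rw [add_sub_cancel_left, norm_smul, Real.norm_eq_abs, abs_of_pos hl']
        have h1 := hSn π
        have h2 : l * ‖SP n π‖ ≤ δ / 4 * 4 :=
          mul_le_mul hld (h1.trans hπ.le) (norm_nonneg _) (by positivity)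
        linarith
      have h1 := HY.eq (T.symm x) (pst + l • SP n π) hn1
      simp only [Haf, hadj]
      rw [h1]
      have e1 : inner ℝ w0 π = (l / μ) * fderiv ℝ h pst (SP n π) := by
        rw [hw0, inner_smul_left]
        simp only [conj_trivial]
        congr 1
        rw [real_inner_comm, ← SP_inner, real_inner_comm]
        unfold gradient
        rw [InnerProductSpace.toDual_symm_apply]
      rw [e1]
      unfold nffu
      simp only []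
      rw [← hμ]
      field_simp
      ring)
    (by
      intro y hy
      refine diff_af hLa' HY.ham hLL hbT hl' hμ0 hK (HY.diff _ ?_)
      have e1 : gradient h pst = (μ / l) • T.symm w0 := by
        rw [hw0, map_smul, ContinuousLinearEquiv.symm_apply_apply, smul_smul]
        have : μ / l * (l / μ) = 1 := by field_simp
        rw [this, one_smul]
      have e2 : (μ / l) • T.symm y - gradient h pst = (μ / l) • T.symm (y - w0) := by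
        rw [e1, map_sub, smul_sub]
      rw [e2, hμl, norm_smul, Real.norm_eq_abs, abs_of_pos (by positivity)]
      have h1 : ‖T.symm (y - w0)‖ ≤ A * ‖y - w0‖ := (T.symm : RE n →L[ℝ] RE n).le_opNorm _
      have h2 : ‖T.symm (y - w0)‖ < 2 * (A + 1) := by
        have := norm_nonneg (y - w0)
        nlinarith
      calc l * c ^ 2 * ‖T.symm (y - w0)‖ < l * c ^ 2 * (2 * (A + 1)) :=
            mul_lt_mul_of_pos_left h2 (by positivity)
        _ ≤ δ := by nlinarith)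

lemma near_id {E : Type*} [NormedAddCommGroup E] [InnerProductSpace ℝ E] {F : E → E} {w w' : E}
    (h : ‖(F w - w) - (F w' - w')‖ ≤ 1 / 20 * ‖w - w'‖) :
    ‖F w - F w'‖ ≤ 21 / 20 * ‖w - w'‖ ∧ 19 / 20 * ‖w - w'‖ ^ 2 ≤ inner ℝ (F w - F w') (w - w') := by
  have e : F w - F w' = ((F w - w) - (F w' - w')) + (w - w') := by abel
  constructor
  · rw [e]
    refine (norm_add_le _ _).trans ?_
    linarith
  · rw [e, inner_add_left, real_inner_self_eq_norm_sq]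
    have h1 := abs_real_inner_le_norm ((F w - w) - (F w' - w')) (w - w')
    have h2 := (abs_le.1 h1).1
    nlinarith [norm_nonneg (w - w')]

section ext

variable [Par n] {c l δ : ℝ} {g pst : RE n} {H' : RE n × RE n → ℝ} {Hp' : RE n × RE n → RE n}
  {c' : RE n → RE n} {a' : RE n → ℝ} {u' : RE n → RE n → ℝ} {P' : RE n → RE n → RE n}

theorem ext_fam (hc : 0 < c) (hl : 0 < l) (hSn : ∀ v, ‖SP n v‖ ≤ ‖v‖) (hld : l ≤ δ / 4)
    (hS : LocalSol 0 ((l / (l * c) ^ 2) • (Par.T : RE n ≃L[ℝ] RE n) g) (Haf Par.T l ((l * c) ^ 2) pst H')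
      (Hpaf Par.T l ((l * c) ^ 2) pst Hp') 1 c' a' u' P') :
    ∃ C P, FFam (bs n) H' Hp' g
      (19 / 20 * (l ^ 2 / (l * c) ^ 2) / (‖((Par.T : RE n ≃L[ℝ] RE n).symm : RE n →L[ℝ] RE n)‖ + 1) ^ 2)
      (2 * (l ^ 2 / (l * c) ^ 2) *
        (‖((Par.T : RE n ≃L[ℝ] RE n) : RE n →L[ℝ] RE n)‖ * ‖adjT (Par.T : RE n ≃L[ℝ] RE n)‖))
      (1 / ((l / (l * c) ^ 2) * ‖((Par.T : RE n ≃L[ℝ] RE n) : RE n →L[ℝ] RE n)‖ + 1)) C P ∧
      ∀ w, ‖w - g‖ < 1 / ((l / (l * c) ^ 2) * ‖((Par.T : RE n ≃L[ℝ] RE n) : RE n →L[ℝ] RE n)‖ + 1) →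
        ∀ x, ‖P w x - pst‖ ≤ δ := by
  set T : RE n ≃L[ℝ] RE n := Par.T with hT
  set μ : ℝ := (l * c) ^ 2 with hμ
  have hμ0 : 0 < μ := by positivity
  set w0 : RE n := (l / μ) • T g with hw0
  have hw1 : ‖(l / μ) • T g - w0‖ < 1 := by
    rw [hw0, sub_self, norm_zero]
    exact one_pos
  have hfam := hS.fam hl hμ0 hw1
  have e0 : (1 - ‖(l / μ) • T g - w0‖) = 1 := by rw [hw0, sub_self, norm_zero, sub_zero]
  rw [e0] at hfam
  refine ⟨_, _, hfam, fun w hw x => ?_⟩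
  have hin : ‖(l / μ) • T w - w0‖ < 1 := by
    have e : (l / μ) • T w - w0 = (l / μ) • T (w - g) := by
      rw [hw0, map_sub, smul_sub]
    rw [e, norm_smul, Real.norm_eq_abs, abs_of_pos (by positivity)]
    have h1 : ‖T (w - g)‖ ≤ ‖(T : RE n →L[ℝ] RE n)‖ * ‖w - g‖ :=
      (T : RE n →L[ℝ] RE n).le_opNorm _
    have hν : 0 < l / μ := by positivity
    rw [lt_div_iff₀ (by positivity)] at hw
    have h2 := mul_le_mul_of_nonneg_left h1 hν.le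
    have h3 := norm_nonneg (w - g)
    rcases eq_or_lt_of_le h3 with h4 | h4
    · rw [← h4, mul_zero, mul_zero] at h2
      linarith
    · calc _ ≤ l / μ * (‖(T : RE n →L[ℝ] RE n)‖ * ‖w - g‖) := h2
        _ < ‖w - g‖ * (l / μ * ‖(T : RE n →L[ℝ] RE n)‖ + 1) := by linarith
        _ < 1 := hw
  have h1 := hS.bdP _ hin (T x)
  have h2 : ‖P' ((l / μ) • T w) (T x)‖ ≤ 2 := by
    have e : P' ((l / μ) • T w) (T x) = ((P' ((l / μ) • T w) (T x) - 0) - ((l / μ) • T w - w0)) +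
        ((l / μ) • T w - w0) := by abel
    rw [e]
    refine (norm_add_le _ _).trans ?_
    linarith
  rw [add_sub_cancel_left, norm_smul, Real.norm_eq_abs, abs_of_pos hl]
  have h3 : ‖adjT T (P' ((l / μ) • T w) (T x))‖ ≤ 2 := (hSn _).trans h2
  have hδ0 : 0 ≤ δ / 4 := hl.le.trans hld
  have h4 : l * ‖adjT T (P' ((l / μ) • T w) (T x))‖ ≤ δ / 4 * 2 :=
    mul_le_mul hld h3 (norm_nonneg _) hδ0
  linarith

theorem ext_cov (hc : 0 < c) (hl : 0 < l)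
    (hS : LocalSol 0 ((l / (l * c) ^ 2) • (Par.T : RE n ≃L[ℝ] RE n) g) (Haf Par.T l ((l * c) ^ 2) pst H')
      (Hpaf Par.T l ((l * c) ^ 2) pst Hp') 1 c' a' u' P') :
    (∃ w P, ‖w - g‖ ≤ l * (c ^ 2 * (‖((Par.T : RE n ≃L[ℝ] RE n).symm : RE n →L[ℝ] RE n)‖ + 1)) ∧
      FSol (bs n) H' Hp' w pst P) ∧
    ∀ x, ∃ w C P, ‖w - g‖ ≤ l * (c ^ 2 * (‖((Par.T : RE n ≃L[ℝ] RE n).symm : RE n →L[ℝ] RE n)‖ + 1)) ∧
      FSol (bs n) H' Hp' w C P ∧ P x = pst := by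
  set T : RE n ≃L[ℝ] RE n := Par.T with hT
  set A : ℝ := ‖(T.symm : RE n →L[ℝ] RE n)‖ with hA
  have hA0 : 0 ≤ A := norm_nonneg _
  set μ : ℝ := (l * c) ^ 2 with hμ
  have hμ0 : 0 < μ := by positivity
  have hμl : μ / l = l * c ^ 2 := by rw [hμ]; field_simp
  set w0 : RE n := (l / μ) • T g with hw0
  -- from normalised frequencies to frequencies
  have key : ∀ y : RE n, ‖y - w0‖ ≤ 1 / 9 → ∃ w, (l / μ) • T w = y ∧ ‖w - g‖ ≤ l * (c ^ 2 * (A + 1)) ∧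
      FSol (bs n) H' Hp' w (pst + l • adjT T (c' y)) (fun x => pst + l • adjT T (P' y (T x))) := by
    intro y hy
    have e0 : (l / μ) • T ((μ / l) • T.symm y) = y := by
      rw [map_smul, ContinuousLinearEquiv.apply_symm_apply, smul_smul]
      have : l / μ * (μ / l) = 1 := by field_simp
      rw [this, one_smul]
    refine ⟨(μ / l) • T.symm y, e0, ?_, ?_⟩
    · have e1 : g = (μ / l) • T.symm w0 := by
        rw [hw0, map_smul, ContinuousLinearEquiv.symm_apply_apply, smul_smul]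
        have : μ / l * (l / μ) = 1 := by field_simp
        rw [this, one_smul]
      have e2 : (μ / l) • T.symm y - g = (μ / l) • T.symm (y - w0) := by
        rw [e1, ← smul_sub, ← map_sub]
      rw [e2, hμl, norm_smul, Real.norm_eq_abs, abs_of_pos (by positivity)]
      have h1 : ‖T.symm (y - w0)‖ ≤ A * ‖y - w0‖ := (T.symm : RE n →L[ℝ] RE n).le_opNorm _
      have h2 : ‖T.symm (y - w0)‖ ≤ A + 1 := by
        have := norm_nonneg (y - w0)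
        nlinarith
      calc l * c ^ 2 * ‖T.symm (y - w0)‖ ≤ l * c ^ 2 * (A + 1) :=
            mul_le_mul_of_nonneg_left h2 (by positivity)
        _ = _ := by ring
    · have hlt : ‖(l / μ) • T ((μ / l) • T.symm y) - w0‖ < 1 := by
        rw [e0]
        linarith
      have hf := hS.fam hl hμ0 hlt
      have := hf.sol _ (by rw [sub_self, norm_zero]; exact hf.r0)
      beta_reduce at this
      rwa [← hT, e0] at this
  have hball : ∀ y : RE n, ‖y - w0‖ ≤ 1 / 9 → ‖y - w0‖ < 1 := fun y hy => by linarith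
  constructor
  · obtain ⟨y, hy, hy0⟩ := zar_ball (F := c') (m := 19 / 20) (K := 21 / 20) (η := 1 / 9) (w₁ := w0) (p := 0)
      (by norm_num) (by norm_num) (by norm_num)
      (fun w w' hw hw' => (near_id (hS.lipc w w' (hball w hw) (hball w' hw'))).1)
      (fun w w' hw hw' => (near_id (hS.lipc w w' (hball w hw) (hball w' hw'))).2)
      (by
        have h1 := hS.bdc w0 (by rw [sub_self, norm_zero]; exact one_pos)
        rw [sub_self, sub_zero] at h1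
        refine h1.trans ?_
        norm_num)
    obtain ⟨w, -, h2, h3⟩ := key y hy
    rw [hy0, map_zero, smul_zero, add_zero] at h3
    exact ⟨w, _, h2, h3⟩
  · intro x
    have hl1 : ∀ w w', ‖w - w0‖ ≤ 1 / 9 → ‖w' - w0‖ ≤ 1 / 9 →
        ‖(P' w (T x) - w) - (P' w' (T x) - w')‖ ≤ 1 / 20 * ‖w - w'‖ := by
      intro w w' hw hw'
      have h1 := hS.lipP w w' (hball w hw) (hball w' hw') (T x) (T x)
      rwa [sub_self, norm_zero, zero_add] at h1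
    obtain ⟨y, hy, hy0⟩ := zar_ball (F := fun y => P' y (T x)) (m := 19 / 20) (K := 21 / 20) (η := 1 / 9)
      (w₁ := w0) (p := 0) (by norm_num) (by norm_num) (by norm_num)
      (fun w w' hw hw' => (near_id (F := fun y => P' y (T x)) (hl1 w w' hw hw')).1)
      (fun w w' hw hw' => (near_id (F := fun y => P' y (T x)) (hl1 w w' hw hw')).2)
      (by
        have h1 := hS.bdP w0 (by rw [sub_self, norm_zero]; exact one_pos) (T x)
        rw [sub_self, sub_zero] at h1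
        refine h1.trans ?_
        norm_num)
    obtain ⟨w, -, h2, h3⟩ := key y hy
    refine ⟨w, _, _, h2, h3, ?_⟩
    beta_reduce
    beta_reduce at hy0
    rw [hy0, map_zero, smul_zero, add_zero]

end ext

/-- uniform families -/
theorem unif_fam (n : ℕ) {s₀ : ℕ} {La La' M δ : ℝ} (hLa : 1 ≤ La) (hLa' : 1 ≤ La') (hM : 0 ≤ M) (hδ : 0 < δ)
    (hLT : ∀ [Par n] {La : ℝ}, 1 ≤ La → ∃ ε : ℝ, 0 < ε ∧
      ∀ (p0 w0 : RE n) (ka : ℝ) (f Ht : RE n × RE n → ℝ) (Hpt : RE n × RE n → RE n), ContDiff ℝ s₀ f →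
      (∀ x p : RE n, ∀ k : Fin n → ℤ, f (x + lat k, p) = f (x, p)) →
      (∀ j ≤ s₀, ∀ x p : RE n, ‖p‖ ≤ 5 * Real.sqrt n → ‖iteratedFDeriv ℝ j f (x, p)‖ ≤ ε) →
      HamK La (bsT n) Ht Hpt →
      (∀ x p : RE n, ‖p‖ < 4 → Ht (x, p0 + p) = ka + inner ℝ w0 p + ‖p‖ ^ 2 / 2 + f (x, p)) →
      (∀ h : RE n, ‖h - w0‖ < 2 → DifferentiableAt ℝ (betaL (bsT n) (Leg Ht)) h) →
      ∃ (c : RE n → RE n) (a : RE n → ℝ) (u : RE n → RE n → ℝ) (P : RE n → RE n → RE n),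
        LocalSol p0 w0 Ht Hpt 1 c a u P) :
    ∃ ef r m K : ℝ, 0 < ef ∧ 0 < r ∧ 0 < m ∧ ∀ (h : RE n → ℝ) (pst : RE n) (f H' : RE n × RE n → ℝ)
      (Hp' : RE n × RE n → RE n), HypU (max s₀ 3) La' M δ ef h pst f H' Hp' →
      fderiv ℝ (fderiv ℝ h) pst ∈ Forms n La →
      ∃ c P, FFam (bs n) H' Hp' (gradient h pst) m K r c P ∧
        ∀ w, ‖w - gradient h pst‖ < r → ∀ x, ‖P w x - pst‖ ≤ δ := by
  have hnet : ∃ i : ℝ × ℝ × ℝ × ℝ, ∀ B ∈ Forms n La, 0 < i.1 ∧ 0 < i.2.1 ∧ 0 < i.2.2.1 ∧ ∀ (h : RE n → ℝ) (pst : RE n) (f H' : RE n × RE n → ℝ)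
      (Hp' : RE n × RE n → RE n), HypU (max s₀ 3) La' M δ i.1 h pst f H' Hp' →
      fderiv ℝ (fderiv ℝ h) pst = B →
      ∃ c P, FFam (bs n) H' Hp' (gradient h pst) i.2.2.1 i.2.2.2 i.2.1 c P ∧
        ∀ w, ‖w - gradient h pst‖ < i.2.1 → ∀ x, ‖P w x - pst‖ ≤ δ := by
    refine net_dir (isCompact_Forms n (by linarith : 0 < La)) (ι := ℝ × ℝ × ℝ × ℝ)
      (fun B i => 0 < i.1 ∧ 0 < i.2.1 ∧ 0 < i.2.2.1 ∧ ∀ (h : RE n → ℝ) (pst : RE n) (f H' : RE n × RE n → ℝ)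
      (Hp' : RE n × RE n → RE n), HypU (max s₀ 3) La' M δ i.1 h pst f H' Hp' →
      fderiv ℝ (fderiv ℝ h) pst = B →
      ∃ c P, FFam (bs n) H' Hp' (gradient h pst) i.2.2.1 i.2.2.2 i.2.1 c P ∧
        ∀ w, ‖w - gradient h pst‖ < i.2.1 → ∀ x, ‖P w x - pst‖ ≤ δ) ?_ ?_
    · rintro ⟨ef, r, m, K⟩ ⟨ef', r', m', K'⟩
      by_cases hpos : (0 < ef ∧ 0 < r ∧ 0 < m) ∧ 0 < ef' ∧ 0 < r' ∧ 0 < m'
      · obtain ⟨⟨a1, a2, a3⟩, b1, b2, b3⟩ := hpos
        refine ⟨⟨min ef ef', min r r', min m m', max K K'⟩, fun B => ⟨?_, ?_⟩⟩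
        · rintro ⟨-, -, -, h1⟩
          refine ⟨lt_min a1 b1, lt_min a2 b2, lt_min a3 b3, fun h pst f H' Hp' HY hB => ?_⟩
          obtain ⟨c, P, hF, hb⟩ := h1 h pst f H' Hp' (HY.mono (min_le_left _ _)) hB
          exact ⟨c, P, hF.mono (min_le_left _ _) (le_max_left _ _) (lt_min a2 b2)
            (by rw [sub_self, norm_zero, add_zero]; exact min_le_left _ _),
            fun w hw => hb w (hw.trans_le (min_le_left _ _))⟩
        · rintro ⟨-, -, -, h1⟩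
          refine ⟨lt_min a1 b1, lt_min a2 b2, lt_min a3 b3, fun h pst f H' Hp' HY hB => ?_⟩
          obtain ⟨c, P, hF, hb⟩ := h1 h pst f H' Hp' (HY.mono (min_le_right _ _)) hB
          exact ⟨c, P, hF.mono (min_le_right _ _) (le_max_right _ _) (lt_min a2 b2)
            (by rw [sub_self, norm_zero, add_zero]; exact min_le_right _ _),
            fun w hw => hb w (hw.trans_le (min_le_right _ _))⟩
      · rw [not_and_or] at hpos
        rcases hpos with hpos | hpos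
        · exact ⟨⟨ef', r', m', K'⟩, fun B => ⟨fun h => absurd ⟨h.1, h.2.1, h.2.2.1⟩ hpos, fun h => h⟩⟩
        · exact ⟨⟨ef, r, m, K⟩, fun B => ⟨fun h => h, fun h => absurd ⟨h.1, h.2.1, h.2.2.1⟩ hpos⟩⟩
    · intro B₀ hB₀
      obtain ⟨iP, c, κ, l1, hc, hκ, hl1, hSn, hld, hS⟩ := sol_near n hLa hLa' hM hδ (fun {_} {_} => hLT) hB₀
      obtain ⟨ef, hef, hS⟩ := hS l1 hl1 le_rfl
      refine ⟨κ, hκ, ⟨ef, 1 / ((l1 / (l1 * c) ^ 2) * ‖((Par.T : RE n ≃L[ℝ] RE n) : RE n →L[ℝ] RE n)‖ + 1),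
        19 / 20 * (l1 ^ 2 / (l1 * c) ^ 2) / (‖((Par.T : RE n ≃L[ℝ] RE n).symm : RE n →L[ℝ] RE n)‖ + 1) ^ 2,
        2 * (l1 ^ 2 / (l1 * c) ^ 2) *
          (‖((Par.T : RE n ≃L[ℝ] RE n) : RE n →L[ℝ] RE n)‖ * ‖adjT (Par.T : RE n ≃L[ℝ] RE n)‖)⟩, fun B _ hBB => ?_⟩
      refine ⟨hef, by positivity, by positivity, fun h pst f H' Hp' HY hB => ?_⟩
      obtain ⟨c', a', u', P', hL⟩ := hS h pst f H' Hp' HY (by
        rw [hB]
        exact (dist_eq_norm B B₀).symm.le.trans hBB.le)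
      exact ext_fam hc hl1 hSn hld hL
  obtain ⟨⟨ef, r, m, K⟩, hG⟩ := hnet
  by_cases hne : (Forms n La).Nonempty
  · obtain ⟨B, hB⟩ := hne
    obtain ⟨h1, h2, h3, -⟩ := hG B hB
    exact ⟨ef, r, m, K, h1, h2, h3, fun h pst f H' Hp' HY hB => (hG _ hB).2.2.2 h pst f H' Hp' HY rfl⟩
  · exact ⟨1, 1, 1, 1, one_pos, one_pos, one_pos, fun h pst f H' Hp' HY hB => absurd ⟨_, hB⟩ hne⟩

/-- uniform covering -/
theorem unif_cov (n : ℕ) {s₀ : ℕ} {La La' M δ : ℝ} (hLa : 1 ≤ La) (hLa' : 1 ≤ La') (hM : 0 ≤ M) (hδ : 0 < δ)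
    (hLT : ∀ [Par n] {La : ℝ}, 1 ≤ La → ∃ ε : ℝ, 0 < ε ∧
      ∀ (p0 w0 : RE n) (ka : ℝ) (f Ht : RE n × RE n → ℝ) (Hpt : RE n × RE n → RE n), ContDiff ℝ s₀ f →
      (∀ x p : RE n, ∀ k : Fin n → ℤ, f (x + lat k, p) = f (x, p)) →
      (∀ j ≤ s₀, ∀ x p : RE n, ‖p‖ ≤ 5 * Real.sqrt n → ‖iteratedFDeriv ℝ j f (x, p)‖ ≤ ε) →
      HamK La (bsT n) Ht Hpt →
      (∀ x p : RE n, ‖p‖ < 4 → Ht (x, p0 + p) = ka + inner ℝ w0 p + ‖p‖ ^ 2 / 2 + f (x, p)) →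
      (∀ h : RE n, ‖h - w0‖ < 2 → DifferentiableAt ℝ (betaL (bsT n) (Leg Ht)) h) →
      ∃ (c : RE n → RE n) (a : RE n → ℝ) (u : RE n → RE n → ℝ) (P : RE n → RE n → RE n),
        LocalSol p0 w0 Ht Hpt 1 c a u P) {r : ℝ} (hr : 0 < r) :
    ∃ ef : ℝ, 0 < ef ∧ ∀ (h : RE n → ℝ) (pst : RE n) (f H' : RE n × RE n → ℝ)
      (Hp' : RE n × RE n → RE n), HypU (max s₀ 3) La' M δ ef h pst f H' Hp' →
      fderiv ℝ (fderiv ℝ h) pst ∈ Forms n La →
      (∃ w P, ‖w - gradient h pst‖ < r ∧ FSol (bs n) H' Hp' w pst P) ∧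
      ∀ x, ∃ w C P, ‖w - gradient h pst‖ < r ∧ FSol (bs n) H' Hp' w C P ∧ P x = pst := by
  have hnet : ∃ i : ℝ, ∀ B ∈ Forms n La, 0 < i ∧ ∀ (h : RE n → ℝ) (pst : RE n) (f H' : RE n × RE n → ℝ)
      (Hp' : RE n × RE n → RE n), HypU (max s₀ 3) La' M δ i h pst f H' Hp' →
      fderiv ℝ (fderiv ℝ h) pst = B →
      (∃ w P, ‖w - gradient h pst‖ < r ∧ FSol (bs n) H' Hp' w pst P) ∧
      ∀ x, ∃ w C P, ‖w - gradient h pst‖ < r ∧ FSol (bs n) H' Hp' w C P ∧ P x = pst := by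
    refine net_dir (isCompact_Forms n (by linarith : 0 < La)) (ι := ℝ)
      (fun B i => 0 < i ∧ ∀ (h : RE n → ℝ) (pst : RE n) (f H' : RE n × RE n → ℝ)
      (Hp' : RE n × RE n → RE n), HypU (max s₀ 3) La' M δ i h pst f H' Hp' →
      fderiv ℝ (fderiv ℝ h) pst = B →
      (∃ w P, ‖w - gradient h pst‖ < r ∧ FSol (bs n) H' Hp' w pst P) ∧
      ∀ x, ∃ w C P, ‖w - gradient h pst‖ < r ∧ FSol (bs n) H' Hp' w C P ∧ P x = pst) ?_ ?_
    · intro ef ef'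
      by_cases hpos : 0 < ef ∧ 0 < ef'
      · refine ⟨min ef ef', fun B => ⟨?_, ?_⟩⟩
        · rintro ⟨-, h1⟩
          exact ⟨lt_min hpos.1 hpos.2, fun h pst f H' Hp' HY hB => h1 h pst f H' Hp' (HY.mono (min_le_left _ _)) hB⟩
        · rintro ⟨-, h1⟩
          exact ⟨lt_min hpos.1 hpos.2, fun h pst f H' Hp' HY hB => h1 h pst f H' Hp' (HY.mono (min_le_right _ _)) hB⟩
      · rw [not_and_or] at hpos
        rcases hpos with hpos | hpos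
        · exact ⟨ef', fun B => ⟨fun h => absurd h.1 hpos, fun h => h⟩⟩
        · exact ⟨ef, fun B => ⟨fun h => h, fun h => absurd h.1 hpos⟩⟩
    · intro B₀ hB₀
      obtain ⟨iP, c, κ, l1, hc, hκ, hl1, hSn, hld, hS⟩ := sol_near n hLa hLa' hM hδ (fun {_} {_} => hLT) hB₀
      set D : ℝ := c ^ 2 * (‖((Par.T : RE n ≃L[ℝ] RE n).symm : RE n →L[ℝ] RE n)‖ + 1) with hD
      have hD0 : 0 < D := by positivity
      have hl2 : 0 < min l1 (r / (2 * D)) := lt_min hl1 (by positivity)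
      obtain ⟨ef, hef, hS⟩ := hS (min l1 (r / (2 * D))) hl2 (min_le_left _ _)
      have hlt : min l1 (r / (2 * D)) * D < r := by
        have h1 : min l1 (r / (2 * D)) ≤ r / (2 * D) := min_le_right _ _
        rw [le_div_iff₀ (by positivity)] at h1
        nlinarith
      refine ⟨κ, hκ, ef, fun B _ hBB => ⟨hef, fun h pst f H' Hp' HY hB => ?_⟩⟩
      obtain ⟨c', a', u', P', hL⟩ := hS h pst f H' Hp' HY (by
        rw [hB]
        exact (dist_eq_norm B B₀).symm.le.trans hBB.le)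
      obtain ⟨⟨w, P, h1, h2⟩, h3⟩ := ext_cov hc hl2 hL
      refine ⟨⟨w, P, h1.trans_lt hlt, h2⟩, fun x => ?_⟩
      obtain ⟨w, C, P, h1, h2, h3⟩ := h3 x
      exact ⟨w, C, P, h1.trans_lt hlt, h2, h3⟩
  obtain ⟨ef, hG⟩ := hnet
  by_cases hne : (Forms n La).Nonempty
  · obtain ⟨B, hB⟩ := hne
    exact ⟨ef, (hG B hB).1, fun h pst f H' Hp' HY hB => (hG _ hB).2 h pst f H' Hp' HY rfl⟩
  · exact ⟨1, one_pos, fun h pst f H' Hp' HY hB => absurd ⟨_, hB⟩ hne⟩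

theorem local_fam_u (n : ℕ) (hn : 2 ≤ n) : ∃ s : ℕ, 3 ≤ s ∧ ∀ {La La' M δ : ℝ}, 1 ≤ La → 1 ≤ La' → 0 ≤ M → 0 < δ →
    ∃ ef r m K : ℝ, 0 < ef ∧ 0 < r ∧ 0 < m ∧ ∀ h : RE n → ℝ, ContDiff ℝ s h → ∀ pst : RE n,
    (∀ v, ‖v‖ ^ 2 / (2 * La) ≤ fderiv ℝ (fderiv ℝ h) pst v v ∧
      fderiv ℝ (fderiv ℝ h) pst v v ≤ 2 * La * ‖v‖ ^ 2) →
    (∀ j, 3 ≤ j → j ≤ s → ∀ p, ‖p - pst‖ ≤ δ → ‖iteratedFDeriv ℝ j h p‖ ≤ M) →
    ∀ f : RE n × RE n → ℝ, ContDiff ℝ s f → (∀ p, Per (bs n) (fun x => f (x, p))) →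
    (∀ j ≤ s, ∀ x p, ‖p - pst‖ ≤ δ → ‖iteratedFDeriv ℝ j f (x, p)‖ ≤ ef) →
    ∀ (H' : RE n × RE n → ℝ) (Hp' : RE n × RE n → RE n), HamK La' (bs n) H' Hp' →
    (∀ x p, ‖p - pst‖ ≤ δ → H' (x, p) = h p + f (x, p)) →
    (∀ w, ‖w - gradient h pst‖ < δ → DifferentiableAt ℝ (betaL (bs n) (Leg H')) w) →
    ∃ c P, FFam (bs n) H' Hp' (gradient h pst) m K r c P ∧
      (∀ w, ‖w - gradient h pst‖ < r → ∀ x, ‖P w x - pst‖ ≤ δ) ∧
      (∃ w, ‖w - gradient h pst‖ < r ∧ c w = pst) ∧ ∀ x, ∃ w, ‖w - gradient h pst‖ < r ∧ P w x = pst := by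
  obtain ⟨s₀, hLT⟩ := LT n hn
  refine ⟨max s₀ 3, le_max_right _ _, fun {La La' M δ} hLa hLa' hM hδ => ?_⟩
  obtain ⟨ef, r, m, K, hef, hr, hm, hA⟩ := unif_fam n hLa hLa' hM hδ (fun {_} {_} => hLT)
  obtain ⟨ef', hef', hB⟩ := unif_cov n hLa hLa' hM hδ (fun {_} {_} => hLT) hr
  refine ⟨min ef ef', r, m, K, lt_min hef hef', hr, hm, fun h hh pst hF hj f hf hper hsm H' Hp' hH' heq hd => ?_⟩
  have HY : HypU (max s₀ 3) La' M δ (min ef ef') h pst f H' Hp' := ⟨hh, hj, hf, hper, hsm, hH', heq, hd⟩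
  have hFo : fderiv ℝ (fderiv ℝ h) pst ∈ Forms n La := by
    refine ⟨fun v w => ?_, hF⟩
    have h1 : ContDiffAt ℝ 3 h pst := (hh.of_le (by exact_mod_cast le_max_right s₀ 3)).contDiffAt
    exact (h1.isSymmSndFDerivAt (by norm_num)) v w
  obtain ⟨c, P, h1, h2⟩ := hA h pst f H' Hp' (HY.mono (min_le_left _ _)) hFo
  obtain ⟨⟨w, Q, h3, h4⟩, h5⟩ := hB h pst f H' Hp' (HY.mono (min_le_right _ _)) hFo
  refine ⟨c, P, h1, h2, ⟨w, h3, ((h1.sol w h3).uniq hLa' hH' h4).2⟩, fun x => ?_⟩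
  obtain ⟨w, C, Q, h3, h4, h6⟩ := h5 x
  refine ⟨w, h3, ?_⟩
  rw [((h1.sol w h3).uniq hLa' hH' h4).1]
  exact h6

end

end Pool.Agent.LRW
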