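import Pool.Agent.LRW.KD1
import Pool.Agent.LRW.KAs

/-!
# LRW/KO: foliations over subsets of the momentum space
-/

set_option autoImplicit false

open MeasureTheory Module Set Filter Topology

namespace Pool.Agent.LRW

open Pool.H45.Mather Pool.Agent.LRT

noncomputable section

variable {n : ℕ} {E : Type*} [NormedAddCommGroup E] [InnerProductSpace ℝ E]

/-- the points `(x, p)`, `p ∈ U`, lie on disjoint invariant Lagrangian graphs `p = P c x` of classes `c ∈ V`, `V ⊇ U` open;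
for `U = univ` this is `C⁰`-integrability -/
def FolOver [CompleteSpace E] (b : Basis (Fin n) ℝ E) (H : E × E → ℝ) (U : Set E) : Prop :=
  ∃ V : Set E, IsOpen V ∧ U ⊆ V ∧ ∃ P : E → E → E,
    (∀ c ∈ V, ∃ φ : E → ℝ, ContDiff ℝ 2 φ ∧ Per b φ ∧
      ∀ x v, inner ℝ (P c x) v = inner ℝ c v + fderiv ℝ φ x v) ∧
    (∀ c ∈ V, ∃ C, LipschitzWith C (P c)) ∧
    ContinuousOn (fun z : E × E => P z.1 z.2) (V ×ˢ univ) ∧
    (∀ x, InjOn (fun c => P c x) V) ∧ (∀ x, ∀ p ∈ U, ∃ c ∈ V, P c x = p) ∧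
    (∀ c ∈ V, ∀ (x p : ℝ → E) t₁ t₂, IsTraj H x p t₁ t₂ → ∀ t₀ ∈ Ioo t₁ t₂, p t₀ = P c (x t₀) →
      ∀ t ∈ Ioo t₁ t₂, p t = P c (x t))

theorem FolOver.c0int [CompleteSpace E] {b : Basis (Fin n) ℝ E} {H : E × E → ℝ} (h : FolOver b H univ) :
    C0Int b H := by
  obtain ⟨V, -, hV, P, h1, h2, h3, h4, h5, h6⟩ := h
  have hV' : V = univ := univ_subset_iff.1 hV
  subst hV'
  refine ⟨P, fun c => h1 c (mem_univ _), fun c => h2 c (mem_univ _), ?_, fun x => ⟨?_, ?_⟩, fun c => h6 c (mem_univ _)⟩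
  · rw [univ_prod_univ, continuousOn_univ] at h3
    exact h3
  · exact injOn_univ.1 (h4 x)
  · intro p
    obtain ⟨c, -, hc⟩ := h5 x p (mem_univ _)
    exact ⟨c, hc⟩

variable [FiniteDimensional ℝ E] [MeasurableSpace E] [BorelSpace E] {b : Basis (Fin n) ℝ E}

variable {H : E × E → ℝ} {Hp : E × E → E}

theorem folover_of_loc [CompleteSpace E] (hH2 : ContDiff ℝ 2 H) (hK : HamL b H Hp)
    (hHp : ∀ x p, Hp (x, p) = gradient (fun q => H (x, q)) p) {U : Set E}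
    (hF : ∀ p ∈ U, ∃ (w₀ : E) (m K r : ℝ) (c : E → E) (P : E → E → E), 0 < m ∧ FFam b H Hp w₀ m K r c P ∧
      (∃ w, ‖w - w₀‖ < r ∧ c w = p) ∧ ∀ x, ∃ w, ‖w - w₀‖ < r ∧ P w x = p) : FolOver b H U := by
  classical
  -- two leaves of the same class coincide
  have hcl : ∀ {w w' c : E} {P P' : E → E}, FSol b H Hp w c P → FSol b H Hp w' c P' → P = P' ∧ w = w' := by
    intro w w' c P P' h h'
    obtain ⟨φ, a1, a2, a3⟩ := h.grad
    obtain ⟨φ', b1, b2, b3⟩ := h'.grad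
    obtain ⟨x₀, hx₀⟩ := (a2.comp₂ b2 (fun s t => s - t)).exists_max (a1.continuous.sub b1.continuous)
    have hd : fderiv ℝ φ x₀ = fderiv ℝ φ' x₀ := by
      have hm : IsLocalMax (fun x => φ x - φ' x) x₀ := Filter.Eventually.of_forall hx₀
      have hz := hm.fderiv_eq_zero
      rw [fderiv_fun_sub (a1.differentiable (by norm_num) x₀) (b1.differentiable (by norm_num) x₀)] at hz
      exact sub_eq_zero.1 hz
    have h0 : P x₀ = P' x₀ := ext_inner_right ℝ fun v => by rw [a3, b3, hd]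
    have hw : w = w' := FSol.freq_eq hH2 hK.per hHp h h' h0
    subst hw
    exact ⟨(h.uniqL hK h').1, rfl⟩
  have hpt : ∀ {w w' c c' : E} {P P' : E → E}, FSol b H Hp w c P → FSol b H Hp w' c' P' →
      ∀ x, P x = P' x → c = c' := by
    intro w w' c c' P P' h h' x hx
    have hw : w = w' := FSol.freq_eq hH2 hK.per hHp h h' hx
    subst hw
    exact (h.uniqL hK h').2
  choose! w₀ m K r c P hm hf hc hP using hF
  set V : Set E := {y | ∃ p ∈ U, ∃ w, ‖w - w₀ p‖ < r p ∧ c p w = y} with hV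
  have hUV : U ⊆ V := fun p hp => by
    obtain ⟨w, h1, h2⟩ := hc p hp
    exact ⟨p, hp, w, h1, h2⟩
  -- the local inverse
  have hinv : ∀ p ∈ U, ∀ w₁, ‖w₁ - w₀ p‖ < r p → ∃ ρ > 0, ∀ y, ‖y - c p w₁‖ < ρ → ∃ w, ‖w - w₀ p‖ < r p ∧
      c p w = y ∧ ‖w - w₁‖ ≤ (m p)⁻¹ * ‖y - c p w₁‖ := by
    intro p hp w₁ hw₁
    have hmp := hm p hp
    set η : ℝ := (r p - ‖w₁ - w₀ p‖) / 2 with hη
    have hη0 : 0 < η := by rw [hη]; linarith
    have hin : ∀ w, ‖w - w₁‖ ≤ η → ‖w - w₀ p‖ < r p := by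
      intro w hw
      have e : w - w₀ p = (w - w₁) + (w₁ - w₀ p) := by abel
      rw [e]
      refine (norm_add_le _ _).trans_lt ?_
      rw [hη] at hw
      linarith
    refine ⟨m p * η / 2, by positivity, fun y hy => ?_⟩
    obtain ⟨w, h1, h2⟩ := zar_ball (F := c p) (m := m p) (K := max (K p) (m p)) (η := η) (w₁ := w₁) (p := y) hmp
      (le_max_right _ _) hη0.le
      (fun w w' hw hw' => ((hf p hp).lipc w w' (hin w hw) (hin w' hw')).trans
        (mul_le_mul_of_nonneg_right (le_max_left _ _) (norm_nonneg _)))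
      (fun w w' hw hw' => (hf p hp).monc w w' (hin w hw) (hin w' hw'))
      (by rw [norm_sub_rev]; exact hy.le)
    refine ⟨w, hin w h1, h2, ?_⟩
    have h3 := zar_inj hmp ((hf p hp).monc w w₁ (hin w h1) hw₁)
    rwa [h2] at h3
  have hVo : IsOpen V := by
    rw [Metric.isOpen_iff]
    rintro y ⟨p, hp, w₁, hw₁, rfl⟩
    obtain ⟨ρ, hρ, h1⟩ := hinv p hp w₁ hw₁
    refine ⟨ρ, hρ, fun y hy => ?_⟩
    rw [Metric.mem_ball, dist_eq_norm] at hy
    obtain ⟨w, h2, h3, -⟩ := h1 y hy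
    exact ⟨p, hp, w, h2, h3⟩
  -- choice of the point and of the frequency
  choose! pc hpc wc hwc hcw using (fun y (hy : y ∈ V) => hy)
  have hsol : ∀ y ∈ V, FSol b H Hp (wc y) y (P (pc y) (wc y)) := by
    intro y hy
    have h1 := (hf (pc y) (hpc y hy)).sol (wc y) (hwc y hy)
    rwa [hcw y hy] at h1
  have hloc : ∀ p ∈ U, ∀ w, ‖w - w₀ p‖ < r p → P (pc (c p w)) (wc (c p w)) = P p w := by
    intro p hp w hw
    exact (hcl (hsol _ ⟨p, hp, w, hw, rfl⟩) ((hf p hp).sol w hw)).1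
  refine ⟨V, hVo, hUV, fun y => P (pc y) (wc y), fun y hy => (hsol y hy).grad, fun y hy => ?_, ?_, fun x => ?_,
    fun x p hp => ?_, fun y hy => ?_⟩
  · obtain ⟨K', hK'⟩ := (hf (pc y) (hpc y hy)).lipx
    refine ⟨⟨max K' 0, le_max_right _ _⟩, LipschitzWith.of_dist_le_mul fun x x' => ?_⟩
    rw [dist_eq_norm, dist_eq_norm]
    exact (hK' _ (hwc y hy) x x').trans (mul_le_mul_of_nonneg_right (le_max_left _ _) (norm_nonneg _))
  · rintro ⟨y₀, x₀⟩ ⟨hy₀, -⟩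
    simp only [] at hy₀
    refine ContinuousAt.continuousWithinAt ?_
    set p := pc y₀ with hp
    set w₁ := wc y₀ with hw₁
    have hpU := hpc y₀ hy₀
    have hwr := hwc y₀ hy₀
    have hcy : c p w₁ = y₀ := hcw y₀ hy₀
    obtain ⟨ρ, hρ, h1⟩ := hinv p hpU w₁ hwr
    obtain ⟨K', hK'⟩ := (hf p hpU).lipx
    have hbd : ∀ᶠ z : E × E in 𝓝 (y₀, x₀), ‖P (pc z.1) (wc z.1) z.2 - P p w₁ x₀‖ ≤
        |K p| * ((m p)⁻¹ * ‖z.1 - y₀‖) + K' * ‖z.2 - x₀‖ := by
      have hev : ∀ᶠ z : E × E in 𝓝 (y₀, x₀), ‖z.1 - y₀‖ < ρ := by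
        have h2 : Continuous fun z : E × E => ‖z.1 - y₀‖ := by fun_prop
        have h3 := h2.tendsto (y₀, x₀)
        simp only [sub_self, norm_zero] at h3
        exact h3.eventually (gt_mem_nhds hρ)
      filter_upwards [hev] with z hz
      obtain ⟨w, h2, h3, h4⟩ := h1 z.1 (by rw [hcy]; exact hz)
      rw [hcy] at h4
      have h5 := hloc p hpU w h2
      rw [h3] at h5
      rw [h5]
      have e : P p w z.2 - P p w₁ x₀ = (P p w z.2 - P p w₁ z.2) + (P p w₁ z.2 - P p w₁ x₀) := by abel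
      rw [e]
      refine (norm_add_le _ _).trans (add_le_add ?_ (hK' _ hwr _ _))
      refine ((hf p hpU).lipw w w₁ h2 hwr z.2).trans ?_
      exact mul_le_mul (le_abs_self _) h4 (norm_nonneg _) (abs_nonneg _)
    have hlim : Tendsto (fun z : E × E => |K p| * ((m p)⁻¹ * ‖z.1 - y₀‖) + K' * ‖z.2 - x₀‖) (𝓝 (y₀, x₀)) (𝓝 0) := by
      have h1 : Continuous fun z : E × E => |K p| * ((m p)⁻¹ * ‖z.1 - y₀‖) + K' * ‖z.2 - x₀‖ := by fun_prop
      have h2 := h1.tendsto (y₀, x₀)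
      simpa using h2
    exact tendsto_iff_norm_sub_tendsto_zero.2 (squeeze_zero' (Eventually.of_forall fun z => norm_nonneg _) hbd hlim)
  · intro y hy y' hy' h
    exact hpt (hsol y hy) (hsol y' hy') x h
  · obtain ⟨w, h1, h2⟩ := hP p hp x
    refine ⟨c p w, ⟨p, hp, w, h1, rfl⟩, ?_⟩
    simp only []
    rw [hloc p hp w h1, h2]
  · exact (hsol y hy).inv hH2

end

end Pool.Agent.LRW
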