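import Pool.Agent.LRW.KL1
import Pool.Agent.LRW.KFam
import Pool.Agent.LRT.VS

/-!
# LRW/KS: affine symplectic changes of coordinates   (helper45)

`y = T x`, `p = p0 + l T^* η`, `H' = H / μ`.
-/

set_option autoImplicit false
set_option linter.style.haveILetI false

open MeasureTheory Module Set Filter Topology

namespace Pool.Agent.LRW

open Pool.H45.Mather Pool.Agent.LRT

noncomputable section

set_option linter.unusedSectionVars false

variable {n : ℕ} {E : Type*} [NormedAddCommGroup E] [InnerProductSpace ℝ E] [FiniteDimensional ℝ E]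
  [CompleteSpace E] [MeasurableSpace E] [BorelSpace E] {b b' : Basis (Fin n) ℝ E}

variable {H : E × E → ℝ} {Hp : E × E → E} {La : ℝ}

/-- the adjoint -/
def adjT (T : E ≃L[ℝ] E) : E →L[ℝ] E := ContinuousLinearMap.adjoint (T : E →L[ℝ] E)

omit [FiniteDimensional ℝ E] [MeasurableSpace E] [BorelSpace E] in
lemma inner_adjT (T : E ≃L[ℝ] E) (x y : E) : inner ℝ (adjT T x) y = inner ℝ x (T y) := by
  unfold adjT
  rw [ContinuousLinearMap.adjoint_inner_left]
  rfl

omit [FiniteDimensional ℝ E] [MeasurableSpace E] [BorelSpace E] in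
lemma inner_adjT' (T : E ≃L[ℝ] E) (x y : E) : inner ℝ y (adjT T x) = inner ℝ (T y) x := by
  rw [real_inner_comm, inner_adjT, real_inner_comm]

omit [FiniteDimensional ℝ E] [MeasurableSpace E] [BorelSpace E] in
lemma adjT_symm (T : E ≃L[ℝ] E) (x : E) : adjT T (adjT T.symm x) = x := by
  refine ext_inner_right ℝ fun v => ?_
  rw [inner_adjT, inner_adjT, ContinuousLinearEquiv.symm_apply_apply]

omit [FiniteDimensional ℝ E] [MeasurableSpace E] [BorelSpace E] in
lemma adjT_symm' (T : E ≃L[ℝ] E) (x : E) : adjT T.symm (adjT T x) = x := by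
  refine ext_inner_right ℝ fun v => ?_
  rw [inner_adjT, inner_adjT, ContinuousLinearEquiv.apply_symm_apply]

/-- the Hamiltonian in the new coordinates -/
def Haf (T : E ≃L[ℝ] E) (l μ : ℝ) (p0 : E) (H : E × E → ℝ) (z : E × E) : ℝ :=
  H (T.symm z.1, p0 + l • adjT T z.2) / μ

/-- its gradient in `p` -/
def Hpaf (T : E ≃L[ℝ] E) (l μ : ℝ) (p0 : E) (Hp : E × E → E) (z : E × E) : E :=
  (l / μ) • T (Hp (T.symm z.1, p0 + l • adjT T z.2))

omit [FiniteDimensional ℝ E] [MeasurableSpace E] [BorelSpace E] [CompleteSpace E] in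
lemma ks_per {α : Type*} {T : E ≃L[ℝ] E} (hb : ∀ i, b' i = T (b i)) {F : E → α} (hF : Per b F) :
    Per b' (fun y => F (T.symm y)) := by
  intro i y
  simp only []
  rw [map_add, hb, ContinuousLinearEquiv.symm_apply_apply]
  exact hF i _

omit [FiniteDimensional ℝ E] [MeasurableSpace E] [BorelSpace E] [CompleteSpace E] in
lemma ks_per' {α : Type*} {T : E ≃L[ℝ] E} (hb : ∀ i, b' i = T (b i)) {F : E → α} (hF : Per b' F) :
    Per b (fun x => F (T x)) := by
  intro i x
  simp only []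
  rw [map_add, ← hb]
  exact hF i _

omit [FiniteDimensional ℝ E] [MeasurableSpace E] [BorelSpace E] in
theorem hamK_af (hH : HamK La b H Hp) (hLa : 1 ≤ La) {T : E ≃L[ℝ] E} (hb : ∀ i, b' i = T (b i)) {l μ : ℝ}
    (hμ : 0 < μ) (p0 : E) {M : ℝ} (hM : 0 < M)
    (h1 : ∀ q, l ^ 2 / μ * ‖adjT T q‖ ^ 2 ≤ M * ‖q‖ ^ 2)
    (h2 : ∀ q, ‖q‖ ^ 2 ≤ M * (l ^ 2 / μ * ‖adjT T q‖ ^ 2)) :
    HamK (La * M) b' (Haf T l μ p0 H) (Hpaf T l μ p0 Hp) := by
  have hL0 : 0 < La := by linarith
  have key : ∀ (x p q : E), inner ℝ (Hp (x, p)) (l • adjT T q) / μ = inner ℝ ((l / μ) • T (Hp (x, p))) q := by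
    intro x p q
    rw [inner_smul_right, inner_adjT', inner_smul_left]
    simp only [conj_trivial]
    ring
  have hsq : ∀ q : E, ‖l • adjT T q‖ ^ 2 / μ = l ^ 2 / μ * ‖adjT T q‖ ^ 2 := by
    intro q
    rw [norm_smul, mul_pow, Real.norm_eq_abs, sq_abs]
    ring
  refine ⟨?_, ?_, ?_, ?_, ?_⟩
  · have h3 := hH.cont
    unfold Haf
    fun_prop
  · have h3 := hH.contp
    unfold Hpaf
    fun_prop
  · intro p
    exact (ks_per hb (hH.per (p0 + l • adjT T p))).comp (fun t => t / μ)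
  · intro x p q
    have h3 := hH.low (T.symm x) (p0 + l • adjT T p) (l • adjT T q)
    simp only [Haf, Hpaf]
    rw [map_add, smul_add, ← add_assoc, ← key, ← add_div]
    have h4 : ‖q‖ ^ 2 / (4 * (La * M)) ≤ (‖l • adjT T q‖ ^ 2 / (4 * La)) / μ := by
      have h5 : (‖l • adjT T q‖ ^ 2 / (4 * La)) / μ = (l ^ 2 / μ * ‖adjT T q‖ ^ 2) / (4 * La) := by
        rw [← hsq]
        field_simp
      rw [h5, div_le_div_iff₀ (by positivity) (by positivity)]
      have h6 := h2 q
      calc ‖q‖ ^ 2 * (4 * La) ≤ (M * (l ^ 2 / μ * ‖adjT T q‖ ^ 2)) * (4 * La) :=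
            mul_le_mul_of_nonneg_right h6 (by positivity)
        _ = _ := by ring
    calc _ ≤ (H (T.symm x, p0 + l • adjT T p) + inner ℝ (Hp (T.symm x, p0 + l • adjT T p)) (l • adjT T q)) / μ +
          (‖l • adjT T q‖ ^ 2 / (4 * La)) / μ := by linarith
      _ = (H (T.symm x, p0 + l • adjT T p) + inner ℝ (Hp (T.symm x, p0 + l • adjT T p)) (l • adjT T q) +
          ‖l • adjT T q‖ ^ 2 / (4 * La)) / μ := by rw [← add_div]
      _ ≤ _ := div_le_div_of_nonneg_right h3 hμ.le
  · intro x p q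
    have h3 := hH.up (T.symm x) (p0 + l • adjT T p) (l • adjT T q)
    simp only [Haf, Hpaf]
    rw [map_add, smul_add, ← add_assoc, ← key, ← add_div]
    have h4 : (La * ‖l • adjT T q‖ ^ 2) / μ ≤ La * M * ‖q‖ ^ 2 := by
      have h5 : (La * ‖l • adjT T q‖ ^ 2) / μ = La * (l ^ 2 / μ * ‖adjT T q‖ ^ 2) := by
        rw [← hsq]
        ring
      rw [h5, mul_assoc]
      exact mul_le_mul_of_nonneg_left (h1 q) hL0.le
    calc _ ≤ (H (T.symm x, p0 + l • adjT T p) + inner ℝ (Hp (T.symm x, p0 + l • adjT T p)) (l • adjT T q) +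
          La * ‖l • adjT T q‖ ^ 2) / μ := div_le_div_of_nonneg_right h3 hμ.le
      _ = (H (T.symm x, p0 + l • adjT T p) + inner ℝ (Hp (T.symm x, p0 + l • adjT T p)) (l • adjT T q)) / μ +
          (La * ‖l • adjT T q‖ ^ 2) / μ := by rw [add_div]
      _ ≤ _ := by linarith

omit [FiniteDimensional ℝ E] [MeasurableSpace E] [BorelSpace E] in
/-- Legendre transform in the new coordinates -/
lemma ks_leg {La' : ℝ} (hLa : 1 ≤ La) (hH : HamK La b H Hp) (hLa' : 1 ≤ La') {T : E ≃L[ℝ] E} {l μ : ℝ}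
    (hl : 0 < l) (hμ : 0 < μ) {p0 : E} (hH' : HamK La' b' (Haf T l μ p0 H) (Hpaf T l μ p0 Hp)) (x v : E) :
    Leg (Haf T l μ p0 H) (T x, (l / μ) • T v) = (Leg H (x, v) - inner ℝ p0 v) / μ := by
  have e1 : ∀ η : E, inner ℝ η ((l / μ) • T v) = (inner ℝ (p0 + l • adjT T η) v - inner ℝ p0 v) / μ := by
    intro η
    rw [inner_add_left, inner_smul_left, inner_smul_right, inner_adjT]
    simp only [conj_trivial]
    ring
  refine le_antisymm ?_ ?_
  · refine ciSup_le fun η => ?_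
    have h1 := hH.fenchel hLa x v (p0 + l • adjT T η)
    simp only [Haf, ContinuousLinearEquiv.symm_apply_apply]
    rw [e1, ← sub_div]
    exact div_le_div_of_nonneg_right (by linarith) hμ.le
  · rw [div_le_iff₀ hμ, sub_le_iff_le_add]
    refine ciSup_le fun p => ?_
    have h1 := hH'.fenchel hLa' (T x) ((l / μ) • T v) (adjT T.symm (l⁻¹ • (p - p0)))
    have e2 : p0 + l • adjT T (adjT T.symm (l⁻¹ • (p - p0))) = p := by
      rw [adjT_symm, smul_smul, mul_inv_cancel₀ hl.ne', one_smul]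
      abel
    rw [e1, e2] at h1
    simp only [Haf, ContinuousLinearEquiv.symm_apply_apply] at h1
    rw [e2] at h1
    have h2 := mul_le_mul_of_nonneg_right h1 hμ.le
    have h3 : (inner ℝ p v - inner ℝ p0 v) / μ * μ = inner ℝ p v - inner ℝ p0 v := by field_simp
    have h4 : (Leg (fun z => H (T.symm z.1, p0 + l • adjT T z.2) / μ) (T x, (l / μ) • T v) + H (x, p) / μ) * μ =
        Leg (fun z => H (T.symm z.1, p0 + l • adjT T z.2) / μ) (T x, (l / μ) • T v) * μ + H (x, p) := by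
      field_simp
    rw [h3] at h2
    have h5 : Leg (Haf T l μ p0 H) (T x, (l / μ) • T v) * μ + H (x, p) =
      (Leg (Haf T l μ p0 H) (T x, (l / μ) • T v) + H (x, p) / μ) * μ := by field_simp
    have h6 : (Leg (Haf T l μ p0 H) (T x, (l / μ) • T v) + H (x, p) / μ) * μ ≥ inner ℝ p v - inner ℝ p0 v := h2
    simp only at h6 ⊢
    linarith

/-- the change of variables on the tangent side -/
def mT (T : E ≃L[ℝ] E) (ν : ℝ) (z : E × E) : E × E := (T z.1, ν • T z.2)

omit [FiniteDimensional ℝ E] [MeasurableSpace E] [BorelSpace E] [CompleteSpace E] in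
lemma mT_cont (T : E ≃L[ℝ] E) (ν : ℝ) : Continuous (mT T ν) := by
  unfold mT
  fun_prop

lemma mT_meas (T : E ≃L[ℝ] E) (ν : ℝ) : Measurable (mT T ν) := (mT_cont T ν).measurable

lemma mT_int {G : Type*} [NormedAddCommGroup G] [NormedSpace ℝ G] {f : E × E → G}
    (hf : Continuous f) {μ : Measure (E × E)} (T : E ≃L[ℝ] E) (ν : ℝ) :
    ∫ z, f z ∂(μ.map (mT T ν)) = ∫ z, f (mT T ν z) ∂μ :=
  integral_map (mT_meas T ν).aemeasurable hf.aestronglyMeasurable

lemma mT_closed {T : E ≃L[ℝ] E} (hb : ∀ i, b' i = T (b i)) {μ : Measure (E × E)} (hμ : IsClosedMeasure b μ) (ν : ℝ) :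
    IsClosedMeasure b' (μ.map (mT T ν)) := by
  have hp := hμ.prob
  refine ⟨Measure.isProbabilityMeasure_map (mT_meas T ν).aemeasurable, ?_, ?_⟩
  · obtain ⟨R, hR⟩ := hμ.bdd
    refine ⟨|ν| * (‖(T : E →L[ℝ] E)‖ * R), ?_⟩
    rw [ae_map_iff (mT_meas T ν).aemeasurable (measurableSet_le (by fun_prop) (by fun_prop))]
    filter_upwards [hR] with z hz
    simp only [mT]
    rw [norm_smul, Real.norm_eq_abs]
    refine mul_le_mul_of_nonneg_left ?_ (abs_nonneg _)
    exact ((T : E →L[ℝ] E).le_opNorm z.2).trans (mul_le_mul_of_nonneg_left hz (norm_nonneg _))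
  · intro φ hφ hφp
    have hc : Continuous (fun z : E × E => fderiv ℝ φ z.1 z.2) :=
      ((hφ.continuous_fderiv one_ne_zero).comp continuous_fst).clm_apply continuous_snd
    rw [mT_int hc]
    set φ' : E → ℝ := fun x => φ (T x) with hφ'
    have d' : ContDiff ℝ 1 φ' := hφ.comp T.contDiff
    have p' : Per b φ' := ks_per' hb hφp
    have e : (fun z : E × E => fderiv ℝ φ (mT T ν z).1 (mT T ν z).2) =
        fun z => ν * fderiv ℝ φ' z.1 z.2 := by
      funext z
      have h1 : HasFDerivAt φ' ((fderiv ℝ φ (T z.1)).comp (T : E →L[ℝ] E)) z.1 :=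
        (hφ.differentiable one_ne_zero (T z.1)).hasFDerivAt.comp z.1 T.hasFDerivAt
      rw [h1.fderiv]
      simp only [mT]
      rw [map_smul, smul_eq_mul]
      rfl
    rw [e, integral_const_mul, hμ.closed φ' d' p', mul_zero]

lemma mT_rot (T : E ≃L[ℝ] E) {μ : Measure (E × E)} (hμ : IsClosedMeasure b μ) (ν : ℝ) :
    ∫ z, z.2 ∂(μ.map (mT T ν)) = ν • T (∫ z : E × E, z.2 ∂μ) := by
  rw [mT_int continuous_snd]
  simp only [mT]
  rw [integral_smul]
  congr 1
  exact (T : E →L[ℝ] E).integral_comp_comm hμ.int_snd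

theorem betaL_af {La' : ℝ} (hLa : 1 ≤ La) (hH : HamK La b H Hp) (hLa' : 1 ≤ La') {T : E ≃L[ℝ] E}
    (hb : ∀ i, b' i = T (b i)) {l μ : ℝ}
    (hl : 0 < l) (hμ : 0 < μ) {p0 : E} (hH' : HamK La' b' (Haf T l μ p0 H) (Hpaf T l μ p0 Hp)) (h : E) :
    betaL b' (Leg (Haf T l μ p0 H)) ((l / μ) • T h) = (betaL b (Leg H) h - inner ℝ p0 h) / μ := by
  have hT := hH.tonL hLa
  have hT' := hH'.tonL hLa'
  have hν : 0 < l / μ := by positivity
  have hb2 : ∀ i, b i = T.symm (b' i) := fun i => by rw [hb, ContinuousLinearEquiv.symm_apply_apply]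
  have hleg := ks_leg hLa hH hLa' hl hμ hH'
  refine le_antisymm ?_ ?_
  · rw [le_div_iff₀ hμ, le_sub_iff_add_le]
    refine le_betaL fun ν hν' hrot => ?_
    have hc := mT_closed (T := T) hb hν' (l / μ)
    have h1 := betaL_le hT' hc
    rw [mT_rot T hν', hrot, mT_int hT'.cont] at h1
    have e : (fun z : E × E => Leg (Haf T l μ p0 H) (mT T (l / μ) z)) =
        fun z => (Leg H z - inner ℝ p0 z.2) / μ := by
      funext z
      exact hleg z.1 z.2
    haveI := hν'.prob
    rw [e, integral_div, integral_sub (hT.int hν') (hν'.int_snd.const_inner p0), integral_inner hν'.int_snd,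
      hrot, le_div_iff₀ hμ] at h1
    linarith
  · refine le_betaL fun ν hν' hrot => ?_
    have hc := mT_closed (T := T.symm) hb2 hν' (l / μ)⁻¹
    have h1 := betaL_le hT hc
    haveI := hν'.prob
    rw [mT_rot T.symm hν', hrot, map_smul, ContinuousLinearEquiv.symm_apply_apply, smul_smul,
      inv_mul_cancel₀ hν.ne', one_smul, mT_int hT.cont] at h1
    have e : (fun z : E × E => Leg (Haf T l μ p0 H) z) =
        fun z => (Leg H (mT T.symm (l / μ)⁻¹ z) - inner ℝ p0 ((l / μ)⁻¹ • T.symm z.2)) / μ := by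
      funext z
      have h2 := hleg (T.symm z.1) ((l / μ)⁻¹ • T.symm z.2)
      rw [map_smul, ContinuousLinearEquiv.apply_symm_apply, ContinuousLinearEquiv.apply_symm_apply, smul_smul,
        mul_inv_cancel₀ hν.ne', one_smul] at h2
      exact h2
    have i1 : Integrable (fun z : E × E => inner ℝ p0 ((l / μ)⁻¹ • T.symm z.2)) ν := by
      have h3 : Integrable (fun z : E × E => (l / μ)⁻¹ • T.symm z.2) ν :=
        ((T.symm : E →L[ℝ] E).integrable_comp hν'.int_snd).smul _
      exact h3.const_inner p0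
    have i2 : Integrable (fun z : E × E => Leg H (mT T.symm (l / μ)⁻¹ z)) ν := by
      have h3 := hT.int hc
      exact (integrable_map_measure hT.cont.aestronglyMeasurable (mT_meas _ _).aemeasurable).1 h3
    have i3 : ∫ z : E × E, inner ℝ p0 ((l / μ)⁻¹ • T.symm z.2) ∂ν = inner ℝ p0 h := by
      have h3 : Integrable (fun z : E × E => (l / μ)⁻¹ • T.symm z.2) ν :=
        ((T.symm : E →L[ℝ] E).integrable_comp hν'.int_snd).smul _
      rw [integral_inner h3]
      congr 1
      rw [integral_smul]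
      have h4 : ∫ z : E × E, T.symm z.2 ∂ν = T.symm (∫ z : E × E, z.2 ∂ν) :=
        (T.symm : E →L[ℝ] E).integral_comp_comm hν'.int_snd
      rw [h4, hrot, map_smul, ContinuousLinearEquiv.symm_apply_apply, smul_smul, inv_mul_cancel₀ hν.ne', one_smul]
    have e' : ∫ z, Leg (Haf T l μ p0 H) z ∂ν =
        (∫ z, Leg H (mT T.symm (l / μ)⁻¹ z) ∂ν - inner ℝ p0 h) / μ := by
      rw [e, integral_div, integral_sub i2 i1, i3]
    rw [e']
    exact div_le_div_of_nonneg_right (by linarith) hμ.le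

/-- differentiability of `β` in the new coordinates -/
theorem diff_af {La' : ℝ} (hLa : 1 ≤ La) (hH : HamK La b H Hp) (hLa' : 1 ≤ La') {T : E ≃L[ℝ] E}
    (hb : ∀ i, b' i = T (b i)) {l μ : ℝ}
    (hl : 0 < l) (hμ : 0 < μ) {p0 : E} (hH' : HamK La' b' (Haf T l μ p0 H) (Hpaf T l μ p0 Hp)) {y : E}
    (hd : DifferentiableAt ℝ (betaL b (Leg H)) ((μ / l) • T.symm y)) :
    DifferentiableAt ℝ (betaL b' (Leg (Haf T l μ p0 H))) y := by
  have hν : 0 < l / μ := by positivity
  have e : betaL b' (Leg (Haf T l μ p0 H)) = fun y => (betaL b (Leg H) ((μ / l) • T.symm y) -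
      inner ℝ p0 ((μ / l) • T.symm y)) / μ := by
    funext y
    rw [← betaL_af hLa hH hLa' hb hl hμ hH', map_smul, ContinuousLinearEquiv.apply_symm_apply, smul_smul]
    have : l / μ * (μ / l) = 1 := by field_simp
    rw [this, one_smul]
  rw [e]
  have h1 : DifferentiableAt ℝ (fun y : E => (μ / l) • T.symm y) y := by fun_prop
  have h2 : DifferentiableAt ℝ (fun y : E => betaL b (Leg H) ((μ / l) • T.symm y)) y :=
    DifferentiableAt.comp (f := fun y : E => (μ / l) • T.symm y) y hd h1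
  have h3 : DifferentiableAt ℝ (fun y : E => inner ℝ p0 ((μ / l) • T.symm y)) y :=
    (differentiableAt_const p0).inner ℝ h1
  simp only [div_eq_mul_inv]
  exact (h2.fun_sub h3).mul_const _

end

end Pool.Agent.LRW
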