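import Pool.Agent.LRW.KNU
import Pool.Agent.LRW.KF

/-!
# LRW/KSc: the local theorem at the scale `R`
-/

set_option autoImplicit false
set_option linter.style.haveILetI false

open MeasureTheory Module Set Filter Topology

namespace Pool.Agent.LRW

open Pool.H45.Mather Pool.Agent.LRT

noncomputable section

set_option linter.unusedSectionVars false

section
variable {n : ℕ} {E : Type*} [NormedAddCommGroup E] [InnerProductSpace ℝ E] [FiniteDimensional ℝ E]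
  [CompleteSpace E] {b : Basis (Fin n) ℝ E}

variable {H : E × E → ℝ} {Hp : E × E → E}

lemma adjT_refl (q : E) : adjT (ContinuousLinearEquiv.refl ℝ E) q = q := by
  refine ext_inner_right ℝ fun v => ?_
  rw [inner_adjT]
  rfl

lemma Haf_refl (R : ℝ) (H : E × E → ℝ) : Haf (ContinuousLinearEquiv.refl ℝ E) R (R ^ 2) 0 H = Hsc R H := by
  funext z
  simp only [Haf, Hsc, adjT_refl, zero_add]
  rfl

/-- scaling back a family -/
theorem FFam.sc {R : ℝ} (hR : 0 < R) {w₀ : E} {m K r : ℝ} {c : E → E} {P : E → E → E}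
    (h : FFam b (Hsc R H) (Hpaf (ContinuousLinearEquiv.refl ℝ E) R (R ^ 2) 0 Hp) w₀ m K r c P) :
    FFam b H Hp (R • w₀) m K (R * r) (fun w => R • c (R⁻¹ • w)) (fun w x => R • P (R⁻¹ • w) x) := by
  have hin : ∀ w, ‖w - R • w₀‖ < R * r → ‖R⁻¹ • w - w₀‖ < r := by
    intro w hw
    have e : R⁻¹ • w - w₀ = R⁻¹ • (w - R • w₀) := by
      rw [smul_sub, smul_smul, inv_mul_cancel₀ hR.ne', one_smul]
    rw [e, norm_smul, norm_inv, Real.norm_eq_abs, abs_of_pos hR, inv_mul_lt_iff₀ hR]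
    exact hw
  have hd : ∀ w w' : E, ‖R⁻¹ • w - R⁻¹ • w'‖ = R⁻¹ * ‖w - w'‖ := by
    intro w w'
    rw [← smul_sub, norm_smul, norm_inv, Real.norm_eq_abs, abs_of_pos hR]
  have hlip : ∀ a a' w w' : E, ‖a - a'‖ ≤ K * ‖R⁻¹ • w - R⁻¹ • w'‖ → ‖R • a - R • a'‖ ≤ K * ‖w - w'‖ := by
    intro a a' w w' h1
    rw [hd] at h1
    rw [← smul_sub, norm_smul, Real.norm_eq_abs, abs_of_pos hR]
    have h2 := mul_le_mul_of_nonneg_left h1 hR.le
    refine h2.trans (le_of_eq ?_)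
    field_simp
  have hmon : ∀ a a' w w' : E, m * ‖R⁻¹ • w - R⁻¹ • w'‖ ^ 2 ≤ inner ℝ (a - a') (R⁻¹ • w - R⁻¹ • w') →
      m * ‖w - w'‖ ^ 2 ≤ inner ℝ (R • a - R • a') (w - w') := by
    intro a a' w w' h1
    rw [hd, ← smul_sub, inner_smul_right] at h1
    rw [← smul_sub, inner_smul_left]
    simp only [conj_trivial]
    have h2 := mul_le_mul_of_nonneg_left h1 (by positivity : 0 ≤ R ^ 2)
    have e1 : R ^ 2 * (m * (R⁻¹ * ‖w - w'‖) ^ 2) = m * ‖w - w'‖ ^ 2 := by field_simp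
    have e2 : R ^ 2 * (R⁻¹ * inner ℝ (a - a') (w - w')) = R * inner ℝ (a - a') (w - w') := by field_simp
    rwa [e1, e2] at h2
  refine ⟨mul_pos hR h.r0, fun w hw => ?_, ?_, fun w w' hw hw' x => ?_, fun w w' hw hw' => ?_,
    fun w w' hw hw' x => ?_, fun w w' hw hw' => ?_⟩
  · have h1 := h.sol _ (hin w hw)
    rw [← Haf_refl R H] at h1
    have h2 := h1.af (b := b) (T := ContinuousLinearEquiv.refl ℝ E) (fun i => rfl) hR (by positivity : 0 < R ^ 2)
    have e1 : (R ^ 2 / R) • (ContinuousLinearEquiv.refl ℝ E).symm (R⁻¹ • w) = w := by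
      change (R ^ 2 / R) • (R⁻¹ • w) = w
      rw [smul_smul]
      have : R ^ 2 / R * R⁻¹ = 1 := by field_simp
      rw [this, one_smul]
    rw [e1] at h2
    simp only [adjT_refl, zero_add] at h2
    exact h2
  · obtain ⟨K', hK'⟩ := h.lipx
    refine ⟨R * K', fun w hw x x' => ?_⟩
    have h1 := hK' _ (hin w hw) x x'
    rw [← smul_sub, norm_smul, Real.norm_eq_abs, abs_of_pos hR, mul_assoc]
    exact mul_le_mul_of_nonneg_left h1 hR.le
  · exact hlip _ _ _ _ (h.lipw _ _ (hin w hw) (hin w' hw') x)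
  · exact hlip _ _ _ _ (h.lipc _ _ (hin w hw) (hin w' hw'))
  · exact hmon _ _ _ _ (h.mon _ _ (hin w hw) (hin w' hw') x)
  · exact hmon _ _ _ _ (h.monc _ _ (hin w hw) (hin w' hw'))

end

section

variable {n : ℕ}

/-- rescaled integrable part -/
def hsc (R : ℝ) (h : RE n → ℝ) (q : RE n) : ℝ := h (R • q) / R ^ 2

lemma hsc_contDiff {k : WithTop ℕ∞} {h : RE n → ℝ} (hh : ContDiff ℝ k h) (R : ℝ) : ContDiff ℝ k (hsc R h) := by
  unfold hsc
  exact (hh.comp (contDiff_const_smul R)).div_const _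

lemma hsc_fderiv {h : RE n → ℝ} (hh : ContDiff ℝ 2 h) {R : ℝ} (hR : 0 < R) :
    fderiv ℝ (hsc R h) = fun q => R⁻¹ • fderiv ℝ h (R • q) := by
  funext q
  have h1 : HasFDerivAt (fun q : RE n => R • q) (R • ContinuousLinearMap.id ℝ (RE n)) q :=
    (hasFDerivAt_id q).const_smul R
  have h2 := ((hh.differentiable (by norm_num) (R • q)).hasFDerivAt.comp q h1).mul_const ((R ^ 2)⁻¹)
  have h3 : HasFDerivAt (hsc R h) ((R ^ 2)⁻¹ • ((fderiv ℝ h (R • q)).comp (R • ContinuousLinearMap.id ℝ (RE n)))) q := by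
    refine h2.congr_of_eventuallyEq (Eventually.of_forall fun y => ?_)
    simp only [hsc, div_eq_mul_inv, Function.comp]
  rw [h3.fderiv]
  ext v
  simp only [smul_apply, ContinuousLinearMap.comp_apply, ContinuousLinearMap.id_apply, map_smul, smul_eq_mul]
  field_simp

lemma hsc_fderiv2 {h : RE n → ℝ} (hh : ContDiff ℝ 2 h) {R : ℝ} (hR : 0 < R) (q v w : RE n) :
    fderiv ℝ (fderiv ℝ (hsc R h)) q v w = fderiv ℝ (fderiv ℝ h) (R • q) v w := by
  rw [hsc_fderiv hh hR]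
  have h0 : ContDiff ℝ 1 (fderiv ℝ h) := hh.fderiv_right (by norm_num)
  have h1 : HasFDerivAt (fun q : RE n => R • q) (R • ContinuousLinearMap.id ℝ (RE n)) q :=
    (hasFDerivAt_id q).const_smul R
  have h2 := ((h0.differentiable (by norm_num) (R • q)).hasFDerivAt.comp q h1).const_smul R⁻¹
  have h3 : fderiv ℝ (fun q => R⁻¹ • fderiv ℝ h (R • q)) q = _ := h2.fderiv
  rw [h3]
  simp only [smul_apply, ContinuousLinearMap.comp_apply, ContinuousLinearMap.id_apply, map_smul, smul_eq_mul]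
  field_simp

lemma hsc_gradient {h : RE n → ℝ} (hh : ContDiff ℝ 2 h) {R : ℝ} (hR : 0 < R) (q : RE n) :
    gradient (hsc R h) q = R⁻¹ • gradient h (R • q) := by
  unfold gradient
  rw [hsc_fderiv hh hR, map_smulₛₗ]
  simp

lemma hsc_iter {s : ℕ} {h : RE n → ℝ} (hh : ContDiff ℝ s h) {R : ℝ} (hR : 0 < R) {j : ℕ} (hj : j ≤ s)
    (q : RE n) : ‖iteratedFDeriv ℝ j (hsc R h) q‖ ≤ R ^ j / R ^ 2 * ‖iteratedFDeriv ℝ j h (R • q)‖ := by
  set L : RE n →L[ℝ] RE n := R • ContinuousLinearMap.id ℝ (RE n) with hL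
  have e : hsc R h = ((R ^ 2)⁻¹) • (h ∘ L) := by
    funext q
    simp only [hsc, Pi.smul_apply, Function.comp, smul_eq_mul, hL, smul_apply, ContinuousLinearMap.id_apply]
    rw [div_eq_inv_mul]
  have hhj : ContDiff ℝ j h := hh.of_le (by exact_mod_cast hj)
  rw [e, iteratedFDeriv_const_smul_apply (hhj.comp L.contDiff).contDiffAt, norm_smul, Real.norm_eq_abs,
    abs_of_pos (by positivity)]
  rw [L.iteratedFDeriv_comp_right hhj q le_rfl]
  have h1 := ContinuousMultilinearMap.norm_compContinuousLinearMap_le (iteratedFDeriv ℝ j h (L q)) (fun _ : Fin j => L)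
  have hLn : ‖L‖ ≤ R := by
    refine ContinuousLinearMap.opNorm_le_bound _ hR.le fun v => ?_
    rw [hL]
    simp [norm_smul, abs_of_pos hR]
  have h2 : ∏ _ : Fin j, ‖L‖ ≤ R ^ j := by
    rw [Finset.prod_const, Finset.card_univ, Fintype.card_fin]
    exact pow_le_pow_left₀ (norm_nonneg _) hLn j
  have e2 : L q = R • q := by simp [hL]
  rw [e2] at h1
  calc _ ≤ (R ^ 2)⁻¹ * (‖iteratedFDeriv ℝ j h (R • q)‖ * R ^ j) := by
        rw [e2]
        exact mul_le_mul_of_nonneg_left (h1.trans (mul_le_mul_of_nonneg_left h2 (norm_nonneg _))) (by positivity)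
    _ = _ := by ring

theorem local_fam_sc (n : ℕ) (hn : 2 ≤ n) : ∃ s : ℕ, 3 ≤ s ∧ ∀ {La La' M δ : ℝ}, 1 ≤ La → 1 ≤ La' → 0 ≤ M → 0 < δ →
    ∃ ef : ℝ, 0 < ef ∧ ∀ h : RE n → ℝ, ContDiff ℝ s h → ∀ (R : ℝ), 0 < R → ∀ pst : RE n,
    (∀ v, ‖v‖ ^ 2 / (2 * La) ≤ fderiv ℝ (fderiv ℝ h) pst v v ∧
      fderiv ℝ (fderiv ℝ h) pst v v ≤ 2 * La * ‖v‖ ^ 2) →
    (∀ j, 3 ≤ j → j ≤ s → ∀ p, ‖p - pst‖ ≤ δ * R → ‖iteratedFDeriv ℝ j h p‖ * R ^ (j - 2) ≤ M) →
    ∀ f : RE n × RE n → ℝ, ContDiff ℝ s f → (∀ p, Per (bs n) (fun x => f (x, p))) →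
    (∀ j ≤ s, ∀ x q, ‖q - R⁻¹ • pst‖ ≤ δ → ‖iteratedFDeriv ℝ j (fsc R f) (x, q)‖ ≤ ef) →
    ∀ (H' : RE n × RE n → ℝ) (Hp' : RE n × RE n → RE n), HamK La' (bs n) H' Hp' →
    (∀ x p, ‖p - pst‖ ≤ δ * R → H' (x, p) = h p + f (x, p)) →
    (∀ w, ‖w - gradient h pst‖ < δ * R → DifferentiableAt ℝ (betaL (bs n) (Leg H')) w) →
    ∃ m K r c P, 0 < m ∧ FFam (bs n) H' Hp' (gradient h pst) m K r c P ∧
      (∀ w, ‖w - gradient h pst‖ < r → ∀ x, ‖P w x - pst‖ ≤ δ * R) ∧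
      (∃ w, ‖w - gradient h pst‖ < r ∧ c w = pst) ∧ ∀ x, ∃ w, ‖w - gradient h pst‖ < r ∧ P w x = pst := by
  obtain ⟨s, hs, hN⟩ := local_fam_u n hn
  refine ⟨s, hs, fun {La La' M δ} hLa hLa' hM hδ => ?_⟩
  obtain ⟨ef, r, m, K, hef, hr, hm, hN⟩ := hN hLa hLa' hM hδ
  refine ⟨ef, hef, fun h hh R hR pst hB hj f hf hper hsm H' Hp' hH' heq hdiff => ?_⟩
  have hh2 : ContDiff ℝ 2 h := hh.of_le (by exact_mod_cast (by omega : 2 ≤ s))
  have hRi : R • R⁻¹ • pst = pst := by rw [smul_smul, mul_inv_cancel₀ hR.ne', one_smul]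
  have hn1 : ∀ q, ‖q - R⁻¹ • pst‖ ≤ δ → ‖R • q - pst‖ ≤ δ * R := by
    intro q hq
    have e : R • q - pst = R • (q - R⁻¹ • pst) := by rw [smul_sub, hRi]
    rw [e, norm_smul, Real.norm_eq_abs, abs_of_pos hR, mul_comm]
    exact mul_le_mul_of_nonneg_right hq hR.le
  have hg : gradient (hsc R h) (R⁻¹ • pst) = R⁻¹ • gradient h pst := by rw [hsc_gradient hh2 hR, hRi]
  have hK : HamK La' (bs n) (Haf (ContinuousLinearEquiv.refl ℝ (RE n)) R (R ^ 2) 0 H')
      (Hpaf (ContinuousLinearEquiv.refl ℝ (RE n)) R (R ^ 2) 0 Hp') := by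
    have h1 := hamK_af (b := bs n) (b' := bs n) hH' hLa' (T := ContinuousLinearEquiv.refl ℝ (RE n)) (fun i => rfl)
      (by positivity : 0 < R ^ 2) (l := R) 0 one_pos
      (fun q => by rw [adjT_refl, div_self (by positivity)]) (fun q => by rw [adjT_refl, div_self (by positivity)]; simp)
    rwa [mul_one] at h1
  obtain ⟨c, P, hF, hP, ⟨w, hw1, hw2⟩, hx⟩ := hN (hsc R h) (hsc_contDiff hh R) (R⁻¹ • pst)
    (fun v => by rw [hsc_fderiv2 hh2 hR, hRi]; exact hB v)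
    (fun j h3 hjs q hq => by
      refine (hsc_iter hh hR hjs q).trans ?_
      have h1 := hj j h3 hjs (R • q) (hn1 q hq)
      have e : R ^ j / R ^ 2 = R ^ (j - 2) := by
        rw [div_eq_iff (by positivity), ← pow_add]
        congr 1
        omega
      rw [e, mul_comm]
      exact h1)
    (fsc R f) (contDiff_fsc hf R) (fun p i x => by
      have h1 := hper (R • p) i x
      simp only [] at h1
      simp only [fsc]
      rw [h1]) hsm
    (Hsc R H') (Hpaf (ContinuousLinearEquiv.refl ℝ (RE n)) R (R ^ 2) 0 Hp') (by rw [← Haf_refl]; exact hK)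
    (fun x q hq => by
      have h1 := heq x (R • q) (hn1 q hq)
      simp only [Hsc, hsc, fsc]
      rw [h1, add_div])
    (fun w hw => by
      rw [hg] at hw
      rw [← Haf_refl]
      refine diff_af hLa' hH' hLa' (fun i => rfl) hR (by positivity : 0 < R ^ 2) hK (hdiff _ ?_)
      change ‖(R ^ 2 / R) • w - gradient h pst‖ < δ * R
      have e : (R ^ 2 / R) • w - gradient h pst = R • (w - R⁻¹ • gradient h pst) := by
        rw [smul_sub, smul_smul, mul_inv_cancel₀ hR.ne', one_smul]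
        congr 2
        field_simp
      rw [e, norm_smul, Real.norm_eq_abs, abs_of_pos hR, mul_comm]
      exact mul_lt_mul_of_pos_right hw hR)
  rw [hg] at hF hP hw1 hx
  have hRg : R • R⁻¹ • gradient h pst = gradient h pst := by rw [smul_smul, mul_inv_cancel₀ hR.ne', one_smul]
  have hF' := hF.sc hR
  rw [hRg] at hF'
  have hup : ∀ w, ‖w - R⁻¹ • gradient h pst‖ < r → ‖R • w - gradient h pst‖ < R * r := by
    intro w hw
    have e : R • w - gradient h pst = R • (w - R⁻¹ • gradient h pst) := by rw [smul_sub, hRg]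
    rw [e, norm_smul, Real.norm_eq_abs, abs_of_pos hR]
    exact mul_lt_mul_of_pos_left hw hR
  have hdn : ∀ w, ‖w - gradient h pst‖ < R * r → ‖R⁻¹ • w - R⁻¹ • gradient h pst‖ < r := by
    intro w hw
    rw [← smul_sub, norm_smul, norm_inv, Real.norm_eq_abs, abs_of_pos hR, inv_mul_lt_iff₀ hR]
    exact hw
  have hiR : ∀ w : RE n, R⁻¹ • R • w = w := fun w => by rw [smul_smul, inv_mul_cancel₀ hR.ne', one_smul]
  refine ⟨m, K, R * r, _, _, hm, hF', fun w hw x => ?_, ⟨R • w, hup w hw1, ?_⟩, fun x => ?_⟩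
  · have h1 := hP _ (hdn w hw) x
    have e : R • P (R⁻¹ • w) x - pst = R • (P (R⁻¹ • w) x - R⁻¹ • pst) := by rw [smul_sub, hRi]
    rw [e, norm_smul, Real.norm_eq_abs, abs_of_pos hR, mul_comm]
    exact mul_le_mul_of_nonneg_right h1 hR.le
  · rw [hiR, hw2, hRi]
  · obtain ⟨w, h1, h2⟩ := hx x
    refine ⟨R • w, hup w h1, ?_⟩
    rw [hiR, h2, hRi]

end

end

end Pool.Agent.LRW
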