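import Pool.Agent.LRW.L4
import Pool.Agent.LRW.L5
import Pool.Agent.LRW.LS

/-!
L6 (difficulty 3).  The approximate conjugacies.

PROOF.  `Hpt_per`: for `‖p‖ ≤ 3`, `re (gw (H j) (ofR (x + lat k), ofR p))`: only used for `‖p‖ < 5/2 ≤ R j + 1`: there `gw (H j)` is periodic
(`c8_gx_per` with `NS.Hp`: `PerX (2ρ) (R+1) (gw H)`, the real point is in `D (2 ρ j) (R j + 1)`), so
`‖Hpt (x + lat k, p) - Hpt (x, p)‖ ≤ 2 δ j → 0`.
`conj_lim`: write `q_j x = re (gb (b j) (ofR w)) + re (gx (u j) (ofR x, ofR w))`, `‖q_j x - w‖ ≤ 1/50` (`NS.q_small`), so `‖q_j x‖ < 5/2`.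
Equicontinuity: `q_j` has Lipschitz constant `1/50` in `x` (`NS.qv_fderiv`: `‖fderiv ℂ (fun z => qv z - z.2) z‖ ≤ 2κ = 1/50` on the convex set
`D (ρ j) (R j)`, mean value inequality between real points, `norm_re_le`), hence also the pointwise limit `P`; so `q_j → P` uniformly on the
compact cell `closedBall 0 √n`-neighbourhood, and by periodicity of `q_j` (`c8_gx_per`) and `P` uniformly in `x`.
Concretely: given `δ' > 0` choose a finite `δ'`-net of the compact set `K = closedBall 0 (√n + 1)` (every `x` is `lat k + y` with `y ∈ K`: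
floor of the coordinates); for `j` large `‖q_j - P‖ ≤ δ'` on the net, so `≤ 2 δ'` everywhere.
`Hpt` is uniformly continuous on the compact set `K ×ˢ closedBall 0 3`; together with periodicity: for `j` large,
`‖Hpt (x, q_j x) - Hpt (x, P x)‖ ≤ δ/3` for all `x`.  `‖Hpt (x, q_j x) - re (vel (H j) (b j) (u j) (ofR x, ofR w))‖ ≤ δ j ≤ δ/3`
(`vel H b u z = gw H (z.1, qv b u z)`, `NS.qv_realp`).  `NS.vel_angle` (L4) with `ε = (ρ j)^(MM n) ≤ (ρ j)^2`: `≤ 5 ρ j ≤ δ/3`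
(`‖w‖ < 1 ≤ R j - ρ j / 2`).  Take `X = XR (b j) (u j) (ρ j) w`; it is surjective because `X (thR x) = x`.
-/

set_option autoImplicit false
set_option linter.unusedSectionVars false

open Set MeasureTheory Topology

namespace Pool.Agent.LRW

open Pool.Agent.LRT

variable {n : ℕ} [Par n] {p0 w0 : RE n} {CH : ℝ} {ρ R δ : ℕ → ℝ} {H : ℕ → CE n × CE n → ℂ} {b : ℕ → CE n → ℂ} {u : ℕ → CE n × CE n → ℂ} {w : RE n}
  {Hpt : RE n × RE n → RE n}

theorem l6_qv (h : NS (1 / 100) (ρ 0) (R 0) CH (H 0) (b 0) (u 0)) (hR : 1 ≤ R 0) {w w' : RE n} (hw : ‖w‖ < 1) (hw' : ‖w'‖ < 1)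
    (x x' : RE n) :
    ‖(re (gb (b 0) (ofR w)) + re (gx (u 0) (ofR x, ofR w)) - w) -
      (re (gb (b 0) (ofR w')) + re (gx (u 0) (ofR x', ofR w')) - w')‖ ≤ 1 / 50 * (‖x - x'‖ + ‖w - w'‖) := by
  have hz : (ofR x, ofR w) ∈ D (ρ 0) (R 0) := ofR_mem_D h.ρ0 x (by linarith)
  have hz' : (ofR x', ofR w') ∈ D (ρ 0) (R 0) := ofR_mem_D h.ρ0 x' (by linarith)
  have h1 := (convex_D (n := n) (ρ 0) (R 0)).norm_image_sub_le_of_norm_fderiv_le (𝕜 := ℂ)
    (f := fun z : CE n × CE n => qv (b 0) (u 0) z - z.2) (C := 2 * (1 / 100))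
    (fun z hz => ((h.qv_hol.differentiableAt ((isOpen_D _ _).mem_nhds hz)).sub differentiableAt_snd))
    (fun z hz => (h.qv_fderiv hz).1) hz' hz
  have h2 : ‖((ofR x, ofR w) : CE n × CE n) - (ofR x', ofR w')‖ ≤ ‖x - x'‖ + ‖w - w'‖ := by
    rw [Prod.mk_sub_mk, Prod.norm_mk, ← ofR_sub, ← ofR_sub, norm_ofR, norm_ofR]
    exact max_le (by linarith [norm_nonneg (w - w')]) (by linarith [norm_nonneg (x - x')])
  have h3 : (re (gb (b 0) (ofR w)) + re (gx (u 0) (ofR x, ofR w)) - w) -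
      (re (gb (b 0) (ofR w')) + re (gx (u 0) (ofR x', ofR w')) - w') =
      re ((qv (b 0) (u 0) (ofR x, ofR w) - ofR w) - (qv (b 0) (u 0) (ofR x', ofR w') - ofR w')) := by
    simp only [re_sub, qv, re_add, re_ofR]
  rw [h3]
  refine (norm_re_le _).trans (h1.trans ?_)
  calc 2 * (1 / 100) * ‖((ofR x, ofR w) : CE n × CE n) - (ofR x', ofR w')‖
      ≤ 2 * (1 / 100) * (‖x - x'‖ + ‖w - w'‖) := by gcongr
    _ = 1 / 50 * (‖x - x'‖ + ‖w - w'‖) := by ring

theorem IterHyp.q_lip (h : IterHyp n w0 CH ρ R H b u) (j : ℕ) {w w' : RE n} (hw : ‖w‖ < 1) (hw' : ‖w'‖ < 1) (x x' : RE n) :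
    ‖(re (gb (b j) (ofR w)) + re (gx (u j) (ofR x, ofR w)) - w) -
      (re (gb (b j) (ofR w')) + re (gx (u j) (ofR x', ofR w')) - w')‖ ≤ 1 / 50 * (‖x - x'‖ + ‖w - w'‖) := by
  have hR := h.R1 j
  exact l6_qv (ρ := fun _ => ρ j) (R := fun _ => R j) (H := fun _ => H j) (b := fun _ => b j) (u := fun _ => u j)
    (h.ns j) (by linarith) hw hw' x x'

theorem IterHyp.c_lip (h : IterHyp n w0 CH ρ R H b u) (j : ℕ) {w w' : RE n} (hw : ‖w‖ < 1) (hw' : ‖w'‖ < 1) :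
    ‖(re (gb (b j) (ofR w)) - w) - (re (gb (b j) (ofR w')) - w')‖ ≤ 1 / 50 * ‖w - w'‖ ∧
      ‖re (gb (b j) (ofR w)) - w‖ ≤ 1 / 50 := by
  have hR := h.R1 j
  have hn := h.ns j
  have hz : ofR w ∈ Dw (ρ j) (R j) := ofR_mem_Dw hn.ρ0 (by linarith)
  have hz' : ofR w' ∈ Dw (ρ j) (R j) := ofR_mem_Dw hn.ρ0 (by linarith)
  have hd : ∀ z ∈ (Dw (ρ j) (R j) : Set (CE n)), DifferentiableAt ℂ (gb (b j)) z := fun z hz =>
    (gb_hol hn.bd).1.differentiableAt ((isOpen_Dw _ _).mem_nhds hz)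
  have h1 := (convex_Dw (n := n) (ρ j) (R j)).norm_image_sub_le_of_norm_fderiv_le (𝕜 := ℂ)
    (f := fun z : CE n => gb (b j) z - z) (C := 1 / 100)
    (fun z hz => (hd z hz).sub differentiableAt_fun_id)
    (fun z hz => by
      have h2 : fderiv ℂ (fun z : CE n => gb (b j) z - z) z = hess (b j) z - 1 := by
        rw [fderiv_fun_sub (hd z hz) differentiableAt_fun_id, fderiv_fun_id]
        rfl
      rw [h2]
      exact hn.b2 z hz) hz' hz
  constructor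
  · have h3 : (re (gb (b j) (ofR w)) - w) - (re (gb (b j) (ofR w')) - w') =
        re ((gb (b j) (ofR w) - ofR w) - (gb (b j) (ofR w') - ofR w')) := by
      simp only [re_sub, re_ofR]
    rw [h3]
    refine (norm_re_le _).trans (h1.trans ?_)
    rw [← ofR_sub, norm_ofR]
    have := norm_nonneg (w - w')
    linarith
  · have h3 : re (gb (b j) (ofR w)) - w = re (gb (b j) (ofR w) - ofR w) := by
      simp only [re_sub, re_ofR]
    rw [h3]
    refine (norm_re_le _).trans ((hn.b1 _ hz).trans (by norm_num))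

theorem IterHyp.Hpt_per (h : IterHyp n w0 CH ρ R H b u) (hδ : Filter.Tendsto δ Filter.atTop (𝓝 0))
    (hH : ∀ j (x p : RE n), ‖p‖ ≤ 3 → ‖Hpt (x, p0 + p) - w0 - re (gw (H j) (ofR x, ofR p))‖ ≤ δ j)
    {p : RE n} (hp : ‖p‖ < 5 / 2) (x : RE n) (k : Fin n → ℤ) :
    Hpt (x + lat k, p0 + p) = Hpt (x, p0 + p) := by
  have h1 : ∀ j, ‖Hpt (x + lat k, p0 + p) - Hpt (x, p0 + p)‖ ≤ 2 * δ j := by
    intro j
    have hn := h.ns j
    have hR := h.R1 j
    have h2 : gw (H j) (ofR (x + lat k), ofR p) = gw (H j) (ofR x, ofR p) := by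
      rw [ofR_add]
      exact (c8_gx_per hn.Hp).2 (ofR x, ofR p)
        (ofR_mem_D (by linarith [hn.ρ0]) x (by linarith)) k
    have h3 := hH j (x + lat k) p (by linarith)
    have h4 := hH j x p (by linarith)
    rw [h2] at h3
    have h5 : Hpt (x + lat k, p0 + p) - Hpt (x, p0 + p) =
        (Hpt (x + lat k, p0 + p) - w0 - re (gw (H j) (ofR x, ofR p))) -
        (Hpt (x, p0 + p) - w0 - re (gw (H j) (ofR x, ofR p))) := by abel
    rw [h5]
    refine (norm_sub_le _ _).trans ?_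
    linarith
  have h2 : Filter.Tendsto (fun j => 2 * δ j) Filter.atTop (𝓝 (2 * 0)) := hδ.const_mul 2
  rw [mul_zero] at h2
  have h3 : ‖Hpt (x + lat k, p0 + p) - Hpt (x, p0 + p)‖ ≤ 0 := ge_of_tendsto' h2 h1
  exact sub_eq_zero.1 (norm_le_zero_iff.1 h3)

theorem l6_cell (x : RE n) : ∃ k : Fin n → ℤ, x + lat k ∈ Metric.closedBall (0 : RE n) (Real.sqrt n) := by
  set y : RE n := (Par.T : RE n ≃L[ℝ] RE n).symm x with hy
  refine ⟨fun i => -⌊y i⌋, ?_⟩
  have hx : x + lat (fun i => -⌊y i⌋) = (Par.T : RE n ≃L[ℝ] RE n) (y + LRT.lat fun i => -⌊y i⌋) := by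
    rw [map_add, hy, ContinuousLinearEquiv.apply_symm_apply]
    rfl
  rw [hx, mem_closedBall_zero_iff]
  refine (norm_T_le _).trans ?_
  rw [EuclideanSpace.norm_eq]
  refine Real.sqrt_le_sqrt ?_
  calc ∑ i, ‖(y + LRT.lat fun i => -⌊y i⌋) i‖ ^ 2 ≤ ∑ _i : Fin n, (1 : ℝ) := by
        refine Finset.sum_le_sum fun i _ => ?_
        have h1 : (y + LRT.lat fun i => -⌊y i⌋) i = Int.fract (y i) := by
          simp [Int.fract, sub_eq_add_neg]
        rw [h1, Real.norm_eq_abs, abs_of_nonneg (Int.fract_nonneg _)]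
        have h2 := Int.fract_lt_one (y i)
        have h3 := Int.fract_nonneg (y i)
        nlinarith
    _ = n := by simp

/-- uniform convergence of periodic Lipschitz functions -/
theorem l6_unif {q : ℕ → RE n → RE n} {P : RE n → RE n} (hl : ∀ j x x', ‖q j x - q j x'‖ ≤ ‖x - x'‖)
    (hq : ∀ j x (k : Fin n → ℤ), q j (x + lat k) = q j x)
    (hP : ∀ x, Filter.Tendsto (fun j => q j x) Filter.atTop (𝓝 (P x))) {e : ℝ} (he : 0 < e) :
    ∀ᶠ j in Filter.atTop, ∀ x, ‖q j x - P x‖ < e := by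
  have hPl : ∀ x x', ‖P x - P x'‖ ≤ ‖x - x'‖ := fun x x' =>
    le_of_tendsto' ((hP x).sub (hP x')).norm (fun j => hl j x x')
  have hPp : ∀ x (k : Fin n → ℤ), P (x + lat k) = P x := fun x k => by
    refine tendsto_nhds_unique (hP (x + lat k)) ?_
    simp only [hq]
    exact hP x
  obtain ⟨t, -, ht, hc⟩ := (isCompact_closedBall (0 : RE n) (Real.sqrt n)).finite_cover_balls (e := e / 3) (by positivity)
  have h1 : ∀ᶠ j in Filter.atTop, ∀ y ∈ t, ‖q j y - P y‖ < e / 3 := by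
    rw [Filter.eventually_all_finite ht]
    intro y _
    have h2 := (Metric.tendsto_atTop.1 (hP y)) (e / 3) (by positivity)
    obtain ⟨N, hN⟩ := h2
    filter_upwards [Filter.eventually_ge_atTop N] with j hj
    rw [← dist_eq_norm]
    exact hN j hj
  filter_upwards [h1] with j hj x
  obtain ⟨k, hk⟩ := l6_cell x
  have h2 := hc hk
  simp only [Set.mem_iUnion, Metric.mem_ball, dist_eq_norm] at h2
  obtain ⟨y, hy, hxy⟩ := h2
  have h3 : q j x - P x = (q j (x + lat k) - q j y) + (q j y - P y) + (P y - P (x + lat k)) := by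
    rw [hq, hPp]; abel
  rw [h3]
  have h4 := hl j (x + lat k) y
  have h5 := hPl y (x + lat k)
  rw [norm_sub_rev y] at h5
  have h6 := hj y hy
  refine lt_of_le_of_lt (norm_add₃_le) ?_
  linarith

theorem IterHyp.conj_lim (h : IterHyp n w0 CH ρ R H b u) (hδ : Filter.Tendsto δ Filter.atTop (𝓝 0)) (hc : Continuous Hpt)
    (hH : ∀ j (x p : RE n), ‖p‖ ≤ 3 → ‖Hpt (x, p0 + p) - w0 - re (gw (H j) (ofR x, ofR p))‖ ≤ δ j)
    (hw : ‖w‖ < 1)
    {P : RE n → RE n} (hP : ∀ x, Filter.Tendsto (fun j => re (gb (b j) (ofR w)) + re (gx (u j) (ofR x, ofR w)))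
      Filter.atTop (𝓝 (P x))) {ε : ℝ} (hε : 0 < ε) :
    ∃ X : RE n → RE n, ContDiff ℝ 1 X ∧ (∀ x (k : Fin n → ℤ), X (x + lat k) = X x + lat k) ∧ Function.Surjective X ∧
      (∀ t, ‖fderiv ℝ X t‖ ≤ 2) ∧ ∀ t, ‖fderiv ℝ X t (w + w0) - Hpt (X t, p0 + P (X t))‖ ≤ ε := by
  have hwR : ∀ j, ‖w‖ < R j := fun j => by linarith [h.R1 j]
  have hqs : ∀ j x, ‖re (gb (b j) (ofR w)) + re (gx (u j) (ofR x, ofR w)) - w‖ ≤ 1 / 50 := fun j x =>
    ((h.ns j).q_small (hwR j) x).trans (by norm_num)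
  have hq2 : ∀ j x, ‖re (gb (b j) (ofR w)) + re (gx (u j) (ofR x, ofR w))‖ < 5 / 2 := fun j x => by
    have h1 := hqs j x
    have h2 := norm_sub_norm_le (re (gb (b j) (ofR w)) + re (gx (u j) (ofR x, ofR w))) w
    linarith
  have hP2 : ∀ x, ‖P x‖ ≤ 5 / 2 - 1 := fun x => by
    refine le_of_tendsto' (hP x).norm (fun j => ?_)
    have h1 := hqs j x
    have h2 := norm_sub_norm_le (re (gb (b j) (ofR w)) + re (gx (u j) (ofR x, ofR w))) w
    linarith
  have hlip : ∀ j x x', ‖(re (gb (b j) (ofR w)) + re (gx (u j) (ofR x, ofR w))) -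
      (re (gb (b j) (ofR w)) + re (gx (u j) (ofR x', ofR w)))‖ ≤ ‖x - x'‖ := fun j x x' => by
    have h1 := h.q_lip j hw hw x x'
    rw [sub_sub_sub_cancel_right, sub_self, norm_zero, add_zero] at h1
    have := norm_nonneg (x - x')
    linarith
  have hper : ∀ j x (k : Fin n → ℤ), re (gb (b j) (ofR w)) + re (gx (u j) (ofR (x + lat k), ofR w)) =
      re (gb (b j) (ofR w)) + re (gx (u j) (ofR x, ofR w)) := fun j x k => by
    rw [ofR_add]
    rw [(c8_gx_per (h.ns j).up).1 (ofR x, ofR w) (ofR_mem_D (h.ns j).ρ0 x (hwR j)) k]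
  have hK : IsCompact ((Metric.closedBall (0 : RE n) (Real.sqrt n)) ×ˢ (Metric.closedBall p0 3)) :=
    (isCompact_closedBall _ _).prod (isCompact_closedBall _ _)
  have huc := Metric.uniformContinuousOn_iff.1 (hK.uniformContinuousOn_of_continuous hc.continuousOn) (ε / 3)
    (by positivity)
  obtain ⟨e, he, hue⟩ := huc
  have hρ := rho_summable (fun j => ⟨h.ρ0 j, h.ρ1 j⟩) 1
  have e1 := l6_unif (q := fun j x => re (gb (b j) (ofR w)) + re (gx (u j) (ofR x, ofR w))) hlip hper hP he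
  have e2 : ∀ᶠ j in Filter.atTop, δ j < ε / 3 := hδ.eventually_lt_const (by positivity)
  have e3 : ∀ᶠ j in Filter.atTop, ρ j < ε / 15 := hρ.2.eventually_lt_const (by positivity)
  obtain ⟨j, h1, h2, h3⟩ := (e1.and (e2.and e3)).exists
  have hn := h.ns j
  have hX := hn.XR_spec (hwR j)
  have hR1 := h.R1 j
  have hρ1 := hn.ρ1
  have hρ0 := hn.ρ0
  refine ⟨XR (b j) (u j) (ρ j) w, hX.1.of_le (by norm_num), hX.2.1, fun x => ⟨_, hX.2.2.2.2.2 x⟩, hX.2.2.2.1, fun t => ?_⟩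
  set x := XR (b j) (u j) (ρ j) w t with hx
  set q := re (gb (b j) (ofR w)) + re (gx (u j) (ofR x, ofR w)) with hq
  have a1 := hn.vel_angle (h.er j) (w := w) (by linarith) t
  rw [← hx] at a1
  have a2 : 5 * (ρ j) ^ MM n / ρ j ≤ ε / 3 := by
    have b1 : (ρ j) ^ MM n ≤ (ρ j) ^ 2 := by
      refine pow_le_pow_of_le_one hρ0.le (by linarith) ?_
      unfold MM
      have : 1 ≤ (n + 4) ^ 2 := Nat.one_le_pow _ _ (by omega)
      omega
    rw [div_le_iff₀ hρ0]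
    nlinarith
  have a3 : re (vel (H j) (b j) (u j) (ofR x, ofR w)) = re (gw (H j) (ofR x, ofR q)) := by
    unfold vel
    rw [hn.qv_realp (hwR j) x]
  have a4 := hH j x q (by linarith [hq2 j x])
  have a5 : ‖Hpt (x, p0 + q) - Hpt (x, p0 + P x)‖ ≤ ε / 3 := by
    obtain ⟨k, hk⟩ := l6_cell x
    rw [← h.Hpt_per hδ hH (hq2 j x) x k, ← h.Hpt_per hδ hH (p := P x) (by linarith [hP2 x]) x k, ← dist_eq_norm]
    refine (hue (x + lat k, p0 + q) ⟨hk, ?_⟩ (x + lat k, p0 + P x) ⟨hk, ?_⟩ ?_).le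
    · rw [mem_closedBall_iff_norm, add_sub_cancel_left]
      linarith [hq2 j x]
    · rw [mem_closedBall_iff_norm, add_sub_cancel_left]
      linarith [hP2 x]
    · rw [Prod.dist_eq, dist_self, max_lt_iff, dist_eq_norm, add_sub_add_left_eq_sub]
      exact ⟨he, h1 x⟩
  rw [a3] at a1
  have a6 : fderiv ℝ (XR (b j) (u j) (ρ j) w) t (w + w0) - Hpt (x, p0 + P x) =
      (fderiv ℝ (XR (b j) (u j) (ρ j) w) t (w + w0) - (re (gw (H j) (ofR x, ofR q)) + w0)) -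
      (Hpt (x, p0 + q) - w0 - re (gw (H j) (ofR x, ofR q))) +
      (Hpt (x, p0 + q) - Hpt (x, p0 + P x)) := by abel
  rw [a6]
  refine (norm_add_le _ _).trans ?_
  have a7 := norm_sub_le (fderiv ℝ (XR (b j) (u j) (ρ j) w) t (w + w0) -
    (re (gw (H j) (ofR x, ofR q)) + w0)) (Hpt (x, p0 + q) - w0 - re (gw (H j) (ofR x, ofR q)))
  linarith

end Pool.Agent.LRW
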