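import Pool.Agent.LRW.RD

/-!
R1 (difficulty 3).  Algebra and real values of the retraction.

PROOF.  `psi_self`: `chi R t t = exp 0 = 1`, `t • ofR ν + (w - t • ofR ν) = w`.
`dot_psi`: `dot (ofR ν) (ofR ν) = ‖ν‖^2 = 1` (`dot_ofR`), `dot (ofR ν) (perpc ν w) = 0`.
`slit`: for `|a.re| < R`: `Re (R² - a²) = R² - a.re² + a.im² > 0`, so the number is in `Complex.slitPlane`
(`Complex.mem_slitPlane_iff`, left case).
`psi_hol`: composition of holomorphic maps (`DifferentiableAt.clog` with `slit`, `Complex.exp`, `dot (ofR ν) y.2` is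
`dotL (ofR ν) y.2`).
`chi_real`: for real `a, t` in `(-R, R)`: both arguments of `log` are positive reals, `Complex.log` of a positive real is
`Complex.ofReal (Real.log _)` (`Complex.ofReal_log`), so `chi = ofReal (exp ((log p - log q)/2))`, `p = R² - a²`, `q = R² - t²`, and the
square of this real number is `exp (log p - log q) = p/q`.
`psi_real`: put `x = a • ν + c • (w - t • ν)`, `t = inner ν w`, `c = c(a,t) > 0`, `c² = (R²-a²)/(R²-t²)` (`|t| ≤ ‖w‖ < R`).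
`‖x‖² = a² + c² ‖w - t ν‖²` (orthogonality) `= a² + (R²-a²) (‖w‖² - t²)/(R²-t²)`, and for `‖w‖ ≤ R - δ`, `|a| ≤ R - δ/2`:
`(‖w‖²-t²)/(R²-t²) ≤ ‖w‖²/R² ≤ (1-δ/R)²` (since `‖w‖ ≤ R`), so
`‖x‖² ≤ R² - (R²-a²) (1 - (1-δ/R)²)`, `R² - a² ≥ R² - (R-δ/2)² = δR - δ²/4 ≥ δ/2`, `1 - (1-δ/R)² = (δ/R)(2-δ/R) ≥ δ/R ≥ δ/2`:
`‖x‖² ≤ R² - δ²/4 ≤ (R - δ²/16)²` (`R ≤ 2`).
-/

set_option autoImplicit false

open Set MeasureTheory Topology

namespace Pool.Agent.LRW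

open Pool.Agent.LRT

variable {n : ℕ}

theorem psi_self (R : ℝ) (ν : RE n) (w : CE n) : Psi R ν (dot (ofR ν) w) w = w := by
  have h : chi R (dot (ofR ν) w) (dot (ofR ν) w) = 1 := by
    unfold chi
    rw [sub_self, zero_div, Complex.exp_zero]
  rw [Psi, h, one_smul, perpc]
  abel

theorem dot_psi (R : ℝ) {ν : RE n} (hν : ‖ν‖ = 1) (a : ℂ) (w : CE n) :
    dot (ofR ν) (Psi R ν a w) = a := by
  have h1 : dot (ofR ν) (ofR ν) = 1 := by
    rw [dot_ofR, real_inner_self_eq_norm_sq, hν]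
    norm_num
  have h2 : dot (ofR ν) (perpc ν w) = 0 := by
    rw [perpc, dot_sub, dot_smul, h1, mul_one, sub_self]
  rw [Psi, dot_add, dot_smul, dot_smul, h1, h2]
  ring

lemma re_sq_sub (R : ℝ) (a : ℂ) : ((R : ℂ) ^ 2 - a ^ 2).re = R ^ 2 - a.re ^ 2 + a.im ^ 2 := by
  simp [sq]
  ring

theorem slit {R : ℝ} {a : ℂ} (ha : |a.re| < R) : (R : ℂ) ^ 2 - a ^ 2 ∈ Complex.slitPlane := by
  rw [Complex.mem_slitPlane_iff]
  left
  rw [re_sq_sub]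
  obtain ⟨h1, h2⟩ := abs_lt.mp ha
  nlinarith [sq_nonneg a.im]

theorem psi_hol (R : ℝ) (ν : RE n) :
    DifferentiableOn ℂ (fun y : ℂ × CE n => Psi R ν y.1 y.2)
      {y | |y.1.re| < R ∧ |(dot (ofR ν) y.2).re| < R} := by
  intro y hy
  apply DifferentiableAt.differentiableWithinAt
  have hd : DifferentiableAt ℂ (fun y : ℂ × CE n => dot (ofR ν) y.2) y :=
    (dotL (ofR ν)).differentiableAt.comp y differentiableAt_snd
  have hf : DifferentiableAt ℂ (fun y : ℂ × CE n => y.1) y := differentiableAt_fst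
  have h1 : DifferentiableAt ℂ (fun y : ℂ × CE n => Complex.log ((R : ℂ) ^ 2 - y.1 ^ 2)) y :=
    DifferentiableAt.clog ((differentiableAt_const _).sub (hf.pow 2)) (slit hy.1)
  have h2 : DifferentiableAt ℂ
      (fun y : ℂ × CE n => Complex.log ((R : ℂ) ^ 2 - (dot (ofR ν) y.2) ^ 2)) y :=
    DifferentiableAt.clog ((differentiableAt_const _).sub (hd.pow 2)) (slit hy.2)
  have h3 : DifferentiableAt ℂ (fun y : ℂ × CE n => chi R y.1 (dot (ofR ν) y.2)) y :=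
    by
      have h12 : DifferentiableAt ℂ (fun y : ℂ × CE n => (Complex.log ((R : ℂ) ^ 2 - y.1 ^ 2) -
          Complex.log ((R : ℂ) ^ 2 - (dot (ofR ν) y.2) ^ 2)) * (2 : ℂ)⁻¹) y :=
        (h1.sub h2).mul_const (2 : ℂ)⁻¹
      simp only [← div_eq_mul_inv] at h12
      exact h12.cexp
  have h4 : DifferentiableAt ℂ (fun y : ℂ × CE n => perpc ν y.2) y :=
    differentiableAt_snd.sub (hd.smul_const _)
  exact (hf.smul_const _).add (h3.smul h4)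

theorem chi_real {R a t : ℝ} (ha : |a| < R) (ht : |t| < R) :
    ∃ c : ℝ, 0 < c ∧ c ^ 2 = (R ^ 2 - a ^ 2) / (R ^ 2 - t ^ 2) ∧ chi R (a : ℂ) (t : ℂ) = (c : ℂ) := by
  have hp : 0 < R ^ 2 - a ^ 2 := by
    obtain ⟨h1, h2⟩ := abs_lt.mp ha
    nlinarith
  have hq : 0 < R ^ 2 - t ^ 2 := by
    obtain ⟨h1, h2⟩ := abs_lt.mp ht
    nlinarith
  refine ⟨Real.exp ((Real.log (R ^ 2 - a ^ 2) - Real.log (R ^ 2 - t ^ 2)) / 2), Real.exp_pos _,
    ?_, ?_⟩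
  · rw [sq (Real.exp _), ← Real.exp_add, add_halves, Real.exp_sub, Real.exp_log hp, Real.exp_log hq]
  · have e1 : Complex.log ((R : ℂ) ^ 2 - (a : ℂ) ^ 2) = ((Real.log (R ^ 2 - a ^ 2) : ℝ) : ℂ) := by
      rw [Complex.ofReal_log hp.le]
      push_cast
      rfl
    have e2 : Complex.log ((R : ℂ) ^ 2 - (t : ℂ) ^ 2) = ((Real.log (R ^ 2 - t ^ 2) : ℝ) : ℂ) := by
      rw [Complex.ofReal_log hq.le]
      push_cast
      rfl
    unfold chi
    rw [e1, e2, Complex.ofReal_exp]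
    push_cast
    rfl

theorem psi_real {R δ a : ℝ} (hR : 1 ≤ R) (hR2 : R ≤ 2) (hδ : 0 < δ) (hδ1 : δ ≤ 1 / 500) {ν : RE n}
    (hν : ‖ν‖ = 1) (ha : |a| ≤ R - δ / 2) {w : RE n} (hw : ‖w‖ ≤ R - δ) :
    ∃ x : RE n, Psi R ν (a : ℂ) (ofR w) = ofR x ∧ inner ℝ ν x = a ∧ ‖x‖ ≤ R - δ ^ 2 / 16 := by
  obtain ⟨t, ht⟩ : ∃ t : ℝ, t = inner ℝ ν w := ⟨_, rfl⟩
  have ht1 : |t| ≤ ‖w‖ := by
    have := abs_real_inner_le_norm ν w
    rw [hν, one_mul] at this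
    rw [ht]
    exact this
  obtain ⟨c, hc0, hc2, hc⟩ := chi_real (R := R) (a := a) (t := t) (by linarith) (by linarith)
  have hperp : inner ℝ ν (w - t • ν) = 0 := by
    rw [inner_sub_right, inner_smul_right, real_inner_self_eq_norm_sq, hν, ← ht]
    ring
  refine ⟨a • ν + c • (w - t • ν), ?_, ?_, ?_⟩
  · rw [Psi, dot_ofR, ← ht, hc, perpc, dot_ofR, ← ht]
    ext i
    simp
  · rw [inner_add_right, inner_smul_right, inner_smul_right, hperp, real_inner_self_eq_norm_sq, hν]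
    ring
  · have hn2 : ‖w - t • ν‖ ^ 2 = ‖w‖ ^ 2 - t ^ 2 := by
      rw [norm_sub_sq_real, norm_smul, inner_smul_right, real_inner_comm, ← ht, hν, mul_one,
        Real.norm_eq_abs, sq_abs]
      ring
    have hn : ‖a • ν + c • (w - t • ν)‖ ^ 2 = a ^ 2 + c ^ 2 * ‖w - t • ν‖ ^ 2 := by
      rw [norm_add_sq_real, norm_smul, norm_smul, inner_smul_left, inner_smul_right, hperp, hν,
        mul_one, mul_pow, Real.norm_eq_abs, Real.norm_eq_abs, sq_abs, sq_abs]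
      simp
    rw [hn2, hc2] at hn
    obtain ⟨b1, b2⟩ := abs_le.mp ha
    have hw0 := norm_nonneg w
    have ht2 : t ^ 2 ≤ ‖w‖ ^ 2 := by
      rw [← sq_abs t]
      exact pow_le_pow_left₀ (abs_nonneg _) ht1 2
    have hR0 : (0 : ℝ) < R - δ := by linarith
    have hwR : ‖w‖ ^ 2 ≤ (R - δ) ^ 2 := pow_le_pow_left₀ hw0 hw 2
    have hq : 0 < R ^ 2 - t ^ 2 := by nlinarith
    have hp : δ / 2 ≤ R ^ 2 - a ^ 2 := by
      have h1 : a ^ 2 ≤ (R - δ / 2) ^ 2 := by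
        rw [← sq_abs a]
        exact pow_le_pow_left₀ (abs_nonneg _) ha 2
      nlinarith
    have hy : δ / 2 ≤ ((R ^ 2 - t ^ 2) - (‖w‖ ^ 2 - t ^ 2)) / (R ^ 2 - t ^ 2) := by
      rw [le_div_iff₀ hq]
      have h1 : R ^ 2 - t ^ 2 ≤ R ^ 2 := by nlinarith [sq_nonneg t]
      have h2 : δ / 2 * (R ^ 2 - t ^ 2) ≤ δ / 2 * R ^ 2 := by
        apply mul_le_mul_of_nonneg_left h1; linarith
      have h3 : δ / 2 * R ^ 2 ≤ δ * R := by
        nlinarith [mul_nonneg (mul_nonneg hδ.le (by linarith : (0 : ℝ) ≤ R)) (by linarith : (0 : ℝ) ≤ 2 - R)]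
      have h4 : δ * R ≤ R ^ 2 - (R - δ) ^ 2 := by nlinarith
      linarith
    have hX : ‖a • ν + c • (w - t • ν)‖ ^ 2 ≤ R ^ 2 - δ ^ 2 / 4 := by
      have e : (R ^ 2 - a ^ 2) / (R ^ 2 - t ^ 2) * (‖w‖ ^ 2 - t ^ 2) = (R ^ 2 - a ^ 2) -
          (R ^ 2 - a ^ 2) * (((R ^ 2 - t ^ 2) - (‖w‖ ^ 2 - t ^ 2)) / (R ^ 2 - t ^ 2)) := by
        field_simp
        ring
      rw [hn, e]
      have h5 : δ / 2 * (δ / 2) ≤ (R ^ 2 - a ^ 2) *
          (((R ^ 2 - t ^ 2) - (‖w‖ ^ 2 - t ^ 2)) / (R ^ 2 - t ^ 2)) :=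
        mul_le_mul hp hy (by linarith) (by linarith)
      nlinarith
    by_contra hcon
    push Not at hcon
    have h6 : (0 : ℝ) ≤ R - δ ^ 2 / 16 := by nlinarith
    have h7 : (R - δ ^ 2 / 16) ^ 2 < ‖a • ν + c • (w - t • ν)‖ ^ 2 :=
      pow_lt_pow_left₀ hcon h6 two_ne_zero
    have h8 : R ^ 2 - δ ^ 2 / 4 ≤ (R - δ ^ 2 / 16) ^ 2 := by
      have : R * δ ^ 2 ≤ 2 * δ ^ 2 := mul_le_mul_of_nonneg_right hR2 (sq_nonneg δ)
      nlinarith [sq_nonneg (δ ^ 2 / 16)]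
    linarith

end Pool.Agent.LRW
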