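import Pool.Agent.LRT.CD

/-!
Retractions of a ball onto its hyperplane sections, on complex neighbourhoods: definitions.
-/

set_option autoImplicit false

open Set MeasureTheory Topology

namespace Pool.Agent.LRW

open Pool.Agent.LRT

noncomputable section

variable {n : ℕ}

/-- `√((R² - a²)/(R² - t²))` -/
def chi (R : ℝ) (a t : ℂ) : ℂ :=
  Complex.exp ((Complex.log ((R : ℂ) ^ 2 - a ^ 2) - Complex.log ((R : ℂ) ^ 2 - t ^ 2)) / 2)

/-- the component of `w` orthogonal to `ν` -/
def perpc (ν : RE n) (w : CE n) : CE n := w - dot (ofR ν) w • ofR ν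

/-- the point with `ν`-component `a` on the spherical meridian of `w` -/
def Psi (R : ℝ) (ν : RE n) (a : ℂ) (w : CE n) : CE n :=
  a • ofR ν + chi R a (dot (ofR ν) w) • perpc ν w

end

end Pool.Agent.LRW
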