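import Pool.Agent.LRW.TW
import Pool.Agent.LRT.VStm

/-!
Definitions for the statement of the theorem on neighbourhoods of integrable Tonelli Hamiltonians.
-/

set_option autoImplicit false

open MeasureTheory Module Set Filter Topology

namespace Pool.Agent.LRW

open Pool.H45.Mather Pool.Agent.LRT

noncomputable section

variable {n : ℕ}

/-- an integrable Tonelli Hamiltonian `h (p)`: of class `C^s`, with positive definite second derivative, superlinear -/
structure IntTonelli (s : ℕ) (h : RE n → ℝ) : Prop where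
  smooth : ContDiff ℝ s h
  hess : ∀ p v, v ≠ 0 → 0 < fderiv ℝ (fderiv ℝ h) p v v
  sup : ∀ A : ℝ, ∃ B : ℝ, ∀ p, A * ‖p‖ - B ≤ h p

/-- `f` is `C^s` and its derivatives of order at most `s` at `(x, p)` have norm at most `η (‖p‖)` -/
def JetLe (s : ℕ) (η : ℝ → ℝ) (f : RE n × RE n → ℝ) : Prop :=
  ContDiff ℝ s f ∧ ∀ j ≤ s, ∀ x p, ‖iteratedFDeriv ℝ j f (x, p)‖ ≤ η ‖p‖

/-- the Hamiltonian `h (p) + f (x, p)` -/
def Hsum (h : RE n → ℝ) (f : RE n × RE n → ℝ) (z : RE n × RE n) : ℝ := h z.2 + f z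

theorem near_int (n : ℕ) (hn : 2 ≤ n) : ∃ s : ℕ, ∀ h : RE n → ℝ, IntTonelli s h →
    ∃ η : ℝ → ℝ, Antitone η ∧ (∀ r, 0 < η r) ∧ ∀ f : RE n × RE n → ℝ, PerT f → JetLe s η f →
    Differentiable ℝ (betaH (Hsum h f)) → C0Int (bs n) (Hsum h f) := by
  obtain ⟨s, -, H⟩ := near_integrable n hn
  refine ⟨s, fun h hh => ?_⟩
  obtain ⟨η, h1, h2, h3⟩ := H h hh.smooth hh.hess hh.sup
  exact ⟨η, h1, h2, fun f hp hf hd => h3 f hf.1 hp hf.2 hd⟩

end

end Pool.Agent.LRW
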