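import Pool.Agent.LRW.TF3
import Pool.Agent.LRT.VG

/-!
TW0: bounds for slices, lower bounds of the Hessian on balls, the step function.
-/

set_option autoImplicit false

open MeasureTheory Module Set Filter Topology

namespace Pool.Agent.LRW

open Pool.H45.Mather Pool.Agent.LRT

variable {n : ℕ} {E : Type*} [NormedAddCommGroup E] [InnerProductSpace ℝ E]

section slice

variable {f : E × E → ℝ}

lemma slice_contDiff {k : WithTop ℕ∞} (hf : ContDiff ℝ k f) (x : E) : ContDiff ℝ k (fun q => f (x, q)) :=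
  hf.comp (contDiff_const.prodMk contDiff_id)

lemma slice_hasFDerivAt {F : Type*} [NormedAddCommGroup F] [NormedSpace ℝ F] {g : E × E → F} {x p : E}
    (hf : DifferentiableAt ℝ g (x, p)) :
    HasFDerivAt (fun q => g (x, q)) ((fderiv ℝ g (x, p)).comp (ContinuousLinearMap.inr ℝ E E)) p := by
  have h1 : HasFDerivAt (fun q : E => (x, q)) (ContinuousLinearMap.inr ℝ E E) p := by
    exact (hasFDerivAt_const (𝕜 := ℝ) x p).prodMk (hasFDerivAt_id (𝕜 := ℝ) p)
  exact hf.hasFDerivAt.comp p h1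

lemma slice_fderiv (hf : ContDiff ℝ 2 f) (x p v : E) :
    fderiv ℝ (fun q => f (x, q)) p v = fderiv ℝ f (x, p) (0, v) := by
  rw [(slice_hasFDerivAt (hf.differentiable (by norm_num) (x, p))).fderiv]
  simp

lemma slice_fderiv2 (hf : ContDiff ℝ 2 f) (x p v w : E) :
    fderiv ℝ (fderiv ℝ (fun q => f (x, q))) p v w = fderiv ℝ (fderiv ℝ f) (x, p) (0, v) (0, w) := by
  have h1 : ContDiff ℝ 1 (fderiv ℝ f) := hf.fderiv_right (by norm_num)
  have h2 : (fderiv ℝ (fun q => f (x, q))) = fun p => (fderiv ℝ f (x, p)).comp (ContinuousLinearMap.inr ℝ E E) := by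
    funext p
    exact (slice_hasFDerivAt (hf.differentiable (by norm_num) (x, p))).fderiv
  rw [h2]
  have h3 := slice_hasFDerivAt (x := x) (p := p) (h1.differentiable (by norm_num) (x, p))
  have h4 := ((ContinuousLinearMap.compL ℝ E (E × E) ℝ).flip (ContinuousLinearMap.inr ℝ E E)).hasFDerivAt.comp p h3
  have h5 : HasFDerivAt (fun p => (fderiv ℝ f (x, p)).comp (ContinuousLinearMap.inr ℝ E E))
      (((ContinuousLinearMap.compL ℝ E (E × E) ℝ).flip (ContinuousLinearMap.inr ℝ E E)).comp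
        ((fderiv ℝ (fderiv ℝ f) (x, p)).comp (ContinuousLinearMap.inr ℝ E E))) p := h4
  rw [h5.fderiv]
  simp

lemma slice_bound (hf : ContDiff ℝ 2 f) {ε : ℝ} {x p : E}
    (h : ∀ j ≤ 2, ‖iteratedFDeriv ℝ j f (x, p)‖ ≤ ε) :
    |f (x, p)| ≤ ε ∧ ‖fderiv ℝ (fun q => f (x, q)) p‖ ≤ ε ∧
      ‖fderiv ℝ (fderiv ℝ (fun q => f (x, q))) p‖ ≤ ε ∧
      ∀ v, |fderiv ℝ (fderiv ℝ (fun q => f (x, q))) p v v| ≤ ε * ‖v‖ ^ 2 := by
  have h0 := h 0 (by norm_num)
  have h1 := h 1 (by norm_num)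
  have h2 := h 2 (by norm_num)
  have hε : 0 ≤ ε := (norm_nonneg _).trans h0
  rw [norm_iteratedFDeriv_zero] at h0
  rw [norm_iteratedFDeriv_one] at h1
  have e3 : ∀ v : E, ‖((0 : E), v)‖ = ‖v‖ := fun v => by simp [Prod.norm_def]
  have key : ∀ v w, ‖fderiv ℝ (fderiv ℝ (fun q => f (x, q))) p v w‖ ≤ ε * ‖v‖ * ‖w‖ := by
    intro v w
    rw [slice_fderiv2 hf]
    have h3 := (iteratedFDeriv ℝ 2 f (x, p)).le_opNorm ![((0 : E), v), ((0 : E), w)]
    rw [iteratedFDeriv_two_apply, Fin.prod_univ_two] at h3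
    simp only [Matrix.cons_val_zero, Matrix.cons_val_one, e3] at h3
    refine h3.trans ?_
    rw [mul_assoc]
    exact mul_le_mul_of_nonneg_right h2 (by positivity)
  refine ⟨h0, ?_, ?_, fun v => ?_⟩
  · refine ContinuousLinearMap.opNorm_le_bound _ hε fun v => ?_
    rw [slice_fderiv hf]
    have := (fderiv ℝ f (x, p)).le_opNorm (0, v)
    rw [e3] at this
    exact this.trans (by gcongr)
  · refine ContinuousLinearMap.opNorm_le_bound _ hε fun v => ?_
    refine ContinuousLinearMap.opNorm_le_bound _ (by positivity) fun w => ?_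
    exact key v w
  · have := key v v
    rw [Real.norm_eq_abs] at this
    rw [pow_two, ← mul_assoc]
    exact this

variable {h : E → ℝ}

lemma sum_contDiff {k : WithTop ℕ∞} (hh : ContDiff ℝ k h) (hf : ContDiff ℝ k f) :
    ContDiff ℝ k (fun z : E × E => h z.2 + f z) :=
  (hh.comp contDiff_snd).add hf

lemma sum_fderiv (hh : ContDiff ℝ 2 h) (hf : ContDiff ℝ 2 f) (x : E) :
    fderiv ℝ (fun q => h q + f (x, q)) = fun p => fderiv ℝ h p + fderiv ℝ (fun q => f (x, q)) p := by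
  funext p
  exact fderiv_fun_add (hh.differentiable (by norm_num) p) ((slice_contDiff hf x).differentiable (by norm_num) p)

lemma sum_fderiv2 (hh : ContDiff ℝ 2 h) (hf : ContDiff ℝ 2 f) (x p : E) :
    fderiv ℝ (fderiv ℝ (fun q => h q + f (x, q))) p =
      fderiv ℝ (fderiv ℝ h) p + fderiv ℝ (fderiv ℝ (fun q => f (x, q))) p := by
  rw [sum_fderiv hh hf]
  have h1 : ContDiff ℝ 1 (fderiv ℝ h) := hh.fderiv_right (by norm_num)
  have h2 : ContDiff ℝ 1 (fderiv ℝ (fun q => f (x, q))) := (slice_contDiff hf x).fderiv_right (by norm_num)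
  exact fderiv_fun_add (h1.differentiable (by norm_num) p) (h2.differentiable (by norm_num) p)

end slice

section compact

variable [FiniteDimensional ℝ E] {h : E → ℝ}

lemma hess_lower (hh : ContDiff ℝ 2 h) (hpos : ∀ p v, v ≠ 0 → 0 < fderiv ℝ (fderiv ℝ h) p v v) (R : ℝ) :
    ∃ lam : ℝ, 0 < lam ∧ ∀ p v, ‖p‖ ≤ R → lam * ‖v‖ ^ 2 ≤ fderiv ℝ (fderiv ℝ h) p v v := by
  haveI : ProperSpace E := FiniteDimensional.proper ℝ E
  have c1 : Continuous (fderiv ℝ (fderiv ℝ h)) :=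
    ((hh.fderiv_right (m := 1) (by norm_num)).continuous_fderiv (by norm_num))
  have c2 : Continuous fun z : E × E => fderiv ℝ (fderiv ℝ h) z.1 z.2 z.2 :=
    ((c1.comp continuous_fst).clm_apply continuous_snd).clm_apply continuous_snd
  obtain ⟨lam, h1, h2⟩ := ((isCompact_closedBall (0 : E) R).prod (isCompact_sphere (0 : E) 1)).exists_forall_le'
    (f := fun z : E × E => fderiv ℝ (fderiv ℝ h) z.1 z.2 z.2) c2.continuousOn (a := 0) (fun z hz => by
      refine hpos z.1 z.2 ?_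
      intro h0
      have := hz.2
      rw [h0] at this
      simp at this)
  refine ⟨lam, h1, fun p v hp => ?_⟩
  rcases eq_or_ne v 0 with rfl | hv
  · simp
  · have hv' : 0 < ‖v‖ := norm_pos_iff.2 hv
    have h3 := h2 (p, ‖v‖⁻¹ • v) ⟨by simpa using hp, by
      simp only [mem_sphere_iff_norm, sub_zero, norm_smul, norm_inv, norm_norm]
      exact inv_mul_cancel₀ hv'.ne'⟩
    simp only [map_smul, smul_apply, smul_eq_mul] at h3
    have h4 : lam * ‖v‖ ^ 2 ≤ (‖v‖⁻¹ * (‖v‖⁻¹ * fderiv ℝ (fderiv ℝ h) p v v)) * ‖v‖ ^ 2 :=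
      mul_le_mul_of_nonneg_right h3 (by positivity)
    refine h4.trans (le_of_eq ?_)
    field_simp

lemma jet_upper (hh : ContDiff ℝ 2 h) (R : ℝ) :
    ∃ C : ℝ, 0 < C ∧ ∀ p, ‖p‖ ≤ R → |h p| ≤ C ∧ ‖fderiv ℝ h p‖ ≤ C ∧ ‖fderiv ℝ (fderiv ℝ h) p‖ ≤ C := by
  haveI : ProperSpace E := FiniteDimensional.proper ℝ E
  have c1 : ContDiff ℝ 0 (fderiv ℝ (fderiv ℝ h)) :=
    (hh.fderiv_right (m := 1) (by norm_num)).fderiv_right (m := 0) (by norm_num)
  have c2 : Continuous (fderiv ℝ h) := hh.continuous_fderiv (by norm_num)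
  obtain ⟨C₁, h1⟩ := (isCompact_closedBall (0 : E) R).exists_bound_of_continuousOn hh.continuous.continuousOn
  obtain ⟨C₂, h2⟩ := (isCompact_closedBall (0 : E) R).exists_bound_of_continuousOn c2.continuousOn
  have c3 : Continuous fun p => ‖fderiv ℝ (fderiv ℝ h) p‖ := by
    exact (continuous_norm (E := E →L[ℝ] E →L[ℝ] ℝ)).comp c1.continuous
  obtain ⟨C₃, h3⟩ := (isCompact_closedBall (0 : E) R).exists_bound_of_continuousOn c3.continuousOn
  refine ⟨max 1 (max C₁ (max C₂ C₃)), lt_of_lt_of_le one_pos (le_max_left _ _), fun p hp => ?_⟩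
  have hp' : p ∈ Metric.closedBall (0 : E) R := by simpa using hp
  refine ⟨(h1 p hp').trans ?_, (h2 p hp').trans ?_, ((le_abs_self _).trans (h3 p hp')).trans ?_⟩
  · exact (le_max_left _ _).trans (le_max_right _ _)
  · exact ((le_max_left _ _).trans (le_max_right _ _)).trans (le_max_right _ _)
  · exact ((le_max_right _ _).trans (le_max_right _ _)).trans (le_max_right _ _)

end compact

/-- an antitone positive function below `a j` for all `j ≤ ⌈r⌉₊ + 2` -/
lemma exists_step {a : ℕ → ℝ} (ha : ∀ k, 0 < a k) :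
    ∃ η : ℝ → ℝ, Antitone η ∧ (∀ r, 0 < η r) ∧ ∀ r (j : ℕ), j ≤ ⌈r⌉₊ + 2 → η r ≤ a j := by
  have hne : ∀ m : ℕ, (Finset.range (m + 3)).Nonempty := fun m => ⟨0, by simp⟩
  refine ⟨fun r => (Finset.range (⌈r⌉₊ + 3)).inf' (hne _) a, ?_, fun r => ?_, fun r j hj => ?_⟩
  · intro r r' hr
    refine Finset.inf'_mono a ?_ (hne _)
    intro i hi
    rw [Finset.mem_range] at hi ⊢
    have := Nat.ceil_le_ceil hr
    omega
  · rw [Finset.lt_inf'_iff]
    exact fun i _ => ha i
  · exact Finset.inf'_le a (by rw [Finset.mem_range]; omega)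

end Pool.Agent.LRW
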