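import Pool.Agent.LRW.KSc
import Pool.Agent.LRW.KO
import Pool.Agent.LRW.TW0

/-!
# LRW/US: symbols of order two, uniform theorem over any set of momenta
-/

set_option autoImplicit false

open MeasureTheory Module Set Filter Topology

namespace Pool.Agent.LRW

open Pool.H45.Mather Pool.Agent.LRT

noncomputable section

variable {n : ℕ}

/-- comparison of the rescaled functions at two scales -/
lemma fsc_compare {s : ℕ} {f : RE n × RE n → ℝ} (hf : ContDiff ℝ s f) {R R' : ℝ} (hR : 0 < R) (hR' : 0 < R')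
    (h1 : R ≤ 2 * R') (h2 : R' ≤ 2 * R) {j : ℕ} (hj : j ≤ s) (x q : RE n) :
    ‖iteratedFDeriv ℝ j (fsc R f) (x, q)‖ ≤ 4 * 2 ^ s * ‖iteratedFDeriv ℝ j (fsc R' f) (x, (R / R') • q)‖ := by
  have hρ : 0 < R / R' := by positivity
  have hρ2 : R / R' ≤ 2 := by rw [div_le_iff₀ hR']; exact h1
  have hρ3 : R' / R ≤ 2 := by rw [div_le_iff₀ hR]; exact h2
  have e : fsc R f = ((R' / R) ^ 2) • (fsc R' f ∘ scL n (R / R')) := by
    funext z
    simp only [fsc, Function.comp, scL_apply, smul_eq_mul, smul_smul, Pi.smul_apply]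
    have e1 : R' * (R / R') = R := by field_simp
    rw [e1]
    field_simp
  have hsm : ContDiff ℝ j (fsc R' f) := (contDiff_fsc hf _).of_le (by exact_mod_cast hj)
  rw [e, iteratedFDeriv_const_smul_apply (hsm.comp (scL n (R / R')).contDiff).contDiffAt,
    norm_smul, Real.norm_eq_abs, abs_of_nonneg (by positivity)]
  rw [(scL n (R / R')).iteratedFDeriv_comp_right hsm _ le_rfl]
  have h3 := ContinuousMultilinearMap.norm_compContinuousLinearMap_le
    (iteratedFDeriv ℝ j (fsc R' f) (scL n (R / R') (x, q))) (fun _ : Fin j => scL n (R / R'))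
  have hn : ‖scL n (R / R')‖ ≤ 2 := by
    refine ContinuousLinearMap.opNorm_le_bound _ (by norm_num) fun z => ?_
    rw [scL_apply, Prod.norm_def, Prod.norm_def]
    simp only []
    refine max_le ?_ ?_
    · have := le_max_left ‖z.1‖ ‖z.2‖
      have := norm_nonneg z.1
      linarith
    · rw [norm_smul, Real.norm_eq_abs, abs_of_pos hρ]
      exact mul_le_mul hρ2 (le_max_right _ _) (norm_nonneg _) (by norm_num)
  have h4 : ∏ _ : Fin j, ‖scL n (R / R')‖ ≤ 2 ^ s := by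
    rw [Finset.prod_const, Finset.card_univ, Fintype.card_fin]
    exact (pow_le_pow_left₀ (norm_nonneg _) hn j).trans (pow_le_pow_right₀ (by norm_num) hj)
  have e2 : scL n (R / R') (x, q) = (x, (R / R') • q) := rfl
  rw [e2] at h3
  have h5 : (R' / R) ^ 2 ≤ 4 := by
    have : 0 < R' / R := by positivity
    nlinarith
  rw [e2]
  calc _ ≤ 4 * (‖iteratedFDeriv ℝ j (fsc R' f) (x, (R / R') • q)‖ * 2 ^ s) :=
        mul_le_mul h5 (h3.trans (mul_le_mul_of_nonneg_left h4 (norm_nonneg _))) (norm_nonneg _) (by norm_num)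
    _ = _ := by ring

/-- integrable Hamiltonians `h (p)` which are uniformly convex symbols of order two -/
structure SymH (s : ℕ) (La M : ℝ) (h : RE n → ℝ) : Prop where
  smooth : ContDiff ℝ s h
  hess : ∀ p v, ‖v‖ ^ 2 / (2 * La) ≤ fderiv ℝ (fderiv ℝ h) p v v ∧
    fderiv ℝ (fderiv ℝ h) p v v ≤ 2 * La * ‖v‖ ^ 2
  symb : ∀ j, 3 ≤ j → j ≤ s → ∀ p, ‖iteratedFDeriv ℝ j h p‖ * (1 + ‖p‖) ^ (j - 2) ≤ M

/-- at the points `(x, p)`, `p ∈ U`, the function `f` is `ε`-small in the class of symbols of order two: the derivatives of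
order at most `s` of `f (x, R q) / R ^ 2` at `(x, p / R)`, `R = 1 + ‖p‖`, have norm at most `ε` -/
def SymLe (s : ℕ) (ε : ℝ) (U : Set (RE n)) (f : RE n × RE n → ℝ) : Prop :=
  ∀ p ∈ U, ∀ x, ∀ j ≤ s, ‖iteratedFDeriv ℝ j (fsc (1 + ‖p‖) f) (x, (1 + ‖p‖)⁻¹ • p)‖ ≤ ε

theorem us_main (n : ℕ) (hn : 2 ≤ n) : ∃ s : ℕ, 3 ≤ s ∧ ∀ {La La' M δ : ℝ}, 1 ≤ La → 1 ≤ La' → 0 < δ → ∃ ε : ℝ, 0 < ε ∧
    ∀ h : RE n → ℝ, SymH s La M h → ∀ f : RE n × RE n → ℝ, ContDiff ℝ s f →
    (∀ p, Per (bs n) (fun x => f (x, p))) →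
    (∀ x p v, ‖v‖ ^ 2 / (2 * La') ≤ fderiv ℝ (fderiv ℝ (fun q => h q + f (x, q))) p v v ∧
      fderiv ℝ (fderiv ℝ (fun q => h q + f (x, q))) p v v ≤ 2 * La' * ‖v‖ ^ 2) →
    ∀ U : Set (RE n), SymLe s ε {p' | ∃ p ∈ U, ‖p' - p‖ ≤ δ * (1 + ‖p‖)} f →
    (∀ p ∈ U, ∀ w, ‖w - gradient h p‖ < δ * (1 + ‖p‖) →
      DifferentiableAt ℝ (betaL (bs n) (Leg (fun z => h z.2 + f z))) w) →
    FolOver (bs n) (fun z => h z.2 + f z) U := by
  obtain ⟨s, hs, hL⟩ := local_fam_sc n hn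
  refine ⟨s, hs, fun {La La' M δ'} hLa hLa' hδ' => ?_⟩
  set δ : ℝ := min δ' (1 / 2) with hδd
  have hδ : 0 < δ := lt_min hδ' (by norm_num)
  have hδ2 : δ ≤ 1 / 2 := min_le_right _ _
  obtain ⟨ef, hef, hloc⟩ := hL hLa hLa' (le_max_right (2 ^ s * M) 0) hδ
  refine ⟨ef / (4 * 2 ^ s), by positivity, fun h hh f hf hper huc U hsm hdiff => ?_⟩
  have hh2 : ContDiff ℝ 2 h := hh.smooth.of_le (by exact_mod_cast (by omega : 2 ≤ s))
  have hf2 : ContDiff ℝ 2 f := hf.of_le (by exact_mod_cast (by omega : 2 ≤ s))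
  set H : RE n × RE n → ℝ := fun z => h z.2 + f z with hH
  have hH2 : ContDiff ℝ 2 H := sum_contDiff hh2 hf2
  have hK : HamK La' (bs n) H (fun z => gradient (fun q => h q + f (z.1, q)) z.2) :=
    hamK_of_hess hH2 (fun p => (hper p).comp (fun t => h p + t)) (by linarith) huc
  have hKL : HamL (bs n) H (fun z => gradient (fun q => h q + f (z.1, q)) z.2) := by
    refine hamL_of hH2 ?_ (fun R => ⟨La', H, _, hLa', hK, fun x p _ => ⟨rfl, rfl⟩⟩) (fun x p => rfl)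
    intro A
    obtain ⟨B, hB⟩ := (hK.hamT hLa').sup 1
    refine ⟨A + B, fun x p hp => ?_⟩
    have := hB x p
    linarith
  refine folover_of_loc hH2 hKL (fun x p => rfl) fun p hp => ?_
  set R : ℝ := 1 + ‖p‖ with hR
  have hR0 : 0 < R := by positivity
  have hnear : ∀ p', ‖p' - p‖ ≤ δ * R → R ≤ 2 * (1 + ‖p'‖) ∧ 1 + ‖p'‖ ≤ 2 * R := by
    intro p' hp'
    have e1 : p = p' - (p' - p) := by abel
    have h3 : ‖p‖ ≤ ‖p'‖ + ‖p' - p‖ := by
      calc ‖p‖ = ‖p' - (p' - p)‖ := by rw [← e1]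
        _ ≤ _ := norm_sub_le _ _
    have e2 : p' = (p' - p) + p := by abel
    have h4 := norm_add_le (p' - p) p
    rw [← e2] at h4
    have h5 : ‖p' - p‖ ≤ 1 / 2 * R := hp'.trans (mul_le_mul_of_nonneg_right hδ2 hR0.le)
    have h6 := norm_nonneg p
    have h7 := norm_nonneg p'
    constructor <;> linarith
  obtain ⟨m, K, r, c, P, hm, hF, -, hc, hx⟩ := hloc h hh.smooth R hR0 p (hh.hess p)
    (fun j h3 hj p' hp' => by
      have h1 := hh.symb j h3 hj p'
      have h2 : R ^ (j - 2) ≤ 2 ^ s * (1 + ‖p'‖) ^ (j - 2) := by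
        calc R ^ (j - 2) ≤ (2 * (1 + ‖p'‖)) ^ (j - 2) := pow_le_pow_left₀ hR0.le (hnear p' hp').1 _
          _ = 2 ^ (j - 2) * (1 + ‖p'‖) ^ (j - 2) := mul_pow _ _ _
          _ ≤ _ := mul_le_mul_of_nonneg_right (pow_le_pow_right₀ (by norm_num) (by omega)) (by positivity)
      refine le_trans ?_ (le_max_left _ _)
      calc _ ≤ ‖iteratedFDeriv ℝ j h p'‖ * (2 ^ s * (1 + ‖p'‖) ^ (j - 2)) :=
            mul_le_mul_of_nonneg_left h2 (norm_nonneg _)
        _ = 2 ^ s * (‖iteratedFDeriv ℝ j h p'‖ * (1 + ‖p'‖) ^ (j - 2)) := by ring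
        _ ≤ _ := mul_le_mul_of_nonneg_left h1 (by positivity))
    f hf hper
    (fun j hj x q hq => by
      have hp' : ‖R • q - p‖ ≤ δ * R := by
        have e : R • q - p = R • (q - R⁻¹ • p) := by
          rw [smul_sub, smul_smul, mul_inv_cancel₀ hR0.ne', one_smul]
        rw [e, norm_smul, Real.norm_eq_abs, abs_of_pos hR0, mul_comm]
        exact mul_le_mul_of_nonneg_right hq hR0.le
      obtain ⟨h1, h2⟩ := hnear _ hp'
      have h3 : 0 < 1 + ‖R • q‖ := by positivity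
      have h4 := fsc_compare hf hR0 h3 h1 h2 hj x q
      have h5 := hsm (R • q) ⟨p, hp, hp'.trans (mul_le_mul_of_nonneg_right (min_le_left _ _) hR0.le)⟩ x j hj
      have e : (R / (1 + ‖R • q‖)) • q = (1 + ‖R • q‖)⁻¹ • R • q := by
        rw [smul_smul]
        congr 1
        field_simp
      rw [e] at h4
      refine h4.trans ?_
      calc _ ≤ 4 * 2 ^ s * (ef / (4 * 2 ^ s)) := mul_le_mul_of_nonneg_left h5 (by positivity)
        _ = ef := by field_simp)
    H _ hK (fun x p' _ => rfl)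
    (fun w hw => hdiff p hp w (hw.trans_le (mul_le_mul_of_nonneg_right (min_le_left _ _) hR0.le)))
  exact ⟨gradient h p, m, K, r, c, P, hm, hF, hc, hx⟩

end

end Pool.Agent.LRW
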