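import Pool.Agent.LRW.TWU
import Pool.Agent.LRW.US
import Pool.Agent.LRW.StW

/-!
Definitions and final forms for the local theorems (foliations over a set of momenta).
-/

set_option autoImplicit false

open MeasureTheory Module Set Filter Topology

namespace Pool.Agent.LRW

open Pool.H45.Mather Pool.Agent.LRT

noncomputable section

variable {n : ℕ}

/-- the second derivative of `g` at `p` in the direction `v` -/
def d2 (g : RE n → ℝ) (p v : RE n) : ℝ := fderiv ℝ (fderiv ℝ g) p v v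

/-- the second derivative of `g` lies between `1 / (2 La)` and `2 La` -/
def Conv2 (La : ℝ) (g : RE n → ℝ) : Prop :=
  ∀ p v, ‖v‖ ^ 2 / (2 * La) ≤ d2 g p v ∧ d2 g p v ≤ 2 * La * ‖v‖ ^ 2

/-- the second derivative of `H (x, p)` with respect to `p` lies between `1 / (2 La)` and `2 La` -/
def UConv (La : ℝ) (H : RE n × RE n → ℝ) : Prop := ∀ x, Conv2 La (fun q => H (x, q))

/-- the derivatives of order `3 ≤ j ≤ s` of `h` at `p` have norm at most `M (1 + ‖p‖) ^ (2 - j)` -/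
def SymB (s : ℕ) (M : ℝ) (h : RE n → ℝ) : Prop :=
  ∀ j, 3 ≤ j → j ≤ s → ∀ p, ‖iteratedFDeriv ℝ j h p‖ * (1 + ‖p‖) ^ (j - 2) ≤ M

/-- `h` is of class `C^s`, uniformly convex with constant `La`, and its higher derivatives satisfy `SymB` -/
def SymU (s : ℕ) (La M : ℝ) (h : RE n → ℝ) : Prop := ContDiff ℝ s h ∧ Conv2 La h ∧ SymB s M h

/-- the points at distance at most `δ (1 + ‖p‖)` from some `p ∈ U` -/
def Nb (δ : ℝ) (U : Set (RE n)) : Set (RE n) := {p' | ∃ p ∈ U, ‖p' - p‖ ≤ δ * (1 + ‖p‖)}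

/-- `β` is differentiable at the points at distance less than `δ (1 + ‖p‖)` from the gradient of `h` at some `p ∈ U` -/
def DiffNb (δ : ℝ) (h : RE n → ℝ) (U : Set (RE n)) (β : RE n → ℝ) : Prop :=
  ∀ p ∈ U, ∀ w, ‖w - gradient h p‖ < δ * (1 + ‖p‖) → DifferentiableAt ℝ β w

theorem near_int_loc (n : ℕ) (hn : 2 ≤ n) : ∃ s : ℕ, ∀ h : RE n → ℝ, IntTonelli s h → ∀ δ : ℝ, 0 < δ →
    ∃ η : ℝ → ℝ, Antitone η ∧ (∀ r, 0 < η r) ∧ ∀ f : RE n × RE n → ℝ, PerT f → JetLe s η f →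
    ∀ U : Set (RE n), (∀ p ∈ U, ∀ w, ‖w - gradient h p‖ < δ → DifferentiableAt ℝ (betaH (Hsum h f)) w) →
    FolOver (bs n) (Hsum h f) U := by
  obtain ⟨s, -, H⟩ := near_integrable_loc n hn
  refine ⟨s, fun h hh δ hδ => ?_⟩
  obtain ⟨η, h1, h2, h3⟩ := H h hh.smooth hh.hess hh.sup δ hδ
  exact ⟨η, h1, h2, fun f hp hf U hd => h3 f hf.1 hp hf.2 U hd⟩

theorem symb_class (n : ℕ) (hn : 2 ≤ n) : ∃ s : ℕ, ∀ La M δ : ℝ, 1 ≤ La → 0 < δ → ∃ ε : ℝ, 0 < ε ∧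
    ∀ (h : RE n → ℝ) (f : RE n × RE n → ℝ), SymU s La M h → ContDiff ℝ s f → PerT f →
    UConv La (Hsum h f) → ∀ U : Set (RE n), SymLe s ε (Nb δ U) f →
    DiffNb δ h U (betaH (Hsum h f)) → FolOver (bs n) (Hsum h f) U := by
  obtain ⟨s, -, H⟩ := us_main n hn
  refine ⟨s, fun La M δ hLa hδ => ?_⟩
  obtain ⟨ε, h1, h2⟩ := H (M := M) hLa hLa hδ
  exact ⟨ε, h1, fun h f hh hf hp hu U hs hd => h2 h ⟨hh.1, hh.2.1, hh.2.2⟩ f hf hp hu U hs hd⟩

end

end Pool.Agent.LRW
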