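import Pool.Agent.LRW.TA
import Pool.Agent.LRT.VD

/-!
TB (difficulty 3).  Truncation: the closed measure inequality depends only on a sublevel set of the Hamiltonian.

PROOF.  `TonL b (Leg H)`, `TonL b (Leg H')` by `HamT.tonL`.  Let `StarL b (Leg H) c κ`, `κ < A`.  For `0 < σ < A - κ`, `dualityL` gives a `C¹` periodic `φ` with
`SubL (Leg H) c (κ + σ) φ`.  `P x := c + gradient of φ` (e.g. `(InnerProductSpace.toDual ℝ E).symm (fderiv ℝ φ x) + c`; `E` is complete, finite dimensional),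
`H (x, P x) ≤ κ + σ < A` by `HamT.of_sub`, so `‖P x‖ < R` (otherwise `A < H (x, P x)`), `H' (x, P x) = H (x, P x) ≤ κ + σ`, `SubL (Leg H') c (κ + σ) φ` by
`HamT.sub_of`, `StarL b (Leg H') c (κ + σ)` by `SubL.star`.  So for every closed measure `⟪c, ∫v⟫ ≤ ∫ L' + κ + σ` for all small `σ > 0`:
`le_of_forall_pos_le_add`-type argument gives `StarL b (Leg H') c κ`.
-/

set_option autoImplicit false

open MeasureTheory Module Set Filter Topology

namespace Pool.Agent.LRW

open Pool.H45.Mather Pool.Agent.LRT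

variable {n : ℕ} {E : Type*} [NormedAddCommGroup E] [InnerProductSpace ℝ E] [FiniteDimensional ℝ E]
  [MeasurableSpace E] [BorelSpace E] {b : Basis (Fin n) ℝ E}

variable {H H' : E × E → ℝ} {Hp Hp' : E × E → E}

theorem star_trunc (hH : HamT b H Hp) (hH' : HamT b H' Hp') {R A : ℝ}
    (heq : ∀ x p, ‖p‖ ≤ R → H' (x, p) = H (x, p)) (hA : ∀ x p, R ≤ ‖p‖ → A < H (x, p))
    {c : E} {κ : ℝ} (hκ : κ < A) (h : StarL b (Leg H) c κ) : StarL b (Leg H') c κ := by
  have hL := hH.tonL
  have hL' := hH'.tonL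
  intro μ hμ
  have key : ∀ σ : ℝ, 0 < σ → σ < A - κ → inner ℝ c (∫ z, z.2 ∂μ) ≤ ∫ z, Leg H' z ∂μ + (κ + σ) := by
    intro σ hσ hσ'
    obtain ⟨φ, hφ, hφp, hsub⟩ := dualityL hL h hσ
    have hP : ∀ x v, inner ℝ (c + (InnerProductSpace.toDual ℝ E).symm (fderiv ℝ φ x)) v =
        inner ℝ c v + fderiv ℝ φ x v := by
      intro x v
      rw [inner_add_left, InnerProductSpace.toDual_symm_apply]
    have h1 : ∀ x, H (x, c + (InnerProductSpace.toDual ℝ E).symm (fderiv ℝ φ x)) ≤ κ + σ :=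
      fun x => hH.of_sub hP hsub x
    have h2 : ∀ x, H' (x, c + (InnerProductSpace.toDual ℝ E).symm (fderiv ℝ φ x)) ≤ κ + σ := by
      intro x
      have h3 : ‖c + (InnerProductSpace.toDual ℝ E).symm (fderiv ℝ φ x)‖ ≤ R := by
        by_contra hcon
        push Not at hcon
        have h4 := hA x _ hcon.le
        have h5 := h1 x
        linarith
      rw [heq x _ h3]
      exact h1 x
    have h6 : SubL (Leg H') c (κ + σ) φ := hH'.sub_of hP h2
    exact h6.star hL' hφ hφp μ hμ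
  refine le_of_forall_pos_le_add fun ε hε => ?_
  have h7 := key (min ε ((A - κ) / 2)) (lt_min hε (by linarith))
    ((min_le_right _ _).trans_lt (by linarith))
  have h8 : min ε ((A - κ) / 2) ≤ ε := min_le_left _ _
  linarith

end Pool.Agent.LRW
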