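import Pool.Agent.LRW.TB

/-!
TC (difficulty 3).  The beta function of a truncated Hamiltonian.

PROOF.  `subgrad`: `β = betaL b L` is a finite convex function on the finite-dimensional space `E` (`betaL_convex`): at each `h` there is `c` with
`β h + ⟪c, r - h⟫ ≤ β r` for all `r`.  (`ConvexOn ℝ univ β` from `betaL_convex`: `h + s (r - h) = (1-s) h + s r`; Mathlib: `ConvexOn.continuousOn` in finite
dimension and a supporting hyperplane of the epigraph; or look at the proof of `exists_gradL` in LRT/VB.lean for the construction.)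
`beta_trunc`: let `c` be a subgradient of `β` at `h`, `κ = ⟪c, h⟫ - β h`, so `⟪c, r⟫ - κ ≤ β r` for all `r` and `StarL b L c κ` (`starL_of_le_beta`).
Bound: with `r = h + ‖c‖⁻¹ c` (if `c ≠ 0`): `β h + ‖c‖ ≤ β r ≤ M`, `m ≤ β h`: `‖c‖ ≤ M - m`, `κ ≤ ‖c‖ ‖h‖ - β h ≤ r₀ (M - m) - m < A`
(`c = 0`: `κ = - β h ≤ -m`, and `r₀ (M - m) ≥ 0` because `m ≤ β h ≤ M`).  So `StarL b L' c κ` by `star_trunc`, and `⟪c, h⟫ - κ ≤ β' h` (`StarL.le_beta`), i.e.
`β h ≤ β' h`.  By symmetry (both satisfy the hypotheses) `β' h ≤ β h`.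
-/

set_option autoImplicit false

open MeasureTheory Module Set Filter Topology

namespace Pool.Agent.LRW

open Pool.H45.Mather Pool.Agent.LRT

variable {n : ℕ} {E : Type*} [NormedAddCommGroup E] [InnerProductSpace ℝ E] [FiniteDimensional ℝ E]
  [MeasurableSpace E] [BorelSpace E] {b : Basis (Fin n) ℝ E}

variable {H H' : E × E → ℝ} {Hp Hp' : E × E → E} {L : E × E → ℝ}

omit [MeasurableSpace E] [BorelSpace E] in
theorem TC_subgrad {β : E → ℝ} (hβ : ConvexOn ℝ univ β) (h : E) :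
    ∃ c : E, ∀ r, β h + inner ℝ c (r - h) ≤ β r := by
  have hcont : Continuous β := hβ.locallyLipschitz.continuous
  obtain ⟨s, hs⟩ : ∃ s : Set (E × ℝ), s = {z : E × ℝ | z.1 ∈ (univ : Set E) ∧ β z.1 < z.2} := ⟨_, rfl⟩
  have hmem : ∀ r t, β r < t → ((r, t) : E × ℝ) ∈ s := by
    intro r t ht
    rw [hs]
    exact ⟨mem_univ _, ht⟩
  have hs1 : Convex ℝ s := by
    rw [hs]
    exact hβ.convex_strict_epigraph
  have hs2 : IsOpen s := by
    have h1 : s = {z : E × ℝ | β z.1 < z.2} := by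
      rw [hs]
      ext z
      exact ⟨fun hz => hz.2, fun hz => ⟨mem_univ _, hz⟩⟩
    rw [h1]
    exact isOpen_lt (hcont.comp continuous_fst) continuous_snd
  have hx : ((h, β h) : E × ℝ) ∉ s := by
    rw [hs]
    intro hz
    exact lt_irrefl _ hz.2
  obtain ⟨f, hf⟩ := geometric_hahn_banach_open_point hs1 hs2 hx
  have hdec : ∀ (r : E) (t : ℝ), f (r, t) = f (r, 0) + t * f (0, 1) := by
    intro r t
    have h1 : ((r, t) : E × ℝ) = (r, 0) + t • ((0, 1) : E × ℝ) := by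
      ext <;> simp
    rw [h1, map_add, map_smul, smul_eq_mul]
  obtain ⟨α, hαdef⟩ : ∃ α : ℝ, α = f (0, 1) := ⟨_, rfl⟩
  have hα : α < 0 := by
    have h1 := hf (h, β h + 1) (hmem _ _ (by linarith))
    rw [hdec h (β h + 1), hdec h (β h), ← hαdef] at h1
    linarith
  have hle : ∀ r, f (r, 0) + β r * α ≤ f (h, 0) + β h * α := by
    intro r
    refine le_of_forall_pos_lt_add fun δ hδ => ?_
    have h1 := hf (r, β r + δ / (-α)) (hmem _ _ (by
      have : 0 < δ / (-α) := div_pos hδ (by linarith)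
      linarith))
    rw [hdec r _, hdec h (β h), ← hαdef] at h1
    have h2 : δ / (-α) * α = -δ := by
      rw [div_neg, neg_mul, div_mul_cancel₀ _ hα.ne]
    linarith [add_mul (β r) (δ / (-α)) α]
  obtain ⟨g, hg⟩ : ∃ g : E →L[ℝ] ℝ, g = f.comp (ContinuousLinearMap.inl ℝ E ℝ) := ⟨_, rfl⟩
  have hgv : ∀ v, g v = f (v, 0) := by
    intro v
    rw [hg]
    rfl
  refine ⟨(InnerProductSpace.toDual ℝ E).symm ((-α)⁻¹ • g), fun r => ?_⟩
  rw [InnerProductSpace.toDual_symm_apply, smul_apply, smul_eq_mul, map_sub, hgv, hgv]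
  have h1 := hle r
  have h2 : (-α)⁻¹ * (f (r, 0) - f (h, 0)) ≤ β r - β h := by
    rw [inv_mul_le_iff₀ (by linarith)]
    linarith
  linarith

theorem subgrad (hL : TonL b L) (h : E) :
    ∃ c : E, ∀ r, betaL b L h + inner ℝ c (r - h) ≤ betaL b L r := by
  refine TC_subgrad ⟨convex_univ, fun x _ y _ s t hs ht hst => ?_⟩ h
  have h1 := betaL_convex hL x y ht (by linarith)
  have h2 : x + t • (y - x) = s • x + t • y := by
    have h3 : s = 1 - t := by linarith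
    rw [h3, smul_sub, sub_smul, one_smul]
    abel
  rw [h2] at h1
  rw [smul_eq_mul, smul_eq_mul]
  have h3 : s = 1 - t := by linarith
  rw [h3] at h1 ⊢
  exact h1

theorem TC_one (hH : HamT b H Hp) (hH' : HamT b H' Hp') {R A r₀ M m : ℝ}
    (heq : ∀ x p, ‖p‖ ≤ R → H' (x, p) = H (x, p)) (hA : ∀ x p, R ≤ ‖p‖ → A < H (x, p))
    (hM : ∀ h, ‖h‖ ≤ r₀ + 1 → betaL b (Leg H) h ≤ M)
    (hm : ∀ h, m ≤ betaL b (Leg H) h)
    (hMA : r₀ * (M - m) - m < A) {h : E} (hh : ‖h‖ ≤ r₀) : betaL b (Leg H) h ≤ betaL b (Leg H') h := by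
  have hL := hH.tonL
  obtain ⟨c, hc⟩ := subgrad hL h
  obtain ⟨κ, hκ⟩ : ∃ κ : ℝ, κ = inner ℝ c h - betaL b (Leg H) h := ⟨_, rfl⟩
  have hle : ∀ r, inner ℝ c r - κ ≤ betaL b (Leg H) r := by
    intro r
    have h1 := hc r
    rw [inner_sub_right] at h1
    linarith
  have hstar : StarL b (Leg H) c κ := starL_of_le_beta hL hle
  have hcn : ‖c‖ ≤ M - m := by
    by_cases h0 : c = 0
    · rw [h0, norm_zero]
      have h1 := hm h
      have h2 := hM h (by linarith)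
      linarith
    · have hpos : 0 < ‖c‖ := norm_pos_iff.mpr h0
      have h1 := hc (h + ‖c‖⁻¹ • c)
      rw [add_sub_cancel_left, inner_smul_right, real_inner_self_eq_norm_sq] at h1
      have h2 : ‖c‖⁻¹ * ‖c‖ ^ 2 = ‖c‖ := by
        field_simp
      have h3 : ‖h + ‖c‖⁻¹ • c‖ ≤ r₀ + 1 := by
        refine (norm_add_le _ _).trans ?_
        rw [norm_smul, norm_inv, norm_norm, inv_mul_cancel₀ hpos.ne']
        linarith
      have h4 := hM _ h3
      have h5 := hm h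
      linarith
  have hκA : κ < A := by
    have h1 : inner ℝ c h ≤ ‖c‖ * ‖h‖ := real_inner_le_norm c h
    have h2 : ‖c‖ * ‖h‖ ≤ (M - m) * r₀ :=
      mul_le_mul hcn hh (norm_nonneg _) ((norm_nonneg _).trans hcn)
    have h3 := hm h
    linarith [mul_comm (M - m) r₀]
  have h6 := (star_trunc hH hH' heq hA hκA hstar).le_beta h
  linarith

theorem beta_trunc (hH : HamT b H Hp) (hH' : HamT b H' Hp') {R A r₀ M m : ℝ} (hr₀ : 0 ≤ r₀)
    (heq : ∀ x p, ‖p‖ ≤ R → H' (x, p) = H (x, p)) (hA : ∀ x p, R ≤ ‖p‖ → A < H (x, p))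
    (hA' : ∀ x p, R ≤ ‖p‖ → A < H' (x, p))
    (hM : ∀ h, ‖h‖ ≤ r₀ + 1 → betaL b (Leg H) h ≤ M) (hM' : ∀ h, ‖h‖ ≤ r₀ + 1 → betaL b (Leg H') h ≤ M)
    (hm : ∀ h, m ≤ betaL b (Leg H) h) (hm' : ∀ h, m ≤ betaL b (Leg H') h)
    (hMA : r₀ * (M - m) - m < A) {h : E} (hh : ‖h‖ ≤ r₀) : betaL b (Leg H') h = betaL b (Leg H) h :=
  le_antisymm
    (TC_one hH' hH (fun x p hp => (heq x p hp).symm) hA' hM' hm' hMA hh)
    (TC_one hH hH' heq hA hM hm hMA hh)

end Pool.Agent.LRW
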