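import Pool.Agent.LRW.KDefs

/-!
TD: general Tonelli-like Hamiltonians: convex with a continuous gradient, superlinear.
-/

set_option autoImplicit false

open MeasureTheory Module Set Filter Topology

namespace Pool.Agent.LRW

open Pool.H45.Mather Pool.Agent.LRT

variable {n : ℕ} {E : Type*} [NormedAddCommGroup E] [InnerProductSpace ℝ E]

/-- Hamiltonians which are convex and superlinear in `p`; `Hp` is the gradient with respect to `p` -/
structure HamT (b : Basis (Fin n) ℝ E) (H : E × E → ℝ) (Hp : E × E → E) : Prop where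
  cont : Continuous H
  contp : Continuous Hp
  per : ∀ p, Per b (fun x => H (x, p))
  low : ∀ x p q, H (x, p) + inner ℝ (Hp (x, p)) q ≤ H (x, p + q)
  sup : ∀ A : ℝ, ∃ B : ℝ, ∀ x p, A * ‖p‖ - B ≤ H (x, p)

end Pool.Agent.LRW
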