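import Pool.Agent.LRW.TC

/-!
TE (difficulty 3).  A Tonelli Hamiltonian and any other one which agrees with it on a large ball have the same beta function on a given ball.

PROOF.  Let `C₀` bound `|H (x, 0)|` (continuous and periodic: `Per.bdd`).  `sup (r₀ + 3)`: `(r₀ + 3) ‖p‖ - B ≤ H (x, p)`.
(i) For `‖v‖ ≤ r₀ + 1`, `HamT.max` for `H` gives `p` with `Hp (x, p) = v`, `Leg H (x, v) = ⟪p, v⟫ - H (x, p)`; from `Leg H (x, v) ≥ - H (x, 0)`:
`-C₀ ≤ ‖p‖ (r₀ + 1) - (r₀ + 3) ‖p‖ + B`, so `‖p‖ ≤ B + C₀ =: R₂`.  If `R ≥ R₂`: `Hp' (x, p) = v`, so `Leg H' (x, v) = ⟪p, v⟫ - H' (x, p) = Leg H (x, v)` (`HamT.leg_at`).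
So `Leg H = Leg H'` on `‖v‖ ≤ r₀ + 1`; let `M` be a bound of `|Leg H|` there (`TonL.bound`): `β h ≤ M`, `β' h ≤ M` for `‖h‖ ≤ r₀ + 1`: test with the closed
measure `lam b ⊗ δ_h` (see `exists_closed` in LRT/VB.lean; in H45/MatherBeta.lean: `tm b (fun _ => 1) h`, `tm_closed`, `hom_tm`, `integral_tm`) and `betaL_le`.
(ii) `Leg H (x, v) ≥ - H (x, 0) ≥ -C₀`, the same for `H'` (`H' (x, 0) = H (x, 0)` if `R ≥ 0`): `m = -C₀` (`le_betaL`).
(iii) Put `A = r₀ (M - m) - m + 1` and choose `R₁ ≥ max R₂ 1` such that `H (x, p) ≥ max A C₀ + 2` for `‖p‖ ≥ R₁` (from `sup 1`: `‖p‖ - B₁ ≤ H`).  Let `R ≥ R₁`.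
For `‖p‖ ≥ R`, `e = (R/‖p‖) p` has norm `R`, `H' (x, e) = H (x, e) ≥ max A C₀ + 2`, and convexity of `H' (x, ·)` on the segment from `0` to `p`
(from `low` at `e` in the directions `p - e` and `-e`: `H' (x,e) + ⟪Hp', p - e⟫ ≤ H' (x,p)`, `H' (x,e) - ⟪Hp', e⟫ ≤ H' (x,0)`; `p - e = s e` with `s = ‖p‖/R - 1 ≥ 0`)
gives `H' (x, p) ≥ H' (x, e) + s (H' (x, e) - H' (x, 0)) ≥ H' (x, e) > A`.
Apply `beta_trunc`.
-/

set_option autoImplicit false

open MeasureTheory Module Set Filter Topology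

namespace Pool.Agent.LRW

open Pool.H45.Mather Pool.Agent.LRT

variable {n : ℕ} {E : Type*} [NormedAddCommGroup E] [InnerProductSpace ℝ E] [FiniteDimensional ℝ E]
  [MeasurableSpace E] [BorelSpace E] {b : Basis (Fin n) ℝ E}

variable {H : E × E → ℝ} {Hp : E × E → E}

theorem te_beta_le {L : E × E → ℝ} (hL : TonL b L) {v : E} {M : ℝ} (hM : ∀ x, L (x, v) ≤ M) :
    betaL b L v ≤ M := by
  have h1 : ∫ _ : E, (1 : ℝ) ∂(lam b) = 1 := by simp
  have hc : IsClosedMeasure b (tm b (fun _ => 1) v) :=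
    tm_closed continuous_const (Per.const _) (fun _ => zero_le_one) h1 (fun _ _ => rfl)
  have h2 := betaL_le hL hc
  rw [hom_tm continuous_const (fun _ => zero_le_one) h1 v] at h2
  refine h2.trans ?_
  rw [integral_tm continuous_const (fun _ => zero_le_one) v hL.cont]
  have h3 : ∫ x, (1 : ℝ) • L (x, v) ∂(lam b) ≤ ∫ _ : E, M ∂(lam b) := by
    refine integral_mono ?_ ?_ fun x => ?_
    · have : Integrable (fun x => L (x, v)) (lam b) :=
        (hL.per v).integrable (hL.cont.comp (by fun_prop))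
      simpa using this
    · exact (Per.const M).integrable continuous_const
    · simpa using hM x
  refine h3.trans ?_
  simp

theorem te_le_beta {L : E × E → ℝ} (hL : TonL b L) {m : ℝ} (hm : ∀ z, m ≤ L z) (h : E) :
    m ≤ betaL b L h := by
  refine le_betaL fun μ hμ _ => ?_
  haveI := hμ.prob
  have : ∫ _ : E × E, m ∂μ ≤ ∫ z, L z ∂μ :=
    integral_mono (integrable_const _) (hL.int hμ) hm
  simpa using this

omit [FiniteDimensional ℝ E] [MeasurableSpace E] [BorelSpace E] in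
theorem te_leg_lower (hH : HamT b H Hp) (x v : E) : -H (x, 0) ≤ Leg H (x, v) := by
  have := hH.fenchel x v 0
  rw [inner_zero_left] at this
  linarith

omit [FiniteDimensional ℝ E] [MeasurableSpace E] [BorelSpace E] in
/-- a convex function which is larger at a point of the segment than at zero is still larger at the end -/
theorem te_conv (hH : HamT b H Hp) {x e : E} {s : ℝ} (hs : 0 ≤ s) (h0 : H (x, 0) ≤ H (x, e)) :
    H (x, e) ≤ H (x, e + s • e) := by
  have h1 := hH.low x e (s • e)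
  have h2 := hH.low x e (-e)
  rw [inner_smul_right] at h1
  rw [inner_neg_right, add_neg_cancel] at h2
  have h3 : 0 ≤ inner ℝ (Hp (x, e)) e := by linarith
  have h4 := mul_nonneg hs h3
  linarith

/-- uniform version: `R₁` depends only on `r₀`, the superlinearity function `Bf` and a bound `C₀` of `|H (x, 0)|` -/
theorem beta_local_unif (b : Basis (Fin n) ℝ E) (Bf : ℝ → ℝ) {C₀ r₀ : ℝ} (hr₀ : 0 ≤ r₀) :
    ∃ R₁ : ℝ, 0 < R₁ ∧ ∀ (H : E × E → ℝ) (Hp : E × E → E), HamT b H Hp →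
    (∀ A x p, A * ‖p‖ - Bf A ≤ H (x, p)) → (∀ x, |H (x, 0)| ≤ C₀) → ∀ R : ℝ, R₁ ≤ R →
    ∀ (H' : E × E → ℝ) (Hp' : E × E → E), HamT b H' Hp' →
    (∀ x p, ‖p‖ ≤ R → H' (x, p) = H (x, p) ∧ Hp' (x, p) = Hp (x, p)) →
    ∀ h, ‖h‖ ≤ r₀ → betaL b (Leg H') h = betaL b (Leg H) h := by
  set B := Bf (r₀ + 3) with hBd
  set B₁ := Bf 1 with hB₁d
  set M := Bf (r₀ + 1) with hMd
  set m : ℝ := -C₀ with hm
  set A : ℝ := r₀ * (M - m) - m + 1 with hA
  refine ⟨max (|B| + C₀) (max 1 (B₁ + max A C₀ + 2)), ?_, ?_⟩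
  · exact lt_of_lt_of_le zero_lt_one ((le_max_left _ _).trans (le_max_right _ _))
  intro H Hp hH hBf hC R hR H' Hp' hH' heq h hh
  have hCl : ∀ x, -C₀ ≤ H (x, 0) ∧ H (x, 0) ≤ C₀ := fun x => abs_le.1 (hC x)
  have hB : ∀ x p, (r₀ + 3) * ‖p‖ - B ≤ H (x, p) := fun x p => hBf _ x p
  have hB₁ : ∀ x p, 1 * ‖p‖ - B₁ ≤ H (x, p) := fun x p => hBf _ x p
  have hT := hH.tonL
  have hMb : ∀ x v, ‖v‖ ≤ r₀ + 1 → Leg H (x, v) ≤ M := by
    intro x v hv
    obtain ⟨p, -, hp2⟩ := hH.max x v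
    have h2 := real_inner_le_norm p v
    have h3 := mul_le_mul_of_nonneg_left hv (norm_nonneg p)
    have h4 := hBf (r₀ + 1) x p
    rw [hp2]
    nlinarith
  have hR2 : |B| + C₀ ≤ R := (le_max_left _ _).trans hR
  have hR3 : 1 ≤ R := ((le_max_left _ _).trans (le_max_right _ _)).trans hR
  have hR4 : B₁ + max A C₀ + 2 ≤ R := ((le_max_right _ _).trans (le_max_right _ _)).trans hR
  have hR0 : 0 < R := lt_of_lt_of_le zero_lt_one hR3
  have hT' := hH'.tonL
  -- the two Legendre transforms agree on the ball of radius `r₀ + 1`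
  have hleg : ∀ x v, ‖v‖ ≤ r₀ + 1 → Leg H' (x, v) = Leg H (x, v) := by
    intro x v hv
    obtain ⟨p, hp1, hp2⟩ := hH.max x v
    have h1 := te_leg_lower hH x v
    have h2 := real_inner_le_norm p v
    have h3 := mul_le_mul_of_nonneg_left hv (norm_nonneg p)
    have h4 := hB x p
    have h5 := (hCl x).2
    have hpR : ‖p‖ ≤ R := by
      have h6 := le_abs_self B
      have h7 := norm_nonneg p
      nlinarith
    obtain ⟨e1, e2⟩ := heq x p hpR
    have h8 := hH'.leg_at x p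
    rw [e2, e1, hp1] at h8
    rw [h8, hp2]
  have hzero : ∀ x, H' (x, 0) = H (x, 0) := fun x => (heq x 0 (by rw [norm_zero]; exact hR0.le)).1
  refine beta_trunc (R := R) (A := A) (r₀ := r₀) (M := M) (m := m) hH hH' hr₀
    (fun x p hp => (heq x p hp).1) ?_ ?_ ?_ ?_ ?_ ?_ ?_ hh
  · intro x p hp
    have h1 := hB₁ x p
    have h2 := le_max_left A C₀
    linarith
  · intro x p hp
    have hp0 : 0 < ‖p‖ := lt_of_lt_of_le hR0 hp
    set e : E := (R / ‖p‖) • p with he
    have hen : ‖e‖ = R := by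
      rw [he, norm_smul, Real.norm_of_nonneg (by positivity)]
      field_simp
    have h1 := hB₁ x e
    have h2 := le_max_left A C₀
    have h3 := le_max_right A C₀
    have h4 := (hCl x).2
    have h5 : H' (x, e) = H (x, e) := (heq x e hen.le).1
    have h6 : H' (x, 0) ≤ H' (x, e) := by rw [hzero, h5]; linarith
    have h7 := te_conv hH' (x := x) (e := e) (s := ‖p‖ / R - 1)
      (by rw [sub_nonneg, le_div_iff₀ hR0]; linarith) h6
    have h8 : e + (‖p‖ / R - 1) • e = p := by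
      rw [sub_smul, one_smul, add_sub_cancel, he, smul_smul]
      have : ‖p‖ / R * (R / ‖p‖) = 1 := by field_simp
      rw [this, one_smul]
    rw [h8, h5] at h7
    linarith
  · intro v hv
    exact te_beta_le hT fun x => hMb x v hv
  · intro v hv
    refine te_beta_le hT' fun x => ?_
    rw [hleg x v hv]
    exact hMb x v hv
  · intro v
    refine te_le_beta hT (fun z => ?_) v
    have h1 := te_leg_lower hH z.1 z.2
    have h2 := (hCl z.1).2
    have h3 : Leg H (z.1, z.2) = Leg H z := rfl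
    linarith
  · intro v
    refine te_le_beta hT' (fun z => ?_) v
    have h1 := te_leg_lower hH' z.1 z.2
    have h2 := (hCl z.1).2
    rw [hzero] at h1
    have h3 : Leg H' (z.1, z.2) = Leg H' z := rfl
    linarith
  · linarith

end Pool.Agent.LRW
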