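import Pool.Agent.LRW.TF1

set_option autoImplicit false

open MeasureTheory Module Set Filter Topology

namespace Pool.Agent.LRW

open Pool.H45.Mather Pool.Agent.LRT

variable {E : Type*} [NormedAddCommGroup E] [InnerProductSpace ℝ E] [FiniteDimensional ℝ E]

omit [FiniteDimensional ℝ E] in
theorem exists_cut {R : ℝ} (hR : 0 ≤ R) : ∃ (χ : E → ℝ), ContDiff ℝ 2 χ ∧
    (∀ p, ‖p‖ ≤ R + 1 → χ p = 1) ∧ (∀ p, R + 2 ≤ ‖p‖ → χ p = 0) ∧ ∀ p, 0 ≤ χ p ∧ χ p ≤ 1 := by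
  refine ⟨fun p => Real.smoothTransition (((R + 2) ^ 2 - ‖p‖ ^ 2) / (2 * R + 3)), ?_, fun p hp => ?_, fun p hp => ?_,
    fun p => ⟨Real.smoothTransition.nonneg _, Real.smoothTransition.le_one _⟩⟩
  · have h1 : ContDiff ℝ 2 Real.smoothTransition := Real.smoothTransition.contDiff (n := 2)
    exact h1.comp ((contDiff_const.sub (contDiff_norm_sq ℝ)).div_const _)
  · refine Real.smoothTransition.one_of_one_le ?_
    rw [le_div_iff₀ (by linarith)]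
    nlinarith [norm_nonneg p]
  · refine Real.smoothTransition.zero_of_nonpos ?_
    refine div_nonpos_of_nonpos_of_nonneg ?_ (by linarith)
    nlinarith [norm_nonneg p]

lemma tf2_S' : (∀ t, 0 ≤ deriv Real.smoothTransition t) ∧
    (∀ t, 1 < t → deriv Real.smoothTransition t = 0) ∧
    (∀ t, t < 0 → deriv Real.smoothTransition t = 0) ∧
    ∃ C : ℝ, 0 ≤ C ∧ ∀ t, deriv Real.smoothTransition t ≤ C := by
  have h1 : ContDiff ℝ 1 Real.smoothTransition := Real.smoothTransition.contDiff (n := 1)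
  have hc : Continuous (deriv Real.smoothTransition) := h1.continuous_deriv le_rfl
  have e1 : ∀ t, 1 < t → deriv Real.smoothTransition t = 0 := by
    intro t ht
    have : Real.smoothTransition =ᶠ[𝓝 t] fun _ => (1 : ℝ) := by
      filter_upwards [lt_mem_nhds ht] with y hy
      exact Real.smoothTransition.one_of_one_le hy.le
    rw [this.deriv_eq]
    simp
  have e2 : ∀ t, t < 0 → deriv Real.smoothTransition t = 0 := by
    intro t ht
    have : Real.smoothTransition =ᶠ[𝓝 t] fun _ => (0 : ℝ) := by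
      filter_upwards [gt_mem_nhds ht] with y hy
      exact Real.smoothTransition.zero_of_nonpos hy.le
    rw [this.deriv_eq]
    simp
  refine ⟨fun t => Real.smoothTransition.monotone.deriv_nonneg, e1, e2, ?_⟩
  obtain ⟨C, hC⟩ := (isCompact_Icc (a := (0 : ℝ)) (b := 1)).exists_bound_of_continuousOn hc.continuousOn
  refine ⟨max C 0, le_max_right _ _, fun t => ?_⟩
  rcases lt_or_ge t 0 with h | h
  · rw [e2 t h]; exact le_max_right _ _
  · rcases lt_or_ge 1 t with h' | h'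
    · rw [e1 t h']; exact le_max_right _ _
    · exact ((le_abs_self _).trans (hC t ⟨h, h'⟩)).trans (le_max_left _ _)

omit [FiniteDimensional ℝ E] in
theorem exists_conv {R : ℝ} (hR : 0 ≤ R) : ∃ (g : E → ℝ) (C : ℝ), 0 < C ∧ ContDiff ℝ 2 g ∧
    (∀ p, ‖p‖ ≤ R → g p = 0) ∧
    (∀ p v, 0 ≤ fderiv ℝ (fderiv ℝ g) p v v ∧ fderiv ℝ (fderiv ℝ g) p v v ≤ C * ‖v‖ ^ 2) ∧
    ∀ p v, R + 1 ≤ ‖p‖ → 2 * ‖v‖ ^ 2 ≤ fderiv ℝ (fderiv ℝ g) p v v := by
  obtain ⟨hS0, hS1, hS2, C₁, hC₁, hSC⟩ := tf2_S'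
  set S : ℝ → ℝ := Real.smoothTransition with hS
  have hSd : ContDiff ℝ 2 S := Real.smoothTransition.contDiff (n := 2)
  have hSc : Continuous fun τ : ℝ => S (τ - R ^ 2) := hSd.continuous.comp (by fun_prop)
  set G : ℝ → ℝ := fun t => ∫ τ in (0 : ℝ)..t, S (τ - R ^ 2) with hG
  have hGd : ∀ t, HasDerivAt G (S (t - R ^ 2)) t := fun t =>
    intervalIntegral.integral_hasDerivAt_right (hSc.intervalIntegrable _ _)
      (hSc.stronglyMeasurableAtFilter _ _) hSc.continuousAt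
  have hG0 : ∀ t, 0 ≤ t → t ≤ R ^ 2 → G t = 0 := by
    intro t h0 h1
    have : ∀ τ ∈ uIcc (0 : ℝ) t, S (τ - R ^ 2) = 0 := by
      intro τ hτ
      rw [uIcc_of_le h0] at hτ
      exact Real.smoothTransition.zero_of_nonpos (by linarith [hτ.2])
    simp only [hG]
    rw [intervalIntegral.integral_congr this]
    simp
  have d1 : ∀ p : E, HasFDerivAt (fun p : E => ‖p‖ ^ 2) ((2 : ℝ) • innerSL ℝ p) p := by
    intro p
    have := (hasStrictFDerivAt_norm_sq p).hasFDerivAt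
    simpa [two_smul] using this
  have d2 : ∀ p : E, HasFDerivAt (fun p : E => G (‖p‖ ^ 2)) ((2 * S (‖p‖ ^ 2 - R ^ 2)) • innerSL ℝ p) p := by
    intro p
    have := (hGd (‖p‖ ^ 2)).comp_hasFDerivAt p (d1 p)
    rw [smul_smul] at this
    rw [mul_comm]
    exact this
  have e2 : fderiv ℝ (fun p : E => G (‖p‖ ^ 2)) = fun p => (2 * S (‖p‖ ^ 2 - R ^ 2)) • innerSL ℝ p :=
    funext fun p => (d2 p).fderiv
  have d3 : ∀ p : E, HasFDerivAt (fun p : E => 2 * S (‖p‖ ^ 2 - R ^ 2))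
      ((2 * (deriv S (‖p‖ ^ 2 - R ^ 2) * 2)) • innerSL ℝ p) p := by
    intro p
    have h1 : HasDerivAt S (deriv S (‖p‖ ^ 2 - R ^ 2)) (‖p‖ ^ 2 - R ^ 2) :=
      (hSd.differentiable (by norm_num) _).hasDerivAt
    have h2 := h1.comp_hasFDerivAt p ((d1 p).sub_const (R ^ 2))
    have h3 := h2.const_mul 2
    rw [smul_smul, smul_smul, mul_assoc] at h3
    exact h3
  have d4 : ∀ p v w : E, fderiv ℝ (fderiv ℝ (fun p : E => G (‖p‖ ^ 2))) p v w =
      4 * deriv S (‖p‖ ^ 2 - R ^ 2) * inner ℝ p v * inner ℝ p w + 2 * S (‖p‖ ^ 2 - R ^ 2) * inner ℝ v w := by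
    intro p v w
    rw [e2]
    have h1 := (d3 p).smul (innerSL ℝ : E →L[ℝ] E →L[ℝ] ℝ).hasFDerivAt
    have h2 : fderiv ℝ (fun p : E => (2 * S (‖p‖ ^ 2 - R ^ 2)) • innerSL ℝ p) p = _ := h1.fderiv
    rw [h2]
    change (2 * S (‖p‖ ^ 2 - R ^ 2)) * inner ℝ v w +
      ((2 * (deriv S (‖p‖ ^ 2 - R ^ 2) * 2)) * inner ℝ p v) * inner ℝ p w = _
    ring
  have hg2 : ContDiff ℝ 2 (fun p : E => G (‖p‖ ^ 2)) := by
    have : ContDiff ℝ 2 G := by
      have e : deriv G = fun t => S (t - R ^ 2) := funext fun t => (hGd t).deriv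
      rw [show (2 : WithTop ℕ∞) = 1 + 1 by norm_num, contDiff_succ_iff_deriv]
      refine ⟨fun t => (hGd t).differentiableAt, by simp, ?_⟩
      rw [e]
      exact (hSd.of_le (by norm_num)).comp (by fun_prop)
    exact this.comp (contDiff_norm_sq ℝ)
  have hSn : ∀ t, 0 ≤ S t ∧ S t ≤ 1 := fun t => ⟨Real.smoothTransition.nonneg _, Real.smoothTransition.le_one _⟩
  refine ⟨fun p => G (‖p‖ ^ 2), 4 * C₁ * (R ^ 2 + 1) + 2, by positivity, hg2, fun p hp => ?_, fun p v => ?_,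
    fun p v hp => ?_⟩
  · refine hG0 _ (by positivity) ?_
    exact pow_le_pow_left₀ (norm_nonneg _) hp 2
  · rw [d4, real_inner_self_eq_norm_sq]
    have h1 := hS0 (‖p‖ ^ 2 - R ^ 2)
    have h2 := hSn (‖p‖ ^ 2 - R ^ 2)
    have h3 : 0 ≤ ‖v‖ ^ 2 := by positivity
    have h4 : 4 * deriv S (‖p‖ ^ 2 - R ^ 2) * inner ℝ p v * inner ℝ p v =
        4 * (deriv S (‖p‖ ^ 2 - R ^ 2) * (inner ℝ p v) ^ 2) := by ring
    rw [h4]
    have h5 : 0 ≤ deriv S (‖p‖ ^ 2 - R ^ 2) * (inner ℝ p v) ^ 2 := mul_nonneg h1 (sq_nonneg _)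
    have h6 : 0 ≤ S (‖p‖ ^ 2 - R ^ 2) * ‖v‖ ^ 2 := mul_nonneg h2.1 h3
    have h7 : S (‖p‖ ^ 2 - R ^ 2) * ‖v‖ ^ 2 ≤ 1 * ‖v‖ ^ 2 := mul_le_mul_of_nonneg_right h2.2 h3
    refine ⟨by linarith, ?_⟩
    have h8 : deriv S (‖p‖ ^ 2 - R ^ 2) * (inner ℝ p v) ^ 2 ≤ C₁ * (R ^ 2 + 1) * ‖v‖ ^ 2 := by
      rcases lt_or_ge 1 (‖p‖ ^ 2 - R ^ 2) with hp | hp
      · rw [hS1 _ hp, zero_mul]
        positivity
      · have h9 : (inner ℝ p v) ^ 2 ≤ ‖p‖ ^ 2 * ‖v‖ ^ 2 := by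
          rw [← mul_pow, ← sq_abs (inner ℝ p v)]
          exact pow_le_pow_left₀ (abs_nonneg _) (abs_real_inner_le_norm p v) 2
        have h10 : (inner ℝ p v) ^ 2 ≤ (R ^ 2 + 1) * ‖v‖ ^ 2 :=
          h9.trans (mul_le_mul_of_nonneg_right (by linarith) h3)
        calc _ ≤ C₁ * ((R ^ 2 + 1) * ‖v‖ ^ 2) := mul_le_mul (hSC _) h10 (sq_nonneg _) hC₁
          _ = _ := by ring
    linarith
  · rw [d4, real_inner_self_eq_norm_sq]
    have h1 := hS0 (‖p‖ ^ 2 - R ^ 2)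
    have h3 : S (‖p‖ ^ 2 - R ^ 2) = 1 := Real.smoothTransition.one_of_one_le (by nlinarith)
    have h4 : 4 * deriv S (‖p‖ ^ 2 - R ^ 2) * inner ℝ p v * inner ℝ p v =
        4 * (deriv S (‖p‖ ^ 2 - R ^ 2) * (inner ℝ p v) ^ 2) := by ring
    rw [h4, h3]
    have h5 : 0 ≤ deriv S (‖p‖ ^ 2 - R ^ 2) * (inner ℝ p v) ^ 2 := mul_nonneg h1 (sq_nonneg _)
    linarith

end Pool.Agent.LRW
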