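import Pool.Agent.LRW.TF2

/-!
TF3 (difficulty 3).  Truncation of a Hamiltonian to a uniformly convex one.

PROOF.  `χ, g, C_g` from TF2.  `χ` and its first two derivatives are bounded by some `C_χ ≥ 1` (compact support: `fderiv`, `fderiv (fderiv)` are continuous and
vanish for `‖p‖ > R + 2`; on the compact ball they are bounded).  `H' (x, p) = χ p * H (x, p) + K * g p`.
Second derivative in `p` in the direction `v, v` (product rule for `C²` functions of `q`):
`χ'' (v,v) H + 2 χ' (v) H_p (v) + χ H_pp (v,v) + K g'' (v,v)`.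
For `‖p‖ < R + 1`: `χ = 1` near `p` (so `χ' = χ'' = 0`): `≥ lam ‖v‖²`; the same at `‖p‖ = R+1` by continuity, or simply use the next case there:
for `R + 1 ≤ ‖p‖ ≤ R + 2`: `≥ -(4 C_χ C) ‖v‖² + 2 K ‖v‖²`; for `R + 2 < ‖p‖`: `= K g'' ≥ 2 K ‖v‖²` (`χ = 0` near `p`).  `K = 2 C_χ C + 1` gives `≥ min lam 2 ‖v‖²`.
Upper bound `≤ (4 C_χ C + K C_g) ‖v‖²` everywhere.  `La` := max of `1`, `1/(2 min lam 2)`, half of the upper constant.  `hamK_of_hess`.
`H' = H` for `‖p‖ ≤ R` (in fact near such `p` for `‖p‖ < R`); the gradient in `p` at `‖p‖ ≤ R`: `fderiv` of `χ H + K g` is `fderiv H` because `χ = 1` near `p`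
(`‖p‖ ≤ R < R + 1`) and `fderiv ℝ g p = 0`: `g = 0` on the closed ball, for `‖p‖ < R` clear, for `‖p‖ = R`: `g ≥ 0` is convex with `g p = 0`, hence a minimum
(`line_taylor` with `m = 0` from the point `0`: `g (0) + fderiv g 0 q ≤ g q`, `fderiv g 0 = 0`) so `fderiv ℝ g p = 0` (`IsLocalMin.fderiv_eq_zero`); for `R = 0`
apply the statement with `R + 1` in place of `R` (simplest: use `exists_cut`, `exists_conv` for `R + 1` and prove agreement on `‖p‖ ≤ R < R + 1`; then the bounds are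
needed for `‖p‖ ≤ R + 3`: this is how the hypotheses are stated).
-/

set_option autoImplicit false

open MeasureTheory Module Set Filter Topology

namespace Pool.Agent.LRW

open Pool.H45.Mather Pool.Agent.LRT

variable {n : ℕ} {E : Type*} [NormedAddCommGroup E] [InnerProductSpace ℝ E] [FiniteDimensional ℝ E]
  [CompleteSpace E] {b : Basis (Fin n) ℝ E}

omit [FiniteDimensional ℝ E] [CompleteSpace E] in
theorem TF3_hess {χ F g : E → ℝ} (hχ : ContDiff ℝ 2 χ) (hF : ContDiff ℝ 2 F) (hg : ContDiff ℝ 2 g)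
    (K : ℝ) (p v : E) :
    fderiv ℝ (fderiv ℝ (fun q => χ q * F q + K * g q)) p v v =
      fderiv ℝ (fderiv ℝ χ) p v v * F p + 2 * (fderiv ℝ χ p v * fderiv ℝ F p v) +
        χ p * fderiv ℝ (fderiv ℝ F) p v v + K * fderiv ℝ (fderiv ℝ g) p v v := by
  have dχ : ∀ q, DifferentiableAt ℝ χ q := fun q => (hχ.differentiable (by norm_num)) q
  have dF : ∀ q, DifferentiableAt ℝ F q := fun q => (hF.differentiable (by norm_num)) q
  have dg : ∀ q, DifferentiableAt ℝ g q := fun q => (hg.differentiable (by norm_num)) q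
  have h1 : fderiv ℝ (fun q => χ q * F q + K * g q) =
      fun q => (χ q • fderiv ℝ F q + F q • fderiv ℝ χ q) + K • fderiv ℝ g q := by
    funext q
    exact (((dχ q).hasFDerivAt.mul (dF q).hasFDerivAt).add ((dg q).hasFDerivAt.const_mul K)).fderiv
  have d2χ : DifferentiableAt ℝ (fderiv ℝ χ) p :=
    ((hχ.fderiv_right (m := 1) (by norm_num)).differentiable (by norm_num)) p
  have d2F : DifferentiableAt ℝ (fderiv ℝ F) p :=
    ((hF.fderiv_right (m := 1) (by norm_num)).differentiable (by norm_num)) p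
  have d2g : DifferentiableAt ℝ (fderiv ℝ g) p :=
    ((hg.fderiv_right (m := 1) (by norm_num)).differentiable (by norm_num)) p
  have h2 := (((dχ p).hasFDerivAt.smul d2F.hasFDerivAt).add ((dF p).hasFDerivAt.smul d2χ.hasFDerivAt)).add
    (d2g.hasFDerivAt.const_smul K)
  rw [h1]
  have h3 := h2.fderiv
  have h4 : fderiv ℝ (fun q => (χ q • fderiv ℝ F q + F q • fderiv ℝ χ q) + K • fderiv ℝ g q) p = _ := h3
  rw [h4]
  simp only [_root_.add_apply, _root_.smul_apply,
    ContinuousLinearMap.smulRight_apply, smul_eq_mul]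
  ring

omit [FiniteDimensional ℝ E] [CompleteSpace E] in
theorem TF3_op {L : E →L[ℝ] E →L[ℝ] ℝ} {C : ℝ} (hL : ‖L‖ ≤ C) (v : E) : |L v v| ≤ C * ‖v‖ ^ 2 := by
  have h1 : ‖L v v‖ ≤ ‖L‖ * ‖v‖ * ‖v‖ := L.le_opNorm₂ v v
  rw [Real.norm_eq_abs] at h1
  nlinarith [norm_nonneg v, mul_nonneg (norm_nonneg v) (norm_nonneg v)]

omit [FiniteDimensional ℝ E] [CompleteSpace E] in
theorem TF3_op1 {L : E →L[ℝ] ℝ} {C : ℝ} (hL : ‖L‖ ≤ C) (v : E) : |L v| ≤ C * ‖v‖ := by
  have h1 : ‖L v‖ ≤ ‖L‖ * ‖v‖ := L.le_opNorm v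
  rw [Real.norm_eq_abs] at h1
  nlinarith [norm_nonneg v]

theorem exists_HR (b : Basis (Fin n) ℝ E) {R lam C : ℝ} (hR : 0 ≤ R) (hlam : 0 < lam) (hC : 0 < C) :
    ∃ La : ℝ, 1 ≤ La ∧
    ∀ H : E × E → ℝ, ContDiff ℝ 2 H → (∀ p, Per b (fun x => H (x, p))) →
    (∀ x p v, ‖p‖ ≤ R + 3 → lam * ‖v‖ ^ 2 ≤ fderiv ℝ (fderiv ℝ (fun q => H (x, q))) p v v) →
    (∀ x p, ‖p‖ ≤ R + 3 → |H (x, p)| ≤ C ∧ ‖fderiv ℝ (fun q => H (x, q)) p‖ ≤ C ∧
      ‖fderiv ℝ (fderiv ℝ (fun q => H (x, q))) p‖ ≤ C) →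
    ∃ (H' : E × E → ℝ) (Hp' : E × E → E), ContDiff ℝ 2 H' ∧ HamK La b H' Hp' ∧
      ∀ x p, ‖p‖ ≤ R → H' (x, p) = H (x, p) ∧ Hp' (x, p) = gradient (fun q => H (x, q)) p := by
  obtain ⟨χ, hχ, hχ1, hχ0, hχb⟩ := exists_cut (E := E) (R := R + 1) (by linarith)
  obtain ⟨g, Cg, hCg, hg, hg0, hgb, hg2⟩ := exists_conv (E := E) (R := R + 1) (by linarith)
  have hcpt : IsCompact (Metric.closedBall (0 : E) (R + 3)) := isCompact_closedBall 0 (R + 3)
  have hc1 : Continuous (fderiv ℝ χ) := hχ.continuous_fderiv (by norm_num)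
  have hc2 : Continuous (fun p => ‖fderiv ℝ (fderiv ℝ χ) p‖) := by
    have h0 : ContDiff ℝ 0 (fderiv ℝ (fderiv ℝ χ)) :=
      (hχ.fderiv_right (m := 1) (by norm_num)).fderiv_right (m := 0) (by norm_num)
    exact (continuous_norm (E := E →L[ℝ] E →L[ℝ] ℝ)).comp h0.continuous
  obtain ⟨A1, hA1⟩ := hcpt.exists_bound_of_continuousOn hc1.continuousOn
  obtain ⟨A2, hA2⟩ : ∃ A2 : ℝ, ∀ p ∈ Metric.closedBall (0 : E) (R + 3), ‖fderiv ℝ (fderiv ℝ χ) p‖ ≤ A2 := by
    obtain ⟨B, hB⟩ := hcpt.exists_bound_of_continuousOn (f := fun p => ‖fderiv ℝ (fderiv ℝ χ) p‖)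
      hc2.continuousOn
    exact ⟨B, fun p hp => by
      have h0 := hB p hp
      rw [Real.norm_eq_abs] at h0
      exact (le_abs_self _).trans h0⟩
  set A : ℝ := max 1 (max A1 A2) with hA
  have hA1' : (1 : ℝ) ≤ A := le_max_left _ _
  have hB1 : ∀ p : E, ‖p‖ ≤ R + 3 → ‖fderiv ℝ χ p‖ ≤ A := fun p hp =>
    (hA1 p (by simpa using hp)).trans ((le_max_left _ _).trans (le_max_right _ _))
  have hB2 : ∀ p : E, ‖p‖ ≤ R + 3 → ‖fderiv ℝ (fderiv ℝ χ) p‖ ≤ A := fun p hp =>
    (hA2 p (by simpa using hp)).trans ((le_max_right _ _).trans (le_max_right _ _))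
  set K : ℝ := 2 * A * C + 1 with hK
  have hAC : 0 < A * C := mul_pos (by linarith) hC
  have hK1 : 1 ≤ K := by rw [hK]; nlinarith
  set M : ℝ := 4 * A * C + K * Cg with hM
  set m : ℝ := min lam 2 with hm
  have hm0 : 0 < m := lt_min hlam (by norm_num)
  have hmlam : m ≤ lam := min_le_left _ _
  have hm2 : m ≤ 2 := min_le_right _ _
  refine ⟨max 1 (max (1 / (2 * m)) (M / 2)), le_max_left _ _, ?_⟩
  set La : ℝ := max 1 (max (1 / (2 * m)) (M / 2)) with hLa
  have hLa1 : (1 : ℝ) ≤ La := le_max_left _ _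
  have hLam : 1 / (2 * m) ≤ La := (le_max_left _ _).trans (le_max_right _ _)
  have hLaM : M / 2 ≤ La := (le_max_right _ _).trans (le_max_right _ _)
  intro H hH hper hlow hbd
  have hH' : ContDiff ℝ 2 (fun z : E × E => χ z.2 * H z + K * g z.2) :=
    ((hχ.comp contDiff_snd).mul hH).add (contDiff_const.mul (hg.comp contDiff_snd))
  have hsec : ∀ x : E, ContDiff ℝ 2 (fun q => H (x, q)) := fun x =>
    hH.comp (contDiff_const.prodMk contDiff_id)
  have key : ∀ x p v, m * ‖v‖ ^ 2 ≤ fderiv ℝ (fderiv ℝ (fun q => χ q * H (x, q) + K * g q)) p v v ∧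
      fderiv ℝ (fderiv ℝ (fun q => χ q * H (x, q) + K * g q)) p v v ≤ M * ‖v‖ ^ 2 := by
    intro x p v
    rw [TF3_hess hχ (hsec x) hg K p v]
    have hv : 0 ≤ ‖v‖ ^ 2 := by positivity
    have hgv := hgb p v
    have hKg : K * fderiv ℝ (fderiv ℝ g) p v v ≤ K * Cg * ‖v‖ ^ 2 := by
      have := mul_le_mul_of_nonneg_left hgv.2 (by linarith : (0 : ℝ) ≤ K)
      linarith
    have hKg0 : 0 ≤ K * fderiv ℝ (fderiv ℝ g) p v v := mul_nonneg (by linarith) hgv.1
    rcases lt_or_ge ‖p‖ (R + 2) with hp | hp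
    · -- χ = 1 near p
      have hnear : ∀ᶠ q in 𝓝 p, χ q = 1 := by
        have : ∀ᶠ q in 𝓝 p, ‖q‖ < R + 2 := (continuous_norm.tendsto p).eventually (gt_mem_nhds hp)
        filter_upwards [this] with q hq
        exact hχ1 q (by linarith)
      have e1 : ∀ᶠ q in 𝓝 p, fderiv ℝ χ q = 0 := by
        filter_upwards [hnear.eventually_nhds] with q hq
        have : χ =ᶠ[𝓝 q] fun _ => (1 : ℝ) := hq
        rw [this.fderiv_eq]
        simp
      have e2 : fderiv ℝ (fderiv ℝ χ) p = 0 := by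
        have : fderiv ℝ χ =ᶠ[𝓝 p] fun _ => (0 : E →L[ℝ] ℝ) := e1
        rw [this.fderiv_eq]
        simp
      have e3 : fderiv ℝ χ p = 0 := e1.self_of_nhds
      have e4 : χ p = 1 := hnear.self_of_nhds
      have hp3 : ‖p‖ ≤ R + 3 := by linarith
      have h5 := hlow x p v hp3
      have h6 := TF3_op (hbd x p hp3).2.2 v
      have h7 := le_abs_self (fderiv ℝ (fderiv ℝ (fun q => H (x, q))) p v v)
      rw [e2, e3, e4]
      simp only [_root_.zero_apply, zero_mul, mul_zero, zero_add, one_mul]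
      constructor
      · have := mul_le_mul_of_nonneg_right hmlam hv
        linarith
      · rw [hM]
        have : C * ‖v‖ ^ 2 ≤ 4 * A * C * ‖v‖ ^ 2 := by
          apply mul_le_mul_of_nonneg_right _ hv
          nlinarith
        nlinarith
    · rcases le_or_gt ‖p‖ (R + 3) with hp3 | hp3
      · have hg2' := hg2 p v (by linarith)
        have h5 := hlow x p v hp3
        obtain ⟨b0, b1, b2⟩ := hbd x p hp3
        have h6 := TF3_op b2 v
        have h7 := TF3_op (hB2 p hp3) v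
        have h8 := TF3_op1 (hB1 p hp3) v
        have h9 := TF3_op1 b1 v
        have h10 : |fderiv ℝ (fderiv ℝ χ) p v v * H (x, p)| ≤ A * C * ‖v‖ ^ 2 := by
          rw [abs_mul]
          calc |fderiv ℝ (fderiv ℝ χ) p v v| * |H (x, p)| ≤ (A * ‖v‖ ^ 2) * C :=
                mul_le_mul h7 b0 (abs_nonneg _) (by positivity)
            _ = A * C * ‖v‖ ^ 2 := by ring
        have h11 : |fderiv ℝ χ p v * fderiv ℝ (fun q => H (x, q)) p v| ≤ A * C * ‖v‖ ^ 2 := by
          rw [abs_mul]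
          calc |fderiv ℝ χ p v| * |fderiv ℝ (fun q => H (x, q)) p v| ≤ (A * ‖v‖) * (C * ‖v‖) :=
                mul_le_mul h8 h9 (abs_nonneg _) (by positivity)
            _ = A * C * ‖v‖ ^ 2 := by ring
        have h12 : 0 ≤ χ p * fderiv ℝ (fderiv ℝ (fun q => H (x, q))) p v v :=
          mul_nonneg (hχb p).1 (le_trans (by positivity) h5)
        have h13 : χ p * fderiv ℝ (fderiv ℝ (fun q => H (x, q))) p v v ≤ C * ‖v‖ ^ 2 := by
          have h14 : fderiv ℝ (fderiv ℝ (fun q => H (x, q))) p v v ≤ C * ‖v‖ ^ 2 := (le_abs_self _).trans h6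
          have h15 : 0 ≤ fderiv ℝ (fderiv ℝ (fun q => H (x, q))) p v v := le_trans (by positivity) h5
          calc χ p * fderiv ℝ (fderiv ℝ (fun q => H (x, q))) p v v
              ≤ 1 * fderiv ℝ (fderiv ℝ (fun q => H (x, q))) p v v :=
                mul_le_mul_of_nonneg_right (hχb p).2 h15
            _ ≤ C * ‖v‖ ^ 2 := by rw [one_mul]; exact h14
        have h16 : K * (2 * ‖v‖ ^ 2) ≤ K * fderiv ℝ (fderiv ℝ g) p v v :=
          mul_le_mul_of_nonneg_left hg2' (by linarith)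
        have h10' := abs_le.mp h10
        have h11' := abs_le.mp h11
        have hACv : 0 ≤ A * C * ‖v‖ ^ 2 := mul_nonneg hAC.le hv
        constructor
        · have h17 : K * (2 * ‖v‖ ^ 2) = 4 * (A * C * ‖v‖ ^ 2) + 2 * ‖v‖ ^ 2 := by rw [hK]; ring
          have h18 : m * ‖v‖ ^ 2 ≤ 2 * ‖v‖ ^ 2 := mul_le_mul_of_nonneg_right hm2 hv
          linarith [h10'.1, h11'.1]
        · have h17 : M * ‖v‖ ^ 2 = 4 * (A * C * ‖v‖ ^ 2) + K * Cg * ‖v‖ ^ 2 := by rw [hM]; ring
          have h18 : C * ‖v‖ ^ 2 ≤ A * C * ‖v‖ ^ 2 := by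
            apply mul_le_mul_of_nonneg_right _ hv
            nlinarith
          linarith [h10'.2, h11'.2]
      · -- χ = 0 near p
        have hnear : ∀ᶠ q in 𝓝 p, χ q = 0 := by
          have : ∀ᶠ q in 𝓝 p, R + 3 < ‖q‖ := (continuous_norm.tendsto p).eventually (lt_mem_nhds hp3)
          filter_upwards [this] with q hq
          exact hχ0 q (by linarith)
        have e1 : ∀ᶠ q in 𝓝 p, fderiv ℝ χ q = 0 := by
          filter_upwards [hnear.eventually_nhds] with q hq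
          have : χ =ᶠ[𝓝 q] fun _ => (0 : ℝ) := hq
          rw [this.fderiv_eq]
          simp
        have e2 : fderiv ℝ (fderiv ℝ χ) p = 0 := by
          have : fderiv ℝ χ =ᶠ[𝓝 p] fun _ => (0 : E →L[ℝ] ℝ) := e1
          rw [this.fderiv_eq]
          simp
        have e3 : fderiv ℝ χ p = 0 := e1.self_of_nhds
        have e4 : χ p = 0 := hnear.self_of_nhds
        have hg2' := hg2 p v (by linarith)
        have h16 : K * (2 * ‖v‖ ^ 2) ≤ K * fderiv ℝ (fderiv ℝ g) p v v :=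
          mul_le_mul_of_nonneg_left hg2' (by linarith)
        have hACv : 0 ≤ A * C * ‖v‖ ^ 2 := mul_nonneg hAC.le hv
        rw [e2, e3, e4]
        simp only [_root_.zero_apply, zero_mul, mul_zero, zero_add]
        constructor
        · have h17 : K * (2 * ‖v‖ ^ 2) = 4 * (A * C * ‖v‖ ^ 2) + 2 * ‖v‖ ^ 2 := by rw [hK]; ring
          have h18 : m * ‖v‖ ^ 2 ≤ 2 * ‖v‖ ^ 2 := mul_le_mul_of_nonneg_right hm2 hv
          linarith
        · have h17 : M * ‖v‖ ^ 2 = 4 * (A * C * ‖v‖ ^ 2) + K * Cg * ‖v‖ ^ 2 := by rw [hM]; ring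
          linarith
  refine ⟨fun z => χ z.2 * H z + K * g z.2,
    fun z => gradient (fun q => χ q * H (z.1, q) + K * g q) z.2, hH', ?_, ?_⟩
  · refine hamK_of_hess (H := fun z => χ z.2 * H z + K * g z.2) hH' ?_ (by linarith) ?_
    · intro p i x
      have := hper p i x
      simp only at this ⊢
      rw [this]
    · intro x p v
      have hk := key x p v
      have hv : 0 ≤ ‖v‖ ^ 2 := by positivity
      constructor
      · refine le_trans ?_ hk.1
        rw [div_le_iff₀ (by linarith)]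
        have h1 : 1 ≤ m * (2 * La) := by
          rw [div_le_iff₀ (by positivity)] at hLam
          linarith
        nlinarith
      · refine hk.2.trans ?_
        apply mul_le_mul_of_nonneg_right _ hv
        linarith
  · intro x p hp
    have hnear : (fun q => χ q * H (x, q) + K * g q) =ᶠ[𝓝 p] fun q => H (x, q) := by
      have : ∀ᶠ q in 𝓝 p, ‖q‖ < R + 1 :=
        (continuous_norm.tendsto p).eventually (gt_mem_nhds (by linarith))
      filter_upwards [this] with q hq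
      rw [hχ1 q (by linarith), hg0 q (by linarith)]
      ring
    refine ⟨?_, ?_⟩
    · simpa using hnear.self_of_nhds
    · simp only [gradient]
      rw [hnear.fderiv_eq]

end Pool.Agent.LRW
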