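import Pool.Agent.LRW.TW0
import Pool.Agent.LRW.TE
import Pool.Agent.LRW.KN
import Pool.Agent.LRW.KAs

/-!
TW: the foliation for all Hamiltonians in a strong neighbourhood of an integrable Tonelli Hamiltonian.
-/

set_option autoImplicit false

open MeasureTheory Module Set Filter Topology

namespace Pool.Agent.LRW

open Pool.H45.Mather Pool.Agent.LRT

noncomputable section

variable {n : ℕ}

/-- the gradient of the sum with respect to `p` -/
lemma tw_hamT {h : RE n → ℝ} (hh : ContDiff ℝ 2 h) {f : RE n × RE n → ℝ} (hf : ContDiff ℝ 2 f)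
    (hper : ∀ p, Per (bs n) (fun x => f (x, p)))
    (hpos : ∀ x p v, 0 ≤ fderiv ℝ (fderiv ℝ (fun q => h q + f (x, q))) p v v)
    (hsup : ∀ A : ℝ, ∃ B : ℝ, ∀ p, A * ‖p‖ - B ≤ h p) (hf1 : ∀ x p, |f (x, p)| ≤ 1) :
    HamT (bs n) (fun z => h z.2 + f z) (fun z => gradient (fun q => h q + f (z.1, q)) z.2) := by
  refine hamT_of_hess (H := fun z : RE n × RE n => h z.2 + f z) (sum_contDiff hh hf) (fun p => ?_) hpos
    (fun A => ?_)
  · exact (hper p).comp (fun t => h p + t)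
  · obtain ⟨B, hB⟩ := hsup A
    refine ⟨B + 1, fun x p => ?_⟩
    have h1 := hB p
    have h2 := (abs_le.1 (hf1 x p)).1
    simp only []
    linarith

/-- truncation with uniform constants -/
lemma tw_trunc {h : RE n → ℝ} (hh2 : ContDiff ℝ 2 h) (hpos : ∀ p v, v ≠ 0 → 0 < fderiv ℝ (fderiv ℝ h) p v v)
    {R : ℝ} (hR0 : 0 ≤ R) : ∃ La' : ℝ, 1 ≤ La' ∧ ∀ f : RE n × RE n → ℝ, ContDiff ℝ 2 f →
    (∀ p, Per (bs n) (fun x => f (x, p))) →
    (∀ j ≤ 2, ∀ x p, ‖iteratedFDeriv ℝ j f (x, p)‖ ≤ 1) →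
    (∀ x p v, 1 / 2 * fderiv ℝ (fderiv ℝ h) p v v ≤
      fderiv ℝ (fderiv ℝ (fun q => h q + f (x, q))) p v v) →
    ∃ (H' : RE n × RE n → ℝ) (Hp' : RE n × RE n → RE n), HamK La' (bs n) H' Hp' ∧
      ∀ x p, ‖p‖ ≤ R → H' (x, p) = h p + f (x, p) ∧ Hp' (x, p) = gradient (fun q => h q + f (x, q)) p := by
  obtain ⟨lam, hlam, hlow⟩ := hess_lower hh2 hpos (R + 3)
  obtain ⟨C, hC, hup⟩ := jet_upper hh2 (R + 3)
  obtain ⟨La', hLa', hHR⟩ := exists_HR (bs n) (R := R) (lam := 1 / 2 * lam) (C := C + 1) hR0 (by positivity)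
    (by positivity)
  refine ⟨La', hLa', fun f hf2 hper hf1 hconv => ?_⟩
  have hsl : ∀ x p, |f (x, p)| ≤ 1 ∧ ‖fderiv ℝ (fun q => f (x, q)) p‖ ≤ 1 ∧
      ‖fderiv ℝ (fderiv ℝ (fun q => f (x, q))) p‖ ≤ 1 := by
    intro x p
    obtain ⟨a1, a2, a3, -⟩ := slice_bound hf2 (fun j hj => hf1 j hj x p)
    exact ⟨a1, a2, a3⟩
  have hH2 : ContDiff ℝ 2 (fun z : RE n × RE n => h z.2 + f z) := sum_contDiff hh2 hf2
  obtain ⟨H', Hp', -, hK', heq⟩ := hHR (fun z : RE n × RE n => h z.2 + f z) hH2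
    (fun p => (hper p).comp (fun t => h p + t))
    (fun x p v hp => by
      have h1 := hlow p v hp
      have h2 := hconv x p v
      simp only []
      linarith)
    (fun x p hp => by
      obtain ⟨a1, a2, a3⟩ := hsl x p
      obtain ⟨b1, b2, b3⟩ := hup p hp
      refine ⟨?_, ?_, ?_⟩
      · exact (abs_add_le _ _).trans (add_le_add b1 a1)
      · have e := congrFun (sum_fderiv hh2 hf2 x) p
        simp only []
        rw [e]
        exact (norm_add_le _ _).trans (add_le_add b2 a2)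
      · simp only []
        rw [sum_fderiv2 hh2 hf2 x p]
        have h5 := ContinuousLinearMap.opNorm_add_le (fderiv ℝ (fderiv ℝ h) p)
          (fderiv ℝ (fderiv ℝ (fun q => f (x, q))) p)
        linarith)
  exact ⟨H', Hp', hK', heq⟩

/-- the local step -/
theorem tw_local (n : ℕ) (hn : 2 ≤ n) : ∃ s : ℕ, 3 ≤ s ∧ ∀ h : RE n → ℝ, ContDiff ℝ s h →
    (∀ p v, v ≠ 0 → 0 < fderiv ℝ (fderiv ℝ h) p v v) →
    (∀ A : ℝ, ∃ B : ℝ, ∀ p, A * ‖p‖ - B ≤ h p) →
    ∀ pst : RE n, ∃ ef r : ℝ, 0 < ef ∧ 0 < r ∧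
    ∀ f : RE n × RE n → ℝ, ContDiff ℝ s f → (∀ p, Per (bs n) (fun x => f (x, p))) →
    (∀ j ≤ 2, ∀ x p, ‖iteratedFDeriv ℝ j f (x, p)‖ ≤ 1) →
    (∀ x p v, 1 / 2 * fderiv ℝ (fderiv ℝ h) p v v ≤
      fderiv ℝ (fderiv ℝ (fun q => h q + f (x, q))) p v v) →
    (∀ j ≤ s, ∀ x p, ‖p - pst‖ ≤ 1 → ‖iteratedFDeriv ℝ j f (x, p)‖ ≤ ef) →
    Differentiable ℝ (betaL (bs n) (Leg (fun z => h z.2 + f z))) →
    ∀ w₀, ‖w₀ - gradient h pst‖ < r → ∃ (m K r' : ℝ) (c : RE n → RE n) (P : RE n → RE n → RE n), 0 < m ∧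
      FFam (bs n) (fun z => h z.2 + f z) (fun z => gradient (fun q => h q + f (z.1, q)) z.2) w₀ m K r' c P := by
  obtain ⟨s, hs, hN⟩ := local_fam n hn
  refine ⟨s, hs, fun h hh hpos hsup pst => ?_⟩
  have hh2 : ContDiff ℝ 2 h := hh.of_le (by exact_mod_cast (by omega : 2 ≤ s))
  choose B hB using hsup
  set r₀ : ℝ := ‖gradient h pst‖ + 2 with hr₀
  have hr₀0 : 0 ≤ r₀ := by positivity
  obtain ⟨R₁, hR₁, hbeta⟩ := beta_local_unif (bs n) (fun A => B A + 1) (C₀ := |h 0| + 1) hr₀0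
  set R : ℝ := max R₁ (‖pst‖ + 2) with hR
  have hR0 : 0 ≤ R := hR₁.le.trans (le_max_left _ _)
  obtain ⟨lam, hlam, hlow⟩ := hess_lower hh2 hpos (R + 3)
  obtain ⟨C, hC, hup⟩ := jet_upper hh2 (R + 3)
  obtain ⟨La', hLa', hHR⟩ := tw_trunc hh2 hpos hR0
  -- the constant at `pst`
  obtain ⟨La, hLa, hLaB⟩ : ∃ La : ℝ, 1 ≤ La ∧ ∀ v, ‖v‖ ^ 2 / (2 * La) ≤ fderiv ℝ (fderiv ℝ h) pst v v ∧
      fderiv ℝ (fderiv ℝ h) pst v v ≤ 2 * La * ‖v‖ ^ 2 := by
    have hp : ‖pst‖ ≤ R + 3 := by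
      have := le_max_right R₁ (‖pst‖ + 2)
      linarith
    refine ⟨max 1 (max (1 / (2 * lam)) C), le_max_left _ _, fun v => ?_⟩
    have h1 : 1 / (2 * lam) ≤ max 1 (max (1 / (2 * lam)) C) := (le_max_left _ _).trans (le_max_right _ _)
    have h2 : C ≤ max 1 (max (1 / (2 * lam)) C) := (le_max_right _ _).trans (le_max_right _ _)
    set La := max 1 (max (1 / (2 * lam)) C)
    have h0 : 0 < La := hC.trans_le h2
    have h3 := hlow pst v hp
    have h4 := (hup pst hp).2.2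
    have hv : 0 ≤ ‖v‖ ^ 2 := by positivity
    constructor
    · refine le_trans ?_ h3
      rw [div_le_iff₀ (by positivity)]
      rw [div_le_iff₀ (by positivity)] at h1
      nlinarith
    · have h5 := (fderiv ℝ (fderiv ℝ h) pst).le_opNorm₂ v v
      have h6 := (le_abs_self _).trans h5
      have h7 : ‖fderiv ℝ (fderiv ℝ h) pst‖ * ‖v‖ * ‖v‖ ≤ C * ‖v‖ ^ 2 := by
        rw [pow_two, ← mul_assoc]
        gcongr
      nlinarith
  obtain ⟨ef, ρ, r, m, K, hef, hρ, hρ1, hr, hm, hfam⟩ := hN h hh pst hLa hLa' hLaB 1 one_pos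
  refine ⟨ef, r, hef, hr, fun f hf hper hf1 hconv hsm hdiff w₀ hw₀ => ?_⟩
  have hf2 : ContDiff ℝ 2 f := hf.of_le (by exact_mod_cast (by omega : 2 ≤ s))
  have hsl : ∀ x p, |f (x, p)| ≤ 1 ∧ ‖fderiv ℝ (fun q => f (x, q)) p‖ ≤ 1 ∧
      ‖fderiv ℝ (fderiv ℝ (fun q => f (x, q))) p‖ ≤ 1 := by
    intro x p
    obtain ⟨a1, a2, a3, -⟩ := slice_bound hf2 (fun j hj => hf1 j hj x p)
    exact ⟨a1, a2, a3⟩
  have hconv0 : ∀ x p v, 0 ≤ fderiv ℝ (fderiv ℝ (fun q => h q + f (x, q))) p v v := by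
    intro x p v
    refine le_trans ?_ (hconv x p v)
    rcases eq_or_ne v 0 with rfl | hv
    · simp
    · have := hpos p v hv
      positivity
  set H : RE n × RE n → ℝ := fun z => h z.2 + f z with hH
  set Hp : RE n × RE n → RE n := fun z => gradient (fun q => h q + f (z.1, q)) z.2 with hHp
  have hT : HamT (bs n) H Hp := tw_hamT hh2 hf2 hper hconv0 (fun A => ⟨B A, hB A⟩) (fun x p => (hsl x p).1)
  have hH2 : ContDiff ℝ 2 H := sum_contDiff hh2 hf2
  obtain ⟨H', Hp', hK', heq⟩ := hHR f hf2 hper hf1 hconv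
  have hb := hbeta H Hp hT (fun A x p => by
      have h1 := hB A p
      have h2 := (abs_le.1 (hsl x p).1).1
      simp only [hH]
      linarith)
    (fun x => (abs_add_le _ _).trans (add_le_add le_rfl (hsl x 0).1)) R (le_max_left _ _) H' Hp' (hK'.hamT hLa') heq
  have hd' : ∀ w, ‖w - gradient h pst‖ < ρ → DifferentiableAt ℝ (betaL (bs n) (Leg H')) w := by
    intro w hw
    have hev : betaL (bs n) (Leg H') =ᶠ[𝓝 w] betaL (bs n) (Leg H) := by
      have hw1 : ‖w‖ < r₀ := by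
        have e : w = (w - gradient h pst) + gradient h pst := by abel
        have := norm_add_le (w - gradient h pst) (gradient h pst)
        rw [← e] at this
        linarith
      have : ∀ᶠ y in 𝓝 w, ‖y‖ < r₀ := (continuous_norm.tendsto w).eventually (gt_mem_nhds hw1)
      filter_upwards [this] with y hy
      exact hb y hy.le
    exact hev.symm.differentiableAt_iff.1 (hdiff w) 
  obtain ⟨c, P, hF, hP⟩ := hfam f hf hper hsm H' Hp' hK' (fun x p hp => by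
    refine (heq x p ?_).1
    have e : p = (p - pst) + pst := by abel
    have h1 := norm_add_le (p - pst) pst
    rw [← e] at h1
    have h2 := le_max_right R₁ (‖pst‖ + 2)
    linarith) hd'
  refine ⟨m, K, (r - ‖w₀ - gradient h pst‖), c, P, hm, ?_⟩
  have hF' : FFam (bs n) H Hp (gradient h pst) m K r c P := by
    refine hF.congr fun w hw x => ?_
    have h1 := hP w hw x
    have e : P w x = (P w x - pst) + pst := by abel
    have h2 := norm_add_le (P w x - pst) pst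
    rw [← e] at h2
    have h3 := le_max_right R₁ (‖pst‖ + 2)
    have h4 := heq x (P w x) (by linarith)
    exact ⟨h4.1.symm, h4.2.symm⟩
  exact hF'.mono le_rfl le_rfl (by linarith) (by linarith)

lemma exists_low {α : Type*} (t : Finset α) {e : α → ℝ} (he : ∀ x, 0 < e x) :
    ∃ c : ℝ, 0 < c ∧ ∀ x ∈ t, c ≤ e x := by
  classical
  induction t using Finset.induction_on with
  | empty => exact ⟨1, one_pos, by simp⟩
  | insert a t ha ih =>
    obtain ⟨c, hc, h⟩ := ih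
    refine ⟨min c (e a), lt_min hc (he a), fun x hx => ?_⟩
    rcases Finset.mem_insert.1 hx with rfl | hx
    · exact min_le_right _ _
    · exact (min_le_left _ _).trans (h x hx)

/-- near every integrable Tonelli Hamiltonian, differentiability of the beta function implies integrability -/
theorem near_integrable (n : ℕ) (hn : 2 ≤ n) : ∃ s : ℕ, 3 ≤ s ∧ ∀ h : RE n → ℝ, ContDiff ℝ s h →
    (∀ p v, v ≠ 0 → 0 < fderiv ℝ (fderiv ℝ h) p v v) →
    (∀ A : ℝ, ∃ B : ℝ, ∀ p, A * ‖p‖ - B ≤ h p) →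
    ∃ η : ℝ → ℝ, Antitone η ∧ (∀ r, 0 < η r) ∧
    ∀ f : RE n × RE n → ℝ, ContDiff ℝ s f → (∀ p, Per (bs n) (fun x => f (x, p))) →
    (∀ j ≤ s, ∀ x p, ‖iteratedFDeriv ℝ j f (x, p)‖ ≤ η ‖p‖) →
    Differentiable ℝ (betaL (bs n) (Leg (fun z => h z.2 + f z))) →
    C0Int (bs n) (fun z => h z.2 + f z) := by
  obtain ⟨s, hs, hL⟩ := tw_local n hn
  refine ⟨s, hs, fun h hh hpos hsup => ?_⟩
  have hh2 : ContDiff ℝ 2 h := hh.of_le (by exact_mod_cast (by omega : 2 ≤ s))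
  choose ef r hef hr hloc using hL h hh hpos hsup
  have hgc : Continuous (gradient h) :=
    (InnerProductSpace.toDual ℝ (RE n)).symm.continuous.comp (hh2.continuous_fderiv (by norm_num))
  have hcov : ∀ k : ℕ, ∃ t : Finset (RE n), (∀ x ∈ t, (k : ℝ) ≤ ‖x‖) ∧
      ∀ p, (k : ℝ) ≤ ‖p‖ → ‖p‖ ≤ k + 1 → ∃ x ∈ t, ‖gradient h p - gradient h x‖ < r x := by
    intro k
    have hK : IsCompact (Metric.closedBall (0 : RE n) (k + 1) ∩ {p | (k : ℝ) ≤ ‖p‖}) :=
      (isCompact_closedBall _ _).inter_right (isClosed_le continuous_const continuous_norm)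
    obtain ⟨t, ht1, ht2⟩ := hK.elim_nhds_subcover (fun x => {p | ‖gradient h p - gradient h x‖ < r x})
      (fun x _ => by
        have h1 : Continuous fun p => ‖gradient h p - gradient h x‖ := (hgc.sub continuous_const).norm
        have h2 := h1.tendsto x
        simp only [sub_self, norm_zero] at h2
        exact h2.eventually (gt_mem_nhds (hr x)))
    refine ⟨t, fun x hx => (ht1 x hx).2, fun p h1 h2 => ?_⟩
    have h3 := ht2 (⟨by simpa using h2, h1⟩ : p ∈ Metric.closedBall (0 : RE n) (k + 1) ∩ {p | (k : ℝ) ≤ ‖p‖})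
    simpa using h3
  choose t ht1 ht2 using hcov
  choose e he1 he2 using fun k => exists_low (t k) hef
  choose lam hlam hlow using fun k : ℕ => hess_lower hh2 hpos k
  obtain ⟨η, η1, η2, η3⟩ := exists_step (a := fun k => min (min 1 (1 / 2 * lam k)) (e k)) (fun k => by
    have h1 := hlam k
    have h2 := he1 k
    exact lt_min (lt_min one_pos (by positivity)) h2)
  refine ⟨η, η1, η2, fun f hf hper hsm hdiff => ?_⟩
  have hf2 : ContDiff ℝ 2 f := hf.of_le (by exact_mod_cast (by omega : 2 ≤ s))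
  have hη1 : ∀ p : RE n, η ‖p‖ ≤ 1 := fun p =>
    (η3 ‖p‖ 0 (by omega)).trans ((min_le_left _ _).trans (min_le_left _ _))
  have hf1 : ∀ j ≤ 2, ∀ x p, ‖iteratedFDeriv ℝ j f (x, p)‖ ≤ 1 := fun j hj x p =>
    (hsm j (by omega) x p).trans (hη1 p)
  have hsl : ∀ x p, |f (x, p)| ≤ 1 := fun x p => (slice_bound hf2 (fun j hj => hf1 j hj x p)).1
  have hconv : ∀ x p v, 1 / 2 * fderiv ℝ (fderiv ℝ h) p v v ≤
      fderiv ℝ (fderiv ℝ (fun q => h q + f (x, q))) p v v := by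
    intro x p v
    have e1 := congrArg (fun L : RE n →L[ℝ] RE n →L[ℝ] ℝ => L v v) (sum_fderiv2 hh2 hf2 x p)
    simp only [add_apply] at e1
    rw [e1]
    obtain ⟨-, -, -, h2⟩ := slice_bound hf2 (ε := η ‖p‖) (fun j hj => hsm j (by omega) x p)
    have h3 := (abs_le.1 (h2 v)).1
    have h4 := hlow ⌈‖p‖⌉₊ p v (Nat.le_ceil _)
    have h5 : η ‖p‖ ≤ 1 / 2 * lam ⌈‖p‖⌉₊ :=
      (η3 ‖p‖ ⌈‖p‖⌉₊ (by omega)).trans ((min_le_left _ _).trans (min_le_right _ _))
    have h6 : η ‖p‖ * ‖v‖ ^ 2 ≤ 1 / 2 * lam ⌈‖p‖⌉₊ * ‖v‖ ^ 2 := mul_le_mul_of_nonneg_right h5 (by positivity)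
    linarith
  have hsurj : ∀ w₀ : RE n, ∃ p, gradient h p = w₀ := by
    intro w₀
    have hT : HamT (bs n) (fun z : RE n × RE n => h z.2) (fun z => gradient (fun q => h q) z.2) :=
      hamT_of_hess (H := fun z : RE n × RE n => h z.2) (hh2.comp contDiff_snd) (fun p i x => rfl)
        (fun x p v => by
          rcases eq_or_ne v 0 with rfl | hv
          · simp
          · exact (hpos p v hv).le)
        (fun A => by
          obtain ⟨B, hB⟩ := hsup A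
          exact ⟨B, fun x p => hB p⟩)
    obtain ⟨p, hp, -⟩ := hT.max 0 w₀
    exact ⟨p, hp⟩
  refine asm (Hp := fun z => gradient (fun q => h q + f (z.1, q)) z.2) (sum_contDiff hh2 hf2) ?_ ?_ (fun x p => rfl) ?_
  · intro A
    obtain ⟨B, hB⟩ := hsup 1
    refine ⟨A + B + 1, fun x p hp => ?_⟩
    have h1 := hB p
    have h2 := (abs_le.1 (hsl x p)).1
    simp only []
    linarith
  · intro R
    obtain ⟨La', h1, h2⟩ := tw_trunc (n := n) hh2 hpos (le_max_right R 0)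
    obtain ⟨H', Hp', h3, h4⟩ := h2 f hf2 hper hf1 hconv
    exact ⟨La', H', Hp', h1, h3, fun x p hp => h4 x p (hp.trans (le_max_left _ _))⟩
  · intro w₀
    obtain ⟨p, hp⟩ := hsurj w₀
    obtain ⟨x, hx1, hx2⟩ := ht2 ⌊‖p‖⌋₊ p (Nat.floor_le (norm_nonneg _)) (Nat.lt_floor_add_one _).le
    rw [hp] at hx2
    refine hloc x f hf hper hf1 hconv (fun j hj y q hq => ?_) hdiff w₀ hx2
    refine (hsm j hj y q).trans ?_
    have h1 : (⌊‖p‖⌋₊ : ℝ) ≤ ‖q‖ + 1 := by
      have h2 := ht1 _ x hx1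
      have e1 : x = q - (q - x) := by abel
      have h3 : ‖x‖ ≤ ‖q‖ + ‖q - x‖ := by
        calc ‖x‖ = ‖q - (q - x)‖ := by rw [← e1]
          _ ≤ _ := norm_sub_le _ _
      linarith
    have h2 : ⌊‖p‖⌋₊ ≤ ⌈‖q‖⌉₊ + 2 := by
      have h3 := Nat.le_ceil ‖q‖
      have h4 : (⌊‖p‖⌋₊ : ℝ) ≤ ((⌈‖q‖⌉₊ + 1 : ℕ) : ℝ) := by
        push_cast
        linarith
      have h5 : ⌊‖p‖⌋₊ ≤ ⌈‖q‖⌉₊ + 1 := by exact_mod_cast h4
      omega
    exact (η3 ‖q‖ _ h2).trans ((min_le_right _ _).trans (he2 _ x hx1))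

end

end Pool.Agent.LRW
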