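import Pool.Agent.LRW.TW
import Pool.Agent.LRW.KNU
import Pool.Agent.LRW.KO

/-!
TWU: the local form of the theorem for all Hamiltonians in a strong neighbourhood of an integrable Tonelli Hamiltonian.
-/

set_option autoImplicit false

open MeasureTheory Module Set Filter Topology

namespace Pool.Agent.LRW

open Pool.H45.Mather Pool.Agent.LRT

noncomputable section

variable {n : ℕ}

/-- bounds of the derivatives on balls -/
lemma jets_upper {s : ℕ} {h : RE n → ℝ} (hh : ContDiff ℝ s h) (R : ℝ) :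
    ∃ C : ℝ, 0 ≤ C ∧ ∀ j ≤ s, ∀ p, ‖p‖ ≤ R → ‖iteratedFDeriv ℝ j h p‖ ≤ C := by
  have h1 : ∀ j : ℕ, ∃ C : ℝ, j ≤ s → ∀ p, ‖p‖ ≤ R → ‖iteratedFDeriv ℝ j h p‖ ≤ C := by
    intro j
    by_cases hj : j ≤ s
    · have hc : Continuous fun p => ‖iteratedFDeriv ℝ j h p‖ :=
        (hh.continuous_iteratedFDeriv (by exact_mod_cast hj)).norm
      obtain ⟨C, hC⟩ := (isCompact_closedBall (0 : RE n) R).exists_bound_of_continuousOn hc.continuousOn
      refine ⟨C, fun _ p hp => ?_⟩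
      have h2 := hC p (by simpa using hp)
      exact (le_abs_self _).trans h2
    · exact ⟨0, fun h => absurd h hj⟩
  choose C hC using h1
  refine ⟨∑ j ∈ Finset.range (s + 1), |C j|, Finset.sum_nonneg fun _ _ => abs_nonneg _, fun j hj p hp => ?_⟩
  refine (hC j hj p hp).trans ((le_abs_self _).trans ?_)
  exact Finset.single_le_sum (f := fun j => |C j|) (fun _ _ => abs_nonneg _) (Finset.mem_range.2 (by omega))

/-- the local step with uniform constants -/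
theorem tw_local_u (n : ℕ) (hn : 2 ≤ n) : ∃ s : ℕ, 3 ≤ s ∧ ∀ h : RE n → ℝ, ContDiff ℝ s h →
    (∀ p v, v ≠ 0 → 0 < fderiv ℝ (fderiv ℝ h) p v v) →
    (∀ A : ℝ, ∃ B : ℝ, ∀ p, A * ‖p‖ - B ≤ h p) →
    ∀ δ : ℝ, 0 < δ → δ ≤ 1 → ∀ k : ℝ, 0 ≤ k → ∃ ef : ℝ, 0 < ef ∧
    ∀ f : RE n × RE n → ℝ, ContDiff ℝ s f → (∀ p, Per (bs n) (fun x => f (x, p))) →
    (∀ j ≤ 2, ∀ x p, ‖iteratedFDeriv ℝ j f (x, p)‖ ≤ 1) →
    (∀ x p v, 1 / 2 * fderiv ℝ (fderiv ℝ h) p v v ≤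
      fderiv ℝ (fderiv ℝ (fun q => h q + f (x, q))) p v v) →
    ∀ pst : RE n, ‖pst‖ ≤ k →
    (∀ j ≤ s, ∀ x p, ‖p - pst‖ ≤ δ → ‖iteratedFDeriv ℝ j f (x, p)‖ ≤ ef) →
    (∀ w, ‖w - gradient h pst‖ < δ →
      DifferentiableAt ℝ (betaL (bs n) (Leg (fun z => h z.2 + f z))) w) →
    ∃ (w₀ : RE n) (m K r : ℝ) (c : RE n → RE n) (P : RE n → RE n → RE n), 0 < m ∧
      FFam (bs n) (fun z => h z.2 + f z) (fun z => gradient (fun q => h q + f (z.1, q)) z.2) w₀ m K r c P ∧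
      (∃ w, ‖w - w₀‖ < r ∧ c w = pst) ∧ ∀ x, ∃ w, ‖w - w₀‖ < r ∧ P w x = pst := by
  obtain ⟨s, hs, hN⟩ := local_fam_u n hn
  refine ⟨s, hs, fun h hh hpos hsup δ hδ hδ1 k hk => ?_⟩
  have hh2 : ContDiff ℝ 2 h := hh.of_le (by exact_mod_cast (by omega : 2 ≤ s))
  choose B hB using hsup
  obtain ⟨C₁, hC₁, hup₁⟩ := jet_upper hh2 k
  have hgr : ∀ p, ‖p‖ ≤ k → ‖gradient h p‖ ≤ C₁ := by
    intro p hp
    have h1 := (hup₁ p hp).2.1
    unfold gradient
    rwa [LinearIsometryEquiv.norm_map]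
  set r₀ : ℝ := C₁ + 2 with hr₀
  have hr₀0 : 0 ≤ r₀ := by positivity
  obtain ⟨R₁, hR₁, hbeta⟩ := beta_local_unif (bs n) (fun A => B A + 1) (C₀ := |h 0| + 1) hr₀0
  set R : ℝ := max R₁ (k + 2) with hR
  have hR0 : 0 ≤ R := hR₁.le.trans (le_max_left _ _)
  have hRk : k + 2 ≤ R := le_max_right _ _
  obtain ⟨lam, hlam, hlow⟩ := hess_lower hh2 hpos (R + 3)
  obtain ⟨C, hC, hup⟩ := jet_upper hh2 (R + 3)
  obtain ⟨M, hM, hjets⟩ := jets_upper hh (k + 1)
  obtain ⟨La', hLa', hHR⟩ := tw_trunc (n := n) hh2 hpos hR0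
  -- the constant
  obtain ⟨La, hLa, hLaB⟩ : ∃ La : ℝ, 1 ≤ La ∧ ∀ pst : RE n, ‖pst‖ ≤ k → ∀ v,
      ‖v‖ ^ 2 / (2 * La) ≤ fderiv ℝ (fderiv ℝ h) pst v v ∧
      fderiv ℝ (fderiv ℝ h) pst v v ≤ 2 * La * ‖v‖ ^ 2 := by
    refine ⟨max 1 (max (1 / (2 * lam)) C), le_max_left _ _, fun pst hp v => ?_⟩
    have hp : ‖pst‖ ≤ R + 3 := by linarith
    have h1 : 1 / (2 * lam) ≤ max 1 (max (1 / (2 * lam)) C) := (le_max_left _ _).trans (le_max_right _ _)
    have h2 : C ≤ max 1 (max (1 / (2 * lam)) C) := (le_max_right _ _).trans (le_max_right _ _)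
    set La := max 1 (max (1 / (2 * lam)) C)
    have h0 : 0 < La := hC.trans_le h2
    have h3 := hlow pst v hp
    have h4 := (hup pst hp).2.2
    have hv : 0 ≤ ‖v‖ ^ 2 := by positivity
    constructor
    · refine le_trans ?_ h3
      rw [div_le_iff₀ (by positivity)]
      rw [div_le_iff₀ (by positivity)] at h1
      nlinarith
    · have h5 := (fderiv ℝ (fderiv ℝ h) pst).le_opNorm₂ v v
      have h6 := (le_abs_self _).trans h5
      have h7 : ‖fderiv ℝ (fderiv ℝ h) pst‖ * ‖v‖ * ‖v‖ ≤ C * ‖v‖ ^ 2 := by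
        rw [pow_two, ← mul_assoc]
        gcongr
      nlinarith
  obtain ⟨ef, r, m, K, hef, hr, hm, hfam⟩ := hN hLa hLa' hM hδ
  refine ⟨ef, hef, fun f hf hper hf1 hconv pst hpst hsm hdiff => ?_⟩
  have hf2 : ContDiff ℝ 2 f := hf.of_le (by exact_mod_cast (by omega : 2 ≤ s))
  have hsl : ∀ x p, |f (x, p)| ≤ 1 := fun x p => (slice_bound hf2 (fun j hj => hf1 j hj x p)).1
  have hconv0 : ∀ x p v, 0 ≤ fderiv ℝ (fderiv ℝ (fun q => h q + f (x, q))) p v v := by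
    intro x p v
    refine le_trans ?_ (hconv x p v)
    rcases eq_or_ne v 0 with rfl | hv
    · simp
    · have := hpos p v hv
      positivity
  set H : RE n × RE n → ℝ := fun z => h z.2 + f z with hH
  set Hp : RE n × RE n → RE n := fun z => gradient (fun q => h q + f (z.1, q)) z.2 with hHp
  have hT : HamT (bs n) H Hp := tw_hamT hh2 hf2 hper hconv0 (fun A => ⟨B A, hB A⟩) hsl
  obtain ⟨H', Hp', hK', heq⟩ := hHR f hf2 hper hf1 hconv
  have hb := hbeta H Hp hT (fun A x p => by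
      have h1 := hB A p
      have h2 := (abs_le.1 (hsl x p)).1
      simp only [hH]
      linarith)
    (fun x => (abs_add_le _ _).trans (add_le_add le_rfl (hsl x 0))) R (le_max_left _ _) H' Hp' (hK'.hamT hLa') heq
  have hball : ∀ p, ‖p - pst‖ ≤ δ → ‖p‖ ≤ k + 1 := by
    intro p hp
    have e : p = (p - pst) + pst := by abel
    have h1 := norm_add_le (p - pst) pst
    rw [← e] at h1
    linarith
  have hd' : ∀ w, ‖w - gradient h pst‖ < δ → DifferentiableAt ℝ (betaL (bs n) (Leg H')) w := by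
    intro w hw
    have hev : betaL (bs n) (Leg H') =ᶠ[𝓝 w] betaL (bs n) (Leg H) := by
      have hw1 : ‖w‖ < r₀ := by
        have e : w = (w - gradient h pst) + gradient h pst := by abel
        have h1 := norm_add_le (w - gradient h pst) (gradient h pst)
        rw [← e] at h1
        have h2 := hgr pst hpst
        linarith
      have : ∀ᶠ y in 𝓝 w, ‖y‖ < r₀ := (continuous_norm.tendsto w).eventually (gt_mem_nhds hw1)
      filter_upwards [this] with y hy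
      exact hb y hy.le
    exact hev.symm.differentiableAt_iff.1 (hdiff w hw)
  obtain ⟨c, P, hF, hP, hc, hx⟩ := hfam h hh pst (hLaB pst hpst)
    (fun j _ hj p hp => hjets j hj p (hball p hp)) f hf hper hsm H' Hp' hK'
    (fun x p hp => (heq x p ((hball p hp).trans (by linarith))).1) hd'
  refine ⟨gradient h pst, m, K, r, c, P, hm, hF.congr fun w hw x => ?_, hc, hx⟩
  have h4 := heq x (P w x) ((hball _ (hP w hw x)).trans (by linarith))
  exact ⟨h4.1.symm, h4.2.symm⟩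

/-- near every integrable Tonelli Hamiltonian, local differentiability of the beta function implies local integrability -/
theorem near_integrable_loc (n : ℕ) (hn : 2 ≤ n) : ∃ s : ℕ, 3 ≤ s ∧ ∀ h : RE n → ℝ, ContDiff ℝ s h →
    (∀ p v, v ≠ 0 → 0 < fderiv ℝ (fderiv ℝ h) p v v) →
    (∀ A : ℝ, ∃ B : ℝ, ∀ p, A * ‖p‖ - B ≤ h p) → ∀ δ : ℝ, 0 < δ →
    ∃ η : ℝ → ℝ, Antitone η ∧ (∀ r, 0 < η r) ∧
    ∀ f : RE n × RE n → ℝ, ContDiff ℝ s f → (∀ p, Per (bs n) (fun x => f (x, p))) →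
    (∀ j ≤ s, ∀ x p, ‖iteratedFDeriv ℝ j f (x, p)‖ ≤ η ‖p‖) → ∀ U : Set (RE n),
    (∀ p ∈ U, ∀ w, ‖w - gradient h p‖ < δ →
      DifferentiableAt ℝ (betaL (bs n) (Leg (fun z => h z.2 + f z))) w) →
    FolOver (bs n) (fun z => h z.2 + f z) U := by
  obtain ⟨s, hs, hL⟩ := tw_local_u n hn
  refine ⟨s, hs, fun h hh hpos hsup δ' hδ' => ?_⟩
  have hh2 : ContDiff ℝ 2 h := hh.of_le (by exact_mod_cast (by omega : 2 ≤ s))
  set δ : ℝ := min δ' 1 with hδd
  have hδ : 0 < δ := lt_min hδ' one_pos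
  choose ef hef hloc using fun k : ℕ => hL h hh hpos hsup δ hδ (min_le_right _ _) k (Nat.cast_nonneg k)
  choose lam hlam hlow using fun k : ℕ => hess_lower hh2 hpos k
  obtain ⟨η, η1, η2, η3⟩ := exists_step (a := fun k => min (min 1 (1 / 2 * lam k)) (ef k)) (fun k => by
    have h1 := hlam k
    have h2 := hef k
    exact lt_min (lt_min one_pos (by positivity)) h2)
  refine ⟨η, η1, η2, fun f hf hper hsm U hdiff => ?_⟩
  have hf2 : ContDiff ℝ 2 f := hf.of_le (by exact_mod_cast (by omega : 2 ≤ s))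
  have hη1 : ∀ p : RE n, η ‖p‖ ≤ 1 := fun p =>
    (η3 ‖p‖ 0 (by omega)).trans ((min_le_left _ _).trans (min_le_left _ _))
  have hf1 : ∀ j ≤ 2, ∀ x p, ‖iteratedFDeriv ℝ j f (x, p)‖ ≤ 1 := fun j hj x p =>
    (hsm j (by omega) x p).trans (hη1 p)
  have hsl : ∀ x p, |f (x, p)| ≤ 1 := fun x p => (slice_bound hf2 (fun j hj => hf1 j hj x p)).1
  have hconv : ∀ x p v, 1 / 2 * fderiv ℝ (fderiv ℝ h) p v v ≤
      fderiv ℝ (fderiv ℝ (fun q => h q + f (x, q))) p v v := by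
    intro x p v
    have e1 := congrArg (fun L : RE n →L[ℝ] RE n →L[ℝ] ℝ => L v v) (sum_fderiv2 hh2 hf2 x p)
    simp only [add_apply] at e1
    rw [e1]
    obtain ⟨-, -, -, h2⟩ := slice_bound hf2 (ε := η ‖p‖) (fun j hj => hsm j (by omega) x p)
    have h3 := (abs_le.1 (h2 v)).1
    have h4 := hlow ⌈‖p‖⌉₊ p v (Nat.le_ceil _)
    have h5 : η ‖p‖ ≤ 1 / 2 * lam ⌈‖p‖⌉₊ :=
      (η3 ‖p‖ ⌈‖p‖⌉₊ (by omega)).trans ((min_le_left _ _).trans (min_le_right _ _))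
    have h6 : η ‖p‖ * ‖v‖ ^ 2 ≤ 1 / 2 * lam ⌈‖p‖⌉₊ * ‖v‖ ^ 2 := mul_le_mul_of_nonneg_right h5 (by positivity)
    linarith
  have hH2 : ContDiff ℝ 2 (fun z : RE n × RE n => h z.2 + f z) := sum_contDiff hh2 hf2
  have hL' : HamL (bs n) (fun z : RE n × RE n => h z.2 + f z)
      (fun z => gradient (fun q => h q + f (z.1, q)) z.2) := by
    refine hamL_of hH2 ?_ ?_ (fun x p => rfl)
    · intro A
      obtain ⟨B, hB⟩ := hsup 1
      refine ⟨A + B + 1, fun x p hp => ?_⟩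
      have h1 := hB p
      have h2 := (abs_le.1 (hsl x p)).1
      simp only []
      linarith
    · intro R
      obtain ⟨La', h1, h2⟩ := tw_trunc (n := n) hh2 hpos (le_max_right R 0)
      obtain ⟨H', Hp', h3, h4⟩ := h2 f hf2 hper hf1 hconv
      exact ⟨La', H', Hp', h1, h3, fun x p hp => h4 x p (hp.trans (le_max_left _ _))⟩
  refine folover_of_loc hH2 hL' (fun x p => rfl) fun p hp => ?_
  refine hloc ⌈‖p‖⌉₊ f hf hper hf1 hconv p (Nat.le_ceil _) (fun j hj y q hq => ?_)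
    (fun w hw => hdiff p hp w (hw.trans_le (min_le_left _ _)))
  refine (hsm j hj y q).trans ?_
  have h2 : ⌈‖p‖⌉₊ ≤ ⌈‖q‖⌉₊ + 2 := by
    have e1 : p = q - (q - p) := by abel
    have h3 : ‖p‖ ≤ ‖q‖ + ‖q - p‖ := by
      calc ‖p‖ = ‖q - (q - p)‖ := by rw [← e1]
        _ ≤ _ := norm_sub_le _ _
    have h4 : ‖q - p‖ ≤ 1 := hq.trans (min_le_right _ _)
    have h5 := Nat.le_ceil ‖q‖
    refine Nat.ceil_le.2 ?_
    push_cast
    linarith
  exact (η3 ‖q‖ _ h2).trans (min_le_right _ _)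

end

end Pool.Agent.LRW
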